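import Pool.Agent.P.MP_6f5b02_nt.Hy.IfP
import Pool.Agent.P.MP_8be758_nt.Pd.GEN

/-! Step EN. -/

namespace Pool.Agent.P.MP_6f5b02_nt.Hy.G

open Pool.Agent.P.MP_8be758_nt Pool.Agent.P.MP_8be758_nt.Pd
open Pool.Agent.P.MP_8be758_nt.Pd.G

open Finset Real Filter
open Pool.Agent.P.MP_8be758_nt.Par (cj det)
open Pool.Agent.P.MP_6f5b02_nt.Hy.Par (nq mul eu un red)
open Pool.Agent.P.MP_6f5b02_nt.Hy.Mr

theorem p_EN (hFEJ : S_FEJ) (hFAR : S_FAR) (hNEAR : S_NEAR) (hCNT : S_CNT) :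
    S_EN := by
  intro A η L hA hη hL
  obtain ⟨c, N0, hc, hcnt⟩ := hCNT A 2 (by omega) (by norm_num)
  obtain ⟨F, hF, hFAR⟩ := hFAR
  obtain ⟨L', hL'⟩ := exists_nat_ge (8 * F * L / (c * η) + 1)
  have hq : 0 ≤ 8 * F * L / (c * η) := by positivity
  have hL1 : (1 : ℝ) ≤ L' := by linarith
  have hL1' : 1 ≤ L' := by exact_mod_cast hL1
  obtain ⟨C1, C3, C, X1, h1, h3, hC, hnear⟩ := hNEAR A L' hA hL1'
  have hη' : 0 < η * c ^ 2 / (4 * C) := by positivity
  refine ⟨C1, C3, η * c ^ 2 / (4 * C), max X1 (max N0 (max L (2 * (L' : ℝ) ^ 2))), h1, h3, hη',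
    fun {_} X hX hbad => ?_⟩
  simp only [max_le_iff] at hX
  obtain ⟨x1, x2, x3, x4⟩ := hX
  have hL0 : 0 < L := by linarith
  have hX0 : 0 < X := by linarith
  have y1 : 1 ≤ X / L := by rw [le_div_iff₀ hL0]; linarith
  set n := ⌊X / L⌋₊ with hn
  have n1 : 1 ≤ n := Nat.le_floor (by exact_mod_cast y1)
  have n1' : (1 : ℝ) ≤ n := by exact_mod_cast n1
  have n2 : (n : ℝ) ≤ X := (Nat.floor_le (by linarith)).trans (div_le_self hX0.le hL)
  have n3 : X ≤ 2 * L * n := by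
    have := Nat.lt_floor_add_one (X / L)
    rw [div_lt_iff₀ hL0, ← hn] at this
    nlinarith
  have hu : ∀ v ∈ VX A X, ‖uu A v‖ = 1 := fun v hv => norm_uu hA (pr_ne ((of_mem_VX hA) hv).1)
  obtain ⟨f1, f2⟩ := hFEJ n n1
  have a1 := (f2 (VX A X) (uu A) (fl A) hu).2
  have a2 := (f2 (VX A X) (uu A) (fun _ => 1) hu).1
  have a3 := hFAR A n L' X hA n1 hL1' x4
  have a4 := hnear X _ x1 hη'.le hbad
  have a5 : c * X ≤ (VX A X).card := hcnt _ (Q0_mem (by omega)) X x2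
  have a6 := EN_split (VX A X) (fl A) (fun v w => KF n (uu A v * (starRingEnd ℂ) (uu A w))) L' n
    fl_cases (fun _ _ => KF_nonneg _ _) fun v hv w hw =>
      (f1 _ (by rw [norm_mul, RCLike.norm_conj, hu v hv, hu w hw, one_mul])).1
  simp only [one_mul, sum_const, nsmul_eq_mul, mul_one] at a2
  set M : ℝ := ((VX A X).card : ℝ) with hMd
  have hM0 : 0 < M := lt_of_lt_of_le (by positivity) a5
  have b1 : F * M * X ^ 2 / (n * L') ≤ η * M ^ 2 / 4 := by
    rw [div_le_iff₀ (by positivity)]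
    have c1 : 8 * F * L ≤ c * η * L' := by
      have : 8 * F * L / (c * η) ≤ L' := by linarith
      rw [div_le_iff₀ (by positivity)] at this
      linarith
    calc F * M * X ^ 2 = F * M * X * X := by ring
      _ ≤ F * M * X * (2 * L * n) := by gcongr
      _ = M * X * n / 4 * (8 * F * L) := by ring
      _ ≤ M * X * n / 4 * (c * η * L') := by gcongr
      _ = η * M / 4 * (n * L') * (c * X) := by ring
      _ ≤ η * M / 4 * (n * L') * M := by gcongr
      _ = _ := by ring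
  have b2 : n * (C * (η * c ^ 2 / (4 * C)) * X) ≤ η * M ^ 2 / 4 := by
    calc _ ≤ X * (C * (η * c ^ 2 / (4 * C)) * X) := by gcongr
      _ = η * (c * X) ^ 2 / 4 := by field_simp
      _ ≤ _ := by gcongr
  have b3 := mul_le_mul_of_nonneg_left a4 (show (0 : ℝ) ≤ n by linarith)
  refine le_trans ?_ a1
  linarith

end Pool.Agent.P.MP_6f5b02_nt.Hy.G
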