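import Pool.Agent.P.MP_6f5b02_nt.Hy.IfP

/-! Step FLA. -/

namespace Pool.Agent.P.MP_6f5b02_nt.Hy.G

open Pool.Agent.P.MP_8be758_nt Pool.Agent.P.MP_8be758_nt.Pd
open Pool.Agent.P.MP_8be758_nt.Pd.G

open Finset Real Filter
open Pool.Agent.P.MP_8be758_nt.Par (cj det)
open Pool.Agent.P.MP_6f5b02_nt.Hy.Par (nq mul eu un red)
open Pool.Agent.P.MP_6f5b02_nt.Hy.Mr

theorem FLA_pr {A : ℕ} {u v : V2} (hu : Pr u) (hv : Pr v) (h : IsCoprime (nq A u) (nq A v)) :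
    Pr (mul A u v) := by
  have key : ∀ {u v : V2}, Pr v →
      (Int.gcd (mul A u v).1 (mul A u v).2 : ℤ) ∣ nq A u := fun {u v} hv => by
    obtain ⟨a, ha⟩ := Int.gcd_dvd_left (mul A u v).1 (mul A u v).2
    obtain ⟨b, hb⟩ := Int.gcd_dvd_right (mul A u v).1 (mul A u v).2
    generalize (Int.gcd (mul A u v).1 (mul A u v).2 : ℤ) = c at ha hb
    have e : nq A u • v = c • mul A (cj u) (a, b) := by
      rw [← cj_mul_mul, ← mul_sm]
      exact congrArg _ (Prod.ext ha hb)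
    exact dvd_of_dvd_smul hv (e ▸ Dvd.intro _ rfl) (e ▸ Dvd.intro _ rfl)
  have h2 := key (u := v) hu
  rw [mul_cm] at h2
  have := Int.isUnit_iff_natAbs_eq.1 (h.isUnit_of_dvd' (key hv) h2)
  exact pr_iff.2 (by simpa using this)

theorem p_FLA (hREP1 : S_REP1) :
    S_FLA := by
  intro A hA
  have ex : ∀ d : ℕ, ∃ g : V2, (∀ p : ℕ, p.Prime → p ∣ d → 2 * 1 < p ∧ p ≡ 1 [MOD 17]) →
      (d.Prime ∨ ∃ p q : ℕ, p.Prime ∧ q.Prime ∧ p < q ∧ d = p * q) → Pr g ∧ nq A g = d := by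
    intro d
    by_cases h1 : ∀ p : ℕ, p.Prime → p ∣ d → 2 * 1 < p ∧ p ≡ 1 [MOD 17]
    swap
    · exact ⟨0, fun h => absurd h h1⟩
    by_cases h2 : d.Prime ∨ ∃ p q : ℕ, p.Prime ∧ q.Prime ∧ p < q ∧ d = p * q
    swap
    · exact ⟨0, fun _ h => absurd h h2⟩
    rcases h2 with h | ⟨p, q, hp, hq, hl, rfl⟩
    · obtain ⟨g, a⟩ := hREP1 A d hA h (h1 d h dvd_rfl).2
      exact ⟨g, fun _ _ => a⟩
    · obtain ⟨g, a, b⟩ := hREP1 A p hA hp (h1 p hp (dvd_mul_right _ _)).2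
      obtain ⟨g', a', b'⟩ := hREP1 A q hA hq (h1 q hq (dvd_mul_left _ _)).2
      exact ⟨mul A g g', fun _ _ => ⟨FLA_pr a a' (by
        rw [b, b']
        exact Nat.isCoprime_iff_coprime.2 ((Nat.coprime_primes hp hq).2 hl.ne)),
        by rw [Par.nq_mul, b, b', Nat.cast_mul]⟩⟩
  choose g hg using ex
  refine ⟨1, 1, le_rfl, one_pos, g, fun d h1 h2 => ?_⟩
  obtain ⟨a, b⟩ := hg d h1 h2
  refine ⟨pr_ne a, b ▸ dvd_rfl, fun w hw w0 _ hp => ?_⟩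
  have c2 : IsCoprime (d : ℤ) (nq A w) := by
    lift nq A w to ℕ using w0.le with N hN
    refine Nat.isCoprime_iff_coprime.2 (Nat.coprime_of_dvd fun p p1 p2 p3 => ?_)
    have := hp p p1 p2
    have := Nat.le_of_dvd (by omega) p3
    omega
  have d0 : (0 : ℤ) ≤ d * nq A w := by positivity
  refine ⟨FLA_pr a hw (b ▸ c2), ?_, ?_, ?_⟩
  · rw [Par.nq_mul, b]; simp
  · rw [Par.nq_mul, b]; push_cast; linarith
  · intro _
    rw [fl_mul hA (pr_ne a) (pr_ne hw), fl, b]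

end Pool.Agent.P.MP_6f5b02_nt.Hy.G
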