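import Pool.Agent.P.MP_6f5b02_nt.Hy.IfP
import Pool.Agent.P.MP_8be758_nt.Pd.GFLC

/-! Step FLC. -/

namespace Pool.Agent.P.MP_6f5b02_nt.Hy.G

open Pool.Agent.P.MP_8be758_nt Pool.Agent.P.MP_8be758_nt.Pd
open Pool.Agent.P.MP_8be758_nt.Pd.G

open Finset Real Filter
open Pool.Agent.P.MP_8be758_nt.Par (cj det)
open Pool.Agent.P.MP_6f5b02_nt.Hy.Par (nq mul eu un red)
open Pool.Agent.P.MP_6f5b02_nt.Hy.Mr

theorem p_FLC (hFLA : S_FLA) (hPAP : S_PAP) (hPAP2 : S_PAP2) (hWCT : S_WCT) :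
    S_FLC := by
  classical
  intro A r hA hr
  obtain ⟨Zs, M, hZ, hM, g, hF⟩ := hFLA A hA
  obtain ⟨c1, y1, hc1, h1⟩ := FLC_S hPAP hPAP2 (m := 17) (r := r) (by omega) (by omega)
  obtain ⟨c3, Y3, hc3, h3⟩ := hWCT A M hA hM
  have hZ1 : (1 : ℝ) ≤ Zs := by exact_mod_cast hZ
  refine ⟨c3 * c1 / (4 * Zs ^ 2), 2 + |y1| + |Y3| + Zs ^ 2 + 2 * Zs, by positivity, ?_⟩
  intro _ y s hy hs hN
  have n1 := le_abs_self y1
  have n2 := le_abs_self Y3
  have n3 := abs_nonneg y1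
  have n4 := abs_nonneg Y3
  have n5 : (0 : ℝ) < (Zs : ℝ) ^ 2 := by positivity
  have n6 : (1 : ℝ) ≤ (Zs : ℝ) ^ 2 := one_le_pow₀ hZ1
  have h2y : 2 ≤ y := by linarith
  have hy1 : (1 : ℝ) ≤ y := by linarith
  have hy0 : (0 : ℝ) < y := by linarith
  have hl : 0 < log y := log_pos (by linarith)
  set X := y ^ (2 * r + 6) with hX
  have hX0 : 0 < X := by positivity
  set J := Nat.log 2 ⌊y⌋₊ + 1 with hJ
  have hJ1 : log y ≤ J := by
    have a1 : ⌊y⌋₊ + 1 ≤ 2 ^ J := Nat.lt_pow_succ_log_self (by norm_num) _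
    have a2 : ((⌊y⌋₊ + 1 : ℕ) : ℝ) ≤ 2 ^ J := by exact_mod_cast a1
    have a3 : y ≤ 2 ^ J := by
      have := Nat.lt_floor_add_one y
      push_cast at a2; linarith
    have a4 := log_le_log hy0 a3
    rw [log_pow] at a4
    have a5 : log 2 ≤ 1 := by linarith [log_two_lt_d9]
    have a6 : (J : ℝ) * log 2 ≤ J * 1 := mul_le_mul_of_nonneg_left a5 (Nat.cast_nonneg _)
    linarith
  have hJ2 : ∀ j < J, (2 : ℝ) ^ j ≤ y := fun j hj => by
    have a0 : ⌊y⌋₊ ≠ 0 := (Nat.floor_pos.2 hy1).ne'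
    have a1 : 2 ^ j ≤ ⌊y⌋₊ := Nat.pow_le_of_le_log a0 (by omega)
    have a2 : (2 : ℝ) ^ j ≤ ⌊y⌋₊ := by exact_mod_cast a1
    exact a2.trans (Nat.floor_le hy0.le)
  set b := y ^ (2 * r + 2) with hb
  have hb0 : 0 < b := by positivity
  have hD1 : ∀ j : ℕ, b ≤ 2 ^ j * b := fun j =>
    le_mul_of_one_le_left hb0.le (one_le_pow₀ (by norm_num))
  have hD2 : ∀ j < J, 2 ^ j * b ≤ y ^ (2 * r + 3) := fun j hj => by
    rw [pow_succ' y (2 * r + 2)]
    exact mul_le_mul_of_nonneg_right (hJ2 j hj) hb0.le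
  have hS := fun (j : ℕ) (t : ℝ) (hj : j < J) (ht : t = 1 ∨ t = -1) =>
    h1 y (2 ^ j * b) t (by linarith) h2y (hD1 j) (hD2 j hj) ht hN
  choose! S hS1 hS2 using hS
  set Y : ℕ → ℝ := fun j => X / (2 ^ j * b * Zs ^ 2) with hY
  have hY1 : ∀ j < J, Y3 ≤ Y j := fun j hj => by
    refine n2.trans ?_
    show |Y3| ≤ X / (2 ^ j * b * Zs ^ 2)
    rw [le_div_iff₀ (by positivity)]
    have e : X = y * (y ^ (2 * r + 3) * y) * y := by rw [hX]; ring
    have a1 : 2 ^ j * b * Zs ^ 2 ≤ y ^ (2 * r + 3) * y :=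
      mul_le_mul (hD2 j hj) (by linarith) n5.le (by positivity)
    have a2 : |Y3| * (2 ^ j * b * Zs ^ 2) ≤ y * (y ^ (2 * r + 3) * y) :=
      mul_le_mul (by linarith) a1 (by positivity) hy0.le
    rw [e]
    exact a2.trans (le_mul_of_one_le_right (by positivity) hy1)
  have hY2 : ∀ j, 6 / 5 * Y j ≤ y ^ r := fun j => by
    have a1 : Y j ≤ y ^ 4 := by
      show X / (2 ^ j * b * Zs ^ 2) ≤ y ^ 4
      rw [div_le_iff₀ (by positivity)]
      have e : X = y ^ 4 * b := by rw [hX, hb]; ring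
      rw [e]
      exact mul_le_mul_of_nonneg_left
        ((hD1 j).trans (le_mul_of_one_le_right (by positivity) n6)) (by positivity)
    have a2 : y ^ 5 ≤ y ^ r := pow_le_pow_right₀ hy1 (by omega)
    have a3 : 2 * y ^ 4 ≤ y ^ 5 := by
      rw [pow_succ' y 4]; exact mul_le_mul_of_nonneg_right h2y (by positivity)
    have a4 : (0 : ℝ) < y ^ 4 := by positivity
    linarith
  set W : ℕ → Finset V2 := fun j =>
    (VV (Q0 A) (Y j) (6 / 5 * Y j)).filter fun w => C2 M w (1, 0) with hW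
  have hsg : ∀ w : V2, s * fl A w = 1 ∨ s * fl A w = -1 := fun w => by
    rcases hs with rfl | rfl <;> rcases fl_cases (A := A) w with h | h <;> simp [h]
  set T : Finset (Σ _ : ℕ, Σ _ : V2, ℕ) :=
    (range J).sigma fun j => (W j).sigma fun w => S j (s * fl A w) with hT
  have hyr : 2 * (Zs : ℝ) < y ^ r := lt_of_lt_of_le (by linarith) (le_self_pow₀ hy1 (by omega))
  have key : ∀ x ∈ T, (2 ^ x.1 * b < x.2.2 ∧ (x.2.2 : ℝ) ≤ 6 / 5 * (2 ^ x.1 * b)) ∧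
      FLC_E x.2.2 ∧ (∀ p : ℕ, p.Prime → p ∣ x.2.2 → y ^ r < p) ∧
      (g x.2.2 ≠ 0 ∧ Cn x.2.1) ∧ (x.2.2 : ℤ) ∣ nq A (mul A (g x.2.2) x.2.1) ∧
      red A (mul A (g x.2.2) x.2.1) ∈ (VX A X).filter fun v => fl A v = s := by
    rintro ⟨j, w, d⟩ hx
    obtain ⟨hj, hx⟩ := mem_sigma.1 hx
    obtain ⟨hw, hd⟩ := mem_sigma.1 hx
    dsimp only at hj hw hd ⊢
    obtain ⟨d1, d2, d3, d4, d5⟩ := hS2 j _ (mem_range.1 hj) (hsg w) d hd
    obtain ⟨w0, w4⟩ := mem_filter.1 hw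
    obtain ⟨w5, w1, w2, w3⟩ := (mem_VV0 hA).1 w0
    obtain ⟨g1, g2, g3⟩ := hF d (fun p hp hpd => ⟨by
      have := hyr.trans (d4 p hp hpd).1
      exact_mod_cast this, (d4 p hp hpd).2⟩) d3
    obtain ⟨v1, v2, v3, v4⟩ := g3 w w1 w5.nq_pos w4 fun p hp hpd => by
      have := lt_of_le_of_lt (w3.trans (hY2 j)) (d4 p hp hpd).1
      exact_mod_cast this
    refine ⟨⟨d1, d2⟩, d3, fun p hp hpd => (d4 p hp hpd).1, ⟨g1, w5⟩, ?_, ?_⟩
    · rw [Par.nq_mul]; exact g2.mul_right _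
    have hD0 : (0 : ℝ) < 2 ^ j * b := by positivity
    have hY0 : 0 < Y j := by show 0 < X / (2 ^ j * b * Zs ^ 2); positivity
    have e : 2 ^ j * b * Zs ^ 2 * Y j = X := by
      show 2 ^ j * b * Zs ^ 2 * (X / (2 ^ j * b * Zs ^ 2)) = X
      field_simp
    have v2' : (d : ℝ) * Zs ^ 2 * nq A w ≤ nq A (mul A (g d) w) := by exact_mod_cast v2
    have v3' : 100 * (nq A (mul A (g d) w) : ℝ) ≤ 121 * ((d : ℝ) * Zs ^ 2 * nq A w) := by
      exact_mod_cast v3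
    have u1 : X < (d : ℝ) * Zs ^ 2 * nq A w := by
      rw [← e]
      exact mul_lt_mul'' (mul_lt_mul_of_pos_right d1 n5) w2 (by positivity) hY0.le
    have u2 : (d : ℝ) * Zs ^ 2 * nq A w ≤ 6 / 5 * (2 ^ j * b) * Zs ^ 2 * (6 / 5 * Y j) :=
      mul_le_mul (mul_le_mul_of_nonneg_right d2 n5.le) w3 (by linarith) (by positivity)
    have u3 : 6 / 5 * (2 ^ j * b) * Zs ^ 2 * (6 / 5 * Y j) = 36 / 25 * X := by
      rw [← e]; ring
    have u4 : (0 : ℝ) < nq A (mul A (g d) w) := by linarith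
    refine mem_filter.2 ⟨(mem_VX hA).2 ⟨red_cn (by exact_mod_cast u4), pr_red.2 v1,
      by rw [nq_red]; linarith, by rw [nq_red]; linarith⟩, ?_⟩
    rw [fl_red, v4, d5, mul_assoc, fl_sq, mul_one]
  have up : T.card ≤ 4 * ((VX A X).filter fun v => fl A v = s).card := by
    refine card_le_mul_card_image_of_maps_to
      (f := fun x : Σ _ : ℕ, Σ _ : V2, ℕ => red A (mul A (g x.2.2) x.2.1))
      (fun x hx => by exact (key x hx).2.2.2.2.2) 4 fun v hv => ?_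
    obtain ⟨v1, -, v2, v3⟩ := (mem_VX hA).1 (mem_filter.1 hv).1
    have v4 : 0 < nq A v := v1.nq_pos
    have v5 : (((nq A v).natAbs : ℕ) : ℝ) < (y ^ r) ^ 3 := by
      rw [Nat.cast_natAbs, abs_of_pos v4]
      have a1 : y ^ (2 * r + 8) ≤ (y ^ r) ^ 3 := by
        rw [← pow_mul]; exact pow_le_pow_right₀ hy1 (by omega)
      have a2 : y ^ (2 * r + 8) = y * y * X := by rw [hX]; ring
      have a3 : 2 * 2 * X ≤ y * y * X :=
        mul_le_mul_of_nonneg_right (mul_le_mul h2y h2y (by norm_num) hy0.le) hX0.le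
      linarith
    obtain ⟨F, f1, f2⟩ := FLC_div (Int.natAbs_ne_zero.2 v4.ne') (one_le_pow₀ hy1) v5
    refine le_trans (card_le_card_of_injOn (fun x => x.2.2) (fun x hx => ?_) ?_) f1
    · obtain ⟨x1, x2⟩ := mem_filter.1 (mem_coe.1 hx)
      obtain ⟨-, k2, k3, -, k5, -⟩ := key x x1
      rw [← nq_red, x2] at k5
      exact mem_coe.2 (f2 _ (Int.natCast_dvd.1 k5) k2 k3)
    · rintro ⟨j, w, d⟩ hx ⟨j', w', d'⟩ hx' e
      obtain ⟨x1, x2⟩ := mem_filter.1 (mem_coe.1 hx)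
      obtain ⟨x3, x4⟩ := mem_filter.1 (mem_coe.1 hx')
      dsimp only at e x2 x4
      subst e
      obtain ⟨⟨k1, k2⟩, -, -, k4, -⟩ := key _ x1
      obtain ⟨⟨k5, k6⟩, -, -, k7, -⟩ := key _ x3
      dsimp only at k1 k2 k4 k5 k6
      have e1 : j = j' := le_antisymm (FLC_win hb0 k1 k6) (FLC_win hb0 k5 k2)
      have e2 : w = w' := red_inj k4.1 k4.2 k7.2 (x2.trans x4.symm)
      subst e1 e2
      rfl
  have lo : c3 * c1 / Zs ^ 2 * X ≤ T.card := by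
    rw [hT, card_sigma, Nat.cast_sum]
    have a1 : ∀ j ∈ range J, c3 * c1 / Zs ^ 2 * X / log y ≤
        (((W j).sigma fun w => S j (s * fl A w)).card : ℝ) := fun j hj => by
      rw [card_sigma, Nat.cast_sum]
      have a2 := card_nsmul_le_sum (W j) (fun w => ((S j (s * fl A w)).card : ℝ)) _
        fun w _ => hS1 j _ (mem_range.1 hj) (hsg w)
      rw [nsmul_eq_mul] at a2
      refine le_trans ?_ a2
      refine le_trans (le_of_eq ?_) (mul_le_mul_of_nonneg_right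
        (h3 (Y j) (hY1 j (mem_range.1 hj))) (by positivity))
      show _ = c3 * (X / (2 ^ j * b * Zs ^ 2)) * (c1 * (2 ^ j * b) / log y)
      field_simp
    have a3 := card_nsmul_le_sum _ _ _ a1
    rw [nsmul_eq_mul, card_range] at a3
    refine le_trans ?_ a3
    rw [mul_div_assoc', le_div_iff₀ hl, mul_comm]
    exact mul_le_mul_of_nonneg_right hJ1 (by positivity)
  have up' : (T.card : ℝ) ≤ 4 * ((VX A X).filter fun v => fl A v = s).card := by exact_mod_cast up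
  have e : c3 * c1 / (4 * Zs ^ 2) * X = c3 * c1 / Zs ^ 2 * X / 4 := by field_simp
  rw [e]
  linarith

end Pool.Agent.P.MP_6f5b02_nt.Hy.G
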