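import Pool.Agent.P.MP_6f5b02_nt.Hy.IfP
import Pool.Agent.P.MP_8be758_nt.Pd.GLSB1

/-! Step LSB1. -/

namespace Pool.Agent.P.MP_6f5b02_nt.Hy.G

open Pool.Agent.P.MP_8be758_nt Pool.Agent.P.MP_8be758_nt.Pd
open Pool.Agent.P.MP_8be758_nt.Pd.G

open Finset Real Filter
open Pool.Agent.P.MP_8be758_nt.Par (cj det)
open Pool.Agent.P.MP_6f5b02_nt.Hy.Par (nq mul eu un red)
open Pool.Agent.P.MP_6f5b02_nt.Hy.Mr

theorem p_LSB1 (hPR2 : S_PR2) (hNONC : S_NONC) :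
    S_LSB1 := by
  intro A hA h3
  obtain ⟨c, κ, C, X1, c0, k0, k1, C0, h1⟩ := hPR2 A (by omega)
  refine ⟨κ, C, k0, k1, C0, fun a τ ha hτ => ?_⟩
  obtain ⟨c2, X2, b0, b1, h2⟩ := hNONC A a τ hA h3 ha hτ
  refine ⟨c * c2, max (max X1 X2) 2, by positivity, fun {_} X σ h U d hX H hCs hH ha hQ hI hU => ?_⟩
  simp only [max_le_iff] at hX
  obtain ⟨⟨x1, x2⟩, x3⟩ := hX
  have P0 := H.Ph_pos h
  have n0 : (0 : ℝ) < (σ.I h).card :=
    (div_pos (mul_pos hτ P0) (log_pos (by linarith))).trans_le hI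
  have X0 : 0 < X := by linarith
  set D := fun p => dis A ((VX A X).filter fun v => Dv A p (cj (σ.γ p)) v) U d
  set R := C * σ.Q ^ 6 * X ^ (1 - κ) * U.card * ∑ k ∈ U, ‖d k‖ ^ 2 with hR
  refine le_of_mul_le_mul_left ?_ n0
  calc _ = ∑ k ∈ U.erase 0, c * X / (2 * σ.Ph h) * (‖d k‖ ^ 2 * (2 * c2 * (σ.I h).card ^ 2)) := by
        rw [← mul_sum, ← sum_mul]
        field_simp
    _ ≤ ∑ k ∈ U.erase 0, c * X / (2 * σ.Ph h) * (‖d k‖ ^ 2 *
        ∑ p ∈ σ.I h, ∑ q ∈ σ.I h, ‖ek A k (σ.γ p) - ek A k (σ.γ q)‖ ^ 2) := by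
        refine sum_le_sum fun k hk => ?_
        have g := h2 X _ _ _ _ k x2 (H.blk_I h) (ha.trans (H.P_le_Ph h)) hI (mem_erase.1 hk).1
          (hU k (mem_erase.1 hk).2)
        rw [LSB1_id _ _ fun p hp => norm_ek (by omega) k (H.ne (St.mem_I.1 hp).1)]
        have := pow_le_pow_left₀ (norm_nonneg _) g 2
        have := mul_nonneg (mul_nonneg b0.le (sub_nonneg.2 b1)) (sq_nonneg ((σ.I h).card : ℝ))
        unfold GS at *
        gcongr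
        linarith
    _ = ∑ p ∈ σ.I h, ∑ q ∈ σ.I h, c * X / (2 * σ.Ph h) *
        ∑ k ∈ U.erase 0, ‖d k‖ ^ 2 * ‖ek A k (σ.γ p) - ek A k (σ.γ q)‖ ^ 2 := by
        simp only [mul_sum]
        exact sum_comm.trans (sum_congr rfl fun _ _ => sum_comm)
    _ ≤ ∑ p ∈ σ.I h, ∑ q ∈ σ.I h, (2 * D p + 2 * D q + R) := by
        refine sum_le_sum fun p hp => sum_le_sum fun q hq => le_trans ?_ (h1 X σ p q U d x1 H hCs hH hQ
          (St.mem_I.1 hp).1 (St.mem_I.1 hq).1 ((St.mem_I.1 hp).2.trans (St.mem_I.1 hq).2.symm) hU)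
        obtain ⟨-, p1, p2⟩ := (H.blk_I h).2.2.2 p hp
        gcongr
        · exact P0.trans_le p1
        · exact erase_subset _ _
    _ = _ := by
        simp only [sum_add_distrib, sum_const, nsmul_eq_mul, ← mul_sum, hR]
        ring

end Pool.Agent.P.MP_6f5b02_nt.Hy.G
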