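import Pool.Agent.P.MP_6f5b02_nt.Hy.IfQ
import Pool.Agent.P.MP_8be758_nt.Pd.GMB2

/-! Step MB2. -/

namespace Pool.Agent.P.MP_6f5b02_nt.Hy.G

open Pool.Agent.P.MP_8be758_nt Pool.Agent.P.MP_8be758_nt.Pd
open Pool.Agent.P.MP_8be758_nt.Pd.G

open Finset Real Filter
open Pool.Agent.P.MP_8be758_nt.Par (det)
open scoped Classical

theorem p_MB2 (hSGN : S_SGNE) (hSMB : S_SMB) :
    S_MB2 := by
  refine ((Unif.ev hSGN).and hSMB).imp 0 fun z _ C hC => ⟨C, hC, ?_⟩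
  filter_upwards [eventually_ge_atTop 0] with y hy
  rintro ⟨⟨_, -, -, h1⟩, C2, -, c2, h2⟩ _ σ hσ
  have hX : 0 ≤ Pr.X ⟨z, y⟩ := pow_nonneg hy _
  generalize (⟨z, y⟩ : Pr) = ρ at *
  change Pr at ρ
  have hc : ∀ τ, 0 ≤ ρ.cw (1 / 6) (ρ.cy τ) := fun τ => by unfold Pr.cw; positivity
  calc _ ≤ ∑ τ ∈ ρ.Tb, ∑ i : Fin 3, (∑ n ∈ NBad z.A (15 * z.C1 ^ 2 * ρ.X) σ,
        ind (((ρ.cy τ).v i).b = 2 * (n : ℤ) + 1)) * ρ.cw (1 / 6) (ρ.cy τ) := by
        refine sum_le_sum fun τ hτ => ?_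
        rw [← sum_mul]
        refine mul_le_mul_of_nonneg_right ?_ (hc τ)
        by_cases e : τ.1 ∈ EdBad z.A z.C1 ρ.X σ
        · obtain ⟨i, n, hn, e'⟩ := h1 τ σ (mem_Tg.1 (mem_filter.1 hτ).1).1 hσ e
          exact (((ind_pos e).trans (ind_pos e').symm).trans_le (single_le_sum
            (f := fun n : ℕ => ind (((ρ.cy τ).v i).b = 2 * (n : ℤ) + 1))
            (fun _ _ => ind_nonneg _) hn)).trans (single_le_sum (f := fun i : Fin 3 => ∑ n ∈ (_ : Finset ℕ),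
              ind (((ρ.cy τ).v i).b = 2 * (n : ℤ) + 1))
            (fun _ _ => sum_nonneg fun _ _ => ind_nonneg _) (mem_univ i))
        · rw [ind_neg e]
          exact sum_nonneg fun _ _ => sum_nonneg fun _ _ => ind_nonneg _
    _ ≤ _ := by
        rw [sum_comm]
        refine (sum_le_card_nsmul _ _ _ fun i _ => MB2_cs _ _ _ _ (C * ρ.X * exp (-5 * ρ.La)) hc
          ((h2 i).trans (by gcongr))).trans_eq (by simp)

end Pool.Agent.P.MP_6f5b02_nt.Hy.G
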