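import Pool.Agent.P.MP_6f5b02_nt.Hy.IfP

/-! Step MRM. -/

namespace Pool.Agent.P.MP_6f5b02_nt.Hy.G

open Pool.Agent.P.MP_8be758_nt Pool.Agent.P.MP_8be758_nt.Pd
open Pool.Agent.P.MP_8be758_nt.Pd.G

open Finset Real Filter
open Pool.Agent.P.MP_6f5b02_nt.Hy.Mr

theorem p_MR (hEN : S_EN) (hSTG : S_STG) (hLAST : S_LAST) (hCNT : S_CNT) :
    S_MR := by
  intro A θ hodd h3 hθ
  obtain ⟨α, η, X1, hα, hη, hL⟩ := hLAST A θ hodd h3 hθ
  obtain ⟨c, N0, hc, hC⟩ := hCNT A 2 (by omega) one_lt_two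
  obtain ⟨L, X2, h1L, hS⟩ := hSTG A α (η * c ^ 2 / 4) hodd h3 hα (by positivity)
  obtain ⟨C1, C3, η', X3, c1, c3, hη', hE⟩ := hEN A (η / 2) L (by omega) (by positivity) h1L
  refine ⟨C1, C3, η', max (max (max X1 X2) (max N0 1)) X3, c1, c3, hη', fun {_} X hX hN => ?_⟩
  simp only [max_le_iff] at hX
  obtain ⟨⟨⟨x1, x2⟩, x3, x4⟩, x5⟩ := hX
  by_contra hM
  push Not at hM
  replace hE := hE X x5 hM
  obtain ⟨U, hU, hU1, hU2⟩ := hS X x2
  have b1 : Bd U X := (bd_KT (by positivity)).mono hU (div_le_self (by linarith) h1L)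
  have h1 := hL X U x1 hN b1 hU1
  have h2 : c * X ≤ (VX A X).card := hC _ (Q0_mem (by omega)) X x3
  have h4 := pow_le_pow_left₀ (by positivity) h2 2
  have h5 : 0 < (c * X) ^ 2 := by positivity
  rw [← sum_sdiff hU] at hE
  nlinarith

end Pool.Agent.P.MP_6f5b02_nt.Hy.G
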