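import Pool.Agent.P.MP_6f5b02_nt.Hy.IfP

/-! Step NEAR. -/

namespace Pool.Agent.P.MP_6f5b02_nt.Hy.G

open Pool.Agent.P.MP_8be758_nt Pool.Agent.P.MP_8be758_nt.Pd
open Pool.Agent.P.MP_8be758_nt.Pd.G

open Finset Real Filter
open Pool.Agent.P.MP_8be758_nt.Par (cj det)
open Pool.Agent.P.MP_6f5b02_nt.Hy.Par (nq mul eu un red)
open Pool.Agent.P.MP_6f5b02_nt.Hy.Mr

theorem NEAR_pt {A : ℕ} {z y x : V2} {L : ℤ} {X : ℝ} (hn : 0 < det z y)
    (hL : det z y ≤ L) (hLX : 5 * (L : ℝ) ≤ X) (cz : Cn z) (cy : Cn y) (hz : X < (nq A z : ℝ) ∧ (nq A z : ℝ) ≤ 2 * X)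
    (hy : X < (nq A y : ℝ) ∧ (nq A y : ℝ) ≤ 2 * X) (hx : x ≠ 0)
    (hP : 0 ≤ det x y ∧ 0 ≤ det z x ∧ det x y + det z x ≤ det z y) :
    Cn x ∧ X < (L : ℝ) ^ 2 * nq A x ∧ (nq A x : ℝ) ≤ 3 * X := by
  obtain ⟨h1, h2, h3⟩ := hP
  have e : det z y ^ 2 * nq A x = det x y ^ 2 * nq A z + det x y * det z x * bl (Q0 A) z y +
      det z x ^ 2 * nq A y := by
    simp only [det, nq, bl, Q0]; ring
  have hB := (cz.bl_pos (A := A) cy).le
  have hz0 := (cz.nq_pos (A := A)).le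
  have hy0 := (cy.nq_pos (A := A)).le
  have hB2 : bl (Q0 A) z y ≤ nq A z + nq A y + 5 * L := by
    have := disc_eq (Q0 A) z y
    rw [ev_Q0, ev_Q0, (isF_Q0 A).1] at this
    exact abs_le_of_sq_le_sq' (by nlinarith [sq_nonneg (nq A z - nq A y)]) (by linarith) |>.2
  have e0 : det z y • x = det x y • z + det z x • y := by ext <;> simp [det] <;> ring
  have cx : Cn x := by
    rw [← cn_smul hn, e0]
    rcases h1.eq_or_lt with a | a <;> rcases h2.eq_or_lt with b | b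
    · rw [← a, ← b, zero_smul, zero_smul, add_zero] at e0
      exact absurd ((smul_eq_zero.1 e0).resolve_left hn.ne') hx
    · rwa [← a, zero_smul, zero_add, cn_smul b]
    · rwa [← b, zero_smul, add_zero, cn_smul a]
    · exact ((cn_smul a).2 cz).add ((cn_smul b).2 cy)
  have hx0 := cx.nq_pos (A := A)
  have h0 : 1 ≤ det x y ∨ 1 ≤ det z x := by
    by_contra h
    have h4 : det x y = 0 := by omega
    have h5 : det z x = 0 := by omega
    rw [h4, h5] at e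
    have := mul_pos (pow_pos hn 2) hx0
    omega
  refine ⟨cx, ?_⟩
  clear e0
  generalize det z y = n at *
  generalize det x y = a at *
  generalize det z x = b at *
  generalize bl (Q0 A) z y = B at *
  generalize nq A x = q at *
  generalize nq A z = qz at *
  generalize nq A y = qy at *
  constructor
  · have h4 : n ^ 2 * q ≤ L ^ 2 * q := by gcongr
    have h5 : 0 ≤ a * b * B := by positivity
    have h6 : qz ≤ L ^ 2 * q ∨ qy ≤ L ^ 2 * q := by
      rcases h0 with h | h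
      · have : 1 * qz ≤ a ^ 2 * qz := by gcongr; nlinarith
        have : 0 ≤ b ^ 2 * qy := by positivity
        left; omega
      · have : 1 * qy ≤ b ^ 2 * qy := by gcongr; nlinarith
        have : 0 ≤ a ^ 2 * qz := by positivity
        right; omega
    rcases h6 with h | h
    · exact hz.1.trans_le (by exact_mod_cast h)
    · exact hy.1.trans_le (by exact_mod_cast h)
  · have h4 : n ^ 2 * q ≤ (a + b) * (a * qz + b * qy) + n * n * (5 * L) := by
      have : a * b * B ≤ a * b * (qz + qy + 5 * L) := by gcongr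
      have : a * b * (5 * L) ≤ n * n * (5 * L) := by gcongr <;> omega
      nlinarith
    have h5 : (n : ℝ) ^ 2 * q ≤ (a + b) * (a * qz + b * qy) + n * n * (5 * L) := by
      exact_mod_cast h4
    have ha : (0 : ℝ) ≤ a := by exact_mod_cast h1
    have hb : (0 : ℝ) ≤ b := by exact_mod_cast h2
    have hab : (a : ℝ) + b ≤ n := by exact_mod_cast h3
    have hn' : (0 : ℝ) < n := by exact_mod_cast hn
    have hX : 0 ≤ 2 * X := le_trans (by exact_mod_cast hz0) hz.2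
    have h6 : (a : ℝ) * qz + b * qy ≤ n * (2 * X) :=
      calc (a : ℝ) * qz + b * qy ≤ a * (2 * X) + b * (2 * X) := by gcongr; exacts [hz.2, hy.2]
        _ = (a + b) * (2 * X) := by ring
        _ ≤ _ := by gcongr
    have h7 : ((a : ℝ) + b) * (a * qz + b * qy) ≤ n * (n * (2 * X)) :=
      mul_le_mul hab h6 (by positivity) hn'.le
    refine le_of_mul_le_mul_left ?_ (pow_pos hn' 2)
    linarith [mul_le_mul_of_nonneg_left hLX (mul_self_nonneg (n : ℝ))]

theorem fl_eq_of_det [CM] {A : ℕ} {z w : V2} (hA : 5 ≤ A) (hz : z ≠ 0) (hw : w ≠ 0) (h : det z w = 0) :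
    fl A z = fl A w := by
  have h1 := fl_mul hA hz (Par.cj_ne hA hw)
  have h0 := Par.mul_ne hA hz (Par.cj_ne hA hw)
  have e : mul A z (cj w) = (mul A z (cj w)).1 • ((1, 0) : V2) :=
    Prod.ext (by simp) (by rw [Par.mul_cj_snd, h]; simp)
  have h2 : (mul A z (cj w)).1 ≠ 0 := fun h => h0 (by rw [e, h, zero_smul])
  rw [e, fl_smul h2, fl_e, show fl A (cj w) = fl A w by rw [fl, Par.nq_cj, fl]] at h1
  rw [← mul_one (fl A z), ← fl_sq w, ← mul_assoc, ← h1, one_mul]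

theorem exists_edge [CM] {A : ℕ} (hA : 5 ≤ A) (P : ℤ × ℤ → Prop)
    (hP : ∀ (z w v : ℤ × ℤ) (D s t : ℤ), 0 < D → 0 ≤ s → 0 ≤ t → s + t ≤ D →
      D • v = s • z + t • w → P z → P w → P v) (n : ℕ) :
    ∀ z w : ℤ × ℤ, z ≠ 0 → w ≠ 0 → P z → P w → det z w = n → fl A z ≠ fl A w →
      ∃ a m : ℤ × ℤ, a ≠ 0 ∧ m ≠ 0 ∧ P a ∧ P m ∧ det a m = 1 ∧ fl A a ≠ fl A m := by
  induction n using Nat.strong_induction_on with
  | _ n ih =>
    intro z w hz hw pz pw hd he
    obtain rfl | rfl | hn : n = 0 ∨ n = 1 ∨ 2 ≤ n := by omega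
    · exact absurd (fl_eq_of_det hA hz hw hd) he
    · exact ⟨z, w, hz, hw, pz, pw, hd, he⟩
    have hn0 : (0 : ℤ) < n := by omega
    obtain ⟨v, s, t, hst, hv⟩ : ∃ (v : ℤ × ℤ) (s t : ℤ), ¬((n : ℤ) ∣ s ∧ (n : ℤ) ∣ t) ∧
        (n : ℤ) • v = s • z + t • w := by
      by_cases h : (n : ℤ) ∣ w.2 ∧ (n : ℤ) ∣ -z.2
      · refine ⟨(0, 1), -w.1, z.1, fun h' => ?_, ?_⟩
        · obtain ⟨⟨a, ha⟩, ⟨b, hb⟩⟩ := h
          obtain ⟨⟨c, hc⟩, ⟨d, hd'⟩⟩ := h'
          have : (n : ℤ) ∣ 1 := ⟨d * a - b * c, mul_left_cancel₀ hn0.ne' (by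
            unfold det at hd
            linear_combination -hd + z.1 * ha + n * a * hd' - w.1 * hb - n * b * hc
              + 2 * w.1 * hb)⟩
          have := Int.le_of_dvd one_pos this
          omega
        · rw [← hd]
          ext <;> simp [det] <;> ring
      · refine ⟨(1, 0), w.2, -z.2, h, ?_⟩
        rw [← hd]
        ext <;> simp [det] <;> ring
    obtain ⟨v, s, t, s0, t0, s1, t1, hst, hv⟩ : ∃ (v : ℤ × ℤ) (s t : ℤ), 0 ≤ s ∧ 0 ≤ t ∧ s < n ∧
        t < n ∧ 0 < s + t ∧ (n : ℤ) • v = s • z + t • w := by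
      have s0 := Int.emod_nonneg s hn0.ne'
      have t0 := Int.emod_nonneg t hn0.ne'
      refine ⟨v - (s / n) • z - (t / n) • w, s % n, t % n, s0, t0, Int.emod_lt_of_pos _ hn0,
        Int.emod_lt_of_pos _ hn0, ?_, ?_⟩
      · by_contra h
        exact hst ⟨Int.dvd_of_emod_eq_zero (by omega), Int.dvd_of_emod_eq_zero (by omega)⟩
      · rw [smul_sub, smul_sub, hv, Int.emod_def, Int.emod_def]
        module
    obtain ⟨v, s, t, s0, t0, s1, t1, hst, hle, hv⟩ : ∃ (v : ℤ × ℤ) (s t : ℤ), 0 ≤ s ∧ 0 ≤ t ∧ s < n ∧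
        t < n ∧ 0 < s + t ∧ s + t ≤ n ∧ (n : ℤ) • v = s • z + t • w := by
      by_cases h : s + t ≤ n
      · exact ⟨v, s, t, s0, t0, s1, t1, hst, h, hv⟩
      · refine ⟨z + w - v, n - s, n - t, by omega, by omega, by omega, by omega, by omega, by omega, ?_⟩
        rw [smul_sub, hv]
        module
    have e1 := congrArg Prod.fst hv
    have e2 := congrArg Prod.snd hv
    simp only [Prod.smul_fst, Prod.smul_snd, Prod.fst_add, Prod.snd_add, smul_eq_mul] at e1 e2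
    have d1 : det z v = t := mul_left_cancel₀ hn0.ne' (by
      unfold det at hd ⊢
      linear_combination z.1 * e2 - z.2 * e1 + t * hd)
    have d2 : det v w = s := mul_left_cancel₀ hn0.ne' (by
      unfold det at hd ⊢
      linear_combination w.2 * e1 - w.1 * e2 + s * hd)
    have hv0 : v ≠ 0 := by
      rintro rfl
      simp [det] at d1 d2
      omega
    have pv := hP z w v n s t hn0 s0 t0 hle hv pz pw
    by_cases h : fl A z = fl A v
    · exact ih s.toNat (by omega) v w hv0 hw pv pw (by omega) (h ▸ he)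
    · exact ih t.toNat (by omega) z v hz hv0 pz pv (by omega) h

/-- the edge found near a pair of vectors -/
def NEAR_E [CM] (A : ℕ) (L : ℤ) (X : ℝ) (a m : V2) : Prop := det a m = 1 ∧ fl A a ≠ fl A m ∧
  (Cn a ∧ X < (L : ℝ) ^ 2 * nq A a ∧ (nq A a : ℝ) ≤ 3 * X) ∧
  (Cn m ∧ X < (L : ℝ) ^ 2 * nq A m ∧ (nq A m : ℝ) ≤ 3 * X)

theorem NEAR_core [CM] {A : ℕ} (hA : 5 ≤ A) {z y : V2} {L : ℤ} {X : ℝ} (hn : 0 < det z y)
    (hL : det z y ≤ L) (hLX : 5 * (L : ℝ) ≤ X) (cz : Cn z) (cy : Cn y)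
    (hz : X < (nq A z : ℝ) ∧ (nq A z : ℝ) ≤ 2 * X)
    (hy : X < (nq A y : ℝ) ∧ (nq A y : ℝ) ≤ 2 * X) (he : fl A z ≠ fl A y) :
    ∃ a m : V2, NEAR_E A L X a m ∧ (|det z m| ≤ L ∧ |det z a| ≤ L) ∧
      (|det y m| ≤ L ∧ |det y a| ≤ L) := by
  have hz0 : z ≠ 0 := by rintro rfl; simp [det] at hn
  have hy0 : y ≠ 0 := by rintro rfl; simp [det] at hn
  have dzz : ∀ v : V2, det v v = 0 := fun v => by simp only [det]; ring
  have dsw : ∀ v w : V2, det v w = -det w v := fun v w => by simp only [det]; ring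
  obtain ⟨a, m, ha, hm, pa, pm, hd, het⟩ := exists_edge hA
    (fun x => 0 ≤ det x y ∧ 0 ≤ det z x ∧ det x y + det z x ≤ det z y)
    (fun a b v D s t hD hs ht hst e pa pb => by
      have e1 : D * det v y = s * det a y + t * det b y := by
        have h1 := congrArg Prod.fst e
        have h2 := congrArg Prod.snd e
        simp only [Prod.smul_fst, Prod.smul_snd, Prod.fst_add, Prod.snd_add, smul_eq_mul] at h1 h2
        simp only [det]
        linear_combination y.2 * h1 - y.1 * h2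
      have e2 : D * det z v = s * det z a + t * det z b := by
        have h1 := congrArg Prod.fst e
        have h2 := congrArg Prod.snd e
        simp only [Prod.smul_fst, Prod.smul_snd, Prod.fst_add, Prod.snd_add, smul_eq_mul] at h1 h2
        simp only [det]
        linear_combination z.1 * h2 - z.2 * h1
      obtain ⟨a1, a2, a3⟩ := pa
      obtain ⟨b1, b2, b3⟩ := pb
      refine ⟨nonneg_of_mul_nonneg_right ?_ hD |> fun h => h, ?_, ?_⟩
      · rw [e1]; positivity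
      · refine le_of_mul_le_mul_left ?_ hD
        rw [e2, mul_zero]; positivity
      · refine le_of_mul_le_mul_left ?_ hD
        have h1 : s * (det a y + det z a) ≤ s * det z y := by gcongr
        have h2 : t * (det b y + det z b) ≤ t * det z y := by gcongr
        have h3 : (s + t) * det z y ≤ D * det z y := by gcongr
        linarith)
    (det z y).toNat z y hz0 hy0 ⟨hn.le, (dzz z).ge, by rw [dzz, add_zero]⟩
    ⟨(dzz y).ge, hn.le, by rw [dzz, zero_add]⟩ (Int.toNat_of_nonneg hn.le).symm he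
  refine ⟨a, m, ⟨hd, het, NEAR_pt hn hL hLX cz cy hz hy ha pa, NEAR_pt hn hL hLX cz cy hz hy hm pm⟩,
    ⟨?_, ?_⟩, ?_, ?_⟩
  · rw [abs_le]; omega
  · rw [abs_le]; omega
  · rw [dsw, abs_le]; omega
  · rw [dsw, abs_le]; omega

theorem NEAR_all [CM] {A : ℕ} (hA : 5 ≤ A) {v w : V2} {L : ℤ} {X : ℝ} (hn : det v w ≠ 0)
    (hL : |det v w| ≤ L) (hLX : 5 * (L : ℝ) ≤ X) (cv : Cn v) (cw : Cn w)
    (hv : X < (nq A v : ℝ) ∧ (nq A v : ℝ) ≤ 2 * X)
    (hw : X < (nq A w : ℝ) ∧ (nq A w : ℝ) ≤ 2 * X) (he : fl A v ≠ fl A w) :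
    ∃ a m : V2, NEAR_E A L X a m ∧ (|det v m| ≤ L ∧ |det v a| ≤ L) ∧
      (|det w m| ≤ L ∧ |det w a| ≤ L) := by
  have d1 : det w v = -det v w := by simp only [det]; ring
  rw [abs_le] at hL
  rcases hn.lt_or_gt with h | h
  · obtain ⟨a, m, h1, h2, h3⟩ := NEAR_core hA (z := w) (y := v) (L := L) (by omega) (by omega)
      hLX cw cv hw hv he.symm
    exact ⟨a, m, h1, h3, h2⟩
  · exact NEAR_core hA h hL.2 hLX cv cw hv hw he

theorem NEAR_mem [CM] {A L : ℕ} (hA : 5 ≤ A) (hL : 1 ≤ L) {X : ℝ} (hX0 : 0 < X)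
    {a m : V2} (h : NEAR_E A L X a m) :
    ∃ i : ℕ, 2 ^ i ≤ 4 * L ^ 2 ∧ (a, m) ∈ EdBad A (6 * L) (2 * X / 2 ^ i) 1 := by
  obtain ⟨hd, het, ⟨a0, a1, a2⟩, m0, m1, m2⟩ := h
  have hL' : (1 : ℝ) ≤ L := by exact_mod_cast hL
  simp only [Int.cast_natCast] at a1 m1
  have hq1 := one_le_nq (A := A) a0
  have hq : (0 : ℝ) < nq A a := by linarith
  have hex : ∃ i : ℕ, 2 * X / 2 ^ i < nq A a := by
    obtain ⟨i, hi⟩ := pow_unbounded_of_one_lt (2 * X / nq A a) (one_lt_two (α := ℝ))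
    refine ⟨i, ?_⟩
    rw [div_lt_iff₀ (by positivity)]
    rw [div_lt_iff₀ hq] at hi
    linarith
  have hdisc : (bl (Q0 A) a m : ℝ) ^ 2 = 4 * nq A a * nq A m + 17 := by
    have := disc_eq (Q0 A) a m
    rw [hd, ev_Q0, ev_Q0, (isF_Q0 A).1] at this
    have h2 : bl (Q0 A) a m ^ 2 = 4 * nq A a * nq A m + 17 := by linarith
    exact_mod_cast h2
  have hb' : (0 : ℝ) ≤ bl (Q0 A) a m := by exact_mod_cast (a0.bl_pos m0).le
  obtain ⟨i, hi1, hi2, hi3⟩ : ∃ i : ℕ, 2 ^ i ≤ 4 * L ^ 2 ∧ 2 * X / 2 ^ i < nq A a ∧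
      (nq A a : ℝ) ≤ 2 * (2 * X / 2 ^ i) := by
    refine ⟨Nat.find hex, ?_, Nat.find_spec hex, ?_⟩ <;>
      rcases h0 : Nat.find hex with _ | j
    · have : 1 ≤ L ^ 2 := Nat.one_le_pow _ _ hL
      omega
    · have h1 := not_lt.1 (Nat.find_min hex (m := j) (by omega))
      rw [le_div_iff₀ (by positivity)] at h1
      have h2 : (2 : ℝ) ^ j ≤ 2 * (L : ℝ) ^ 2 := by
        refine le_of_mul_le_mul_left ?_ hq
        linarith
      have h3 : 2 ^ j ≤ 2 * L ^ 2 := by exact_mod_cast h2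
      rw [pow_succ]; omega
    · rw [pow_zero]
      linarith
    · have h1 := not_lt.1 (Nat.find_min hex (m := j) (by omega))
      rw [pow_succ]
      calc _ ≤ 2 * X / 2 ^ j := h1
        _ = _ := by field_simp
  refine ⟨i, hi1, ?_⟩
  unfold EdBad Ed
  rw [mem_filter, mem_GG (by omega) (Q0_red A)]
  simp only [ev_Q0]
  generalize (bl (Q0 A) a m : ℝ) = b at *
  have hL2 : (1 : ℝ) ≤ (L : ℝ) ^ 2 := one_le_pow₀ hL'
  refine ⟨⟨a0, hd, hi2, hi3, ?_, ?_⟩, fun h => het ?_⟩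
  · rw [one_div, inv_mul_lt_iff₀ (by positivity)]
    refine lt_of_pow_lt_pow_left₀ 2 (by positivity) ?_
    have h2 : (nq A a : ℝ) * nq A a ≤ nq A a * (3 * ((L : ℝ) ^ 2 * nq A m)) := by
      gcongr; linarith
    rw [mul_pow, hdisc]
    nlinarith [mul_pos hq hq]
  · refine le_of_pow_le_pow_left₀ two_ne_zero (by positivity) ?_
    have h2 : (nq A a : ℝ) * nq A m ≤ nq A a * (3 * ((L : ℝ) ^ 2 * nq A a)) := by
      gcongr; linarith
    rw [hdisc]
    linarith [one_le_mul_of_one_le_of_one_le hL2 (one_le_pow₀ (n := 2) hq1)]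
  · unfold fl
    rcases lam_cases (nq A a) with h1 | h1 <;> rcases lam_cases (nq A m) with h2 | h2 <;>
      rw [h1, h2] at h ⊢ <;> norm_num at h

theorem p_NEAR :
    S_NEAR := by
  intro A L hA hL
  have hL' : (1 : ℝ) ≤ L := by exact_mod_cast hL
  refine ⟨6 * L, 4 * (L : ℝ) ^ 2, 4 * (2 * L + 1) ^ 4, 5 * L, by linarith,
    by nlinarith, by positivity, fun {_} X η hX hη hE => ?_⟩
  have hX0 : 0 < X := lt_of_lt_of_le (by positivity) hX
  set J : Finset ℤ := Icc (-(L : ℤ)) L with hJ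
  have hJc : J.card = 2 * L + 1 := by rw [hJ, Int.card_Icc]; omega
  set I := (range (4 * L ^ 2 + 1)).filter fun i => 2 ^ i ≤ 4 * L ^ 2 with hI
  set F : G4 × (ℤ × ℤ) × (ℤ × ℤ) → G4 := fun c => (ap c.1 c.2.1, ap c.1 c.2.2) with hF
  have hsub : ((VX A X ×ˢ VX A X).filter fun g => |det g.1 g.2| ≤ (L : ℤ) ∧ fl A g.1 ≠ fl A g.2) ⊆
      I.biUnion fun i => (EdBad A (6 * L) (2 * X / 2 ^ i) 1 ×ˢ (J ×ˢ J) ×ˢ (J ×ˢ J)).image F := by
    rintro ⟨v, w⟩ hg
    obtain ⟨h1, h2, h3⟩ := mem_filter.1 hg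
    obtain ⟨hv, hw⟩ := mem_product.1 h1
    obtain ⟨cv, pv', hv⟩ := (mem_VX hA).1 hv
    obtain ⟨cw, pw', hw⟩ := (mem_VX hA).1 hw
    have he : fl A v ≠ fl A w := h3
    obtain ⟨a, m, hE', ⟨c1, c2⟩, c3, c4⟩ := NEAR_all hA
      (fun h => he (fl_eq_of_det hA (pr_ne pv') (pr_ne pw') h)) h2 (by exact_mod_cast hX) cv cw hv hw he
    obtain ⟨i, hi, hm⟩ := NEAR_mem hA hL hX0 hE'
    have hd := hE'.1
    have key : ∀ x : V2, ap (a, m) (det x m, -det x a) = x := fun x => by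
      unfold det at hd
      ext <;> simp only [ap, det]
      · linear_combination x.1 * hd
      · linear_combination x.2 * hd
    refine mem_biUnion.2 ⟨i, mem_filter.2 ⟨mem_range.2 ?_, hi⟩,
      mem_image.2 ⟨((a, m), (det v m, -det v a), (det w m, -det w a)), ?_, ?_⟩⟩
    · have := Nat.lt_two_pow_self (n := i)
      omega
    · rw [abs_le] at c1 c2 c3 c4
      simp only [mem_product, hJ, mem_Icc]
      exact ⟨hm, ⟨c1, by omega, by omega⟩, c3, by omega, by omega⟩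
    · simp only [hF, key]
  have h1 := (card_le_card hsub).trans card_biUnion_le
  have h2 : ∀ i ∈ I, (((EdBad A (6 * L) (2 * X / 2 ^ i) 1 ×ˢ (J ×ˢ J) ×ˢ (J ×ˢ J)).image F).card : ℝ) ≤
      2 * (2 * L + 1) ^ 4 * η * X * (1 / 2) ^ i := fun i hi => by
    have h3 : (2 : ℝ) ^ i ≤ 4 * (L : ℝ) ^ 2 := by exact_mod_cast (mem_filter.1 hi).2
    have h4 : (1 : ℝ) ≤ 2 ^ i := one_le_pow₀ one_le_two
    have h5 := hE (2 * X / 2 ^ i) (by gcongr; linarith) ((div_le_self (by linarith) h4).trans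
      (mul_le_mul_of_nonneg_right (by nlinarith) hX0.le))
    have h6 := card_image_le (s := EdBad A (6 * L) (2 * X / 2 ^ i) 1 ×ˢ (J ×ˢ J) ×ˢ (J ×ˢ J)) (f := F)
    simp only [card_product, hJc] at h6
    calc _ ≤ ((EdBad A (6 * L) (2 * X / 2 ^ i) 1).card : ℝ) * (2 * L + 1) ^ 4 := by
          refine (Nat.cast_le.2 h6).trans (le_of_eq ?_)
          push_cast; ring
      _ ≤ η * (2 * X / 2 ^ i) * (2 * L + 1) ^ 4 := by gcongr
      _ = _ := by rw [one_div, inv_pow]; ring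
  calc _ ≤ ∑ i ∈ I, 2 * (2 * (L : ℝ) + 1) ^ 4 * η * X * (1 / 2) ^ i := by
        refine (Nat.cast_le.2 h1).trans ?_
        rw [Nat.cast_sum]
        exact sum_le_sum h2
    _ ≤ ∑ i ∈ range (4 * L ^ 2 + 1), 2 * (2 * (L : ℝ) + 1) ^ 4 * η * X * (1 / 2) ^ i :=
        sum_le_sum_of_subset_of_nonneg (filter_subset _ _) fun _ _ _ => by positivity
    _ ≤ 2 * (2 * (L : ℝ) + 1) ^ 4 * η * X * 2 := by
        rw [← mul_sum]
        exact mul_le_mul_of_nonneg_left (sum_geometric_two_le _) (by positivity)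
    _ = _ := by ring

end Pool.Agent.P.MP_6f5b02_nt.Hy.G
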