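import Pool.Agent.P.MP_6f5b02_nt.Hy.IfP
import Pool.Agent.P.MP_8be758_nt.Pd.GRAM0

/-! Step RAM0. -/

namespace Pool.Agent.P.MP_6f5b02_nt.Hy.G

open Pool.Agent.P.MP_8be758_nt Pool.Agent.P.MP_8be758_nt.Pd
open Pool.Agent.P.MP_8be758_nt.Pd.G

open Finset Real Filter
open Pool.Agent.P.MP_8be758_nt.Par (cj det)
open Pool.Agent.P.MP_6f5b02_nt.Hy.Par (nq mul eu un red)
open Pool.Agent.P.MP_6f5b02_nt.Hy.Mr

theorem RAM0_term [CM] {A : ℕ} {σ : Mr.St} {p : ℕ} (hA : 5 ≤ A) (H : σ.OK A) (hCs : Cs σ) (hp : p ∈ σ.S) (k : ℤ)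
    {c : ℤ} (hc : c ≠ 0) {u w : V2} (hu : u ≠ 0) (e : c • w = mul A (σ.γ p) u) :
    (sg σ : ℂ) * ((fl A w : ℂ) * ek A k w) = ek A k (σ.γ p) * ((fl A u : ℂ) * ek A k u) := by
  have hβ : (σ.β : ℤ) ≠ 0 := by have := H.1; omega
  have hq := (H.gp hp).1
  have e1 : ek A k w = ek A k (σ.γ p) * ek A k u := by rw [← ek_mul hA, ← e, ek_smul hc]
  have e2 : fl A (σ.γ p) = sg σ := by
    rw [fl, (H.gp hp).2.2, lam_mul hβ (by exact_mod_cast hq.ne_zero), sg_eq hCs hp]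
  have e3 : fl A w = sg σ * fl A u := by rw [← e2, ← fl_mul hA (H.ne hp) hu, ← e, fl_smul hc]
  have e4 : sg σ * fl A w = fl A u := by rw [e3, ← mul_assoc, (sg_sq _), one_mul]
  rw [← e4, e1]
  push_cast
  ring

theorem RAM0_nq {A : ℕ} {σ : Mr.St} {p : ℕ} (H : σ.OK A) (hp : p ∈ σ.S)
    {u w : V2} (e : (σ.β : ℤ) • w = mul A (σ.γ p) u) :
    (σ.β : ℝ) * (nq A w : ℝ) = p * (nq A u : ℝ) := by
  have hβ : (σ.β : ℤ) ≠ 0 := by have := H.1; omega
  have h := congrArg (nq A) e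
  rw [Par.nq_smul, Par.nq_mul, (H.gp hp).2.2] at h
  have : (σ.β : ℤ) * nq A w = p * nq A u := mul_left_cancel₀ hβ (by linear_combination h)
  exact_mod_cast this

theorem p_RAM0 (hBIJ : S_BIJ) :
    S_RAM0 := by
  classical
  intro _ A σ p X k hA H hCs hp hX
  obtain ⟨b1, b2⟩ := hBIJ A σ p hA H hp
  have hβ : (σ.β : ℤ) ≠ 0 := by have := H.1; omega
  have hβ' : (0 : ℝ) < σ.β := by exact_mod_cast H.1
  have hq := (H.gp hp).1
  have hp0 : (p : ℤ) ≠ 0 := by exact_mod_cast hq.ne_zero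
  have hp1 : (1 : ℝ) ≤ p := by exact_mod_cast hq.one_le
  have hF := H.one_le_Ph (σ.blk p)
  have hg := H.ne hp
  have hW : ∀ u ∈ σ.W A X (σ.blk p), Cn u := fun u hu => (H.sm_W hA hX.le _ u hu).1
  have h10 : 2 * X * p / σ.Ph (σ.blk p) ≤ 4 * X := by
    rw [div_le_iff₀ (by linarith)]
    nlinarith [H.le_two_Ph hp]
  have h0 : 0 < X * p / σ.Ph (σ.blk p) := by positivity
  rw [FS, FS, FS, mul_add, mul_sum, mul_sum, mul_sum, ← sum_filter_add_sum_filter_not _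
    (fun u => ∃ w : V2, Mr.Pr w ∧ (σ.β : ℤ) • w = mul A (σ.γ p) u)]
  congr 1
  · symm
    have c1 : ∀ v ∈ (VV (Q0 A) 0 (4 * X)).filter fun v => Dv A p (cj (σ.γ p)) v ∧
        X * p / σ.Ph (σ.blk p) < (nq A v : ℝ) ∧ (nq A v : ℝ) ≤ 2 * X * p / σ.Ph (σ.blk p),
        ∃ u η : V2, u ∈ σ.W A X (σ.blk p) ∧ nq A η = 1 ∧
          (σ.β : ℤ) • mul A η v = mul A (σ.γ p) u := fun v hv => by
      obtain ⟨h1, h2, h3⟩ := mem_filter.1 hv
      obtain ⟨u, h4, h5, -⟩ := b2 v ((of_mem_VV0 hA) h1).1 h2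
      have h6 := (RAM0_rng hβ' (by linarith) (RAM0_nq H hp h5)).2 h3
      have h7 : (0 : ℝ) < nq A u := lt_trans (by positivity) h6.1
      exact ⟨red A u, un A u, (Mr.St.mem_W hA).2 ⟨⟨red_cn (by exact_mod_cast h7), by rwa [nq_red]⟩,
        Mr.St.lam_unit (nq_un u) h4⟩, nq_un u, by rw [← mul_sm, h5, mul_lc, red]⟩
    choose i η hi1 hi3 hi2 using c1
    refine sum_bij i (fun v hv => mem_filter.2 ⟨hi1 v hv, _,
      (pr_unit (hi3 v hv)).2 ((of_mem_VV0 hA) (mem_filter.1 hv).1).1, hi2 v hv⟩)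
      (fun v hv w hw e => ?_) (fun u hu => ?_) fun v hv => by
        rw [← RAM0_term hA H hCs hp k hβ (hW _ (hi1 v hv)).ne (hi2 v hv), fl_unit (hi3 v hv),
          ek_unit (hi3 v hv)]
    · have := hi2 v hv
      have a := ((mem_VV0 hA).1 (mem_filter.1 hv).1).1
      have b := ((mem_VV0 hA).1 (mem_filter.1 hw).1).1
      rw [e, ← hi2 w hw] at this
      rw [← red_of_cn (A := A) a, ← red_unit (hi3 v hv) a.nq_pos,
        smul_right_injective _ hβ this, red_unit (hi3 w hw) b.nq_pos, red_of_cn b]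
    · obtain ⟨h1, w, h2, h3⟩ := mem_filter.1 hu
      obtain ⟨h4, h5⟩ := (Mr.St.mem_W hA).1 h1
      obtain ⟨w', h6, h7, -⟩ := b1 u h5
      have e : w' = w := smul_right_injective _ hβ (h6.trans h3.symm)
      rw [e] at h7
      have h8 := (RAM0_rng hβ' (by linarith) (RAM0_nq H hp h3)).1 h4.2
      have h9 := h0.trans h8.1
      rw [← nq_red] at h8
      have hm : red A w ∈ (VV (Q0 A) 0 (4 * X)).filter fun v => Dv A p (cj (σ.γ p)) v ∧
          X * p / σ.Ph (σ.blk p) < (nq A v : ℝ) ∧ (nq A v : ℝ) ≤ 2 * X * p / σ.Ph (σ.blk p) :=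
        mem_filter.2 ⟨(mem_VV0 hA).2 ⟨red_cn (by exact_mod_cast h9), pr_red.2 h2, h0.trans h8.1,
          h8.2.trans h10⟩, dv_red.2 (dv_iff.2 ⟨u, h7⟩), h8⟩
      have a : (σ.β : ℤ) • mul A _ (mul A (un A w) w) = _ := hi2 _ hm
      rw [← mul_as, ← mul_sm, h3, mul_lc] at a
      refine ⟨_, hm, ?_⟩
      rw [← red_of_cn (A := A) (hW _ (hi1 _ hm)), ← mul_inj hA hg a, red_unit (by
        rw [Par.nq_mul, hi3, nq_un, one_mul]) h4.1.nq_pos, red_of_cn h4.1]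
  · symm
    have c2 : ∀ v : V2, ((σ.β : ℤ) * p) • mul A (un A (mul A (cj (σ.γ p)) v)) v =
        mul A (σ.γ p) (red A (mul A (cj (σ.γ p)) v)) := fun v => by
      rw [red, mul_lc (σ.γ p), mul_cj_mul, (H.gp hp).2.2, mul_sm]
    refine sum_bij (fun v _ => red A (mul A (cj (σ.γ p)) v)) (fun v hv => ?_)
      (fun v hv w hw e => ?_) (fun u hu => ?_) fun v hv => by
        rw [← RAM0_term hA H hCs hp k (mul_ne_zero hβ hp0) (hW _ (mem_filter.1 hv).2).ne (c2 v),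
          fl_unit (nq_un _), ek_unit (nq_un _)]
    · refine mem_filter.2 ⟨(mem_filter.1 hv).2, ?_⟩
      rintro ⟨w, h1, h2⟩
      rw [← c2, mul_smul] at h2
      rw [smul_right_injective _ hβ h2] at h1
      have : IsUnit (p : ℤ) := h1.isUnit_of_dvd' (Dvd.intro _ rfl) (Dvd.intro _ rfl)
      have := hq.two_le
      rcases Int.isUnit_iff.1 ‹IsUnit (p : ℤ)› with h | h <;> omega
    · exact red_inj (Par.cj_ne hA hg) ((mem_VV0 hA).1 (mem_filter.1 hv).1).1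
        ((mem_VV0 hA).1 (mem_filter.1 hw).1).1 e
    · obtain ⟨h1, h2⟩ := mem_filter.1 hu
      obtain ⟨h4, h5⟩ := (Mr.St.mem_W hA).1 h1
      obtain ⟨w, h6, h7, h8 | ⟨v, h8, rfl⟩⟩ := b1 u h5
      · exact absurd ⟨w, h8, h6⟩ h2
      rw [mul_sm] at h7
      obtain rfl : u = mul A (cj (σ.γ p)) v := smul_right_injective _ hp0 h7
      obtain ⟨h11, h9⟩ := (RAM0_rng hβ' (by linarith) (RAM0_nq H hp h6)).1 h4.2
      rw [Par.nq_smul] at h9 h11
      push_cast at h9 h11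
      have h12 := (mul_pos_iff_of_pos_left (by positivity)).1 (h0.trans h11)
      have e := (red_mul_red _ h4.1.nq_pos).trans (red_of_cn h4.1)
      refine ⟨red A v, mem_filter.2 ⟨(mem_VV0 hA).2 ⟨red_cn (by exact_mod_cast h12), pr_red.2 h8,
        by rwa [nq_red], ?_⟩, e.symm ▸ h1⟩, e⟩
      rw [nq_red]
      nlinarith [mul_le_mul_of_nonneg_right (one_le_pow₀ (n := 2) hp1) h12.le]

end Pool.Agent.P.MP_6f5b02_nt.Hy.G
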