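import Pool.Agent.P.MP_6f5b02_nt.Hy.IfP
import Pool.Agent.P.MP_8be758_nt.Pd.GRAM1

/-! Step RAM1. -/

namespace Pool.Agent.P.MP_6f5b02_nt.Hy.G

open Pool.Agent.P.MP_8be758_nt Pool.Agent.P.MP_8be758_nt.Pd
open Pool.Agent.P.MP_8be758_nt.Pd.G

open Finset Real Filter
open Pool.Agent.P.MP_8be758_nt.Par (cj det)
open Pool.Agent.P.MP_6f5b02_nt.Hy.Par (nq mul eu un red)
open Pool.Agent.P.MP_6f5b02_nt.Hy.Mr

theorem RAM1_FS [CM] (A : ℕ) (W : Finset V2) (P : V2 → Prop) [DecidablePred P] (k : ℤ) :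
    FS A (W.filter P) k = ∑ v ∈ W, (fl A v : ℂ) * (ind (P v) : ℝ) * ek A k v := by
  rw [FS, sum_filter]
  refine sum_congr rfl fun v _ => ?_
  split_ifs with h
  · simp [ind_pos h]
  · simp [ind_neg h]

theorem p_RAM1 (hRAM0 : S_RAM0) :
    S_RAM1 := by
  intro _ A σ X hA H hCs hX
  classical
  set b : ℕ → V2 → ℝ := fun p v => ind (Dv A p (cj (σ.γ p)) v ∧
    X * p / σ.Ph (σ.blk p) < (nq A v : ℝ) ∧ (nq A v : ℝ) ≤ 2 * X * p / σ.Ph (σ.blk p)) with hb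
  set c : ℕ → V2 → ℝ := fun p v => ind (red A (mul A (cj (σ.γ p)) v) ∈ σ.W A X (σ.blk p))
    with hc
  refine ⟨fun v => if v ∈ VV (Q0 A) 0 (4 * X) then
    fl A v * (ind (v ∈ VX A X) * σ.E - ∑ p ∈ σ.S, b p v - ∑ p ∈ σ.S, c p v) else 0, ?_, ?_⟩
  · intro v
    dsimp only
    split_ifs with hv
    swap
    · rw [abs_zero]; exact Mr.St.ab_nonneg X v
    obtain ⟨v0, v1, v2, -⟩ := (mem_VV0 hA).1 hv
    rw [abs_mul, abs_fl, one_mul]
    have h1 : |∑ p ∈ σ.S, c p v| ≤ σ.mu A X v := by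
      rw [abs_of_nonneg (sum_nonneg fun p _ => ind_nonneg _)]
      refine sum_le_sum fun p hp => ind_mono fun h => ?_
      obtain ⟨⟨-, w1, w2⟩, -⟩ := (Mr.St.mem_W hA).1 h
      rw [nq_red, Par.nq_mul, Par.nq_cj, (H.gp hp).2.2] at w1 w2
      push_cast at w1 w2
      have β0 : (0 : ℝ) < σ.β := by exact_mod_cast H.1
      have P0 := H.Ph_pos (σ.blk p)
      have l1 := H.Ph_le hp
      have l2 := H.le_two_Ph hp
      rw [div_lt_iff₀ P0] at w1
      rw [le_div_iff₀ P0] at w2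
      have w3 : X < p * nq A v * σ.Ph (σ.blk p) := lt_of_mul_lt_mul_left (by linarith) β0.le
      have w4 : p * nq A v * σ.Ph (σ.blk p) ≤ 2 * X := le_of_mul_le_mul_left (by linarith) β0
      have p0 : (0 : ℝ) ≤ p * nq A v := by positivity
      constructor
      · nlinarith [mul_le_mul_of_nonneg_left l1 p0]
      · nlinarith [mul_le_mul_of_nonneg_left l2 p0]
    have h2 : |∑ p ∈ σ.S, (ind (v ∈ VX A X) * ind (Dv A p (cj (σ.γ p)) v) - b p v)| ≤
        ind (σ.Strip A X v) * σ.om A v := by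
      rw [Mr.St.om_eq, mul_sum]
      refine (abs_sum_le_sum_abs _ _).trans (sum_le_sum fun p hp => ?_)
      have P0 := H.Ph_pos (σ.blk p)
      simp only [hb, mul_div_assoc]
      refine RAM1_strip (e := exp (1 / σ.H)) hX ((one_le_div P0).2 (H.Ph_le hp))
        ((div_le_iff₀ P0).2 (H.le_Ph hp)) ?_ Iff.rfl
      rw [mem_VX hA]
      exact (and_iff_right v0).trans (and_iff_right v1)
    have h3 : |ind (v ∈ VX A X) * (σ.E - σ.om A v)| = ind (v ∈ VX A X) * |σ.E - σ.om A v| := by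
      rw [abs_mul, abs_of_nonneg (ind_nonneg _)]
    have e : ind (v ∈ VX A X) * σ.E - ∑ p ∈ σ.S, b p v - ∑ p ∈ σ.S, c p v =
        ind (v ∈ VX A X) * (σ.E - σ.om A v) +
          ∑ p ∈ σ.S, (ind (v ∈ VX A X) * ind (Dv A p (cj (σ.γ p)) v) - b p v) -
          ∑ p ∈ σ.S, c p v := by
      rw [sum_sub_distrib, ← mul_sum, ← Mr.St.om_eq]; ring
    rw [e, Mr.St.ab, ← h3]
    exact (abs_sub _ _).trans (add_le_add ((abs_add_le _ _).trans (add_le_add le_rfl h2)) h1)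
  · intro k
    have e1 : ∑ h ∈ range σ.nb, σ.G A h k * FS A (σ.W A X h) k =
        ∑ p ∈ σ.S, ek A k (σ.γ p) * FS A (σ.W A X (σ.blk p)) k := by
      rw [← H.sum_blk]
      refine sum_congr rfl fun h _ => ?_
      rw [Mr.St.G, GS, sum_mul]
      exact sum_congr rfl fun p hp => by rw [(Mr.St.mem_I.1 hp).2]
    have e2 : VX A X = (VV (Q0 A) 0 (4 * X)).filter fun v => v ∈ VX A X := by
      ext v
      rw [mem_filter, mem_VX hA, mem_VV0 hA]
      exact ⟨fun h => ⟨⟨h.1, h.2.1, by linarith [h.2.2.1], by linarith [h.2.2.2]⟩, h⟩, fun h => h.2⟩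
    have e3 : FX A X k = ∑ v ∈ VV (Q0 A) 0 (4 * X),
        (fl A v : ℂ) * (ind (v ∈ VX A X) : ℝ) * ek A k v := by
      rw [← RAM1_FS, ← e2, FX]
    have e4 : (sg σ : ℂ) * sg σ = 1 := by exact_mod_cast (sg_sq _)
    have e5 : (sg σ : ℂ) * ∑ p ∈ σ.S, ek A k (σ.γ p) * FS A (σ.W A X (σ.blk p)) k =
        ∑ v ∈ VV (Q0 A) 0 (4 * X), ∑ p ∈ σ.S,
          ((fl A v : ℂ) * b p v * ek A k v + (fl A v : ℂ) * c p v * ek A k v) := by
      rw [mul_sum, sum_comm]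
      refine sum_congr rfl fun p hp => ?_
      rw [hRAM0 A σ p X k hA H hCs hp hX, ← mul_assoc, e4, one_mul, RAM1_FS, RAM1_FS,
        ← sum_add_distrib]
    rw [e1, e3, e5, mul_sum, ← sum_add_distrib]
    refine sum_congr rfl fun v hv => ?_
    dsimp only
    rw [if_pos hv, sum_add_distrib, ← sum_mul, ← sum_mul, ← mul_sum, ← mul_sum]
    push_cast
    ring

end Pool.Agent.P.MP_6f5b02_nt.Hy.G
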