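import Pool.Agent.P.MP_6f5b02_nt.Hy.IfP

/-! Step SELC. -/

namespace Pool.Agent.P.MP_6f5b02_nt.Hy.G

open Pool.Agent.P.MP_8be758_nt Pool.Agent.P.MP_8be758_nt.Pd
open Pool.Agent.P.MP_8be758_nt.Pd.G

open Finset Real Filter
open Pool.Agent.P.MP_8be758_nt.Par (cj det)
open Pool.Agent.P.MP_6f5b02_nt.Hy.Par (nq mul eu un red)
open Pool.Agent.P.MP_6f5b02_nt.Hy.Mr
open Classical in

theorem p_SELC (hSEL : S_SEL) :
    S_SELC := by
  intro A hA h3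
  obtain ⟨c, C, hc, hC, h⟩ := hSEL A hA h3
  refine ⟨c / 2, C / 2, by positivity, by positivity, fun P Q H h1 h2 h4 => ?_⟩
  obtain ⟨σ, ⟨o1, o2, o3, o4, o5, o6⟩, e1, e2, e3, hE⟩ := h P Q H h1 h2 h4
  have key : ∀ s : ℝ, σ.E / 2 ≤ ∑ p ∈ σ.S.filter (fun p : ℕ => lam p = s), 1 / ((p : ℝ) + 1) →
      ∃ σ : St, σ.OK A ∧ Cs σ ∧ σ.P = P ∧ σ.Q = Q ∧ σ.H = H ∧
        c / 2 * log (log Q / log P) - C / 2 ≤ σ.E := fun s hs =>
    ⟨{ σ with S := σ.S.filter fun p : ℕ => lam p = s },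
      ⟨o1, o2, o3, o4, o5, fun p hp => o6 p (mem_filter.1 hp).1⟩,
      fun p hp q hq => (mem_filter.1 hp).2.trans (mem_filter.1 hq).2.symm, e1, e2, e3,
      le_trans (by linarith) hs⟩
  have e := sum_filter_add_sum_filter_not σ.S (fun p : ℕ => lam p = 1) fun p => 1 / ((p : ℝ) + 1)
  have e' : σ.S.filter (fun p : ℕ => ¬lam p = 1) = σ.S.filter fun p : ℕ => lam p = -1 :=
    filter_congr fun p _ => by rcases lam_cases p with h | h <;> norm_num [h]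
  rw [e'] at e
  by_cases h5 : σ.E / 2 ≤ ∑ p ∈ σ.S.filter (fun p : ℕ => lam p = 1), 1 / ((p : ℝ) + 1)
  · exact key 1 h5
  · refine key (-1) ?_
    unfold St.E at h5 ⊢
    linarith

end Pool.Agent.P.MP_6f5b02_nt.Hy.G
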