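import Pool.Agent.P.MP_6f5b02_nt.Hy.IfP
import Pool.Agent.P.MP_8be758_nt.Pd.GST1

/-! Step ST1. -/

namespace Pool.Agent.P.MP_6f5b02_nt.Hy.G

open Pool.Agent.P.MP_8be758_nt Pool.Agent.P.MP_8be758_nt.Pd
open Pool.Agent.P.MP_8be758_nt.Pd.G

open Finset Real Filter
open Pool.Agent.P.MP_8be758_nt.Par (cj det)
open Pool.Agent.P.MP_6f5b02_nt.Hy.Par (nq mul eu un red)
open Pool.Agent.P.MP_6f5b02_nt.Hy.Mr

theorem p_ST1 (hST0 : S_ST0) (hMOM : S_MOM) :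
    S_ST1 := by
  intro A α hA hα
  obtain ⟨C0, hC0, H0⟩ := hST0 A hA
  obtain ⟨Cm, hCm, HM⟩ := hMOM A hA
  have hA' : (2 : ℝ) ≤ A := by exact_mod_cast (by omega : 2 ≤ A)
  refine ⟨C0 + 8 * Cm * (8 * A + 64 * A ^ 2), max 6 (6 / (2 * α) ^ 3), by positivity, ?_⟩
  intro _ μ a X σ K hμ hOK hCs hPm hE hX hQ ha hK hG
  have m6 : (6 : ℝ) ≤ μ := (le_max_left _ _).trans hμ
  have m0 : 0 < μ := by linarith
  have e2 : μ ^ 23 ≤ exp (2 * α * μ ^ 8) :=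
    ST1_exp (by positivity) m0 ((le_max_right _ _).trans hμ)
  have m8 : μ ^ 8 ≤ μ ^ 10 := pow_le_pow_right₀ (by linarith) (by norm_num)
  have e1 : μ ^ 23 ≤ exp (μ ^ 10) := by
    have := ST1_exp (c := 1) one_pos m0 (by simpa using m6)
    rw [one_mul] at this
    exact this.trans (exp_le_exp.2 m8)
  have hHQ : σ.H ≤ σ.Q := by
    rw [hPm.2.2, hPm.2.1]
    refine le_trans ?_ e1
    calc μ = μ ^ 1 := (pow_one μ).symm
      _ ≤ μ ^ 23 := pow_le_pow_right₀ (by linarith) (by norm_num)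
  have hT1 : 1 ≤ exp (2 * μ ^ 10) := one_le_exp (by positivity)
  have hTX : X / exp (2 * μ ^ 10) ≤ X := div_le_self (by linarith) hT1
  have hQX : σ.Q ≤ X := hQ.trans (by
    calc X ^ (1 / 40 : ℝ) ≤ X ^ (1 : ℝ) := rpow_le_rpow_of_exponent_le hX (by norm_num)
      _ = X := rpow_one X)
  have main := H0 σ X K hOK hCs hX hE hHQ hQ (hK.mono subset_rfl hTX)
  set D : ℝ := Cm * (8 * A + 64 * A ^ 2) * X ^ 2 / μ ^ 23 with hD
  have key : ∀ h ∈ range σ.nb,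
      ∑ k ∈ K, ‖σ.G A h k‖ ^ 2 * ‖FS A (σ.W A X h) k‖ ^ 2 ≤ D := by
    intro h hh
    have p1 := hOK.one_le_Ph h
    have p0 := hOK.Ph_pos h
    have pQ := hOK.Ph_le_Q (mem_range.1 hh)
    have pP := hOK.P_le_Ph h
    have hY : 1 ≤ 8 * A * X / σ.Ph h := by
      rw [le_div_iff₀ p0]
      nlinarith
    have hm := HM σ.β σ.γ (σ.I h) (σ.Ph h) (8 * A * X / σ.Ph h) (X / exp (2 * μ ^ 10))
      (σ.W A X h) 0 K (hOK.blk_I h) (hOK.sm_W hA (by linarith) h) hY (by positivity) hK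
    simp only [mul_zero, pow_zero, one_mul, mul_one, Nat.cast_zero, zero_add, pow_one] at hm
    set g : ℝ := σ.Ph h ^ (-a) with hg
    have g0 : 0 ≤ g := rpow_nonneg p0.le _
    have g1 : g ≤ 1 := rpow_le_one_of_one_le_of_nonpos p1 (by linarith)
    have g2 : g ^ 2 ≤ 1 / μ ^ 23 := by
      have h1 : g ≤ exp (-(α * μ ^ 8)) := by
        calc g ≤ σ.Ph h ^ (-α) := rpow_le_rpow_of_exponent_le p1 (by linarith)
          _ ≤ σ.P ^ (-α) :=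
            rpow_le_rpow_of_nonpos (by linarith [hOK.2.2.1]) pP (by linarith)
          _ = exp (-(α * μ ^ 8)) := by rw [hPm.1, ← exp_mul]; ring_nf
      calc g ^ 2 ≤ exp (-(α * μ ^ 8)) ^ 2 := by gcongr
        _ = 1 / exp (2 * α * μ ^ 8) := by
          rw [← exp_nat_mul, one_div, ← exp_neg]; ring_nf
        _ ≤ 1 / μ ^ 23 := one_div_le_one_div_of_le (by positivity) e2
    have hb : ∀ k ∈ K, ‖σ.G A h k‖ ^ 2 ≤ (σ.Ph h * g) ^ 2 := fun k hk => by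
      have := hG k hk h
      rw [sub_eq_add_neg, rpow_add p0, rpow_one] at this
      gcongr
    have s1 : σ.Ph h / exp (2 * μ ^ 10) ≤ 1 / μ ^ 23 := by
      rw [div_le_div_iff₀ (by positivity) (by positivity), one_mul, two_mul, exp_add]
      rw [hPm.2.1] at pQ
      gcongr
    have g3 : g ^ 2 ≤ 1 := pow_le_one₀ g0 g1
    calc ∑ k ∈ K, ‖σ.G A h k‖ ^ 2 * ‖FS A (σ.W A X h) k‖ ^ 2
        ≤ ∑ k ∈ K, (σ.Ph h * g) ^ 2 * ‖FS A (σ.W A X h) k‖ ^ 2 :=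
          sum_le_sum fun k hk => mul_le_mul_of_nonneg_right (hb k hk) (by positivity)
      _ = (σ.Ph h * g) ^ 2 * ∑ k ∈ K, ‖FS A (σ.W A X h) k‖ ^ 2 := (mul_sum _ _ _).symm
      _ ≤ (σ.Ph h * g) ^ 2 * (Cm * (X / exp (2 * μ ^ 10) + 8 * A * X / σ.Ph h) *
            (8 * A * X / σ.Ph h)) := by gcongr
      _ = Cm * X ^ 2 * (8 * A * (g ^ 2 * (σ.Ph h / exp (2 * μ ^ 10))) + 64 * A ^ 2 * g ^ 2) := by
          field_simp
          ring
      _ ≤ Cm * X ^ 2 * (8 * A * (1 * (1 / μ ^ 23)) + 64 * A ^ 2 * (1 / μ ^ 23)) := by gcongr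
      _ = D := by rw [hD]; ring
  have hs := sum_le_card_nsmul _ _ _ key
  rw [card_range, nsmul_eq_mul] at hs
  have nb := hOK.nb_le hPm
  have D0 : 0 ≤ D := by positivity
  have E0 : 0 < 1 / σ.E := by positivity
  rw [hPm.2.2] at main
  have fin : 2 * (σ.nb : ℝ) * ∑ h ∈ range σ.nb,
      ∑ k ∈ K, ‖σ.G A h k‖ ^ 2 * ‖FS A (σ.W A X h) k‖ ^ 2 ≤
      8 * Cm * (8 * A + 64 * A ^ 2) * X ^ 2 * (1 / μ + 1 / σ.E) := by
    calc _ ≤ 2 * (σ.nb : ℝ) * (σ.nb * D) := by gcongr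
      _ ≤ 2 * (2 * μ ^ 11) * (2 * μ ^ 11 * D) := by gcongr
      _ = 8 * Cm * (8 * A + 64 * A ^ 2) * X ^ 2 * (1 / μ) := by
          rw [hD]; field_simp; ring
      _ ≤ _ := by gcongr; linarith
  linarith

end Pool.Agent.P.MP_6f5b02_nt.Hy.G
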