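import Pool.Agent.P.MP_6f5b02_nt.Hy.IfP
import Pool.Agent.P.MP_8be758_nt.Pd.GSTG

/-! Step STG. -/

namespace Pool.Agent.P.MP_6f5b02_nt.Hy.G

open Pool.Agent.P.MP_8be758_nt Pool.Agent.P.MP_8be758_nt.Pd
open Pool.Agent.P.MP_8be758_nt.Pd.G

open Finset Real Filter Topology
open Pool.Agent.P.MP_6f5b02_nt.Hy.Mr

theorem p_STG (hSEL : S_SELC) (hST1 : S_ST1) (hST2 : S_ST2) (hUB : S_UB) :
    S_STG := by
  classical
  intro A α ε hodd h3 hα hε
  have hA : 5 ≤ A := by omega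
  obtain ⟨al, al0, al1, al3⟩ : ∃ al : ℝ, 0 < al ∧ al ≤ 1 ∧ 3 * al ≤ α :=
    ⟨min (α / 3) 1, lt_min (by positivity) one_pos, min_le_right _ _,
      by linarith [min_le_left (α / 3) 1]⟩
  obtain ⟨c, C0, hc, hC0, hsel⟩ := hSEL A hodd h3
  obtain ⟨C1, μ1, hC1, h1⟩ := hST1 A (al / 2) hA (by positivity)
  obtain ⟨C2, μ2, hC2, h2⟩ := hST2 A al hA al0
  obtain ⟨X1, hU⟩ := hUB A al hA al0
  have t1 : Tendsto (fun m : ℝ => c * log m) atTop atTop := tendsto_log_atTop.const_mul_atTop hc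
  have t2 : Tendsto (fun m : ℝ => 2 * (C1 + C2) * (m⁻¹ + (c * log m)⁻¹)) atTop (𝓝 0) := by
    simpa using (tendsto_inv_atTop_zero.add t1.inv_tendsto_atTop).const_mul (2 * (C1 + C2))
  obtain ⟨m, m2, m3, m4, m5, m6, m7⟩ := ((eventually_ge_atTop 2).and ((eventually_ge_atTop μ1).and
    ((eventually_ge_atTop μ2).and ((eventually_ge_atTop (4 * (A : ℝ))).and
    ((t1.eventually_ge_atTop (C0 + 1)).and (t2.eventually_le_const hε)))))).exists
  set B := m⁻¹ + (c * log m)⁻¹ with hB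
  have B0 : 0 ≤ B := add_nonneg (by positivity) (inv_nonneg.2 (by linarith))
  set μ : ℕ → ℝ := fun j => m ^ 2 ^ j with hμ
  have q1 : ∀ j : ℕ, (1 : ℝ) ≤ 2 ^ j := fun j => one_le_pow₀ one_le_two
  have u1 : ∀ j, 2 ^ j * m ≤ μ j := STG_pow m2
  have u2 : ∀ j, m ≤ μ j := fun j => by nlinarith [u1 j, q1 j]
  have u3 : ∀ j, μ (j + 1) = μ j ^ 2 := fun j => by simp only [hμ, pow_succ 2 j, pow_mul]
  have u4 : ∀ j, 1 ≤ μ j := fun j => by linarith [u2 j]
  obtain ⟨X0, hX0⟩ := eventually_atTop.1 ((eventually_ge_atTop 1).and ((eventually_ge_atTop X1).and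
    ((tendsto_rpow_atTop (show (0 : ℝ) < 1 / 40 by norm_num)).eventually_ge_atTop (exp (m ^ 10)))))
  have L1 : 1 ≤ exp (2 * m ^ 10) := one_le_exp (by positivity)
  refine ⟨exp (2 * m ^ 10), X0, L1, fun {_} X hX => ?_⟩
  choose σ s1 sC s2 s3 s4 s5 using fun j => hsel (exp (μ j ^ 8)) (exp (μ j ^ 10)) (μ j)
    (by linarith [add_one_le_exp (μ j ^ 8), le_self_pow₀ (u4 j) (show 8 ≠ 0 by norm_num), u2 j])
    (exp_le_exp.2 (pow_le_pow_right₀ (u4 j) (by norm_num))) (by linarith [u2 j])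
  have pm : ∀ j, (σ j).Pm (μ j) := fun j => ⟨s2 j, s3 j, s4 j⟩
  have e1 : ∀ j, 2 ^ j * (c * log m) ≤ (σ j).E := fun j => by
    have := s5 j
    rw [log_exp, log_exp, show μ j ^ 10 / μ j ^ 8 = μ j ^ 2 by
      have := u4 j
      field_simp, log_pow, hμ, log_pow] at this
    push_cast at this
    nlinarith [q1 j]
  have e2 : ∀ j, 1 ≤ (σ j).E := fun j => by nlinarith [e1 j, q1 j]
  have e3 : ∀ j, 1 / μ j + 1 / (σ j).E ≤ B / 2 ^ j := fun j => by
    have := q1 j
    have a1 := one_div_le_one_div_of_le (by positivity) (u1 j)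
    have a2 := one_div_le_one_div_of_le (mul_pos (by positivity) (by linarith)) (e1 j)
    rw [hB, add_div]
    refine add_le_add (a1.trans_eq ?_) (a2.trans_eq ?_) <;> rw [one_div, mul_inv] <;> ring
  set a : ℕ → ℝ := fun j => al * (1 - 1 / 2 ^ (j + 1)) with ha
  have a0 : ∀ j, 0 ≤ a j ∧ a j ≤ al := fun j => by
    have b1 : (0 : ℝ) < 1 / 2 ^ (j + 1) := by positivity
    have b2 : (1 : ℝ) / 2 ^ (j + 1) ≤ 1 := (div_le_one (by positivity)).2 (q1 _)
    simp only [ha]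
    constructor <;> nlinarith
  have a1 : ∀ j, al / μ j ^ 2 ≤ a (j + 1) - a j := fun j => by
    have b1 : a (j + 1) - a j = al / (2 ^ (j + 1) * 2) := by
      simp only [ha]
      field_simp
      ring
    rw [b1, ← u3]
    exact div_le_div_of_nonneg_left al0.le (by positivity) (by nlinarith [u1 (j + 1), q1 (j + 1)])
  obtain ⟨x1, x2, x3⟩ := hX0 X hX
  set K := KT X (exp (2 * m ^ 10))
  have k1 : Bd K (X / exp (2 * m ^ 10)) := bd_KT (by positivity)
  have k2 : Bd K X := k1.mono Subset.rfl (div_le_self (by linarith) L1)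
  have ex : ∃ j : ℕ, X ^ (1 / 40 : ℝ) < exp (μ (j + 1) ^ 10) := by
    obtain ⟨j, hj⟩ := pow_unbounded_of_one_lt (X ^ (1 / 40 : ℝ)) one_lt_two
    refine ⟨j, ?_⟩
    have b1 := le_self_pow₀ (u4 (j + 1)) (show 10 ≠ 0 by norm_num)
    have b2 := u1 (j + 1)
    rw [pow_succ] at b2
    nlinarith [add_one_le_exp (μ (j + 1) ^ 10), q1 j]
  set J := Nat.find ex
  have j1 : ∀ j ≤ J, (σ j).Q ≤ X ^ (1 / 40 : ℝ) := fun j hj => by
    rw [s3]
    rcases j with _ | j
    · simpa [hμ] using x3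
    · exact not_lt.1 (Nat.find_min ex hj)
  have j2 : log X ≤ 40 * μ J ^ 20 := by
    have := log_le_log (by positivity) (Nat.find_spec ex).le
    rw [log_rpow (by linarith), log_exp, u3, ← pow_mul] at this
    linarith
  refine ⟨K.filter fun k => ¬(σ J).Good A (a J) k, filter_subset _ _, ?_, ?_⟩
  · exact (hU _ _ X _ _ x2 (s1 J) (pm J) (j1 J le_rfl) j2 (a0 J).1 (a0 J).2
      (k2.mono (filter_subset _ _) le_rfl) fun k hk => (mem_filter.1 hk).2).trans
      (rpow_le_rpow_of_exponent_le x1 al3)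
  have key : ∀ j ≤ J, ∑ k ∈ K.filter (fun k => ∃ i ≤ j, (σ i).Good A (a i) k), ‖FX A X k‖ ^ 2 ≤
      (C1 + C2) * X ^ 2 * (B * (2 - 1 / 2 ^ j)) := by
    intro j hj
    induction j with
    | zero =>
      refine (h1 _ (a 0) X _ _ (m3.trans (u2 0)) (s1 0) (sC 0) (pm 0) (e2 0) x1 (j1 0 hj)
        (by simp only [ha]; linarith) (k1.mono (filter_subset _ _) (by simp [hμ])) fun k hk => ?_).trans ?_
      · obtain ⟨i, hi, h⟩ := (mem_filter.1 hk).2
        rwa [Nat.le_zero.1 hi] at h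
      · have b1 := e3 0
        have b2 : 0 ≤ 1 / μ 0 + 1 / (σ 0).E := by
          have := u4 0
          have := e2 0
          positivity
        norm_num at b1 b2 ⊢
        gcongr
        linarith
    | succ j ih =>
      have b1 := h2 (μ j) (a (j + 1)) (a j) X (σ (j + 1)) (σ j)
        (K.filter fun k => (σ (j + 1)).Good A (a (j + 1)) k ∧ ¬(σ j).Good A (a j) k)
        (m4.trans (u2 j)) (s1 _) (sC _) (s1 _) (u3 j ▸ pm (j + 1)) (pm j) (e2 _) x1 (j1 _ hj) (a0 j).1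
        ((a0 j).2.trans al1) (a1 j) (k2.mono (filter_subset _ _) le_rfl)
        fun k hk => (mem_filter.1 hk).2
      rw [← u3] at b1
      have b2 : C2 * X ^ 2 * (1 / μ (j + 1) + 1 / (σ (j + 1)).E) ≤
          (C1 + C2) * X ^ 2 * (B / 2 ^ (j + 1)) := by
        have := u4 (j + 1)
        have := e2 (j + 1)
        gcongr
        · linarith
        · exact e3 _
      rw [← sum_filter_add_sum_filter_not _ fun k => ∃ i ≤ j, (σ i).Good A (a i) k]
      refine (add_le_add ((sum_le_sum_of_subset_of_nonneg (fun k hk => ?_)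
        fun _ _ _ => by positivity).trans (ih (by omega))) ((sum_le_sum_of_subset_of_nonneg
        (fun k hk => ?_) fun _ _ _ => by positivity).trans (b1.trans b2))).trans_eq
        (by field_simp; ring)
      · simp only [mem_filter] at hk ⊢
        exact ⟨hk.1.1, hk.2⟩
      · simp only [mem_filter] at hk ⊢
        obtain ⟨⟨h3, i, hi, h4⟩, h5⟩ := hk
        refine ⟨h3, ?_, fun h => h5 ⟨j, le_rfl, h⟩⟩
        rcases hi.eq_or_lt with rfl | hi
        · exact h4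
        · exact absurd ⟨i, by omega, h4⟩ h5
  refine (sum_le_sum_of_subset_of_nonneg (fun k hk => ?_) fun _ _ _ => by positivity).trans
    ((key J le_rfl).trans ?_)
  · rw [Finset.mem_sdiff, mem_filter] at hk
    exact mem_filter.2 ⟨hk.1, J, le_rfl, by tauto⟩
  · have b1 : (0 : ℝ) < 1 / 2 ^ J := by positivity
    have b2 : (C1 + C2) * (B * (2 - 1 / 2 ^ J)) ≤ ε := by
      nlinarith [mul_nonneg (mul_nonneg (add_pos hC1 hC2).le B0) b1.le]
    nlinarith [mul_le_mul_of_nonneg_right b2 (sq_nonneg X)]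

end Pool.Agent.P.MP_6f5b02_nt.Hy.G
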