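import Pool.Agent.P.MP_6f5b02_nt.Hy.IfP
import Pool.Agent.P.MP_8be758_nt.Pd.GTRI

/-! Step TRI. -/

namespace Pool.Agent.P.MP_6f5b02_nt.Hy.G

open Pool.Agent.P.MP_8be758_nt Pool.Agent.P.MP_8be758_nt.Pd
open Pool.Agent.P.MP_8be758_nt.Pd.G

open Finset Real Filter
open ArithmeticFunction (cardFactors)
open Pool.Agent.P.MP_8be758_nt.Par (det)

theorem TRI_mem [CM] {A : ℕ} (hA : 5 ≤ A) {X : ℝ} {g : G4} (h0 : Cn g.1) (h1 : det g.1 g.2 = 1)
    (h2 : X < (ev (Q0 A) g.1 : ℝ)) (h3 : (ev (Q0 A) g.1 : ℝ) ≤ 2 * X)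
    (h4 : ev (Q0 A) g.1 < 9 * bl (Q0 A) g.1 g.2) (h5 : bl (Q0 A) g.1 g.2 ≤ 9 * ev (Q0 A) g.1)
    (h6 : lam (ev (Q0 A) g.1) * lam (ev (Q0 A) g.2) ≠ -1) : g ∈ EdBad A 9 X (-1) := by
  classical
  unfold EdBad Ed
  rw [mem_filter, mem_GG hA (Q0_red A)]
  have h4' : (ev (Q0 A) g.1 : ℝ) < 9 * (bl (Q0 A) g.1 g.2 : ℝ) := by exact_mod_cast h4
  have h5' : (bl (Q0 A) g.1 g.2 : ℝ) ≤ 9 * (ev (Q0 A) g.1 : ℝ) := by exact_mod_cast h5
  exact ⟨⟨h0, h1, h2, h3, by linarith, h5'⟩, h6⟩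

theorem TRI_cn {A : ℕ} {v w : V2} (hv : Cn v) (hP : 2722500 < ev (Q0 A) v) (d : det v w = 1)
    (b : ev (Q0 A) v < bl (Q0 A) v w) : Cn w := by
  have a1 := hv.sq_le (A := A)
  rw [← ev_Q0] at a1
  have a2 : 66 * v.1 ≤ ev (Q0 A) v := abs_le_of_sq_le_sq' (by nlinarith) (by linarith) |>.2
  have e1 : ev (Q0 A) v * (2 * w.2) = v.2 * bl (Q0 A) v w + (2 * v.1 + v.2) := by
    simp only [ev, bl, Q0, det] at d ⊢
    linear_combination (2 * v.1 + v.2) * d
  have e2 : ev (Q0 A) v * (2 * (16 * w.1 - 25 * w.2)) =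
      (16 * v.1 - 25 * v.2) * bl (Q0 A) v w - (66 * v.1 - 103 * v.2) := by
    simp only [ev, bl, Q0, det] at d ⊢
    linear_combination (103 * v.2 - 66 * v.1) * d
  have c1 := mul_nonneg hv.1 (show 0 ≤ bl (Q0 A) v w by linarith)
  have c2 := mul_le_mul_of_nonneg_right (show 1 ≤ 16 * v.1 - 25 * v.2 by have := hv.2; omega)
    (show 0 ≤ bl (Q0 A) v w by linarith)
  have c3 := (mul_pos_iff_of_pos_left (show 0 < ev (Q0 A) v by linarith)).1
    (e1 ▸ by linarith [hv.1, hv.pos] : 0 < ev (Q0 A) v * (2 * w.2))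
  have c4 := (mul_pos_iff_of_pos_left (show 0 < ev (Q0 A) v by linarith)).1
    (e2 ▸ by linarith [hv.1] : 0 < ev (Q0 A) v * (2 * (16 * w.1 - 25 * w.2)))
  exact ⟨by linarith, by linarith⟩

theorem TRI_one [CM] {A : ℕ} (hA : 5 ≤ A) {X : ℝ} (hX : 2722500 ≤ X) {v : V2}
    (hv : v ∈ VV (Q0 A) X (2 * X)) :
    (∃ g ∈ EdBad A 9 X (-1), g.1 = v) ∨ (∃ g ∈ EdBad A 9 (2 * X) (-1), g.1 - g.2 = v) ∨
    (∃ g ∈ EdBad A 9 (4 * X) (-1), g.1 - g.2 = v) ∨
    (∃ g ∈ EdBad A 9 (8 * X) (-1), g.1 - g.2 = v) := by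
  obtain ⟨h0, h1, h2, h3⟩ := (mem_VV hA (Q0_red A)).1 hv
  have hAP : 2722500 < ev (Q0 A) v := by exact_mod_cast hX.trans_lt h2
  obtain ⟨w, d, b1, b2⟩ := TRI_w (Q0 A) v h1 (by linarith)
  have hw := TRI_cn h0 hAP d b1
  have hR := (hw.ev_pos (A := A)).le
  have hD := disc_eq (Q0 A) v w
  rw [(isF_Q0 A).1, d] at hD
  have hR4 : ev (Q0 A) w ≤ 4 * ev (Q0 A) v := by
    by_contra hn
    push Not at hn
    nlinarith
  have s1 : ev (Q0 A) (v + w) = ev (Q0 A) v + bl (Q0 A) v w + ev (Q0 A) w := by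
    simp only [ev, bl, Prod.fst_add, Prod.snd_add]; ring
  have s2 : bl (Q0 A) v (v + w) = 2 * ev (Q0 A) v + bl (Q0 A) v w := by
    simp only [ev, bl, Prod.fst_add, Prod.snd_add]; ring
  have s3 : bl (Q0 A) (v + w) w = bl (Q0 A) v w + 2 * ev (Q0 A) w := by
    simp only [ev, bl, Prod.fst_add, Prod.snd_add]; ring
  have d2 : det v (v + w) = 1 := by
    simp only [det, Prod.fst_add, Prod.snd_add] at d ⊢; linear_combination d
  have d3 : det (v + w) w = 1 := by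
    simp only [det, Prod.fst_add, Prod.snd_add] at d ⊢; linear_combination d
  by_cases c1 : lam (ev (Q0 A) v) * lam (ev (Q0 A) w) = -1
  swap
  · exact Or.inl ⟨(v, w), TRI_mem hA h0 d h2 h3 (by simp only; linarith) (by simp only; linarith) c1,
      rfl⟩
  by_cases c2 : lam (ev (Q0 A) v) * lam (ev (Q0 A) (v + w)) = -1
  swap
  · exact Or.inl ⟨(v, v + w), TRI_mem hA h0 d2 h2 h3 (by simp only; linarith)
      (by simp only; linarith) c2, rfl⟩
  have c3 : lam (ev (Q0 A) (v + w)) * lam (ev (Q0 A) w) ≠ -1 := by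
    rcases lam_cases (ev (Q0 A) v) with e | e <;> rw [e] at c1 c2
    · rw [show lam (ev (Q0 A) (v + w)) = -1 by linarith, show lam (ev (Q0 A) w) = -1 by linarith]
      norm_num
    · rw [show lam (ev (Q0 A) (v + w)) = 1 by linarith, show lam (ev (Q0 A) w) = 1 by linarith]
      norm_num
  have l1 : 2 * X < (ev (Q0 A) (v + w) : ℝ) := by
    have : ((2 * ev (Q0 A) v : ℤ) : ℝ) ≤ (ev (Q0 A) (v + w) : ℝ) := by
      exact_mod_cast (by linarith : 2 * ev (Q0 A) v ≤ ev (Q0 A) (v + w))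
    push_cast at this
    linarith
  have l2 : (ev (Q0 A) (v + w) : ℝ) ≤ 16 * X := by
    have : (ev (Q0 A) (v + w) : ℝ) ≤ ((8 * ev (Q0 A) v : ℤ) : ℝ) := by
      exact_mod_cast (by linarith : ev (Q0 A) (v + w) ≤ 8 * ev (Q0 A) v)
    push_cast at this
    linarith
  have key : ∀ Y : ℝ, Y < (ev (Q0 A) (v + w) : ℝ) → (ev (Q0 A) (v + w) : ℝ) ≤ 2 * Y →
      ∃ g ∈ EdBad A 9 Y (-1), g.1 - g.2 = v := fun Y y1 y2 =>
    ⟨(v + w, w), TRI_mem hA (h0.add hw) d3 y1 y2 (by simp only; linarith) (by simp only; linarith) c3, by simp⟩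
  right
  by_cases a1 : (ev (Q0 A) (v + w) : ℝ) ≤ 4 * X
  · exact Or.inl (key _ l1 (by linarith))
  by_cases a2 : (ev (Q0 A) (v + w) : ℝ) ≤ 8 * X
  · exact Or.inr (Or.inl (key _ (by linarith) (by linarith)))
  · exact Or.inr (Or.inr (key _ (by linarith) (by linarith)))

theorem p_TRI (hCNT : S_CNT) :
    S_TRI := by
  classical
  intro A _ hA3
  have hA : 5 ≤ A := by omega
  obtain ⟨c, N0, hc, h⟩ := hCNT A 2 hA (by norm_num)
  refine ⟨9, 8, c / 16, max N0 2722500, by norm_num, by norm_num, by positivity, fun {_} X hX _ => ?_⟩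
  have hXA : 2722500 ≤ X := (le_max_right _ _).trans hX
  have hX0 : 0 < X := by linarith
  have h1 := h _ (Q0_mem hA) X ((le_max_left _ _).trans hX)
  have hsub : VV (Q0 A) X (2 * X) ⊆ (EdBad A 9 X (-1)).image (fun g => g.1) ∪
      ((EdBad A 9 (2 * X) (-1)).image (fun g => g.1 - g.2) ∪
      ((EdBad A 9 (4 * X) (-1)).image (fun g => g.1 - g.2) ∪
      (EdBad A 9 (8 * X) (-1)).image (fun g => g.1 - g.2))) := by
    intro v hv
    simp only [mem_union, mem_image]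
    exact TRI_one hA hXA hv
  have h2 : (VV (Q0 A) X (2 * X)).card ≤ (EdBad A 9 X (-1)).card + ((EdBad A 9 (2 * X) (-1)).card +
      ((EdBad A 9 (4 * X) (-1)).card + (EdBad A 9 (8 * X) (-1)).card)) :=
    (card_le_card hsub).trans ((card_union_le _ _).trans (add_le_add card_image_le
      ((card_union_le _ _).trans (add_le_add card_image_le
      ((card_union_le _ _).trans (add_le_add card_image_le card_image_le))))))
  have h3 : ((VV (Q0 A) X (2 * X)).card : ℝ) ≤ (EdBad A 9 X (-1)).card +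
      ((EdBad A 9 (2 * X) (-1)).card +
      ((EdBad A 9 (4 * X) (-1)).card + (EdBad A 9 (8 * X) (-1)).card)) := by exact_mod_cast h2
  by_contra hn
  push Not at hn
  have a1 := hn X (by linarith) (by linarith)
  have a2 := hn (2 * X) (by linarith) (by linarith)
  have a3 := hn (4 * X) (by linarith) (by linarith)
  have a4 := hn (8 * X) (by linarith) (by linarith)
  have := mul_pos hc hX0
  nlinarith

end Pool.Agent.P.MP_6f5b02_nt.Hy.G
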