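import Pool.Agent.P.MP_6f5b02_nt.Hy.IfP
import Pool.Agent.P.MP_8be758_nt.Pd.GWCT

/-! Step WCT. -/

namespace Pool.Agent.P.MP_6f5b02_nt.Hy.G

open Pool.Agent.P.MP_8be758_nt Pool.Agent.P.MP_8be758_nt.Pd
open Pool.Agent.P.MP_8be758_nt.Pd.G

open Finset Real Filter
open Pool.Agent.P.MP_8be758_nt.Par (cj det)
open Pool.Agent.P.MP_6f5b02_nt.Hy.Par (nq mul eu un red)
open Pool.Agent.P.MP_6f5b02_nt.Hy.Mr

open Classical in

theorem p_WCT (hVEQ : S_VEQ) (hCNT : S_CNT) :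
    S_WCT := by
  intro A M hA hM
  have hA1 : 5 ≤ A := by omega
  obtain ⟨C, hC, h1⟩ := hVEQ A hA1
  obtain ⟨c, N0, hc, h2⟩ := hCNT A (6 / 5) hA1 (by norm_num)
  obtain ⟨m, hm⟩ : ∃ m : ℕ, m = 2 * M := ⟨_, rfl⟩
  have a4 : 2 ≤ m := by omega
  have r4 : (2 : ℝ) ≤ m := by exact_mod_cast a4
  have t2 := (tendsto_rpow_atTop (show (0 : ℝ) < 1 / 4 by norm_num)).comp
    (tendsto_id.const_mul_atTop (show (0 : ℝ) < 6 / 5 by norm_num))
  obtain ⟨X0, h4⟩ := eventually_atTop.1 ((eventually_ge_atTop N0).and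
    ((eventually_ge_atTop 1).and (t2.eventually_ge_atTop (12 / 5 * C * m ^ 4 / c))))
  refine ⟨c / (2 * m ^ 2), X0, by positivity, fun N hN => ?_⟩
  obtain ⟨b1, b2, b3⟩ := h4 N hN
  simp only [Function.comp, id] at b3
  have u1 := h1 _ (Q0_mem hA1) N (6 / 5 * N) m (by linarith) (by linarith) (by linarith)
    (by linarith) m (fun v => ind (C2 m v (1, 0))) (by omega) le_rfl
    (fun x y e => by
      show ind _ = ind _
      rw [show C2 m x (1, 0) ↔ C2 m y (1, 0) from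
        ⟨fun h => ⟨e.1.symm.trans h.1, e.2.symm.trans h.2⟩,
          fun h => ⟨e.1.trans h.1, e.2.trans h.2⟩⟩])
    fun x => by rw [abs_of_nonneg (ind_nonneg _)]; exact ind_le_one _
  have u2 : ∑ x ∈ VV (Q0 A) N (6 / 5 * N), 1 * ind (C2 m x (1, 0)) ≤
      ((VV (Q0 A) N (6 / 5 * N)).filter fun w => C2 M w (1, 0)).card := by
    rw [card_filter]
    push_cast
    refine sum_le_sum fun x _ => ?_
    have hd : (M : ℤ) ∣ m := by rw [hm]; exact_mod_cast Dvd.intro_left _ rfl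
    split_ifs with h
    · rw [one_mul]; exact ind_le_one _
    · have : ¬ C2 m x (1, 0) := fun h' => h ⟨h'.1.of_dvd hd, h'.2.of_dvd hd⟩
      simp [ind, this]
  have u3 := mul_le_mul (h2 _ (Q0_mem hA1) N b1) (WCT_av a4) (by positivity) (Nat.cast_nonneg _)
  have u4 : (6 / 5 * N) ^ (3 / 4 : ℝ) * (6 / 5 * N) ^ (1 / 4 : ℝ) = 6 / 5 * N := by
    rw [← rpow_add (by linarith)]
    norm_num
  have u5 : C * m ^ 2 * (6 / 5 * N) ^ (3 / 4 : ℝ) ≤ c * N / (2 * m ^ 2) := by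
    rw [div_le_iff₀ hc] at b3
    have u6 := mul_le_mul_of_nonneg_left b3
      (show 0 ≤ (6 / 5 * N) ^ (3 / 4 : ℝ) by positivity)
    rw [← mul_assoc _ _ c, u4] at u6
    rw [le_div_iff₀ (by positivity)]
    linarith
  have u6 : c * N * (1 / m ^ 2) = 2 * (c * N / (2 * m ^ 2)) := by field_simp
  have u7 : c / (2 * m ^ 2) * N = c * N / (2 * m ^ 2) := by ring
  linarith [(abs_le.1 u1).1]

end Pool.Agent.P.MP_6f5b02_nt.Hy.G
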