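import Pool.Agent.P.MP_6f5b02_nt.Hy.IfG

/-! Step ALP. -/

namespace Pool.Agent.P.MP_6f5b02_nt.Hy

open Pool.Agent.P.MP_8be758_nt Pool.Agent.P.MP_8be758_nt.Pd
open Finset Real Filter
open Pool.Agent.P.MP_8be758_nt.Par (det)

theorem ALP_one (hL1 : S_L1) (hL2 : S_L2) (hL3 : S_L3) {A p : ℕ} {u u' : V2} (hA : 5 ≤ A)
    (hp : p.Prime) (h4 : 4 * A < p) (hu : ¬((p : ℤ) ∣ u.1 ∧ (p : ℤ) ∣ u.2))
    (hd : ¬(p : ℤ) ∣ det u u') {f : G4 → ℝ}
    (hf : ∀ g, f g = ind ((p : ℤ) ∣ ev (act (Q0 A) g) u ∧ ¬(p : ℤ) ^ 2 ∣ ev (act (Q0 A) g) u ∧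
      ¬(p : ℤ) ∣ ev (act (Q0 A) g) u')) :
    (rho A p : ℝ) / (2 * p) ≤ S4.av (p ^ 2) f ∧ S4.av (p ^ 2) f ≤ (rho A p : ℝ) / p := by
  have a1 := (hL1 A p _ u (by omega) (isF_Q0 A) hp h4 hu).2.2
  have a2 := hL2 A p _ u u' (by omega) (isF_Q0 A) hp h4 hd
  have a3 := hL3 A p _ u (by omega) (isF_Q0 A) hp h4 hu
  have hp13 : (13 : ℝ) ≤ p := by exact_mod_cast (by omega : 13 ≤ p)
  have hr : (0 : ℝ) ≤ rho A p := Nat.cast_nonneg _
  constructor
  · have b := S4.av_mono (p ^ 2) (g := f) (f := fun g =>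
      ind ((p : ℤ) ∣ ev (act (Q0 A) g) u) - ind ((p : ℤ) ^ 2 ∣ ev (act (Q0 A) g) u) -
        ind ((p : ℤ) ∣ ev (act (Q0 A) g) u ∧ (p : ℤ) ∣ ev (act (Q0 A) g) u')) fun g _ => by
      rw [hf]
      unfold ind
      split_ifs <;> first | tauto | norm_num
    rw [Sys.av_sub, Sys.av_sub, a1] at b
    have : (rho A p : ℝ) / (2 * p) ≤ rho A p / (p + 1) - rho A p / p ^ 2 - rho A p / p ^ 2 := by
      have e : (rho A p : ℝ) / (p + 1) - rho A p / p ^ 2 - rho A p / p ^ 2 - rho A p / (2 * p) =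
          rho A p * ((p ^ 2 - 5 * p - 4) / (2 * p ^ 2 * (p + 1))) := by
        field_simp; ring
      have : (0 : ℝ) ≤ rho A p * ((p ^ 2 - 5 * p - 4) / (2 * p ^ 2 * (p + 1))) :=
        mul_nonneg hr (div_nonneg (by nlinarith) (by positivity))
      linarith
    linarith
  · have b := S4.av_mono (p ^ 2) (f := f) (g := fun g => ind ((p : ℤ) ∣ ev (act (Q0 A) g) u))
      fun g _ => by rw [hf]; exact ind_mono fun h => h.1
    rw [a1] at b
    exact b.trans (div_le_div_of_nonneg_left hr (by linarith) (by linarith))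

theorem p_ALP (hOK : S_OK) (hL1 : S_L1) (hL2 : S_L2) (hL3 : S_L3) (hLB : S_LB) :
    S_ALP := by
  refine ⟨0, fun A C1 => ⟨1, le_rfl, fun z _ _ hz => Eventually.of_forall fun y D1 D2 p hp => ?_⟩⟩
  have hpr := prime_of_PP hp
  have hA : 5 ≤ z.A := hz.2.1
  have h4 : 4 * z.A < p := by
    have : (z.w : ℝ) < p := lt_of_PP hp
    have := hz.2.2.2.1
    have : z.w < p := by exact_mod_cast ‹(z.w : ℝ) < p›
    omega
  have hpz : Prime (p : ℤ) := Nat.prime_iff_prime_int.1 hpr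
  have n1 : ¬(p : ℤ) ∣ 1 := hpz.not_dvd_one
  have e1 : ∀ φ : Fm, ev φ (1, 0) = φ.1 := fun φ => by simp [ev]
  have e2 : ∀ φ : Fm, ev φ (0, 1) = φ.2.2 := fun φ => by simp [ev]
  refine ⟨fun hd => ?_, fun hd => ?_⟩
  · by_cases h1 : p ∣ D1
    · exact ALP_one hL1 hL2 hL3 (u := (1, 0)) (u' := (0, 1)) hA hpr h4 (fun h => n1 h.1)
        (by simpa [det] using n1) fun g => by rw [e1, e2, Pr.al, if_pos h1]; rfl
    · have h2 : p ∣ D2 := ((Nat.Prime.dvd_mul hpr).1 hd).resolve_left h1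
      exact ALP_one hL1 hL2 hL3 (u := (0, 1)) (u' := (1, 0)) hA hpr h4 (fun h => n1 h.2)
        (by simpa [det] using n1) fun g => by rw [e1, e2, Pr.al, if_neg h1, if_pos h2]; rfl
  · have h1 : ¬p ∣ D1 := fun h => hd (h.mul_right _)
    have h2 : ¬p ∣ D2 := fun h => hd (h.mul_left _)
    have b := hLB z.A p (Q0 z.A) Bool univ (fun i => if i then (1, 0) else (0, 1)) (fun _ => 1)
      (by omega) (isF_Q0 _) hpr h4 (by simp) (fun i _ => ⟨zero_le_one, le_rfl, by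
        cases i
        · exact fun h => n1 h.2
        · exact fun h => n1 h.1⟩)
    have e : (Pr.aa ⟨z, y⟩) D1 D2 p = S4.av (p ^ 2) (fun g => ∏ i : Bool, (1 - 1 *
        ind ((p : ℤ) ∣ ev (act (Q0 z.A) g) (if i then (1, 0) else (0, 1))))) := by
      unfold Pr.aa
      congr 1
      funext g
      rw [Pr.al, if_neg h1, if_neg h2, Fintype.prod_bool, if_pos rfl, if_neg (by simp), e1, e2,
        hpz.dvd_mul]
      show _ = (1 - 1 * ind ((p : ℤ) ∣ ((Pr.fm ⟨z, y⟩) g).1)) *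
        (1 - 1 * ind ((p : ℤ) ∣ ((Pr.fm ⟨z, y⟩) g).2.2))
      unfold ind
      split_ifs <;> first | tauto | norm_num
    have s2 : ∑ _i : Bool, (1 : ℝ) = 2 := by simp
    rw [s2, ← e] at b
    have b2 := b.2 fun i _ j _ hij => by
      cases i <;> cases j <;> first | exact absurd rfl hij | simpa [det] using n1
    refine ⟨le_trans (le_of_eq (by ring)) b.1, b2.trans (le_of_eq (by ring)), ?_⟩
    rw [← S4.av_const (p ^ 2) (hOK.2.2.2.1 _ (pow_pos hpr.pos 2)) 1]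
    refine S4.av_mono _ fun g _ => ?_
    rw [Pr.al, if_neg h1, if_neg h2]
    exact ind_le_one _

end Pool.Agent.P.MP_6f5b02_nt.Hy
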