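import Pool.Agent.P.MP_6f5b02_nt.Hy.IfG
import Pool.Agent.P.MP_8be758_nt.Pd.TATC

/-! Step ATC. -/

namespace Pool.Agent.P.MP_6f5b02_nt.Hy

open Pool.Agent.P.MP_8be758_nt Pool.Agent.P.MP_8be758_nt.Pd
open Finset Real Filter
open Pool.Agent.P.MP_8be758_nt.Par (det)

theorem p_ATC (hMCA : S_MCA) (hALP : S_ALP) (hL1 : S_L1) :
    S_ATC := by
  obtain ⟨c1, h1⟩ := hMCA
  obtain ⟨c2, h2⟩ := hALP
  refine ⟨c1 + c2 + 1, fun A C1 => ⟨1, le_rfl, fun z hA hC hz => ?_⟩⟩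
  obtain ⟨_, -, h1⟩ := h1 A C1
  obtain ⟨_, -, h2⟩ := h2 A C1
  filter_upwards [h1 z hA hC (hz.mono (by omega)), h2 z hA hC (hz.mono (by omega)),
    eventually_ge_atTop (1 : ℝ)] with y e1 e2 hy
  intro q D1 D2 c0 hAD
  obtain ⟨-, b2, -, b4, -, -, -, b8, b9, b10, b11, b12, -⟩ := hz.mono (c := 1) (by omega)
  have hK : 2 * z.K ≤ 10 * z.K' := by omega
  refine ⟨mul_nonneg ?_ (prod_nonneg fun p _ => S4.av_nonneg _ fun g => ATC_al _ _ _ _), ?_⟩
  · unfold Pr.Zb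
    exact mul_nonneg (mul_nonneg (Nat.cast_nonneg _) (S4.av_nonneg _ fun g => ind_nonneg _))
      (mul_nonneg (mul_nonneg (S4.av_nonneg _ fun g => ind_nonneg _)
        (S4.av_nonneg _ fun g => ind_nonneg _)) (S4.av_nonneg _ fun g => ind_nonneg _))
  · obtain ⟨d1, d2⟩ := DA_pos hAD.2.1
    have hD : ∏ p ∈ (Pr.Ps ⟨z, y⟩).filter (fun p => p ∣ D1 * D2), p ≤ D1 * D2 := by
      refine Nat.le_of_dvd (Nat.mul_pos d1 d2) ?_
      refine Finset.prod_primes_dvd _ (fun p hp => ?_) (fun p hp => (mem_filter.1 hp).2)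
      exact (prime_of_PP (mem_filter.1 hp).1).prime
    have key := e1 q D1 D2 c0 ((Pr.Ps ⟨z, y⟩).filter (fun p => p ∣ D1 * D2)) ∅ (fun _ _ => 1)
      (fun _ _ => 1) hAD (filter_subset _ _) (by simp) ?_ ?_
    · simpa [Pr.aa] using key
    · rw [prod_empty, mul_one, ← Nat.cast_prod]
      have a1 : (D1 : ℝ) ≤ y ^ z.K := hAD.2.1.2.2.1
      have a2 : (D2 : ℝ) ≤ y ^ z.K := hAD.2.1.2.2.2.1
      calc ((∏ p ∈ (Pr.Ps ⟨z, y⟩).filter (fun p => p ∣ D1 * D2), p : ℕ) : ℝ)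
          ≤ (D1 : ℝ) * D2 := by exact_mod_cast hD
        _ ≤ y ^ z.K * y ^ z.K := mul_le_mul a1 a2 (Nat.cast_nonneg _) (by positivity)
        _ = y ^ (2 * z.K) := by ring
        _ ≤ y ^ (10 * z.K') := pow_le_pow_right₀ hy hK
    · intro p hp
      refine ⟨fun _ _ _ => rfl, fun _ => ⟨zero_le_one, le_rfl⟩, fun hn => ?_⟩
      have a1 : ¬p ∣ D1 * D2 := fun h => hn (mem_filter.2 ⟨hp, h⟩)
      have a2 := ((e2 D1 D2 p hp).2 a1).1
      have a3 := prime_of_PP hp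
      have a4 : z.w < p := by exact_mod_cast lt_of_PP hp
      have a5 := (hL1 z.A p (Q0 z.A) (1, 0) (by omega) (isF_Q0 _) a3 (by omega) (fun h => by
        have := Int.natCast_dvd_ofNat.1 h.1
        exact a3.one_lt.ne' (Nat.dvd_one.1 this))).1
      have a6 : (rho z.A p : ℝ) ≤ 2 := by exact_mod_cast a5
      have a7 : (0 : ℝ) < p := by exact_mod_cast a3.pos
      have a8 : 2 * (rho z.A p : ℝ) / p ≤ 12 / p := by
        gcongr
        linarith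
      simp only [mul_one]
      exact le_trans (by linarith) a2

end Pool.Agent.P.MP_6f5b02_nt.Hy
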