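import Pool.Agent.P.MP_6f5b02_nt.Hy.IfG
import Pool.Agent.P.MP_8be758_nt.Pd.TATS

/-! Step ATS. -/

namespace Pool.Agent.P.MP_6f5b02_nt.Hy

open Pool.Agent.P.MP_8be758_nt Pool.Agent.P.MP_8be758_nt.Pd
open Finset Real Filter
open Pool.Agent.P.MP_8be758_nt.Par (det)

theorem ATS_at (ρ : Pr) (hA : 5 ≤ ρ.A) (q : ℕ × ℕ × ℕ) (D1 D2 : ℕ) (F : G4 → ℝ) :
    ∑ c0 ∈ S4.U (ρ.W ^ 2), ∑ g ∈ ρ.AT q D1 D2 c0, F g = ∑ g ∈ ρ.AP q D1 D2, F g := by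
  simp only [Pr.AT, sum_filter]
  rw [sum_comm]
  refine sum_congr rfl fun g hg => ATS_one (pow_pos (primorial_pos _) 2) ?_ _
  have h1 : g ∈ ρ.E := by
    classical
    unfold Pr.AP at hg
    exact (mem_filter.1 hg).1
  exact ((of_mem_GG hA (Q0_red _)) h1).1

theorem ATS_DS {ρ : Pr} {v : ℕ × ℕ} : v ∈ ρ.DS ↔ ρ.DA v.1 v.2 := by
  classical
  unfold Pr.DS
  rw [mem_filter]
  refine ⟨fun h => h.2, fun h => ⟨?_, h⟩⟩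
  obtain ⟨p1, p2⟩ := DA_pos h
  exact mem_product.2 ⟨mem_Icc.2 ⟨p1, Nat.le_floor h.2.2.1⟩, mem_Icc.2 ⟨p2, Nat.le_floor h.2.2.2.1⟩⟩

theorem ATS_ap (ρ : Pr) (q : ℕ × ℕ × ℕ) (F : ℕ × ℕ → G4 → ℝ) :
    ∑ D ∈ ρ.DS, ∑ g ∈ ρ.AP q D.1 D.2, F D g = ∑ g ∈ ρ.E,
      ind (ρ.Typ (ρ.fm g) ∧ Pr.QD q (ρ.fm g)) * F (ρ.fl (ρ.fm g).1, ρ.fl (ρ.fm g).2.2) g := by
  classical
  simp only [Pr.AP, sum_filter]
  rw [sum_comm]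
  refine sum_congr rfl fun g _ => ?_
  by_cases h : ρ.Typ (ρ.fm g) ∧ Pr.QD q (ρ.fm g)
  · rw [ind_pos h, one_mul, sum_eq_single_of_mem (ρ.fl (ρ.fm g).1, ρ.fl (ρ.fm g).2.2)]
    · exact if_pos ⟨h.2, rfl, rfl, h.1.2⟩
    · exact ATS_DS.2 h.1.1
    · intro D _ hne
      exact if_neg fun e => hne (Prod.ext e.2.1.symm e.2.2.1.symm)
  · rw [ind_neg h, zero_mul]
    refine sum_eq_zero fun D hD => if_neg fun e => h ⟨⟨?_, e.2.2.2⟩, e.1⟩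
    rw [e.2.1, e.2.2.1]
    exact ATS_DS.1 hD

theorem ATS_tu (ρ : Pr) (F : G4 × Sd → ℝ) :
    ∑ τ ∈ ρ.Tu, F τ = ∑ q ∈ ρ.I1 ×ˢ ρ.I3 ×ˢ ρ.I4, ∑ g ∈ ρ.E,
      ind (ρ.Typ (ρ.fm g) ∧ Pr.QD q (ρ.fm g)) *
        ∑ σ ∈ ρ.SD q (ρ.fl (ρ.fm g).1) (ρ.fl (ρ.fm g).2.2), ind (ρ.Val (ρ.cy (g, σ))) * F (g, σ) := by
  classical
  rw [← sum_product' (f := fun q g => ind (ρ.Typ (ρ.fm g) ∧ Pr.QD q (ρ.fm g)) *
        ∑ σ ∈ ρ.SD q (ρ.fl (ρ.fm g).1) (ρ.fl (ρ.fm g).2.2), ind (ρ.Val (ρ.cy (g, σ))) * F (g, σ)),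
    ← sum_fiberwise_of_maps_to (s := ρ.Tu) (t := (ρ.I1 ×ˢ ρ.I3 ×ˢ ρ.I4) ×ˢ ρ.E)
      (g := fun τ => ((τ.2.q1, τ.2.q3, τ.2.q4), τ.1))]
  · refine sum_congr rfl fun v hv => ?_
    obtain ⟨q, g⟩ := v
    obtain ⟨hq, hg⟩ := mem_product.1 hv
    have e : ind (ρ.Typ (ρ.fm g) ∧ Pr.QD q (ρ.fm g)) *
        ∑ σ ∈ ρ.SD q (ρ.fl (ρ.fm g).1) (ρ.fl (ρ.fm g).2.2), ind (ρ.Val (ρ.cy (g, σ))) * F (g, σ) =
        ∑ σ ∈ (ρ.SD q (ρ.fl (ρ.fm g).1) (ρ.fl (ρ.fm g).2.2)).filter (fun σ =>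
          (ρ.Typ (ρ.fm g) ∧ Pr.QD q (ρ.fm g)) ∧ ρ.Val (ρ.cy (g, σ))), F (g, σ) := by
      rw [mul_sum, sum_filter]
      refine sum_congr rfl fun σ _ => ?_
      rw [← mul_assoc, ← ind_and]
      split_ifs with h
      · rw [ind_pos h, one_mul]
      · rw [ind_neg h, zero_mul]
    simp only
    rw [e]
    refine sum_nbij' (fun τ => τ.2) (fun σ => (g, σ)) ?_ ?_ ?_ ?_ ?_
    · rintro ⟨g', σ⟩ hτ
      obtain ⟨h1, h2⟩ := mem_filter.1 hτ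
      obtain ⟨e1, e2⟩ := Prod.mk.inj h2
      simp only at e1 e2
      subst e1 e2
      obtain ⟨-, a2, -, a4, a5, a6⟩ := mem_Tu.1 h1
      exact mem_filter.2 ⟨(mem_SD (fl_pos _ _) (fl_pos _ _)).2 ⟨rfl, a5⟩, ⟨a2, a4⟩, a6⟩
    · intro σ hσ
      obtain ⟨h1, ⟨a2, a4⟩, a6⟩ := mem_filter.1 hσ
      obtain ⟨e1, a5⟩ := (mem_SD (fl_pos _ _) (fl_pos _ _)).1 h1
      subst e1
      refine mem_filter.2 ⟨mem_Tu.2 ⟨hg, a2, ?_, a4, a5, a6⟩, rfl⟩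
      simpa [Pr.QR] using hq
    · rintro ⟨g', σ⟩ hτ
      obtain ⟨-, e2⟩ := Prod.mk.inj (mem_filter.1 hτ).2
      simp only at e2
      subst e2
      rfl
    · intro σ _
      rfl
    · rintro ⟨g', σ⟩ hτ
      obtain ⟨-, e2⟩ := Prod.mk.inj (mem_filter.1 hτ).2
      simp only at e2
      subst e2
      rfl
  · intro τ hτ
    obtain ⟨h1, -, h3, -⟩ := mem_Tu.1 hτ
    exact mem_product.2 ⟨by simpa [Pr.QR] using h3, h1⟩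

theorem p_ATS :
    S_ATS := by
  refine ⟨1, fun A C1 => ⟨1, le_rfl, fun z _ _ hz => ?_⟩⟩
  filter_upwards [eventually_ge_atTop (1 : ℝ), eventually_ge_atTop (((z.W ^ 2) ^ 4 : ℕ) : ℝ)]
    with y hy1 hyW
  obtain ⟨-, h2, -, -, -, h6, h7, h8, h9, h10, h11, h12, -⟩ := hz
  set ρ : Pr := ⟨z, y⟩ with hρ
  have hA : 5 ≤ ρ.A := by
    show 5 ≤ z.A
    omega
  refine ⟨fun F => ?_, fun q F => ?_, fun q D1 D2 => ?_, ?_⟩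
  · rw [ATS_tu]
    refine sum_congr rfl fun q _ => ?_
    rw [← ATS_ap ρ q fun D g => ∑ σ ∈ ρ.SD q D.1 D.2, ind (ρ.Val (ρ.cy (g, σ))) * F (g, σ)]
    refine sum_congr rfl fun D _ => ?_
    rw [← ATS_at ρ hA]
    exact sum_congr rfl fun c0 _ => sum_comm
  · rw [← ATS_ap ρ q fun _ g => F g]
    exact sum_congr rfl fun D _ => ATS_at ρ hA q D.1 D.2 F
  · have := ATS_at ρ hA q D1 D2 fun _ => 1
    simpa using this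
  · have hy0 : (0 : ℝ) ≤ y := by linarith
    have a1 : (ρ.I1.card : ℝ) ≤ y ^ z.K' :=
      (ATS_PP _ (pow_nonneg hy0 _)).trans (pow_le_pow_right₀ hy1 h12)
    have a3 : (ρ.I3.card : ℝ) ≤ y ^ z.K' :=
      (ATS_PP _ (pow_nonneg hy0 _)).trans (pow_le_pow_right₀ hy1 (show z.k4 ≤ z.K' by omega))
    have a4 : (ρ.I4.card : ℝ) ≤ y ^ z.K' :=
      (ATS_PP _ (pow_nonneg hy0 _)).trans (pow_le_pow_right₀ hy1 (show z.k2 ≤ z.K' by omega))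
    have a5 : (ρ.DS.card : ℝ) ≤ y ^ z.K' * y ^ z.K' := by
      have b1 : ρ.DS.card ≤ ⌊y ^ z.K⌋₊ * ⌊y ^ z.K⌋₊ := by
        classical
        unfold Pr.DS
        refine (card_filter_le _ _).trans (le_of_eq ?_)
        rw [card_product, Nat.card_Icc, Nat.add_sub_cancel]
      have b2 : ((⌊y ^ z.K⌋₊ : ℕ) : ℝ) ≤ y ^ z.K' :=
        (Nat.floor_le (pow_nonneg hy0 _)).trans (pow_le_pow_right₀ hy1 (by omega))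
      calc (ρ.DS.card : ℝ) ≤ (⌊y ^ z.K⌋₊ : ℕ) * (⌊y ^ z.K⌋₊ : ℕ) := by exact_mod_cast b1
        _ ≤ _ := mul_le_mul b2 b2 (Nat.cast_nonneg _) (pow_nonneg hy0 _)
    have a6 : ((S4.U (ρ.W ^ 2)).card : ℝ) ≤ y ^ z.K' :=
      ((Nat.cast_le.2 (ATS_U _)).trans hyW).trans (le_self_pow₀ hy1 (by omega))
    rw [card_product, card_product]
    push_cast
    calc (ρ.I1.card : ℝ) * (ρ.I3.card * ρ.I4.card) * ρ.DS.card * (S4.U (ρ.W ^ 2)).card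
        ≤ y ^ z.K' * (y ^ z.K' * y ^ z.K') * (y ^ z.K' * y ^ z.K') * y ^ z.K' := by gcongr
      _ = y ^ (6 * z.K') := by ring

end Pool.Agent.P.MP_6f5b02_nt.Hy
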