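import Pool.Agent.P.MP_6f5b02_nt.Hy.IfG

/-! Step BAD. -/

namespace Pool.Agent.P.MP_6f5b02_nt.Hy

open Pool.Agent.P.MP_8be758_nt Pool.Agent.P.MP_8be758_nt.Pd
open Finset Real Filter
open Pool.Agent.P.MP_8be758_nt.Par (det)

lemma BAD_pt (ρ : Pr) (hy : 1 < ρ.y) (hK : 0 < ρ.K') (x : VT) :
    ind (¬ρ.Gd x) * ρ.cw (1 / 6) x ≤
      ∑ p ∈ ρ.Ps, log p / (ρ.K' * log ρ.y) * (ρ.cw (1 / 6) x * ind ((p : ℤ) ∣ x.Nt * x.Ns)) +
        exp (19 / 400 * ρ.La) * ρ.cw (3 / 20) x := by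
  have hL : 0 < ρ.K' * log ρ.y := mul_pos (by exact_mod_cast hK) (log_pos hy)
  have c0 : ∀ θ : ℝ, 0 ≤ θ → 0 ≤ ρ.cw θ x := fun θ h => by unfold Pr.cw; positivity
  have c1 := c0 (1 / 6) (by norm_num)
  have c2 := mul_nonneg (exp_pos (19 / 400 * ρ.La)).le (c0 (3 / 20) (by norm_num))
  have e : ∑ p ∈ ρ.Ps, log p / (ρ.K' * log ρ.y) * (ρ.cw (1 / 6) x * ind ((p : ℤ) ∣ x.Nt * x.Ns)) =
      (∑ p ∈ ρ.Ps, log p * ind ((p : ℤ) ∣ x.Nt * x.Ns)) / (ρ.K' * log ρ.y) * ρ.cw (1 / 6) x := by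
    rw [sum_div, sum_mul]
    exact sum_congr rfl fun _ _ => by ring
  have s0 : ∀ p ∈ ρ.Ps, 0 ≤ log p * ind ((p : ℤ) ∣ x.Nt * x.Ns) := fun p _ =>
    mul_nonneg (log_natCast_nonneg p) (ind_nonneg _)
  have key : ∀ m : ℤ, m ∣ x.Nt * x.Ns → ρ.y ^ ρ.K' < ρ.fl m →
      1 ≤ (∑ p ∈ ρ.Ps, log p * ind ((p : ℤ) ∣ x.Nt * x.Ns)) / (ρ.K' * log ρ.y) := by
    intro m hm h
    rw [one_le_div hL, ← log_pow]
    refine (log_le_log (by positivity) h.le).trans ?_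
    rw [Pr.fl, Nat.cast_prod, log_prod fun p hp => by
      exact_mod_cast (prime_of_PP (mem_pf.1 hp).1).ne_zero]
    refine le_trans (sum_le_sum fun p hp => ?_)
      (sum_le_sum_of_subset_of_nonneg (filter_subset _ _) fun p hp _ => s0 p hp)
    rw [ind_pos ((mem_filter.1 hp).2.trans hm), mul_one]
  have s1 := mul_nonneg (div_nonneg (sum_nonneg s0) hL.le) c1
  rw [e]
  by_cases h : ρ.Gd x
  · rw [ind_neg (not_not.2 h), zero_mul]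
    exact add_nonneg s1 c2
  rw [ind_pos h, one_mul]
  simp only [Pr.Gd, not_and_or, not_le] at h
  rcases h with h | h | h
  · nlinarith [key _ (dvd_mul_right _ _) h]
  · nlinarith [key _ (dvd_mul_left _ _) h]
  refine le_add_of_nonneg_of_le s1 ?_
  have h1 : (10 / 9 : ℝ) ≤ exp (19 / 180) :=
    le_trans (by norm_num) (quadratic_le_exp_of_nonneg (x := 19 / 180) (by norm_num))
  have h2 : (10 / 9 : ℝ) ^ ρ.om (x.af * x.Nt * x.Ns) ≤ exp (19 / 400 * ρ.La) := by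
    refine (pow_le_pow_left₀ (by norm_num) h1 _).trans ?_
    rw [← exp_nat_mul]
    exact exp_le_exp.2 (by linarith)
  unfold Pr.cw
  rw [show (1 / 6 : ℝ) = 10 / 9 * (3 / 20) by norm_num, mul_pow, mul_left_comm]
  gcongr

lemma BAD_at (ρ : Pr) (hy : 1 < ρ.y) (hK : 0 < ρ.K') {C M : ℝ} (hC : 0 ≤ C) (S : Finset Sd)
    (T : Finset G4) (h : ∀ (θ : ℝ) (p0 : ℕ), 0 ≤ θ → θ ≤ 2 / 3 → p0 = 1 ∨ p0 ∈ ρ.Ps →
      ∑ σ ∈ S, ∑ g ∈ T, ρ.cv θ σ g * ind ((p0 : ℤ) ∣ (ρ.cy (g, σ)).Nt * (ρ.cy (g, σ)).Ns) ≤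
        C * 2 ^ ρ.U * T.card * exp ((3 * θ - 3) * ρ.La) / p0 + ρ.Er 24)
    (hM : ∑ p ∈ ρ.Ps, log p / p ≤ M * log ρ.y) (h1 : exp ρ.La ≤ ρ.y) (h2 : 400 * ρ.K' ≤ ρ.La) :
    ∑ σ ∈ S, ∑ g ∈ T, ind (ρ.Val (ρ.cy (g, σ))) *
      (ind (¬ρ.Gd (ρ.cy (g, σ))) * ρ.cw (1 / 6) (ρ.cy (g, σ))) ≤
    C * (M + 1) * 2 ^ ρ.U / ρ.K' * exp (-(5 / 2) * ρ.La) * T.card + 3 * ρ.y * ρ.Er 24 := by
  have K1 : (1 : ℝ) ≤ ρ.K' := by exact_mod_cast hK
  have l0 := log_pos hy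
  have hL : 0 < ρ.K' * log ρ.y := by positivity
  have y0 : 0 < ρ.y := by linarith
  have E0 : 0 ≤ ρ.Er 24 := by unfold Pr.Er Pr.X; positivity
  set B := C * 2 ^ ρ.U * T.card * exp (-(5 / 2) * ρ.La) with hB
  have B0 : 0 ≤ B := by positivity
  calc _ ≤ ∑ σ ∈ S, ∑ g ∈ T, (∑ p ∈ ρ.Ps, log p / (ρ.K' * log ρ.y) *
          (ρ.cv (1 / 6) σ g * ind ((p : ℤ) ∣ (ρ.cy (g, σ)).Nt * (ρ.cy (g, σ)).Ns)) +
        exp (19 / 400 * ρ.La) * (ρ.cv (3 / 20) σ g *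
          ind (((1 : ℕ) : ℤ) ∣ (ρ.cy (g, σ)).Nt * (ρ.cy (g, σ)).Ns))) := by
        refine sum_le_sum fun σ _ => sum_le_sum fun g _ => ?_
        refine (mul_le_mul_of_nonneg_left (BAD_pt ρ hy hK _) (ind_nonneg _)).trans_eq ?_
        rw [ind_pos (P := ((1 : ℕ) : ℤ) ∣ _) (by simp), mul_add, mul_sum]
        unfold Pr.cv
        congr 1
        · exact sum_congr rfl fun _ _ => by ring
        · ring
    _ = ∑ p ∈ ρ.Ps, log p / (ρ.K' * log ρ.y) * ∑ σ ∈ S, ∑ g ∈ T,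
          ρ.cv (1 / 6) σ g * ind ((p : ℤ) ∣ (ρ.cy (g, σ)).Nt * (ρ.cy (g, σ)).Ns) +
        exp (19 / 400 * ρ.La) * ∑ σ ∈ S, ∑ g ∈ T, ρ.cv (3 / 20) σ g *
          ind (((1 : ℕ) : ℤ) ∣ (ρ.cy (g, σ)).Nt * (ρ.cy (g, σ)).Ns) := by
        simp only [sum_add_distrib, mul_sum]
        congr 1
        exact (sum_congr rfl fun _ _ => sum_comm).trans sum_comm
    _ ≤ ∑ p ∈ ρ.Ps, (B / (ρ.K' * log ρ.y) * (log p / p) + ρ.Er 24) +
        (B / ρ.K' + ρ.y * ρ.Er 24) := by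
        refine add_le_add (sum_le_sum fun p hp => ?_) ?_
        · have p0 := log_natCast_nonneg p
          have p1 : log p / (ρ.K' * log ρ.y) ≤ 1 := by
            rw [div_le_one hL]
            have := log_le_log (by exact_mod_cast (prime_of_PP hp).pos) ((mem_PP y0.le).1 hp).2.2
            nlinarith
          refine (mul_le_mul_of_nonneg_left (h _ p (by norm_num) (by norm_num) (.inr hp))
            (by positivity)).trans ?_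
          rw [mul_add, show (3 * (1 / 6) - 3 : ℝ) = -(5 / 2) by norm_num]
          exact add_le_add (le_of_eq (by ring)) (mul_le_of_le_one_left E0 p1)
        · refine (mul_le_mul_of_nonneg_left (h _ 1 (by norm_num) (by norm_num) (.inl rfl))
            (exp_pos _).le).trans ?_
          rw [mul_add]
          refine add_le_add ?_ (mul_le_mul_of_nonneg_right
            ((exp_le_exp.2 (by linarith)).trans h1) E0)
          have e1 : (ρ.K' : ℝ) ≤ exp (ρ.La / 400) := by linarith [add_one_le_exp (ρ.La / 400)]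
          rw [le_div_iff₀ (by linarith)]
          calc _ ≤ exp (19 / 400 * ρ.La) * (C * 2 ^ ρ.U * T.card *
                exp ((3 * (3 / 20) - 3) * ρ.La) / (1 : ℕ)) * exp (ρ.La / 400) := by gcongr
            _ = C * 2 ^ ρ.U * T.card * (exp (19 / 400 * ρ.La) *
                exp ((3 * (3 / 20) - 3) * ρ.La) * exp (ρ.La / 400)) := by push_cast; ring
            _ = B := by rw [← exp_add, ← exp_add, hB]; congr 2; ring
    _ ≤ _ := by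
        have n1 : (ρ.Ps.card : ℝ) ≤ 2 * ρ.y := by
          have : ρ.Ps.card ≤ ⌊ρ.y⌋₊ + 1 := (card_filter_le _ _).trans_eq (card_range _)
          have : (ρ.Ps.card : ℝ) ≤ ⌊ρ.y⌋₊ + 1 := by exact_mod_cast this
          linarith [Nat.floor_le y0.le]
        have n2 := mul_le_mul_of_nonneg_left hM (div_nonneg B0 hL.le)
        have n3 := mul_le_mul_of_nonneg_right n1 E0
        rw [sum_add_distrib, ← mul_sum, sum_const, nsmul_eq_mul]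
        have n4 : B / (ρ.K' * log ρ.y) * (M * log ρ.y) + B / ρ.K' =
            C * (M + 1) * 2 ^ ρ.U / ρ.K' * exp (-(5 / 2) * ρ.La) * T.card := by
          rw [hB]
          field_simp
        linarith

theorem p_BAD (hFS : S_FS) (hATS : S_ATS) (hQCNT : S_QCNT) (hLAM : S_LAM) (hML : S_ML) :
    S_BAD := by
  obtain ⟨c1, h1⟩ := hFS
  obtain ⟨c2, h2⟩ := hATS
  obtain ⟨c3, h3⟩ := hQCNT
  obtain ⟨c4, h4⟩ := hLAM
  obtain ⟨M, M0, hM⟩ := hML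
  refine ⟨c1 + c2 + c3 + c4 + 1, fun A C1 => ?_⟩
  obtain ⟨a1, b1, h1⟩ := h1 A C1
  obtain ⟨a2, -, h2⟩ := h2 A C1
  obtain ⟨a3, b3, h3⟩ := h3 A C1
  obtain ⟨a4, b4, h4⟩ := h4 A C1
  refine ⟨a1 * (M + 1) * a3 ^ 2 + 1, le_add_of_nonneg_left (by positivity), fun z e1 e2 hz => ?_⟩
  have k1 : 0 < z.k6 ∧ 0 < z.K' ∧ 1 < z.w := by
    obtain ⟨-, r1, -, r2, -, -, r3, r4, r5, r6, r7, r8, -⟩ := hz.mono (c := 1) (by omega)
    omega
  filter_upwards [h1 z e1 e2 (hz.mono (by omega)), h2 z e1 e2 (hz.mono (by omega)),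
    h3 z e1 e2 (hz.mono (by omega)), h4 z e1 e2 (hz.mono (by omega)), eventually_ge_atTop 2,
    eventually_ge_atTop (3 * z.K' : ℝ),
    tendsto_log_atTop.eventually_ge_atTop (a4 * log z.w * exp (400 * z.K')),
    (isLittleO_log_id_atTop.const_mul_left a4).bound one_pos] with y h1 h2 h3 h4 y2 y3 y4 y5
  obtain ⟨ρ, rfl, rfl⟩ : ∃ ρ : Pr, ρ.toSt = z ∧ ρ.y = y := ⟨⟨z, y⟩, rfl, rfl⟩
  obtain ⟨-, l2, l3, -⟩ := h4
  rw [show (⟨ρ.toSt, ρ.y⟩ : Pr) = ρ from rfl] at h1 h2 h3 l2 l3 ⊢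
  obtain ⟨t1, t2, -, t4⟩ := h2
  obtain ⟨-, q2, q3⟩ := h3
  have y0 : 0 < ρ.y := by linarith
  have y1 : 1 ≤ ρ.y := by linarith
  have K0 : (0 : ℝ) < ρ.K' := by exact_mod_cast k1.2.1
  have X0 : 0 ≤ ρ.X := by unfold Pr.X; positivity
  have E0 : 0 ≤ ρ.Er 24 := by unfold Pr.Er; positivity
  rw [one_mul, id, norm_of_nonneg y0.le] at y5
  have u1 : exp ρ.La ≤ ρ.y := l2.trans ((le_abs_self _).trans y5)
  have u2 : 400 * ρ.K' ≤ ρ.La := exp_le_exp.1 (le_of_mul_le_mul_left (y4.trans l3)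
    (mul_pos (by linarith) (log_pos (by exact_mod_cast k1.2.2))))
  set B := a1 * (M + 1) * 2 ^ ρ.U / ρ.K' * exp (-(5 / 2) * ρ.La) with hB
  have B0 : 0 ≤ B := by positivity
  have n1 : ∑ q ∈ ρ.I1 ×ˢ ρ.I3 ×ˢ ρ.I4, ∑ D ∈ ρ.DS, ∑ c0 ∈ S4.U (ρ.W ^ 2),
      ((ρ.AT q D.1 D.2 c0).card : ℝ) ≤ a3 ^ 2 * (ρ.k6 : ℝ) ^ 3 * ρ.X := by
    calc _ ≤ ∑ q ∈ ρ.I1 ×ˢ ρ.I3 ×ˢ ρ.I4, a3 * ρ.X * (1 / (q.1 * q.2.1 * q.2.2)) := by
          refine sum_le_sum fun q hq => ?_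
          have := t2 q fun _ => 1
          simp only [sum_const, nsmul_eq_mul, mul_one] at this
          rw [this, mul_one_div]
          exact (sum_le_sum fun g _ => ind_mono And.right).trans
            (q3 q (by simpa [Pr.QR] using hq))
      _ ≤ a3 * ρ.X * (a3 * (ρ.k6 : ℝ) ^ 3) := by
          rw [← mul_sum]
          exact mul_le_mul_of_nonneg_left q2 (by positivity)
      _ = _ := by ring
  have n2 : ρ.y ^ (6 * ρ.K') * (3 * ρ.y * ρ.Er 24) ≤ 1 / ρ.K' * ρ.X * exp (-(5 / 2) * ρ.La) := by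
    have f1 : exp (5 / 2 * ρ.La) ≤ ρ.y ^ 3 := by
      refine le_trans ?_ (pow_le_pow_left₀ (exp_pos _).le u1 3)
      rw [← exp_nat_mul]
      exact exp_le_exp.2 (by push_cast; linarith)
    have f2 : ρ.y ^ (6 * ρ.K') * (3 * ρ.K') * ρ.y * exp (5 / 2 * ρ.La) ≤ ρ.y ^ (24 * ρ.K') := by
      calc _ ≤ ρ.y ^ (6 * ρ.K') * ρ.y * ρ.y * ρ.y ^ 3 := by gcongr
        _ = ρ.y ^ (6 * ρ.K' + 5) := by ring
        _ ≤ _ := pow_le_pow_right₀ y1 (by omega)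
    rw [neg_mul, exp_neg, Pr.Er]
    calc _ = ρ.y ^ (6 * ρ.K') * (3 * ρ.K') * ρ.y * exp (5 / 2 * ρ.La) / ρ.y ^ (24 * ρ.K') *
          (1 / ρ.K' * ρ.X * (exp (5 / 2 * ρ.La))⁻¹) := by field_simp
      _ ≤ _ := mul_le_of_le_one_left (by positivity) ((div_le_one (by positivity)).2 f2)
  have n3 : (1 : ℝ) ≤ 2 ^ ρ.U * (ρ.k6 : ℝ) ^ 3 :=
    one_le_mul_of_one_le_of_one_le (one_le_pow₀ one_le_two)
      (one_le_pow₀ (by exact_mod_cast k1.1))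
  rw [t1]
  calc _ ≤ ∑ q ∈ ρ.I1 ×ˢ ρ.I3 ×ˢ ρ.I4, ∑ D ∈ ρ.DS, ∑ c0 ∈ S4.U (ρ.W ^ 2),
        (B * (ρ.AT q D.1 D.2 c0).card + 3 * ρ.y * ρ.Er 24) := by
        refine sum_le_sum fun q hq => sum_le_sum fun D hD => sum_le_sum fun c0 hc => ?_
        exact BAD_at ρ (by linarith) k1.2.1 (by linarith) _ _ (fun θ p0 => h1 q _ _ c0 θ p0
          ⟨by simpa [Pr.QR] using hq, by classical exact (mem_filter.1 hD).2, hc⟩)
          (hM _ _ y2) u1 u2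
    _ = B * ∑ q ∈ ρ.I1 ×ˢ ρ.I3 ×ˢ ρ.I4, ∑ D ∈ ρ.DS, ∑ c0 ∈ S4.U (ρ.W ^ 2),
        ((ρ.AT q D.1 D.2 c0).card : ℝ) + ((ρ.I1 ×ˢ ρ.I3 ×ˢ ρ.I4).card : ℝ) * ρ.DS.card *
          (S4.U (ρ.W ^ 2)).card * (3 * ρ.y * ρ.Er 24) := by
        simp only [sum_add_distrib, mul_sum, sum_const, nsmul_eq_mul]
        ring
    _ ≤ B * (a3 ^ 2 * (ρ.k6 : ℝ) ^ 3 * ρ.X) +
        2 ^ ρ.U * (ρ.k6 : ℝ) ^ 3 * (1 / ρ.K' * ρ.X * exp (-(5 / 2) * ρ.La)) :=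
        add_le_add (mul_le_mul_of_nonneg_left n1 B0)
          (((mul_le_mul_of_nonneg_right t4 (by positivity)).trans n2).trans
            (le_mul_of_one_le_left (by positivity) n3))
    _ = _ := by rw [hB]; ring

end Pool.Agent.P.MP_6f5b02_nt.Hy
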