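import Pool.Agent.P.MP_6f5b02_nt.Hy.IfN
import Pool.Agent.P.MP_8be758_nt.Pd.TBETA1

/-! Step BETA1. -/

namespace Pool.Agent.P.MP_6f5b02_nt.Hy

open Pool.Agent.P.MP_8be758_nt Pool.Agent.P.MP_8be758_nt.Pd
open Finset Real Filter
open Pool.Agent.P.MP_8be758_nt.Par (det)
open scoped Classical

theorem p_BETA1 (hWIN : S_WIN) (hL1 : S_L1) :
    S_BETA1 := by
  obtain ⟨C, hC, hW⟩ := hWIN
  have l4 : 0 < log 4 := log_pos (by norm_num)
  refine ⟨2 * (C * log 4), by positivity, fun A w z1 z hA hw hz => ?_⟩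
  set P := PP w z
  set x : ℕ → ℝ := fun p => (rho A p : ℝ) / (2 * p) with hxd
  have hx : ∀ p, 0 ≤ x p := fun p => by positivity
  have hP : ∀ p ∈ P, p.Prime ∧ x p ≤ 1 / p := fun p hp => by
    have h1 := prime_of_PP hp
    have h2 : 4 * A < p := by exact_mod_cast hw.trans_lt (lt_of_PP hp)
    have h3 : (rho A p : ℝ) ≤ 2 := by
      exact_mod_cast (hL1 A p (Q0 A) (1, 0) hA (isF_Q0 A) h1 h2 fun h =>
        h1.one_lt.ne' (by exact_mod_cast Int.eq_one_of_dvd_one (by positivity) h.1)).1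
    have h4 : (0 : ℝ) < p := by exact_mod_cast h1.pos
    refine ⟨h1, ?_⟩
    simp only [x]
    rw [div_le_div_iff₀ (by positivity) h4]
    nlinarith
  set B := C * log 4 / log z1
  have hB : 0 ≤ B := div_nonneg (by positivity) (log_nonneg (by linarith))
  set T := ∑ F ∈ P.powerset, ∏ p ∈ F, x p
  have T0 : 0 ≤ T := sum_nonneg fun F _ => prod_nonneg fun p _ => hx p
  have hT : T * T ≤ exp (Lm A w z) := by
    have e : Lm A w z = ∑ p ∈ P, x p + ∑ p ∈ P, x p := by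
      rw [← sum_add_distrib]
      exact sum_congr rfl fun p _ => by simp only [x]; ring
    rw [e, exp_add]
    exact mul_le_mul (BETA1_pow P x hx) (BETA1_pow P x hx) T0 (exp_pos _).le
  have key : ∑ F2 ∈ P.powerset, ∑ F1 ∈ P.powerset, (∑ q ∈ F1, ind (∏ p ∈ F1, p < 2 * ∏ p ∈ F2, p ∧
      ∏ p ∈ F2, p < 2 * ∏ p ∈ F1, p ∧ z1 < (q : ℝ))) * ((∏ p ∈ F1, x p) * ∏ p ∈ F2, x p) ≤
      B * (T * T) := by
    rw [← mul_assoc, mul_sum]
    refine sum_le_sum fun F2 _ => ?_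
    simp only [← mul_assoc]
    rw [← sum_mul]
    exact mul_le_mul_of_nonneg_right (BETA1_half P x hx (fun p hp => (hP p hp).1) _
      fun n hn => BETA1_win hC hW hz P x hP hn _) (prod_nonneg fun p _ => hx p)
  calc _ ≤ ∑ F1 ∈ P.powerset, ∑ F2 ∈ P.powerset, ((∑ q ∈ F1, ind (∏ p ∈ F1, p < 2 * ∏ p ∈ F2, p ∧
      ∏ p ∈ F2, p < 2 * ∏ p ∈ F1, p ∧ z1 < (q : ℝ))) * ((∏ p ∈ F1, x p) * ∏ p ∈ F2, x p) +
      (∑ q ∈ F2, ind (∏ p ∈ F2, p < 2 * ∏ p ∈ F1, p ∧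
      ∏ p ∈ F1, p < 2 * ∏ p ∈ F2, p ∧ z1 < (q : ℝ))) * ((∏ p ∈ F2, x p) * ∏ p ∈ F1, x p)) := by
        refine sum_le_sum fun F1 _ => sum_le_sum fun F2 _ => ?_
        rw [mul_comm (∏ p ∈ F2, x p), ← add_mul]
        exact mul_le_mul_of_nonneg_right (BETA1_ind _ _ _ _ _)
          (mul_nonneg (prod_nonneg fun p _ => hx p) (prod_nonneg fun p _ => hx p))
    _ ≤ B * (T * T) + B * (T * T) := by
        simp only [sum_add_distrib]
        exact add_le_add (sum_comm.trans_le key) key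
    _ ≤ B * exp (Lm A w z) + B * exp (Lm A w z) :=
        add_le_add (mul_le_mul_of_nonneg_left hT hB) (mul_le_mul_of_nonneg_left hT hB)
    _ = _ := by simp only [B]; ring

end Pool.Agent.P.MP_6f5b02_nt.Hy
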