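import Pool.Agent.P.MP_6f5b02_nt.Hy.IfM

/-! Step CHN. -/

namespace Pool.Agent.P.MP_6f5b02_nt.Hy

open Pool.Agent.P.MP_8be758_nt Pool.Agent.P.MP_8be758_nt.Pd
open Finset Real Filter
open Pool.Agent.P.MP_8be758_nt.Par (cj det)
open Pool.Agent.P.MP_6f5b02_nt.Hy.Par (nq mul eu un red)
open Pool.Agent.P.MP_6f5b02_nt.Hy.Mr

theorem p_CHN :
    S_CHN := by
  intro a b m c ha hb hm
  have hw : ∀ a x : ℝ, HasDerivAt (fun y : ℝ => a + m * y) m x := fun a x => by
    simpa using ((hasDerivAt_id x).const_mul m).const_add a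
  refine ⟨fun j x => Nat.casesOn j (c * (log (a + m * x) - log (b + m * x)))
    fun i => c * m ^ (i + 1) * (-1) ^ i * i.factorial *
      ((a + m * x)⁻¹ ^ (i + 1) - (b + m * x)⁻¹ ^ (i + 1)),
    fun j x hx => ?_, fun _ => rfl, fun _ _ => rfl⟩
  have h1 : a + m * x ≠ 0 := by positivity
  have h2 : b + m * x ≠ 0 := by positivity
  rcases j with _ | i
  · refine ((((hw a x).log h1).sub ((hw b x).log h2)).const_mul c).congr_deriv ?_
    simp only [zero_add, pow_one, pow_zero, Nat.factorial_zero, Nat.cast_one, div_eq_mul_inv]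
    ring
  · refine ((((((hw a x).inv h1).fun_pow (i + 1))).sub (((hw b x).inv h2).fun_pow (i + 1))).const_mul
      (c * m ^ (i + 1) * (-1) ^ i * i.factorial)).congr_deriv ?_
    simp only [Pi.inv_apply, Nat.add_sub_cancel, div_eq_mul_inv, ← inv_pow, Nat.factorial_succ]
    push_cast
    ring

end Pool.Agent.P.MP_6f5b02_nt.Hy
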