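import Pool.Agent.P.MP_6f5b02_nt.Hy.IfH
import Pool.Agent.P.MP_8be758_nt.Pd.TCON1

/-! Step CON1. -/

namespace Pool.Agent.P.MP_6f5b02_nt.Hy

open Pool.Agent.P.MP_8be758_nt Pool.Agent.P.MP_8be758_nt.Pd
open Finset Real Filter
open Pool.Agent.P.MP_8be758_nt.Par (det)

theorem p_CON1 :
    S_CON1 := by
  intro A p ψ u hA hψ hp hAp hu
  haveI := Fact.mk hp
  have hp0 : (0 : ℝ) < p := by exact_mod_cast hp.pos
  have h2 : (2 : ZMod p) ≠ 0 := fun h => by
    have : ((2 : ℕ) : ZMod p) = 0 := by exact_mod_cast h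
    have := Nat.le_of_dvd two_pos ((ZMod.natCast_eq_zero_iff _ _).1 this)
    omega
  have hD : 4 * (ψ.1 : ZMod p) * ψ.2.2 - (ψ.2.1 : ZMod p) ^ 2 ≠ 0 := fun h => by
    have e2 : ((17 : ℕ) : ZMod p) = 0 := by
      have := congrArg (Int.cast : ℤ → ZMod p) hψ.1
      push_cast at this ⊢
      linear_combination -this - h
    have := Nat.le_of_dvd (by omega) ((ZMod.natCast_eq_zero_iff _ _).1 e2)
    omega
  have ha : (ψ.1 : ZMod p) * (u.1 : ZMod p) ^ 2 + ψ.2.1 * u.1 * u.2 + ψ.2.2 * (u.2 : ZMod p) ^ 2 ≠ 0 :=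
    fun h => hu ((ZMod.intCast_zmod_eq_zero_iff_dvd _ _).1 (by
      simp only [ev]; push_cast; exact h))
  have H := CON1_conic _ _ _ _ _ hD h2 ha
  rw [ZMod.card] at H
  have hle : (univ.filter fun v : ZMod p × ZMod p =>
      (ψ.1 : ZMod p) * v.1 ^ 2 + ψ.2.1 * v.1 * v.2 + ψ.2.2 * v.2 ^ 2 =
      ψ.1 * (u.1 : ZMod p) ^ 2 + ψ.2.1 * u.1 * u.2 + ψ.2.2 * (u.2 : ZMod p) ^ 2).card ≤
      ((bx p ×ˢ bx p).filter fun v => (p : ℤ) ∣ ev ψ u - ev ψ v).card := by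
    refine card_le_card_of_injOn (fun v => ((v.1.val : ℤ), (v.2.val : ℤ))) (fun v hv => ?_)
      fun v _ w _ e => ?_
    · have h := (mem_filter.1 (mem_coe.1 hv)).2
      refine mem_coe.2 (mem_filter.2 ⟨?_, (ZMod.intCast_zmod_eq_zero_iff_dvd _ _).1 ?_⟩)
      · simp only [bx, mem_product, mem_Ico]
        exact ⟨⟨Nat.cast_nonneg _, by exact_mod_cast ZMod.val_lt _⟩,
          Nat.cast_nonneg _, by exact_mod_cast ZMod.val_lt _⟩
      · simp only [ev]
        push_cast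
        simp only [ZMod.natCast_val, ZMod.cast_id', id_eq]
        linear_combination -h
    · obtain ⟨e1, e2⟩ := Prod.mk.inj e
      exact Prod.ext (ZMod.val_injective p (by exact_mod_cast e1))
        (ZMod.val_injective p (by exact_mod_cast e2))
  have hU : ((S2.U p).card : ℝ) = (p : ℝ) ^ 2 := by
    simp [S2, bx, sq]
  have hsum : ∑ v ∈ S2.U p, ind ((p : ℤ) ∣ ev ψ u - ev ψ v) =
      (((bx p ×ˢ bx p).filter fun v => (p : ℤ) ∣ ev ψ u - ev ψ v).card : ℝ) := by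
    rw [card_filter]
    push_cast
    refine sum_congr rfl fun v _ => ?_
    by_cases h : (p : ℤ) ∣ ev ψ u - ev ψ v
    · rw [ind_pos h, if_pos h]
    · rw [ind_neg h, if_neg h]
  rw [Sys.av, hU, hsum]
  refine div_le_div_of_nonneg_right ?_ (by positivity)
  have : (p : ℝ) ≤ (((bx p ×ˢ bx p).filter fun v => (p : ℤ) ∣ ev ψ u - ev ψ v).card : ℝ) + 1 := by
    exact_mod_cast H.trans (Nat.add_le_add_right hle 1)
  linarith

end Pool.Agent.P.MP_6f5b02_nt.Hy
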