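import Pool.Agent.P.MP_6f5b02_nt.Hy.IfH
import Pool.Agent.P.MP_8be758_nt.Pd.TCON3

/-! Step CON3. -/

namespace Pool.Agent.P.MP_6f5b02_nt.Hy

open Pool.Agent.P.MP_8be758_nt Pool.Agent.P.MP_8be758_nt.Pd
open Finset Real Filter
open Pool.Agent.P.MP_8be758_nt.Par (det)

theorem CON3_cnt (A p : ℕ) [Fact p.Prime] (a b c : ZMod p) (h2 : (2 : ZMod p) ≠ 0)
    (hD : ((17 : ZMod p)) ≠ 0) (hd : b ^ 2 - 4 * a * c = 17) :
    (univ.filter fun v : ZMod p × ZMod p =>
      a * v.1 ^ 2 + b * v.1 * v.2 + c * v.2 ^ 2 = 0).card ≤ rho A p * p + 1 := by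
  have h4 : (4 : ZMod p) ≠ 0 := by
    rw [show (4 : ZMod p) = 2 * 2 by norm_num]
    exact mul_ne_zero h2 h2
  have hr : ∀ n : ℕ, (p : ℤ) ∣ (n : ℤ) ^ 2 + n - 4 ↔ (2 * (n : ZMod p) + 1) ^ 2 = 17 := fun n => by
    rw [← ZMod.intCast_zmod_eq_zero_iff_dvd]
    push_cast
    exact ⟨fun h => by linear_combination 4 * h,
      fun h => mul_left_cancel₀ h4 (by linear_combination h)⟩
  refine (card_le_card (t := insert 0 (((range p).filter fun n : ℕ =>
    (p : ℤ) ∣ (n : ℤ) ^ 2 + n - 4).biUnion fun n => univ.filter fun v : ZMod p × ZMod p => (b + (2 * n + 1)) * v.1 + 2 * c * v.2 = 0 ∧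
      2 * a * v.1 + (b - (2 * n + 1)) * v.2 = 0)) fun v hv => ?_).trans
    ((card_insert_le _ _).trans (Nat.succ_le_succ (card_biUnion_le_card_mul _ _ _ fun n hn => ?_)))
  · have hq := (mem_filter.1 hv).2
    rcases eq_or_ne v 0 with e | e
    · exact mem_insert.2 (.inl e)
    obtain ⟨l, l1, l2⟩ : ∃ l, (b + l) * v.1 + 2 * c * v.2 = 0 ∧ 2 * a * v.1 + (b - l) * v.2 = 0 := by
      by_cases hx : v.1 = 0
      · have hy : v.2 ≠ 0 := fun hy => e (Prod.ext hx hy)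
        refine ⟨b, mul_left_cancel₀ hy ?_, by simp [hx]⟩
        rw [hx] at hq ⊢
        linear_combination 2 * hq
      · refine ⟨-b - 2 * c * v.2 / v.1, by field_simp; ring, ?_⟩
        field_simp
        linear_combination 2 * hq
    have l3 : l ^ 2 = 17 := by
      by_cases hx : v.1 = 0
      · have hy : v.2 ≠ 0 := fun hy => e (Prod.ext hx hy)
        refine mul_left_cancel₀ hy ?_
        linear_combination 2 * a * l1 - (b + l) * l2 + v.2 * hd
      · refine mul_left_cancel₀ hx ?_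
        linear_combination 2 * c * l2 - (b - l) * l1 + v.1 * hd
    have l4 : 2 * ((((l - 1) / 2).val : ℕ) : ZMod p) + 1 = l := by
      rw [ZMod.natCast_zmod_val]
      field_simp
      ring
    refine mem_insert_of_mem (mem_biUnion.2 ⟨((l - 1) / 2).val, mem_filter.2
      ⟨mem_range.2 (ZMod.val_lt _), (hr _).2 (by rw [l4, l3])⟩, mem_filter.2 ⟨mem_univ _, ?_⟩⟩)
    rw [l4]
    exact ⟨l1, l2⟩
  · refine (CON3_line a b c _ h2 fun e => hD ?_).trans (ZMod.card p).le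
    rw [← (hr n).1 (mem_filter.1 hn).2, e]
    ring

theorem p_CON3 (hBOX : S_BOX) :
    S_CON3 := by
  intro A p ψ hA hψ hp hAp
  have := Fact.mk hp
  have h2 : (2 : ZMod p) ≠ 0 := by
    intro e
    have := Nat.le_of_dvd two_pos ((ZMod.natCast_eq_zero_iff 2 p).1 (by exact_mod_cast e))
    omega
  have hD : ((17 : ZMod p)) ≠ 0 := by
    intro e
    have := Nat.le_of_dvd (by omega) ((ZMod.natCast_eq_zero_iff 17 p).1 (by exact_mod_cast e))
    omega
  have hd : (ψ.2.1 : ZMod p) ^ 2 - 4 * (ψ.1 : ZMod p) * ψ.2.2 = (17 : ZMod p) := by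
    have := congrArg (Int.cast : ℤ → ZMod p) hψ.1
    push_cast at this
    exact this
  rw [sq p, hBOX.2.2.2 p p _ hp.pos hp.pos fun v w ⟨e1, e2⟩ => by
    have : ev ψ v ≡ ev ψ w [ZMOD p] := by
      simp only [ev]
      gcongr
    rw [this.dvd_iff]]
  have k : ((bx p ×ˢ bx p).filter fun v => (p : ℤ) ∣ ev ψ v).card ≤ rho A p * p + 1 := by
    refine le_trans (card_le_card_of_injOn (fun v : V2 => ((v.1 : ZMod p), (v.2 : ZMod p)))
      (fun v hv => mem_coe.2 (mem_filter.2 ⟨mem_univ _, ?_⟩)) fun v hv w hw e => ?_)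
      (CON3_cnt A p _ _ _ h2 hD hd)
    · have := (ZMod.intCast_zmod_eq_zero_iff_dvd _ p).2 (mem_filter.1 (mem_coe.1 hv)).2
      simp only [ev] at this
      push_cast at this
      exact this
    · obtain ⟨a1, a2⟩ := mem_product.1 (mem_filter.1 (mem_coe.1 hv)).1
      obtain ⟨b1, b2⟩ := mem_product.1 (mem_filter.1 (mem_coe.1 hw)).1
      obtain ⟨e1, e2⟩ := Prod.mk.inj e
      simp only [bx, mem_Ico] at a1 a2 b1 b2
      rw [ZMod.intCast_eq_intCast_iff', Int.emod_eq_of_lt a1.1 a1.2,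
        Int.emod_eq_of_lt b1.1 b1.2] at e1
      rw [ZMod.intCast_eq_intCast_iff', Int.emod_eq_of_lt a2.1 a2.2,
        Int.emod_eq_of_lt b2.1 b2.2] at e2
      exact Prod.ext e1 e2
  have hp0 : (0 : ℝ) < p := by exact_mod_cast hp.pos
  have e1 : ∑ v ∈ bx p ×ˢ bx p, ind ((p : ℤ) ∣ ev ψ v) =
      (((bx p ×ˢ bx p).filter fun v => (p : ℤ) ∣ ev ψ v).card : ℝ) := by
    rw [card_filter]
    push_cast
    refine sum_congr rfl fun v _ => ?_
    split_ifs with h
    exacts [ind_pos h, ind_neg h]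
  have e2 : (((bx p ×ˢ bx p).card : ℕ) : ℝ) = (p : ℝ) ^ 2 := by simp [bx, sq]
  change (∑ v ∈ bx p ×ˢ bx p, _) / (((bx p ×ˢ bx p).card : ℕ) : ℝ) ≤ _
  rw [e1, e2, div_le_iff₀ (by positivity)]
  calc _ ≤ ((rho A p * p + 1 : ℕ) : ℝ) := by exact_mod_cast k
    _ = _ := by push_cast; field_simp

end Pool.Agent.P.MP_6f5b02_nt.Hy
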