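import Pool.Agent.P.MP_6f5b02_nt.Hy.IfT
import Pool.Agent.P.MP_8be758_nt.Pd.TCR
import Pool.Agent.P.MP_8be758_nt.Pd.TND

/-! Steps CR and ND. -/

namespace Pool.Agent.P.MP_6f5b02_nt.Hy

open Pool.Agent.P.MP_8be758_nt

theorem p_CR : S_CR := fun C0 h => Unif.of_old (Pd.p_CR C0 h)

theorem p_ND : S_ND := fun C0 h => Unif.of_old (Pd.p_ND C0 h)

end Pool.Agent.P.MP_6f5b02_nt.Hy
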