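import Pool.Agent.P.MP_6f5b02_nt.Hy.IfM
import Pool.Agent.P.MP_8be758_nt.Pd.TDV

/-! Step DV. -/

namespace Pool.Agent.P.MP_6f5b02_nt.Hy

open Pool.Agent.P.MP_8be758_nt Pool.Agent.P.MP_8be758_nt.Pd
open Finset Real Filter
open Pool.Agent.P.MP_8be758_nt.Par (cj det)
open Pool.Agent.P.MP_6f5b02_nt.Hy.Par (nq mul eu un red)
open Pool.Agent.P.MP_6f5b02_nt.Hy.Mr

theorem p_DV : S_DV := by
  intro A p g hp h1 h2
  have := Fact.mk hp
  simp only [← ZMod.intCast_zmod_eq_zero_iff_dvd] at h1 h2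
  have hb : (g.2 : ZMod p) ≠ 0 := fun e => h2 ⟨by simpa [nq, e] using h1, e⟩
  have key : ∀ v : V2, Dv A p g v ↔ (v.1 : ZMod p) = -(g.1 + g.2) * v.2 / g.2 := fun v => by
    simp only [Dv, ← ZMod.intCast_zmod_eq_zero_iff_dvd, mul, nq, eq_div_iff hb] at h1 ⊢
    push_cast at h1 ⊢
    refine ⟨fun h => by linear_combination h.2, fun h => ⟨mul_left_cancel₀ hb ?_, ?_⟩⟩
    · linear_combination (g.1 : ZMod p) * h - v.2 * h1
    · linear_combination h
  refine ⟨fun v w h => ?_, ?_⟩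
  · simp only [key, (ZMod.intCast_eq_intCast_iff _ _ _).2 h.1,
      (ZMod.intCast_eq_intCast_iff _ _ _).2 h.2]
  have p0 : (0 : ℤ) < p := by exact_mod_cast hp.pos
  have z : ((0, 0) : V2) ∈ bx p ×ˢ bx p := by simp [bx, hp.pos]
  have e : SP.U p = (bx p ×ˢ bx p).erase (0, 0) := by
    ext v
    simp only [SP, mem_filter, mem_erase, and_comm (a := v ≠ _)]
    refine and_congr_right fun hv => ?_
    simp only [bx, mem_product, mem_Ico] at hv
    rw [Nat.coprime_comm, hp.coprime_iff_not_dvd, ← Int.natCast_dvd_natCast, Int.dvd_coe_gcd_iff]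
    refine not_congr ⟨fun h => Prod.ext (Int.eq_zero_of_dvd_of_nonneg_of_lt hv.1.1 hv.1.2 h.1)
      (Int.eq_zero_of_dvd_of_nonneg_of_lt hv.2.1 hv.2.2 h.2), by rintro rfl; simp⟩
  have s : ∑ v ∈ bx p ×ˢ bx p, ind (Dv A p g v) = p := by
    simp only [key]
    rw [sum_product_right]
    have : ∀ c : ZMod p, ∑ x ∈ bx p, ind ((x : ZMod p) = c) = 1 := fun c => by
      rw [DV_sum p fun x => ind (x = c), sum_eq_single c (fun _ _ h => ind_neg h) (by simp),
        ind_pos rfl]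
    simp only [this]
    simp [bx]
  have q : (1 : ℝ) < p := by exact_mod_cast hp.one_lt
  rw [Sys.av, e, sum_erase_eq_sub z, s, card_erase_of_mem z, ind_pos ((key _).2 (by simp)),
    Nat.cast_sub (card_pos.2 ⟨_, z⟩), card_product]
  simp only [bx, Int.card_Ico, sub_zero, Int.toNat_natCast, Nat.cast_mul, Nat.cast_one]
  rw [div_eq_div_iff (by nlinarith) (by linarith)]
  ring

end Pool.Agent.P.MP_6f5b02_nt.Hy
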