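import Pool.Agent.P.MP_6f5b02_nt.Hy.IfT
import Pool.Agent.P.MP_8be758_nt.Pd.TEQ

/-! Step EQ. -/

namespace Pool.Agent.P.MP_6f5b02_nt.Hy

open Pool.Agent.P.MP_8be758_nt Pool.Agent.P.MP_8be758_nt.Pd
open Finset Real Filter
open Pool.Agent.P.MP_8be758_nt.Par (det)
open Pool.Agent.P.MP_e86632_nt (ee)

theorem p_EQ (hEQC : S_EQC) (hGCNT : S_GCNT) :
    S_EQ := by
  intro A hA
  obtain ⟨C, hC, h1⟩ := hEQC A hA
  obtain ⟨C', hC', h2⟩ := hGCNT A hA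
  refine ⟨C + 2 * C' * C, by positivity, fun ψ hψ Z β1 β2 Mx hZ b1 b2 hMx M f hM hMM hf hf1 => ?_⟩
  have b3 : 0 ≤ β2 := b1.trans b2
  have m1 : (1 : ℝ) ≤ M := by exact_mod_cast hM
  have z0 : 0 < Z := by linarith
  simp only [one_mul]
  rcases le_total (C * (M : ℝ) ^ 6) Z with h | h
  · refine (EQ_gen _ (S4.U M) (EQ_r M) f (B := C * (1 + β2) * (M : ℝ) ^ 7 * Z ^ (9 / 10 : ℝ))
      (fun g hg => EQ_mem hM ((of_mem_GG hA hψ) hg).1) (fun g _ => hf _ _ (EQ_c4 M g)) hf1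
      fun c hc c' hc' => ?_).trans ?_
    · simpa only [EQ_iff hc, EQ_iff hc'] using h1 ψ hψ Z β1 β2 M hM h b1 b2 c hc c' hc'
    · have c4 : ((S4.U M).card : ℝ) ≤ (M : ℝ) ^ 4 := by exact_mod_cast EQ_card M
      calc _ ≤ (M : ℝ) ^ 4 * (C * (1 + β2) * (M : ℝ) ^ 7 * Z ^ (9 / 10 : ℝ)) := by gcongr
        _ = C * (1 + β2) * (M : ℝ) ^ 11 * Z ^ (9 / 10 : ℝ) := by ring
        _ ≤ _ := by
          gcongr
          exact le_add_of_nonneg_right (by positivity)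
  · have a1 : |∑ x ∈ GG ψ Z β1 β2, f x| ≤ (GG ψ Z β1 β2).card :=
      (abs_sum_le_sum_abs _ _).trans (by simpa using sum_le_card_nsmul _ _ _ fun x _ => hf1 x)
    have a2 : |((GG ψ Z β1 β2).card : ℝ) * S4.av M f| ≤ (GG ψ Z β1 β2).card := by
      rw [abs_mul, Nat.abs_cast]
      exact mul_le_of_le_one_right (Nat.cast_nonneg _) (EQ_av M hf1)
    have a3 := h2 ψ hψ Z β1 β2 hZ b1 b3
    have a4 : Z ≤ C * Mx ^ 11 * Z ^ (9 / 10 : ℝ) := by
      refine le_trans (h.trans ?_) (le_mul_of_one_le_right (by positivity)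
        (Real.one_le_rpow hZ (by norm_num)))
      exact mul_le_mul_of_nonneg_left ((pow_le_pow_left₀ (by positivity) hMM 6).trans
        (pow_le_pow_right₀ hMx (by norm_num))) hC.le
    calc _ ≤ _ := abs_sub _ _
      _ ≤ 2 * (C' * (1 + β2) * Z) := by linarith
      _ ≤ 2 * (C' * (1 + β2) * (C * Mx ^ 11 * Z ^ (9 / 10 : ℝ))) := by gcongr
      _ = 2 * C' * C * (1 + β2) * Mx ^ 11 * Z ^ (9 / 10 : ℝ) := by ring
      _ ≤ _ := by
        gcongr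
        exact le_add_of_nonneg_left hC.le

end Pool.Agent.P.MP_6f5b02_nt.Hy
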