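import Pool.Agent.P.MP_6f5b02_nt.Hy.IfT
import Pool.Agent.P.MP_8be758_nt.Pd.TEQC

/-! Step EQC. -/

namespace Pool.Agent.P.MP_6f5b02_nt.Hy

open Pool.Agent.P.MP_8be758_nt Pool.Agent.P.MP_8be758_nt.Pd
open Finset Real Filter
open Pool.Agent.P.MP_8be758_nt.Par (det)
open Pool.Agent.P.MP_e86632_nt (ee)

theorem EQC_lin {a b x s t : ℤ} (h1 : a ≤ x) (h2 : x ≤ b) :
    min (a * s + t) (b * s + t) ≤ x * s + t := by
  rcases le_total 0 s with h | h
  · exact (min_le_left _ _).trans (by nlinarith)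
  · exact (min_le_right _ _).trans (by nlinarith)

theorem EQC_bd {A : ℕ} {u w : V2} {T : ℤ} (h1 : |u.1| ≤ T) (h2 : |u.2| ≤ T) (hw : Cn w)
    (h : 22500 * T ^ 2 ≤ ev (Q0 A) w) : |bl (Q0 A) u w| ≤ 2 * ev (Q0 A) w := by
  have a := hw.sq_le (A := A)
  rw [← ev_Q0] at a
  have p := hw.ev_pos (A := A)
  have T0 := (abs_nonneg _).trans h1
  have b : 6 * T * w.1 ≤ ev (Q0 A) w := abs_le_of_sq_le_sq' (by nlinarith) p.le |>.2
  obtain ⟨c1, c2⟩ := abs_le.1 h1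
  obtain ⟨c3, c4⟩ := abs_le.1 h2
  have d1 := hw.1
  have d2 := hw.le
  have d3 := hw.pos.le
  rw [abs_le]
  simp only [bl, Q0] at b ⊢
  constructor <;> nlinarith [mul_nonneg (sub_nonneg.2 c1) d3, mul_nonneg (sub_nonneg.2 c2) d3,
    mul_nonneg (sub_nonneg.2 c3) d3, mul_nonneg (sub_nonneg.2 c4) d3,
    mul_nonneg (sub_nonneg.2 c1) d1, mul_nonneg (sub_nonneg.2 c2) d1,
    mul_nonneg (sub_nonneg.2 c3) d1, mul_nonneg (sub_nonneg.2 c4) d1,
    mul_nonneg T0 (sub_nonneg.2 d2)]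

theorem EQC_co {a b x y T Y : ℝ} (h1 : |a| ≤ T) (h2 : |b| ≤ T) (h3 : |x| ≤ Y) (h4 : |y| ≤ Y) :
    |x * a + y * b| ≤ 2 * T * Y := by
  have T0 := (abs_nonneg _).trans h1
  have Y0 := (abs_nonneg _).trans h3
  refine (abs_add_le _ _).trans ?_
  rw [abs_mul, abs_mul]
  nlinarith [mul_le_mul h3 h1 (abs_nonneg _) Y0, mul_le_mul h4 h2 (abs_nonneg _) Y0]

theorem p_EQC (hKST : S_KST) (hLIFT : S_LIFT) (hVEQ : S_VEQ) :
    S_EQC := by
  intro A hA
  obtain ⟨K, hK, hKST⟩ := hKST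
  obtain ⟨W, hW, hVEQ⟩ := hVEQ A hA
  refine ⟨1440000 + 2 * (K * 576 ^ 2 + 2 * W), by positivity,
    fun ψ hψ Z β1 β2 M hM hZ h1 h2 => ?_⟩
  obtain rfl := eq_Q0 hψ
  have hM' : (1 : ℝ) ≤ M := by exact_mod_cast hM
  have hM6 : (1 : ℝ) ≤ (M : ℝ) ^ 6 := one_le_pow₀ hM'
  have hHZ : 1440000 * (M : ℝ) ^ 6 ≤ Z := by
    refine le_trans ?_ hZ
    have : 0 ≤ 2 * (K * 576 ^ 2 + 2 * W) := by positivity
    gcongr
    linarith
  have hZ1 : 1 ≤ Z := by linarith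
  have hH1 : (1 : ℝ) ≤ 576 * (M : ℝ) ^ 3 := by linarith [one_le_pow₀ (n := 3) hM']
  have hb : 0 ≤ 1 + β2 := by linarith
  have key : ∀ g0 ∈ S4.U M, |(((GG (Q0 A) Z β1 β2).filter fun g => C4 M g g0).card : ℝ) -
      (β2 - β1) / (2 * M) * ((VV (Q0 A) Z (2 * Z)).card * (1 / (SP.U M).card))| ≤
      (K * 576 ^ 2 + 2 * W) * (1 + β2) * (M : ℝ) ^ 7 * Z ^ (9 / 10 : ℝ) := by
    intro g0 hg0
    obtain ⟨g, hg, hc, b1, b2, b3, b4⟩ := hLIFT M hM g0 hg0
    have c1 : C2 M (ap g (1, 0)) g0.1 := by simpa [ap] using hc.1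
    have c2 : C2 M (ap g (0, 1)) g0.2 := by simpa [ap] using hc.2
    have k1 := hKST M (act (Q0 A) g) (576 * (M : ℝ) ^ 3 * √Z) Z β1 β2 (fun v => Cn (ap g v))
      (((VV (Q0 A) Z (2 * Z)).filter fun v => C2 M v g0.1).map (EQC_e g hg).symm.toEmbedding)
      (((GG (Q0 A) Z β1 β2).filter fun γ => C4 M γ g0).map
        ((EQC_e g hg).prodCongr (EQC_e g hg)).symm.toEmbedding) hM
      (one_le_mul_of_one_le_of_one_le hH1 (one_le_sqrt.2 hZ1)) (by linarith) h1 h2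
      (fun a b x y ax xb ca cb => ?_) (fun v hv z1 z2 => ?_) (fun v => ?_) fun γ => ?_
    rotate_left
    · have l1 := EQC_lin (s := g.1.2) (t := y * g.2.2) ax xb
      have l2 := EQC_lin (s := 16 * g.1.1 - 25 * g.1.2) (t := y * (16 * g.2.1 - 25 * g.2.2)) ax xb
      simp only [Cn, ap] at ca cb ⊢
      exact ⟨(le_min ca.1 cb.1).trans l1, by
        linarith [(lt_min (a := 0) (by linarith [ca.2]) (by linarith [cb.2])).trans_le l2]⟩
    · rw [ev_act] at z1 z2 ⊢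
      have a : ∀ x : ℤ, x ^ 2 ≤ 625 * Par.nq A (ap g v) → |(x : ℝ)| ≤ 36 * √Z := fun x hx => by
        rw [← ev_Q0] at hx
        have : (x : ℝ) ^ 2 ≤ 625 * ev (Q0 A) (ap g v) := by exact_mod_cast hx
        refine abs_le_of_sq_le_sq ?_ (by positivity)
        rw [mul_pow, sq_sqrt (by linarith)]
        linarith
      have a1 := a _ hv.sq_le
      have a2 := a _ hv.sq_le'
      have t : ∀ x : ℤ, |x| ≤ 8 * M ^ 3 → |(x : ℝ)| ≤ 8 * M ^ 3 ∧ |-(x : ℝ)| ≤ 8 * M ^ 3 :=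
        fun x hx => by rw [abs_neg, and_self]; exact_mod_cast hx
      have e := (EQC_e g hg).left_inv v
      have z3 : 22500 * (8 * (M : ℤ) ^ 3) ^ 2 < ev (Q0 A) (ap g v) := by
        rw [← Int.cast_lt (R := ℝ)]
        push_cast
        linarith
      refine ⟨?_, ?_, ?_, ?_⟩
      · rw [← congrArg Prod.fst e]
        simp only [EQC_e, ap] at a1 a2 ⊢
        push_cast at a1 a2 ⊢
        exact (EQC_co (t _ b4).1 (t _ b3).2 a1 a2).trans_eq (by ring)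
      · rw [← congrArg Prod.snd e]
        simp only [EQC_e, ap] at a1 a2 ⊢
        push_cast at a1 a2 ⊢
        exact (EQC_co (t _ b2).2 (t _ b1).1 a1 a2).trans_eq (by ring)
      · refine le_of_eq_of_le ?_ (EQC_bd b1 b2 hv z3.le)
        simp only [act, ev, bl, ap]
        congr 1
        ring
      · have := nq_le_sq (A := A) g.1
        rw [← ev_Q0] at this
        have b5 : g.1.1 ^ 2 ≤ (8 * (M : ℤ) ^ 3) ^ 2 := by rw [← sq_abs]; gcongr
        show ev (Q0 A) g.1 < _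
        nlinarith [sq_nonneg (8 * (M : ℤ) ^ 3)]
    · rw [mem_map_equiv]
      show ap g v ∈ _ ↔ _
      simp only [mem_filter, mem_VV hA hψ, ev_act, EQC_c2_iff hg c1, ← EQC_cop_iff hg, and_assoc]
    · rw [mem_map_equiv]
      show (ap g γ.1, ap g γ.2) ∈ _ ↔ _
      simp only [mem_filter, mem_GG hA hψ, ev_act, EQC_bl, det_ap, hg, one_mul, C4,
        EQC_c2_iff hg c1, EQC_c2_iff hg c2, and_assoc]
    rw [card_map, card_map] at k1
    have k2 := hVEQ _ hψ Z (2 * Z) M (by linarith) (by linarith) (by linarith) hM' M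
      (fun v => ind (C2 M v g0.1)) hM le_rfl
      (fun x y h => congrArg ind (propext ⟨fun a => ⟨h.1.symm.trans a.1, h.2.symm.trans a.2⟩,
        fun a => ⟨h.1.trans a.1, h.2.trans a.2⟩⟩))
      (fun x => by rw [abs_of_nonneg (ind_nonneg _)]; exact ind_le_one _)
    have e3 : ∑ x ∈ VV (Q0 A) Z (2 * Z), 1 * ind (C2 M x g0.1) =
        (((VV (Q0 A) Z (2 * Z)).filter fun v => C2 M v g0.1).card : ℝ) := by
      rw [card_filter]
      push_cast
      refine sum_congr rfl fun x _ => ?_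
      split_ifs with h
      · rw [ind_pos h, one_mul]
      · rw [ind_neg h, mul_zero]
    rw [e3, EQC_av hg0] at k2
    have z0 : 0 ≤ Z ^ (9 / 10 : ℝ) := by positivity
    have r1 : (576 * (M : ℝ) ^ 3 * √Z) ^ (9 / 5 : ℝ) ≤
        576 ^ 2 * (M : ℝ) ^ 6 * Z ^ (9 / 10 : ℝ) := by
      rw [mul_rpow (by positivity) (by positivity), sqrt_eq_rpow, ← rpow_mul (by linarith)]
      refine mul_le_mul ((rpow_le_rpow_of_exponent_le hH1 (by norm_num : (9 / 5 : ℝ) ≤ 2)).trans_eq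
        ?_) (by norm_num) (by positivity) (by positivity)
      rw [rpow_two]
      ring
    have r2 : (2 * Z) ^ (3 / 4 : ℝ) ≤ 2 * Z ^ (9 / 10 : ℝ) := by
      rw [mul_rpow (by positivity) (by positivity)]
      exact mul_le_mul (rpow_le_self_of_one_le one_le_two (by norm_num))
        (rpow_le_rpow_of_exponent_le hZ1 (by norm_num)) (by positivity) (by positivity)
    have r3 : (M : ℝ) ^ 2 ≤ (M : ℝ) ^ 7 := pow_le_pow_right₀ hM' (by norm_num)
    have r4 : (β2 - β1) / (2 * M) ≤ 1 + β2 := by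
      rw [div_le_iff₀ (by positivity)]
      nlinarith
    have r5 : 0 ≤ (β2 - β1) / (2 * M) := div_nonneg (by linarith) (by positivity)
    have k3 := k1.trans (show _ ≤ K * (1 + β2) * M * (576 ^ 2 * (M : ℝ) ^ 6 * Z ^ (9 / 10 : ℝ)) by
      gcongr)
    have k4 := mul_le_mul r4 (k2.trans (show _ ≤ W * (M : ℝ) ^ 7 * (2 * Z ^ (9 / 10 : ℝ)) by
      gcongr)) (abs_nonneg _) hb
    rw [← abs_of_nonneg r5, ← abs_mul, mul_sub] at k4
    refine (abs_sub_le _ _ _).trans ((add_le_add k3 k4).trans_eq (by ring))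
  intro g0 hg0 g1 hg1
  have k1 := key g1 hg1
  rw [abs_sub_comm] at k1
  refine (abs_sub_le _ _ _).trans ((add_le_add (key g0 hg0) k1).trans ?_)
  have : 0 ≤ 1440000 * (1 + β2) * (M : ℝ) ^ 7 * Z ^ (9 / 10 : ℝ) := by positivity
  linarith

end Pool.Agent.P.MP_6f5b02_nt.Hy
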