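import Pool.Agent.P.MP_6f5b02_nt.Hy.IfM
import Pool.Agent.P.MP_8be758_nt.Pd.TEQK

/-! Step EQK. -/

namespace Pool.Agent.P.MP_6f5b02_nt.Hy

open Pool.Agent.P.MP_8be758_nt Pool.Agent.P.MP_8be758_nt.Pd
open Finset Real Filter
open Pool.Agent.P.MP_8be758_nt.Par (cj det)
open Pool.Agent.P.MP_6f5b02_nt.Hy.Par (nq mul eu un red)
open Pool.Agent.P.MP_6f5b02_nt.Hy.Mr

theorem p_EQK (hES : S_ES) (hLAT : S_LAT) (hFEJ : S_FEJ) :
    S_EQK := by
  intro A J hA
  obtain ⟨c, C1, c0, c1, C0, h1⟩ := hES A (J + 1) hA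
  obtain ⟨C2', C3, h2⟩ := hLAT A (by omega)
  refine ⟨c, C1 + 2 * C2', c0, c1, by positivity, fun N Mx k n ζ hn hN hMx hk hkN hζ M f hM hMM hf
    hf1 => ?_⟩
  have n1 : (1 : ℝ) ≤ n := by exact_mod_cast hn
  have N1 : 1 ≤ N := n1.trans hN
  have M1 : (1 : ℝ) ≤ M := by exact_mod_cast hM
  have a := EQK_diag _ M f _ hM hf hf1 (h2 _ (Q0_mem (by omega)) 0 N M · · le_rfl (by linarith) hM)
  have b : |∑ v ∈ An (Q0 A) 0 N, KF n (ζ * ek A k v) * f v - ∑ v ∈ An (Q0 A) 0 N, f v| ≤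
      n * (C1 * M ^ 3 * N ^ (1 - c)) := by
    have e : ((∑ v ∈ An (Q0 A) 0 N, KF n (ζ * ek A k v) * f v - ∑ v ∈ An (Q0 A) 0 N, f v : ℝ) : ℂ) =
        (∑ j ∈ range n, ∑ j' ∈ range n, (ζ ^ ((j : ℤ) - j') *
          ∑ v ∈ An (Q0 A) 0 N, (f v : ℂ) * ek A (k * (j - j')) v -
            if j = j' then ∑ v ∈ An (Q0 A) 0 N, (f v : ℂ) else 0)) / n := by
      have n0 : (n : ℂ) ≠ 0 := by exact_mod_cast (show n ≠ 0 by omega)
      simp only [sum_sub_distrib, sum_ite_eq]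
      rw [sum_congr rfl fun j hj => if_pos hj, sum_const, card_range, nsmul_eq_mul, sub_div,
        mul_div_cancel_left₀ _ n0]
      push_cast
      congr 1
      simp only [mul_sum]
      rw [sum_congr rfl fun j _ => sum_comm, sum_comm, sum_div]
      refine sum_congr rfl fun v hv => ?_
      rw [((hFEJ n hn).1 _ (by rw [norm_mul, hζ, norm_ek hA k (ne_of_mem_An hA le_rfl hv),
        one_mul])).2.2.2, div_mul_eq_mul_div, sum_mul]
      congr 1
      refine sum_congr rfl fun j _ => ?_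
      rw [sum_mul]
      exact sum_congr rfl fun j' _ => by rw [mul_zpow, ek_zpow]; ring
    rw [← Real.norm_eq_abs, ← Complex.norm_real, e, norm_div, Complex.norm_natCast,
      div_le_iff₀ (by linarith)]
    refine (norm_sum_le _ _).trans ((sum_le_card_nsmul _ _ (n * (C1 * M ^ 3 * N ^ (1 - c)))
      fun j hj => ?_).trans (by rw [nsmul_eq_mul, card_range, mul_comm]))
    refine (norm_sum_le _ _).trans ((sum_le_card_nsmul _ _ (C1 * M ^ 3 * N ^ (1 - c))
      fun j' hj' => ?_).trans (by rw [nsmul_eq_mul, card_range]))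
    split_ifs with e
    · simp only [e, sub_self, zpow_zero, mul_zero, ek_zero, mul_one, one_mul, norm_zero]
      positivity
    · rw [sub_zero, norm_mul, norm_zpow, hζ, one_zpow, one_mul]
      refine h1 N 0 N _ M f N1 le_rfl (by linarith) le_rfl hM
        (mul_ne_zero hk (sub_ne_zero.2 (by exact_mod_cast e))) ?_ hf hf1
      have j1 : (j : ℝ) < n := by exact_mod_cast mem_range.1 hj
      have j2 : (j' : ℝ) < n := by exact_mod_cast mem_range.1 hj'
      push_cast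
      rw [abs_mul, pow_succ]
      refine mul_le_mul hkN (abs_le.2 ⟨?_, ?_⟩) (abs_nonneg _) (by positivity) <;>
        linarith [j.cast_nonneg (α := ℝ), j'.cast_nonneg (α := ℝ)]
  have s1 : 1 ≤ √N := Real.one_le_sqrt.2 N1
  have s2 : √N ≤ N ^ (1 - c) := by
    rw [Real.sqrt_eq_rpow]
    exact Real.rpow_le_rpow_of_exponent_le N1 (by linarith)
  have d : (M : ℝ) ^ 2 * (C2' * (√N / M + 1)) ≤ n * (2 * C2' * Mx ^ 3 * N ^ (1 - c)) := by
    have : √N / M ≤ √N := div_le_self (by linarith) M1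
    calc (M : ℝ) ^ 2 * (C2' * (√N / M + 1)) ≤ M ^ 3 * (C2' * (2 * N ^ (1 - c))) := by
          gcongr
          · omega
          · linarith
      _ ≤ Mx ^ 3 * (C2' * (2 * N ^ (1 - c))) := by gcongr
      _ = 2 * C2' * Mx ^ 3 * N ^ (1 - c) := by ring
      _ ≤ _ := le_mul_of_one_le_left (by positivity) n1
  have g : n * (C1 * M ^ 3 * N ^ (1 - c)) ≤ n * (C1 * Mx ^ 3 * N ^ (1 - c)) := by gcongr
  refine (abs_sub_le _ (∑ v ∈ An (Q0 A) 0 N, f v) _).trans ?_
  linarith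

end Pool.Agent.P.MP_6f5b02_nt.Hy
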