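import Pool.Agent.P.MP_6f5b02_nt.Hy.IfM
import Pool.Agent.P.MP_8be758_nt.Pd.TES0

/-! Step ES0. -/

namespace Pool.Agent.P.MP_6f5b02_nt.Hy

open Pool.Agent.P.MP_8be758_nt Pool.Agent.P.MP_8be758_nt.Pd
open Finset Real Filter
open Pool.Agent.P.MP_8be758_nt.Par (cj det)
open Pool.Agent.P.MP_6f5b02_nt.Hy.Par (nq mul eu un red)
open Pool.Agent.P.MP_6f5b02_nt.Hy.Mr

theorem ES0_bij {A : ℕ} (hA : 5 ≤ A) (k : ℤ) (N : ℝ) {n : ℕ} (hn : 0 < n) (g : V2) (s : ℤ)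
    (hg : nq A g = n) (h1 : ∀ v, (n : ℤ) ∣ (mul A g v).1 - s * (mul A g v).2)
    (h2 : ∀ w : V2, (n : ℤ) ∣ w.1 - s * w.2 → ∃ v, mul A g v = w) :
    ek A k g * ∑ v ∈ An (Q0 A) 0 N, ek A k v =
      ∑ w ∈ (An (Q0 A) 0 (n * N)).filter (fun w => (n : ℤ) ∣ w.1 - s * w.2), ek A k w := by
  have hn' : (0 : ℝ) < n := by exact_mod_cast hn
  have hg0 : g ≠ 0 := by
    rintro rfl
    simp [nq] at hg
    omega
  have q : ∀ v, (nq A (mul A g v) : ℝ) = n * nq A v := fun v => by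
    rw [Par.nq_mul, hg, Int.cast_mul, Int.cast_natCast]
  rw [mul_sum]
  refine sum_bij (fun v _ => red A (mul A g v)) (fun v hv => mem_filter.2 ⟨?_, ?_⟩)
    (fun v hv w hw h => red_inj hg0 ((mem_An0 hA).1 hv).1 ((mem_An0 hA).1 hw).1 h)
    (fun w hw => ?_) fun v _ => by rw [ek_red, ek_mul hA]
  · obtain ⟨-, a, b⟩ := (mem_An0 hA).1 hv
    have c : (0 : ℝ) < nq A (mul A g v) := q v ▸ mul_pos hn' a
    rw [mem_An0 hA, nq_red]
    exact ⟨red_cn (by exact_mod_cast c), c, q v ▸ mul_le_mul_of_nonneg_left b hn'.le⟩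
  · rw [red, mul_lc]
    exact h1 _
  obtain ⟨v, rfl⟩ := h2 w (mem_filter.1 hw).2
  obtain ⟨a, b, c⟩ := (mem_An0 hA).1 (mem_filter.1 hw).1
  rw [q] at b c
  have d := (mul_pos_iff_of_pos_left hn').1 b
  exact ⟨red A v, (mem_An0 hA).2 ⟨red_cn (by exact_mod_cast d), by rwa [nq_red],
    by rw [nq_red]; exact le_of_mul_le_mul_left c hn'⟩, by rw [red_mul_red g a.nq_pos, red_of_cn a]⟩

theorem ES0_low (hFEJ : S_FEJ) {A : ℕ} (hA : 5 ≤ A) {k : ℤ} (hk : k ≠ 0) :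
    1 ≤ 400 * ‖ek A k ((20 * k.natAbs : ℕ), 1) - ek A k (((20 * k.natAbs : ℕ) : ℤ) + 1, -1)‖ := by
  obtain ⟨K, hK⟩ : ∃ K, K = k.natAbs := ⟨_, rfl⟩
  rw [← hK]
  have hK1 : 1 ≤ K := by omega
  obtain ⟨t, ht⟩ : ∃ t : ℤ, t = (20 * K : ℕ) := ⟨_, rfl⟩
  rw [← ht, show ((t + 1, -1) : V2) = cj (t, 1) from rfl]
  have t0 : 20 ≤ t := by omega
  have g0 : ((t, 1) : V2) ≠ 0 := fun h => by simpa using congrArg Prod.snd h
  have hw : Cn (mul A (t, 1) (t, 1)) := by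
    simp only [Cn, mul]
    constructor <;> nlinarith
  obtain ⟨x, hx⟩ : ∃ x, x = uu A (mul A (t, 1) (t, 1)) := ⟨_, rfl⟩
  have nx : ‖x‖ = 1 := hx ▸ norm_uu hA hw.ne
  have x0 : x ≠ 0 := hx ▸ uu_ne hA hw.ne
  have e1 : ‖ek A k (t, 1) - ek A k (cj (t, 1))‖ = ‖x ^ K - 1‖ := by
    rw [← norm_mul_conj_sub (norm_ek hA k (Par.cj_ne hA g0)), ek_cj, Complex.conj_conj,
      ← ek_mul hA, ek, ← hx]
    rcases Int.natAbs_eq k with h | h
    · rw [h, ← hK, zpow_natCast]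
    · rw [h, ← hK, zpow_neg, zpow_natCast]
      have : (x ^ K)⁻¹ - 1 = -(x ^ K)⁻¹ * (x ^ K - 1) := by
        have := pow_ne_zero K x0
        field_simp
        ring
      rw [this, norm_mul, norm_neg, norm_inv, norm_pow, nx, one_pow, inv_one, one_mul]
  have e2 := uu_upper (mul_pos (cn_e.nq_pos (A := A)) hw.nq_pos)
  have e3 : (det (1, 0) (mul A (t, 1) (t, 1)) : ℝ) ^ 2 ≤
      100 * ‖uu A (1, 0) - uu A (mul A (t, 1) (t, 1))‖ ^ 2 *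
        (nq A (1, 0) * nq A (mul A (t, 1) (t, 1))) := by
    have k : ∀ d : ℤ, det (1, 0) (mul A (t, 1) (t, 1)) ≤ d →
        (det (1, 0) (mul A (t, 1) (t, 1)) : ℝ) ^ 2 ≤ (d : ℝ) ^ 2 := fun d hd => by
      exact_mod_cast pow_le_pow_left₀ (by simp only [det, mul]; linarith) hd 2
    rcases uu_lower (A := A) cn_e hw with h | h | h
    · exact h
    all_goals exact (k _ (by simp only [det, mul, eu]; nlinarith)).trans h
  have q1 : (nq A (1, 0) : ℝ) * nq A (mul A (t, 1) (t, 1)) = ((t : ℝ) ^ 2 + t - 4) ^ 2 := by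
    simp only [nq, mul]; push_cast; ring
  have q3 : (det (1, 0) (mul A (t, 1) (t, 1)) : ℝ) = 2 * t + 1 := by
    simp only [det, mul]; push_cast; ring
  rw [q1, q3, uu_e, ← hx, norm_sub_rev] at e2 e3
  have h5 := ((hFEJ K hK1).1 x nx).2.2.1
  have η0 := norm_nonneg (x - 1)
  have k1 : (1 : ℝ) ≤ K := by exact_mod_cast hK1
  rw [show (t : ℝ) = 20 * K by exact_mod_cast ht] at e2 e3
  rw [e1]
  generalize ‖x - 1‖ = η at *
  generalize (K : ℝ) = b at *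
  have n0 : 400 * b ^ 2 ≤ (20 * b) ^ 2 + 20 * b - 4 := by nlinarith
  have n1 : (20 * b) ^ 2 + 20 * b - 4 ≤ 800 * b ^ 2 := by nlinarith
  generalize (20 * b) ^ 2 + 20 * b - 4 = n at *
  have b2 : 0 < b ^ 2 := by positivity
  have u1 : η * n ≤ 4 * (2 * (20 * b) + 1) := abs_le_of_sq_le_sq' (by linarith) (by linarith) |>.2
  have u2 : 2 * (20 * b) + 1 ≤ 10 * (η * n) :=
    abs_le_of_sq_le_sq' (by linarith) (by nlinarith) |>.2
  have u3 := mul_le_mul_of_nonneg_left n0 η0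
  have u4 := mul_le_mul_of_nonneg_left n1 η0
  have u5 : b * η ≤ 1 := le_of_mul_le_mul_left (a := 400 * b) (by linarith) (by linarith)
  have u6 : 1 ≤ 200 * (b * η) := le_of_mul_le_mul_left (a := 40 * b) (by linarith) (by linarith)
  linarith [(h5 u5).2]

theorem p_ES0 (hSHF : S_SHF) (hFEJ : S_FEJ) :
    S_ES0 := by
  intro A hA
  obtain ⟨C, hC, H⟩ := hSHF A hA
  refine ⟨800 * 800 ^ 3 * C + 2 * C, by positivity, fun N k m v0 hN hm hk => ?_⟩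
  have hlow := ES0_low hFEJ hA hk
  obtain ⟨t, ht⟩ : ∃ t : ℕ, t = 20 * k.natAbs := ⟨_, rfl⟩
  rw [← ht] at hlow
  obtain ⟨n, hn⟩ : ∃ n : ℕ, n = t ^ 2 + t - 4 := ⟨_, rfl⟩
  have n0 : 0 < n := by omega
  have nz : (n : ℤ) = t ^ 2 + t - 4 := by rw [hn, Nat.cast_sub (by omega)]; push_cast; ring
  have n1 : (1 : ℝ) ≤ n := by exact_mod_cast n0
  have kk : (k.natAbs : ℝ) = |(k : ℝ)| := by rw [Nat.cast_natAbs, Int.cast_abs]
  have k1 : (1 : ℝ) ≤ |(k : ℝ)| := by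
    rw [← kk]
    exact_mod_cast Int.natAbs_pos.2 hk
  obtain ⟨κ, hκ⟩ : ∃ κ, κ = |(k : ℝ)| := ⟨_, rfl⟩
  have nu : (n : ℝ) ≤ 800 * κ ^ 2 := by
    have e : (n : ℝ) = (t : ℝ) ^ 2 + t - 4 := by exact_mod_cast nz
    rw [e, ht, Nat.cast_mul, kk, hκ]
    push_cast
    nlinarith
  have B1 := ES0_bij hA k N n0 ((t : ℤ), 1) t (by rw [nz, nq]; ring)
    (fun v => ⟨-v.2, by rw [nz]; simp only [mul]; ring⟩)
    (fun w ⟨c, hc⟩ => ⟨(w.2 + (t + 1) * c, -c), by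
      rw [nz] at hc
      refine Prod.ext ?_ ?_ <;> simp only [mul]
      · linear_combination -hc
      · ring⟩)
  have B2 := ES0_bij hA k N n0 ((t : ℤ) + 1, -1) (-(t + 1)) (by rw [nz, nq]; ring)
    (fun v => ⟨v.2, by rw [nz]; simp only [mul]; ring⟩)
    (fun w ⟨c, hc⟩ => ⟨(t * c - w.2, c), by
      rw [nz] at hc
      refine Prod.ext ?_ ?_ <;> simp only [mul]
      · linear_combination -hc
      · ring⟩)
  rw [ES0_fib _ _ n0] at B1 B2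
  obtain ⟨S, hS⟩ : ∃ S, S = ∑ v ∈ An (Q0 A) 0 N, ek A k v := ⟨_, rfl⟩
  rw [← hS] at B1 B2
  obtain ⟨Z, hZ⟩ : ∃ Z, Z = N ^ (3 / 4 : ℝ) := ⟨_, rfl⟩
  have Z0 : 0 ≤ Z := hZ ▸ rpow_nonneg (by linarith) _
  have cb : ∀ j : ℕ, ((bx j).card : ℝ) = j := fun j => by simp [bx]
  have hnN : (n * N : ℝ) ^ (3 / 4 : ℝ) ≤ n * Z := by
    rw [mul_rpow (by linarith) (by linarith), ← hZ]
    gcongr
    exact rpow_le_self_of_one_le n1 (by norm_num)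
  have k1' : 1 ≤ κ := hκ ▸ k1
  have D1 : ‖ek A k ((t : ℤ), 1) - ek A k ((t : ℤ) + 1, -1)‖ * ‖S‖ ≤
      2 * 800 ^ 3 * C * κ ^ 7 * Z := by
    rw [← norm_mul, sub_mul, B1, B2, ← sum_sub_distrib]
    refine (norm_sum_le _ _).trans ((sum_le_card_nsmul _ _ _ fun r _ =>
      H (n * N) k n _ _ (by nlinarith) n0).trans ?_)
    rw [nsmul_eq_mul, cb, ← hκ]
    calc n * (C * n * (κ + 1) * (n * N : ℝ) ^ (3 / 4 : ℝ)) ≤ n * (C * n * (2 * κ) * (n * Z)) := by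
          gcongr; linarith
      _ = 2 * (n : ℝ) ^ 3 * C * κ * Z := by ring
      _ ≤ 2 * (800 * κ ^ 2) ^ 3 * C * κ * Z := by gcongr
      _ = _ := by ring
  have D2 : ‖S‖ ≤ 800 * 800 ^ 3 * C * κ ^ 7 * Z := by
    calc ‖S‖ = 1 * ‖S‖ := (one_mul _).symm
      _ ≤ (400 * ‖ek A k ((t : ℤ), 1) - ek A k ((t : ℤ) + 1, -1)‖) * ‖S‖ := by gcongr
      _ = 400 * (‖ek A k ((t : ℤ), 1) - ek A k ((t : ℤ) + 1, -1)‖ * ‖S‖) := by ring
      _ ≤ 400 * (2 * 800 ^ 3 * C * κ ^ 7 * Z) := by gcongr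
      _ = _ := by ring
  obtain ⟨S0, hS0⟩ : ∃ S0, S0 = ∑ v ∈ (An (Q0 A) 0 N).filter (fun v => C2 m v v0), ek A k v :=
    ⟨_, rfl⟩
  have m1 : (1 : ℝ) ≤ m := by exact_mod_cast hm
  have cm : ((bx m ×ˢ bx m).card : ℝ) = m * m := by rw [card_product, Nat.cast_mul, cb]
  have D3 : (m * m : ℝ) * ‖S0‖ ≤ ‖S‖ + m * m * (C * m * (κ + 1) * Z) := by
    have e : ((m * m : ℝ) : ℂ) * S0 = S + ∑ c ∈ bx m ×ˢ bx m,
        (S0 - ∑ v ∈ (An (Q0 A) 0 N).filter (fun v => C2 m v c), ek A k v) := by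
      rw [sum_sub_distrib, ← ES0_fib2 _ _ hm, ← hS, sum_const, nsmul_eq_mul, ← cm]
      push_cast
      ring
    have e2 : (m * m : ℝ) * ‖S0‖ = ‖((m * m : ℝ) : ℂ) * S0‖ := by
      rw [norm_mul, Complex.norm_real, Real.norm_eq_abs, abs_of_nonneg (by positivity)]
    rw [e2, e]
    refine (norm_add_le _ _).trans (add_le_add le_rfl ((norm_sum_le _ _).trans
      ((sum_le_card_nsmul _ _ (C * m * (κ + 1) * Z) fun c _ => ?_).trans ?_)))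
    · rw [hS0, hκ, hZ]
      exact H N k m _ _ hN hm
    · rw [nsmul_eq_mul, cm]
  rw [← hS0, ← hκ, ← hZ]
  have mm : (1 : ℝ) ≤ m * m := by nlinarith
  have D4 : ‖S0‖ ≤ ‖S‖ + C * m * (κ + 1) * Z := by
    refine le_of_mul_le_mul_left (D3.trans ?_) (by linarith : (0 : ℝ) < m * m)
    rw [mul_add (m * m : ℝ)]
    exact add_le_add (le_mul_of_one_le_left (norm_nonneg S) mm) le_rfl
  have k7 : κ + 1 ≤ 2 * κ ^ 7 := by
    have : κ ^ 1 ≤ κ ^ 7 := pow_le_pow_right₀ k1' (by norm_num)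
    linarith [pow_one κ]
  calc ‖S0‖ ≤ 800 * 800 ^ 3 * C * κ ^ 7 * Z + C * m * (2 * κ ^ 7) * Z := by
        refine D4.trans (add_le_add D2 ?_)
        gcongr
    _ ≤ m * (800 * 800 ^ 3 * C * κ ^ 7 * Z) + C * m * (2 * κ ^ 7) * Z :=
        add_le_add (le_mul_of_one_le_left (by positivity) m1) le_rfl
    _ = _ := by ring

end Pool.Agent.P.MP_6f5b02_nt.Hy
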