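import Pool.Agent.P.MP_6f5b02_nt.Hy.IfM
import Pool.Agent.P.MP_8be758_nt.Pd.TES1

/-! Step ES1: character sums over a disc in a residue class, large frequencies. -/

namespace Pool.Agent.P.MP_6f5b02_nt.Hy

open Pool.Agent.P.MP_8be758_nt Pool.Agent.P.MP_8be758_nt.Pd
open Finset Real Filter
open Pool.Agent.P.MP_8be758_nt.Par (cj det)
open Pool.Agent.P.MP_6f5b02_nt.Hy.Par (nq mul eu un red)
open Pool.Agent.P.MP_6f5b02_nt.Hy.Mr

theorem ES1_bad {A : ℕ} (hA : 5 ≤ A) {N Y : ℝ} (hY : 0 ≤ Y) :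
    (((An (Q0 A) 0 N).filter fun v => (v.2 : ℝ) ≤ Y).card : ℝ) ≤ (25 * √N + 1) * (Y + 1) := by
  have h : ((An (Q0 A) 0 N).filter fun v => (v.2 : ℝ) ≤ Y) ⊆
      Icc (0 : ℤ) ⌊25 * √N⌋₊ ×ˢ Icc (0 : ℤ) ⌊Y⌋₊ := fun v hv => by
    obtain ⟨h1, h2⟩ := mem_filter.1 hv
    obtain ⟨h3, -, h4⟩ := (mem_An0 hA).1 h1
    have h5 := (le_abs_self _).trans ((abs_le_sqrt_nq (A := A) h3).1.trans
      (mul_le_mul_of_nonneg_left (sqrt_le_sqrt h4) (by norm_num)))
    simp only [mem_product, mem_Icc, Int.natCast_floor_eq_floor hY,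
      Int.natCast_floor_eq_floor (show 0 ≤ 25 * √N by positivity), Int.le_floor]
    exact ⟨⟨h3.pos.le, h5⟩, h3.1, h2⟩
  have := card_le_card h
  simp only [card_product, Int.card_Icc, sub_zero, ← Nat.cast_succ, Int.toNat_natCast] at this
  refine le_trans (Nat.cast_le.2 this) ?_
  push_cast
  gcongr <;> exact Nat.floor_le (by positivity)

theorem p_ES1 (hSEG : S_SEG) (hSH0 : S_SH0) (hAREA : S_AREA) :
    S_ES1 := by
  intro A J hA
  obtain ⟨B, τ1, Cg, hτ1, hCg, hG⟩ := hSEG J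
  obtain ⟨τ0, hτ0, t1, t2⟩ : ∃ τ0 : ℝ, 0 < τ0 ∧ τ0 ≤ τ1 ∧ τ0 ≤ 1 / 2 :=
    ⟨min τ1 (1 / 2), by positivity, min_le_left _ _, min_le_right _ _⟩
  obtain ⟨Ch, hCh, hH⟩ := hSH0 A hA
  obtain ⟨_, Ca, _, hCa, hAr⟩ := hAREA A (by omega)
  refine ⟨1 / (80 * (B + 5)), 3 * Ca * (1 / τ0 + 1) + (150 * Ch + Cg * (3 * Ca) + 2001 * 5625),
    by positivity, by positivity, fun N k m v0 hN hm hk1 hk2 => ?_⟩
  obtain ⟨c, hc⟩ : ∃ c : ℝ, c = 1 / (80 * (B + 5)) := ⟨_, rfl⟩
  rw [← hc]
  have hc0 : 0 < c := by rw [hc]; positivity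
  have hN0 : 0 < N := by linarith
  have hm' : (1 : ℝ) ≤ m := by exact_mod_cast hm
  obtain ⟨τ, hw⟩ : ∃ w : ℝ, w = N ^ (-c) := ⟨_, rfl⟩
  have ht0 : 0 < τ := by rw [hw]; positivity
  have ht1 : τ ≤ 1 := by rw [hw]; exact rpow_le_one_of_one_le_of_nonpos hN (by linarith)
  have e1 : N ^ (1 - c) = τ * N := by
    rw [hw, sub_eq_neg_add, rpow_add hN0, rpow_one]
  rw [e1]
  have e2 : τ ^ (B + 5) * N ^ (1 / 80 : ℝ) = 1 := by
    rw [hw, ← rpow_natCast, ← rpow_mul hN0.le, ← rpow_add hN0,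
      show -c * ((B + 5 : ℕ) : ℝ) + 1 / 80 = 0 by
        rw [hc]; push_cast; field_simp; ring, rpow_zero]
  have hS1 := one_le_sqrt.2 hN
  have hSN := sq_sqrt hN0.le
  obtain ⟨R, hR⟩ : ∃ R : ℝ, R = 75 * √N := ⟨_, rfl⟩
  have hRN : R ^ 2 = 5625 * N := by rw [hR, mul_pow, hSN]; norm_num
  have yR : N ^ (1 / 80 : ℝ) ≤ R := by
    refine le_trans ?_ (show √N ≤ R by linarith)
    rw [sqrt_eq_rpow]
    exact rpow_le_rpow_of_exponent_le hN (by norm_num)
  have yk : N ^ (1 / 80 : ℝ) ≤ |(k : ℝ)| :=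
    (rpow_le_rpow_of_exponent_le hN (by norm_num)).trans hk1
  have key : ∀ (i : ℕ) (x : ℝ), i ≤ B + 5 → N ^ (1 / 80 : ℝ) ≤ x → 1 ≤ τ ^ i * x := fun i x hi hx =>
    e2 ▸ mul_le_mul (pow_le_pow_of_le_one ht0.le ht1 hi) hx (by positivity) (by positivity)
  have hcard : ((An (Q0 A) 0 N).card : ℝ) ≤ 3 * Ca * N := by
    have h1 := (hAr _ (Q0_mem (by omega)) 0 N le_rfl hN0.le).2
    have h2 : √N ≤ N := by nlinarith
    nlinarith
  obtain ⟨g, hg⟩ : ∃ g : V2 → ℂ, g = fun v => if C2 m v v0 then ek A k v else 0 := ⟨_, rfl⟩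
  have hg1 : ∀ v, ‖g v‖ ≤ 1 := fun v => by
    rw [hg]
    dsimp only
    split_ifs
    · exact norm_ek_le hA k v
    · simp
  rw [sum_filter]
  change ‖∑ v ∈ An (Q0 A) 0 N, (fun v => if C2 m v v0 then ek A k v else 0) v‖ ≤ _
  rw [← hg]
  have hP : 0 < τ * N := by positivity
  have hmP : τ * N ≤ m * (τ * N) := le_mul_of_one_le_left hP.le hm'
  have p1 : 0 ≤ 3 * Ca * (1 / τ0 + 1) * m * (τ * N) := by positivity
  have p2 : 0 ≤ (150 * Ch + Cg * (3 * Ca) + 2001 * 5625) * m * (τ * N) := by positivity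
  rw [add_mul, add_mul]
  by_cases hb : τ ≤ τ0 ∧ m * τ ≤ 1
  · obtain ⟨n, hn⟩ : ∃ n : ℕ, n = ⌈τ ^ 5 * R⌉₊ := ⟨_, rfl⟩
    have k5 := key 5 R (by omega) yR
    have n1 : τ ^ 5 * R ≤ n := hn ▸ Nat.le_ceil _
    have n2 : (n : ℝ) ≤ 2 * τ ^ 5 * R := by
      have := Nat.ceil_lt_add_one (show 0 ≤ τ ^ 5 * R by linarith)
      rw [← hn] at this
      linarith
    have n3 : (1 : ℝ) ≤ n := k5.trans n1
    have hR0 : 0 < R := by linarith
    have n4 : (m : ℝ) * n ≤ 2 * τ * R := by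
      have h1 : τ ^ 4 ≤ τ := pow_le_of_le_one ht0.le ht1 (by norm_num)
      calc (m : ℝ) * n ≤ m * (2 * τ ^ 5 * R) := by gcongr
        _ = 2 * (m * τ * τ ^ 4) * R := by ring
        _ ≤ 2 * (1 * τ) * R := by gcongr; exact hb.2
        _ = 2 * τ * R := by ring
    have main := ES1_avg (G := An (Q0 A) 0 N) (n := n) (e1 := Ch * (m * n) * √N) (e2 := Cg * τ)
      (fun v => (v.2 : ℝ) ≤ 2000 * (τ * R)) (by exact_mod_cast n3) g hg1
      (fun t => ((m * t : ℤ), 0)) (by positivity)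
      (fun t ht => hH N _ _ g hN (one_le_mul_of_one_le_of_one_le hm' n3) (by
        push_cast
        rw [abs_of_nonneg (by positivity)]
        exact mul_le_mul_of_nonneg_left (by exact_mod_cast ht.le) (by positivity))
        (by simpa using by positivity) hg1)
      fun v hv hv' => ?_
    · have h2 := key 1 R (by omega) yR
      rw [pow_one] at h2
      have h1 := (ES1_bad hA (N := N) (Y := 2000 * (τ * R)) (by positivity)).trans
        (mul_le_mul (show _ ≤ R by linarith) (show _ ≤ 2001 * (τ * R) by linarith)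
          (by positivity) hR0.le)
      have h5 : R * (2001 * (τ * R)) = 2001 * 5625 * (τ * N) := by linear_combination 2001 * τ * hRN
      have h3 : Ch * (m * n) * √N ≤ 150 * Ch * (τ * N) := by
        calc Ch * (m * n) * √N ≤ Ch * (2 * τ * R) * √N := by gcongr
          _ = _ := by rw [hR]; linear_combination 150 * Ch * τ * hSN
      have h4 : Cg * τ * (An (Q0 A) 0 N).card ≤ Cg * (3 * Ca) * (τ * N) :=
        calc Cg * τ * (An (Q0 A) 0 N).card ≤ Cg * τ * (3 * Ca * N) := by gcongr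
          _ = _ := by ring
      have h6 : (150 * Ch + Cg * (3 * Ca) + 2001 * 5625) * (τ * N) ≤
          (150 * Ch + Cg * (3 * Ca) + 2001 * 5625) * m * (τ * N) := by
        rw [mul_assoc _ (m : ℝ)]
        gcongr
      linarith
    · by_cases hv0 : C2 m v v0
      · obtain ⟨a1, -, a2⟩ := (mem_An0 hA).1 hv
        have a3 := (le_abs_self _).trans ((abs_le_sqrt_nq (A := A) a1).1.trans
          (mul_le_mul_of_nonneg_left (sqrt_le_sqrt a2) (by norm_num)))
        have a4 : (v.2 : ℝ) ≤ v.1 := by exact_mod_cast a1.le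
        have a5 : 1 / 2 ≤ 2 * π / Th := by
          rw [le_div_iff₀ Th_pos]
          linarith [Th_le, pi_gt_three]
        have a6 : 2 * π / Th ≤ 1 := by
          rw [div_le_one Th_pos]
          linarith [Th_ge, pi_le_four]
        have a7 : |2 * π / Th * k| = 2 * π / Th * |(k : ℝ)| := by
          rw [abs_mul, abs_of_nonneg (by linarith)]
        have a8 := mul_pos ht0 hR0
        rw [not_le] at hv'
        have := hG R τ m (2 * π / Th * k) (i1 v) (i2 v) n ht0 (hb.1.trans t1)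
          (key B R (by omega) yR) ((key (B + 1) _ (by omega) yk).trans (by
            rw [a7, pow_succ, mul_assoc]
            gcongr
            linarith [hb.1]))
          (by
            rw [a7, pow_mul, hRN]
            exact (mul_le_of_le_one_left (abs_nonneg _) a6).trans
              (hk2.trans (pow_le_pow_left₀ hN0.le (by linarith) J)))
          hm' hb.2 (by linarith [i1_le a1]) (by linarith [le_i2 a1])
          (by rw [i1_sub_i2]; nlinarith [s_gt]) n1 n2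
        refine le_of_eq_of_le (congrArg norm (sum_congr rfl fun t _ => ?_)) this
        rw [hg]
        dsimp only
        rw [if_pos ((ES1_sh m t v v0).2 hv0), ek_eq fun e => ?_, i1_row, i2_row]
        · push_cast
          rfl
        · have := congrArg Prod.fst e
          simp only [Prod.fst_add, Prod.fst_zero] at this
          nlinarith [a1.pos, mul_nonneg (Int.natCast_nonneg m) (Int.natCast_nonneg t)]
      · rw [sum_eq_zero fun t _ => by
          rw [hg]
          exact if_neg fun h => hv0 ((ES1_sh m t v v0).1 h), norm_zero]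
        positivity
  · have h1 : ‖∑ v ∈ An (Q0 A) 0 N, g v‖ ≤ (An (Q0 A) 0 N).card := by
      refine (norm_sum_le _ _).trans ((sum_le_card_nsmul _ _ 1 fun v _ => hg1 v).trans_eq ?_)
      rw [nsmul_eq_mul, mul_one]
    have h2 : 1 ≤ (1 / τ0 + 1) * (m * τ) := by
      have q1 : 0 ≤ 1 / τ0 * (m * τ) := by positivity
      have q2 : 0 ≤ (m : ℝ) * τ := by positivity
      rcases not_and_or.1 hb with h | h
      · have : 1 ≤ 1 / τ0 * (m * τ) := by
          rw [one_div, ← div_eq_inv_mul, one_le_div hτ0]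
          nlinarith [not_le.1 h]
        linarith
      · nlinarith [not_le.1 h]
    have h3 : 3 * Ca * N ≤ 3 * Ca * (1 / τ0 + 1) * m * (τ * N) :=
      calc 3 * Ca * N = 3 * Ca * N * 1 := (mul_one _).symm
        _ ≤ 3 * Ca * N * ((1 / τ0 + 1) * (m * τ)) := by gcongr
        _ = _ := by ring
    linarith

end Pool.Agent.P.MP_6f5b02_nt.Hy
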