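import Pool.Agent.P.MP_6f5b02_nt.Hy.IfM
import Pool.Agent.P.MP_8be758_nt.Pd.TFAR

/-! Step FAR. -/

namespace Pool.Agent.P.MP_6f5b02_nt.Hy

open Pool.Agent.P.MP_8be758_nt Pool.Agent.P.MP_8be758_nt.Pd
open Finset Real Filter
open Pool.Agent.P.MP_8be758_nt.Par (cj det)
open Pool.Agent.P.MP_6f5b02_nt.Hy.Par (nq mul eu un red)
open Pool.Agent.P.MP_6f5b02_nt.Hy.Mr

variable {A : ℕ} {X : ℝ} {u v w : V2}

theorem FAR_few (hA : 5 ≤ A) (hX : 0 < X) (hu : Mr.Pr u) (h : X < nq A u) (d : ℤ) :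
    ((VX A X).filter fun w => det u w = d).card ≤ 101 := by
  rcases ((VX A X).filter fun w => det u w = d).eq_empty_or_nonempty with e | ⟨w0, h0⟩
  · simp [e]
  obtain ⟨a1, a2⟩ := mem_filter.1 h0
  have key : ((VX A X).filter fun w => det u w = d) ⊆
      (Icc (-50 : ℤ) 50).image fun t => w0 + t • u := fun w hw => by
    obtain ⟨b1, b2⟩ := mem_filter.1 hw
    obtain ⟨t, ht⟩ := eq_smul_of_det (v := w - w0) hu (by
      simp only [det, Prod.fst_sub, Prod.snd_sub] at a2 b2 ⊢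
      linear_combination a2 - b2)
    refine mem_image.2 ⟨t, ?_, by rw [← ht]; abel⟩
    have k : ∀ w ∈ VX A X, (0 : ℝ) < w.1 ∧ (w.1 : ℝ) ^ 2 ≤ 1250 * X := fun w hw => by
      obtain ⟨c, -, -, c'⟩ := (mem_VX hA).1 hw
      have : (w.1 : ℝ) ^ 2 ≤ 625 * nq A w := by exact_mod_cast c.sq_le
      exact ⟨by exact_mod_cast c.pos, by linarith⟩
    have c1 : (w.1 : ℝ) - w0.1 = t * u.1 := by exact_mod_cast congrArg Prod.fst ht
    have c2 : (nq A u : ℝ) ≤ 2 * u.1 ^ 2 := by exact_mod_cast nq_le_sq u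
    obtain ⟨c3, c4⟩ := k w b1
    obtain ⟨c5, c6⟩ := k w0 a1
    have c7 : ((t : ℝ) * u.1) ^ 2 ≤ 1250 * X := by
      rw [← c1]
      rcases le_total (w.1 : ℝ) w0.1 with c | c <;> nlinarith
    have c8 : (t : ℝ) ^ 2 * X ≤ 2500 * X := by nlinarith [sq_nonneg (t : ℝ)]
    have c9 : t ^ 2 ≤ 2500 := by exact_mod_cast le_of_mul_le_mul_right c8 hX
    exact mem_Icc.2 ⟨by nlinarith, by nlinarith⟩
  exact (card_le_card key).trans (card_image_le.trans (by simp))

theorem FAR_sum (hA : 5 ≤ A) (hX : 0 < X) (hu : Mr.Pr u) (h : X < nq A u) {L : ℕ} (hL : 1 ≤ L)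
    {W : Finset V2} (hW : W ⊆ VX A X) (h1 : ∀ w ∈ W, (L : ℤ) < |det u w|) :
    ∑ w ∈ W, ((det u w : ℝ) ^ 2)⁻¹ ≤ 202 / L := by
  have a1 := FAR_fib W (fun w => (det u w).natAbs) 202 L hL (fun w hw => by
      have := h1 w hw
      rw [← Int.natCast_natAbs] at this
      exact_mod_cast this) fun m => by
    have b1 := FAR_few hA hX hu h m
    have b2 := FAR_few hA hX hu h (-m)
    refine le_trans (card_le_card fun w hw => ?_) ((card_union_le _ _).trans (add_le_add b1 b2))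
    obtain ⟨c1, c2⟩ := mem_filter.1 hw
    rcases Int.natAbs_eq_iff.1 c2 with e | e
    · exact mem_union_left _ (mem_filter.2 ⟨hW c1, e⟩)
    · exact mem_union_right _ (mem_filter.2 ⟨hW c1, e⟩)
  simpa only [Nat.cast_natAbs, Int.cast_abs, sq_abs, Nat.cast_ofNat] using a1

theorem FAR_one (hFEJ : S_FEJ) {n : ℕ} (hA : 5 ≤ A) (hn : 1 ≤ n) (hX : 0 < X)
    (hv : v ∈ VX A X) (hw : w ∈ VX A X) {d : ℤ} (hd : d ≠ 0)
    (a2 : (d : ℝ) ^ 2 ≤ 100 * ‖uu A v - uu A w‖ ^ 2 * (nq A v * nq A w)) :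
    KF n (uu A v * (starRingEnd ℂ) (uu A w)) ≤ 1600 * X ^ 2 / n * ((d : ℝ) ^ 2)⁻¹ := by
  obtain ⟨v1, v2, v3⟩ := (of_mem_VX hA) hv
  obtain ⟨w1, w2, w3⟩ := (of_mem_VX hA) hw
  have n1 := norm_uu hA (pr_ne v1)
  have n2 := norm_uu hA (pr_ne w1)
  have a1 := ((hFEJ n hn).1 (uu A v * (starRingEnd ℂ) (uu A w))
    (by rw [norm_mul, Complex.norm_conj, n1, n2, mul_one])).2.1
  rw [norm_mul_conj_sub n2] at a1
  have a3 := KF_nonneg n (uu A v * (starRingEnd ℂ) (uu A w))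
  have d0 : (0 : ℝ) < (d : ℝ) ^ 2 := by positivity
  have n0 : (0 : ℝ) < n := by exact_mod_cast hn
  rw [← div_eq_mul_inv, div_div, le_div_iff₀ (by positivity)]
  generalize KF n (uu A v * (starRingEnd ℂ) (uu A w)) = K at *
  generalize ‖uu A v - uu A w‖ ^ 2 = z at *
  have b1 : (nq A v : ℝ) * nq A w ≤ 4 * X ^ 2 := by
    have := mul_le_mul v3 w3 (by linarith) (by linarith)
    linarith
  have b0 : (0 : ℝ) ≤ (nq A v : ℝ) * nq A w := mul_nonneg (by linarith) (by linarith)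
  calc K * (n * (d : ℝ) ^ 2) = K * n * (d : ℝ) ^ 2 := by ring
    _ ≤ K * n * (100 * z * ((nq A v : ℝ) * nq A w)) := mul_le_mul_of_nonneg_left a2 (by positivity)
    _ = 100 * (K * (n * z) * ((nq A v : ℝ) * nq A w)) := by ring
    _ ≤ 100 * (4 * (4 * X ^ 2)) := by gcongr
    _ = 1600 * X ^ 2 := by ring

theorem p_FAR (hFEJ : S_FEJ) :
    S_FAR := by
  refine ⟨1600 * 606, by norm_num, fun A n L X hA hn hL hLX => ?_⟩
  have n0 : (0 : ℝ) < n := by exact_mod_cast hn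
  have L0 : (0 : ℝ) < L := by exact_mod_cast hL
  have hX : 0 < X := lt_of_lt_of_le (by positivity) hLX
  have big : ∀ v ∈ VX A X, ∀ w ∈ VX A X, (L : ℤ) < det w (mul A eu v) := fun v hv w hw => by
    obtain ⟨c, -, c', -⟩ := (mem_VX hA).1 hv
    refine lt_of_lt_of_le ?_ (det_e_pos c ((mem_VX hA).1 hw).1)
    have c2 : (nq A v : ℝ) ≤ 2 * v.1 ^ 2 := by exact_mod_cast nq_le_sq v
    have c3 : (0 : ℝ) < v.1 := by exact_mod_cast c.pos
    exact_mod_cast (lt_of_pow_lt_pow_left₀ 2 c3.le (by linarith) : (L : ℝ) < v.1)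
  have key : ∀ v ∈ VX A X, ∑ w ∈ (VX A X).filter (fun w => (L : ℤ) < |det v w|),
      KF n (uu A v * (starRingEnd ℂ) (uu A w)) ≤ 1600 * X ^ 2 / n * (606 / L) := fun v hv => by
    obtain ⟨c0, c1, c2, -⟩ := (mem_VX hA).1 hv
    have e1 : ∀ w, det (mul A eu v) w = -det w (mul A eu v) := fun w => by simp only [det]; ring
    have e2 : ∀ w, det (mul A (cj eu) v) w = det v (mul A eu w) := fun w => by
      simp only [det, mul, cj, eu]; ring
    have u2 : nq A (cj eu) = 1 := (Par.nq_cj _).trans Par.nq_eu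
    have s := filter_subset (fun w => (L : ℤ) < |det v w|) (VX A X)
    have a1 := FAR_sum hA hX c1 c2 hL s fun w hw => (mem_filter.1 hw).2
    have a2 := FAR_sum hA hX ((pr_unit (A := A) Par.nq_eu).2 c1)
      (by rwa [Par.nq_mul, Par.nq_eu, one_mul]) hL s fun w hw => by
        rw [e1, abs_neg]
        exact (big v hv w (s hw)).trans_le (le_abs_self _)
    have a3 := FAR_sum hA hX ((pr_unit u2).2 c1) (by rwa [Par.nq_mul, u2, one_mul]) hL s
      fun w hw => e2 w ▸ (big w (s hw) v hv).trans_le (le_abs_self _)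
    refine (sum_le_sum (g := fun w => 1600 * X ^ 2 / n * (((det v w : ℝ) ^ 2)⁻¹ +
      ((det (mul A eu v) w : ℝ) ^ 2)⁻¹ + ((det (mul A (cj eu) v) w : ℝ) ^ 2)⁻¹))
      fun w hw => ?_).trans ?_
    · have b1 := (mem_filter.1 hw).2
      have b2 := big v hv w (s hw)
      have b3 := big w (s hw) v hv
      rw [e1, e2, Int.cast_neg, neg_sq]
      rcases uu_lower (A := A) c0 ((mem_VX hA).1 (s hw)).1 with h | h | h <;>
        refine (FAR_one hFEJ hA hn hX hv (s hw) (fun e => ?_) h).trans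
          (mul_le_mul_of_nonneg_left ?_ (by positivity))
      · rw [e, abs_zero] at b1
        omega
      · rw [add_assoc]
        exact le_add_of_nonneg_right (by positivity)
      · omega
      · rw [add_right_comm]
        exact le_add_of_nonneg_left (by positivity)
      · omega
      · exact le_add_of_nonneg_left (by positivity)
    · rw [← mul_sum, sum_add_distrib, sum_add_distrib]
      refine mul_le_mul_of_nonneg_left ((add_le_add (add_le_add a1 a2) a3).trans_eq (by ring))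
        (by positivity)
  refine (sum_le_sum key).trans (le_of_eq ?_)
  rw [sum_const, nsmul_eq_mul]
  ring

end Pool.Agent.P.MP_6f5b02_nt.Hy
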