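import Pool.Agent.P.MP_6f5b02_nt.Hy.If0

/-! Step DET0. -/

namespace Pool.Agent.P.MP_6f5b02_nt.Hy

open Pool.Agent.P.MP_8be758_nt Pool.Agent.P.MP_8be758_nt.Pd
open Finset Real Filter
open Pool.Agent.P.MP_8be758_nt.Par (cj det)

theorem p_DET0 :
    S_DET0 := by
  intro A ψ v v' hA hF hv hv' he ⟨c, hc⟩
  obtain rfl := eq_Q0 hF
  rw [ev_Q0, ev_Q0] at he
  rw [ev_Q0] at hc
  have h0 := hv.nq_pos (A := A)
  have h1 : (Par.mul A v' (cj v)).2 = Par.nq A v * c := by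
    rw [Par.mul_cj_snd, ← hc]
    simp only [det]
    ring
  have h2 : Par.nq A (Par.mul A v' (cj v)) = Par.nq A v ^ 2 := by
    rw [Par.nq_mul, Par.nq_cj, ← he, sq]
  obtain ⟨b, hb⟩ : Par.nq A v ∣ (Par.mul A v' (cj v)).1 := by
    have e : (2 * (Par.mul A v' (cj v)).1 + Par.nq A v * c) ^ 2 =
        Par.nq A v ^ 2 * (4 + 17 * c ^ 2) := by
      rw [Par.nq, h1] at h2
      linear_combination 4 * h2
    obtain ⟨d, hd⟩ := (Int.pow_dvd_pow_iff two_ne_zero).1 ⟨_, e⟩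
    have e2 : d ^ 2 = 4 + 17 * c ^ 2 :=
      mul_left_cancel₀ (pow_ne_zero 2 h0.ne') (by rw [← e, hd]; ring)
    obtain ⟨k, hk⟩ : Even (d - c) := by
      have : Even ((d - c) * (d + c)) := ⟨2 + 8 * c ^ 2, by linear_combination e2⟩
      rcases Int.even_mul.1 this with h | h
      · exact h
      · rw [Int.even_sub]
        exact Int.even_add.1 h
    exact ⟨k, mul_left_cancel₀ two_ne_zero (by linear_combination hd + Par.nq A v * hk)⟩
  have h3 : Par.nq A (b, c) = 1 := mul_left_cancel₀ (pow_ne_zero 2 h0.ne') (by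
    rw [Par.nq, h1, hb] at h2
    simp only [Par.nq] at h2 ⊢
    linear_combination h2)
  have h4 : Par.mul A (b, c) v = v' := by
    simp only [Par.mul, cj] at h1 hb
    refine Prod.ext (mul_left_cancel₀ h0.ne' ?_) (mul_left_cancel₀ h0.ne' ?_)
    · simp only [Par.mul, Par.nq] at h1 hb ⊢
      linear_combination -v.1 * hb - 4 * v.2 * h1
    · simp only [Par.mul, Par.nq] at h1 hb ⊢
      linear_combination -v.2 * hb - (v.1 + v.2) * h1
  rw [← h4, unit_cn h3 hv (h4 ▸ hv')]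
  simp [Par.mul]

end Pool.Agent.P.MP_6f5b02_nt.Hy
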