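import Pool.Agent.P.MP_6f5b02_nt.Hy.IfT
import Pool.Agent.P.MP_6f5b02_nt.Hy.TDET0
import Pool.Agent.P.MP_8be758_nt.Pd.TFIB

/-! Step FIB. -/

namespace Pool.Agent.P.MP_6f5b02_nt.Hy

open Pool.Agent.P.MP_8be758_nt Pool.Agent.P.MP_8be758_nt.Pd
open Finset Real Filter
open Pool.Agent.P.MP_8be758_nt.Par (det)
open Pool.Agent.P.MP_e86632_nt (ee)

theorem p_FIB :
    S_FIB := by
  intro A ψ φ G hA hψ h
  refine (card_le_one.2 fun g hg g0 h0 => ?_).trans (by norm_num)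
  obtain ⟨c0, d0, e0⟩ := h g0 h0
  obtain ⟨c1, d1, e1⟩ := h g hg
  have r : rm g0 ((det g.1 g0.2, det g0.1 g.1), (det g.2 g0.2, det g0.1 g.2)) = g := by
    simp only [rm, ap, det] at d0 ⊢
    exact Prod.ext (Prod.ext (by linear_combination g.1.1 * d0) (by linear_combination g.1.2 * d0))
      (Prod.ext (by linear_combination g.2.1 * d0) (by linear_combination g.2.2 * d0))
  obtain ⟨k1, k2, -⟩ := FIB_key (φ := φ)
    (h := ((det g.1 g0.2, det g0.1 g.1), (det g.2 g0.2, det g0.1 g.2))) (by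
      simp only [det] at d0 d1 ⊢
      linear_combination (g.1.1 * g.2.2 - g.1.2 * g.2.1) * d0 + d1)
    (by rw [← e0, ← act_rm, r, e0, e1])
  have u : ev φ (g0.2.2, -g0.1.2) = 1 := by
    have h6 : ap g0 (g0.2.2, -g0.1.2) = (1, 0) := by
      simp only [ap, det, Prod.mk.injEq] at d0 ⊢
      exact ⟨by linear_combination d0, by ring⟩
    rw [← e0, ev_act, h6, eq_Q0 hψ]
    simp [ev, Q0]
  have a0 : ev ψ g0.1 = φ.1 := congrArg Prod.fst e0
  have a1 : ev ψ g.1 = φ.1 := congrArg Prod.fst e1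
  have f : g.1 = g0.1 := p_DET0 A ψ g0.1 g.1 hA hψ c0 c1 (a0.trans a1.symm) (by
    rw [a0]
    simp only [ev] at u k1 k2
    exact ⟨det g0.1 g.1 * g0.2.2 ^ 2 + g0.2.2 * g0.1.2 * (det g.1 g0.2 - det g0.1 g.2) -
      g0.1.2 ^ 2 * det g.2 g0.2, by
        linear_combination -(det g0.1 g.1) * u - g0.2.2 * g0.1.2 * k1 + g0.1.2 ^ 2 * k2⟩)
  refine Prod.ext f (eq_of_bl (ψ := ψ) (v := g.1) (eq_Q0 hψ ▸ c1.ev_pos).ne' (by rw [d1, f, d0]) ?_)
  rw [show bl ψ g.1 g.2 = φ.2.1 from congrArg (·.2.1) e1, f]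
  exact (congrArg (·.2.1) e0).symm

end Pool.Agent.P.MP_6f5b02_nt.Hy
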