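import Pool.Agent.P.MP_6f5b02_nt.Hy.IfG
import Pool.Agent.P.MP_8be758_nt.Pd.TFMP

/-! Step FMP. -/

namespace Pool.Agent.P.MP_6f5b02_nt.Hy

open Pool.Agent.P.MP_8be758_nt Pool.Agent.P.MP_8be758_nt.Pd
open Finset Real Filter
open Pool.Agent.P.MP_8be758_nt.Par (det)

theorem p_FMP (hOK : S_OK) (hL1 : S_L1) (hLB : S_LB) (hALP : S_ALP) (hSDS : S_SDS) :
    S_FMP := by
  obtain ⟨c, hc⟩ := hALP
  refine ⟨max c 100, fun A C1 => ?_⟩
  obtain ⟨C, hC, h⟩ := hc A C1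
  refine ⟨C, hC, fun z e1 e2 hz => ?_⟩
  filter_upwards [h z e1 e2 (hz.mono (le_max_left _ _)), eventually_ge_atTop 1] with y hA hy
  intro q D1 D2 θ hq hD h0 h1 σ hσ p hp
  obtain ⟨-, b2, -, b4, b5, -, b7, b8, b9, b10, -⟩ := hz.mono (le_max_right _ _)
  set ρ : Pr := ⟨z, y⟩
  obtain ⟨hpp, hw, hpy⟩ := (mem_PP (by linarith)).1 hp
  have hw' : z.w < p := by exact_mod_cast hw
  have hA1 : 5 ≤ ρ.A := by show 5 ≤ z.A; omega
  have hAp : 4 * ρ.A < p := by show 4 * z.A < p; omega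
  have hpi : Prime (p : ℤ) := Nat.prime_iff_prime_int.1 hpp
  have p100 : (100 : ℝ) ≤ p := by exact_mod_cast (show 100 ≤ p by omega)
  have hi : (0 : ℝ) < 1 / p := by positivity
  have hi' : (1 : ℝ) / p ≤ 1 / 100 := one_div_le_one_div_of_le (by norm_num) p100
  have n1 : ¬(p : ℤ) ∣ 1 := hpi.not_dvd_one
  have L := fun u => hL1 ρ.A p (Q0 ρ.A) u hA1 (isF_Q0 _) hpp hAp
  have r2 : (rho ρ.A p : ℝ) ≤ 2 := by exact_mod_cast (L (1, 0) fun h => n1 h.1).1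
  have r0 : (0 : ℝ) ≤ rho ρ.A p := Nat.cast_nonneg _
  have hr0 : (0 : ℝ) ≤ rho ρ.A p / p := by positivity
  have hr : (rho ρ.A p : ℝ) / p ≤ 2 * (1 / p) := by rw [mul_one_div]; gcongr
  have hr1 : (rho ρ.A p : ℝ) / (p + 1) ≤ rho ρ.A p / p := by gcongr; linarith
  have hθ : (1 - θ) * ((rho ρ.A p : ℝ) / p) ≤ rho ρ.A p / p := by nlinarith
  obtain ⟨rfl, hS⟩ := (mem_SD (DA_pos hD).1 (DA_pos hD).2).1 hσ
  obtain ⟨s1, s2, -, -, -, -, s7, -⟩ := hS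
  have big : ∀ {k r : ℕ} {Y : ℝ}, k ≠ 0 → r ∈ PP (y ^ k) Y → ¬p ∣ r := fun hk hr e => by
    have := lt_of_PP hr
    rw [← (Nat.prime_dvd_prime_iff_eq hpp (prime_of_PP hr)).1 e] at this
    linarith [le_self_pow₀ hy hk]
  have q1 : ¬p ∣ σ.q1 := big (k := z.k5) (by omega) hq.1
  have q3 : ¬p ∣ σ.q3 := big (k := z.k3) (by omega) hq.2.1
  have q4 : ¬p ∣ σ.q4 := big (k := 1) one_ne_zero (by simpa [Pr.I4] using hq.2.2)
  have triv : ¬(p : ℤ) ∣ σ.af → (p : ℤ) ∣ (D1 * D2 : ℕ) * (σ.s * σ.t * σ.af) →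
      S4.av (p ^ 2) (fun g => Pr.al D1 D2 p (ρ.fm g) * Pr.fv θ (D1 * D2) σ p (ρ.fm g)) ≤
      ρ.aa D1 D2 p * (if (p : ℤ) ∣ σ.af then θ * (rho ρ.A p : ℝ) / p else 1) *
        exp (-(2 * (1 - θ)) * (rho ρ.A p : ℝ) / p +
          if (p : ℤ) ∣ (D1 * D2 : ℕ) * (σ.s * σ.t * σ.af) then 12 / (p : ℝ)
          else 200 / (p : ℝ) ^ 2) := by
    intro a b
    rw [if_neg a, if_pos b, mul_one]
    refine (S4.av_mono _ fun g _ => mul_le_of_le_one_right (FMP_al _ _ _ _).1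
      (FMP_fv h0 h1 _ _ _ _).2).trans (le_mul_of_one_le_right
        (S4.av_nonneg _ fun g => (FMP_al _ _ _ _).1) (one_le_exp ?_))
    rw [mul_div_assoc, div_eq_mul_one_div 12]
    linarith
  by_cases hD' : p ∣ D1 * D2
  · have a : ¬(p : ℤ) ∣ σ.af := fun a => hpp.one_lt.ne'
      (Nat.eq_one_of_dvd_coprimes s7 ((Int.natCast_dvd.1 a).mul_left _) hD')
    have b := Int.natCast_dvd_natCast.2 hD'
    exact ⟨triv a (b.mul_right _), fun h => absurd (b.mul_right _) h⟩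
  have ha := ((hA D1 D2 p hp).2 hD').1
  rw [mul_div_assoc] at ha
  have d1 : ¬p ∣ σ.e1 * σ.a1 := fun e => hD' ((e.trans s1).mul_right _)
  have d2 : ¬p ∣ σ.e2 * σ.a2 := fun e => hD' ((e.trans s2).mul_left _)
  have E1 : ¬p ∣ σ.E1 := fun e => ((Nat.Prime.dvd_mul hpp).1 e).elim (fun e => d1 (e.mul_right _)) q3
  have E2 : ¬p ∣ σ.E2 := fun e => ((Nat.Prime.dvd_mul hpp).1 e).elim (fun e => d2 (e.mul_right _)) q4
  have nm : ∀ {a b : ℕ}, ¬p ∣ a → ¬p ∣ b → ¬p ∣ a * b :=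
    fun ha hb e => ((Nat.Prime.dvd_mul hpp).1 e).elim ha hb
  have u1 : ¬(p : ℤ) ∣ σ.ut.2 :=
    mt Int.natCast_dvd_natCast.1 (nm E1 fun e => d1 (e.mul_left _))
  have u2 : ¬(p : ℤ) ∣ σ.us.1 :=
    mt Int.natCast_dvd_natCast.1 (nm (nm E2 fun e => d2 (e.mul_left _)) q1)
  have Lt := (L σ.ut fun h => u1 h.2).2.2
  have Ls := (L σ.us fun h => u2 h.1).2.2
  refine ⟨?_, fun _ => ?_⟩
  · by_cases a : (p : ℤ) ∣ σ.af
    · rw [if_pos a, if_pos ((a.mul_left _).mul_left _)]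
      refine le_trans (S4.av_mono _ (g := fun g => θ * ind ((p : ℤ) ∣ ev (ρ.fm g) σ.ut))
        fun g _ => ?_) ?_
      · refine (mul_le_of_le_one_left (FMP_fv h0 h1 _ _ _ _).1 (FMP_al _ _ _ _).2).trans ?_
        rw [Pr.fv, if_neg hD', if_pos a]
        exact mul_le_mul_of_nonneg_left (ind_mono fun h => h.1) h0
      · rw [S4.av_mul]
        refine (mul_le_mul_of_nonneg_left (Lt.le.trans hr1) h0).trans ?_
        rw [mul_div_assoc, mul_div_assoc, div_eq_mul_one_div 12]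
        exact FMP_B hi hi' (mul_nonneg h0 hr0) hr ha (by linarith)
    by_cases b : (p : ℤ) ∣ (D1 * D2 : ℕ) * (σ.s * σ.t * σ.af)
    · exact triv a b
    rw [if_neg a, if_neg b, mul_one]
    have hs : ¬p ∣ σ.s := fun e =>
      b ((((Int.natCast_dvd_natCast.2 e).mul_right _).mul_right _).mul_left _)
    have ht : ¬p ∣ σ.t := fun e =>
      b ((((Int.natCast_dvd_natCast.2 e).mul_left _).mul_right _).mul_left _)
    have u3 : ¬(p : ℤ) ∣ σ.ut.1 := mt Int.natCast_dvd_natCast.1 (nm E2 ht)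
    have u4 : ¬(p : ℤ) ∣ σ.us.2 := mt Int.natCast_dvd_natCast.1 (nm E1 hs)
    have u5 : ¬(p : ℤ) ∣ det σ.us σ.ut := by
      rw [show det σ.us σ.ut = (σ.E1 * σ.E2 : ℕ) * σ.af by
        simp only [det, Sd.ut, Sd.us, Sd.af, Sd.a]; push_cast; ring]
      exact fun e => (hpi.dvd_or_dvd e).elim (mt Int.natCast_dvd_natCast.1 (nm E1 E2)) a
    have u6 : ¬(p : ℤ) ∣ det σ.ut σ.us := by
      rwa [show det σ.ut σ.us = -det σ.us σ.ut by simp only [det]; ring, dvd_neg]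
    have := (hLB ρ.A p (Q0 ρ.A) (Fin 4) univ ![(1, 0), (0, 1), σ.ut, σ.us] ![1, 1, 1 - θ, 1 - θ]
      hA1 (isF_Q0 _) hpp hAp (by simp) (fun i _ => by
        fin_cases i <;> simp [n1, u1, u2, h0, h1])).2 fun i _ j _ hij => by
          fin_cases i <;> fin_cases j <;>
            first | exact absurd rfl hij | exact u5 | exact u6 | simp [det, n1, u1, u2, u3, u4]
    refine ((S4.av_mono _ fun g _ => (FMP_pt h0 hpp σ hD' a _).trans_eq ?_).trans this).trans ?_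
    · simp [Fin.prod_univ_four, ev, Pr.fm]
    · have := FMP_D hi hi' h0 h1 hr0 hr ha
      simpa [Fin.sum_univ_four, mul_div_assoc, div_eq_mul_inv, mul_assoc] using this
  · refine (S4.av_mono _ fun g _ => FMP_or hpp _ _).trans ?_
    rw [S4.av_add]
    refine (add_le_add (Lt.le.trans hr1) (Ls.le.trans hr1)).trans ?_
    rw [mul_div_assoc, div_eq_mul_one_div 10]
    exact le_trans (by linarith) (FMP_E hi hi' hr ha (by linarith))

end Pool.Agent.P.MP_6f5b02_nt.Hy
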