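import Pool.Agent.P.MP_6f5b02_nt.Hy.IfG
import Pool.Agent.P.MP_8be758_nt.Pd.TFS

/-! Step FS. -/

namespace Pool.Agent.P.MP_6f5b02_nt.Hy

open Pool.Agent.P.MP_8be758_nt Pool.Agent.P.MP_8be758_nt.Pd
open Finset Real Filter
open Pool.Agent.P.MP_8be758_nt.Par (det)

theorem FS_hw (ρ : Pr) {Θ : ℝ} (h : 0 ≤ Θ) (k : ℤ) : 0 ≤ ρ.hw Θ k :=
  mul_nonneg (pow_nonneg h _) (by unfold ind; split_ifs <;> norm_num)

theorem p_FS (hFM : S_FM) (hSDS : S_SDS) (hHS : S_HS) :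
    S_FS := by
  obtain ⟨c1, h1⟩ := hFM
  obtain ⟨c2, h2⟩ := hSDS
  obtain ⟨c3, h3⟩ := hHS 2 one_le_two
  refine ⟨max c1 (max c2 c3), fun A C1 => ?_⟩
  obtain ⟨Cf, hCf, h1⟩ := h1 A C1
  obtain ⟨_, -, h2⟩ := h2 A C1
  obtain ⟨Ch, hCh, h3⟩ := h3 A C1
  refine ⟨Cf * Ch, one_le_mul_of_one_le_of_one_le hCf hCh, fun z hA hC hz => ?_⟩
  filter_upwards [h1 z hA hC (hz.mono (le_max_left _ _)),
    h2 z hA hC (hz.mono ((le_max_left _ _).trans (le_max_right _ _))),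
    h3 z hA hC (hz.mono ((le_max_right _ _).trans (le_max_right _ _))),
    eventually_gt_atTop 0] with y g1 g2 g3 hy
  intro q D1 D2 c0 θ p0 hAD hθ0 hθ1 hp
  set ρ : Pr := ⟨z, y⟩ with hρ
  have hy' : 0 < ρ.y := hy
  obtain ⟨s1, s2, s3, s4, s5⟩ := g2 q D1 D2 hAD.1 hAD.2.1
  have hsum : ∑ σ ∈ ρ.SD q D1 D2, ρ.hh θ σ.af ≤
      3 ^ ρ.om (D1 * D2 : ℕ) * (2 ^ ρ.U * (Ch * exp ((θ - 1) * ρ.La))) := by
    refine (sum_le_sum fun σ hσ => ((s4 σ hσ).2.2.2.2.2.2.2.2 θ hθ0).2).trans ?_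
    rw [s5 fun σ => 2 ^ ρ.U * (ρ.hw (2 * θ) σ.af / σ.af)]
    refine (sum_le_sum (g := fun _ => ∑ β ∈ Asg D2, 2 ^ ρ.U * (Ch * exp ((θ - 1) * ρ.La)))
      fun α hα => sum_le_sum fun β hβ => ?_).trans ?_
    · have hR := (s3 α hα β hβ 0).1
      have h4 := g3 _ _ (2 * θ) hR (by linarith) (by linarith)
      rw [show 2 * θ / 2 - 1 = θ - 1 by ring] at h4
      refine le_trans ?_ (mul_le_mul_of_nonneg_left h4 (by positivity))
      rw [mul_sum]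
      refine sum_le_sum fun v hv => ?_
      have h5 := ((mem_SR (half_pos hR.1)).1 hv).2.2.2.1
      have h6 : (0 : ℝ) ≤ ((((mkS q α β 0).a : ℤ) - v.1 * v.2 : ℤ) : ℝ) := by
        have : (0 : ℤ) ≤ ((mkS q α β 0).a : ℤ) := Int.natCast_nonneg _
        exact_mod_cast (show (0 : ℤ) ≤ ((mkS q α β 0).a : ℤ) - v.1 * v.2 by linarith)
      have h7 := div_nonneg (FS_hw ρ (Θ := 2 * θ) (by linarith)
        (((mkS q α β 0).a : ℤ) - v.1 * v.2)) h6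
      unfold ind
      split_ifs with h8
      · rw [one_mul, FS_af q α β h8.1 h8.2.1]
      · rw [zero_mul]; positivity
    · rw [sum_const, sum_const, smul_smul, s1, nsmul_eq_mul]
      push_cast
      exact le_rfl
  refine (sum_le_sum fun σ hσ => g1 q D1 D2 c0 θ p0 hAD hθ0 (by linarith) hp σ hσ).trans ?_
  rw [sum_add_distrib, sum_const, nsmul_eq_mul, ← mul_sum, ← sum_div, ← mul_sum]
  refine add_le_add ?_ ?_
  · have e : exp ((3 * θ - 3) * ρ.La) = exp (-(2 * (1 - θ)) * ρ.La) * exp ((θ - 1) * ρ.La) := by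
      rw [← exp_add]; congr 1; ring
    have e3 : (1 / 3 : ℝ) ^ ρ.om (D1 * D2 : ℕ) * 3 ^ ρ.om (D1 * D2 : ℕ) = 1 := by
      rw [← mul_pow]; norm_num
    calc _ ≤ Cf * (ρ.AT q D1 D2 c0).card * ((1 / 3) ^ ρ.om (D1 * D2 : ℕ) *
          exp (-(2 * (1 - θ)) * ρ.La) *
          (3 ^ ρ.om (D1 * D2 : ℕ) * (2 ^ ρ.U * (Ch * exp ((θ - 1) * ρ.La)))) / p0) := by
          have : 0 ≤ Cf := by linarith
          gcongr
      _ = ((1 / 3 : ℝ) ^ ρ.om (D1 * D2 : ℕ) * 3 ^ ρ.om (D1 * D2 : ℕ)) * (Cf * Ch * 2 ^ ρ.U *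
          (ρ.AT q D1 D2 c0).card * exp ((3 * θ - 3) * ρ.La) / p0) := by rw [e]; ring
      _ = _ := by rw [e3, one_mul]
  · have hX : 0 < ρ.X := pow_pos hy' _
    calc _ ≤ ρ.y ^ (4 * ρ.K') * ρ.Er 28 :=
          mul_le_mul_of_nonneg_right s2 (by unfold Pr.Er; positivity)
      _ = ρ.Er 24 := by
          unfold Pr.Er
          rw [show 28 * ρ.K' = 4 * ρ.K' + 24 * ρ.K' by ring, pow_add]
          field_simp

end Pool.Agent.P.MP_6f5b02_nt.Hy
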