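import Pool.Agent.P.MP_6f5b02_nt.Hy.IfT

/-! Step GCNT. -/

namespace Pool.Agent.P.MP_6f5b02_nt.Hy

open Pool.Agent.P.MP_8be758_nt Pool.Agent.P.MP_8be758_nt.Pd
open Finset Real Filter
open Pool.Agent.P.MP_8be758_nt.Par (det)
open Pool.Agent.P.MP_e86632_nt (ee)

theorem p_GCNT (hAREA : S_AREA) :
    S_GCNT := by
  intro A hA
  obtain ⟨c, C, -, hC, h⟩ := hAREA A hA
  refine ⟨4 * C, by positivity, fun ψ hψ Z β1 β2 hZ h1 h2 => ?_⟩
  have hF := hψ
  have hP : ∀ g ∈ GG ψ Z β1 β2, 0 < ev ψ g.1 := fun g hg => (isF_of_GG hA hF hg).2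
  have h3 : (GG ψ Z β1 β2).card ≤ (An ψ Z (2 * Z) ×ˢ Icc (0 : ℤ) ⌊β2⌋).card := by
    refine card_le_card_of_injOn (fun g => (g.1, bl ψ g.1 g.2 / ev ψ g.1)) (fun g hg => ?_) ?_
    · obtain ⟨a1, -, a2, a3, a4, a5⟩ := (mem_GG hA hF).1 hg
      have p := hP g hg
      have p' : (0 : ℝ) < ev ψ g.1 := Int.cast_pos.2 p
      have b0 : 0 < bl ψ g.1 g.2 := Int.cast_pos.1 ((mul_nonneg h1 p'.le).trans_lt a4)
      refine mem_coe.2 (mem_product.2 ⟨(mem_An hA hF).2 ⟨a1, a2, a3⟩, mem_Icc.2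
        ⟨Int.ediv_nonneg b0.le p.le, Int.le_floor.2 (le_of_mul_le_mul_right (le_trans ?_ a5) p')⟩⟩)
      exact_mod_cast Int.ediv_mul_le _ p.ne'
    · rintro ⟨v, w⟩ hg ⟨v', w'⟩ hg' e
      obtain ⟨rfl, e⟩ := Prod.mk.inj e
      have d := ((of_mem_GG hA hF) hg).1
      have d' := ((of_mem_GG hA hF) hg').1
      have p := hP _ hg
      simp only [det] at d d' e p
      have e1 : w'.1 = w.1 + det w' w * v.1 := by
        simp only [det]; linear_combination w.1 * d' - w'.1 * d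
      have e2 : w'.2 = w.2 + det w' w * v.2 := by
        simp only [det]; linear_combination w.2 * d' - w'.2 * d
      have e3 : bl ψ v w' = bl ψ v w + 2 * det w' w * ev ψ v := by
        generalize det w' w = k at *
        simp only [bl, ev]; rw [e1, e2]; ring
      rw [e3, Int.add_mul_ediv_right _ _ p.ne'] at e
      have e4 : det w' w = 0 := by omega
      rw [e4, zero_mul, add_zero] at e1 e2
      rw [Prod.ext e1 e2]
  have h4 := (h ψ hψ Z (2 * Z) (by linarith) (by linarith)).2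
  have h5 : √(2 * Z) ≤ 2 * Z := Real.sqrt_le_self_iff.2 (Or.inr (by linarith))
  have h6 : ((Icc (0 : ℤ) ⌊β2⌋).card : ℝ) ≤ 1 + β2 := by
    have := Int.floor_nonneg.2 h2
    rw [← Int.cast_natCast, Int.card_Icc, Int.toNat_of_nonneg (by omega)]
    push_cast
    linarith [Int.floor_le β2]
  rw [card_product] at h3
  calc ((GG ψ Z β1 β2).card : ℝ) ≤ (An ψ Z (2 * Z)).card * (Icc (0 : ℤ) ⌊β2⌋).card := by
        exact_mod_cast h3
    _ ≤ C * (4 * Z) * (1 + β2) :=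
        mul_le_mul (h4.trans (mul_le_mul_of_nonneg_left (by linarith) hC.le)) h6 (by positivity)
          (by positivity)
    _ = _ := by ring

end Pool.Agent.P.MP_6f5b02_nt.Hy
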