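import Pool.Agent.P.MP_6f5b02_nt.Hy.IfM

/-! Step GRAM. -/

namespace Pool.Agent.P.MP_6f5b02_nt.Hy

open Pool.Agent.P.MP_8be758_nt Pool.Agent.P.MP_8be758_nt.Pd
open Finset Real Filter
open Pool.Agent.P.MP_8be758_nt.Par (cj det)
open Pool.Agent.P.MP_6f5b02_nt.Hy.Par (nq mul eu un red)
open Pool.Agent.P.MP_6f5b02_nt.Hy.Mr

theorem p_GRAM :
    S_GRAM := by
  intro A G U d err hA hG h0 h
  have e : ((∑ v ∈ G, ‖Phi A U d v‖ ^ 2 - G.card * ∑ k ∈ U, ‖d k‖ ^ 2 : ℝ) : ℂ) =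
      ∑ k ∈ U, ∑ k' ∈ U, if k = k' then 0 else
        d k * (starRingEnd ℂ) (d k') * ∑ v ∈ G, ek A (k - k') v := by
    have e1 : ∀ v ∈ G, (‖Phi A U d v‖ : ℂ) ^ 2 =
        ∑ k ∈ U, ∑ k' ∈ U, d k * (starRingEnd ℂ) (d k') * ek A (k - k') v := fun v hv => by
      rw [← Complex.mul_conj', Phi, map_sum, sum_mul_sum]
      refine sum_congr rfl fun k _ => sum_congr rfl fun k' _ => ?_
      rw [map_mul, ← ek_mul_conj hA k k' (hG v hv)]
      ring
    push_cast
    rw [sum_congr rfl e1, sum_comm, mul_sum, ← sum_sub_distrib]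
    refine sum_congr rfl fun k hk => ?_
    rw [sum_comm, ← add_sum_erase _ _ hk, ← add_sum_erase _ _ hk, if_pos rfl]
    simp only [sub_self, ek_zero, mul_one, sum_const, nsmul_eq_mul, Complex.mul_conj', zero_add,
      add_sub_cancel_left]
    exact sum_congr rfl fun k' hk' => by rw [if_neg (ne_of_mem_erase hk').symm, mul_sum]
  rw [← Real.norm_eq_abs, ← Complex.norm_real, e]
  calc _ ≤ ∑ k ∈ U, ∑ k' ∈ U, err * (‖d k‖ * ‖d k'‖) := by
        refine norm_sum_le_of_le _ fun k hk => norm_sum_le_of_le _ fun k' hk' => ?_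
        split_ifs with e
        · rw [norm_zero]; positivity
        · rw [norm_mul, norm_mul, Complex.norm_conj, mul_comm]
          gcongr
          exact h k hk k' hk' e
    _ = err * (∑ k ∈ U, ‖d k‖) ^ 2 := by rw [sq, sum_mul_sum]; simp only [mul_sum]
    _ ≤ _ := by rw [mul_assoc]; gcongr; exact sq_sum_le_card_mul_sum_sq

end Pool.Agent.P.MP_6f5b02_nt.Hy
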