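import Pool.Agent.P.MP_6f5b02_nt.Hy.IfH
import Pool.Agent.P.MP_8be758_nt.Pd.THLM

/-! Step HLM. -/

namespace Pool.Agent.P.MP_6f5b02_nt.Hy

open Pool.Agent.P.MP_8be758_nt Pool.Agent.P.MP_8be758_nt.Pd
open Finset Real Filter
open Pool.Agent.P.MP_8be758_nt.Par (det)

/-- the Markov weights -/
noncomputable def HLM_c (ρ : Pr) (p : ℕ) : ℝ :=
  √ρ.w / p + log p / (2 * ρ.K * log ρ.y) + 1 / (ρ.K * ρ.La)

theorem HLM_parts (ρ : Pr) (hy : 1 < ρ.y) (hLa : 0 < ρ.La) (p : ℕ) :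
    0 ≤ √ρ.w / (p : ℝ) ∧ 0 ≤ log p / (2 * ρ.K * log ρ.y) ∧ 0 ≤ 1 / (ρ.K * ρ.La) := by
  have h1 := log_pos hy
  have h2 := log_natCast_nonneg p
  exact ⟨by positivity, by positivity, by positivity⟩

theorem HLM_pt (ρ : Pr) (hy : 1 < ρ.y) (hLa : 0 < ρ.La) (hK : 0 < ρ.K) (hw : 0 < ρ.w) (a k : ℤ)
    (t : ℕ) (hg : Int.gcd t a = 1) (ht : (t : ℤ) ∣ a - k) :
    1 - ind (ρ.Sz a k t) ≤ ∑ p ∈ ρ.Ps.filter (fun p => ¬p ∣ t),
      HLM_c ρ p * ind ((p : ℤ) ∣ k * (a - k)) := by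
  have hp := HLM_parts ρ hy hLa
  have hc : ∀ p, 0 ≤ HLM_c ρ p := fun p =>
    add_nonneg (add_nonneg (hp p).1 (hp p).2.1) (hp p).2.2
  have hKR : (0 : ℝ) < ρ.K := by exact_mod_cast hK
  have hwR : (0 : ℝ) < √ρ.w := sqrt_pos.2 (by exact_mod_cast hw)
  have hly := log_pos hy
  by_cases hS : ρ.Sz a k t
  · rw [ind_pos hS, sub_self]
    exact sum_nonneg fun p _ => mul_nonneg (hc p) (ind_nonneg _)
  rw [ind_neg hS, sub_zero]
  have h1 : ∀ p ∈ ρ.pf k, p ∈ ρ.Ps.filter (fun p => ¬p ∣ t) ∧ (p : ℤ) ∣ k * (a - k) := by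
    intro p hp
    obtain ⟨h2, h3⟩ := mem_pf.1 hp
    refine ⟨mem_filter.2 ⟨h2, fun h4 => ?_⟩, h3.mul_right _⟩
    have h5 : (p : ℤ) ∣ t := Int.natCast_dvd_natCast.2 h4
    have h6 : (p : ℤ) ∣ a := by
      have := dvd_add (h5.trans ht) h3
      rwa [sub_add_cancel] at this
    have h7 := Int.dvd_gcd h5 h6
    rw [hg] at h7
    exact (prime_of_PP h2).one_lt.ne' (Nat.dvd_one.1 h7)
  have h4 : ∀ S : Finset ℕ, (∀ p ∈ S, p ∈ ρ.Ps.filter (fun p => ¬p ∣ t) ∧ (p : ℤ) ∣ k * (a - k)) →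
      1 / √ρ.w < ∑ p ∈ S, (1 : ℝ) / p → 1 ≤ ∑ p ∈ ρ.Ps.filter (fun p => ¬p ∣ t),
        HLM_c ρ p * ind ((p : ℤ) ∣ k * (a - k)) := by
    intro S h2 h3
    refine le_trans ?_ (HLM_sub _ S _ (fun p => √ρ.w / p) _ hc h2 fun p => ?_)
    · rw [div_lt_iff₀ hwR, sum_mul] at h3
      refine h3.le.trans (le_of_eq (sum_congr rfl fun p _ => by ring))
    · have := hp p
      unfold HLM_c
      linarith [this.2.1, this.2.2]
  unfold Pr.Sz at hS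
  simp only [not_and_or, not_le] at hS
  rcases hS with h | h | h | h
  · refine le_trans ?_ (HLM_sub _ (ρ.pf k) _ (fun p => log p / (2 * ρ.K * log ρ.y)) _ hc h1
      fun p => ?_)
    · rw [← sum_div, le_div_iff₀ (by positivity), one_mul]
      have h5 := log_lt_log (by positivity) h
      rw [log_pow, Pr.fl, Nat.cast_prod, log_prod fun p hp => by
        exact_mod_cast (prime_of_PP (mem_pf.1 hp).1).ne_zero] at h5
      push_cast at h5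
      exact h5.le
    · have := hp p
      unfold HLM_c
      linarith [this.1, this.2.2]
  · refine le_trans ?_ (HLM_sub _ (ρ.pf k) _ (fun _ => 1 / (ρ.K * ρ.La)) _ hc h1 fun p => ?_)
    · rw [sum_const, nsmul_eq_mul, mul_one_div, le_div_iff₀ (by positivity), one_mul]
      exact h.le
    · have := hp p
      unfold HLM_c
      linarith [this.1, this.2.1]
  · exact h4 _ h1 h
  · refine h4 _ (fun p hp => ?_) h
    obtain ⟨h2, h3⟩ := mem_filter.1 hp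
    obtain ⟨h5, h6⟩ := mem_pf.1 h2
    exact ⟨mem_filter.2 ⟨h5, h3⟩, h6.mul_left _⟩

theorem HLM_s1 (ρ : Pr) (hy : 2 ≤ ρ.y) (hLa : 1 ≤ ρ.La) (hK : 1 ≤ ρ.K) (hw : 1 ≤ ρ.w) :
    ∑ p ∈ ρ.Ps, HLM_c ρ p ≤ 6 * ρ.y := by
  have hKR : (1 : ℝ) ≤ ρ.K := by exact_mod_cast hK
  have hwR : (1 : ℝ) ≤ ρ.w := by exact_mod_cast hw
  have hly : 0 < log ρ.y := log_pos (by linarith)
  have h1 : ∀ p ∈ ρ.Ps, HLM_c ρ p ≤ 3 := by
    intro p hp
    obtain ⟨h2, h3, h4⟩ := (mem_PP (by linarith)).1 hp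
    have h5 : (0 : ℝ) < p := by linarith
    have h6 : √ρ.w / (p : ℝ) ≤ 1 := by
      rw [div_le_one h5]
      refine le_trans ?_ h3.le
      rw [sqrt_le_left (by linarith)]
      nlinarith
    have h7 : log p / (2 * ρ.K * log ρ.y) ≤ 1 := by
      rw [div_le_one (by positivity)]
      have := log_le_log h5 h4
      nlinarith
    have h8 : 1 / (ρ.K * ρ.La) ≤ 1 := by
      rw [div_le_one (by positivity)]
      nlinarith
    unfold HLM_c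
    linarith
  have h2 : (ρ.Ps.card : ℝ) ≤ 2 * ρ.y := by
    have h3 : ρ.Ps.card ≤ ⌊ρ.y⌋₊ + 1 := (card_filter_le _ _).trans (card_range _).le
    have h4 : (ρ.Ps.card : ℝ) ≤ ⌊ρ.y⌋₊ + 1 := by exact_mod_cast h3
    have := Nat.floor_le (show 0 ≤ ρ.y by linarith)
    linarith
  have h3 := sum_le_card_nsmul _ _ _ h1
  rw [nsmul_eq_mul] at h3
  linarith

theorem HLM_s2 (ρ : Pr) (C CM : ℝ) (hy : 2 ≤ ρ.y) (hC : 1 ≤ C) (hLa : C ≤ ρ.La) (hCM : 0 < CM)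
    (hK : 200 * (CM + 4) ≤ ρ.K) (hw : 10000 ≤ ρ.w)
    (h1 : ∑ p ∈ ρ.Ps, (1 : ℝ) / p ≤ ρ.La + C) (h2 : ∑ p ∈ ρ.Ps, (1 : ℝ) / p ^ 2 ≤ 1 / ρ.w)
    (h3 : ∑ p ∈ ρ.Ps, log p / p ≤ CM * log ρ.y) :
    ∑ p ∈ ρ.Ps, HLM_c ρ p / p ≤ 1 / 40 := by
  have hwR : (10000 : ℝ) ≤ ρ.w := by exact_mod_cast hw
  have hKR : (0 : ℝ) < ρ.K := by linarith
  have hly : 0 < log ρ.y := log_pos (by linarith)
  have hL : 0 < ρ.La := by linarith
  have e : ∑ p ∈ ρ.Ps, HLM_c ρ p / p = √ρ.w * ∑ p ∈ ρ.Ps, (1 : ℝ) / p ^ 2 +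
      (∑ p ∈ ρ.Ps, log p / p) / (2 * ρ.K * log ρ.y) + (∑ p ∈ ρ.Ps, (1 : ℝ) / p) / (ρ.K * ρ.La) := by
    rw [mul_sum, sum_div, sum_div, ← sum_add_distrib, ← sum_add_distrib]
    refine sum_congr rfl fun p _ => ?_
    unfold HLM_c
    ring
  have h4 : √ρ.w * ∑ p ∈ ρ.Ps, (1 : ℝ) / p ^ 2 ≤ 1 / 100 := by
    refine (mul_le_mul_of_nonneg_left h2 (sqrt_nonneg _)).trans ?_
    rw [mul_one_div, div_le_iff₀ (by linarith), sqrt_le_left (by linarith)]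
    nlinarith
  have h5 : (∑ p ∈ ρ.Ps, log p / p) / (2 * ρ.K * log ρ.y) ≤ CM / (2 * ρ.K) := by
    rw [div_le_iff₀ (by positivity)]
    refine h3.trans (le_of_eq ?_)
    field_simp
  have h6 : (∑ p ∈ ρ.Ps, (1 : ℝ) / p) / (ρ.K * ρ.La) ≤ 2 / ρ.K := by
    rw [div_le_iff₀ (by positivity)]
    refine h1.trans ?_
    have : 2 / (ρ.K : ℝ) * (ρ.K * ρ.La) = 2 * ρ.La := by field_simp
    linarith
  have h7 : CM / (2 * ρ.K) + 2 / ρ.K ≤ 1 / 400 := by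
    have : CM / (2 * ρ.K) + 2 / (ρ.K : ℝ) = (CM + 4) / (2 * ρ.K) := by field_simp; ring
    rw [this, div_le_iff₀ (by positivity)]
    linarith
  linarith

theorem p_HLM (hHLM1 : S_HLM1) (hHLM2 : S_HLM2) (hHF : S_HF) (hML : S_ML) (hLAM : S_LAM) :
    S_HLM := by
  obtain ⟨c1, H1⟩ := hHLM1
  obtain ⟨c2, H2⟩ := hHLM2
  obtain ⟨c3, H3⟩ := hHF
  obtain ⟨c4, H4⟩ := hLAM
  obtain ⟨CM, hCM, H5⟩ := hML
  obtain ⟨c, hc1, hc2, hc3, hc4, hc5, hc6⟩ : ∃ c : ℕ, c1 ≤ c ∧ c2 ≤ c ∧ c3 ≤ c ∧ c4 ≤ c ∧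
      10000 ≤ c ∧ 200 * (CM + 4) ≤ c := by
    obtain ⟨n, hn⟩ := exists_nat_ge (200 * (CM + 4))
    refine ⟨max (max (max c1 c2) (max c3 c4)) (max 10000 n), by simp, by simp, by simp, by simp,
      by simp, hn.trans (by exact_mod_cast (by simp))⟩
  refine ⟨c, fun A C1 => ?_⟩
  obtain ⟨_, -, H1⟩ := H1 A C1
  obtain ⟨C2, hC2, H2⟩ := H2 A C1
  obtain ⟨_, -, H3⟩ := H3 A C1
  obtain ⟨C4, hC4, H4⟩ := H4 A C1
  refine ⟨4 * C2, by linarith, fun z hA hC hB => ?_⟩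
  have e1 := H1 z hA hC (hB.mono hc1)
  have e2 := H2 z hA hC (hB.mono hc2)
  have e3 := H3 z hA hC (hB.mono hc3)
  have e4 := H4 z hA hC (hB.mono hc4)
  obtain ⟨-, -, -, -, hw, hK, hk2, hk3, hk4, -⟩ := hB
  have hw' : 10000 ≤ z.w := hc5.trans hw
  have hK1 : 1 ≤ z.K := by omega
  have hK2 : 200 * (CM + 4) ≤ z.K := hc6.trans (by exact_mod_cast hK)
  have hk : 0 < z.k4 := by
    have : 0 < c * (z.k2 + z.K) := Nat.mul_pos (by omega) (by omega)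
    omega
  have hlw : 0 < log z.w := log_pos (by exact_mod_cast (by omega : 1 < z.w))
  set L : ℝ := (z.k4 : ℝ) ^ 4 * log z.w ^ 12 with hL
  have hL0 : 0 < L := by positivity
  have e5 : ∀ᶠ y : ℝ in atTop, C4 * log z.w * exp C4 < log y :=
    tendsto_log_atTop.eventually (eventually_gt_atTop _)
  have e6 : ∀ᶠ y : ℝ in atTop, ‖log y‖ ≤ 1 / (28 * C4 * C2 * L) * ‖y‖ :=
    isLittleO_log_id_atTop.def (by positivity)
  filter_upwards [e1, e2, e3, e4, e5, e6, eventually_ge_atTop 2] with y e1 e2 e3 e4 e5 e6 hy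
  intro ψ a D t Bd cl hH
  set ρ : Pr := ⟨z, y⟩ with hρ
  obtain ⟨f1, f2⟩ := e1 ψ a D t Bd cl hH
  have f3 := e2 ψ a D t Bd hH
  have f4 := e3 ψ a D t Bd hH
  obtain ⟨g1, g2, g3, -, -, g4, -⟩ := e4
  obtain ⟨-, -, ha, -, hsq, -, hg, -⟩ := hH
  have hy' : 2 ≤ ρ.y := hy
  have hly : 0 < log y := log_pos (by linarith)
  have hLa : C4 ≤ ρ.La := by
    by_contra h
    have h1 : C4 * log z.w * exp ρ.La ≤ C4 * log z.w * exp C4 :=
      mul_le_mul_of_nonneg_left (exp_le_exp.2 (not_le.1 h).le) (by positivity)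
    exact absurd (g3.trans h1) (not_le.2 e5)
  have ha0 : (0 : ℝ) < a := lt_of_lt_of_le (by positivity) ha
  have ht0 : (0 : ℝ) < t := by exact_mod_cast Nat.pos_of_ne_zero hsq.ne_zero
  have hp := HLM_parts ρ (by linarith) (by linarith)
  have hc : ∀ p, 0 ≤ HLM_c ρ p := fun p =>
    add_nonneg (add_nonneg (hp p).1 (hp p).2.1) (hp p).2.2
  change a / t * exp (-(5 / 6) * ρ.La) / (C2 * L) ≤ _ at f3
  change a / t * exp (-(5 / 6) * ρ.La) / (4 * C2 * L) ≤ _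
  have hN : 0 ≤ ρ.Nv ψ a D t Bd := le_trans (by positivity) f3
  have h5 : 28 * (ρ.y * (a / (t * ρ.y ^ 2))) ≤ ρ.Nv ψ a D t Bd := by
    refine le_trans ?_ f3
    change 28 * (y * (a / (t * y ^ 2))) ≤ _
    have hy0 : 0 < y := by linarith
    rw [norm_of_nonneg hly.le, norm_of_nonneg hy0.le, one_div_mul_eq_div,
      le_div_iff₀ (by positivity)] at e6
    have h1 : 1 ≤ exp (-(5 / 6) * ρ.La) * (C4 * log y) := by
      refine le_trans ?_ (mul_le_mul_of_nonneg_left g2 (exp_pos _).le)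
      rw [← exp_add]
      exact one_le_exp (by linarith)
    have h2 : 28 * (C2 * L) ≤ exp (-(5 / 6) * ρ.La) * y := by
      have h3 := mul_le_mul_of_nonneg_left e6 (exp_pos (-(5 / 6) * ρ.La)).le
      have h4 := mul_le_mul_of_nonneg_left h1 (show 0 ≤ 28 * (C2 * L) by positivity)
      nlinarith
    have e : 28 * (y * (a / (t * y ^ 2))) = a / t * (28 / y) := by field_simp
    rw [e, mul_div_assoc]
    refine mul_le_mul_of_nonneg_left ?_ (by positivity)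
    rw [div_le_div_iff₀ hy0 (by positivity)]
    exact h2
  have key := HLM_main (Bx ρ.A ψ a) (ρ.Ps.filter fun p => ¬p ∣ t) (ρ.Ph ψ a D t Bd cl)
    (fun v => ind (ρ.Sz a (ev ψ v) t)) (HLM_c ρ)
    (fun p v => ind ((p : ℤ) ∣ ev ψ v * (a - ev ψ v))) (ρ.Nv ψ a D t Bd) (a / (t * ρ.y ^ 2)) ρ.y
    (fun v => mul_nonneg (ind_nonneg _) (prod_nonneg fun p hp => by
      have h1 := (mem_filter.1 hp).1
      exact ((f4 p (prime_of_PP h1) (by exact_mod_cast lt_of_PP h1)).2.1 v).1)) hc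
    (fun v hv => HLM_pt ρ (by linarith) (by linarith) hK1 (show 0 < z.w by omega) a _ t hg (by
      by_contra h
      exact hv (by rw [Pr.Ph, ind_neg fun h' => h h'.2, zero_mul])))
    f1 (fun p hp => f2 p (mem_filter.1 hp).1 (mem_filter.1 hp).2)
    (le_trans (sum_le_sum_of_subset_of_nonneg (filter_subset _ _) fun p _ _ => hc p)
      (HLM_s1 ρ hy' (by linarith) hK1 (show 1 ≤ z.w by omega)))
    (le_trans (sum_le_sum_of_subset_of_nonneg (filter_subset _ _) fun p _ _ =>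
        div_nonneg (hc p) (Nat.cast_nonneg p))
      (HLM_s2 ρ C4 CM hy' hC4 hLa hCM hK2 hw' (by linarith [(abs_le.1 g1).2]) g4 (H5 _ _ hy')))
    hN (by positivity) (by linarith) h5
  refine le_trans ?_ key
  rw [le_div_iff₀ (by norm_num)]
  refine le_trans (le_of_eq ?_) f3
  field_simp

end Pool.Agent.P.MP_6f5b02_nt.Hy
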