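import Pool.Agent.P.MP_6f5b02_nt.Hy.IfH
import Pool.Agent.P.MP_8be758_nt.Pd.THLM1

/-! Step HLM1. -/

namespace Pool.Agent.P.MP_6f5b02_nt.Hy

open Pool.Agent.P.MP_8be758_nt Pool.Agent.P.MP_8be758_nt.Pd
open Finset Real Filter
open Pool.Agent.P.MP_8be758_nt.Par (det)

theorem HLM1_box (hBOX : S_BOX) {A : ℕ} (hA : 5 ≤ A) {ψ : Fm} (hψ : 1 ≤ ψ.1) {a : ℝ} (ha : 0 ≤ a)
    {Mx : ℝ} (hM : 0 ≤ Mx) :
    S2.Equi (Bx A ψ a) (fun _ => 1) (Bx A ψ a).card Mx (4 * Mx * √a) := by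
  have h1 : (1 : ℝ) ≤ ψ.1 := by exact_mod_cast hψ
  have hA' : (1 : ℝ) ≤ A := by exact_mod_cast (by omega : 1 ≤ A)
  have b1 : ⌊√(11 / 20 * a / ψ.1)⌋ ≤ ⌊√(3 / 5 * a / ψ.1)⌋ :=
    Int.floor_mono (sqrt_le_sqrt (div_le_div_of_nonneg_right (by linarith) (by linarith)))
  have b2 : (0 : ℤ) ≤ ⌊√a / (100 * A)⌋ := Int.floor_nonneg.2 (by positivity)
  intro M f h0 hle hp hb
  refine (hBOX.2.1 _ _ _ _ Mx b1 b2 M f h0 hle hp hb).trans ?_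
  have c1 : ((⌊√(3 / 5 * a / ψ.1)⌋ : ℤ) : ℝ) ≤ √a := (Int.floor_le _).trans
    (sqrt_le_sqrt ((div_le_self (by positivity) h1).trans (by linarith)))
  have c2 : (0 : ℝ) ≤ ((⌊√(11 / 20 * a / ψ.1)⌋ : ℤ) : ℝ) := by
    exact_mod_cast Int.floor_nonneg.2 (sqrt_nonneg _)
  have c3 : ((⌊√a / (100 * A)⌋ : ℤ) : ℝ) ≤ √a := (Int.floor_le _).trans
    (div_le_self (sqrt_nonneg _) (by linarith))
  push_cast
  nlinarith

theorem p_HLM1 (hOK : S_OK) (hPROD : S_PROD) (hMC : S_MC) (hBOX : S_BOX) (hCON2 : S_CON2) (hHF : S_HF) :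
    S_HLM1 := by
  obtain ⟨C1, hMC⟩ := hMC 6
  obtain ⟨c1, hHF⟩ := hHF
  refine ⟨c1 + (24 + 12 * C1), fun A C0 => ⟨1, le_rfl, fun z e1 e2 hb => ?_⟩⟩
  obtain ⟨_, -, hHF⟩ := hHF A C0
  filter_upwards [hHF z e1 e2 (hb.mono (Nat.le_add_right _ _)), eventually_ge_atTop (4 : ℝ),
    eventually_ge_atTop ((∏ p ∈ PP 0 (4 * z.A), p ^ 2 : ℕ) : ℝ)] with y hF hy hyM
  intro ψ a D t Bd cl hH
  specialize hF ψ a D t Bd hH
  obtain ⟨-, hA3, -, hw, -, -, b1, b2, b3, b4, -⟩ := hb.mono (Nat.le_add_left _ _)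
  obtain ⟨hψ, -, ha, -, hsq, htw, -, -, ht, -⟩ := hH
  have hIs : IsF z.A ψ := (mem_filter.1 hψ).2
  have hk4 : 1 ≤ z.k4 := by nlinarith
  have hy0 : (0 : ℝ) < y := by linarith
  have ha0 : (0 : ℝ) ≤ a := (pow_nonneg hy0.le _).trans ha
  have ht0 : 0 < t := Nat.pos_of_ne_zero hsq.ne_zero
  have hyk : y ≤ y ^ z.k4 := le_self_pow₀ (by linarith) (by omega)
  have hmem : ∀ p, p ∈ Pr.hP ⟨z, y⟩ t ↔ (p.Prime ∧ 4 * z.A < p ∧ (p : ℝ) ≤ y ^ z.k4) ∧ ¬p ∣ t := by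
    intro p
    simp only [Pr.hP, mem_filter]
    rw [mem_PP (by positivity)]
    have : (4 * (z.A : ℝ) < p) ↔ 4 * z.A < p := by norm_cast
    rw [this]
  have core : ∀ (M0 : ℕ) (f0 : V2 → ℝ) (P : Finset ℕ), 0 < M0 → (M0 : ℝ) ≤ y ^ (5 * z.k4) →
      S2.Per M0 f0 → (∀ x, 0 ≤ f0 x ∧ f0 x ≤ 1) → P ⊆ Pr.hP ⟨z, y⟩ t → (∀ p ∈ P, M0.Coprime p) →
      |∑ x ∈ Bx z.A ψ a, f0 x * ∏ p ∈ P, Pr.hf ⟨z, y⟩ ψ a D Bd p x - (Bx z.A ψ a).card *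
        (S2.av M0 f0 * ∏ p ∈ P, S2.av (p ^ 2) (Pr.hf ⟨z, y⟩ ψ a D Bd p))| ≤ (Bx z.A ψ a).card *
        (S2.av M0 f0 * ∏ p ∈ P, S2.av (p ^ 2) (Pr.hf ⟨z, y⟩ ψ a D Bd p)) / 4 + a / (t * y ^ 2) := by
    intro M0 f0 P h0 hM hper hf hP hco
    have h := hMC V2 S2 (Bx z.A ψ a) (fun _ => 1) _ (y ^ ((5 + 4 * C1) * z.k4)) _ (y ^ z.k4) 2 2 M0 P
      f0 (Pr.hf ⟨z, y⟩ ψ a D Bd) hOK.2.1 (HLM1_box hBOX (by omega) hIs.2 ha0 (by positivity))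
      (fun _ _ => zero_le_one) (Nat.cast_nonneg _) (by positivity) (by norm_num) (by linarith) h0
      hper hf (fun p hp => by
        obtain ⟨⟨p1, p2, p3⟩, -⟩ := (hmem p).1 (hP hp)
        obtain ⟨q1, q2, q3, -⟩ := hF p p1 p2
        exact ⟨p1, p3, by omega, hco p hp, q1, q2, by exact_mod_cast q3⟩)
      (by
        calc (M0 : ℝ) * (y ^ z.k4) ^ (C1 * 2 * 2) ≤ y ^ (5 * z.k4) * (y ^ z.k4) ^ (C1 * 2 * 2) := by
              gcongr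
          _ = _ := by ring)
    simp only [one_mul] at h
    refine h.trans (add_le_add (le_of_eq (by norm_num)) ?_)
    exact HLM1_err hy ha (by exact_mod_cast ht0) ht b4 hk4
  obtain ⟨f1, f2⟩ := HLM1_f0 hOK hPROD z.A ψ a hsq (fun p hp hd => by
    have := htw p hp hd
    exact lt_of_le_of_lt hw this) cl
  set M0 := (∏ p ∈ PP 0 (4 * z.A), p ^ 2) * t with hM0
  set f0 : V2 → ℝ := fun v =>
    ind ((∀ p ∈ PP 0 (4 * z.A), C2 (p ^ 2) v (cl p)) ∧ (t : ℤ) ∣ a - ev ψ v) with hf0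
  have m0 : 0 < M0 := Nat.mul_pos (prod_pos fun p hp => pow_pos (prime_of_PP hp).pos _) ht0
  have m1 : (M0 : ℝ) ≤ y * y ^ (2 * z.k4) := by
    rw [hM0, Nat.cast_mul]
    exact mul_le_mul hyM ht (Nat.cast_nonneg _) hy0.le
  have m2 : ∀ p ∈ Pr.hP ⟨z, y⟩ t, M0.Coprime p := by
    intro p hp
    obtain ⟨⟨p1, p2, -⟩, p3⟩ := (hmem p).1 hp
    refine Nat.Coprime.mul_left (Nat.Coprime.prod_left fun q hq => Nat.Coprime.pow_left 2 ?_)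
      ((Nat.Prime.coprime_iff_not_dvd p1).2 p3).symm
    refine (Nat.coprime_primes (prime_of_PP hq) p1).2 fun e => ?_
    have c2 := ((mem_PP (by positivity)).1 hq).2.2
    have c3 : q ≤ 4 * z.A := by exact_mod_cast c2
    omega
  have hfb : ∀ x, 0 ≤ f0 x ∧ f0 x ≤ 1 := fun x => ⟨ind_nonneg _, ind_le_one _⟩
  have hNv : Pr.Nv ⟨z, y⟩ ψ a D t Bd = (Bx z.A ψ a).card * (S2.av M0 f0 *
      ∏ p ∈ Pr.hP ⟨z, y⟩ t, S2.av (p ^ 2) (Pr.hf ⟨z, y⟩ ψ a D Bd p)) := by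
    rw [f2]
    simp only [Pr.Nv]
    ring
  constructor
  · have h := core M0 f0 _ m0 (m1.trans (by
      rw [← pow_succ']
      exact pow_le_pow_right₀ (by linarith) (by omega))) f1 hfb Subset.rfl m2
    rw [← hNv] at h
    have h' := (abs_le.1 h).1
    show _ ≤ ∑ x ∈ Bx z.A ψ a, f0 x * ∏ p ∈ Pr.hP ⟨z, y⟩ t, Pr.hf ⟨z, y⟩ ψ a D Bd p x
    show 3 / 4 * Pr.Nv ⟨z, y⟩ ψ a D t Bd - a / (t * y ^ 2) ≤ _
    linarith
  intro p0 hp0 hn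
  obtain ⟨p1, p2, p3⟩ := (mem_PP hy0.le).1 hp0
  have p4 : 4 * z.A < p0 := lt_of_le_of_lt hw (by exact_mod_cast p2)
  have p5 : p0 ∈ Pr.hP ⟨z, y⟩ t := (hmem p0).2 ⟨⟨p1, p4, p3.trans hyk⟩, hn⟩
  have p6 : (12 : ℝ) ≤ p0 := by exact_mod_cast (by omega : 12 ≤ p0)
  have p7 : (0 : ℝ) < p0 := by linarith
  set g : V2 → ℝ := fun v => ind ((p0 : ℤ) ∣ ev ψ v * (a - ev ψ v)) with hg
  have g1 := hPROD V2 S2 {p0} (fun p => p ^ 2) M0 f0 (fun _ => g) hOK.2.1 m0 f1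
    (fun p hp => by
      rw [mem_singleton.1 hp]
      refine ⟨pow_pos p1.pos _, (m2 p0 p5).pow_right 2, fun v w e => ?_⟩
      have e' := HLM1_ev ψ (show C2 (p0 ^ 2) v w from e)
      have d1 : (p0 : ℤ) ∣ ((p0 ^ 2 : ℕ) : ℤ) := by push_cast; exact dvd_pow_self _ two_ne_zero
      simp only [hg, dvd_iff_of_modEq (e'.mul (e'.sub_left a)) d1])
    fun p hp q hq hne => absurd ((mem_singleton.1 hp).trans (mem_singleton.1 hq).symm) hne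
  simp only [prod_singleton] at g1
  have g2 : S2.av (p0 ^ 2) g ≤ 4 / p0 := by
    have c := (hCON2 z.A p0 ψ (by omega) hIs p1 p4).1
    have hz : Prime (p0 : ℤ) := Nat.prime_iff_prime_int.1 p1
    calc S2.av (p0 ^ 2) g ≤ S2.av (p0 ^ 2) fun v =>
          ind ((p0 : ℤ) ∣ ev ψ v - 0) + ind ((p0 : ℤ) ∣ ev ψ v - a) := by
          refine S2.av_mono _ fun v _ => ?_
          by_cases h : (p0 : ℤ) ∣ ev ψ v * (a - ev ψ v)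
          · rcases hz.dvd_or_dvd h with h1 | h1
            · rw [ind_pos (show (p0 : ℤ) ∣ ev ψ v - 0 by simpa using h1)]
              linarith [ind_nonneg ((p0 : ℤ) ∣ ev ψ v - a), ind_le_one ((p0 : ℤ) ∣ ev ψ v * (a - ev ψ v))]
            · rw [ind_pos (show (p0 : ℤ) ∣ ev ψ v - a from dvd_sub_comm.1 h1)]
              linarith [ind_nonneg ((p0 : ℤ) ∣ ev ψ v - 0), ind_le_one ((p0 : ℤ) ∣ ev ψ v * (a - ev ψ v))]
          · simp only [hg, ind_neg h]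
            exact add_nonneg (ind_nonneg _) (ind_nonneg _)
      _ ≤ 2 / p0 + 2 / p0 := by rw [S2.av_add]; exact add_le_add (c 0) (c a)
      _ = 4 / p0 := by ring
  have h := core (M0 * p0 ^ 2) (fun x => f0 x * g x) ((Pr.hP ⟨z, y⟩ t).erase p0)
    (Nat.mul_pos m0 (pow_pos p1.pos _)) (by
      push_cast
      calc (M0 : ℝ) * (p0 : ℝ) ^ 2 ≤ y * y ^ (2 * z.k4) * y ^ 2 := by gcongr
        _ = y ^ (2 * z.k4 + 3) := by ring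
        _ ≤ _ := pow_le_pow_right₀ (by linarith) (by omega)) g1.1
    (fun x => ⟨mul_nonneg (hfb x).1 (ind_nonneg _),
      mul_le_one₀ (hfb x).2 (ind_nonneg _) (ind_le_one _)⟩) (erase_subset _ _)
    fun p hp => Nat.Coprime.mul_left (m2 p (mem_of_mem_erase hp)) (Nat.Coprime.pow_left 2
      ((Nat.coprime_primes p1 ((hmem p).1 (mem_of_mem_erase hp)).1.1).2 (ne_of_mem_erase hp).symm))
  rw [g1.2] at h
  have h' := (abs_le.1 h).2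
  have hnn : ∀ p ∈ (Pr.hP ⟨z, y⟩ t).erase p0, ∀ v, 0 ≤ Pr.hf ⟨z, y⟩ ψ a D Bd p v := fun p hp v => by
    obtain ⟨⟨q1, q2, -⟩, -⟩ := (hmem p).1 (mem_of_mem_erase hp)
    exact ((hF p q1 q2).2.1 v).1
  obtain ⟨-, q2, q3, -⟩ := hF p0 p1 p4
  have s1 : ∑ v ∈ Bx z.A ψ a, Pr.Ph ⟨z, y⟩ ψ a D t Bd cl v * g v ≤ ∑ x ∈ Bx z.A ψ a,
      f0 x * g x * ∏ p ∈ (Pr.hP ⟨z, y⟩ t).erase p0, Pr.hf ⟨z, y⟩ ψ a D Bd p x := by
    refine sum_le_sum fun v _ => ?_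
    show (f0 v * ∏ p ∈ Pr.hP ⟨z, y⟩ t, Pr.hf ⟨z, y⟩ ψ a D Bd p v) * g v ≤ _
    rw [← mul_prod_erase _ _ p5]
    have r1 := mul_nonneg (mul_nonneg (hfb v).1 (ind_nonneg ((p0 : ℤ) ∣ ev ψ v * (a - ev ψ v))))
      (prod_nonneg fun p hp => hnn p hp v)
    have r2 := mul_le_mul_of_nonneg_left (q2 v).2 r1
    simp only [hg]
    linarith
  set R := ∏ p ∈ (Pr.hP ⟨z, y⟩ t).erase p0, S2.av (p ^ 2) (Pr.hf ⟨z, y⟩ ψ a D Bd p) with hR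
  have r0 : 0 ≤ ((Bx z.A ψ a).card : ℝ) * S2.av M0 f0 * R :=
    mul_nonneg (mul_nonneg (Nat.cast_nonneg _) (S2.av_nonneg _ fun x => (hfb x).1))
      (prod_nonneg fun p hp => S2.av_nonneg _ (hnn p hp))
  have r1 : 1 / 2 ≤ S2.av (p0 ^ 2) (Pr.hf ⟨z, y⟩ ψ a D Bd p0) := by
    have : (6 : ℝ) / p0 ≤ 1 / 2 := by rw [div_le_iff₀ p7]; linarith
    linarith
  have r2 : ((Bx z.A ψ a).card : ℝ) * S2.av M0 f0 * R * (1 / 2) ≤ Pr.Nv ⟨z, y⟩ ψ a D t Bd := by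
    rw [hNv, ← mul_prod_erase _ _ p5, ← hR]
    have := mul_le_mul_of_nonneg_left r1 r0
    linarith
  have r3 := mul_le_mul_of_nonneg_left g2 r0
  have r4 := mul_le_mul_of_nonneg_right r2 (show 0 ≤ 10 / (p0 : ℝ) by positivity)
  show ∑ v ∈ Bx z.A ψ a, Pr.Ph ⟨z, y⟩ ψ a D t Bd cl v * g v ≤
    10 * Pr.Nv ⟨z, y⟩ ψ a D t Bd / p0 + a / (t * y ^ 2)
  have r5 : 10 * Pr.Nv ⟨z, y⟩ ψ a D t Bd / p0 = Pr.Nv ⟨z, y⟩ ψ a D t Bd * (10 / p0) := by ring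
  have r6 : ((Bx z.A ψ a).card : ℝ) * S2.av M0 f0 * R * (1 / 2) * (10 / p0) =
      5 / 4 * (((Bx z.A ψ a).card : ℝ) * S2.av M0 f0 * R * (4 / p0)) := by ring
  linarith

end Pool.Agent.P.MP_6f5b02_nt.Hy
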