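import Pool.Agent.P.MP_6f5b02_nt.Hy.IfH
import Pool.Agent.P.MP_8be758_nt.Pd.THLV

/-! Step HLV. -/

namespace Pool.Agent.P.MP_6f5b02_nt.Hy

open Pool.Agent.P.MP_8be758_nt Pool.Agent.P.MP_8be758_nt.Pd
open Finset Real Filter
open Pool.Agent.P.MP_8be758_nt.Par (det)

theorem HLV_small {P R a b k s t s0 t0 : ℤ} {l : V2} {p : ℕ} (hp : p.Prime) (ha : ¬(p : ℤ) ∣ a)
    (hL : LW P R a b p s0 t0 l) (hk : k ≡ ev (1, 1, -4) l [ZMOD (p ^ 2 : ℕ)])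
    (ht : t ≡ t0 [ZMOD (p ^ 2 : ℕ)]) (hs : a - s * t = k) :
    ¬(p : ℤ) ∣ k ∧ ¬(p : ℤ) ^ 2 ∣ a * R + b * t + P * t ^ 2 ∧
      (¬(p : ℤ) ^ 2 ∣ a * P + b * s + R * s ^ 2 ∨ ¬(p : ℤ) ∣ R) := by
  obtain ⟨l1, l2, l3, l4, l5⟩ := hL
  have hpp : (p : ℤ) ^ 2 ∣ ((p ^ 2 : ℕ) : ℤ) := by push_cast; exact dvd_rfl
  have hp1 : (p : ℤ) ∣ ((p ^ 2 : ℕ) : ℤ) := by push_cast; exact dvd_pow_self _ two_ne_zero
  have e1 : k ≡ a - s0 * t0 [ZMOD (p ^ 2 : ℕ)] := hk.trans l5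
  have e2 : s ≡ s0 [ZMOD (p ^ 2 : ℕ)] := by
    have h1 : ((p ^ 2 : ℕ) : ℤ) ∣ t0 * (s0 - s) := by
      have h2 := (e1.dvd).neg_right.add (ht.dvd.mul_left (-s))
      rwa [show -(a - s0 * t0 - k) + -s * (t0 - t) = t0 * (s0 - s) by rw [← hs]; ring] at h2
    have h3 : IsCoprime (((p ^ 2 : ℕ)) : ℤ) t0 := by
      push_cast
      exact ((Nat.prime_iff_prime_int.1 hp).irreducible.coprime_iff_not_dvd.2 l1).pow_left
    exact (Int.modEq_iff_dvd.2 (h3.dvd_of_dvd_mul_left h1))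
  refine ⟨fun h => ha ?_, fun h => l3 ?_, l4.imp_left fun h1 h => h1 ?_⟩
  · have := ((dvd_iff_of_modEq e1 hp1).1 h).add (l2.mul_right t0)
    simpa using this
  · exact (dvd_iff_of_modEq (show a * R + b * t + P * t ^ 2 ≡ a * R + b * t0 + P * t0 ^ 2
      [ZMOD (p ^ 2 : ℕ)] by gcongr) hpp).1 h
  · exact (dvd_iff_of_modEq (show a * P + b * s + R * s ^ 2 ≡ a * P + b * s0 + R * s0 ^ 2
      [ZMOD (p ^ 2 : ℕ)] by gcongr) hpp).1 h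

theorem p_HLV (hBXR : S_BXR) (hHLH : S_HLH) :
    S_HLV := by
  obtain ⟨c, hc⟩ := hHLH
  refine ⟨max c 1, fun A C1 => ⟨1, le_rfl, fun z hA hC hz => ?_⟩⟩
  obtain ⟨C, -, hC'⟩ := hc A C1
  filter_upwards [hC' z hA hC (hz.mono (le_max_left _ _)), eventually_ge_atTop (z.w : ℝ),
    eventually_ge_atTop (1 : ℝ)] with y hH hw hy
  intro P R a b D T ψ u s0 t0 l hD hψ hu hL t ht v hv hP hS hq
  have hH := (hH P R a b D T ψ u s0 t0 l hD hψ hu hL).2 t ht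
  obtain ⟨-, z1, -, z2, -, -, z3, z4, z5, -⟩ := hz.mono (le_max_right _ _)
  set ρ : Pr := ⟨z, y⟩ with hρ
  have hw : (ρ.w : ℝ) ≤ ρ.y := hw
  have hy : 1 ≤ ρ.y := hy
  have z2 : 4 * ρ.A ≤ ρ.w := z2
  have hy4 : ρ.y ≤ ρ.y ^ ρ.k4 := le_self_pow₀ hy (show z.k4 ≠ 0 by omega)
  obtain ⟨-, -, -, -, d5, d6, -, -, -, -, d11, d12, -⟩ := hD
  have ha : 0 < a := by exact_mod_cast (pow_pos (by linarith : 0 < ρ.y) _).trans_le d6
  obtain ⟨_, _, -, hB⟩ := hBXR ρ.A (show 5 ≤ z.A by omega)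
  obtain ⟨b1, b2, -⟩ := (hB ψ hψ a ha).1 v hv
  obtain ⟨-, -, -, -, -, g6, g7, g8, -, g10, -⟩ := hH
  simp only [Pr.TS, mem_filter] at ht
  obtain ⟨t1, t2, t3, t4, -⟩ := ht
  obtain ⟨t5, t6⟩ := mem_Icc.1 t1
  obtain ⟨p1, p2⟩ := mul_ne_zero_iff.1 hP
  obtain ⟨p3, s', hs'⟩ := HLV_ind p1
  have p2 := prod_ne_zero_iff.1 p2
  set k := ev ψ v with hk
  have ht0 : (0 : ℤ) < t := by exact_mod_cast t5
  have hs0 : 0 < s' := by
    by_contra e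
    nlinarith [mul_nonneg ht0.le (neg_nonneg.2 (not_lt.1 e))]
  lift s' to ℕ using hs0.le with s
  have hs : a - (s : ℤ) * t = k := by linarith
  have hmem : ∀ p : ℕ, p.Prime → 4 * ρ.A < p → (p : ℝ) ≤ ρ.y ^ ρ.k4 → ¬p ∣ t → p ∈ ρ.hP t :=
    fun p h1 h2 h3 h4 => mem_filter.2 ⟨(mem_PP (by linarith)).2 ⟨h1, by exact_mod_cast h2, h3⟩, h4⟩
  have htk : ∀ p : ℕ, p.Prime → p ∣ t → ¬(p : ℤ) ∣ k := fun p h1 h2 h3 => by
    have h4 : (p : ℤ) ∣ t := by exact_mod_cast h2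
    have h5 : (p : ℤ) ∣ a := by
      have := h3.add (h4.mul_left s)
      rwa [← hs, sub_add_cancel] at this
    have := Int.dvd_gcd h4 h5
    rw [g7] at this
    exact h1.one_lt.ne' (Nat.dvd_one.1 this)
  have hsm : ∀ p : ℕ, p.Prime → p ≤ ρ.w → ¬(p : ℤ) ∣ k ∧ ¬(p : ℤ) ^ 2 ∣ a * R + b * t + P * t ^ 2 ∧
      (¬(p : ℤ) ^ 2 ∣ a * P + b * s + R * s ^ 2 ∨ ¬(p : ℤ) ∣ R) := fun p hp hpw => by
    by_cases h4 : 4 * ρ.A < p
    · have hpt : ¬p ∣ t := fun h => absurd (g6 p hp h) (not_lt.2 hpw)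
      have hpw' : (p : ℝ) ≤ ρ.w := by exact_mod_cast hpw
      have h1 := p2 p (hmem p hp h4 (by linarith) hpt)
      rw [Pr.hf, if_pos hpw] at h1
      obtain ⟨h2, h3⟩ := HLV_ind h1
      have h5 := t4 p ((mem_PP (by positivity)).2 ⟨hp, by exact_mod_cast h4, hpw'⟩)
      refine ⟨h2, fun h => h5 (((dvd_pow_self _ two_ne_zero).trans h).mul_left _),
        .inl fun h => h3 ⟨⟨h4, hpw⟩, ?_⟩⟩
      have := ((dvd_pow_self _ two_ne_zero).trans h).mul_left ((t : ℤ) ^ 2)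
      rwa [show (t : ℤ) ^ 2 * (a * P + b * s + R * s ^ 2) =
        a * P * t ^ 2 + b * t * (a - ev ψ v) + R * (a - ev ψ v) ^ 2 by rw [← hk, hs']; ring] at this
    · have hm : p ∈ PP 0 (4 * ρ.A) := (mem_PP (by positivity)).2
        ⟨hp, by exact_mod_cast hp.pos, by exact_mod_cast not_lt.1 h4⟩
      refine HLV_small hp (fun h => absurd (d5 p hp h).1 (not_lt.2 hpw)) (hL p hm) ?_ (t3 p hm) hs
      obtain ⟨e1, e2⟩ := p3 p hm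
      rw [hk, show ψ = (1, 1, -4) from eq_Q0 hψ]
      simp only [ev]
      gcongr
  have hkp : ∀ p : ℕ, p.Prime → (p : ℤ) ∣ k → ρ.w < p ∧ ((p : ℝ) ≤ ρ.y ∨ ρ.y ^ ρ.k4 < p) :=
    fun p hp h => by
      have h1 : ρ.w < p := not_le.1 fun e => (hsm p hp e).1 h
      refine ⟨h1, ?_⟩
      by_contra e
      obtain ⟨e1, e2⟩ := not_or.1 e
      have h2 := p2 p (hmem p hp (by omega) (not_lt.1 e2) fun e => htk p hp e h)
      rw [Pr.hf, if_neg (not_le.2 h1), if_pos (not_le.1 e1)] at h2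
      exact HLV_ind h2 h
  have hDp : ∀ p : ℕ, p.Prime → p ∣ D → ¬(p : ℤ) ∣ k ∧ ¬(p : ℤ) ∣ a - k := fun p hp h => by
    obtain ⟨-, h1, h2⟩ := (mem_PP (by linarith)).1 (d12 (Nat.mem_primeFactors.2 ⟨hp, h, d11⟩))
    have h1 : ρ.w < p := by exact_mod_cast h1
    have h3 := p2 p (hmem p hp (by omega) (by linarith) fun e =>
      hp.one_lt.ne' (Nat.eq_one_of_dvd_coprimes g8 e h))
    rw [Pr.hf, if_neg (not_le.2 h1), if_neg (not_lt.2 h2), if_pos h] at h3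
    exact HLV_ind h3
  have hPs : ∀ p : ℕ, p.Prime → (p : ℝ) ≤ ρ.y → (p : ℤ) ∣ k → p ∈ ρ.hP t ∧ ¬(p : ℤ) ^ 2 ∣ k ∧
      ρ.hf ψ a D (ρ.Bq P R a b t) p v = 1 / 6 := fun p hp h2 h => by
    have h1 := (hkp p hp h).1
    have hm := hmem p hp (by omega) (by linarith) fun e => htk p hp e h
    have h3 := p2 p hm
    rw [Pr.hf, if_neg (not_le.2 h1), if_neg (not_lt.2 h2), if_neg fun e => (hDp p hp e).1 h,
      if_neg (not_not.2 h)] at h3 ⊢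
    by_cases h4 : (p : ℤ) ^ 2 ∣ k
    · exact absurd (if_pos h4) h3
    · exact ⟨hm, h4, if_neg h4⟩
  refine ⟨?_, s, mem_Icc.2 ⟨by exact_mod_cast hs0, ?_⟩, hs, ?_, fun p hp hpw => (hsm p hp hpw).2⟩
  · have h0 : ∀ p ∈ ρ.pf k, p.Prime ∧ (p : ℝ) ≤ ρ.y ∧ (p : ℤ) ∣ k := fun p hp =>
      ⟨prime_of_PP (mem_pf.1 hp).1, ((mem_PP (by linarith)).1 (mem_pf.1 hp).1).2.2, (mem_pf.1 hp).2⟩
    refine (mul_le_of_le_one_left (prod_nonneg fun p _ => (HLV_hf ..).1) (ind_le_one _)).trans ?_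
    refine (prod_le_prod_of_subset_of_le_one (s := ρ.pf k)
      (fun p hp => (hPs p (h0 p hp).1 (h0 p hp).2.1 (h0 p hp).2.2).1)
      (fun p _ => (HLV_hf ..).1) fun p _ _ => (HLV_hf ..).2).trans_eq ?_
    rw [prod_congr rfl fun p hp => (hPs p (h0 p hp).1 (h0 p hp).2.1 (h0 p hp).2.2).2.2, prod_const]
    rfl
  · have : (s : ℤ) ≤ a := by nlinarith
    omega
  · obtain ⟨s1, s2, s3, s4⟩ := hS
    rw [Pr.SB, hs]
    refine ⟨t2, (Nat.cast_le.2 t6).trans (Nat.floor_le (le_of_not_gt fun e => ?_)), by linarith,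
      by linarith, ?_, ?_, hkp, g6, s1, s2, ?_⟩
    · rw [Nat.floor_of_nonpos e.le] at t6
      omega
    · refine Nat.coprime_of_dvd fun p hp h1 h2 => ?_
      obtain ⟨h3, h4⟩ := hDp p hp h2
      rcases (Nat.Prime.dvd_mul hp).1 h1 with h | h
      · refine h4 ?_
        rw [hs', mul_comm]
        exact_mod_cast h
      · exact h3 (Int.natCast_dvd.2 h)
    · refine Nat.squarefree_iff_prime_squarefree.2 fun p hp h => ?_
      have h1 : (p : ℤ) ^ 2 ∣ k := by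
        rw [sq, ← Nat.cast_mul]
        exact Int.natCast_dvd.2 h
      by_cases h2 : (p : ℝ) ≤ ρ.y
      · exact (hPs p hp h2 ((dvd_pow_self _ two_ne_zero).trans h1)).2.1 h1
      · exact hq ⟨p, hp, not_le.1 h2, h1⟩
    · have := HLV_si ρ s t k (a - k) ⟨t, by linarith⟩
      have e : 3 / √(ρ.w : ℝ) = 1 / √(ρ.w : ℝ) + 1 / √(ρ.w : ℝ) + 1 / √(ρ.w : ℝ) := by ring
      linarith

end Pool.Agent.P.MP_6f5b02_nt.Hy
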