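import Pool.Agent.P.MP_6f5b02_nt.Hy.IfT
import Pool.Agent.P.MP_8be758_nt.Pd.THO

/-! Step HO. -/

namespace Pool.Agent.P.MP_6f5b02_nt.Hy

open Pool.Agent.P.MP_8be758_nt Pool.Agent.P.MP_8be758_nt.Pd
open Finset Real Filter
open Pool.Agent.P.MP_8be758_nt.Par (det)
open Pool.Agent.P.MP_e86632_nt (ee)

theorem p_HO (hHU : S_HU) (hLAM : S_LAM) :
    S_HO := by
  intro C0 hC0
  obtain ⟨Ch, hH⟩ := hHU 50
  obtain ⟨c, hL⟩ := hLAM
  refine ⟨c + Ch + 200, fun A C1 => ⟨270 * C0, by linarith, fun z hA hC hz => ?_⟩⟩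
  obtain ⟨C, -, hL⟩ := hL A C1
  filter_upwards [hL z hA hC (hz.mono (by omega)), eventually_ge_atTop 2] with y hl hy
  intro T δ p0 t0 B hT h1 hB h2 _ h4 h5
  obtain ⟨-, -, -, -, w1, -, w2, w3, -⟩ := hz
  have w0 : (200 : ℝ) ≤ z.w := by exact_mod_cast (show 200 ≤ z.w by omega)
  have hP : ∀ p ∈ Pr.Ps ⟨z, y⟩, p.Prime ∧ (p : ℝ) ≤ y ∧ 200 ≤ p := fun p hp => by
    obtain ⟨a, b, c⟩ := (mem_PP (by linarith)).1 hp
    exact ⟨a, c, by exact_mod_cast w0.trans b.le⟩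
  have y1 : 1 ≤ y := by linarith
  have t1 : y * y ^ Ch ≤ T := by
    refine (abs_le_of_sq_le_sq' ?_ hT.le).2
    rw [← pow_succ', ← pow_mul]
    exact (pow_le_pow_right₀ y1 (by nlinarith)).trans h1
  have t2 : 1 ≤ T := (one_le_mul_of_one_le_of_one_le y1 (one_le_pow₀ y1)).trans t1
  have t3 : T ≤ C0 * T := le_mul_of_one_le_left hT.le hC0
  have t4 := Int.le_ceil (C0 * T)
  have t5 := Int.ceil_lt_add_one (C0 * T)
  have e : Icc (-⌈C0 * T⌉) ⌈C0 * T⌉ = Ioc (-⌈C0 * T⌉ - 1) ⌈C0 * T⌉ := by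
    ext x; simp only [mem_Icc, mem_Ioc]; omega
  have core := fun (d : ℕ) (hd : 0 < d) (hd' : (d : ℝ) ≤ y) (x0 : ℤ) =>
    HO_core (Ch := Ch) (lo := -⌈C0 * T⌉ - 1) (hi := ⌈C0 * T⌉)
      (fun P f d x0 => hH y P f d x0 _ _ hy) hP hB
      (hl.2.2.2.2.2.1.trans (one_div_le_one_div_of_le (by norm_num) (by linarith))) hd x0
      (L := 5 * (C0 * T)) (le_trans (by gcongr) (t1.trans (by push_cast; linarith)))
      (by push_cast; linarith) (by linarith)
  rw [e]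
  rcases h5 with rfl | ⟨h5, rfl⟩
  · simp only [true_or, ind_pos trivial, one_mul, Nat.cast_one, mul_one]
    refine (core δ (Nat.pos_of_ne_zero h2.ne_zero) h4 t0).trans ?_
    refine mul_le_mul_of_nonneg_right (by linarith) (by positivity)
  obtain ⟨a, b, -⟩ := hP p0 h5
  have a0 : (0 : ℤ) < p0 := by exact_mod_cast a.pos
  rw [filter_true_of_mem fun x _ => by simpa using Int.modEq_one,
    ← sum_fiberwise_of_maps_to (t := bx p0) (g := fun x : ℤ => x % p0) fun x _ =>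
      mem_Ico.2 ⟨Int.emod_nonneg _ a0.ne', Int.emod_lt_of_pos _ a0⟩]
  calc _ ≤ ∑ r ∈ bx p0, ind (B p0 r) * (9 * (5 * (C0 * T)) * (2 / p0)) := by
        refine sum_le_sum fun r hr => ?_
        have k := core p0 a.pos b r
        rw [a.primeFactors, card_singleton, pow_one] at k
        refine le_trans (le_of_eq ?_) (mul_le_mul_of_nonneg_left k (ind_nonneg _))
        have r0 := Int.emod_eq_of_lt (mem_Ico.1 hr).1 (mem_Ico.1 hr).2
        rw [mul_sum]
        refine sum_congr (filter_congr fun x _ => by rw [Int.ModEq, r0]) fun x hx => ?_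
        simp only [a.ne_one, false_or, (hB p0 h5).1 x r (mem_filter.1 hx).2]
    _ ≤ 3 * (9 * (5 * (C0 * T)) * (2 / p0)) := by
        rw [← sum_mul]
        exact mul_le_mul_of_nonneg_right (hB p0 h5).2 (by positivity)
    _ = _ := by simp; ring

end Pool.Agent.P.MP_6f5b02_nt.Hy
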