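import Pool.Agent.P.MP_6f5b02_nt.Hy.IfT
import Pool.Agent.P.MP_8be758_nt.Pd.THS

/-! Step HS. -/

namespace Pool.Agent.P.MP_6f5b02_nt.Hy

open Pool.Agent.P.MP_8be758_nt Pool.Agent.P.MP_8be758_nt.Pd
open Finset Real Filter
open Pool.Agent.P.MP_8be758_nt.Par (det)
open Pool.Agent.P.MP_e86632_nt (ee)

theorem HS_hw (ρ : Pr) {Θ : ℝ} (h : 0 ≤ Θ) (k : ℤ) : 0 ≤ ρ.hw Θ k :=
  mul_nonneg (pow_nonneg h _) (ind_nonneg _)

theorem p_HS (hHI : S_HI) (hHO : S_HO) :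
    S_HS := by
  classical
  intro C0 hC0
  obtain ⟨c1, h1⟩ := hHI
  obtain ⟨c2, h2⟩ := hHO C0 hC0
  refine ⟨c1 + c2 + 1, fun A C1 => ?_⟩
  obtain ⟨D1, hD1, h1⟩ := h1 A C1
  obtain ⟨D2, hD2, h2⟩ := h2 A C1
  refine ⟨2 * (D1 * (C0 * D2)), ?_, fun z hA hC hz => ?_⟩
  · have := one_le_mul_of_one_le_of_one_le hD1 (one_le_mul_of_one_le_of_one_le hC0 hD2)
    linarith
  have hk : z.k3 ≠ 0 := by
    obtain ⟨-, -, -, -, -, -, e1, e2, -⟩ := hz
    have := Nat.mul_pos (show 0 < c1 + c2 + 1 by omega) (show 0 < z.k2 + z.K by omega)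
    omega
  filter_upwards [h1 z hA hC (hz.mono (by omega)), h2 z hA hC (hz.mono (by omega)),
    eventually_ge_atTop C0] with y h1 h2 hy a T Θ hR hΘ hΘ'
  set ρ : Pr := ⟨z, y⟩ with hρ
  obtain ⟨r1, r2, r3, -⟩ := hR
  have y1 : 1 ≤ ρ.y := hC0.trans hy
  have y2 : C0 ≤ ρ.y ^ ρ.k3 := hy.trans (le_self_pow₀ y1 hk)
  have y3 : 0 < ρ.y ^ ρ.k3 := by positivity
  have ha : (0 : ℝ) < a := lt_of_lt_of_le (by positivity) r3
  have hT : 0 < T / C0 := by positivity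
  set E := exp ((Θ / 2 - 1) * ρ.La) with hE
  have hE0 : 0 < E := exp_pos _
  set B := (Icc (-⌈C0 * T⌉) ⌈C0 * T⌉).filter fun t : ℤ => T / C0 ≤ |(t : ℝ)| ∧ |(t : ℝ)| ≤ C0 * T
  have inner : ∀ t ∈ B, ∑ s ∈ (Icc (-a) a).filter fun s => |s * t| ≤ a ∧ Int.gcd t (a - s * t) = 1,
      ρ.hw Θ (a - s * t) ≤ D1 * (a * (C0 / T)) * E * Ep ρ.Ps 50 (fun p x => (p : ℤ) ∣ x) t := by
    intro t ht
    obtain ⟨-, t1, t2⟩ := mem_filter.1 ht
    have t0 : 0 < |(t : ℝ)| := hT.trans_le t1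
    have s1 : √(ρ.y ^ ρ.k3) ≤ T := sqrt_le_iff.2 ⟨r1.le, r2⟩
    have s3 := sqrt_nonneg (ρ.y ^ ρ.k3)
    have h := h1 a t Θ 1 1 (fun _ _ => False) (fun e => by simp [e] at t0) ?_ hΘ hΘ' (HS_few0 _)
      squarefree_one (by simp) (Or.inl rfl)
    · simp only [HS_ep0, Nat.cast_one, one_dvd, true_or, ind_pos trivial, mul_one,
        Nat.primeFactors_one, card_empty, pow_zero, div_one] at h
      refine h.trans ?_
      obtain ⟨e1, e2⟩ := HS_epm ρ.Ps (fun p x => (p : ℤ) ∣ x) t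
      have e3 : (a : ℝ) / |(t : ℝ)| ≤ a * (C0 / T) := by
        rw [← inv_div T C0, ← div_eq_mul_inv]; gcongr
      calc _ ≤ D1 * (a * (C0 / T)) * Ep ρ.Ps 50 (fun p x => (p : ℤ) ∣ x) t * E := by gcongr
        _ = _ := by ring
    · calc |(t : ℝ)| * √(ρ.y ^ ρ.k3) ≤ (ρ.y ^ ρ.k3 * T) * T := by
            gcongr; exact t2.trans (by gcongr)
        _ = T ^ 2 * ρ.y ^ ρ.k3 := by ring
        _ ≤ a := r3
  have outer : ∑ t ∈ B, Ep ρ.Ps 50 (fun p x => (p : ℤ) ∣ x) t ≤ D2 * T := by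
    have h := h2 T 1 1 0 (fun p x => (p : ℤ) ∣ x) r1 r2 (HS_few1 _) squarefree_one (by simp)
      (by simpa using y1) (Or.inl rfl)
    simp only [Nat.cast_one, true_or, ind_pos trivial, mul_one, one_mul, Int.modEq_one, filter_true,
      Nat.primeFactors_one, card_empty, pow_zero, div_one] at h
    exact (sum_le_sum_of_subset_of_nonneg (filter_subset _ _) fun t _ _ =>
      (HS_epm _ _ t).1.trans (HS_epm _ _ t).2).trans h
  calc _ ≤ ∑ v ∈ SR a T C0, 2 / (a : ℝ) * ρ.hw Θ (a - v.1 * v.2) := by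
        refine sum_le_sum fun v hv => ?_
        have e : (a : ℝ) ≤ 2 * ((a - v.1 * v.2 : ℤ) : ℝ) := by exact_mod_cast ((mem_SR hT).1 hv).2.2.2.1
        have := HS_hw ρ hΘ (a - v.1 * v.2)
        rw [div_le_iff₀ (by linarith), div_mul_eq_mul_div, div_mul_eq_mul_div, le_div_iff₀ ha]
        nlinarith
    _ ≤ ∑ v ∈ (Icc (-a) a ×ˢ B).filter fun v => |v.1 * v.2| ≤ a ∧ Int.gcd v.2 (a - v.1 * v.2) = 1,
          2 / (a : ℝ) * ρ.hw Θ (a - v.1 * v.2) := by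
        refine sum_le_sum_of_subset_of_nonneg (fun v hv => ?_) fun v _ _ =>
          mul_nonneg (by positivity) (HS_hw ρ hΘ _)
        obtain ⟨e1, e2, e3, -, e5⟩ := (mem_SR hT).1 hv
        have ht : v.2 ≠ 0 := fun e => by simp [e] at e1; linarith
        refine mem_filter.2 ⟨mem_product.2 ⟨mem_Icc.2 (abs_le.1 (le_trans ?_ e3)),
          mem_filter.2 ⟨mem_Icc.2 (abs_le.1 ?_), e1, e2⟩⟩, e3, Int.isCoprime_iff_gcd_eq_one.1 e5⟩
        · rw [abs_mul]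
          exact le_mul_of_one_le_right (abs_nonneg _) (Int.one_le_abs ht)
        · exact_mod_cast (show ((|v.2| : ℤ) : ℝ) ≤ (⌈C0 * T⌉ : ℤ) by
            push_cast; exact e2.trans (Int.le_ceil _))
    _ = 2 / (a : ℝ) * ∑ t ∈ B, ∑ s ∈ (Icc (-a) a).filter fun s =>
          |s * t| ≤ a ∧ Int.gcd t (a - s * t) = 1, ρ.hw Θ (a - s * t) := by
        rw [← mul_sum, sum_filter, sum_product_right]
        simp only [sum_filter]
    _ ≤ 2 / (a : ℝ) * (D1 * (a * (C0 / T)) * E * (D2 * T)) := by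
        gcongr
        refine (sum_le_sum inner).trans ?_
        rw [← mul_sum]
        gcongr
    _ = _ := by field_simp

end Pool.Agent.P.MP_6f5b02_nt.Hy
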