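import Pool.Agent.P.MP_6f5b02_nt.Hy.IfT
import Pool.Agent.P.MP_8be758_nt.Pd.TK4

/-! Step K4. -/

namespace Pool.Agent.P.MP_6f5b02_nt.Hy

open Pool.Agent.P.MP_8be758_nt Pool.Agent.P.MP_8be758_nt.Pd
open Finset Real Filter
open Pool.Agent.P.MP_8be758_nt.Par (det)
open Pool.Agent.P.MP_e86632_nt (ee)

theorem p_K4 :
    S_K4 := by
  intro A x hA ⟨hd, hP, hR, ha, hf, hdv, hc, pB, pA⟩
  have h1 : x.af ∣ x.t * (x.b + x.t * x.P + x.s * x.R) := by
    have : x.t * (x.b + x.t * x.P + x.s * x.R) = x.Bt - x.af * x.R := by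
      unfold VT.Bt VT.af; ring
    rw [this]
    exact dvd_sub hdv (dvd_mul_right _ _)
  obtain ⟨y, hy⟩ := hc.symm.dvd_of_dvd_mul_left h1
  have hb : x.b = (x.a - x.s * x.t) * y - x.t * x.P - x.s * x.R := by
    unfold VT.af at hy; linarith
  have eB : x.Bt = x.af * (x.t * y + x.R) := by unfold VT.Bt VT.af; rw [hb]; ring
  have eA : x.As = x.af * (x.s * y + x.P) := by unfold VT.As VT.af; rw [hb]; ring
  have hNt := K4_t x hf eB
  have hNs := K4_s x hf eA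
  have pt : 0 < x.Nt := by rw [eB, ← hNt] at pB; exact (mul_pos_iff_of_pos_left hf).1 pB
  have ps : 0 < x.Ns := by rw [eA, ← hNs] at pA; exact (mul_pos_iff_of_pos_left hf).1 pA
  have hodd : x.b = 2 * x.n + 1 := by
    have h2 : Odd (x.b ^ 2) := ⟨2 * x.P * (x.a * x.R) + 8, by linear_combination hd⟩
    obtain ⟨k, hk⟩ := (Int.odd_pow' (by norm_num)).1 h2
    unfold VT.n
    omega
  have f1 : x.v1.af = x.af := by simp only [VT.af, VT.v1]; ring
  have f2 : x.v2.af = x.a := by simp only [VT.af, VT.v2]; ring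
  have f3 : x.v3.af = x.a := by simp only [VT.af, VT.v3]; ring
  have B1 : x.v1.Bt = x.v1.af * x.R := by
    rw [f1]; simp only [VT.Bt, VT.v1, hNt, hNs, VT.af]; rw [hb]; ring
  have A1 : x.v1.As = x.v1.af * x.P := by
    rw [f1]; simp only [VT.As, VT.v1, hNt, hNs, VT.af]; rw [hb]; ring
  have B2 : x.v2.Bt = x.v2.af * x.Nt := by
    rw [f2]; simp only [VT.Bt, VT.v2, hNt, hNs, VT.af]; rw [hb]; ring
  have A2 : x.v2.As = x.v2.af * x.P := by
    rw [f2]; simp only [VT.As, VT.v2, hNs, VT.af]; rw [hb]; ring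
  have B3 : x.v3.Bt = x.v3.af * x.R := by
    rw [f3]; simp only [VT.Bt, VT.v3, hNt, VT.af]; rw [hb]; ring
  have A3 : x.v3.As = x.v3.af * x.Ns := by
    rw [f3]; simp only [VT.As, VT.v3, hNt, hNs, VT.af]; rw [hb]; ring
  have t1 := K4_t _ (f1 ▸ hf) B1
  have s1 := K4_s _ (f1 ▸ hf) A1
  have t2 := K4_t _ (f2 ▸ ha) B2
  have s2 := K4_s _ (f2 ▸ ha) A2
  have t3 := K4_t _ (f3 ▸ ha) B3
  have s3 := K4_s _ (f3 ▸ ha) A3
  have hca : IsCoprime x.t x.a := by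
    have := hc.add_mul_right_right x.s
    unfold VT.af at this
    rwa [sub_add_cancel] at this
  refine ⟨by rw [hNt, eB], by rw [hNs, eA], pt, ps, hodd, ?_, fun i => ?_, ⟨f1, t1, s1⟩,
    ⟨f2, t2, s2⟩, ⟨f3, t3, s3⟩, ?_, ?_, ?_⟩
  · rw [hodd] at hd
    linarith
  · fin_cases i
    · refine ⟨?_, ps, pt, ha, f1 ▸ hf, Dvd.intro _ B1.symm, ?_, B1 ▸ mul_pos (f1 ▸ hf) hR,
        A1 ▸ mul_pos (f1 ▸ hf) hP⟩
      · rw [← hd]
        change (x.b + 2 * x.s * x.R + 2 * x.t * x.Ns) ^ 2 - 4 * x.Ns * (x.a * x.Nt) = _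
        rw [hNt, hNs, hb]; ring
      · change IsCoprime (-x.t) x.v1.af
        rw [f1]; exact hc.neg_left
    · refine ⟨?_, ps, hR, hf, f2 ▸ ha, Dvd.intro _ B2.symm, ?_, B2 ▸ mul_pos (f2 ▸ ha) pt,
        A2 ▸ mul_pos (f2 ▸ ha) hP⟩
      · rw [← hd]
        change (x.b + 2 * x.s * x.R) ^ 2 - 4 * x.Ns * ((x.a - x.s * x.t) * x.R) = _
        rw [hNs, hb]; ring
      · change IsCoprime x.t x.v2.af
        rw [f2]; exact hca
    · refine ⟨?_, hP, pt, hf, f3 ▸ ha, Dvd.intro _ B3.symm, ?_, B3 ▸ mul_pos (f3 ▸ ha) hR,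
        A3 ▸ mul_pos (f3 ▸ ha) ps⟩
      · rw [← hd]
        change (x.b + 2 * x.t * x.P) ^ 2 - 4 * x.P * ((x.a - x.s * x.t) * x.Nt) = _
        rw [hNt, hb]; ring
      · change IsCoprime (-x.t) x.v3.af
        rw [f3]; exact hca.neg_left
  · rw [VT.v1, t1, s1]
    obtain ⟨P, R, a, b, s, t⟩ := x
    simp only [VT.v1, hNt, hNs, neg_neg, VT.mk.injEq, true_and, and_true]
    ring
  · rw [VT.v2, f2, s2]
    obtain ⟨P, R, a, b, s, t⟩ := x
    simp only [VT.v2, neg_neg, VT.mk.injEq, true_and, and_true]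
    ring
  · rw [VT.v3, f3, t3]
    obtain ⟨P, R, a, b, s, t⟩ := x
    simp only [VT.v3, neg_neg, VT.mk.injEq, true_and, and_true]
    ring

end Pool.Agent.P.MP_6f5b02_nt.Hy
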