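import Pool.Agent.P.MP_6f5b02_nt.Hy.IfT
import Pool.Agent.P.MP_8be758_nt.Pd.TKST

/-! Step KST. -/

namespace Pool.Agent.P.MP_6f5b02_nt.Hy

open Pool.Agent.P.MP_8be758_nt Pool.Agent.P.MP_8be758_nt.Pd
open Finset Real Filter
open Pool.Agent.P.MP_8be758_nt.Par (det)
open Pool.Agent.P.MP_e86632_nt (ee)

variable {M : ℕ} {ψ : Fm} {β1 β2 : ℝ} {v : V2}

theorem KST_win (hy : v.2 ≠ 0) (p : (0 : ℝ) < ev ψ v)
    (hu : |2 * ψ.1 * v.1 + ψ.2.1 * v.2| ≤ 2 * ev ψ v) (z : ℤ) :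
    (KST_l β1 β2 v.2 + 3 ≤ z ∧ (z : ℝ) ≤ KST_r β1 β2 v.2 - 3 → z ∈ KST_J ψ β1 β2 v) ∧
    (z ∈ KST_J ψ β1 β2 v → KST_l β1 β2 v.2 - 3 ≤ z ∧ (z : ℝ) ≤ KST_r β1 β2 v.2 + 3) ∧
    (z ∈ KST_J ψ β1 β2 v ↔ KST_w ψ β1 β2 v z) := by
  have y0 : (v.2 : ℝ) ≠ 0 := by exact_mod_cast hy
  have u : |((2 * ψ.1 * v.1 + ψ.2.1 * v.2 : ℤ) : ℝ)| ≤ 2 * ev ψ v := by exact_mod_cast hu
  simp only [KST_J, KST_w, mem_filter, mem_Icc, Int.ceil_le, Int.le_floor, Int.cast_sub,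
    Int.cast_mul (2 * ev ψ v), Int.cast_mul 2 (ev ψ v), Int.cast_ofNat, KST_l, KST_r]
  generalize ((2 * ψ.1 * v.1 + ψ.2.1 * v.2 : ℤ) : ℝ) = w at *
  generalize (ev ψ v : ℝ) = P at *
  generalize (v.2 : ℝ) = y at *
  obtain ⟨t, ht⟩ : ∃ t, (2 * P * z - w) / y = t * P := ⟨_, (div_mul_cancel₀ _ p.ne').symm⟩
  obtain ⟨e, rfl⟩ : ∃ e, w = e * P := ⟨_, (div_mul_cancel₀ _ p.ne').symm⟩
  rw [abs_mul, abs_of_pos p, mul_le_mul_iff_left₀ p, abs_le] at u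
  rw [ht, mul_lt_mul_iff_left₀ p, mul_le_mul_iff_left₀ p]
  rw [div_eq_iff y0] at ht
  have k : 2 * z - e = t * y := mul_right_cancel₀ p.ne' (by linarith)
  clear ht
  rcases y0.lt_or_gt with c | c <;> [rw [abs_of_neg c]; rw [abs_of_pos c]] <;>
    exact ⟨fun a => ⟨⟨by linarith, by linarith⟩, by nlinarith, by nlinarith⟩, And.left, And.right,
      fun a => ⟨⟨by nlinarith, by nlinarith⟩, a⟩⟩

theorem KST_fib {Z : ℝ} {c : V2 → Prop} {G : Finset G4}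
    (hG : ∀ g, g ∈ G ↔ c g.1 ∧ det g.1 g.2 = 1 ∧ Z < (ev ψ g.1 : ℝ) ∧ (ev ψ g.1 : ℝ) ≤ 2 * Z ∧
      β1 * (ev ψ g.1 : ℝ) < (bl ψ g.1 g.2 : ℝ) ∧ (bl ψ g.1 g.2 : ℝ) ≤ β2 * (ev ψ g.1 : ℝ) ∧
      C4 M g ((1, 0), (0, 1))) (hy : v.2 ≠ 0) (p : (0 : ℝ) < ev ψ v)
    (hu : |2 * ψ.1 * v.1 + ψ.2.1 * v.2| ≤ 2 * ev ψ v) (h0 : c v)
    (h1 : Z < ev ψ v) (h2 : (ev ψ v : ℝ) ≤ 2 * Z) (hc : C2 M v (1, 0)) :
    #{g ∈ G | g.1 = v} =
      #{z ∈ KST_J ψ β1 β2 v | v.1 * z ≡ 1 [ZMOD (v.2.natAbs * M : ℕ)]} := by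
  have y0 : (v.2 : ℝ) ≠ 0 := by exact_mod_cast hy
  have key : ∀ w : V2, det v w = 1 → (bl ψ v w : ℝ) =
      (2 * ev ψ v * w.2 - (2 * ψ.1 * v.1 + ψ.2.1 * v.2) : ℤ) / v.2 := fun w e => by
    rw [eq_div_iff y0, ← Int.cast_mul]
    simp only [bl, ev, det] at e ⊢
    congr 1
    linear_combination (-(2 * ψ.1 * v.1 + ψ.2.1 * v.2)) * e
  have md : ∀ z, v.1 * z ≡ 1 [ZMOD (v.2.natAbs * M : ℕ)] ↔ v.2 * M ∣ v.1 * z - 1 := fun z => by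
    rw [Int.modEq_comm, Int.modEq_iff_dvd, ← Int.natAbs_dvd, ← Int.natAbs_dvd (a := v.2 * M)]
    simp [Int.natAbs_mul]
  refine card_nbij' (·.2.2) (fun z => (v, (v.1 * z - 1) / v.2, z)) (fun g hg => ?_)
    (fun z hz => ?_) (fun g hg => ?_) fun _ _ => rfl <;>
    simp only [coe_filter, Set.mem_ofPred_eq, mem_filter, hG, (KST_win hy p hu _).2.2,
      md, KST_w] at *
  · obtain ⟨⟨-, a, -, -, b, b', -, c, -⟩, rfl⟩ := hg
    refine ⟨key _ a ▸ ⟨b, b'⟩, ?_⟩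
    rw [show g.1.1 * g.2.2 - 1 = g.1.2 * g.2.1 by unfold det at a; linear_combination a]
    exact mul_dvd_mul_left _ (Int.modEq_zero_iff_dvd.1 c)
  · obtain ⟨a, k, b⟩ := hz
    have e : (v.1 * z - 1) / v.2 = M * k := by rw [b, mul_assoc, Int.mul_ediv_cancel_left _ hy]
    have d : det v (M * k, z) = 1 := by simp only [det]; linear_combination b
    rw [e]
    rw [← key _ d] at a
    refine ⟨⟨h0, d, h1, h2, a.1, a.2, hc, Int.modEq_zero_iff_dvd.2 ⟨k, rfl⟩, ?_⟩, trivial⟩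
    simpa using (hc.1.mul_right z).symm.trans
      (Int.modEq_iff_dvd.2 ⟨-(v.2 * k), by linear_combination -b⟩ : v.1 * z ≡ 1 [ZMOD M])
  · obtain ⟨⟨-, a, -⟩, rfl⟩ := hg
    rw [show g.1.1 * g.2.2 - 1 = g.1.2 * g.2.1 by unfold det at a; linear_combination a,
      Int.mul_ediv_cancel_left _ hy]

theorem KST_ev (ψ : Fm) (a b y : ℤ) : 2 * (ev ψ (b, y) - ev ψ (a, y)) =
    (b - a) * (2 * ψ.1 * a + ψ.2.1 * y + (2 * ψ.1 * b + ψ.2.1 * y)) := by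
  simp only [ev]
  ring

theorem p_KST (hKROW : S_KROW) :
    S_KST := by
  classical
  obtain ⟨C, hC, H0⟩ := hKROW
  refine ⟨24 * C, by positivity, fun M ψ L Z β1 β2 c V G hM L1 hZ b1 b2 hcv hb hV hG => ?_⟩
  have M1 : (1 : ℝ) ≤ M := by exact_mod_cast hM
  set I := Icc (-⌊L⌋₊ : ℤ) ⌊L⌋₊
  have hI : ∀ x : ℤ, x ∈ I ↔ |(x : ℝ)| ≤ L := fun x => by
    rw [mem_Icc, ← abs_le, ← Int.natCast_natAbs, Nat.cast_le, Nat.le_floor_iff (by linarith),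
      Nat.cast_natAbs, Int.cast_abs]
  have mI : ∀ v, c v → Z < (ev ψ v : ℝ) → (ev ψ v : ℝ) ≤ 2 * Z → v ∈ I ×ˢ I := fun v a b e => by
    rw [mem_product, hI, hI]
    exact ⟨(hb v a b e).1, (hb v a b e).2.1⟩
  let p : V2 → Prop := fun v =>
    (c v ∧ Z < ev ψ v ∧ (ev ψ v : ℝ) ≤ 2 * Z) ∧ v.2 ≠ 0 ∧ C2 M v (1, 0)
  let F : V2 → ℝ := fun v =>
    #{z ∈ KST_J ψ β1 β2 v | v.1 * z ≡ 1 [ZMOD (v.2.natAbs * M : ℕ)]} -
      (β2 - β1) / (2 * M) * if Int.gcd v.1 (v.2.natAbs * M : ℕ) = 1 then 1 else 0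
  have row : ∀ y ∈ I, ∀ (r : ℤ → Prop) [DecidablePred r], (∀ a b x, a ≤ x → x ≤ b → r a → r b → r x ∧
      (ev ψ (a, y) ≤ ev ψ (x, y) ∧ ev ψ (x, y) ≤ ev ψ (b, y) ∨
        ev ψ (b, y) ≤ ev ψ (x, y) ∧ ev ψ (x, y) ≤ ev ψ (a, y))) →
      |∑ x ∈ (I.filter fun x => p (x, y)).filter r, F (x, y)| ≤
        C * (1 + β2) * (3 * L * |(y : ℝ)| ^ (-1 / 5 : ℝ) + M * L ^ (4 / 5 : ℝ)) := by
    intro y hy r _ hr
    by_cases e : y ≠ 0 ∧ y ≡ 0 [ZMOD M]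
    swap
    · rw [sum_eq_zero fun x hx => absurd ⟨(mem_filter.1 (mem_filter.1 hx).1).2.2.1,
        (mem_filter.1 (mem_filter.1 hx).1).2.2.2.2⟩ e, abs_zero]
      have : 0 ≤ β2 := b1.trans b2
      positivity
    obtain ⟨a, b, ab, hs, hl⟩ := KST_int (s := {x ∈ I | (c (x, y) ∧ Z < ev ψ (x, y) ∧
        (ev ψ (x, y) : ℝ) ≤ 2 * Z) ∧ r x}) L1 (fun x hx => (hI x).1 (mem_filter.1 hx).1) <| by
      simp only [mem_filter, I, mem_Icc]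
      rintro a ⟨a1, a2, a3⟩ b ⟨b1, b2, b3⟩ x ax xb
      obtain ⟨c', d⟩ := hr a b x ax xb a3 b3
      refine ⟨by omega, ⟨hcv a b x y ax xb a2.1 b2.1, ?_⟩, c'⟩
      rcases d with ⟨d, d'⟩ | ⟨d, d'⟩ <;> rw [← Int.cast_le (R := ℝ)] at d d' <;>
        constructor <;> linarith [a2.2.1, a2.2.2, b2.2.1, b2.2.2]
    have y1 : (1 : ℝ) ≤ |(y : ℝ)| := by exact_mod_cast Int.one_le_abs e.1
    have hq : ((y.natAbs * M : ℕ) : ℝ) = |(y : ℝ)| * M := by simp [Nat.cast_natAbs]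
    have hd : (KST_r β1 β2 y - KST_l β1 β2 y) / (y.natAbs * M : ℕ) = (β2 - β1) / (2 * M) := by
      rw [hq, KST_r, KST_l]; field_simp; ring
    have := H0 (y.natAbs * M) M a b (KST_l β1 β2 y) (KST_r β1 β2 y)
      (fun x => KST_J ψ β1 β2 (x, y)) (by have := e.1; positivity) (dvd_mul_left _ _) ab
      (by rw [KST_l, KST_r]; nlinarith) fun x hx z =>
        have k := (mem_filter.1 (hs ▸ hx)).2.1
        have := KST_win (β1 := β1) (β2 := β2) (v := (x, y)) e.1 (hZ.trans k.2.1)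
          (hb _ k.1 k.2.1 k.2.2).2.2.1 z
        ⟨this.1, this.2.1⟩
    rw [hd, ← filter_filter, filter_comm, card_filter, Nat.cast_sum, mul_sum,
      ← sum_sub_distrib, ← hs] at this
    refine le_trans (le_of_eq ?_) (this.trans ?_)
    · simp only [F, Nat.cast_ite, Nat.cast_one, Nat.cast_zero, filter_filter, p, C2]
      exact congrArg _ (sum_congr (filter_congr fun x _ => by tauto) fun _ _ => rfl)
    rw [hq, mul_right_comm C, mul_assoc]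
    have : (β2 - β1) / (2 * M) ≤ β2 := by rw [div_le_iff₀ (by positivity)]; nlinarith
    refine mul_le_mul (mul_le_mul_of_nonneg_left (by linarith) hC.le) (KST_err y1 M1 ((hI y).1 hy)
      hl) ?_ (mul_nonneg hC.le (by linarith))
    have : (0 : ℝ) ≤ (b - a : ℤ) := by exact_mod_cast sub_nonneg.2 ab
    positivity
  have e1 : (#G : ℝ) - (β2 - β1) / (2 * M) * #V = ∑ v ∈ (I ×ˢ I).filter p, F v := by
    rw [sum_sub_distrib, ← mul_sum, sum_boole, ← Nat.cast_sum, card_eq_sum_card_fiberwise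
      (f := Prod.fst) (t := (I ×ˢ I).filter p) fun g hg => ?_,
      sum_congr rfl fun v hv => ?_]
    · congr 4
      ext v
      simp only [mem_filter, hV, p, ← Int.isCoprime_iff_gcd_eq_one, Nat.cast_mul,
        IsCoprime.mul_right_iff, Nat.cast_natAbs, Int.cast_id, IsCoprime.abs_right_iff]
      refine ⟨fun ⟨a0, a, b, b', c⟩ => ⟨⟨mI v a0 b b', ⟨a0, b, b'⟩,
        KST_y (hb v a0 b b').2.2.2 a, c⟩, a, ?_⟩, by tauto⟩
      obtain ⟨k, hk⟩ := c.1.dvd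
      exact ⟨1, k, by linear_combination -hk⟩
    · obtain ⟨-, ⟨a0, a, a'⟩, b, c⟩ := mem_filter.1 hv
      exact KST_fib hG b (hZ.trans a) (hb v a0 a a').2.2.1 a0 a a' c
    · obtain ⟨a0, a, c, d, -, -, b⟩ := (hG g).1 hg
      exact mem_filter.2 ⟨mI _ a0 c d, ⟨a0, c, d⟩, KST_y (hb _ a0 c d).2.2.2
        ⟨g.2.2, -g.2.1, by unfold det at a; linear_combination a⟩, b.1⟩
  rw [e1, sum_filter, sum_product_right]
  refine (abs_sum_le_sum_abs _ _).trans ((sum_le_sum (g := fun y : ℤ => 2 * (C * (1 + β2) *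
    (3 * L * |(y : ℝ)| ^ (-1 / 5 : ℝ) + M * L ^ (4 / 5 : ℝ)))) fun y hy => ?_).trans ?_)
  · rw [← sum_filter, ← sum_filter_add_sum_filter_not _ fun x => 0 < 2 * ψ.1 * x + ψ.2.1 * y,
      two_mul (C * _ * _)]
    refine (abs_add_le _ _).trans (add_le_add (row y hy _ ?_) (row y hy _ ?_)) <;>
      intro a b x ax xb ra rb <;>
      have a1 := KST_ev ψ a x y <;>
      have a2 := KST_ev ψ x b y <;>
      have a3 := sub_nonneg.2 ax <;>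
      have a4 := sub_nonneg.2 xb
    · have k : 0 < 2 * ψ.1 * x + ψ.2.1 * y := by
        rcases le_total 0 ψ.1 with h | h <;> nlinarith
      exact ⟨k, .inl ⟨by nlinarith, by nlinarith⟩⟩
    · have k : 2 * ψ.1 * x + ψ.2.1 * y ≤ 0 := by
        rcases le_total 0 ψ.1 with h | h <;> nlinarith
      rw [not_lt] at ra rb
      exact ⟨k.not_gt, .inr ⟨by nlinarith, by nlinarith⟩⟩
  have f := Nat.floor_le (zero_le_one.trans L1)
  have s1 := (KST_sum ⌊L⌋₊).trans (mul_le_mul_of_nonneg_left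
    (Real.rpow_le_rpow (Nat.cast_nonneg _) f (by norm_num : (0 : ℝ) ≤ 4 / 5)) zero_le_three)
  have s2 : (#I : ℝ) ≤ 3 * L := by
    rw [Int.card_Icc, show (⌊L⌋₊ + 1 - -⌊L⌋₊ : ℤ) = (2 * ⌊L⌋₊ + 1 : ℕ) by push_cast; ring,
      Int.toNat_natCast]
    push_cast
    linarith
  have s3 : L * L ^ (4 / 5 : ℝ) = L ^ (9 / 5 : ℝ) := by
    rw [mul_comm, ← Real.rpow_add_one (by linarith)]
    norm_num
  rw [← mul_sum, ← mul_sum, sum_add_distrib, ← mul_sum, sum_const, nsmul_eq_mul]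
  have : 0 ≤ β2 := b1.trans b2
  have s4 : 0 ≤ L * L ^ (4 / 5 : ℝ) := by positivity
  calc _ ≤ 2 * (C * (1 + β2) * (3 * L * (3 * L ^ (4 / 5 : ℝ)) + 3 * L * (M * L ^ (4 / 5 : ℝ)))) := by
        gcongr
    _ ≤ 2 * (C * (1 + β2) * (12 * M * L ^ (9 / 5 : ℝ))) := by
        gcongr
        nlinarith
    _ = _ := by ring

end Pool.Agent.P.MP_6f5b02_nt.Hy
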