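import Pool.Agent.P.MP_6f5b02_nt.Hy.IfT
import Pool.Agent.P.MP_8be758_nt.Pd.TL1

/-! Step L1. -/

namespace Pool.Agent.P.MP_6f5b02_nt.Hy

open Pool.Agent.P.MP_8be758_nt Pool.Agent.P.MP_8be758_nt.Pd
open Finset Real Filter
open Pool.Agent.P.MP_8be758_nt.Par (det)
open Pool.Agent.P.MP_e86632_nt (ee)

theorem L1_rho (A p : ℕ) [Fact p.Prime] (h2 : (2 : ZMod p) ≠ 0) :
    rho A p = (univ.filter fun y : ZMod p => y ^ 2 = (17 : ZMod p)).card := by
  have h := L1_quad h2 (a := 1) 1 (-4 : ZMod p) one_ne_zero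
  rw [show (1 : ZMod p) ^ 2 - 4 * 1 * -4 = 17 by norm_num] at h
  rw [← h, rho_zmod]
  congr 1
  refine filter_congr fun n _ => ?_
  rw [one_mul, one_mul, sub_eq_add_neg]

theorem L1_lines (A p : ℕ) [Fact p.Prime] (h2 : (2 : ZMod p) ≠ 0)
    (hD : ((17 : ZMod p)) ≠ 0) (φ : Fm)
    (hφ : φ.2.1 ^ 2 - 4 * φ.1 * φ.2.2 ≡ (17 : ℤ) [ZMOD p]) :
    ∑ c ∈ range p, ind ((p : ℤ) ∣ ev φ (1, (c : ℤ))) + ind ((p : ℤ) ∣ ev φ (0, 1)) = rho A p := by
  have hd : (φ.2.1 : ZMod p) ^ 2 - 4 * (φ.2.2 : ZMod p) * φ.1 = (17 : ZMod p) := by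
    have := (ZMod.intCast_eq_intCast_iff _ _ p).2 hφ
    push_cast at this
    linear_combination this
  have e1 : ∑ c ∈ range p, ind ((p : ℤ) ∣ ev φ (1, (c : ℤ))) =
      ((univ.filter fun x : ZMod p =>
        (φ.2.2 : ZMod p) * x ^ 2 + (φ.2.1 : ZMod p) * x + φ.1 = 0).card : ℝ) := by
    rw [← L1_card, card_filter]
    push_cast
    refine sum_congr rfl fun c _ => ?_
    have : (p : ℤ) ∣ ev φ (1, (c : ℤ)) ↔
        (φ.2.2 : ZMod p) * (c : ZMod p) ^ 2 + (φ.2.1 : ZMod p) * c + φ.1 = 0 := by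
      rw [← ZMod.intCast_zmod_eq_zero_iff_dvd]
      simp only [ev]
      push_cast
      constructor <;> intro h <;> linear_combination h
    split_ifs with h
    · exact ind_pos (this.2 h)
    · exact ind_neg fun h' => h (this.1 h')
  have e2 : (p : ℤ) ∣ ev φ (0, 1) ↔ (φ.2.2 : ZMod p) = 0 := by
    rw [← ZMod.intCast_zmod_eq_zero_iff_dvd]
    simp [ev]
  rw [e1, L1_rho A p h2, ← hd]
  by_cases hγ : (φ.2.2 : ZMod p) = 0
  · have hβ : (φ.2.1 : ZMod p) ≠ 0 := fun e => hD (by rw [← hd, e, hγ]; ring)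
    have : (univ.filter fun x : ZMod p =>
        (φ.2.2 : ZMod p) * x ^ 2 + (φ.2.1 : ZMod p) * x + φ.1 = 0) = {-φ.1 / (φ.2.1 : ZMod p)} := by
      ext x
      simp only [hγ, mem_filter, mem_univ, true_and, mem_singleton, eq_div_iff hβ]
      constructor <;> intro h <;> linear_combination h
    rw [this, ind_pos (e2.2 hγ), hγ, mul_zero, zero_mul, sub_zero, L1_sq h2 hβ]
    norm_num
  · rw [ind_neg fun h => hγ (e2.1 h), add_zero, L1_quad h2 _ _ hγ]

theorem p_L1 (hRINV : S_RINV) :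
    S_L1 := by
  intro A p ψ u hA hψ hp hAp hu
  have := Fact.mk hp
  have h2 : (2 : ZMod p) ≠ 0 := by
    intro e
    have := Nat.le_of_dvd two_pos ((ZMod.natCast_eq_zero_iff 2 p).1 (by exact_mod_cast e))
    omega
  have hD : ((17 : ZMod p)) ≠ 0 := by
    intro e
    have := Nat.le_of_dvd (by omega) ((ZMod.natCast_eq_zero_iff 17 p).1 (by exact_mod_cast e))
    omega
  have hr : rho A p = 0 ∨ rho A p = 2 := by
    rw [L1_rho A p h2]
    by_cases h : ∃ y : ZMod p, y ^ 2 = (17 : ZMod p)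
    · obtain ⟨y, hy⟩ := h
      right
      rw [← hy]
      exact L1_sq h2 fun e => hD (by rw [← hy, e]; ring)
    · left
      exact card_eq_zero.2 (filter_eq_empty_iff.2 fun y _ hy => h ⟨y, hy⟩)
  refine ⟨by omega, by omega, ?_⟩
  have hpp : (p : ℤ) ∣ ((p ^ 2 : ℕ) : ℤ) := by
    push_cast
    exact dvd_pow_self _ two_ne_zero
  set a : V2 → ℝ := fun v => S4.av (p ^ 2) fun g => ind ((p : ℤ) ∣ ev (act ψ g) v) with ha
  have k1 : ∀ h : G4, det h.1 h.2 = 1 → a h.1 = a (1, 0) := by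
    intro h hh
    have := hRINV (p ^ 2) h (fun g => ind ((p : ℤ) ∣ ev (act ψ g) (1, 0))) (pow_pos hp.pos 2) hh
      fun x y e => by
        show ind _ = ind _
        rw [dvd_iff_of_modEq (ev_act_modEq ψ e (1, 0)) hpp]
    simp only [ha]
    rw [← this]
    congr 1
    funext g
    rw [act_rm]
    simp [ev, act]
  have k2 : ∀ c : ℤ, a (1, c) = a (1, 0) := fun c => k1 ((1, c), (0, 1)) (by simp [det])
  have k3 : a (0, 1) = a (1, 0) := k1 ((0, 1), (-1, 0)) (by simp [det])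
  have k4 : a u = a (1, 0) := by
    by_cases h1 : (p : ℤ) ∣ u.1
    · rw [← k3]
      simp only [ha]
      congr 1
      funext g
      rw [L1_scale hp _ (v := (0, 1)) (t := u.2) (fun h => hu ⟨h1, h⟩)
        (by simpa using (Int.modEq_zero_iff_dvd.2 h1)) (by simp)]
    · obtain ⟨c, d, hc⟩ := ((Nat.prime_iff_prime_int.1 hp).coprime_iff_not_dvd.2 h1).symm
      rw [← k2 (c * u.2)]
      simp only [ha]
      congr 1
      funext g
      rw [L1_scale hp _ (v := (1, c * u.2)) (t := u.1) h1 (by simp)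
        (Int.modEq_iff_dvd.2 ⟨-(d * u.2), by linear_combination u.2 * hc⟩)]
  have hne : (S4.U (p ^ 2)).Nonempty := by
    have h1 : (1 : ℤ) < (p : ℤ) ^ 2 := by exact_mod_cast Nat.one_lt_pow two_ne_zero hp.one_lt
    have m0 : (0 : ℤ) ∈ bx (p ^ 2) := mem_Ico.2 ⟨le_rfl, by push_cast; linarith⟩
    have m1 : (1 : ℤ) ∈ bx (p ^ 2) := mem_Ico.2 ⟨zero_le_one, by push_cast; linarith⟩
    exact ⟨((1, 0), (0, 1)), mem_filter.2
      ⟨mem_product.2 ⟨mem_product.2 ⟨m1, m0⟩, mem_product.2 ⟨m0, m1⟩⟩, by simp [det]⟩⟩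
  have k5 : ∑ c ∈ range p, a (1, (c : ℤ)) + a (0, 1) = rho A p := by
    simp only [ha]
    rw [← S4.av_sum, ← S4.av_add, ← S4.av_const _ hne (rho A p : ℝ)]
    unfold Sys.av
    congr 1
    refine sum_congr rfl fun g hg => L1_lines A p h2 hD _ ?_
    have hg1 : det g.1 g.2 ≡ 1 [ZMOD p] := (mem_filter.1 hg).2.of_dvd hpp
    simp only [act]
    rw [disc_eq, hψ.1]
    simpa using (hg1.pow 2).mul_left ((17 : ℤ))
  simp only [k2, k3, sum_const, card_range, nsmul_eq_mul] at k5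
  show a u = _
  rw [k4, eq_div_iff (by positivity), ← k5]
  ring

end Pool.Agent.P.MP_6f5b02_nt.Hy
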