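import Pool.Agent.P.MP_6f5b02_nt.Hy.IfT
import Pool.Agent.P.MP_8be758_nt.Pd.TLAM

/-! Step LAM. -/

namespace Pool.Agent.P.MP_6f5b02_nt.Hy

open Pool.Agent.P.MP_8be758_nt Pool.Agent.P.MP_8be758_nt.Pd
open Finset Real Filter
open Pool.Agent.P.MP_8be758_nt.Par (det)
open Pool.Agent.P.MP_e86632_nt (ee)

theorem p_LAM (hMER : S_MER) (hL1 : S_L1) :
    S_LAM := by
  refine ⟨0, fun A C1 => ?_⟩
  by_cases hA : Odd A ∧ 5 ≤ A
  swap
  · refine ⟨1, le_rfl, ?_⟩
    rintro z rfl - hz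
    exact (hA ⟨hz.1, hz.2.1⟩).elim
  obtain ⟨C0, hC0, hM⟩ := hMER A hA.1 hA.2
  have he := Real.add_one_le_exp C0
  refine ⟨2 * exp C0, by linarith, ?_⟩
  rintro z rfl - hz
  have hw : 12 ≤ z.w := by have := hz.2.1; have := hz.2.2.2.1; omega
  have hw' : (12 : ℝ) ≤ z.w := by exact_mod_cast hw
  filter_upwards [eventually_ge_atTop (z.w : ℝ)] with y hy
  obtain ⟨m1, m2⟩ := hM z.w y (by linarith) hy
  have l1 : 1 ≤ log (z.w : ℝ) := by
    rw [Real.le_log_iff_exp_le (by linarith)]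
    linarith [Real.exp_one_lt_d9]
  have l2 : log (z.w : ℝ) ≤ log y := Real.log_le_log (by linarith) hy
  have l3 : exp (log (log y / log z.w)) = log y / log z.w :=
    Real.exp_log (div_pos (by linarith) (by linarith))
  have hr : ∀ p ∈ PP z.w y, rho z.A p = 0 ∨ rho z.A p = 2 := fun p hp => by
    have h1 : z.w < p := by exact_mod_cast lt_of_PP hp
    have h2 := hL1 z.A p (Q0 z.A) (1, 0) (by have := hz.2.1; omega) (isF_Q0 _) (prime_of_PP hp)
      (hz.2.2.2.1.trans_lt h1) fun h =>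
        (prime_of_PP hp).one_lt.ne' (by exact_mod_cast Int.eq_one_of_dvd_one (by positivity) h.1)
    omega
  rw [abs_le] at m1 m2
  simp only [Pr.La, Pr.Ps]
  set La := ∑ p ∈ PP z.w y, (rho z.A p : ℝ) / p with hLa
  have e0 := exp_pos C0
  have e1 := exp_pos La
  refine ⟨abs_le.2 ⟨by linarith, by linarith⟩, ?_, ?_, hr, ?_, LAM_sq (by omega) hy,
    fun k hk L h => LAM_lp ⟨z, y⟩ (by show 1 < y; linarith) hk h⟩
  · have h1 : exp La ≤ exp C0 * (log y / log z.w) := by
      rw [← l3, ← exp_add]; exact exp_le_exp.2 (by linarith)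
    have h2 : log y / log z.w ≤ log y := div_le_self (by linarith) l1
    nlinarith
  · have h1 : log y / log z.w ≤ exp C0 * exp La := by
      rw [← l3, ← exp_add]; exact exp_le_exp.2 (by linarith)
    rw [div_le_iff₀ (by linarith)] at h1
    have h2 : 0 ≤ exp C0 * exp La * log z.w := by positivity
    linarith
  · rw [hLa, sum_filter, sum_div]
    refine sum_congr rfl fun p hp => ?_
    rcases hr p hp with h | h <;> simp [h]
    ring

end Pool.Agent.P.MP_6f5b02_nt.Hy
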