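import Pool.Agent.P.MP_6f5b02_nt.Hy.If0
import Pool.Agent.P.MP_8be758_nt.Pd.TLAT

/-! Step LAT. -/

namespace Pool.Agent.P.MP_6f5b02_nt.Hy

open Pool.Agent.P.MP_8be758_nt Pool.Agent.P.MP_8be758_nt.Pd
open Finset Real Filter
open Pool.Agent.P.MP_8be758_nt.Par (det)
open Pool.Agent.P.MP_6f5b02_nt.Hy.Par (nq)

/-- convexity along lines of direction `u` -/
def Cv (S : Finset V2) (u : V2) : Prop :=
  ∀ v ∈ S, ∀ i j : ℤ, 0 ≤ i → i ≤ j → v + j • u ∈ S → v + i • u ∈ S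

variable {S : Finset V2} {u u' v w : V2} {A : ℕ}

theorem row_eq (h : det u u' = 1) (e : det u v = det u w) :
    w = v + (det w u' - det v u') • u := by
  simp only [det] at h e
  ext <;> simp only [det, Prod.fst_add, Prod.snd_add, Prod.smul_fst, Prod.smul_snd, smul_eq_mul]
  · linear_combination (v.1 - w.1) * h - u'.1 * e
  · linear_combination (v.2 - w.2) * h - u'.2 * e

theorem row_bad (hS : Cv S u) (h : det u u' = 1) (hv : v ∈ S) (hw : w ∈ S) (e : det u v = det u w)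
    {t : ℤ} (h1 : v + t • u ∉ S) (h2 : w + t • u ∉ S) : det w u' - det v u' < |t| := by
  have r := row_eq h e
  generalize det w u' - det v u' = j at r
  subst r
  by_contra c
  have := le_abs_self t
  have := neg_le_abs t
  rcases le_total 0 t with h0 | h0
  · exact h1 (hS v hv t j h0 (by omega) hw)
  · refine h2 ?_
    rw [add_assoc, ← add_smul]
    exact hS v hv _ j (by omega) (by omega) hw

theorem row_cls (hS : Cv S u) (h : det u u' = 1) {Y : ℝ} (hY : 0 ≤ Y)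
    (hb : ∀ v ∈ S, |(det u v : ℝ)| ≤ Y) {m : ℕ} (hm : 0 < m) (c : V2) (t : ℤ) :
    ((S.filter fun v => C2 m v c).card : ℝ) ≤
      (S.filter fun v => C2 m v (c + t • u)).card + (2 * Y / m + 1) := by
  have m0 : (0 : ℤ) < m := by exact_mod_cast hm
  have d0 := Int.emod_nonneg t m0.ne'
  have d1 := Int.emod_lt_of_pos t m0
  rw [← card_filter_add_card_filter_not fun v : V2 => v + (t % m) • u ∈ S, Nat.cast_add]
  refine add_le_add (Nat.cast_le.2 (card_le_card_of_injOn (fun v => v + (t % m) • u)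
    (fun v hv => ?_) fun v _ w _ e => add_right_cancel e)) ?_
  · obtain ⟨a1, a2⟩ := mem_filter.1 hv
    obtain ⟨-, a3, a4⟩ := mem_filter.1 a1
    exact mem_filter.2 ⟨a2, a3.add ((Int.mod_modEq t m).mul_right _),
      a4.add ((Int.mod_modEq t m).mul_right _)⟩
  rw [← card_image_of_injOn (f := det u) fun v hv w hw e => ?_]
  · refine LAT_cnt (c := det u c) hm hY fun y hy => ?_
    obtain ⟨v, hv, rfl⟩ := mem_image.1 hy
    obtain ⟨a1, a2, a3⟩ := mem_filter.1 (mem_filter.1 hv).1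
    exact ⟨hb v a1, (a3.mul_left _).sub (a2.mul_left _)⟩
  obtain ⟨a1, a2⟩ := mem_filter.1 hv
  obtain ⟨b1, b2⟩ := mem_filter.1 hw
  obtain ⟨a3, a4, a5⟩ := mem_filter.1 a1
  obtain ⟨b3, b4, b5⟩ := mem_filter.1 b1
  have k1 := row_bad hS h a3 b3 e a2 b2
  have k2 := row_bad hS h b3 a3 e.symm b2 a2
  rw [abs_of_nonneg d0] at k1 k2
  have k3 : det v u' ≡ det w u' [ZMOD m] :=
    ((a4.trans b4.symm).mul_right _).sub ((a5.trans b5.symm).mul_right _)
  rw [row_eq h e, Int.eq_zero_of_abs_lt_dvd k3.dvd (abs_lt.2 ⟨by omega, by omega⟩), zero_smul,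
    add_zero]

theorem row_cnt (hS : Cv S u) (h : det u u' = 1) {Y : ℝ} (hY : 0 ≤ Y)
    (hb : ∀ v ∈ S, |(det u v : ℝ)| ≤ Y) (t : ℤ) :
    ((S.filter fun v => v + t • u ∉ S).card : ℝ) ≤ (2 * Y + 1) * |(t : ℝ)| := by
  rcases eq_or_ne t 0 with rfl | h0
  · rw [filter_false_of_mem fun v hv => by simpa using hv]
    simp
  have t0 := abs_pos.2 h0
  have c1 := LAT_cnt (S := S.image (det u)) (c := 0) one_pos hY fun y hy => by
    obtain ⟨v, hv, rfl⟩ := mem_image.1 hy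
    exact ⟨hb v hv, Int.modEq_one⟩
  have c2 : (S.filter fun v => v + t • u ∉ S).card ≤ (S.image (det u) ×ˢ Ico 0 |t|).card := by
    refine card_le_card_of_injOn (fun v => (det u v, det v u' % |t|)) (fun v hv => mem_coe.2
      (mem_product.2 ⟨mem_image_of_mem _ (mem_filter.1 hv).1, mem_Ico.2
        ⟨Int.emod_nonneg _ t0.ne', Int.emod_lt_of_pos _ t0⟩⟩)) fun v hv w hw e => ?_
    obtain ⟨e1, e2⟩ := Prod.mk.inj e
    obtain ⟨a1, a2⟩ := mem_filter.1 hv
    obtain ⟨b1, b2⟩ := mem_filter.1 hw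
    have k1 := row_bad hS h a1 b1 e1 a2 b2
    have k2 := row_bad hS h b1 a1 e1.symm b2 a2
    rw [row_eq h e1, Int.eq_zero_of_abs_lt_dvd (Int.ModEq.dvd e2) (abs_lt.2 ⟨by omega, by omega⟩),
      zero_smul, add_zero]
  rw [card_product, Int.card_Ico, sub_zero] at c2
  have c3 : ((|t|.toNat : ℕ) : ℝ) = |(t : ℝ)| := by
    rw [← Int.cast_natCast, Int.toNat_of_nonneg t0.le, Int.cast_abs]
  rw [Nat.cast_one, div_one] at c1
  exact le_trans (by rw [← c3]; exact_mod_cast c2)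
    (mul_le_mul_of_nonneg_right c1 (abs_nonneg _))

theorem An_cv (hA : 5 ≤ A) (hu : Cn u) (N1 N2 : ℝ) : Cv (An (Q0 A) N1 N2) u := by
  intro v hv i j h0 h1 hw
  rw [mem_An hA (Q0_red A)] at hv hw ⊢
  have b := (hv.1.bl_pos (A := A) hu).le
  have c := (hu.ev_pos (A := A)).le
  have e : ∀ i : ℤ, ev (Q0 A) (v + i • u) =
      ev (Q0 A) v + i * bl (Q0 A) v u + i ^ 2 * ev (Q0 A) u := fun i => by
    simp only [ev, bl, Prod.fst_add, Prod.snd_add, Prod.smul_fst, Prod.smul_snd, smul_eq_mul]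
    ring
  refine ⟨?_, hv.2.1.trans_le (Int.cast_le.2 ?_), le_trans (Int.cast_le.2 ?_) hw.2.2⟩
  · rcases h0.eq_or_lt with rfl | h2
    · simpa using hv.1
    · exact hv.1.add ((cn_smul h2).2 hu)
  · rw [e, add_assoc]
    exact le_add_of_nonneg_right (by positivity)
  · rw [e, e]
    gcongr

theorem An_bd (hA : 5 ≤ A) {N1 N2 : ℝ} (hv : v ∈ An (Q0 A) N1 N2) :
    |(det (1, 0) v : ℝ)| ≤ 75 * √N2 ∧ |(det (2, 1) v : ℝ)| ≤ 75 * √N2 := by
  obtain ⟨h1, -, h2⟩ := (mem_An hA (Q0_red A)).1 hv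
  rw [ev_Q0] at h2
  have a : ∀ x : ℤ, x ^ 2 ≤ 625 * nq A v → |(x : ℝ)| ≤ 25 * √N2 := fun x hx => by
    have : (x : ℝ) ^ 2 ≤ 625 * nq A v := by exact_mod_cast hx
    refine abs_le_of_sq_le_sq ?_ (by positivity)
    rw [mul_pow, sq_sqrt (by nlinarith [sq_nonneg (x : ℝ)])]
    linarith
  have a1 := abs_le.1 (a _ h1.sq_le)
  have a2 := abs_le.1 (a _ h1.sq_le')
  simp only [det, abs_le]
  push_cast
  exact ⟨⟨by linarith [sqrt_nonneg N2], by linarith [sqrt_nonneg N2]⟩, by linarith, by linarith⟩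

theorem p_LAT :
    S_LAT := by
  intro A hA
  refine ⟨300, by positivity, fun ψ hψ N1 N2 m v0 v1 h0 h1 hm => ?_⟩
  obtain rfl := eq_Q0 hψ
  have key : ∀ v0 v1 : V2, (((An (Q0 A) N1 N2).filter fun v => C2 m v v0).card : ℝ) ≤
      ((An (Q0 A) N1 N2).filter fun v => C2 m v v1).card + 300 * (√N2 / m + 1) := fun v0 v1 => by
    have r1 := row_cls (An_cv hA cn_e N1 N2) (u' := (0, 1)) rfl (by positivity)
      (fun v hv => (An_bd hA hv).1) hm v0 (v1.1 - v0.1 - 2 * (v1.2 - v0.2))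
    have r2 := row_cls (An_cv hA (u := (2, 1)) (by decide) N1 N2) (u' := (1, 1)) rfl (by positivity)
      (fun v hv => (An_bd hA hv).2) hm (v0 + (v1.1 - v0.1 - 2 * (v1.2 - v0.2)) • (1, 0))
      (v1.2 - v0.2)
    rw [show v0 + (v1.1 - v0.1 - 2 * (v1.2 - v0.2)) • ((1, 0) : V2) +
      (v1.2 - v0.2) • ((2, 1) : V2) = v1 by ext <;> simp <;> ring] at r2
    have e : 2 * (75 * √N2) / m = 150 * (√N2 / m) := by ring
    linarith
  rw [abs_le]
  constructor <;> linarith [key v0 v1, key v1 v0]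

end Pool.Agent.P.MP_6f5b02_nt.Hy
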