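import Pool.Agent.P.MP_6f5b02_nt.Hy.If0
import Pool.Agent.P.MP_8be758_nt.Pd.TLATD

/-! Step LATD. -/

namespace Pool.Agent.P.MP_6f5b02_nt.Hy

open Pool.Agent.P.MP_8be758_nt Pool.Agent.P.MP_8be758_nt.Pd
open Finset Real Filter
open Pool.Agent.P.MP_8be758_nt.Par (det)

theorem LATD_cop2 {d D : ℕ} {x y : ℤ} (hd : d ≠ 0) (h : d.Coprime (2 * D))
    (hx : (d : ℤ) ∣ x ^ 2 - D) (e : ∀ p ∈ d.primeFactors, 2 * (x % p) < p ↔ 2 * (y % p) < p) :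
    IsCoprime (d : ℤ) (x + y) := by
  refine Int.isCoprime_iff_gcd_eq_one.2 (Nat.eq_one_iff_not_exists_prime_dvd.2 fun p hp h1 => ?_)
  have h2 : p ∣ d := Int.natCast_dvd_natCast.1
    ((Int.natCast_dvd_natCast.2 h1).trans (Int.gcd_dvd_left _ _))
  have h3 : (p : ℤ) ∣ x + y := (Int.natCast_dvd_natCast.2 h1).trans (Int.gcd_dvd_right _ _)
  have h4 : ¬ p ∣ 2 * D := hp.coprime_iff_not_dvd.1 (h.coprime_dvd_left h2)
  have h5 : x % p ≠ 0 := fun e => h4 (Dvd.dvd.mul_left (Int.natCast_dvd_natCast.1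
    ((dvd_sub_right ((Int.dvd_of_emod_eq_zero e).pow two_ne_zero)).1
      ((Int.natCast_dvd_natCast.2 h2).trans hx))) 2)
  have h6 : p % 2 = 1 := hp.eq_two_or_odd.resolve_left fun e => h4 (e ▸ dvd_mul_right _ _)
  have h7 := e p (Nat.mem_primeFactors.2 ⟨hp, h2, hd⟩)
  have p0 : (0 : ℤ) < p := by exact_mod_cast hp.pos
  have a1 := Int.emod_nonneg x p0.ne'
  have a2 := Int.emod_nonneg y p0.ne'
  have a3 := Int.emod_lt_of_pos x p0
  have a4 := Int.emod_lt_of_pos y p0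
  have a5 : (p : ℤ) ∣ x % p + y % p - p := dvd_sub
    (Int.dvd_of_emod_eq_zero (Int.add_emod x y p ▸ Int.emod_eq_zero_of_dvd h3)) dvd_rfl
  have a6 := Int.eq_zero_of_abs_lt_dvd a5 (abs_lt.2 ⟨by omega, by omega⟩)
  omega

theorem LATD_small {A : ℕ} (u : V2) {s : ℝ}
    (h1 : |(u.1 : ℝ)| < s) (h2 : |(u.2 : ℝ)| < s) : |(ev (Q0 A) u : ℝ)| < 6 * s ^ 2 := by
  have c1 := sq_lt_sq' (abs_lt.1 h1).1 (abs_lt.1 h1).2
  have c2 := sq_lt_sq' (abs_lt.1 h2).1 (abs_lt.1 h2).2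
  simp only [ev, Q0, abs_lt]
  push_cast
  constructor <;> nlinarith [sq_nonneg (u.1 + u.2 : ℝ), sq_nonneg (u.1 - u.2 : ℝ),
    sq_nonneg (u.1 : ℝ), sq_nonneg (u.2 : ℝ)]

theorem p_LATD :
    S_LATD := by
  intro A hA
  refine ⟨25 * 62 ^ 2, by positivity, fun ψ hψ d Y hd hc hY => ?_⟩
  have hF := hψ
  have d0 : (0 : ℝ) < d := by exact_mod_cast hd
  rcases ((VV ψ 0 Y).filter fun v => (d : ℤ) ∣ ev ψ v).eq_empty_or_nonempty with e | ⟨v0, h0⟩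
  · rw [e, card_empty, Nat.cast_zero]
    positivity
  have hdY : 1 ≤ Y / d := by
    obtain ⟨a1, a2⟩ := mem_filter.1 h0
    obtain ⟨-, a3, a4⟩ := (of_mem_VV hA hF) a1
    rw [one_le_div d0]
    exact le_trans (by exact_mod_cast Int.le_of_dvd (by exact_mod_cast a3) a2) a4
  choose b hb using LATD_root ψ
  obtain ⟨s, s0, hs⟩ : ∃ s : ℝ, 0 < s ∧ 6 * s ^ 2 = d :=
    ⟨√(d / 6), by positivity, by rw [sq_sqrt (by positivity)]; field_simp⟩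
  obtain ⟨t, t0, ht⟩ : ∃ t : ℝ, 1 ≤ t ∧ t ^ 2 = Y / d :=
    ⟨√(Y / d), one_le_sqrt.2 hdY, sq_sqrt (by positivity)⟩
  have R1 : 1 ≤ 62 * t := by linarith
  have hR : ∀ x m : ℤ, x ^ 2 ≤ 625 * m → (m : ℝ) ≤ Y →
      ⌊x / s⌋ ∈ Icc (-(⌈62 * t⌉₊ : ℤ)) ⌈62 * t⌉₊ := fun x m h1 h4 => by
    refine LATD_box s0 (by positivity) ?_
    have a1 : (x : ℝ) ^ 2 ≤ 625 * m := by exact_mod_cast h1
    have a2 : (62 * t * s) ^ 2 = 62 ^ 2 / 6 * Y := by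
      rw [mul_pow, mul_pow, ht, ← hs]
      field_simp
    linarith
  have key := card_le_card_of_injOn (s := (VV ψ 0 Y).filter fun v => (d : ℤ) ∣ ev ψ v)
    (t := d.primeFactors.powerset ×ˢ Icc (-(⌈62 * t⌉₊ : ℤ)) ⌈62 * t⌉₊ ×ˢ
      Icc (-(⌈62 * t⌉₊ : ℤ)) ⌈62 * t⌉₊)
    (fun v => (d.primeFactors.filter fun p => 2 * (b v % p) < p, ⌊v.1 / s⌋, ⌊v.2 / s⌋))
    (fun v hv => by
      obtain ⟨a5, -, -, a4⟩ := (mem_VV hA hF).1 (mem_filter.1 hv).1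
      rw [eq_Q0 hψ, ev_Q0] at a4
      exact mem_product.2 ⟨mem_powerset.2 (filter_subset _ _), mem_product.2
        ⟨hR _ _ a5.sq_le a4, hR _ _ a5.sq_le' a4⟩⟩)
    fun v hv w hw e => by
      obtain ⟨e1, e2, e3⟩ := by simpa only [Prod.mk.injEq] using e
      obtain ⟨a1, a2⟩ := mem_filter.1 hv
      obtain ⟨a3, a4⟩ := mem_filter.1 hw
      obtain ⟨b1, b2⟩ := hb v ((of_mem_VV hA hF) a1).1
      obtain ⟨-, b3⟩ := hb w ((of_mem_VV hA hF) a3).1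
      have c1 := LATD_cop2 (D := 17) (x := b v) (y := b w) hd.ne' hc (by
        refine (a2.trans b1).trans (dvd_of_eq ?_)
        rw [(mem_filter.1 hF).2.1]
        rfl) fun p hp => by simpa [hp] using Finset.ext_iff.1 e1 p
      have c2 : (d : ℤ) ∣ det v w := c1.dvd_of_dvd_mul_left (by
        refine (dvd_sub (a4.trans (b3 v)) (a2.trans (b2 w))).trans (dvd_of_eq ?_)
        simp only [bl, det]
        ring)
      have c3 : (d : ℤ) ∣ ev ψ (v - w) := by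
        refine (dvd_sub (dvd_sub (dvd_add a2 a4) (a2.trans (b2 w))) (c2.mul_left (b v))).trans
          (dvd_of_eq ?_)
        simp only [bl, ev, Prod.fst_sub, Prod.snd_sub]
        ring
      by_contra ne
      rw [eq_Q0 hψ] at c3
      have c4 := Int.le_of_dvd (abs_pos.2 (ev_Q0 A _ ▸ Par.nq_ne (sub_ne_zero.2 ne)))
        ((dvd_abs _ _).2 c3)
      have c5 := LATD_small (A := A) (v - w) (LATD_near s0 e2) (LATD_near s0 e3)
      rw [hs] at c5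
      exact c4.not_gt (by exact_mod_cast c5)
  rw [card_product, card_product, card_powerset, Int.card_Icc, show ((⌈62 * t⌉₊ : ℤ) + 1 -
    -(⌈62 * t⌉₊ : ℤ)).toNat = 2 * ⌈62 * t⌉₊ + 1 by omega] at key
  have k1 : ((2 * ⌈62 * t⌉₊ + 1 : ℕ) : ℝ) ≤ 5 * (62 * t) := by
    have := Nat.ceil_lt_add_one (zero_le_one.trans R1)
    push_cast
    linarith
  calc _ ≤ (2 : ℝ) ^ d.primeFactors.card * ((2 * ⌈62 * t⌉₊ + 1 : ℕ) *
        (2 * ⌈62 * t⌉₊ + 1 : ℕ)) := by exact_mod_cast key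
    _ ≤ 2 ^ d.primeFactors.card * (5 * (62 * t) * (5 * (62 * t))) := by gcongr
    _ = 25 * 62 ^ 2 * 2 ^ d.primeFactors.card * t ^ 2 := by ring
    _ = _ := by rw [ht, mul_div_assoc]

end Pool.Agent.P.MP_6f5b02_nt.Hy
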