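import Pool.Agent.P.MP_6f5b02_nt.Hy.IfG
import Pool.Agent.P.MP_8be758_nt.Pd.TLOCID

/-! Step LOCID. -/

namespace Pool.Agent.P.MP_6f5b02_nt.Hy

open Pool.Agent.P.MP_8be758_nt Pool.Agent.P.MP_8be758_nt.Pd
open Finset Real Filter
open Pool.Agent.P.MP_8be758_nt.Par (det)

theorem p_LOCID (hK4 : S_K4) (hSDS : S_SDS) (hCYC : S_CYC) :
    S_LOCID := by
  obtain ⟨c1, h1⟩ := hSDS
  obtain ⟨c2, h2⟩ := hCYC
  refine ⟨max (max c1 c2) 1, fun A C1 => ⟨1, le_rfl, fun z hA hC hz => ?_⟩⟩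
  replace h1 := (h1 A C1).choose_spec.2 z hA hC (hz.mono (le_max_of_le_left (le_max_left _ _)))
  replace h2 := (h2 A C1).choose_spec.2 z hA hC (hz.mono (le_max_of_le_left (le_max_right _ _)))
  have hb := hz.mono (le_max_right _ _)
  refine (h1.and (h2.and (eventually_ge_atTop 1))).mono ?_
  clear h1 h2
  rintro y ⟨h1, h2, hy⟩ q D1 D2 c0 θ hAD g hg σ hσ
  set ρ : Pr := ⟨z, y⟩
  obtain ⟨hq, hDA, -⟩ := id hAD
  obtain ⟨d1, d2⟩ := DA_pos hDA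
  obtain ⟨eq, s1, s2, -, -, -, s3, s4, s5, s6, -⟩ := (mem_SD d1 d2).1 hσ
  obtain ⟨r1, r2, r3, r4, -, r5, r6, -⟩ := (h1 q D1 D2 hq hDA).2.2.2.1 σ hσ
  have eσ : mkS q (σ.e1, σ.a1) (σ.e2, σ.a2) (σ.s, σ.t) = σ := by
    subst eq
    simp [mkS]
  have hc := h2 q D1 D2 c0 hAD g hg (σ.e1, σ.a1) (by
      simp [Asg, s1, d1.ne', dvd_of_mul_right_dvd s1, dvd_of_mul_left_dvd s1]) (σ.e2, σ.a2) (by
      simp [Asg, s2, d2.ne', dvd_of_mul_right_dvd s2, dvd_of_mul_left_dvd s2]) (σ.s, σ.t)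
  simp only [eσ] at hc
  obtain ⟨x1, x2, x3, x4, x5, x6, x7, x8, x9, -⟩ := hc
  simp only [Pr.AT, Pr.AP, mem_filter] at hg
  have hg2 := hg.1.2.2.2.2
  clear h1 h2
  set x := ρ.cy (g, σ)
  have xs : x.s = σ.s := rfl
  have xt : x.t = σ.t := rfl
  have hst : IsCoprime ((σ.s : ℤ) * σ.t) σ.af := by
    have : IsCoprime ((σ.a : ℤ) + σ.af * (-1)) σ.af := r1.add_mul_left_left _
    convert this using 1
    simp [Sd.af]
  have hK : x.af ∣ x.Bt → x.Bt = σ.af * x.Nt ∧ x.As = σ.af * x.Ns := fun h => by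
    have ha : 0 < σ.a := lt_of_lt_of_le (by positivity) s3
    have ha' : 0 < x.a := Int.natCast_pos.2 ha
    have b0 : 0 < x.b := Ed_bpos hb.2.1 hb.2.2.1 hg.1.1
    have := hK4 z.A x hb.2.1 ⟨x3, x1, x2, ha', x6 ▸ r2, h,
      by rw [x6, xt]; exact hst.of_mul_left_right, by rw [VT.Bt, xt]; positivity,
      by rw [VT.As, xs]; positivity⟩
    rw [← x6]
    exact ⟨this.1.symm, this.2.1.symm⟩
  have hM : ∀ p ∈ ρ.Ps, (p : ℤ) ∣ x.P * x.R * x.a ↔ p ∣ D1 * D2 := fun p hp => by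
    have := Finset.ext_iff.1 x5 p
    simp only [mem_pf, hp, true_and] at this
    rw [this, Int.natCast_dvd_natCast]
  have hD : ∀ p : ℕ, p.Prime → p ∣ D1 * D2 → ¬(p : ℤ) ∣ σ.s * σ.t ∧ ¬(p : ℤ) ∣ σ.af := by
    intro p hp h
    have := mt (Nat.eq_one_of_dvd_coprimes s4 · h) hp.ne_one
    rw [hp.dvd_mul, not_or] at this
    exact ⟨by exact_mod_cast this.1, by rw [Int.natCast_dvd]; exact this.2⟩
  have hk2 : ∀ p : ℕ, p.Prime → ¬(p : ℤ) ^ 2 ∣ σ.af := fun p hp h => hp.not_isUnit (s5 p (by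
    rw [← Int.natCast_dvd, Nat.cast_mul, ← sq]; exact h))
  obtain ⟨q1, q3, q4⟩ : σ.q1 ∈ PP (y ^ z.k5) (y ^ z.k6) ∧ σ.q3 ∈ PP (y ^ z.k3) (y ^ z.k4) ∧
      σ.q4 ∈ PP y (y ^ z.k2) := by rwa [← eq] at hq
  have m1 : σ.e1 * σ.a1 * σ.e2 ∣ D1 * D2 := mul_dvd_mul s1 (dvd_of_mul_right_dvd s2)
  have m2 : σ.e1 * (σ.e2 * σ.a2) ∣ D1 * D2 := mul_dvd_mul (dvd_of_mul_right_dvd s1) s2
  have et : σ.dt = σ.q3 * σ.q4 * (σ.e1 * σ.a1 * σ.e2) := by simp only [Sd.dt, Sd.E1, Sd.E2]; ring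
  have es : σ.ds = σ.q3 * σ.q4 * σ.q1 * (σ.e1 * (σ.e2 * σ.a2)) := by
    simp only [Sd.ds, Sd.E1, Sd.E2]; ring
  have nd : ∀ {p r : ℕ} {u v : ℝ}, p.Prime → r ∈ PP u v → p ≠ r → ¬p ∣ r := fun hp hr e h =>
    e ((Nat.prime_dvd_prime_iff_eq hp (prime_of_PP hr)).1 h)
  refine ⟨?_, fun p hp hV h => ?_⟩
  swap
  · obtain ⟨e1, e2⟩ := hK hV.1
    have hpp := Nat.prime_iff_prime_int.1 (prime_of_PP hp)
    refine ⟨fun h' => (hV.2.1 p hp).1 ?_, ?_⟩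
    · have : (p : ℤ) ∣ x.P * x.R * x.a * σ.af := by
        rcases hpp.dvd_or_dvd h' with h' | h'
        · exact ((hM p hp).2 (by exact_mod_cast h')).mul_right _
        · exact h'.mul_left _
      rw [sq, VT.Pi6, x6, mul_assoc σ.af, ← mul_assoc]
      exact mul_dvd_mul this h
    · rw [← x7, ← x8, e1, e2]
      exact h.trans ⟨σ.dt * σ.ds * σ.af * σ.af, by ring⟩
  rw [Pr.cv, Pr.cw, Pr.om, x5, ← Pr.om, mul_assoc, mul_assoc _ (ind _)]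
  congr 1
  by_cases hB : x.af ∣ x.Bt
  · obtain ⟨e1, e2⟩ := hK hB
    have big : ∀ p ∈ ρ.Ps, ∀ (n r : ℕ) (v : ℝ), 1 ≤ n → r ∈ PP (y ^ n) v → ¬p ∣ r := by
      intro p hp n r v hn hr
      refine nd (prime_of_PP hp) hr fun e => ?_
      have a1 := ((mem_PP (by linarith)).1 hp).2.2
      have a2 := lt_of_PP hr
      have a3 : y ≤ y ^ n := le_self_pow₀ hy (by omega)
      rw [← e] at a2
      linarith
    obtain ⟨-, -, -, -, -, -, k1, k2, k3, k4, -⟩ := hb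
    rw [prod_eq_one (s := ρ.lp σ.af) fun p hp => ind_pos (by
      rw [← x7, e1]
      exact (Dvd.dvd.mul_right (Int.natCast_dvd.2
        (Nat.dvd_of_mem_primeFactors (mem_filter.1 hp).1)) _).mul_left _), one_mul, Pr.Val,
      ind_and, ind_pos hB, one_mul, ind_and, LOCID_congr x9, LOCID_all, ← mul_assoc, mul_comm,
      Pr.om, Pr.pf, ← prod_const, prod_filter, ← prod_mul_distrib]
    congr 1
    refine prod_congr rfl fun p hp => ?_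
    have hp' := prime_of_PP hp
    have n3 := big p hp _ _ _ (by omega) q3
    have n4 := big p hp 1 _ _ le_rfl (by rw [pow_one]; exact q4)
    have n1 := big p hp _ _ _ (by omega) q1
    have t1 := LOCID_d hp' hDA.1 m1 (mt hp'.dvd_mul.1 (not_or.2 ⟨n3, n4⟩))
    have t2 := LOCID_d hp' hDA.1 m2 (mt hp'.dvd_mul.1 (not_or.2
      ⟨mt hp'.dvd_mul.1 (not_or.2 ⟨n3, n4⟩), n1⟩))
    rw [← et] at t1
    rw [← es] at t2
    have hpp := Nat.prime_iff_prime_int.1 hp'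
    rw [VT.Pi6, x6, xs, xt]
    exact LOCID_loc hpp θ _ σ _ _ _ _ (hM p hp) (x4 ▸ hg2 p hp) (hk2 p hp') (hD p hp')
      (fun a b => hpp.not_isUnit (hst.isUnit_of_dvd' b a)) t1.1 t2.1 t1.2 t2.2
      (by rw [← x7, e1]) (by rw [← x8, e2])
  rw [ind_neg fun h : ρ.Val x => hB h.1, mul_zero]
  obtain ⟨p, hp, a1, a2⟩ : ∃ p : ℕ, p.Prime ∧ (p : ℤ) ∣ σ.af ∧ ¬(p : ℤ) ∣ x.Bt := by
    by_contra! h
    refine hB ?_
    rw [x6, ← Int.natAbs_dvd, ← Nat.prod_primeFactors_of_squarefree s5, Int.natCast_dvd]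
    refine Finset.prod_primes_dvd _ (fun p hp => (Nat.prime_of_mem_primeFactors hp).prime)
      fun p hp => Int.natCast_dvd.1 (h p (Nat.prime_of_mem_primeFactors hp)
        (Int.natCast_dvd.2 (Nat.dvd_of_mem_primeFactors hp)))
  have b1 : ¬p ∣ D1 * D2 := fun h => (hD p hp h).2 a1
  have b2 := mt (LOCID_d hp hDA.1 m1 (mt hp.dvd_mul.1 (not_or.2
    ⟨nd hp q3 fun e => r5 (e ▸ a1), nd hp q4 fun e => r6 (e ▸ a1)⟩))).1 b1
  rw [← et] at b2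
  have b3 : ¬(p : ℤ) ∣ ev (ρ.fm g) σ.ut := by
    rw [← x7, LOCID_one (Nat.prime_iff_prime_int.1 hp) b2]
    exact a2
  rcases lt_or_ge y p with h | h
  · rw [prod_eq_zero (s := ρ.lp σ.af) (i := p) (mem_filter.2 ⟨Nat.mem_primeFactors.2
      ⟨hp, Int.natCast_dvd.1 a1, by omega⟩, h⟩) (ind_neg b3), zero_mul, mul_zero]
  · rw [prod_eq_zero (s := ρ.Ps) (i := p) ((mem_PP (by linarith)).2
      ⟨hp, by exact_mod_cast (s6 p hp a1).1, h⟩) (by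
        rw [Pr.fv, if_neg b1, if_pos a1, ind_neg fun e => b3 e.1, mul_zero]), mul_zero, mul_zero]

end Pool.Agent.P.MP_6f5b02_nt.Hy
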