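import Pool.Agent.P.MP_6f5b02_nt.Hy.IfH
import Pool.Agent.P.MP_8be758_nt.Pd.TLOCW

/-! Step LOCW. -/

namespace Pool.Agent.P.MP_6f5b02_nt.Hy

open Pool.Agent.P.MP_8be758_nt Pool.Agent.P.MP_8be758_nt.Pd
open Finset Real Filter
open Pool.Agent.P.MP_8be758_nt.Par (det)

theorem p_LOCW :
    S_LOCW := by
  intro p P R a b u hp hd hu ha hR
  have hq : Prime (p : ℤ) := Nat.prime_iff_prime_int.1 hp
  by_cases h2 : (p : ℤ) ∣ 2
  · have hp2 : p = 2 := by
      have : p ∣ 2 := by exact_mod_cast h2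
      exact (Nat.prime_dvd_prime_iff_eq hp Nat.prime_two).1 this
    subst hp2
    have hb : Odd b := (Int.odd_pow' two_ne_zero).1 ⟨2 * P * (a * R) + 8, by linear_combination hd⟩
    obtain ⟨n, rfl⟩ := hb
    obtain ⟨t, ht, hB⟩ := LOCW_shift _ (a * R) (2 * n + 1) P 1 hq hq.not_dvd_one (by
      push_cast
      omega)
    obtain ⟨s, s1, s2⟩ : ∃ s : ℤ, 2 ∣ s ∧ ¬(4 : ℤ) ∣ a * P + (2 * n + 1) * s + R * s ^ 2 := by
      by_cases h : (4 : ℤ) ∣ a * P
      · exact ⟨2, dvd_rfl, by omega⟩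
      · exact ⟨0, dvd_zero _, by simpa using h⟩
    have s3 := s1.mul_right t
    push_cast at ha
    by_cases h : (a - s * t) % 4 = 1
    · exact ⟨s, t, (1, 0), ht, s1, hB, .inl s2, by simpa [ev, Int.ModEq] using h.symm⟩
    · exact ⟨s, t, (1, 2), ht, s1, hB, .inl s2, by
        simp only [ev, Int.ModEq]
        omega⟩
  · obtain ⟨t, ht, hB⟩ := LOCW_t p P R a b hq h2 ha hR
    by_cases hr : (p : ℤ) ∣ R
    · by_cases hP : (p : ℤ) ^ 2 ∣ a * P
      · have hP1 : (p : ℤ) ∣ P :=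
          (hq.dvd_or_dvd ((dvd_pow_self _ two_ne_zero).trans hP)).resolve_left ha
        have hb : ¬(p : ℤ) ∣ b := fun hb => hR hP1 hb hr
        have h2a : ¬(p : ℤ) ∣ 2 * a := fun h => (hq.dvd_or_dvd h).elim h2 ha
        obtain ⟨u', i, hui⟩ : IsCoprime (p : ℤ) (2 * a) := (hq.coprime_iff_not_dvd).2 h2a
        refine ⟨p, t, ((1 - p * t * i) * u.1, (1 - p * t * i) * u.2), ht, dvd_refl _, hB,
          Or.inl fun h => hb ?_, ?_⟩
        · have h3 := dvd_sub (dvd_sub h hP) (dvd_mul_left ((p : ℤ) ^ 2) R)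
          rw [show a * P + b * p + R * (p : ℤ) ^ 2 - a * P - R * (p : ℤ) ^ 2 = p * b by ring,
            pow_two] at h3
          exact (mul_dvd_mul_iff_left hq.ne_zero).1 h3
        · refine Int.modEq_iff_dvd.2 ⟨-(t * u') - t ^ 2 * i ^ 2 * a, ?_⟩
          simp only [ev] at hu ⊢
          push_cast
          linear_combination ((p : ℤ) * t) * hui - (1 - p * t * i) ^ 2 * hu
      · exact ⟨0, t, u, ht, dvd_zero _, hB, Or.inl (by simpa using hP), by simp [hu]⟩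
    · exact ⟨0, t, u, ht, dvd_zero _, hB, Or.inr hr, by simp [hu]⟩

end Pool.Agent.P.MP_6f5b02_nt.Hy
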