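import Pool.Agent.P.MP_6f5b02_nt.Hy.IfG
import Pool.Agent.P.MP_8be758_nt.Pd.TLOW

/-! Step LOW. -/

namespace Pool.Agent.P.MP_6f5b02_nt.Hy

open Pool.Agent.P.MP_8be758_nt Pool.Agent.P.MP_8be758_nt.Pd
open Finset Real Filter
open Pool.Agent.P.MP_8be758_nt.Par (det)

theorem LOW_hh (ρ : Pr) (k : ℤ) (hy : 0 ≤ ρ.y) (k0 : 0 < k) (hs : Squarefree k.natAbs)
    (hw : ∀ p : ℕ, p.Prime → (p : ℤ) ∣ k → ρ.w < p) :
    ρ.hh (1 / 6) k = (∏ p ∈ ρ.Ps, ρ.sm k p) * ∏ p ∈ ρ.lp k, (rho ρ.A p : ℝ) / p := by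
  have e1 : ρ.pf k = k.natAbs.primeFactors.filter fun p : ℕ => ¬ρ.y < (p : ℝ) := by
    ext p
    simp only [mem_pf, Pr.Ps, mem_PP hy, mem_filter, Nat.mem_primeFactors, not_lt,
      Int.natCast_dvd]
    constructor
    · rintro ⟨⟨a, -, b⟩, c⟩
      exact ⟨⟨a, c, hs.ne_zero⟩, b⟩
    · rintro ⟨⟨a, c, -⟩, b⟩
      exact ⟨⟨a, by exact_mod_cast hw p a (Int.natCast_dvd.2 c), b⟩, c⟩
  have e2 : ∏ p ∈ ρ.Ps, ρ.sm k p = (1 / 6) ^ ρ.om k * ∏ p ∈ ρ.pf k, (rho ρ.A p : ℝ) / p := by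
    rw [Pr.om, ← prod_const, ← prod_mul_distrib, Pr.pf, prod_filter]
    refine prod_congr rfl fun p _ => ?_
    unfold Pr.sm
    split_ifs
    · ring
    · rfl
  have e3 : (k : ℝ) = ∏ p ∈ k.natAbs.primeFactors, (p : ℝ) := by
    rw [← Nat.cast_prod, Nat.prod_primeFactors_of_squarefree hs, Nat.cast_natAbs, abs_of_pos k0]
  rw [e2, mul_assoc, e1, Pr.lp, mul_comm (∏ p ∈ _, _), prod_filter_mul_prod_filter_not,
    prod_div_distrib, ← e3, Pr.hh, rr, Nat.cast_prod, mul_div_assoc]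

theorem p_LOW (hMCA : S_MCA) (hATC : S_ATC) (hLOCID : S_LOCID) (hLOWP : S_LOWP) (hSVP : S_SVP) (hSDS : S_SDS) (hL1 : S_L1) (hLAM : S_LAM) :
    S_LOW := by
  obtain ⟨c1, h1⟩ := hMCA
  obtain ⟨c2, h2⟩ := hATC
  obtain ⟨c3, h3⟩ := hLOCID
  obtain ⟨c4, h4⟩ := hLOWP
  obtain ⟨c5, h5⟩ := hSVP
  obtain ⟨c6, h6⟩ := hSDS
  obtain ⟨c7, h7⟩ := hLAM
  refine ⟨c1 + c2 + c3 + c4 + c5 + c6 + c7 + 160000, fun A C1 => ⟨321, by norm_num, ?_⟩⟩
  obtain ⟨_, -, h1⟩ := h1 A C1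
  obtain ⟨_, -, h2⟩ := h2 A C1
  obtain ⟨_, -, h3⟩ := h3 A C1
  obtain ⟨_, -, h4⟩ := h4 A C1
  obtain ⟨_, -, h5⟩ := h5 A C1
  obtain ⟨_, -, h6⟩ := h6 A C1
  obtain ⟨_, -, h7⟩ := h7 A C1
  intro z zA zC zB
  filter_upwards [h1 z zA zC (zB.mono (by omega)), h2 z zA zC (zB.mono (by omega)),
    h3 z zA zC (zB.mono (by omega)), h4 z zA zC (zB.mono (by omega)),
    h5 z zA zC (zB.mono (by omega)), h6 z zA zC (zB.mono (by omega)),
    h7 z zA zC (zB.mono (by omega)), eventually_ge_atTop ((2 : ℝ) ^ z.U + 1),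
    eventually_ge_atTop ((z.U : ℝ) * √z.w)] with y h1 h2 h3 h4 h5 h6 h7 y1 y2
  obtain ⟨-, b2, -, b4, b5, b6, b7, b8, b9, b10, b11, b12, -⟩ := zB.mono
    (show 160000 ≤ _ by omega)
  obtain ⟨ρ, rfl, rfl⟩ : ∃ ρ : Pr, ρ.toSt = z ∧ ρ.y = y := ⟨⟨z, y⟩, rfl, rfl⟩
  have hρ : (⟨ρ.toSt, ρ.y⟩ : Pr) = ρ := rfl
  obtain ⟨-, -, -, l1, -, l2, l3⟩ := h7
  rw [hρ] at h1 h2 h3 h4 h5 h6 l1 l2 l3 ⊢
  have y0 : (1 : ℝ) ≤ ρ.y := by linarith [show (0 : ℝ) ≤ 2 ^ ρ.U by positivity]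
  have yp : 0 < ρ.y := lt_of_lt_of_le one_pos y0
  intro q D1 D2 c0 hAD σ hσ
  have hE : ∀ n, 0 ≤ ρ.Er n := fun n => by unfold Pr.Er Pr.X; positivity
  obtain ⟨hQ, hD, -⟩ := id hAD
  have hcv := fun g hg => (h3 q D1 D2 c0 (1 / 6) hAD g hg σ hσ).1
  rw [sum_congr rfl hcv]
  by_cases hG : σ.GW0 ρ.w (ρ.fm c0)
  swap
  · simp only [ind_neg hG, zero_mul, mul_zero, sum_const_zero]
    linarith [hE 29]
  simp only [ind_pos hG, one_mul, mul_one]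
  rw [← mul_sum]
  obtain ⟨p1, p2⟩ := DA_pos hD
  obtain ⟨hq, s1, -, -, -, -, -, s7, s8, s9, -, -, -, s13⟩ := (mem_SD p1 p2).1 hσ
  obtain ⟨-, k0, -, -, n1, n3, n4, kU, hh⟩ := (h6 q D1 D2 hQ hD).2.2.2.1 σ hσ
  have w1 : (160000 : ℝ) ≤ ρ.w := by exact_mod_cast b5
  have w2 : 400 ≤ √ρ.w := by
    rw [show (400 : ℝ) = √(400 ^ 2) by rw [sqrt_sq]; norm_num]
    exact sqrt_le_sqrt (by linarith)
  have hP : ∀ p ∈ ρ.Ps, (160000 : ℝ) ≤ p := fun p hp => w1.trans (lt_of_PP hp).le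
  have hcop : ∀ p : ℕ, p.Prime → (p : ℤ) ∣ σ.af → ¬p ∣ D1 * D2 := fun p hp a b =>
    hp.one_lt.ne' (Nat.eq_one_of_dvd_coprimes s7 ((Int.natCast_dvd.1 a).mul_left _) b)
  have hlp : ∀ p ∈ ρ.lp σ.af, p.Prime ∧ (p : ℤ) ∣ σ.af ∧ ρ.y < p := fun p hp => by
    simp only [Pr.lp, mem_filter, Nat.mem_primeFactors] at hp
    exact ⟨hp.1.1, Int.natCast_dvd.2 hp.1.2.1, hp.2⟩
  have hA : 5 ≤ ρ.A := le_trans (by norm_num) b2
  have kr : ((σ.af.natAbs : ℕ) : ℝ) = σ.af := by rw [Nat.cast_natAbs, abs_of_pos k0]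
  have hm := h1 q D1 D2 c0 (ρ.Ps.filter fun p : ℕ => (p : ℤ) ∣ (D1 * D2 : ℕ) * σ.af) (ρ.lp σ.af)
    (fun p g => Pr.fv (1 / 6) (D1 * D2) σ p (ρ.fm g)) (fun p g => ind ((p : ℤ) ∣ ev (ρ.fm g) σ.ut))
    hAD (filter_subset _ _) (fun p hp => by
      obtain ⟨a, b, c⟩ := hlp p hp
      refine ⟨a, c, ?_, ?_, ?_, fun g h e => ?_, fun g => ⟨ind_nonneg _, ind_le_one _⟩⟩
      · rintro rfl; rw [← hq] at b; exact n1 b
      · rintro rfl; rw [← hq] at b; exact n3 b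
      · rintro rfl; rw [← hq] at b; exact n4 b
      · exact congrArg ind (propext (dvd_iff_of_modEq (ev_act_modEq (Q0 ρ.A) e σ.ut)
          (by push_cast; exact dvd_pow_self _ two_ne_zero))))
    (by
      have a1 := LOW_le (ρ.Ps.filter fun p : ℕ => (p : ℤ) ∣ (D1 * D2 : ℕ) * σ.af)
        (D1 * D2 * σ.af.natAbs) (by have := s8.ne_zero; positivity) fun p hp =>
        ⟨prime_of_PP (mem_filter.1 hp).1, by
          simpa [Int.natAbs_mul] using Int.natCast_dvd.1 (mem_filter.1 hp).2⟩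
      have a2 := LOW_le (ρ.lp σ.af) σ.af.natAbs (Nat.pos_of_ne_zero s8.ne_zero) fun p hp =>
        ⟨(hlp p hp).1, Int.natCast_dvd.1 (hlp p hp).2.1⟩
      push_cast at a1
      rw [kr] at a1 a2
      have kp : (0 : ℝ) ≤ σ.af := by exact_mod_cast k0.le
      calc _ ≤ (D1 * D2 * (σ.af : ℝ)) * σ.af :=
            mul_le_mul a1 a2 (prod_nonneg fun _ _ => Nat.cast_nonneg _) (by positivity)
        _ ≤ (ρ.y ^ ρ.K * ρ.y ^ ρ.K * ρ.y ^ ρ.U) * ρ.y ^ ρ.U := by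
            have := hD.2.2.1
            have := hD.2.2.2.1
            gcongr
        _ ≤ _ := by
            rw [← pow_add, ← pow_add, ← pow_add]
            refine pow_le_pow_right₀ y0 ?_
            unfold St.U
            omega)
    (fun p hp => by
      obtain ⟨a, b, c, -⟩ := h5 q D1 D2 (1 / 6) (1 / 6) hQ hD (by norm_num) (by norm_num)
        (by norm_num) (by norm_num) σ hσ σ hσ p hp
      exact ⟨a, fun g => b _, fun h => c fun h' => h (mem_filter.2 ⟨hp, h'⟩)⟩)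
  obtain ⟨z0, hz⟩ := h2 q D1 D2 c0 hAD
  have ga0 : ∀ p ∈ ρ.Ps, 0 ≤ ρ.ga p ∧ ρ.ga p ≤ 1 := fun p hp => by
    have a := hP p hp
    have b : (rho ρ.A p : ℝ) ≤ 2 := by rcases l1 p hp with h | h <;> rw [h] <;> norm_num
    have c : (0 : ℝ) ≤ 5 / 3 * (rho ρ.A p : ℝ) / p := by positivity
    have d : 5 / 3 * (rho ρ.A p : ℝ) / p ≤ 1 := by rw [div_le_one (by linarith)]; linarith
    unfold Pr.ga
    constructor <;> linarith
  have G0 : 0 ≤ ρ.Gm (D1 * D2) := prod_nonneg fun p hp => (ga0 p (mem_filter.1 hp).1).1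
  have G1 : ρ.Gm (D1 * D2) ≤ 1 := prod_le_one (fun p hp => (ga0 p (mem_filter.1 hp).1).1)
    fun p hp => (ga0 p (mem_filter.1 hp).1).2
  obtain ⟨u0, u1⟩ := hh (1 / 6) (by norm_num)
  have u2 : ρ.hh (1 / 6) σ.af ≤ 2 ^ ρ.U := by
    refine u1.trans (mul_le_of_le_one_right (by positivity) ?_)
    have a : (1 : ℝ) ≤ σ.af := by exact_mod_cast k0
    rw [div_le_one (by linarith)]
    exact (mul_le_one₀ (pow_le_one₀ (by norm_num) (by norm_num)) (ind_nonneg _)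
      (ind_le_one _)).trans a
  have sm0 : ∀ p, 0 ≤ ρ.sm σ.af p := fun p => by unfold Pr.sm; split_ifs <;> positivity
  have aa0 : ∀ p, 0 ≤ ρ.aa D1 D2 p := fun p => Sys.av_nonneg _ _ fun g => LOW_al _ _ _ _
  have Z0 : 0 ≤ ρ.Zb q c0 := by
    unfold Pr.Zb
    exact mul_nonneg (mul_nonneg (Nat.cast_nonneg _) (Sys.av_nonneg _ _ fun _ => ind_nonneg _))
      (mul_nonneg (mul_nonneg (Sys.av_nonneg _ _ fun _ => ind_nonneg _)
        (Sys.av_nonneg _ _ fun _ => ind_nonneg _)) (Sys.av_nonneg _ _ fun _ => ind_nonneg _))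
  have r0 : 0 ≤ 1 / √ρ.w := by positivity
  have r1 : 321 * (1 / √ρ.w) ≤ 1 := by
    rw [mul_one_div, div_le_one (by linarith)]; linarith
  -- large primes
  have v1 : (∏ p ∈ ρ.lp σ.af, (rho ρ.A p : ℝ) / p) * (1 - 1 / √ρ.w) ≤
      ∏ p ∈ ρ.lp σ.af, S4.av (p ^ 2) fun g => ind ((p : ℤ) ∣ ev (ρ.fm g) σ.ut) := by
    have i1 : 1 / ρ.y ≤ 1 := by rw [div_le_one yp]; exact y0
    have a := LOW_prod (ρ.lp σ.af) (fun _ => 1 / ρ.y) fun _ _ => ⟨by positivity, i1⟩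
    have b : ∑ _p ∈ ρ.lp σ.af, 1 / ρ.y ≤ 1 / √ρ.w := by
      have c : ((ρ.lp σ.af).card : ℝ) ≤ ρ.U := by
        exact_mod_cast l3 σ.af k0.ne' ρ.U (by rwa [abs_of_pos (by exact_mod_cast k0)])
      rw [sum_const, nsmul_eq_mul, mul_one_div, div_le_div_iff₀ yp (by linarith), one_mul]
      exact (mul_le_mul_of_nonneg_right c (sqrt_nonneg _)).trans y2
    refine (mul_le_mul_of_nonneg_left (le_trans (by linarith) a)
      (prod_nonneg fun _ _ => by positivity)).trans ?_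
    rw [← prod_mul_distrib]
    refine prod_le_prod (fun p _ => mul_nonneg (by positivity) (by linarith)) fun p hp => ?_
    obtain ⟨a, b, c⟩ := hlp p hp
    have e := (hL1 ρ.A p (Q0 ρ.A) σ.ut hA (isF_Q0 _) a (lt_of_le_of_lt b4 (s9 p a b).1)
      fun h => by
        have d : p ∣ σ.e1 * σ.a1 * σ.q3 := by
          have := Int.natCast_dvd_natCast.1 h.2
          rwa [Sd.E1, mul_right_comm] at this
        rcases a.dvd_mul.1 d with d | d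
        · exact hcop p a b ((d.trans s1).mul_right _)
        · have q3p : σ.q3.Prime := by rw [← hq] at hQ; exact prime_of_PP hQ.2.1
          rw [(Nat.prime_dvd_prime_iff_eq a q3p).1 d] at b
          exact n3 b).2.2
    refine le_trans ?_ e.ge
    have pp : (0 : ℝ) < p := by linarith
    have f : 1 - 1 / ρ.y ≤ p / (p + 1) := by
      have : 1 / ((p : ℝ) + 1) ≤ 1 / ρ.y := one_div_le_one_div_of_le yp (by linarith)
      have g : (p : ℝ) / (p + 1) = 1 - 1 / (p + 1) := by field_simp; ring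
      linarith
    refine (mul_le_mul_of_nonneg_left f (by positivity)).trans_eq (by field_simp)
  -- small primes
  set e : ℕ → ℝ := fun p => if (p : ℤ) ∣ (D1 * D2 : ℕ) * (σ.s * σ.t * σ.af) then 30 / (p : ℝ)
    else 200 / (p : ℝ) ^ 2 with he
  have e0 : ∀ p ∈ ρ.Ps, 0 ≤ e p ∧ e p ≤ 1 := fun p hp => by
    have a := hP p hp
    simp only [he]
    split_ifs
    · exact ⟨by positivity, by rw [div_le_one (by linarith)]; linarith⟩
    · exact ⟨by positivity, by rw [div_le_one (by positivity)]; nlinarith⟩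
  have e1 : ∑ p ∈ ρ.Ps, e p ≤ 320 * (1 / √ρ.w) := by
    have a : ∑ p ∈ ρ.Ps, e p ≤ 30 * ρ.si ((D1 * D2 : ℕ) * (σ.s * σ.t * σ.af)) +
        200 * ∑ p ∈ ρ.Ps, (1 : ℝ) / p ^ 2 := by
      rw [Pr.si, Pr.pf, sum_filter, mul_sum, mul_sum, ← sum_add_distrib]
      refine sum_le_sum fun p _ => ?_
      simp only [he]
      have : (0 : ℝ) ≤ 1 / (p : ℝ) ^ 2 := by positivity
      split_ifs
      · rw [mul_one_div]; linarith
      · rw [mul_one_div]; linarith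
    have b := LOW_si ρ (D1 * D2 : ℕ) (σ.s * σ.t * σ.af)
    have c := hD.2.2.2.2.2.2
    have d : 1 / (ρ.w : ℝ) ≤ 1 / √ρ.w := one_div_le_one_div_of_le (by linarith) (by
      have := mul_self_sqrt (show (0 : ℝ) ≤ ρ.w by linarith)
      nlinarith)
    have f : 3 / √ρ.w = 3 * (1 / √ρ.w) := by ring
    linarith
  have v2 : (∏ p ∈ ρ.Ps, ρ.aa D1 D2 p) * (ρ.Gm (D1 * D2) * ∏ p ∈ ρ.Ps, ρ.sm σ.af p) *
      (1 - 320 * (1 / √ρ.w)) ≤ ∏ p ∈ ρ.Ps, S4.av (p ^ 2) fun g =>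
        Pr.al D1 D2 p (ρ.fm g) * Pr.fv (1 / 6) (D1 * D2) σ p (ρ.fm g) := by
    have a : ρ.Gm (D1 * D2) * ∏ p ∈ ρ.Ps, ρ.sm σ.af p =
        ∏ p ∈ ρ.Ps, if p ∣ D1 * D2 then 1 else ρ.ga p * ρ.sm σ.af p := by
      rw [Pr.Gm, prod_filter, ← prod_mul_distrib]
      refine prod_congr rfl fun p hp => ?_
      by_cases h : p ∣ D1 * D2
      · rw [if_neg (not_not.2 h), if_pos h, one_mul, Pr.sm,
          if_neg fun h' => hcop p (prime_of_PP hp) h' h]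
      · rw [if_pos h, if_neg h, Pr.ga]
    refine (mul_le_mul_of_nonneg_left (le_trans (by linarith) (LOW_prod ρ.Ps e e0))
      (mul_nonneg (prod_nonneg fun p _ => aa0 p)
        (mul_nonneg G0 (prod_nonneg fun p _ => sm0 p)))).trans ?_
    rw [a, ← prod_mul_distrib, ← prod_mul_distrib]
    refine prod_le_prod (fun p hp => mul_nonneg (mul_nonneg (aa0 p) ?_) (sub_nonneg.2 (e0 p hp).2))
      fun p hp => h4 q D1 D2 hQ hD σ hσ p hp
    split_ifs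
    · exact zero_le_one
    · exact mul_nonneg (ga0 p hp).1 (sm0 p)
  have hk := LOW_hh ρ σ.af yp.le k0 s8 fun p a b => (s9 p a b).1
  have key := LOW_arith (δ := 1 / 2 ^ ρ.K') (r := 1 / √ρ.w) (t := (1 / 3) ^ ρ.om (D1 * D2 : ℕ))
    (H := ρ.Gm (D1 * D2) * ρ.hh (1 / 6) σ.af) (B := 2 ^ ρ.U) (by positivity)
    (by rw [div_le_one (by positivity)]; exact one_le_pow₀ (by norm_num)) r0 r1 (by positivity)
    (pow_le_one₀ (by norm_num) (by norm_num)) (mul_nonneg G0 u0)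
    ((mul_le_of_le_one_left u0 G1).trans u2) z0 (Nat.cast_nonneg (ρ.AT q D1 D2 c0).card) (hE 30)
    (LOW_abs hm).1
    (by
      have a1 : 0 ≤ ∏ p ∈ ρ.lp σ.af, (rho ρ.A p : ℝ) / p := prod_nonneg fun _ _ => by positivity
      have a2 : 0 ≤ (∏ p ∈ ρ.Ps, ρ.aa D1 D2 p) * (ρ.Gm (D1 * D2) * ∏ p ∈ ρ.Ps, ρ.sm σ.af p) :=
        mul_nonneg (prod_nonneg fun p _ => aa0 p) (mul_nonneg G0 (prod_nonneg fun p _ => sm0 p))
      have a3 := mul_le_mul v1 v2 (mul_nonneg a2 (by linarith))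
        (le_trans (mul_nonneg a1 (by linarith)) v1)
      rw [mul_assoc (ρ.Zb q c0) (∏ p ∈ ρ.lp σ.af, _)]
      refine le_trans ?_ (mul_le_mul_of_nonneg_left a3 Z0)
      have a4 : 1 - 321 * (1 / √ρ.w) ≤ (1 - 1 / √ρ.w) * (1 - 320 * (1 / √ρ.w)) := by
        nlinarith [mul_nonneg r0 r0]
      have a5 := mul_le_mul_of_nonneg_left a4 (mul_nonneg Z0 (mul_nonneg a1 a2))
      rw [hk]
      linarith)
    (LOW_abs hz).2
  have fin : (2 ^ ρ.U + 1) * ρ.Er 30 ≤ ρ.Er 29 := by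
    have a : ρ.Er 29 = ρ.y ^ ρ.K' * ρ.Er 30 := by
      unfold Pr.Er
      rw [show 30 * ρ.K' = ρ.K' + 29 * ρ.K' by ring, pow_add]
      field_simp
    rw [a]
    refine mul_le_mul_of_nonneg_right (y1.trans (le_self_pow₀ y0 ?_)) (hE 30)
    omega
  rw [Pr.Mw, Pr.ep, mul_assoc ((1 / 3 : ℝ) ^ _)]
  linarith

end Pool.Agent.P.MP_6f5b02_nt.Hy
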