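import Pool.Agent.P.MP_6f5b02_nt.Hy.IfG
import Pool.Agent.P.MP_8be758_nt.Pd.TLOWP

/-! Step LOWP. -/

namespace Pool.Agent.P.MP_6f5b02_nt.Hy

open Pool.Agent.P.MP_8be758_nt Pool.Agent.P.MP_8be758_nt.Pd
open Finset Real Filter
open Pool.Agent.P.MP_8be758_nt.Par (det)

theorem LOWP_main (hOK : S_OK) (hL1 : S_L1) (hL2 : S_L2) (hL3 : S_L3) (ρ : Pr) (D1 D2 p : ℕ) (σ : Sd)
    (hA : 5 ≤ ρ.A) (hp : p.Prime) (h4 : 4 * ρ.A < p) (h100 : 100 ≤ p)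
    (q1 : ¬p ∣ σ.q1) (q3 : ¬p ∣ σ.q3) (q4 : ¬p ∣ σ.q4) (d1 : σ.e1 * σ.a1 ∣ D1) (d2 : σ.e2 * σ.a2 ∣ D2)
    (hsq : Squarefree (D1 * D2)) (hco : (σ.s * σ.t * σ.af.natAbs).Coprime (D1 * D2))
    (hca : IsCoprime (σ.a : ℤ) σ.af)
    (a1 : p ∣ D1 * D2 → (rho ρ.A p : ℝ) / (2 * p) ≤ ρ.aa D1 D2 p)
    (a2 : ¬p ∣ D1 * D2 → ρ.aa D1 D2 p ≤ 1 - 2 * (rho ρ.A p : ℝ) / p + 50 / (p : ℝ) ^ 2 ∧
      ρ.aa D1 D2 p ≤ 1) :
    ρ.aa D1 D2 p * (if p ∣ D1 * D2 then 1 else ρ.ga p * ρ.sm σ.af p) *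
      (1 - if (p : ℤ) ∣ (D1 * D2 : ℕ) * (σ.s * σ.t * σ.af) then 30 / (p : ℝ) else 200 / (p : ℝ) ^ 2) ≤
    S4.av (p ^ 2) (fun g => Pr.al D1 D2 p (ρ.fm g) * Pr.fv (1 / 6) (D1 * D2) σ p (ρ.fm g)) := by
  have hq : Prime (p : ℤ) := Nat.prime_iff_prime_int.1 hp
  have hF := isF_Q0 ρ.A
  have hne := hOK.2.2.2.1 (p ^ 2) (pow_pos hp.pos 2)
  have p0 : (100 : ℝ) ≤ p := by exact_mod_cast h100
  have p1 : (0 : ℝ) < p := by linarith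
  have c12 : ¬(p ∣ D1 ∧ p ∣ D2) := fun h =>
    hp.not_isUnit (hsq p (Nat.mul_dvd_mul h.1 h.2))
  have cst : p ∣ D1 * D2 → ¬p ∣ σ.s ∧ ¬p ∣ σ.t := fun h =>
    ⟨fun k => hp.one_lt.ne' (Nat.eq_one_of_dvd_coprimes hco ((k.mul_right _).mul_right _) h),
      fun k => hp.one_lt.ne' (Nat.eq_one_of_dvd_coprimes hco ((k.mul_left _).mul_right _) h)⟩
  have f1 : p ∣ σ.e1 → p ∣ D1 := fun h => (h.mul_right _).trans d1
  have f2 : p ∣ σ.a1 → p ∣ D1 := fun h => (h.mul_left _).trans d1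
  have f3 : p ∣ σ.e2 → p ∣ D2 := fun h => (h.mul_right _).trans d2
  have f4 : p ∣ σ.a2 → p ∣ D2 := fun h => (h.mul_left _).trans d2
  have f5 : p ∣ D1 * D2 ↔ p ∣ D1 ∨ p ∣ D2 := hp.dvd_mul
  have vt : ¬((p : ℤ) ∣ σ.ut.1 ∧ (p : ℤ) ∣ σ.ut.2) := by
    simp only [Sd.ut, Int.natCast_dvd_natCast, Sd.E1, Sd.E2, hp.dvd_mul]
    grind
  have vs : ¬((p : ℤ) ∣ σ.us.1 ∧ (p : ℤ) ∣ σ.us.2) := by
    simp only [Sd.us, Int.natCast_dvd_natCast, Sd.E1, Sd.E2, hp.dvd_mul]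
    grind
  have v1 : ¬((p : ℤ) ∣ ((1, 0) : V2).1 ∧ (p : ℤ) ∣ ((1, 0) : V2).2) := fun h => hq.not_dvd_one h.1
  have v2 : ¬((p : ℤ) ∣ ((0, 1) : V2).1 ∧ (p : ℤ) ∣ ((0, 1) : V2).2) := fun h => hq.not_dvd_one h.2
  have g1 : ∀ u : V2, det (1, 0) u = u.2 := fun u => by simp [det]
  have g2 : ∀ u : V2, (p : ℤ) ∣ det (0, 1) u ↔ (p : ℤ) ∣ u.1 := fun u => by simp [det]
  have L1 := fun u hu => (hL1 ρ.A p _ u hA hF hp h4 hu).2.2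
  have L2 := fun u u' hu => hL2 ρ.A p _ u u' hA hF hp h4 hu
  have L3 := fun u hu => hL3 ρ.A p _ u hA hF hp h4 hu
  obtain ⟨r2, r1, -⟩ := hL1 ρ.A p _ _ hA hF hp h4 v1
  have hk : (rho ρ.A p : ℝ) = 0 ∨ (rho ρ.A p : ℝ) = 2 := by
    have : rho ρ.A p = 0 ∨ rho ρ.A p = 2 := by omega
    exact_mod_cast this
  set k : ℝ := (rho ρ.A p : ℝ) with hkd
  have k0 : 0 ≤ k := by rcases hk with e | e <;> linarith
  have k2 : k ≤ 2 := by rcases hk with e | e <;> linarith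
  have hal : ∀ φ, 0 ≤ Pr.al D1 D2 p φ := fun φ => by
    unfold Pr.al; split_ifs <;> exact ind_nonneg _
  have aa0 : 0 ≤ ρ.aa D1 D2 p := S4.av_nonneg _ fun g => hal _
  set r : ℝ := 1 / p with hr
  have r0 : 0 < r := by positivity
  have r1' : r ≤ 1 / 100 := one_div_le_one_div_of_le (by norm_num) p0
  have w1 : ∀ x : ℝ, x / p = x * r := fun x => by rw [hr]; ring
  have w2 : ∀ x : ℝ, x / (p : ℝ) ^ 2 = x * r ^ 2 := fun x => by rw [hr]; ring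
  have w3 : k / (p + 1) ≤ k * r := by
    rw [← w1]; exact div_le_div_of_nonneg_left k0 p1 (by linarith)
  have w4 : k * r - k * r ^ 2 ≤ k / (p + 1) := by
    rw [le_div_iff₀ (by linarith)]
    have e : (p : ℝ) * r = 1 := by rw [hr]; field_simp
    have : (k * r - k * r ^ 2) * (p + 1) = k - k * r ^ 2 := by
      linear_combination (k - k * r) * e
    rw [this]
    nlinarith [mul_nonneg k0 (sq_nonneg r)]
  by_cases hD : p ∣ D1 * D2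
  · obtain ⟨e, e1, e2, e3⟩ : ∃ e : V2, (∀ φ, Pr.al D1 D2 p φ ≤ ind ((p : ℤ) ∣ ev φ e)) ∧
        (¬p ∣ σ.dt → ¬(p : ℤ) ∣ det e σ.ut) ∧ (¬p ∣ σ.ds → ¬(p : ℤ) ∣ det e σ.us) := by
      have := cst hD
      by_cases h1 : p ∣ D1
      · refine ⟨(1, 0), fun φ => ?_, ?_, ?_⟩
        · rw [Pr.al, if_pos h1, LOWP_e1]; exact ind_mono fun h => h.1
        · simp only [g1, Sd.ut, Sd.dt, Int.natCast_dvd_natCast, hp.dvd_mul]; grind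
        · simp only [g1, Sd.us, Sd.ds, Int.natCast_dvd_natCast, hp.dvd_mul]; grind
      · refine ⟨(0, 1), fun φ => ?_, ?_, ?_⟩
        · rw [Pr.al, if_neg h1, if_pos ((f5.1 hD).resolve_left h1), LOWP_e2]
          exact ind_mono fun h => h.1
        · simp only [g2, Sd.ut, Sd.dt, Int.natCast_dvd_natCast, hp.dvd_mul]; grind
        · simp only [g2, Sd.us, Sd.ds, Int.natCast_dvd_natCast, hp.dvd_mul]; grind
    have X : ∀ (u : V2) (d : ℕ), ¬((p : ℤ) ∣ u.1 ∧ (p : ℤ) ∣ u.2) → (¬p ∣ d → ¬(p : ℤ) ∣ det e u) →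
        S4.av (p ^ 2) (fun g => ind ((p : ℤ) ∣ ev (ρ.fm g) e ∧
          (p : ℤ) ^ (if p ∣ d then 2 else 1) ∣ ev (ρ.fm g) u)) ≤ k * r ^ 2 := by
      intro u d hu hd
      rw [← w2]
      split_ifs with h
      · exact (S4.av_mono _ fun g _ => ind_mono fun h => h.2).trans (L3 u hu)
      · simpa only [pow_one, Pr.fm] using L2 e u (hd h)
    have X1 := X _ _ vt e2
    have X2 := X _ _ vs e3
    have M := S4.av_mono (p ^ 2) (fun g _ => LOWP_pt1 (Pr.al D1 D2 p (ρ.fm g)) _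
      ((p : ℤ) ^ (if p ∣ σ.dt then 2 else 1) ∣ ev (ρ.fm g) σ.ut)
      ((p : ℤ) ^ (if p ∣ σ.ds then 2 else 1) ∣ ev (ρ.fm g) σ.us) (e1 _))
    rw [S4.av_sub, S4.av_sub] at M
    have hD' : (p : ℤ) ∣ (D1 * D2 : ℕ) * (σ.s * σ.t * σ.af) :=
      (Int.natCast_dvd_natCast.2 hD).mul_right _
    simp only [Pr.fv, if_pos hD, if_pos hD']
    refine le_trans ?_ M
    have b1 := a1 hD
    rw [show k / (2 * p) = k * r / 2 by rw [hr]; ring] at b1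
    have b2 := mul_le_mul_of_nonneg_right b1 r0.le
    have b3 := mul_nonneg k0 (sq_nonneg r)
    rw [w1]
    change ρ.aa D1 D2 p * 1 * (1 - 30 * r) ≤ ρ.aa D1 D2 p - _ - _
    nlinarith
  obtain ⟨b1, b2⟩ := a2 hD
  have n1 : ¬p ∣ D1 := fun h => hD (f5.2 (Or.inl h))
  have n2 : ¬p ∣ D2 := fun h => hD (f5.2 (Or.inr h))
  have hR : ∀ φ : Fm, (p : ℤ) ∣ φ.1 * φ.2.2 ↔ (p : ℤ) ∣ ev φ (1, 0) ∨ (p : ℤ) ∣ ev φ (0, 1) :=
    fun φ => by rw [LOWP_e1, LOWP_e2, hq.dvd_mul]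
  have ga0 : 0 ≤ ρ.ga p ∧ ρ.ga p ≤ 1 := by
    rw [Pr.ga, w1, ← hkd]
    constructor <;> nlinarith [mul_nonneg k0 r0.le]
  have ag : 0 ≤ ρ.aa D1 D2 p * ρ.ga p ∧ ρ.aa D1 D2 p * ρ.ga p ≤ 1 :=
    ⟨mul_nonneg aa0 ga0.1, mul_le_one₀ b2 ga0.1 ga0.2⟩
  simp only [Pr.al, Pr.fv, if_neg hD, if_neg n1, if_neg n2]
  by_cases hf : (p : ℤ) ∣ σ.af
  · have ht : ¬p ∣ σ.t := fun h => by
      have h1 : (p : ℤ) ∣ (σ.a : ℤ) := by
        have := hf.add ((Int.natCast_dvd_natCast.2 h).mul_left (σ.s : ℤ))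
        simpa [Sd.af] using this
      exact hq.not_isUnit (hca.isUnit_of_dvd' h1 hf)
    have Y1 := L2 (1, 0) σ.ut (by
      simp only [g1, Sd.ut, Sd.E1, Int.natCast_dvd_natCast, hp.dvd_mul]; grind)
    have Y2 := L2 (0, 1) σ.ut (by
      simp only [g2, Sd.ut, Sd.E2, Int.natCast_dvd_natCast, hp.dvd_mul]; grind)
    have Y3 := L3 _ vt
    have Y4 := L3 _ vs
    have Y5 := L1 _ vt
    have M := S4.av_mono (p ^ 2) (fun g _ => LOWP_pt2 _ _ _ ((p : ℤ) ∣ ev (ρ.fm g) σ.ut)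
      ((p : ℤ) ^ 2 ∣ ev (ρ.fm g) σ.ut) ((p : ℤ) ^ 2 ∣ ev (ρ.fm g) σ.us) (hR (ρ.fm g)))
    rw [S4.av_mul, S4.av_sub, S4.av_sub, S4.av_sub, S4.av_sub] at M
    simp only [Pr.sm, if_pos hf, if_pos ((hf.mul_left (σ.s * σ.t)).mul_left ((D1 * D2 : ℕ) : ℤ))]
    refine le_trans ?_ M
    simp only [Pr.fm]
    rw [w2] at Y1 Y2 Y3 Y4
    rw [Y5, w1, show (rho ρ.A p : ℝ) / (6 * p) = k * r / 6 by rw [hr]; ring, ← mul_assoc]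
    have b3 : 0 ≤ k * r / 6 * (1 - 30 * r) := mul_nonneg (by positivity) (by linarith)
    have b4 := mul_le_mul_of_nonneg_right ag.2 b3
    have b5 := mul_nonneg k0 (sq_nonneg r)
    nlinarith
  simp only [Pr.sm, if_neg hf, mul_one]
  have Z1 := L1 _ v1
  have Z2 := L1 _ v2
  have Z3 := L1 _ vt
  have Z4 := L1 _ vs
  by_cases hs : p ∣ σ.s * σ.t
  · have M := S4.av_mono (p ^ 2) (fun g _ => LOWP_pt3 _ _ _ ((p : ℤ) ∣ ev (ρ.fm g) σ.ut)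
      ((p : ℤ) ∣ ev (ρ.fm g) σ.us) _ 0 (hR (ρ.fm g)) hq.dvd_mul le_rfl)
    rw [S4.av_sub, S4.av_sub, S4.av_sub, S4.av_sub, S4.av_const _ hne] at M
    have hD' : (p : ℤ) ∣ (D1 * D2 : ℕ) * (σ.s * σ.t * σ.af) := by
      refine Dvd.dvd.mul_left (Dvd.dvd.mul_right ?_ _) _
      exact_mod_cast hs
    simp only [hs, true_or, if_true, if_pos hD']
    refine le_trans ?_ M
    simp only [Pr.fm]
    rw [Z1, Z2, Z3, Z4, w1]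
    have b3 := mul_le_mul_of_nonneg_right ag.2 (show 0 ≤ 1 - 30 * r by linarith)
    nlinarith
  have hD' : ¬(p : ℤ) ∣ (D1 * D2 : ℕ) * (σ.s * σ.t * σ.af) := by
    rw [hq.dvd_mul, hq.dvd_mul, ← Nat.cast_mul σ.s, Int.natCast_dvd_natCast,
      Int.natCast_dvd_natCast]
    grind
  have Y1 := L2 σ.ut σ.us (by
    rw [show det σ.ut σ.us = -(((σ.E1 * σ.E2 : ℕ) : ℤ) * σ.af) by
      simp only [det, Sd.ut, Sd.us, Sd.af, Sd.a]; push_cast; ring, dvd_neg, hq.dvd_mul]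
    simp only [Sd.E1, Sd.E2, Int.natCast_dvd_natCast, hp.dvd_mul]
    grind)
  have Y3 := L3 _ vt
  have Y4 := L3 _ vs
  have M := S4.av_mono (p ^ 2) (fun g _ => LOWP_pt4 _ _ _ ((p : ℤ) ∣ ev (ρ.fm g) σ.ut)
    ((p : ℤ) ∣ ev (ρ.fm g) σ.us) _ _ _ _ (hR (ρ.fm g)) hq.dvd_mul (LOWP_sq hp))
  rw [S4.av_sub, S4.av_sub, S4.av_sub, S4.av_sub, S4.av_sub, S4.av_sub, S4.av_sub, S4.av_mul,
    S4.av_mul, S4.av_const _ hne] at M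
  simp only [hs, false_or, if_neg hD']
  refine le_trans ?_ M
  simp only [Pr.fm]
  rw [w2] at Y1 Y3 Y4
  rw [w1, w2] at b1
  rw [Z1, Z2, Z3, Z4, w2, Pr.ga, w1, ← hkd]
  have := LOWP_num r0 r1' hk b1
  linarith

theorem p_LOWP (hOK : S_OK) (hL1 : S_L1) (hL2 : S_L2) (hL3 : S_L3) (_hLB : S_LB) (hALP : S_ALP)
    (hSDS : S_SDS) : S_LOWP := by
  obtain ⟨c1, h1⟩ := hALP
  obtain ⟨c2, h2⟩ := hSDS
  refine ⟨c1 + c2 + 100, fun A C1 => ⟨1, le_rfl, fun z hA hC hz => ?_⟩⟩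
  obtain ⟨_, -, h1⟩ := h1 A C1
  obtain ⟨_, -, h2⟩ := h2 A C1
  filter_upwards [h1 z hA hC (hz.mono (by omega)), h2 z hA hC (hz.mono (by omega)),
    eventually_ge_atTop (1 : ℝ)] with y k1 k2 hy
  intro q D1 D2 hq hD σ hσ p hp
  obtain ⟨-, z2, -, z4, z5, -, z7, z8, z9, z10, -⟩ := hz
  obtain ⟨e, s1, s2, -, -, -, -, s7, -⟩ := (mem_SD (DA_pos hD).1 (DA_pos hD).2).1 hσ
  obtain ⟨hp1, hp2, hp3⟩ := (mem_PP (by linarith)).1 hp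
  have hw : z.w < p := by exact_mod_cast hp2
  have nd : ∀ (k r : ℕ) (Y : ℝ), 1 ≤ k → r ∈ PP (y ^ k) Y → ¬p ∣ r := fun k r Y hk hr h => by
    have e1 := (Nat.prime_dvd_prime_iff_eq hp1 (prime_of_PP hr)).1 h
    have e2 := lt_of_PP hr
    have e3 := le_self_pow₀ hy (show k ≠ 0 by omega)
    rw [← e1] at e2
    exact absurd hp3 (not_le.2 (e3.trans_lt e2))
  subst e
  have k3 : 1 ≤ z.k3 := by nlinarith
  have k5 : 1 ≤ z.k5 := by nlinarith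
  exact LOWP_main hOK hL1 hL2 hL3 ⟨z, y⟩ D1 D2 p σ (by change 5 ≤ z.A; omega) hp1
    (by change 4 * z.A < p; omega) (by omega) (nd _ _ _ k5 hq.1) (nd _ _ _ k3 hq.2.1)
    (nd 1 _ _ le_rfl (by simpa [Pr.I4] using hq.2.2)) s1 s2 hD.1 s7
    ((k2 _ D1 D2 hq hD).2.2.2.1 σ hσ).1 (fun h => ((k1 D1 D2 p hp).1 h).1)
    fun h => ((k1 D1 D2 p hp).2 h).2

end Pool.Agent.P.MP_6f5b02_nt.Hy
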