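import Pool.Agent.P.MP_6f5b02_nt.Hy.IfG
import Pool.Agent.P.MP_8be758_nt.Pd.TMCA

/-! Step MCA. -/

namespace Pool.Agent.P.MP_6f5b02_nt.Hy

open Pool.Agent.P.MP_8be758_nt Pool.Agent.P.MP_8be758_nt.Pd
open Finset Real Filter
open Pool.Agent.P.MP_8be758_nt.Par (det)

theorem MCA_al (ρ : Pr) {D1 D2 : ℕ} (h : ρ.DA D1 D2) (φ : Fm) :
    ∏ p ∈ ρ.Ps, Pr.al D1 D2 p φ = ind (ρ.fl φ.1 = D1 ∧ ρ.fl φ.2.2 = D2 ∧
      ∀ p ∈ ρ.Ps, ¬(p : ℤ) ^ 2 ∣ φ.1 * φ.2.2) := by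
  have hs := h.1
  have hc := Nat.coprime_of_squarefree_mul hs
  rw [prod_congr rfl fun p (hp : p ∈ ρ.Ps) => MCA_loc (prime_of_PP hp) (fun e =>
    (prime_of_PP hp).one_lt.ne' (Nat.eq_one_of_dvd_coprimes hc e.1 e.2)) φ, MCA_prod_ind,
    MCA_fl ρ hs.of_mul_left ((Nat.primeFactors_mono (dvd_mul_right _ _) hs.ne_zero).trans h.2.1),
    MCA_fl ρ hs.of_mul_right ((Nat.primeFactors_mono (dvd_mul_left _ _) hs.ne_zero).trans h.2.1)]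
  refine MCA_congr ⟨fun e => ⟨fun p hp => (e p hp).1.1, fun p hp => (e p hp).1.2,
    fun p hp => (e p hp).2⟩, fun e p hp => ⟨⟨e.1 p hp, e.2.1 p hp⟩, e.2.2 p hp⟩⟩

theorem MCA_per (ρ : Pr) (p : ℕ) {g h : G4} (e : C4 (p ^ 2) g h) :
    (((p : ℤ) ∣ (ρ.fm g).1 ↔ (p : ℤ) ∣ (ρ.fm h).1) ∧ ((p : ℤ) ∣ (ρ.fm g).2.2 ↔ (p : ℤ) ∣ (ρ.fm h).2.2)) ∧
      ∀ D1 D2, Pr.al D1 D2 p (ρ.fm g) = Pr.al D1 D2 p (ρ.fm h) := by
  obtain ⟨e1, -, e3⟩ := act_modEq (Q0 ρ.A) e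
  have d1 : (p : ℤ) ∣ ((p ^ 2 : ℕ) : ℤ) := by push_cast; exact dvd_pow_self _ two_ne_zero
  have d2 : (p : ℤ) ^ 2 ∣ ((p ^ 2 : ℕ) : ℤ) := by push_cast; exact dvd_rfl
  have a1 := dvd_iff_of_modEq e1 d1
  have a2 := dvd_iff_of_modEq e1 d2
  have a3 := dvd_iff_of_modEq e3 d1
  have a4 := dvd_iff_of_modEq e3 d2
  have a5 := dvd_iff_of_modEq (e1.mul e3) d1
  exact ⟨⟨a1, a3⟩, fun D1 D2 => by simp only [Pr.al, Pr.fm, a1, a2, a3, a4, a5]⟩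

theorem p_MCA (hOK : S_OK) (hPROD : S_PROD) (hMC : S_MC) (hEQ : S_EQ) :
    S_MCA := by
  obtain ⟨c1, hc1⟩ := hMC 12
  have ok := hOK.2.2.2
  refine ⟨10 * (c1 + 11 * (27 + 2 * c1) + 31), fun A C1 => ⟨1, le_rfl, ?_⟩⟩
  rintro z rfl rfl ⟨-, hA, hC1, -, hw, -, hk2, h23, h34, h45, h56, h6K, hu⟩
  obtain ⟨C, hC, hE⟩ := hEQ z.A (by omega)
  filter_upwards [eventually_ge_atTop (2 : ℝ), eventually_ge_atTop (z.w : ℝ),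
    eventually_ge_atTop ((z.W ^ 2 : ℕ) : ℝ), eventually_ge_atTop (C * (1 + z.C1))]
    with y hy hyw hyW hyC
  set ρ : Pr := ⟨z, y⟩ with hρ
  rintro ⟨q1, q3, q4⟩ D1 D2 c0 Dp Lg F G ⟨⟨b1, b3, b4⟩, hDA, -⟩ hDp hLg hsz hF
  dsimp only at b1 b3 b4 hLg ⊢
  have y1 : (1 : ℝ) ≤ y := by linarith
  have y0 : (0 : ℝ) ≤ y := by linarith
  have k23 : z.k2 ≤ z.k3 := by nlinarith
  have k45 : z.k4 ≤ z.k5 := by nlinarith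
  obtain ⟨p1, l1, u1⟩ := (mem_PP (pow_nonneg y0 _)).1 b1
  obtain ⟨p3, l3, u3⟩ := (mem_PP (pow_nonneg y0 _)).1 b3
  obtain ⟨p4, l4, u4⟩ := (mem_PP (pow_nonneg y0 _)).1 b4
  have o43 : (q4 : ℝ) < q3 := (u4.trans (pow_le_pow_right₀ y1 k23)).trans_lt l3
  have o31 : (q3 : ℝ) < q1 := (u3.trans (pow_le_pow_right₀ y1 k45)).trans_lt l1
  have v1 : (q1 : ℝ) ≤ y ^ z.K' := u1.trans (pow_le_pow_right₀ y1 h6K)
  have l4' : y < q4 := l4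
  have n43 : q4 < q3 := by exact_mod_cast o43
  have n31 : q3 < q1 := by exact_mod_cast o31
  have hPs : ∀ p ∈ ρ.Ps, p.Prime ∧ z.w < p ∧ (p : ℝ) ≤ y := fun p hp => by
    obtain ⟨a, b, c⟩ := (mem_PP y0).1 hp
    exact ⟨a, by exact_mod_cast b, c⟩
  have cW : ∀ p : ℕ, p.Prime → (z.w : ℝ) < p → (z.W ^ 2).Coprime p := fun p hp h =>
    ((hp.coprime_iff_not_dvd.2 fun e => by
      have : (p : ℝ) ≤ z.w := by exact_mod_cast hp.dvd_primorial_iff.1 e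
      linarith).symm).pow_left 2
  have cp : ∀ {p r : ℕ}, p.Prime → r.Prime → p ≠ r → (p ^ 2).Coprime r := fun a b c =>
    ((Nat.coprime_primes a b).2 c).pow_left 2
  have W0 : 0 < z.W ^ 2 := pow_pos (primorial_pos _) 2
  have s1 := pow_pos p1.pos 2
  have s3 := pow_pos p3.pos 2
  have s4 := pow_pos p4.pos 2
  obtain ⟨P1, A1⟩ := MCA_mul ok W0 s1 ((cW q1 p1 (by linarith)).pow_right 2) (MCA_perC _ c0)
    (f' := fun g => ind ((q1 : ℤ) ∣ (ρ.fm g).2.2)) fun g h e => MCA_congr (MCA_per ρ q1 e).1.2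
  obtain ⟨P2, A2⟩ := MCA_mul ok (mul_pos W0 s1) s3
    (((cW q3 p3 (by linarith)).mul_left (cp p1 p3 n31.ne')).pow_right 2) P1
    (f' := fun g => ind ((q3 : ℤ) ∣ (ρ.fm g).1)) fun g h e => MCA_congr (MCA_per ρ q3 e).1.1
  obtain ⟨P3, A3⟩ := MCA_mul ok (mul_pos (mul_pos W0 s1) s3) s4
    ((((cW q4 p4 (by linarith)).mul_left (cp p1 p4 (n43.trans n31).ne')).mul_left
      (cp p3 p4 n43.ne')).pow_right 2) P2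
    (f' := fun g => ind ((q4 : ℤ) ∣ (ρ.fm g).2.2)) fun g h e => MCA_congr (MCA_per ρ q4 e).1.2
  have c3 : ∀ p : ℕ, p.Prime → (z.w : ℝ) < p → p ≠ q1 → p ≠ q3 → p ≠ q4 →
      (z.W ^ 2 * q1 ^ 2 * q3 ^ 2 * q4 ^ 2).Coprime p := fun p hp h a b c =>
    (((cW p hp h).mul_left (cp p1 hp a.symm)).mul_left (cp p3 hp b.symm)).mul_left (cp p4 hp c.symm)
  have M3 := mul_pos (mul_pos (mul_pos W0 s1) s3) s4
  obtain ⟨P4, A4⟩ := hPROD G4 S4 Lg (fun p => p ^ 2) _ _ G ok M3 P3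
    (fun p hp => by
      obtain ⟨a, b, c, d, e, f, -⟩ := hLg p hp
      exact ⟨pow_pos a.pos 2, (c3 p a (hyw.trans_lt b) c d e).pow_right 2, f⟩)
    fun p hp r hr h => (cp (hLg p hp).1 (hLg r hr).1 h).pow_right 2
  have c4 : ∀ p ∈ ρ.Ps, (z.W ^ 2 * q1 ^ 2 * q3 ^ 2 * q4 ^ 2 * ∏ r ∈ Lg, r ^ 2).Coprime p :=
    fun p hp => by
      obtain ⟨a, b, c⟩ := hPs p hp
      have : p < q4 := by exact_mod_cast c.trans_lt l4'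
      refine (c3 p a (by exact_mod_cast b) (by omega) (by omega) (by omega)).mul_left
        (Nat.Coprime.prod_left fun r hr => cp (hLg r hr).1 a ?_)
      rintro rfl
      exact absurd (hLg r hr).2.1 (not_lt.2 c)
  have M4 := mul_pos M3 (prod_pos fun p hp => pow_pos (hLg p hp).1.pos 2)
  have pf : ∀ p ∈ ρ.Ps, S4.Per (p ^ 2) fun g => Pr.al D1 D2 p (ρ.fm g) * F p g := fun p hp g h e => by
    show _ * F p g = _ * F p h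
    rw [(MCA_per ρ p e).2, (hF p hp).1 g h e]
  have f01 : ∀ p ∈ ρ.Ps, ∀ g, 0 ≤ Pr.al D1 D2 p (ρ.fm g) * F p g ∧
      Pr.al D1 D2 p (ρ.fm g) * F p g ≤ 1 := fun p hp g => MCA_m01 (MCA_al01 ..) ((hF p hp).2.1 g)
  obtain ⟨P5, A5⟩ := hPROD G4 S4 Dp (fun p => p ^ 2) _ _
    (fun p g => Pr.al D1 D2 p (ρ.fm g) * F p g) ok M4 P4
    (fun p hp => ⟨pow_pos (hPs p (hDp hp)).1.pos 2, (c4 p (hDp hp)).pow_right 2, pf p (hDp hp)⟩)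
    fun p hp r hr h => (cp (hPs p (hDp hp)).1 (hPs r (hDp hr)).1 h).pow_right 2
  have M5 := mul_pos M4 (prod_pos fun p hp => pow_pos (hPs p (hDp hp)).1.pos 2)
  have K1 : 1 ≤ z.K' := by omega
  have hEq := hE (Q0 z.A) (Q0_mem (by omega)) (y ^ z.u) (1 / z.C1) z.C1 (y ^ ((27 + 2 * c1) * z.K'))
    (one_le_pow₀ y1) (by positivity) (((div_le_one (by linarith)).2 hC1).trans hC1) (one_le_pow₀ y1)
  have i01 : ∀ P : Prop, 0 ≤ ind P ∧ ind P ≤ 1 := fun P => ⟨ind_nonneg P, ind_le_one P⟩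
  have key := hc1 G4 S4 _ _ _ _ _ y 2 z.K' _ (ρ.Ps \ Dp) _
    (fun p g => Pr.al D1 D2 p (ρ.fm g) * F p g) ok hEq (fun _ _ => zero_le_one) (Nat.cast_nonneg _)
    (by positivity) K1 hy M5 P5
    (fun g => MCA_m01 (MCA_m01 (MCA_m01 (MCA_m01 (MCA_m01 (i01 _) (i01 _)) (i01 _)) (i01 _))
      (MCA_p01 fun p hp => (hLg p hp).2.2.2.2.2.2 g)) (MCA_p01 fun p hp => f01 p (hDp hp) g))
    (fun p hp => by
      obtain ⟨h1, h2⟩ := mem_sdiff.1 hp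
      obtain ⟨a, b, c⟩ := hPs p h1
      refine ⟨a, c, by omega, (c4 p h1).mul_left (Nat.Coprime.prod_left fun r hr =>
        cp (hPs r (hDp hr)).1 a ?_), pf p h1, f01 p h1, by exact_mod_cast (hF p h1).2.2 h2⟩
      rintro rfl
      exact h2 hr)
    (by
      have e1 : ((z.W ^ 2 : ℕ) : ℝ) ≤ y ^ z.K' := hyW.trans (le_self_pow₀ y1 (by omega))
      have e3 : (q3 : ℝ) ≤ y ^ z.K' := o31.le.trans v1
      have e4 : (q4 : ℝ) ≤ y ^ z.K' := o43.le.trans e3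
      have e5 : (∏ p ∈ Dp, (p : ℝ)) * ∏ p ∈ Lg, (p : ℝ) ≤ y ^ (10 * z.K') := hsz
      calc _ = ((z.W ^ 2 : ℕ) : ℝ) * (q1 : ℝ) ^ 2 * (q3 : ℝ) ^ 2 * (q4 : ℝ) ^ 2 *
            ((∏ p ∈ Dp, (p : ℝ)) * ∏ p ∈ Lg, (p : ℝ)) ^ 2 * y ^ (c1 * z.K' * 2) := by
            push_cast
            rw [prod_pow, prod_pow]
            ring
        _ ≤ y ^ z.K' * (y ^ z.K') ^ 2 * (y ^ z.K') ^ 2 * (y ^ z.K') ^ 2 *
            (y ^ (10 * z.K')) ^ 2 * y ^ (c1 * z.K' * 2) := by gcongr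
        _ = _ := by ring)
  rw [A5, A4, A3, A2, A1] at key
  have er := MCA_err (c := c1) (n := 27 + 2 * c1) y1 hyC K1 hu
  have e1 : ∑ g ∈ ρ.AT (q1, q3, q4) D1 D2 c0, (∏ p ∈ Lg, G p g) * ∏ p ∈ ρ.Ps, F p g =
      ∑ g ∈ GG (Q0 z.A) (y ^ z.u) (1 / z.C1) z.C1, 1 * (ind (C4 (z.W ^ 2) g c0) *
        ind ((q1 : ℤ) ∣ (ρ.fm g).2.2) * ind ((q3 : ℤ) ∣ (ρ.fm g).1) * ind ((q4 : ℤ) ∣ (ρ.fm g).2.2) *
        (∏ p ∈ Lg, G p g) * (∏ p ∈ Dp, Pr.al D1 D2 p (ρ.fm g) * F p g) *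
        ∏ p ∈ ρ.Ps \ Dp, Pr.al D1 D2 p (ρ.fm g) * F p g) := by
    classical
    rw [Pr.AT, Pr.AP, filter_filter, sum_filter]
    refine sum_congr rfl fun g _ => ?_
    rw [one_mul, mul_assoc _ (∏ p ∈ Dp, _), mul_comm (∏ p ∈ Dp, _), prod_sdiff hDp,
      prod_mul_distrib, MCA_al ρ hDA]
    have cq : IsCoprime (q1 : ℤ) q4 :=
      Nat.isCoprime_iff_coprime.2 ((Nat.coprime_primes p1 p4).2 (n43.trans n31).ne')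
    have dq : ((q1 * q4 : ℕ) : ℤ) ∣ (ρ.fm g).2.2 ↔
        (q1 : ℤ) ∣ (ρ.fm g).2.2 ∧ (q4 : ℤ) ∣ (ρ.fm g).2.2 := by
      push_cast
      exact ⟨fun e => ⟨dvd_of_mul_right_dvd e, dvd_of_mul_left_dvd e⟩, fun e => cq.mul_dvd e.1 e.2⟩
    split_ifs with h
    · obtain ⟨⟨⟨a, b⟩, c⟩, d⟩ := h
      rw [ind_pos d, ind_pos (dq.1 b).1, ind_pos a, ind_pos (dq.1 b).2, ind_pos c]
      ring
    · have : ind (C4 (z.W ^ 2) g c0) * ind ((q1 : ℤ) ∣ (ρ.fm g).2.2) * ind ((q3 : ℤ) ∣ (ρ.fm g).1) *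
          ind ((q4 : ℤ) ∣ (ρ.fm g).2.2) * ind (ρ.fl (ρ.fm g).1 = D1 ∧ ρ.fl (ρ.fm g).2.2 = D2 ∧
          ∀ p ∈ ρ.Ps, ¬(p : ℤ) ^ 2 ∣ (ρ.fm g).1 * (ρ.fm g).2.2) = 0 := by
        rw [← ind_and, ← ind_and, ← ind_and, ← ind_and]
        exact ind_neg fun e => h ⟨⟨⟨e.1.1.2, dq.2 ⟨e.1.1.1.2, e.1.2⟩⟩, e.2⟩, e.1.1.1.1⟩
      linear_combination (-(∏ p ∈ Lg, G p g) * ∏ p ∈ ρ.Ps, F p g) * this
  have e2 : ρ.Zb (q1, q3, q4) c0 * (∏ p ∈ Lg, S4.av (p ^ 2) (G p)) *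
      ∏ p ∈ ρ.Ps, S4.av (p ^ 2) (fun g => Pr.al D1 D2 p (ρ.fm g) * F p g) =
      ((GG (Q0 z.A) (y ^ z.u) (1 / z.C1) z.C1).card : ℝ) *
        (S4.av (z.W ^ 2) (fun g => ind (C4 (z.W ^ 2) g c0)) *
        S4.av (q1 ^ 2) (fun g => ind ((q1 : ℤ) ∣ (ρ.fm g).2.2)) *
        S4.av (q3 ^ 2) (fun g => ind ((q3 : ℤ) ∣ (ρ.fm g).1)) *
        S4.av (q4 ^ 2) (fun g => ind ((q4 : ℤ) ∣ (ρ.fm g).2.2)) *
        (∏ p ∈ Lg, S4.av (p ^ 2) (G p)) *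
        (∏ p ∈ Dp, S4.av (p ^ 2) (fun g => Pr.al D1 D2 p (ρ.fm g) * F p g)) *
        ∏ p ∈ ρ.Ps \ Dp, S4.av (p ^ 2) (fun g => Pr.al D1 D2 p (ρ.fm g) * F p g)) := by
    rw [← prod_sdiff hDp]
    simp only [Pr.Zb, Pr.E, Ed, Pr.X]
    ring
  rw [e1, e2]
  exact key.trans (add_le_add le_rfl er)

end Pool.Agent.P.MP_6f5b02_nt.Hy
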