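import Pool.Agent.P.MP_6f5b02_nt.Hy.If0
import Pool.Agent.P.MP_8be758_nt.Pd.TMER

/-! Step MER. -/

namespace Pool.Agent.P.MP_6f5b02_nt.Hy

open Pool.Agent.P.MP_8be758_nt Pool.Agent.P.MP_8be758_nt.Pd
open Finset Real Filter Topology
open Pool.Agent.P.MP_8be758_nt.Par (det)

theorem MER_char2 (q : ℕ) [NeZero q] (hq : q = 17) : ∃ X : DirichletCharacter ℂ q, X ≠ 1 ∧
    ∀ n : ℤ, X n = (jacobiSym n q : ℂ) := by
  have key : ∀ n : ℤ, jacobiSym (((n : ZMod q).val : ℕ) : ℤ) q = jacobiSym n q := fun n => by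
    rw [ZMod.val_intCast, ← jacobiSym.mod_left]
  let X : DirichletCharacter ℂ q :=
    { toFun := fun a => (jacobiSym ((a.val : ℕ) : ℤ) q : ℂ)
      map_one' := by
        have := key 1
        rw [Int.cast_one] at this
        simp only [this, jacobiSym.one_left, Int.cast_one]
      map_mul' := fun a b => by
        obtain ⟨a, rfl⟩ := ZMod.intCast_surjective a
        obtain ⟨b, rfl⟩ := ZMod.intCast_surjective b
        rw [← Int.cast_mul, key, key, key, jacobiSym.mul_left, Int.cast_mul]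
      map_nonunit' := fun a ha => by
        rw [Int.cast_eq_zero, jacobiSym.eq_zero_iff_not_coprime, Int.gcd_natCast_natCast]
        intro h
        exact ha (ZMod.natCast_zmod_val a ▸ (ZMod.isUnit_iff_coprime _ _).2 h) }
  have hX : ∀ n : ℤ, X n = (jacobiSym n q : ℂ) := fun n => congrArg (Int.cast : ℤ → ℂ) (key n)
  refine ⟨X, fun h => ?_, hX⟩
  subst hq
  have h1 := hX 3
  rw [h, MulChar.one_apply (by decide), show jacobiSym 3 17 = -1 by norm_num] at h1
  norm_num at h1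

/-- the character modulo `17` -/
noncomputable def chi (m : ℕ) : ℝ := (jacobiSym (m : ℤ) 17 : ℝ)

theorem abs_chi_le (m : ℕ) : |chi m| ≤ 1 := by
  rw [chi]
  rcases jacobiSym.trichotomy (m : ℤ) 17 with h | h | h <;> rw [h] <;> simp

theorem MER_bdd : ∃ B : ℝ, ∀ y : ℕ, |∑ p ∈ Nat.primesLE y, chi p / p| ≤ B := by
  have e0 : ∀ x : ℕ, Icc 1 x = Ioc 0 x := fun x => by ext; simp; omega
  obtain ⟨X, hX, hX2⟩ := MER_char2 17 rfl
  have h1 : ∀ x, |∑ n ∈ Icc 1 x, chi n| ≤ (17 : ℕ) := fun x => by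
    have := Avg.chi_per _ (Avg.chi_g_sum (D := 17) (by decide)
      (by norm_num : Nat.Prime 17).not_isSquare) (Avg.chi_g_abs 17) x
    rwa [sum_congr rfl fun n _ => (show _ = chi n from by
      rw [← Int.cast_natCast, Avg.chi_g_cast, chi])] at this
  have h2 : ∀ x, |∑ n ∈ Ioc 0 x, chi n| ≤ (17 : ℕ) := fun x => e0 x ▸ h1 x
  obtain ⟨L, hL, -⟩ := Avg.rho_lim _ _ h2
  have hL0 := MER_L X hX chi _ L (fun n => by simpa [chi] using hX2 n) h2 hL
  have h3 := Avg.t_MERT chi _ L (by simp [chi])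
    (fun m n => by simp [chi, jacobiSym.mul_left]) abs_chi_le h1 hL0
    (by simpa only [e0, mul_one_div] using hL)
  obtain ⟨B, hB⟩ := (h3.log (inv_ne_zero hL0)).abs.bddAbove_range
  refine ⟨B + 4, fun y => ?_⟩
  have h4 : ∀ p ∈ Nat.primesLE y, |chi p / p| ≤ 1 / p ∧ (1 : ℝ) / p ≤ 1 / 2 := fun p hp => by
    have : (2 : ℝ) ≤ p := by exact_mod_cast (Nat.mem_primesLE.1 hp).2.two_le
    rw [abs_div, Nat.abs_cast]
    exact ⟨div_le_div_of_nonneg_right (abs_chi_le p) (by linarith),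
      one_div_le_one_div_of_le two_pos this⟩
  have h5 : |log (∏ p ∈ Nat.primesLE y, (1 - chi p / p))| ≤ B := hB ⟨y, rfl⟩
  rw [log_prod fun p hp => by linarith [h4 p hp, le_abs_self (chi p / p)]] at h5
  have h6 : |∑ p ∈ Nat.primesLE y, (chi p / p + log (1 - chi p / p))| ≤
      ∑ p ∈ Nat.primesLE y, 2 * ((p : ℝ) ^ 2)⁻¹ := by
    refine (abs_sum_le_sum_abs _ _).trans (sum_le_sum fun p hp => ?_)
    obtain ⟨a1, a2⟩ := h4 p hp
    have a3 := abs_log_sub_add_sum_range_le (x := chi p / p) (by linarith) 1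
    simp only [range_one, sum_singleton, zero_add, pow_one, Nat.cast_zero, div_one] at a3
    refine a3.trans ?_
    have a4 := pow_le_pow_left₀ (abs_nonneg _) a1 2
    rw [one_div, inv_pow] at a4
    rw [div_le_iff₀ (by linarith)]
    nlinarith [mul_nonneg (show 0 ≤ ((p : ℝ) ^ 2)⁻¹ by positivity)
      (show 0 ≤ 1 / 2 - |chi p / p| by linarith)]
  have h7 : ∑ p ∈ Nat.primesLE y, ((p : ℝ) ^ 2)⁻¹ ≤ 2 := by
    refine le_trans (sum_le_sum_of_subset_of_nonneg (fun p hp => ?_) fun _ _ _ => by positivity)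
      (Pool.Agent.P.MP_74dd9d_nt.sum_inv_sq_Icc y)
    obtain ⟨a, b⟩ := Nat.mem_primesLE.1 hp
    exact mem_Icc.2 ⟨b.one_le, a⟩
  rw [sum_add_distrib, ← mul_sum, abs_le] at h6
  rw [abs_le] at h5 ⊢
  constructor <;> linarith [h5.1, h5.2, h6.1, h6.2]

theorem p_MER :
    S_MER := by
  intro A _ hA
  obtain ⟨B, hB⟩ := MER_bdd
  have hB0 : 0 ≤ B := (abs_nonneg _).trans (hB 0)
  have h0 : 0 < log 600 := log_pos (by norm_num)
  refine ⟨2 * B + 2 * log 600, by positivity, fun w y hw hy => ?_⟩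
  have h1 : |∑ p ∈ PP w y, (1 : ℝ) / p - log (log y / log w)| ≤ 2 * log 600 := by
    have a1 := abs_le.1 (MER_one hw)
    have a2 := abs_le.1 (MER_one (hw.trans hy))
    rw [MER_split _ (by linarith) hy, log_div (log_pos (by linarith)).ne'
      (log_pos (by linarith)).ne', abs_le]
    constructor <;> linarith [a1.1, a1.2, a2.1, a2.2]
  refine ⟨?_, by linarith⟩
  have h2 : ∑ p ∈ PP w y, (rho A p : ℝ) / p =
      ∑ p ∈ PP w y, (1 : ℝ) / p + ∑ p ∈ PP w y, chi p / p := by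
    rw [← sum_add_distrib]
    refine sum_congr rfl fun p hp => ?_
    obtain ⟨a, b, -⟩ := (mem_PP (by linarith)).1 hp
    have := rho_prime A p a (by rintro rfl; norm_num at b; linarith)
    rw [← add_div, chi]
    congr 1
    exact_mod_cast this
  have a1 := abs_le.1 (hB ⌊w⌋₊)
  have a2 := abs_le.1 (hB ⌊y⌋₊)
  rw [abs_le] at h1
  rw [h2, MER_split (fun p => chi p / p) (by linarith) hy, abs_le]
  constructor <;> linarith [a1.1, a1.2, a2.1, a2.2, h1.1, h1.2]

end Pool.Agent.P.MP_6f5b02_nt.Hy
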