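import Pool.Agent.P.MP_6f5b02_nt.Hy.IfM
import Pool.Agent.P.MP_8be758_nt.Pd.TMOMA

/-! Step MOMA. -/

namespace Pool.Agent.P.MP_6f5b02_nt.Hy

open Pool.Agent.P.MP_8be758_nt Pool.Agent.P.MP_8be758_nt.Pd
open Finset Real Filter
open Pool.Agent.P.MP_8be758_nt.Par (cj det)
open Pool.Agent.P.MP_6f5b02_nt.Hy.Par (nq mul eu un red)
open Pool.Agent.P.MP_6f5b02_nt.Hy.Mr

theorem MOMA_mul {A : ℕ} {d : ℤ} {v : V2} (g : V2) (h : d ∣ v.1 ∧ d ∣ v.2) :
    d ∣ (mul A g v).1 ∧ d ∣ (mul A g v).2 := by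
  obtain ⟨⟨a, ha⟩, b, hb⟩ := h
  exact ⟨⟨g.1 * a + 4 * g.2 * b, by simp only [mul, ha, hb]; ring⟩,
    ⟨g.1 * b + g.2 * a + g.2 * b, by simp only [mul, ha, hb]; ring⟩⟩

theorem MOMA_key {A p : ℕ} (hA : 5 ≤ A) (hp : p.Prime) (h4 : 4 * A < p) {δ : V2}
    (h1 : (p : ℤ) ∣ nq A δ) (h2 : ¬((p : ℤ) ∣ δ.1 ∧ (p : ℤ) ∣ δ.2)) (m : Multiset V2)
    (hm : ∀ g ∈ m, g = δ ∨ ¬(p : ℤ) ∣ nq A g) :
    ¬((p : ℤ) ∣ (mul A δ (pv A m)).1 ∧ (p : ℤ) ∣ (mul A δ (pv A m)).2) := by
  have hp' : Prime (p : ℤ) := Nat.prime_iff_prime_int.1 hp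
  have htr : ¬(p : ℤ) ∣ 2 * δ.1 + δ.2 := by
    intro h
    have h3 : (p : ℤ) ∣ 17 * δ.2 ^ 2 := by
      have : (17 : ℤ) * δ.2 ^ 2 = (2 * δ.1 + δ.2) * (2 * δ.1 + δ.2) - 4 * nq A δ := by
        simp only [nq]; ring
      rw [this]
      exact (h.mul_left _).sub (h1.mul_left 4)
    rcases hp'.dvd_or_dvd h3 with h5 | h5
    · have := Int.le_of_dvd (by omega) h5
      omega
    · have h6 := hp'.dvd_of_dvd_pow h5
      have h7 : (p : ℤ) ∣ 2 * δ.1 := (dvd_add_left h6).1 h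
      rcases hp'.dvd_or_dvd h7 with h8 | h8
      · have := Int.le_of_dvd (by omega) h8
        omega
      · exact h2 ⟨h8, h6⟩
  induction m using Multiset.induction_on with
  | empty => rw [pv_zero, mul_e]; exact h2
  | cons g m ih =>
    have ih' := ih fun x hx => hm x (Multiset.mem_cons_of_mem hx)
    rw [pv_cons, mul_lc]
    intro h
    rcases hm g (Multiset.mem_cons_self _ _) with rfl | hg
    · have e : (2 * g.1 + g.2) • mul A g (pv A m) =
          mul A g (mul A g (pv A m)) + nq A g • pv A m := by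
        ext <;> simp [mul, nq] <;> ring
      refine ih' (MOMA_sm hp' htr ?_)
      rw [e]
      exact ⟨h.1.add (h1.mul_right _), h.2.add (h1.mul_right _)⟩
    · have := MOMA_mul (A := A) (cj g) h
      rw [cj_mul_mul] at this
      exact ih' (MOMA_sm hp' hg this)

theorem MOMA_nq {A β : ℕ} {γ : ℕ → V2} (s : Multiset ℕ) (h : ∀ p ∈ s, Gp A β γ p) :
    nq A (pv A (s.map γ)) = ((β ^ s.card * s.prod : ℕ) : ℤ) := by
  induction s using Multiset.induction_on with
  | empty => simp [pv_zero, nq]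
  | cons p s ih =>
    rw [Multiset.map_cons, pv_cons, Par.nq_mul, ih fun x hx => h x (Multiset.mem_cons_of_mem hx),
      (h p (Multiset.mem_cons_self _ _)).2.2, Multiset.card_cons, Multiset.prod_cons]
    push_cast
    ring

theorem p_MOMA :
    S_MOMA := by
  intro A β γ s t u u' hA hβ hβ' hG hst hu hu' h3 hdet
  have hs : ∀ p ∈ s, Gp A β γ p := fun p hp => hG p (Multiset.mem_add.2 (Or.inl hp))
  have ht : ∀ p ∈ t, Gp A β γ p := fun p hp => hG p (Multiset.mem_add.2 (Or.inr hp))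
  set r := (s + t).prod with hr
  set n := (s + t).card with hn
  have hr0 : 0 < r := Multiset.prod_pos fun p hp => (hG p hp).1.pos
  set G := pv A (s.map γ + (t.map γ).map cj) with hGd
  have hG1 : G = mul A (pv A (s.map γ)) (cj (pv A (t.map γ))) := by rw [hGd, pv_add, cj_pv]
  have hQ : nq A G = ((β ^ n * r : ℕ) : ℤ) := by
    rw [hG1, Par.nq_mul, Par.nq_cj, MOMA_nq s hs, MOMA_nq t ht, hn, hr, Multiset.card_add,
      Multiset.prod_add]
    push_cast
    ring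
  have hT : nq A (pv A (t.map γ)) ≠ 0 := by
    rw [MOMA_nq t ht]
    have : 0 < t.prod := Multiset.prod_pos fun p hp => (ht p hp).1.pos
    positivity
  have hd0 : det (mul A G u) u' = 0 := by
    have h1 := det_mul (A := A) (cj (pv A (t.map γ))) (mul A (pv A (s.map γ)) u)
      (mul A (pv A (t.map γ)) u')
    rw [hdet, mul_zero, cj_mul_mul, ← mul_as, mul_cm (cj _), ← hG1] at h1
    have h2 := det_sm 1 (nq A (pv A (t.map γ))) (mul A G u) u'
    rw [one_smul, h1, one_mul] at h2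
    exact (mul_eq_zero.1 h2.symm).resolve_left hT
  obtain ⟨e, he⟩ := eq_smul_of_det hu' hd0
  have hb0 : 0 < β ^ n := by positivity
  have he1 : e ∣ nq A G := by
    have h1 := cj_mul_mul (A := A) G u
    rw [he, mul_sm] at h1
    exact dvd_of_dvd_smul hu (h1 ▸ Dvd.intro _ rfl) (h1 ▸ Dvd.intro _ rfl)
  have he2 : e.natAbs ∣ β ^ n * r := by
    rw [hQ] at he1
    exact Int.natAbs_dvd_natAbs.2 he1
  set d := Nat.gcd e.natAbs r with hd
  have hdpos : 0 < d := Nat.gcd_pos_of_pos_right _ hr0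
  have he3 : e.natAbs ≤ β ^ n * d := by
    refine Nat.le_of_dvd (by positivity) ?_
    rw [hd, ← Nat.gcd_mul_left]
    exact Nat.dvd_gcd (Dvd.intro_left _ rfl) he2
  have hG0 : G ≠ 0 := Par.ne_zero_of_nq (A := A) (by rw [hQ]; positivity)
  refine ⟨d, Nat.gcd_dvd_right _ _, ?_, ?_⟩
  · obtain ⟨G0, hG2, hG3⟩ := exists_pr hG0
    have hde : (d : ℤ) ∣ e := Int.natCast_dvd.2 (Nat.gcd_dvd_left _ _)
    have h1 := cj_mul_mul (A := A) u G
    rw [mul_cm u G, he, mul_sm] at h1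
    have h2 : nq A u • G = (nq A u * (Int.gcd G.1 G.2 : ℤ)) • G0 := by
      rw [mul_smul, ← hG3]
    have h3 : (d : ℤ) ∣ nq A u * (Int.gcd G.1 G.2 : ℤ) := by
      refine dvd_of_dvd_smul hG2 ?_ ?_ <;> rw [← h2, ← h1]
      · exact hde.mul_right _
      · exact hde.mul_right _
    have h4 : d.Coprime (Int.gcd G.1 G.2) := by
      refine Nat.coprime_of_dvd fun p hp h5 h6 => ?_
      obtain ⟨q, hq, hpq⟩ := hp.prime.exists_mem_multiset_dvd (h5.trans (Nat.gcd_dvd_right _ _))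
      obtain rfl : p = q := (Nat.prime_dvd_prime_iff_eq hp (hG q hq).1).1 hpq
      have hp4 := (hG p hq).2.1
      have hoth : ∀ q ∈ s + t, q ≠ p → ¬(p : ℤ) ∣ nq A (γ q) := fun q hq' hne h => by
        rw [(hG q hq').2.2] at h
        have h' : p ∣ β * q := by exact_mod_cast h
        rcases (Nat.Prime.dvd_mul hp).1 h' with h7 | h7
        · have := Nat.le_of_dvd hβ h7
          omega
        · exact hne ((Nat.prime_dvd_prime_iff_eq hp (hG q hq').1).1 h7).symm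
      have hdv : (p : ℤ) ∣ G.1 ∧ (p : ℤ) ∣ G.2 :=
        ⟨(Int.natCast_dvd_natCast.2 h6).trans (Int.gcd_dvd_left _ _),
          (Int.natCast_dvd_natCast.2 h6).trans (Int.gcd_dvd_right _ _)⟩
      have hnq := (hG p hq).2.2
      by_cases hps : p ∈ s
      · refine MOMA_key hA hp hp4 (δ := γ p) (hnq ▸ Dvd.intro_left _ rfl)
          (not_dvd_of_nq hβ (by omega) hnq) _ (fun g hg => ?_) (MOMA_mul _ hdv)
        rcases Multiset.mem_add.1 hg with hg | hg
        · obtain ⟨q, hq1, rfl⟩ := Multiset.mem_map.1 hg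
          by_cases hqp : q = p
          · exact Or.inl (by rw [hqp])
          · exact Or.inr (hoth q (Multiset.mem_add.2 (Or.inl hq1)) hqp)
        · obtain ⟨g', hg', rfl⟩ := Multiset.mem_map.1 hg
          obtain ⟨q, hq1, rfl⟩ := Multiset.mem_map.1 hg'
          rw [Par.nq_cj]
          exact Or.inr (hoth q (Multiset.mem_add.2 (Or.inr hq1)) fun h => hst p hps (h ▸ hq1))
      · have hnq' : nq A (cj (γ p)) = β * p := (Par.nq_cj _).trans hnq
        refine MOMA_key hA hp hp4 (δ := cj (γ p)) (hnq' ▸ Dvd.intro_left _ rfl)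
          (not_dvd_of_nq hβ (by omega) hnq') _ (fun g hg => ?_) (MOMA_mul _ hdv)
        rcases Multiset.mem_add.1 hg with hg | hg
        · obtain ⟨q, hq1, rfl⟩ := Multiset.mem_map.1 hg
          exact Or.inr (hoth q (Multiset.mem_add.2 (Or.inl hq1)) fun h => hps (h ▸ hq1))
        · obtain ⟨g', hg', rfl⟩ := Multiset.mem_map.1 hg
          obtain ⟨q, hq1, rfl⟩ := Multiset.mem_map.1 hg'
          by_cases hqp : q = p
          · exact Or.inl (by rw [hqp])
          · rw [Par.nq_cj]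
            exact Or.inr (hoth q (Multiset.mem_add.2 (Or.inr hq1)) hqp)
    exact (Nat.isCoprime_iff_coprime.2 h4).dvd_of_dvd_mul_right h3
  · have h1 : nq A G * nq A u = e ^ 2 * nq A u' := by rw [← Par.nq_mul, he, Par.nq_smul]
    have h2 : e ^ 2 ≤ ((β ^ n * d : ℕ) : ℤ) ^ 2 := by
      rw [← sq_abs e, ← Int.natCast_natAbs]
      exact_mod_cast Nat.pow_le_pow_left he3 2
    have h4 : ((β ^ n : ℕ) : ℤ) ≤ (4 * A) ^ n := by
      exact_mod_cast Nat.pow_le_pow_left hβ' n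
    have h5 : (0 : ℤ) < ((β ^ n : ℕ) : ℤ) := by exact_mod_cast hb0
    have h6 : (r : ℤ) * nq A u ≤ (d : ℤ) ^ 2 * ((β ^ n : ℕ) : ℤ) * nq A u' := by
      refine le_of_mul_le_mul_left ?_ h5
      calc ((β ^ n : ℕ) : ℤ) * (r * nq A u) = nq A G * nq A u := by rw [hQ]; push_cast; ring
        _ ≤ ((β ^ n * d : ℕ) : ℤ) ^ 2 * nq A u' := h1 ▸ mul_le_mul_of_nonneg_right h2 h3
        _ = _ := by push_cast; ring
    exact h6.trans (mul_le_mul_of_nonneg_right (mul_le_mul_of_nonneg_left h4 (by positivity)) h3)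

end Pool.Agent.P.MP_6f5b02_nt.Hy
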