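import Pool.Agent.P.MP_6f5b02_nt.Hy.IfN

/-! Step MULT. -/

namespace Pool.Agent.P.MP_6f5b02_nt.Hy

open Pool.Agent.P.MP_8be758_nt Pool.Agent.P.MP_8be758_nt.Pd
open Finset Real Filter
open Pool.Agent.P.MP_8be758_nt.Par (det)
open scoped Classical

theorem MULT_mem {ρ : Pr} {τ : G4 × Sd} (h : τ ∈ ρ.Tb) : ρ.IsTu τ ∧ ρ.Bg (ρ.fm τ.1) := by
  simp only [Pr.Tb, mem_filter, mem_Tg] at h
  exact ⟨h.1.1, h.2⟩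

theorem MULT_ten (hFIB : S_FIB) {ρ : Pr} (hA : 5 ≤ ρ.A) (S : Finset (G4 × Sd))
    (h1 : ∀ τ ∈ S, ρ.IsTu τ) (h2 : ∀ τ ∈ S, ∀ τ' ∈ S, ρ.fm τ.1 = ρ.fm τ'.1 ∧ τ.2 = τ'.2) :
    S.card ≤ 10 := by
  rcases S.eq_empty_or_nonempty with rfl | ⟨τ0, h0⟩
  · simp
  have hi : Set.InjOn (fun τ : G4 × Sd => τ.1) (S : Set (G4 × Sd)) := fun τ hτ τ' hτ' e =>
    Prod.ext e (h2 τ hτ τ' hτ').2
  rw [← card_image_of_injOn hi]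
  refine hFIB ρ.A (Q0 ρ.A) (ρ.fm τ0.1) _ hA (Q0_red _) fun g hg => ?_
  obtain ⟨τ, hτ, rfl⟩ := mem_image.1 hg
  have := (mem_GG hA (Q0_red _)).1 (h1 τ hτ).1
  exact ⟨this.1, this.2.1, (h2 τ hτ τ0 h0).1⟩

theorem MULT_main (hFIB : S_FIB) {ρ : Pr} (hA : 5 ≤ ρ.A) (hy : 1 ≤ ρ.y) (hk : 1 ≤ ρ.k3)
    (tup : ∀ τ : G4 × Sd, ρ.IsTu τ → VT.Ok (ρ.cy τ) ρ.A ∧
      (ρ.cy τ).P * (ρ.cy τ).R * (ρ.cy τ).a = (ρ.fm τ.1).1 * (ρ.fm τ.1).2.2 ∧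
      (τ.2.E2 : ℤ) ∣ (ρ.cy τ).P ∧ (τ.2.E1 : ℤ) ∣ (ρ.cy τ).R)
    (vb : ∀ τ : G4 × Sd, ρ.IsTu τ →
      (((ρ.cy τ).P * (ρ.cy τ).R * (ρ.cy τ).a : ℤ) : ℝ) ≤ ρ.y ^ (2 * ρ.u + 1))
    (minj : ∀ τ τ' : G4 × Sd, ρ.IsTu τ → ρ.IsTu τ' → ρ.cy τ = ρ.cy τ' →
      τ.2.q3 = τ'.2.q3 → τ.2.q4 = τ'.2.q4 →
      ρ.fl (ρ.fm τ'.1).1 ∣ ρ.fl (ρ.fm τ.1).1 * ρ.fl (ρ.fm τ.1).2.2 ∧
      ρ.fl (ρ.fm τ.1).1 < 2 * ρ.fl (ρ.fm τ'.1).1 ∧ ρ.fl (ρ.fm τ'.1).1 < 2 * ρ.fl (ρ.fm τ.1).1 ∧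
      (ρ.fl (ρ.fm τ.1).1 = ρ.fl (ρ.fm τ'.1).1 → ρ.fm τ.1 = ρ.fm τ'.1 ∧ τ.2 = τ'.2))
    (lam : ∀ k : ℤ, k ≠ 0 → ∀ L : ℕ, |(k : ℝ)| ≤ ρ.y ^ L → (ρ.lp k).card ≤ L) (x : VT) :
    ((ρ.Tb.filter fun τ => ρ.cy τ = x).card : ℝ) ≤
      10 * (ρ.K + 1) * (2 * ρ.u + 1) ^ 2 * 2 ^ ρ.om (x.P * x.R * x.a) * exp (-ρ.La) := by
  set F := ρ.Tb.filter fun τ => ρ.cy τ = x with hF
  rcases F.eq_empty_or_nonempty with he | ⟨τ1, h1⟩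
  · rw [he, card_empty, Nat.cast_zero]
    positivity
  have hm : ∀ τ ∈ F, ρ.IsTu τ ∧ ρ.Bg (ρ.fm τ.1) ∧ ρ.cy τ = x := fun τ hτ =>
    ⟨(MULT_mem (mem_filter.1 hτ).1).1, (MULT_mem (mem_filter.1 hτ).1).2, (mem_filter.1 hτ).2⟩
  set N : ℤ := x.P * x.R * x.a with hN
  have hN0 : 0 < N := by
    have := (tup τ1 (hm τ1 h1).1).1
    rw [(hm τ1 h1).2.2] at this
    exact mul_pos (mul_pos this.2.1 this.2.2.1) this.2.2.2.1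
  have hL : (ρ.lp N).card ≤ 2 * ρ.u + 1 := by
    refine lam N hN0.ne' _ ?_
    have := vb τ1 (hm τ1 h1).1
    rw [(hm τ1 h1).2.2] at this
    rwa [abs_of_pos (by exact_mod_cast hN0)]
  set B : ℝ := ρ.K * 2 ^ ρ.om N * exp (-ρ.La) with hB
  have hB0 : 0 ≤ B := by positivity
  have hlp : ∀ q : ℕ, q.Prime → ρ.y < q → (q : ℤ) ∣ N → q ∈ ρ.lp N := fun q hq hy' hd =>
    mem_filter.2 ⟨Nat.mem_primeFactors.2 ⟨hq, Int.natCast_dvd.1 hd,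
      Int.natAbs_ne_zero.2 hN0.ne'⟩, hy'⟩
  have him : F.image (fun τ => (τ.2.q3, τ.2.q4)) ⊆ ρ.lp N ×ˢ ρ.lp N := by
    intro q hq
    obtain ⟨τ, hτ, rfl⟩ := mem_image.1 hq
    obtain ⟨ht, -, hx⟩ := hm τ hτ
    obtain ⟨-, -, d2, d1⟩ := tup τ ht
    obtain ⟨-, q3, q4⟩ := ht.2.2.1
    rw [hx] at d1 d2
    refine mem_product.2 ⟨hlp _ (prime_of_PP q3) ?_ ?_, hlp _ (prime_of_PP q4) (lt_of_PP q4) ?_⟩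
    · exact (le_self_pow₀ hy (by omega)).trans_lt (lt_of_PP q3)
    · have : (τ.2.q3 : ℤ) ∣ τ.2.E1 := Int.natCast_dvd_natCast.2 (Dvd.intro_left _ rfl)
      exact ((this.trans d1).mul_left _).mul_right _
    · have : (τ.2.q4 : ℤ) ∣ τ.2.E2 := Int.natCast_dvd_natCast.2 (Dvd.intro_left _ rfl)
      exact ((this.trans d2).mul_right _).mul_right _
  have hsub : ∀ q ∈ F.image (fun τ => (τ.2.q3, τ.2.q4)),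
      (F.filter fun τ => (τ.2.q3, τ.2.q4) = q).card ≤ 10 * ⌊B⌋₊ := by
    intro q hq
    obtain ⟨τ0, h0, rfl⟩ := mem_image.1 hq
    set S := F.filter fun τ => (τ.2.q3, τ.2.q4) = (τ0.2.q3, τ0.2.q4) with hS
    have hs : ∀ τ ∈ S, ρ.IsTu τ ∧ ρ.cy τ = x ∧ τ.2.q3 = τ0.2.q3 ∧ τ.2.q4 = τ0.2.q4 :=
      fun τ hτ => ⟨(hm τ (mem_filter.1 hτ).1).1, (hm τ (mem_filter.1 hτ).1).2.2,
        (Prod.ext_iff.1 (mem_filter.1 hτ).2).1, (Prod.ext_iff.1 (mem_filter.1 hτ).2).2⟩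
    refine (card_le_mul_card_image (f := fun τ => ρ.fl (ρ.fm τ.1).1) S 10 fun d _ => ?_).trans
      (Nat.mul_le_mul_left _ ?_)
    · refine MULT_ten hFIB hA _ (fun τ hτ => (hs τ (mem_filter.1 hτ).1).1) fun τ hτ τ' hτ' => ?_
      obtain ⟨a1, a2, a3, a4⟩ := hs τ (mem_filter.1 hτ).1
      obtain ⟨b1, b2, b3, b4⟩ := hs τ' (mem_filter.1 hτ').1
      exact (minj τ τ' a1 b1 (a2.trans b2.symm) (a3.trans b3.symm) (a4.trans b4.symm)).2.2.2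
        ((mem_filter.1 hτ).2.trans (mem_filter.1 hτ').2.symm)
    · obtain ⟨t0, g0, x0⟩ := hm τ0 h0
      have hb : (beta (ρ.fl (ρ.fm τ0.1).1) (ρ.fl (ρ.fm τ0.1).2.2) : ℝ) ≤ B := by
        have e := (tup τ0 t0).2.1
        rw [x0] at e
        rw [hB, hN, e]
        exact g0
      refine le_trans (card_le_card fun d hd => ?_) (Nat.le_floor hb)
      obtain ⟨τ, hτ, rfl⟩ := mem_image.1 hd
      obtain ⟨a1, a2, a3, a4⟩ := hs τ hτ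
      obtain ⟨c1, c2, c3, -⟩ := minj τ0 τ t0 a1 (x0.trans a2.symm) a3.symm a4.symm
      exact mem_filter.2 ⟨Nat.mem_divisors.2 ⟨c1, (mul_pos (fl_pos _ _) (fl_pos _ _)).ne'⟩, c2, c3⟩
  have h3 := card_le_mul_card_image F _ hsub
  have h4 : (F.image fun τ => (τ.2.q3, τ.2.q4)).card ≤ (2 * ρ.u + 1) ^ 2 := by
    refine (card_le_card him).trans ?_
    rw [card_product, sq]
    exact Nat.mul_le_mul hL hL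
  have h5 : (F.card : ℝ) ≤ 10 * (⌊B⌋₊ : ℝ) * (2 * ρ.u + 1) ^ 2 := by
    exact_mod_cast h3.trans (Nat.mul_le_mul_left _ h4)
  have h6 : (⌊B⌋₊ : ℝ) ≤ (ρ.K + 1) * 2 ^ ρ.om N * exp (-ρ.La) := by
    refine (Nat.floor_le hB0).trans ?_
    rw [hB]
    gcongr
    linarith
  calc (F.card : ℝ) ≤ 10 * ((ρ.K + 1) * 2 ^ ρ.om N * exp (-ρ.La)) * (2 * ρ.u + 1) ^ 2 :=
        h5.trans (by gcongr)
    _ = _ := by ring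

theorem p_MULT (hTUP : S_TUP) (hVB : S_VB) (hMINJ : S_MINJ) (hFIB : S_FIB) (hLAM : S_LAM) :
    S_MULT := by
  refine Ev.imp (((Unif.ev hTUP).and hVB).and (Ev.and hMINJ (Unif.ev hLAM))) 3 fun z hz C _ => ?_
  refine ⟨10 * (z.K + 1) * (2 * z.u + 1) ^ 2, ?_, ?_⟩
  · have a1 : (1 : ℝ) ≤ z.K + 1 := by linarith [(Nat.cast_nonneg z.K : (0 : ℝ) ≤ _)]
    have a2 : (1 : ℝ) ≤ (2 * z.u + 1) ^ 2 :=
      one_le_pow₀ (by linarith [(Nat.cast_nonneg z.u : (0 : ℝ) ≤ _)])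
    nlinarith
  filter_upwards [eventually_ge_atTop (1 : ℝ)] with y hy
  rintro ⟨⟨_, -, -, ⟨_, -, -, tup⟩, _, -, -, vb⟩, _, -, -, ⟨_, -, -, minj⟩, _, -, -, lam⟩ x
  have hs := hz.sizes le_rfl
  have hA : 5 ≤ z.A := le_trans (by norm_num) hz.2.1
  exact MULT_main hFIB (ρ := ⟨z, y⟩) hA hy (by show 1 ≤ z.k3; omega)
    (fun τ hτ => ⟨(tup τ hτ).1, (tup τ hτ).2.2.2.1, (tup τ hτ).2.2.2.2.1, (tup τ hτ).2.2.2.2.2.1⟩)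
    (fun τ hτ => (vb τ hτ).2.2.2.2.2.2.2.2.2.2.2.1) minj lam.2.2.2.2.2.2 x

end Pool.Agent.P.MP_6f5b02_nt.Hy
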