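import Pool.Agent.P.MP_6f5b02_nt.Hy.IfM
import Pool.Agent.P.MP_8be758_nt.Avg.LS
import Pool.Agent.P.MP_8be758_nt.Pd.TMVT

/-! Step MVT. -/

namespace Pool.Agent.P.MP_6f5b02_nt.Hy

open Pool.Agent.P.MP_8be758_nt Pool.Agent.P.MP_8be758_nt.Pd
open Finset Real Filter
open Pool.Agent.P.MP_8be758_nt.Par (cj det)
open Pool.Agent.P.MP_6f5b02_nt.Hy.Par (nq mul eu un red)
open Pool.Agent.P.MP_6f5b02_nt.Hy.Mr
open Pool.Agent.P.MP_e86632_nt (ee)

theorem p_MVT :
    S_MVT := by
  classical
  refine ⟨210, by norm_num, fun A ι I z a K T Y hA hT hY hK hz => ?_⟩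
  set R := I.image fun i => uu A (z i) with hR
  set n := ⌊T⌋₊ with hn
  set b : ℂ → ℂ := fun r => ∑ i ∈ I with uu A (z i) = r, a i with hb
  have h1 : ∀ r ∈ R, ‖r‖ = 1 := fun r hr => by
    obtain ⟨i, hi, rfl⟩ := mem_image.1 hr
    exact norm_uu hA (Par.ne_zero_of_nq (hz i hi).1.ne')
  have key := Avg.ls_dual R (fun r => r.arg / (2 * π)) (δ := 1 / (70 * Y)) (H := 2 * T)
    (range (2 * n + 1)) (fun r => b r * r ^ (-(n : ℤ))) (by positivity)
    ((div_le_one (by positivity)).2 (by linarith)) (by positivity) (fun x hx => ?_)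
    fun r hr s hs hrs k => ?_
  · have e1 : ∑ k ∈ K, ‖∑ i ∈ I, a i * ek A k (z i)‖ ^ 2 ≤ ∑ x ∈ range (2 * n + 1),
        ‖∑ r ∈ R, b r * r ^ (-(n : ℤ)) * ee (x * (r.arg / (2 * π)))‖ ^ 2 := by
      have hk : ∀ k ∈ K, -(n : ℤ) ≤ k ∧ k ≤ n := fun k h => by
        have h2 : ((k.natAbs : ℕ) : ℝ) ≤ T := by
          rw [← Int.cast_natCast, Int.natCast_natAbs, Int.cast_abs]
          exact hK k h
        have := Nat.le_floor h2
        omega
      have hinj : Set.InjOn (fun k : ℤ => (k + n).toNat) K := fun k h k' h' e => by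
        have := hk k h
        have := hk k' h'
        simp only at e
        omega
      refine le_trans (le_of_eq ?_) (sum_le_sum_of_subset_of_nonneg
        (s := K.image fun k : ℤ => (k + n).toNat) (fun x hx => ?_) fun _ _ _ => by positivity)
      swap
      · obtain ⟨k, h, rfl⟩ := mem_image.1 hx
        have := hk k h
        rw [mem_range]
        omega
      rw [sum_image hinj]
      refine sum_congr rfl fun k h => ?_
      · congr 2
        rw [← sum_fiberwise_of_maps_to (g := fun i => uu A (z i)) (t := R)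
          fun i hi => mem_image_of_mem _ hi]
        refine sum_congr rfl fun r hr => ?_
        have hr0 : r ≠ 0 := norm_ne_zero_iff.1 (by rw [h1 r hr]; exact one_ne_zero)
        rw [MVT_ee (h1 r hr), mul_assoc, ← zpow_natCast, ← zpow_add₀ hr0,
          Int.toNat_of_nonneg (by have := hk k h; omega), hb, sum_mul]
        refine sum_congr rfl fun i hi => ?_
        rw [ek, (mem_filter.1 hi).2]
        congr 2
        ring
    have e2 : ∑ r ∈ R, ‖b r * r ^ (-(n : ℤ))‖ ^ 2 ≤ col A I z a := by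
      rw [col, ← sum_fiberwise_of_maps_to (g := fun i => uu A (z i)) (t := R)
          fun i hi => mem_image_of_mem _ hi]
      refine sum_le_sum fun r hr => ?_
      rw [norm_mul, norm_zpow, h1 r hr, one_zpow, mul_one]
      refine (pow_le_pow_left₀ (norm_nonneg _) (norm_sum_le _ _) 2).trans (le_of_eq ?_)
      rw [sq, sum_mul_sum]
      refine sum_congr rfl fun i hi => ?_
      obtain ⟨hi', rfl⟩ := mem_filter.1 hi
      rw [sum_filter]
      exact sum_congr rfl fun j hj => if_congr eq_comm rfl rfl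
    have e3 : 0 ≤ ∑ r ∈ R, ‖b r * r ^ (-(n : ℤ))‖ ^ 2 := sum_nonneg fun _ _ => by positivity
    rw [one_div_one_div] at key
    refine e1.trans (key.trans (mul_le_mul (by linarith) e2 e3 (by positivity)))
  · have h2 : x ≤ 2 * n := Nat.lt_succ_iff.1 (mem_range.1 hx)
    have h3 : (x : ℝ) ≤ 2 * n := by exact_mod_cast h2
    linarith [Nat.floor_le hT]
  · have h2 := MVT_sp (h1 r hr) (h1 s hs) k
    obtain ⟨i, hi, rfl⟩ := mem_image.1 hr
    obtain ⟨j, hj, rfl⟩ := mem_image.1 hs
    have h3 := uu_sep (hz i hi).1 (hz j hj).1 hrs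
    have h7 : (nq A (z i) : ℝ) * nq A (z j) ≤ Y * Y := mul_le_mul (hz i hi).2 (hz j hj).2
      (by exact_mod_cast (hz j hj).1.le) (by linarith)
    have h8 : 1 ≤ (10 * ‖uu A (z i) - uu A (z j)‖ * Y) ^ 2 := by
      have := mul_le_mul_of_nonneg_left h7 (sq_nonneg ‖uu A (z i) - uu A (z j)‖)
      nlinarith
    have h9 : 1 ≤ 10 * ‖uu A (z i) - uu A (z j)‖ * Y := by
      rwa [one_le_sq_iff_one_le_abs, abs_of_nonneg (by positivity)] at h8
    rw [div_le_iff₀ (by positivity)]
    nlinarith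

end Pool.Agent.P.MP_6f5b02_nt.Hy
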