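import Pool.Agent.P.MP_6f5b02_nt.Hy.IfN
import Pool.Agent.P.MP_8be758_nt.Pd.TNEQ

/-! Step NEQ. -/

namespace Pool.Agent.P.MP_6f5b02_nt.Hy

open Pool.Agent.P.MP_8be758_nt Pool.Agent.P.MP_8be758_nt.Pd
open Finset Real Filter
open Pool.Agent.P.MP_8be758_nt.Par (det)
open scoped Classical

theorem p_NEQ (hEQ : S_EQ) (hGCNT : S_GCNT) :
    S_NEQ := by
  intro k
  refine ⟨121 * k + 20, fun A C1 => ?_⟩
  by_cases hA : 5 ≤ A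
  swap
  · refine ⟨1, le_rfl, fun z h1 _ hb => ?_⟩
    have := hb.2.1
    omega
  obtain ⟨Ce, hCe, he⟩ := hEQ A hA
  obtain ⟨Cg, hCg, hg⟩ := hGCNT A hA
  refine ⟨max 1 (Cg * (1 + 2 * (30 * C1 ^ 2))), le_max_left _ _, fun z h1 h2 hb => ?_⟩
  filter_upwards [eventually_ge_atTop (1 : ℝ),
    eventually_ge_atTop (Ce * (1 + 2 * (30 * C1 ^ 2)))] with y hy1 hy2
  intro ψ hψ Z β1 β2 hZ1 hZ2 hβ1 hβ12 hβZ
  have hK : 121 * k + 20 ≤ z.K' := (hb.sizes (by omega)).2.2.2.1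
  have hu : 121 * (k * z.K') + 10 ≤ z.u := by
    have h3 : (121 * k + 20) * z.K' ≤ z.u := hb.2.2.2.2.2.2.2.2.2.2.2.2
    have h4 : (121 * k + 20) * z.K' = 121 * (k * z.K') + 20 * z.K' := by ring
    omega
  simp only [Pr.X, Pr.c5, h2] at hZ1 hZ2 hβZ
  have hψ' : ψ ∈ Red A := h1 ▸ hψ
  have hlow := NEQ_low hy1 hu hZ1
  have hZ : 1 ≤ Z := le_trans (one_le_pow₀ (one_le_pow₀ hy1)) hlow
  have hβ2 : 0 ≤ β2 := hβ1.trans hβ12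
  have hX : 0 ≤ y ^ z.u := by positivity
  have hD : (1 + β2) * Z ≤ (1 + 2 * (30 * C1 ^ 2)) * y ^ z.u := by nlinarith
  refine ⟨fun M f hM hMx hp hf => ?_, ?_⟩
  · refine (he ψ hψ' Z β1 β2 (y ^ (k * z.K')) hZ hβ1 hβ12 (one_le_pow₀ hy1) M f hM hMx hp hf).trans ?_
    exact NEQ_err hy1 hCe hβ2 hX hlow hD hy2
  · refine (hg ψ hψ' Z β1 β2 hZ hβ1 hβ2).trans ?_
    calc Cg * (1 + β2) * Z = Cg * ((1 + β2) * Z) := by ring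
      _ ≤ Cg * ((1 + 2 * (30 * C1 ^ 2)) * y ^ z.u) := by gcongr
      _ = Cg * (1 + 2 * (30 * C1 ^ 2)) * y ^ z.u := by ring
      _ ≤ _ := mul_le_mul_of_nonneg_right (le_max_right _ _) hX

end Pool.Agent.P.MP_6f5b02_nt.Hy
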