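import Pool.Agent.P.MP_6f5b02_nt.Hy.IfN

/-! Step NH. -/

namespace Pool.Agent.P.MP_6f5b02_nt.Hy

open Pool.Agent.P.MP_8be758_nt Pool.Agent.P.MP_8be758_nt.Pd
open Finset Real Filter
open Pool.Agent.P.MP_8be758_nt.Par (det)
open scoped Classical

theorem NH_fix (ρ : Pr) (hy : 0 ≤ ρ.y) (k : ℤ) (θ : ℝ) (L : ℕ) (h0 : 0 ≤ θ) (hk : 0 < k)
    (hr : Rg ρ.w k.natAbs) (hf : (ρ.fl k : ℝ) ≤ ρ.y ^ (2 * ρ.K)) (ho : (ρ.om k : ℝ) ≤ ρ.K * ρ.La)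
    (h2 : ∀ p : ℕ, p.Prime → (ρ.w : ℝ) < p → rho ρ.A p ≤ 2)
    (h02 : ∀ p ∈ ρ.Ps, rho ρ.A p = 0 ∨ rho ρ.A p = 2) (hL : (ρ.lp k).card ≤ L) :
    θ ^ ρ.om k * de ρ.A k.natAbs ≤ 2 ^ L * (ρ.hw (2 * θ) k / k) := by
  have hkR : (0 : ℝ) < k := by exact_mod_cast hk
  have e1 : ∏ p ∈ k.natAbs.primeFactors, (p : ℝ) = k := by
    rw [← Nat.cast_prod, Nat.prod_primeFactors_of_squarefree hr.1, Nat.cast_natAbs, abs_of_pos hk]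
  have e2 : (k.natAbs.primeFactors.filter fun p : ℕ => ¬ρ.y < (p : ℝ)) = ρ.pf k := by
    ext p
    simp only [mem_filter, Pr.pf, Pr.Ps]
    rw [mem_PP hy]
    constructor
    · rintro ⟨a1, a2⟩
      exact ⟨⟨Nat.prime_of_mem_primeFactors a1, hr.2 p a1, not_lt.1 a2⟩,
        Int.natCast_dvd.2 (Nat.dvd_of_mem_primeFactors a1)⟩
    · rintro ⟨⟨a1, -, a3⟩, a4⟩
      exact ⟨Nat.mem_primeFactors.2 ⟨a1, Int.natCast_dvd.1 a4, hr.1.ne_zero⟩, not_lt.2 a3⟩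
  have e3 : de ρ.A k.natAbs =
      (∏ p ∈ ρ.lp k, (rho ρ.A p : ℝ)) * (∏ p ∈ ρ.pf k, (rho ρ.A p : ℝ)) / k := by
    rw [de, prod_div_distrib, e1, ← e2, Pr.lp, prod_filter_mul_prod_filter_not]
  have e4 : ∏ p ∈ ρ.lp k, (rho ρ.A p : ℝ) ≤ 2 ^ L := by
    calc ∏ p ∈ ρ.lp k, (rho ρ.A p : ℝ) ≤ ∏ _p ∈ ρ.lp k, (2 : ℝ) :=
          prod_le_prod (fun _ _ => by positivity) fun p hp => by
            have a1 := (mem_filter.1 hp).1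
            exact_mod_cast h2 p (Nat.prime_of_mem_primeFactors a1) (hr.2 p a1)
      _ = 2 ^ (ρ.lp k).card := prod_const _
      _ ≤ 2 ^ L := pow_le_pow_right₀ (by norm_num) hL
  rw [e3]
  by_cases h : ∀ p ∈ ρ.pf k, rho ρ.A p = 2
  · have e5 : ∏ p ∈ ρ.pf k, (rho ρ.A p : ℝ) = 2 ^ ρ.om k := by
      rw [Pr.om, ← prod_const]
      exact prod_congr rfl fun p hp => by rw [h p hp]; norm_num
    rw [e5, Pr.hw, ind_pos ⟨hr.1, hf, ho, h⟩, mul_one, mul_pow]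
    calc θ ^ ρ.om k * ((∏ p ∈ ρ.lp k, (rho ρ.A p : ℝ)) * 2 ^ ρ.om k / k)
        = (∏ p ∈ ρ.lp k, (rho ρ.A p : ℝ)) * (2 ^ ρ.om k * θ ^ ρ.om k / k) := by ring
      _ ≤ _ := mul_le_mul_of_nonneg_right e4 (by positivity)
  · obtain ⟨p, hp, hne⟩ : ∃ p ∈ ρ.pf k, rho ρ.A p ≠ 2 := by
      by_contra hc
      exact h fun p hp => by_contra fun hne => hc ⟨p, hp, hne⟩
    have e5 : ∏ p ∈ ρ.pf k, (rho ρ.A p : ℝ) = 0 :=
      prod_eq_zero hp (by rw [(h02 p (mem_pf.1 hp).1).resolve_right hne]; norm_num)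
    rw [e5, mul_zero, zero_div, mul_zero]
    exact mul_nonneg (by positivity)
      (div_nonneg (mul_nonneg (pow_nonneg (by linarith) _) (ind_nonneg _)) hkR.le)

theorem NH_exp (ρ : Pr) (k : ℤ) (θ : ℝ) (h0 : 0 ≤ θ) (h1 : θ ≤ 2 / 3)
    (ho : (ρ.om k : ℝ) ≤ ρ.K * ρ.La) : ρ.hw (2 * θ) k ≤ exp (ρ.K * ρ.La) := by
  have a1 : 2 * θ ≤ exp 1 := by linarith [add_one_le_exp (1 : ℝ)]
  calc ρ.hw (2 * θ) k ≤ (2 * θ) ^ ρ.om k * 1 :=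
        mul_le_mul_of_nonneg_left (ind_le_one _) (pow_nonneg (by linarith) _)
    _ ≤ exp 1 ^ ρ.om k := by
        rw [mul_one]
        exact pow_le_pow_left₀ (by linarith) a1 _
    _ = exp (ρ.om k) := by rw [← exp_nat_mul, mul_one]
    _ ≤ _ := exp_le_exp.2 ho

theorem p_NH (hLAM : S_LAM) (hL1 : S_L1) :
    S_NH := by
  obtain ⟨c, hc⟩ := hLAM
  refine ⟨c, fun A C1 => ?_⟩
  obtain ⟨C, -, hC⟩ := hc A C1
  refine ⟨1, le_rfl, fun z e1 e2 hz => ?_⟩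
  filter_upwards [hC z e1 e2 hz, eventually_ge_atTop (0 : ℝ)] with y hy hy0
  intro α m d θ h0 h1 hd
  obtain ⟨-, -, -, a4, -, -, a7⟩ := hy
  have hA : 5 ≤ z.A := le_trans (by norm_num) hz.2.1
  refine ⟨NH_fix ⟨z, y⟩ hy0 d.af θ _ h0 hd.f0 hd.rf hd.ff hd.of (fun p hp hw => ?_) a4
    (a7 _ hd.f0.ne' _ ?_), NH_exp _ _ _ h0 h1 hd.of⟩
  · have hw' : z.w < p := by exact_mod_cast hw
    refine (hL1 z.A p (Q0 z.A) (1, 0) hA (isF_Q0 _) hp (lt_of_le_of_lt hz.2.2.2.1 hw') fun h => ?_).1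
    exact hp.one_lt.ne' (by exact_mod_cast Int.eq_one_of_dvd_one (by positivity) h.1)
  · rw [abs_of_pos (by exact_mod_cast hd.f0)]
    exact hd.f1

end Pool.Agent.P.MP_6f5b02_nt.Hy
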