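import Pool.Agent.P.MP_6f5b02_nt.Hy.IfN
import Pool.Agent.P.MP_8be758_nt.Pd.TNK1

/-! Step NK1. -/

namespace Pool.Agent.P.MP_6f5b02_nt.Hy

open Pool.Agent.P.MP_8be758_nt Pool.Agent.P.MP_8be758_nt.Pd
open Finset Real Filter
open Pool.Agent.P.MP_8be758_nt.Par (det)
open scoped Classical

theorem NK1_main (ρ : Pr) (x : VT) (Z : ℝ) (k : Kw) (hc : 1 ≤ ρ.c5) (hy : 8 * ρ.c5 ^ 2 ≤ ρ.y)
    (V : ρ.VOK x) (hZ : 0 < Z) (z1 : Z < ((ρ.bf x).1 : ℝ)) (z2 : ((ρ.bf x).1 : ℝ) ≤ 2 * Z)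
    (kt : x.af * x.Nt = x.Bt) (ks : x.af * x.Ns = x.As)
    (eP : (ρ.bf x).1 * ρ.fl x.P = x.P) (ea : (ρ.ro x : ℤ) * ρ.fl x.a = x.a)
    (em : ρ.fl ((ρ.bf x).1 * (ρ.bf x).2.2) = ρ.fl x.P * ρ.fl x.a * ρ.fl x.R) :
    (ρ.fl x.P, ρ.fl x.a) ∈ ρ.NO Z (ρ.ro x) (ρ.fl ((ρ.bf x).1 * (ρ.bf x).2.2)) ∧
    (x.s, x.t) ∈ ρ.NB Z (ρ.ro x) (ρ.fl ((ρ.bf x).1 * (ρ.bf x).2.2)) (ρ.fl x.P, ρ.fl x.a) ∧
    ρ.kap k x = Pr.ow k (ρ.fl ((ρ.bf x).1 * (ρ.bf x).2.2)) (ρ.fl x.P, ρ.fl x.a) *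
      (k.f ^ ρ.om ((ρ.ro x * ρ.fl x.a : ℕ) - x.s * x.t) *
        ρ.nw k ⟨ρ.fl x.P, ρ.ro x * ρ.fl x.a, x.s, x.t⟩ (ρ.bf x)) := by
  rw [em]
  have hy1 : 2 ≤ ρ.y := by nlinarith
  have hy0 : 0 < ρ.y := by linarith
  have hX : 0 < ρ.X := pow_pos hy0 _
  have pP := fl_pos ρ x.P
  have pa := fl_pos ρ x.a
  have pR := fl_pos ρ x.R
  have ea' : ((ρ.ro x * ρ.fl x.a : ℕ) : ℤ) = x.a := by push_cast; exact ea
  have fP : (0 : ℝ) < ρ.fl x.P := by exact_mod_cast pP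
  have eP' : (x.P : ℝ) = ((ρ.bf x).1 : ℝ) * ρ.fl x.P := by exact_mod_cast eP.symm
  obtain ⟨s1, s2⟩ := NK1_scale hc hZ fP (abs_nonneg (x.t : ℝ))
    (by rw [eP']; exact mul_le_mul_of_nonneg_right z1.le fP.le)
    (by rw [eP', ← mul_assoc]; exact mul_le_mul_of_nonneg_right z2 fP.le) V.t1 V.t2
  have hT : 0 < ρ.X / (Z * ρ.fl x.P) := div_pos hX (mul_pos hZ fP)
  obtain ⟨g1, g2⟩ := NK1_rng (Y := ρ.y ^ ρ.k3) (a := (x.a : ℝ)) hc hy hT (by positivity) s1 s2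
    (by rw [← pow_succ]; exact V.r1) (by rw [← pow_succ]; exact V.r2)
  have g3 : (x.a : ℝ) ≤ ρ.y ^ ρ.U :=
    V.r3.trans (pow_le_pow_right₀ (by linarith) (by simp only [St.U]; omega))
  obtain ⟨-, o2, o3, o4, o5, -, o7, -⟩ := V.ok
  have haf : Nd.af ⟨ρ.fl x.P, ρ.ro x * ρ.fl x.a, x.s, x.t⟩ = x.af := by
    simp only [Nd.af, VT.af, ea']
  refine ⟨?_, ?_, ?_⟩
  · simp only [Pr.NO, Sp3, mem_filter, mem_product, Nat.mem_divisors, Pr.Rng, ea']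
    have h0 : ρ.fl x.P * ρ.fl x.a * ρ.fl x.R ≠ 0 := by positivity
    exact ⟨⟨⟨⟨(dvd_mul_right _ _).mul_right _, h0⟩, (dvd_mul_left _ _).mul_right _, h0⟩,
      dvd_mul_right _ _⟩, ⟨hT, g1, g2, g3⟩, V.fP, V.fa⟩
  · simp only [Pr.NB, mem_filter]
    refine ⟨?_, ?_⟩
    · rw [mem_SR (div_pos hT (by linarith)), ea']
      refine ⟨?_, ?_, V.st, V.af, o7⟩
      · rw [div_le_iff₀ (by linarith)]
        linarith
      · have : 0 ≤ ρ.c5 * (ρ.X / (Z * ρ.fl x.P)) := by positivity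
        simp only
        linarith
    · have c1 : IsCoprime (x.s * x.t) x.a := by
        have h := V.cop
        rw [VT.af, sub_eq_neg_add] at h
        have h2 : IsCoprime x.a (-(x.s * x.t) + x.a * 1) := by rwa [mul_one]
        exact (IsCoprime.neg_right_iff _ _).1 (IsCoprime.of_add_mul_left_right h2) |>.symm
      refine ⟨⟨ρ.fl x.R, by ring⟩, by rw [haf]; exact o5, ?_, by rw [haf]; exact V.rf, ?_,
        by rw [haf]; exact V.ff, by rw [haf]; exact V.of, V.s1, by rw [haf]; exact V.s2⟩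
      · rw [haf]
        have h1 : x.af ≤ 2 * x.a := by
          have := V.st
          have := neg_abs_le (x.s * x.t)
          simp only [VT.af]
          linarith
        have h2 : (x.af : ℝ) ≤ 2 * x.a := by exact_mod_cast h1
        rw [pow_succ]
        have : 0 ≤ ρ.y ^ ρ.U := by positivity
        nlinarith
      · rw [haf, Nat.cast_mul]
        refine IsCoprime.mul_right ((c1.mul_left V.cop.symm).of_isCoprime_of_dvd_right
          ⟨_, ea.symm⟩) (NK1_cop fun p hp hd h => ?_)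
        have hq : p ∈ ρ.Ps ∧ (p : ℤ) ∣ x.P * x.R * x.a := by
          rcases (Nat.Prime.dvd_mul hp).1 hd with h1 | h1
          · rcases (Nat.Prime.dvd_mul hp).1 h1 with h2 | h2
            · have := mem_pf.1 ((dvd_fl hp).1 h2)
              exact ⟨this.1, (this.2.mul_right _).mul_right _⟩
            · have := mem_pf.1 ((dvd_fl hp).1 h2)
              exact ⟨this.1, this.2.mul_left _⟩
          · have := mem_pf.1 ((dvd_fl hp).1 h1)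
            exact ⟨this.1, (this.2.mul_left _).mul_right _⟩
        obtain ⟨v1, v2⟩ := V.val p hq.1
        rcases (Nat.prime_iff_prime_int.1 hp).dvd_or_dvd h with h1 | h1
        · exact v2 h1 (hq.2.mul_right _)
        · refine v1 ?_
          rw [sq]
          exact mul_dvd_mul hq.2 ((h1.mul_right _).mul_right _)
  · have e1 : ev (ρ.bf x) (Nd.ut ⟨ρ.fl x.P, ρ.ro x * ρ.fl x.a, x.s, x.t⟩) =
        (ρ.fl x.P * x.af) * x.Nt := by
      rw [mul_assoc, kt]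
      simp only [ev, Nd.ut, VT.Bt]
      have b1 : (ρ.bf x).2.1 = x.b := rfl
      have b2 : (ρ.bf x).2.2 = ρ.fl x.P * x.a * x.R := rfl
      rw [b1, b2]
      linear_combination (ρ.fl x.P * x.t ^ 2) * eP
    have e2 : ev (ρ.bf x) (Nd.us ⟨ρ.fl x.P, ρ.ro x * ρ.fl x.a, x.s, x.t⟩) =
        (ρ.fl x.P * x.a * x.af) * x.Ns := by
      rw [mul_assoc, ks]
      simp only [ev, Nd.us, VT.As, ea']
      have b1 : (ρ.bf x).2.1 = x.b := rfl
      have b2 : (ρ.bf x).2.2 = ρ.fl x.P * x.a * x.R := rfl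
      rw [b1, b2]
      linear_combination (ρ.fl x.P * x.a ^ 2) * eP
    have n1 : (ρ.fl x.P : ℤ) * x.af ≠ 0 := by positivity
    have n2 : (ρ.fl x.P : ℤ) * x.a * x.af ≠ 0 := by positivity
    simp only [Pr.kap, Pr.ow, Pr.nw, haf, e1, e2, ea', Int.mul_ediv_cancel_left _ n1,
      Int.mul_ediv_cancel_left _ n2, Nat.mul_div_cancel_left _ (Nat.mul_pos pP pa), primeFactors_fl]
    rw [ind_pos ⟨dvd_mul_right _ _, dvd_mul_right _ _⟩, one_mul]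
    rfl

theorem p_NK1 (hK4 : S_K4) (hNK0 : S_NK0) :
    S_NK1 := by
  refine Ev.imp hNK0 0 fun z hz C _ => ⟨1, le_rfl, ?_⟩
  filter_upwards [eventually_ge_atTop (8 * (30 * z.C1 ^ 2) ^ 2)] with y hy H x Z k V hZ z1 z2
  obtain ⟨-, a2, a3, -, -, -, -, a8, -⟩ := H x V
  obtain ⟨k1, k2, -⟩ := hK4 z.A x (by have := hz.2.1; omega) V.ok
  exact NK1_main ⟨z, y⟩ x Z k (hz.one_le_c5 y) hy V hZ z1 z2 k1 k2 a2 a3 a8

end Pool.Agent.P.MP_6f5b02_nt.Hy
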