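import Pool.Agent.P.MP_6f5b02_nt.Hy.IfN
import Pool.Agent.P.MP_8be758_nt.Pd.TNKEY

/-! Step NKEY. -/

namespace Pool.Agent.P.MP_6f5b02_nt.Hy

open Pool.Agent.P.MP_8be758_nt Pool.Agent.P.MP_8be758_nt.Pd
open Finset Real Filter
open Pool.Agent.P.MP_8be758_nt.Par (det)
open scoped Classical

theorem p_NKEY (hNK0 : S_NK0) (hNK1 : S_NK1) :
    S_NKEY := by
  refine (Ev.and hNK0 hNK1).imp 0 fun z _ C _ => ⟨1, le_rfl, Eventually.of_forall fun y h => ?_⟩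
  obtain ⟨⟨-, -, -, h0⟩, -, -, -, h1⟩ := h
  generalize (⟨z, y⟩ : Pr) = ρ at h0 h1 ⊢
  change Pr at ρ
  intro S k φ α Z hk hS hZ hZ1 hZ2
  set m := ρ.fl (φ.1 * φ.2.2) with hm
  have hW : ρ.W2 k Z α m φ =
      ∑ b ∈ (ρ.NO Z α m).sigma (ρ.NB Z α m), ∑ b' ∈ (ρ.NO Z α m).sigma (ρ.NB Z α m),
        ind (¬(b.1 = b'.1 ∧ b.2 = b'.2)) * (Pr.ow k m b.1 * Pr.ow k m b'.1) *
          (k.f ^ ρ.om ((α * b.1.2 : ℕ) - b.2.1 * b.2.2) *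
            k.f ^ ρ.om ((α * b'.1.2 : ℕ) - b'.2.1 * b'.2.2)) *
          (ind (ρ.nat α m φ) * (ρ.nw k ⟨b.1.1, α * b.1.2, b.2.1, b.2.2⟩ φ *
            ρ.nw k ⟨b'.1.1, α * b'.1.2, b'.2.1, b'.2.2⟩ φ)) := by
    rw [Pr.W2, sum_sigma]
    refine sum_congr rfl fun z _ => ?_
    rw [sum_comm]
    refine sum_congr rfl fun v _ => ?_
    rw [sum_sigma]
  have hinj : ∀ x ∈ S.filter (fun x => ρ.bf x = φ ∧ ρ.ro x = α),
      ∀ x' ∈ S.filter (fun x => ρ.bf x = φ ∧ ρ.ro x = α),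
      (ρ.fl x.P, ρ.fl x.a) = (ρ.fl x'.P, ρ.fl x'.a) → (x.s, x.t) = (x'.s, x'.t) → x = x' := by
    intro x hx x' hx' e1 e2
    obtain ⟨hx1, hx2, hx3⟩ := mem_filter.1 hx
    obtain ⟨hx1', hx2', hx3'⟩ := mem_filter.1 hx'
    obtain ⟨-, a1, a2, -⟩ := h0 x (hS x hx1)
    obtain ⟨-, a1', a2', -⟩ := h0 x' (hS x' hx1')
    obtain ⟨e11, e12⟩ := Prod.mk.inj e1
    obtain ⟨e21, e22⟩ := Prod.mk.inj e2
    have eP : x.P = x'.P := by rw [← a1, ← a1', hx2, hx2', e11]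
    have ea : x.a = x'.a := by rw [← a2, ← a2', hx3, hx3', e12]
    have e3 := hx2.trans hx2'.symm
    simp only [Pr.bf, Prod.mk.injEq] at e3
    have eb : x.b = x'.b := e3.2.1
    have eR : x.R = x'.R := by
      have e4 := e3.2.2
      rw [← eP, ← ea] at e4
      have p1 : (0 : ℤ) < ρ.fl x.P := by exact_mod_cast fl_pos ρ x.P
      exact mul_left_cancel₀ (mul_pos p1 (hS x hx1).ok.2.2.2.1).ne' e4
    cases x; cases x'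
    simp only at eP ea eb eR e21 e22
    simp only [eP, ea, eb, eR, e21, e22]
  rw [hW]
  refine NKEY_gen _ _ (fun x => (⟨(ρ.fl x.P, ρ.fl x.a), (x.s, x.t)⟩ : Σ _ : ℕ × ℕ, V2)) _ _
    (fun x hx x' hx' e => ?_) (fun x hx => ?_) (fun b b' => ?_) fun x hx x' hx' => ?_
  · exact hinj x hx x' hx' (congrArg Sigma.fst e) (congrArg (fun b : Σ _ : ℕ × ℕ, V2 => b.2) e)
  · obtain ⟨hx1, hx2, hx3⟩ := mem_filter.1 hx
    obtain ⟨a1, a2, -⟩ := h1 x Z k (hS x hx1) hZ (hx2 ▸ hZ1) (hx2 ▸ hZ2)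
    rw [hx2, hx3] at a1 a2
    exact mem_sigma.2 ⟨a1, a2⟩
  · exact mul_nonneg (mul_nonneg (mul_nonneg (ind_nonneg _) (mul_nonneg (ow_nonneg hk _ _)
      (ow_nonneg hk _ _))) (mul_nonneg (pow_nonneg hk.2.2.2.1.1 _) (pow_nonneg hk.2.2.2.1.1 _)))
      (mul_nonneg (ind_nonneg _) (mul_nonneg (nw_nonneg ρ hk _ _) (nw_nonneg ρ hk _ _)))
  · obtain ⟨hx1, hx2, hx3⟩ := mem_filter.1 hx
    obtain ⟨hx1', hx2', hx3'⟩ := mem_filter.1 hx'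
    obtain ⟨-, -, a3⟩ := h1 x Z k (hS x hx1) hZ (hx2 ▸ hZ1) (hx2 ▸ hZ2)
    obtain ⟨-, -, a3'⟩ := h1 x' Z k (hS x' hx1') hZ (hx2' ▸ hZ1) (hx2' ▸ hZ2)
    have a4 := (h0 x (hS x hx1)).2.2.2.2.2.2.2.2.1
    rw [hx2, hx3] at a3 a4
    rw [hx2', hx3'] at a3'
    have e : ind (¬((ρ.fl x.P, ρ.fl x.a) = (ρ.fl x'.P, ρ.fl x'.a) ∧ (x.s, x.t) = (x'.s, x'.t))) =
        ind (x ≠ x') := by
      congr 1
      exact propext ⟨fun h e => h (by rw [e]; exact ⟨rfl, rfl⟩),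
        fun h e => h (hinj x hx x' hx' e.1 e.2)⟩
    simp only
    rw [e, ind_pos a4, a3, a3']
    ring

end Pool.Agent.P.MP_6f5b02_nt.Hy
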