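import Pool.Agent.P.MP_6f5b02_nt.Hy.IfN
import Pool.Agent.P.MP_8be758_nt.Pd.TNOFF

/-! Step NOFF. -/

namespace Pool.Agent.P.MP_6f5b02_nt.Hy

open Pool.Agent.P.MP_8be758_nt Pool.Agent.P.MP_8be758_nt.Pd
open Finset Real Filter
open Pool.Agent.P.MP_8be758_nt.Par (det)
open scoped Classical

theorem p_NOFF (hNK0 : S_NK0) (hNKEY : S_NKEY) (hCOVER : S_COVER) (hNPAIR : S_NPAIR) (hNEQ : S_NEQ) (hNSUM : S_NSUM) :
    S_NOFF := by
  obtain ⟨k0, hP⟩ := hNPAIR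
  refine (((hNK0.and hNKEY).and ((hP _ (le_max_left k0 40)).and (hNEQ (max k0 40)).ev)).and
    hNSUM).imp 3 fun z big C hC => ⟨(Red z.A).card * C ^ 5 + 1,
      le_add_of_nonneg_left (by positivity), (eventually_ge_atTop 1).mono fun y y1 => ?_⟩
  rintro ⟨⟨_, -, b0, ⟨_, -, -, ⟨_, -, -, h0⟩, _, -, -, h1⟩, _, -, b1, ⟨C2, a2, b2, h2⟩, C3, a3, b3,
    h3⟩, C4, a4, b4, s1, s2, s3, J, j1, j2, j3, j4, j5⟩ S k hk hS
  have K3 := (big.sizes le_rfl).2.2.2.1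
  have c5 := big.one_le_c5 y
  have A3 := big.2.1
  set ρ : Pr := ⟨z, y⟩
  have y1' : 1 ≤ ρ.y := y1
  have X0 : 0 < ρ.X := pow_pos (by linarith) _
  have k40 := le_max_right k0 40
  set k1 := max k0 40
  have E0 : 0 ≤ ρ.y ^ (30 * ρ.K') * ρ.Er k1 :=
    mul_nonneg (by positivity) (div_nonneg X0.le (by positivity))
  rw [NOFF_grp S ρ.RA ρ.bf ρ.ro (ρ.kap k) fun x hx => (h0 x (hS x hx)).2.2.2.2.2.1]
  refine (hCOVER ρ.A J ρ.X ρ.c5 _ _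
    (fun j φ => ∑ α ∈ ρ.RA, ∑ m ∈ ρ.SM, ρ.W2 k (ρ.X / 2 ^ (j + 1)) α m φ) (by show 5 ≤ z.A; omega) X0
    (fun j φ => sum_nonneg fun _ _ => sum_nonneg fun _ _ => W2_nonneg ρ hk _ _ _ _)
    fun φ hφ => ?_).trans ?_
  · obtain ⟨x, hx, rfl⟩ := mem_image.1 hφ
    obtain ⟨n1, -, -, n4, n5, -, n7, -⟩ := h0 x (hS x hx)
    refine ⟨n1, (div_lt_div_of_pos_left X0 (by positivity) j1).trans_le n4, n5, (hS x hx).b0,
      (hS x hx).b1, fun j l1 l2 => sum_le_sum fun α _ => ?_⟩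
    exact (h1 S k _ α _ hk hS (by positivity) l1 l2).trans
      (single_le_sum (f := fun m => ρ.W2 k _ α m _) (fun _ _ => W2_nonneg ρ hk _ _ _ _) n7)
  have T : ∀ j ∈ range J, ∀ ψ ∈ Red ρ.A, ∑ g ∈ GG ψ (ρ.X / 2 ^ (j + 1)) 0 (ρ.c5 * 2 ^ (j + 1)),
      ∑ α ∈ ρ.RA, ∑ m ∈ ρ.SM, ρ.W2 k (ρ.X / 2 ^ (j + 1)) α m (act ψ g) ≤
      C * (C * ρ.X) * (C * (C * exp ρ.La)) * exp (-5 * ρ.La) +
        ρ.y ^ (6 * ρ.K') * (ρ.y ^ (30 * ρ.K') * ρ.Er k1) := fun j hj ψ hψ => by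
    have p1 : (1 : ℝ) ≤ 2 ^ (j + 1) := one_le_pow₀ one_le_two
    have p2 : (2 : ℝ) ^ (j + 1) ≤ ρ.y ^ (k1 * ρ.K') :=
      (pow_le_pow_right₀ one_le_two (mem_range.1 hj)).trans
        (j2.trans (pow_le_pow_right₀ y1' (Nat.mul_le_mul_right _ (by omega))))
    have f := h3 ψ hψ (ρ.X / 2 ^ (j + 1)) 0 (ρ.c5 * 2 ^ (j + 1))
      (div_le_div_of_nonneg_left X0.le (by positivity) p2) (div_le_self X0.le p1) le_rfl
      (by positivity) (by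
        rw [mul_assoc, mul_div_cancel₀ _ (by positivity)]
        nlinarith [mul_pos (zero_lt_one.trans_le c5) X0])
    rw [sum_comm]
    refine (sum_le_sum fun α hα => sum_comm.trans_le (sum_le_sum fun m hm =>
      h2 k ψ _ _ _ α m hk (mem_filter.1 hψ).2 f (by positivity) hα hm)).trans ?_
    simp only [sum_add_distrib, ← mul_sum, ← sum_mul, sum_const, nsmul_eq_mul]
    have d1 : 0 ≤ ∑ m ∈ ρ.SM, de ρ.A m * exp (12 * ρ.si m) :=
      sum_nonneg fun _ _ => mul_nonneg (de_nonneg _ _) (exp_pos _).le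
    have d2 : 0 ≤ ∑ α ∈ ρ.RA, de ρ.A α := sum_nonneg fun _ _ => de_nonneg _ _
    refine add_le_add ?_ (le_of_eq_of_le (by ring) (mul_le_mul_of_nonneg_right s3 E0))
    have e2 : C2 ≤ C := by linarith
    have e3 : C3 ≤ C := by linarith
    have e4 := s1.trans b4
    have e5 := s2.trans (mul_le_mul_of_nonneg_right b4 (exp_pos _).le)
    gcongr
  refine (sum_le_sum fun j hj => sum_le_sum (T j hj)).trans ?_
  simp only [sum_const, card_range, nsmul_eq_mul]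
  have e1 := NOFF_err (K := ρ.K') y1' X0.le (by show 1 ≤ z.K'; omega) k40
  have e2 := mul_le_mul_of_nonneg_right j4 (mul_nonneg (by positivity : 0 ≤ ρ.y ^ (6 * ρ.K')) E0)
  have e3 := mul_le_mul_of_nonneg_left j5 X0.le
  have e4 := mul_le_mul_of_nonneg_right (j3.trans (mul_le_mul_of_nonneg_right b4 (exp_pos _).le))
    (by positivity : 0 ≤ (Red ρ.A).card * (C * (C * ρ.X) * (C * (C * exp ρ.La)) * exp (-5 * ρ.La)))
  have e5 : exp (-3 * ρ.La) = exp ρ.La * exp ρ.La * exp (-5 * ρ.La) := by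
    rw [← exp_add, ← exp_add]
    congr 1
    ring
  rw [← Pr.Er] at e1
  rw [e5] at e3 ⊢
  nlinarith

end Pool.Agent.P.MP_6f5b02_nt.Hy
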