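import Pool.Agent.P.MP_6f5b02_nt.Hy.IfM
import Pool.Agent.P.MP_8be758_nt.Pd.TNONC

/-! Step NONC. -/

namespace Pool.Agent.P.MP_6f5b02_nt.Hy

open Pool.Agent.P.MP_8be758_nt Pool.Agent.P.MP_8be758_nt.Pd
open Finset Real Filter
open Pool.Agent.P.MP_8be758_nt.Par (cj det)
open Pool.Agent.P.MP_6f5b02_nt.Hy.Par (nq mul eu un red)
open Pool.Agent.P.MP_6f5b02_nt.Hy.Mr

theorem p_NONC (hFEJ : S_FEJ) (hSIEV : S_SIEV) :
    S_NONC := by
  intro A a τ hA hA3 ha hτ
  obtain ⟨C, hC, h1⟩ := hSIEV A ⌈1 / a⌉₊ hA hA3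
  obtain ⟨n, hn⟩ := exists_nat_gt (64 * A * C / (a * τ))
  have hA0 : (5 : ℝ) ≤ A := by exact_mod_cast hA3
  have hn0 : (0 : ℝ) < n := lt_trans (by positivity) hn
  have hn1 : 1 ≤ n := by exact_mod_cast hn0
  have hn2 : (1 : ℝ) ≤ n := by exact_mod_cast hn1
  obtain ⟨N0, h2⟩ := h1 n hn1
  obtain ⟨X0, h3⟩ := eventually_atTop.1 (((tendsto_rpow_atTop ha).eventually_ge_atTop N0).and
    (((tendsto_rpow_atTop ha).eventually_gt_atTop (8 * A)).and (eventually_gt_atTop (1 : ℝ))))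
  refine ⟨1 / (4 * n ^ 2), X0, by positivity, (div_le_one (by positivity)).2 (by nlinarith), ?_⟩
  intro X P β γ I k hX hB hP hI hk0 hk
  obtain ⟨b1, b2, b3⟩ := h3 X hX
  obtain ⟨c1, c2, c3, c4⟩ := hB
  by_contra hG
  rw [not_le] at hG
  obtain ⟨ζ, z1, z2⟩ := Complex.exists_norm_eq_mul_self (GS A γ I k)
  have hN : P ≤ 8 * A * P := by nlinarith
  have hL : 0 < log X := log_pos b3
  have hL2 : a * log X ≤ log (8 * A * P) := by
    rw [← log_rpow (by linarith)]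
    exact log_le_log (by positivity) (hP.trans hN)
  have hJ : |(k : ℝ)| ≤ (8 * A * P) ^ ⌈1 / a⌉₊ := by
    calc |(k : ℝ)| ≤ X := hk
      _ = (X ^ a) ^ (1 / a) := by
        rw [← rpow_mul (by linarith), mul_one_div_cancel ha.ne', rpow_one]
      _ ≤ (8 * A * P) ^ (1 / a) := rpow_le_rpow (by positivity) (hP.trans hN) (by positivity)
      _ ≤ (8 * A * P) ^ ((⌈1 / a⌉₊ : ℕ) : ℝ) :=
        rpow_le_rpow_of_exponent_le (by linarith) (Nat.le_ceil _)
      _ = _ := rpow_natCast _ _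
  have s1 := h2 (8 * A * P) k ζ (b1.trans (hP.trans hN)) hk0 hJ z1
  have hinj : Set.InjOn (fun p => red A (γ p)) I := fun p hp q hq e => by
    have e1 := (nq_red _).trans (c4 p hp).1.2.2
    rw [show red A (γ p) = red A (γ q) from e, nq_red, (c4 q hq).1.2.2] at e1
    have : (β : ℤ) ≠ 0 := by omega
    exact_mod_cast (mul_left_cancel₀ this e1).symm
  have s2 : ∑ p ∈ I, KF n (ζ * ek A k (γ p)) ≤
      ∑ v ∈ (An (Q0 A) 0 (8 * A * P)).filter (Ro A √(8 * A * P)), KF n (ζ * ek A k v) := by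
    rw [sum_congr rfl fun p _ => by rw [← ek_red],
      ← sum_image (f := fun v => KF n (ζ * ek A k v)) hinj]
    refine sum_le_sum_of_subset_of_nonneg (fun v hv => ?_) fun _ _ _ => KF_nonneg _ _
    obtain ⟨p, hp, rfl⟩ := mem_image.1 hv
    obtain ⟨⟨d1, d2, d3⟩, d4, d5⟩ := c4 p hp
    have e1 : (1 : ℝ) ≤ β := by exact_mod_cast c1
    have e2 : (β : ℝ) ≤ 4 * A := by exact_mod_cast c2
    refine mem_filter.2 ⟨(mem_An0 (by omega)).2 ⟨red_cn ?_, ?_⟩, fun q hq hd => ?_⟩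
    · rw [d3]
      exact_mod_cast Nat.mul_pos c1 d1.pos
    · rw [nq_red, d3]
      push_cast
      constructor <;> nlinarith
    · rw [nq_red, d3] at hd
      rcases (Nat.Prime.dvd_mul hq).1 (by exact_mod_cast hd : q ∣ β * p) with h | h
      · exact Or.inl ((Nat.le_of_dvd c1 h).trans c2)
      · rw [(Nat.prime_dvd_prime_iff_eq hq d1).1 h]
        refine Or.inr (lt_of_lt_of_le ((sqrt_lt' (by linarith)).2 ?_) d4)
        nlinarith
  have s3 : (n : ℝ) / 4 * (I.card - (n : ℝ) ^ 2 * (2 * I.card - 2 * ‖GS A γ I k‖)) ≤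
      ∑ p ∈ I, KF n (ζ * ek A k (γ p)) := by
    refine le_trans (le_of_eq ?_) (sum_le_sum fun p hp => NONC_pt hFEJ hn1
      (by rw [norm_mul, z1, norm_ek (by omega) k ((c4 p hp).1.ne c1), mul_one]))
    have e : ‖GS A γ I k‖ = ∑ p ∈ I, (ζ * ek A k (γ p)).re := by
      rw [← Complex.re_sum, ← mul_sum]
      exact (Complex.ofReal_re _).symm.trans (congrArg Complex.re z2)
    rw [e, ← mul_sum, sum_sub_distrib, ← mul_sum, sum_sub_distrib, ← mul_sum]
    simp [mul_comm]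
  have s4 : (n : ℝ) ^ 2 * (2 * I.card - 2 * ‖GS A γ I k‖) ≤ I.card / 2 := by
    have : (n : ℝ) ^ 2 * (2 * (1 / (4 * n ^ 2) * I.card)) = I.card / 2 := by field_simp; ring
    rw [← this]
    exact mul_le_mul_of_nonneg_left (by linarith) (by positivity)
  have s5 : C * (8 * A * P) / log (8 * A * P) ≤ C * (8 * A * P) / (a * log X) :=
    div_le_div_of_nonneg_left (by positivity) (by positivity) hL2
  have s6 : (n : ℝ) / 8 * (τ * P / log X) ≤ C * (8 * A * P) / (a * log X) := by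
    have := mul_le_mul_of_nonneg_left hI (show (0 : ℝ) ≤ n / 8 by positivity)
    have := mul_le_mul_of_nonneg_left s4 (show (0 : ℝ) ≤ n / 4 by positivity)
    nlinarith
  rw [div_lt_iff₀ (by positivity)] at hn
  rw [le_div_iff₀ (by positivity),
    show (n : ℝ) / 8 * (τ * P / log X) * (a * log X) = n * (a * τ) / 8 * P by field_simp] at s6
  nlinarith

end Pool.Agent.P.MP_6f5b02_nt.Hy
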