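import Pool.Agent.P.MP_6f5b02_nt.Hy.IfN
import Pool.Agent.P.MP_8be758_nt.Pd.TNP

/-! Step NP. -/

namespace Pool.Agent.P.MP_6f5b02_nt.Hy

open Pool.Agent.P.MP_8be758_nt Pool.Agent.P.MP_8be758_nt.Pd
open Finset Real Filter
open Pool.Agent.P.MP_8be758_nt.Par (det)
open scoped Classical

theorem NP_expo (ρ : Pr) {k : Kw} (hk : k.OK) (m : ℕ) (d d' : Nd)
    (hr : ∀ p ∈ ρ.Ps, rho ρ.A p = 0 ∨ rho ρ.A p = 2) :
    -(∑ p ∈ NP_P ρ m d d', (rho ρ.A p : ℝ) / p * ∑ i, NP_x k d d' i p) ≤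
      -(6 - 2 * k.t - 2 * k.s) * ρ.La + 12 * ρ.si m + 12 * ρ.si d.af + 12 * ρ.si d'.af +
        8 * ρ.si (d.s * d.t) + 8 * ρ.si (d'.s * d'.t) +
        ∑ p ∈ ρ.Ps, 8 / (p : ℝ) * ind (Pr.Bs m d d'.m d'.a p d'.s) +
        ∑ p ∈ ρ.Ps, 8 / (p : ℝ) * ind (Pr.Bt m d d'.m p d'.t) := by
  obtain ⟨-, ⟨t0, t1⟩, ⟨s0, s1⟩, -⟩ := hk
  rw [NP_P, sum_filter, ← sum_neg_distrib]
  simp only [NP_si, Pr.La, mul_sum, ← sum_add_distrib]
  refine sum_le_sum fun p hp => ?_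
  have e : ∑ i, NP_x k d d' i p = 2 + (4 - 2 * k.t - 2 * k.s) * ind (NP_g d d' p) := by
    simp only [Fin.sum_univ_six, NP_x]
    simp
    ring
  rw [← mul_sum, e]
  have q0 : (0 : ℝ) ≤ 1 / p := by positivity
  have r0 : (0 : ℝ) ≤ (rho ρ.A p : ℝ) / p := by positivity
  have r1 : (rho ρ.A p : ℝ) / p ≤ 2 * (1 / p) := by
    rcases hr p hp with h | h <;> rw [h]
    · simp
    · exact le_of_eq (by push_cast; ring)
  rw [show 8 / (p : ℝ) = 8 * (1 / p) by ring]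
  generalize (rho ρ.A p : ℝ) / p = r at *
  generalize 1 / (p : ℝ) = q at *
  have i0 : ∀ Q : Prop, 0 ≤ q * ind Q := fun Q => mul_nonneg q0 (ind_nonneg _)
  have i1 : ∀ {Q : Prop}, Q → q * ind Q = q := fun h => by rw [ind_pos h, mul_one]
  have j1 := i0 ((p : ℤ) ∣ (m : ℤ))
  have j2 := i0 ((p : ℤ) ∣ d.af)
  have j3 := i0 ((p : ℤ) ∣ d'.af)
  have j4 := i0 ((p : ℤ) ∣ d.s * d.t)
  have j5 := i0 ((p : ℤ) ∣ d'.s * d'.t)
  have j6 := i0 (Pr.Bs m d d'.m d'.a p d'.s)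
  have j7 := i0 (Pr.Bt m d d'.m p d'.t)
  have k1 := mul_nonneg t0 r0
  have k2 := mul_nonneg s0 r0
  split_ifs with h
  · by_cases g : NP_g d d' p
    · rw [ind_pos g]
      nlinarith
    · rw [ind_neg g]
      simp only [NP_g, not_and_or, not_not] at g
      rcases g with g | g | g | g
      · have := i1 g
        nlinarith
      · have := i1 g
        nlinarith
      · have := i1 (show Pr.Bt m d d'.m p d'.t from ⟨h.1, g⟩)
        nlinarith
      · have := i1 (show Pr.Bs m d d'.m d'.a p d'.s from ⟨h.1, g⟩)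
        nlinarith
  · simp only [not_and_or, not_not] at h
    rcases h with g | g | g
    · have := i1 (Int.natCast_dvd_natCast.2 g)
      nlinarith
    · have := i1 g
      nlinarith
    · have := i1 g
      nlinarith

theorem p_NP (hGL : S_GL) (hLAM : S_LAM) :
    S_NP := by
  obtain ⟨C1, hGL⟩ := hGL
  obtain ⟨c, hc⟩ := hLAM
  refine ⟨24, fun k1 hk1 => ⟨max c (C1 + 24), fun A C0 => ⟨2 * exp 218, ?_, fun z hA hC hB => ?_⟩⟩⟩
  · linarith [one_le_exp (show (0 : ℝ) ≤ 218 by norm_num)]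
  obtain ⟨C', -, h⟩ := hc A C0
  have hB' := hB.mono (le_max_right _ _)
  obtain ⟨-, -, z1, z2, -, -⟩ := hB'.sizes (by omega)
  obtain ⟨-, z3, -, z4, z5, -⟩ := hB'
  filter_upwards [h z hA hC (hB.mono (le_max_left _ _)), eventually_ge_atTop (z.w : ℝ)] with y hL hy
  obtain ⟨-, -, -, hr, -, hs, -⟩ := hL
  intro k ψ G N α m d d' hk hψ hG hα hm hd hd'
  set ρ : Pr := ⟨z, y⟩ with hρ
  have w0 : (24 : ℝ) ≤ z.w := by exact_mod_cast (by omega : 24 ≤ z.w)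
  have w1 : (4 * z.A : ℝ) ≤ z.w := by exact_mod_cast z4
  have y1 : (1 : ℝ) ≤ y := by linarith
  have y0 : (0 : ℝ) ≤ y := by linarith
  obtain ⟨a1, a2, a3⟩ := (mem_SF (pow_nonneg y0 _)).1 hα
  obtain ⟨m1, m2, m3⟩ := (mem_SF (pow_nonneg y0 _)).1 hm
  have hα' : ∀ p : ℕ, p.Prime → p ∣ α → y < p := fun p h1 h2 =>
    lt_of_PP (a3 (Nat.mem_primeFactors.2 ⟨h1, h2, a2.ne_zero⟩))
  have hm' : ∀ p : ℕ, p.Prime → p ∣ m → (z.w : ℝ) < p ∧ (p : ℝ) ≤ y := fun p h1 h2 =>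
    ((mem_PP y0).1 (m3 (Nat.mem_primeFactors.2 ⟨h1, h2, m2.ne_zero⟩))).2
  have cop : α.Coprime m := Nat.coprime_of_dvd fun p h1 h2 h3 =>
    absurd (hα' p h1 h2) (not_lt.2 (hm' p h1 h3).2)
  have hP : ∀ p ∈ NP_P ρ m d d', p.Prime ∧ (z.w : ℝ) < p ∧ (p : ℝ) ≤ y := fun p hp =>
    (mem_PP y0).1 (mem_filter.1 hp).1
  have hP1 : ∀ p ∈ NP_P ρ m d d', ¬p ∣ α * m := fun p hp h =>
    ((hP p hp).1.dvd_mul.1 h).elim (fun h => absurd (hα' p (hP p hp).1 h) (not_lt.2 (hP p hp).2.2))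
      (mem_filter.1 hp).2.1
  have hP2 : ∀ e : Nd, ρ.NA α m e → ∀ p ∈ NP_P ρ m d d', ¬(p : ℤ) ∣ e.m * e.a := fun e he p hp h =>
    hP1 p hp (dvd_trans (by exact_mod_cast h) he.dv)
  have hE : 0 ≤ ρ.Er k1 := div_nonneg (pow_nonneg y0 _) (pow_nonneg y0 _)
  have r1 : Rg (4 * z.A) 1 := ⟨squarefree_one, by simp⟩
  have r2 : ∀ e : Nd, ρ.NA α m e → Rg (4 * z.A) e.af.natAbs := fun e he =>
    ⟨he.rf.1, fun p hp => w1.trans_lt (he.rf.2 p hp)⟩
  have r3 : Rg (4 * z.A) (α * m) := by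
    refine ⟨(Nat.squarefree_mul cop).2 ⟨a2, m2⟩, fun p hp => ?_⟩
    obtain ⟨h1, h2, -⟩ := Nat.mem_primeFactors.1 hp
    rcases h1.dvd_mul.1 h2 with h | h
    · linarith [hα' p h1 h]
    · linarith [(hm' p h1 h).1]
  have r4 : ∀ e : Nd, ρ.NA α m e → (α * m).Coprime e.af.natAbs := fun e he => by
    have := Int.isCoprime_iff_gcd_eq_one.1 he.cop.of_mul_left_right.symm
    simpa [Int.gcd, Int.natAbs_mul] using this
  have u1 : ∀ p : ℕ, p.Prime → ¬(p : ℤ) ∣ 1 := fun p hp =>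
    (Nat.prime_iff_prime_int.1 hp).not_dvd_one
  have ab : ∀ e : Nd, ρ.NA α m e → ((e.af.natAbs : ℕ) : ℝ) ≤ y ^ (z.U + 1) := fun e he => by
    rw [← Int.cast_natCast, Int.natAbs_of_nonneg he.f0.le]
    exact he.f1
  have key := hGL z.A ψ (Fin 6) (NP_u d d') (NP_m (α * m) d d') 2 4 (NP_x k d d') (NP_P ρ m d d') G y
    (y ^ (k1 * z.K')) (ρ.Er k1) (by omega) hψ (by decide) (by simp) (by linarith) hE ?_ ?_ ?_ hG.1 ?_
  rotate_left
  · intro i
    fin_cases i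
    · exact ⟨r1, by simp [NP_m]⟩
    · exact ⟨r3, fun p hp h => u1 p (Nat.prime_of_mem_primeFactors hp) h.2⟩
    · exact ⟨r2 d hd, fun p hp h => u1 p (Nat.prime_of_mem_primeFactors hp) h.2⟩
    · exact ⟨r1, by simp [NP_m]⟩
    · exact ⟨r2 d' hd', fun p hp h => u1 p (Nat.prime_of_mem_primeFactors hp) h.2⟩
    · exact ⟨r1, by simp [NP_m]⟩
  · intro i j hij
    have b1 := r4 d hd
    have b2 := r4 d' hd'
    fin_cases i <;> fin_cases j <;> first
      | exact absurd rfl hij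
      | exact .inl ⟨rfl, rfl⟩
      | exact .inr (.inl ⟨rfl, rfl⟩)
      | exact .inr (.inr (Nat.coprime_one_left _))
      | exact .inr (.inr (Nat.coprime_one_right _))
      | exact .inr (.inr b1)
      | exact .inr (.inr b2)
      | exact .inr (.inr b1.symm)
      | exact .inr (.inr b2.symm)
  · intro p hp
    obtain ⟨p1, p2, p3⟩ := hP p hp
    obtain ⟨-, -, p4, p5⟩ := mem_filter.1 hp
    refine ⟨p1, by exact_mod_cast w1.trans_lt p2, by exact_mod_cast w0.trans p2.le, p3,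
      fun i => ?_, fun i => ⟨(NP_x01 hk d d' i p).1, (NP_x01 hk d d' i p).2, fun _ h => ?_⟩,
      fun i j hij hi hj => ?_⟩
    · fin_cases i
      exacts [p1.not_dvd_one, hP1 p hp, fun h => p4 (Int.natCast_dvd.2 h), p1.not_dvd_one,
        fun h => p5 (Int.natCast_dvd.2 h), p1.not_dvd_one]
    · fin_cases i
      exacts [u1 p p1 h.1, u1 p p1 h.2, u1 p p1 h.2, hP2 d hd p hp h.1, u1 p p1 h.2,
        hP2 d' hd' p hp h.1]
    · by_cases g : NP_g d d' p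
      · have := NP_det p1 (hP2 d hd p hp) (hP2 d' hd' p hp) p4 p5 g
        rcases lt_or_gt_of_ne hij with h | h
        · exact this i j h
        · rw [NP_anti, dvd_neg]
          exact this j i h
      · have e : ∀ i, NP_x k d d' i p ≠ 0 → i = 0 ∨ i = 1 := fun i hi => by
          fin_cases i <;> simp [NP_x, ind_neg g] at hi ⊢
        rcases e i hi with rfl | rfl <;> rcases e j hj with rfl | rfl
        · exact absurd rfl hij
        · simpa [NP_u, det] using u1 p p1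
        · simpa [NP_u, det] using u1 p p1
        · exact absurd rfl hij
  · have e : ((∏ i, NP_m (α * m) d d' i : ℕ) : ℝ) =
        α * m * (d.af.natAbs : ℕ) * (d'.af.natAbs : ℕ) := by
      simp [Fin.prod_univ_six, NP_m]
    have b : (α : ℝ) * m * (d.af.natAbs : ℕ) * (d'.af.natAbs : ℕ) ≤
        y ^ z.U * y ^ (3 * z.K') * y ^ (z.U + 1) * y ^ (z.U + 1) := by
      have b1 := ab d hd
      have b2 := ab d' hd'
      exact mul_le_mul (mul_le_mul (mul_le_mul a1 m1 (by positivity) (by positivity)) b1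
        (by positivity) (by positivity)) b2 (by positivity) (by positivity)
    rw [e]
    refine (mul_le_mul_of_nonneg_right (pow_le_pow_left₀ (by positivity) b 2)
      (pow_nonneg y0 _)).trans ?_
    rw [← pow_add, ← pow_add, ← pow_add, ← pow_mul, ← pow_add]
    exact pow_le_pow_right₀ y1 (by nlinarith [Nat.mul_le_mul_right z.K' hk1])
  refine (sum_le_sum fun g _ => NP_point ρ hk (hP2 d hd) (hP2 d' hd') _).trans (key.trans ?_)
  refine add_le_add ?_ (mul_le_mul_of_nonneg_right (pow_le_pow_right₀ y1 (by omega)) hE)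
  have e1 : ∏ i, de z.A (NP_m (α * m) d d' i) =
      de z.A α * de z.A m * de z.A d.af.natAbs * de z.A d'.af.natAbs := by
    simp [Fin.prod_univ_six, NP_m, de_one, de_mul _ cop]
  have e2 : Int.gcd (Nat.gcd (NP_m (α * m) d d' 2) (NP_m (α * m) d d' 4))
      (det (NP_u d d' 2) (NP_u d d' 4)) = d.dl d' := by
    rw [Nd.dl, ← Int.gcd_neg, show -det (NP_u d d' 2) (NP_u d d' 4) = d'.m * d'.t - d.m * d.t by
      simp [NP_u, det, Nd.ut]]
    rfl
  have x1 := NP_expo ρ hk m d d' hr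
  have x2 := NP_ep ρ.Ps (Pr.Bs m d d'.m d'.a) d'.s
  have x3 := NP_ep ρ.Ps (Pr.Bt m d d'.m) d'.t
  have x4 : ∑ p ∈ NP_P ρ m d d', 1 / (p : ℝ) ^ 2 ≤ ∑ p ∈ ρ.Ps, 1 / (p : ℝ) ^ 2 :=
    sum_le_sum_of_subset_of_nonneg (filter_subset _ _) fun _ _ _ => by positivity
  have x5 : 1 / (ρ.w : ℝ) ≤ 1 := (div_le_one (by change (0 : ℝ) < z.w; linarith)).2
    (by change (1 : ℝ) ≤ z.w; linarith)
  have x6 : 3 / √(ρ.w : ℝ) ≤ 1 := by
    have : 3 ≤ √(ρ.w : ℝ) := Real.le_sqrt_of_sq_le (by change (3 : ℝ) ^ 2 ≤ z.w; linarith)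
    exact (div_le_one (by linarith)).2 this
  have x7 : exp (64 * ∑ p ∈ ρ.Ps, 1 / (p : ℝ) ^ 2) ≤ exp 64 := exp_le_exp.2 (by linarith)
  have n2 := one_le_Ep ρ.Ps (show (0 : ℝ) ≤ 8 by norm_num) (Pr.Bs m d d'.m d'.a) d'.s
  have n3 := one_le_Ep ρ.Ps (show (0 : ℝ) ≤ 8 by norm_num) (Pr.Bt m d d'.m) d'.t
  have x8 : exp (-(∑ p ∈ NP_P ρ m d d', (rho z.A p : ℝ) / p * ∑ i, NP_x k d d' i p) +
      50 * ∑ p ∈ NP_P ρ m d d', 1 / (p : ℝ) ^ 2) ≤
      exp (-(6 - 2 * k.t - 2 * k.s) * ρ.La) * exp (12 * ρ.si m) * exp 90 *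
        (Ep ρ.Ps 8 (Pr.Bs m d d'.m d'.a) d'.s * exp 64) *
        (Ep ρ.Ps 8 (Pr.Bt m d d'.m) d'.t * exp 64) := by
    refine le_trans ?_ (mul_le_mul (mul_le_mul_of_nonneg_left
      (x2.trans (mul_le_mul_of_nonneg_left x7 (by linarith))) (by positivity))
      (x3.trans (mul_le_mul_of_nonneg_left x7 (by linarith))) (exp_pos _).le (by positivity))
    rw [← exp_add, ← exp_add, ← exp_add, ← exp_add]
    refine exp_le_exp.2 ?_
    linarith [hd.s1, hd.s2, hd'.s1, hd'.s2]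
  have d1 := de_nonneg z.A α
  have d2 := de_nonneg z.A m
  have d3 := de_nonneg z.A d.af.natAbs
  have d4 := de_nonneg z.A d'.af.natAbs
  have hN : (0 : ℝ) ≤ N := (Nat.cast_nonneg _).trans hG.2
  rw [e1, e2]
  refine (mul_le_mul (mul_le_mul_of_nonneg_right (mul_le_mul_of_nonneg_left hG.2 zero_le_two)
    (by positivity)) x8 (exp_pos _).le (by positivity)).trans_eq ?_
  rw [show exp 218 = exp 90 * exp 64 * exp 64 by rw [← exp_add, ← exp_add]; norm_num, Pr.nc]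
  ring

end Pool.Agent.P.MP_6f5b02_nt.Hy
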