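import Pool.Agent.P.MP_6f5b02_nt.Hy.IfN

/-! Step NS1. -/

namespace Pool.Agent.P.MP_6f5b02_nt.Hy

open Pool.Agent.P.MP_8be758_nt Pool.Agent.P.MP_8be758_nt.Pd
open Finset Real Filter
open Pool.Agent.P.MP_8be758_nt.Par (det)
open scoped Classical

theorem NS1_hw (ρ : Pr) {Θ : ℝ} (h : 0 ≤ Θ) (k : ℤ) : 0 ≤ ρ.hw Θ k :=
  mul_nonneg (pow_nonneg h _) (ind_nonneg _)

theorem NS1_pos (ρ : Pr) {Θ C0 T : ℝ} {a : ℤ} (h : 0 ≤ Θ) (hC : 0 < C0) (hR : ρ.Rng a T)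
    {v : V2} (hv : v ∈ SR a T C0) :
    0 ≤ ρ.hw Θ (a - v.1 * v.2) / ((a - v.1 * v.2 : ℤ) : ℝ) := by
  have h1 := (mem_SR (div_pos hR.1 hC)).1 hv
  have h2 : 0 ≤ a := (abs_nonneg _).trans h1.2.2.1
  have h3 : 0 ≤ a - v.1 * v.2 := by have := h1.2.2.2.1; omega
  exact div_nonneg (NS1_hw ρ h _) (by exact_mod_cast h3)

theorem NS1_in (ρ : Pr) (C0 C1 C2 : ℝ) (hC : 0 < C0) (hC2 : 0 ≤ C2) (hw : 3 ≤ ρ.w)
    (hH : ∀ (a : ℤ) (T Θ : ℝ), ρ.Rng a T → 0 ≤ Θ →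
      Θ ≤ 4 / 3 → ∑ v ∈ SR a T C0, ρ.hw Θ (a - v.1 * v.2) / ((a - v.1 * v.2 : ℤ) : ℝ) ≤
        C1 * exp ((Θ / 2 - 1) * ρ.La))
    (hP : ∀ (a k0 α β : ℤ) (T Θ : ℝ)
      (Bs Bt : ℕ → ℤ → Prop), ρ.Rng a T → 0 ≤ Θ → Θ ≤ 4 / 3 → Squarefree k0.natAbs →
      (∀ p : ℕ, p.Prime → (p : ℤ) ∣ k0 → ρ.w < p) → ρ.si k0 ≤ 3 / √ρ.w → IsCoprime α k0 →
      Few ρ.Ps Bs → (∀ p ∈ ρ.Ps, (∀ x y, x ≡ y [ZMOD p] → (Bt p x ↔ Bt p y)) ∧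
        ∑ x ∈ bx p, ind (Bt p x) ≤ 2) →
      ∑ v ∈ SR a T C0, ρ.hw Θ (a - v.1 * v.2) / ((a - v.1 * v.2 : ℤ) : ℝ) *
        (ind ((Int.gcd (Int.gcd k0 (a - v.1 * v.2)) (α * v.2 - β) : ℝ) ≤ ρ.y) *
          ((Int.gcd (Int.gcd k0 (a - v.1 * v.2)) (α * v.2 - β) : ℝ) *
            (Ep ρ.Ps 8 Bs v.1 * Ep ρ.Ps 8 Bt v.2) - 1)) ≤
        C2 / √ρ.w * exp ((Θ / 2 - 1) * ρ.La))
    (a k0 α β : ℤ) (T Θ : ℝ) (Bs Bt : ℕ → ℤ → Prop) (hR : ρ.Rng a T) (h0 : 0 ≤ Θ) (h1 : Θ ≤ 4 / 3)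
    (hk : Rg ρ.w k0.natAbs) (hs : ρ.si k0 ≤ 3 / √ρ.w) (hc : IsCoprime α k0)
    (hBs : Few ρ.Ps Bs) (hBt : ∀ p ∈ ρ.Ps, (∀ x y, x ≡ y [ZMOD p] → (Bt p x ↔ Bt p y)) ∧
        ∑ x ∈ bx p, ind (Bt p x) ≤ 2) (S : Finset V2) (hS : S ⊆ SR a T C0) :
    ∑ v ∈ S, ρ.hw Θ (a - v.1 * v.2) / ((a - v.1 * v.2 : ℤ) : ℝ) *
        (ind ((Int.gcd (Int.gcd k0 (a - v.1 * v.2)) (α * v.2 - β) : ℝ) ≤ ρ.y) *
          ((Int.gcd (Int.gcd k0 (a - v.1 * v.2)) (α * v.2 - β) : ℝ) *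
            (Ep ρ.Ps 8 Bs v.1 * Ep ρ.Ps 8 Bt v.2))) ≤
        (C1 + C2) * exp ((Θ / 2 - 1) * ρ.La) := by
  have k1 : k0.natAbs ≠ 0 := hk.1.ne_zero
  have k2 : k0 ≠ 0 := Int.natAbs_ne_zero.1 k1
  have e1 := hH a T Θ hR h0 h1
  have e2 := hP a k0 α β T Θ Bs Bt hR h0 h1 hk.1 (fun p hp hd => by
    have := hk.2 p (Nat.mem_primeFactors.2 ⟨hp, Int.natCast_dvd.1 hd, k1⟩)
    exact_mod_cast this) hs hc hBs hBt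
  have e3 : C2 / √ρ.w ≤ C2 := by
    refine div_le_self hC2 ?_
    rw [Real.one_le_sqrt]
    exact_mod_cast (by omega : 1 ≤ ρ.w)
  have e4 : ∀ v : V2, (1 : ℝ) ≤ (Int.gcd (Int.gcd k0 (a - v.1 * v.2)) (α * v.2 - β) : ℝ) *
      (Ep ρ.Ps 8 Bs v.1 * Ep ρ.Ps 8 Bt v.2) := fun v => by
    have g1 : 0 < Int.gcd k0 (a - v.1 * v.2) := Int.gcd_pos_of_ne_zero_left _ k2
    have g2 : 0 < Int.gcd (Int.gcd k0 (a - v.1 * v.2)) (α * v.2 - β) :=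
      Int.gcd_pos_of_ne_zero_left _ (by exact_mod_cast g1.ne')
    exact one_le_mul_of_one_le_of_one_le (by exact_mod_cast g2)
      (one_le_mul_of_one_le_of_one_le (one_le_Ep _ (by norm_num) _ _) (one_le_Ep _ (by norm_num) _ _))
  refine (sum_le_sum_of_subset_of_nonneg hS fun v hv _ => mul_nonneg (NS1_pos ρ h0 hC hR hv)
    (mul_nonneg (ind_nonneg _) (zero_le_one.trans (e4 v)))).trans ?_
  refine le_trans ?_ ((add_le_add e1 (e2.trans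
    (mul_le_mul_of_nonneg_right e3 (exp_pos _).le))).trans_eq (add_mul _ _ _).symm)
  rw [← sum_add_distrib]
  refine sum_le_sum fun v hv => ?_
  have p1 := NS1_pos ρ h0 hC hR hv
  have p2 := ind_le_one ((Int.gcd (Int.gcd k0 (a - v.1 * v.2)) (α * v.2 - β) : ℝ) ≤ ρ.y)
  nlinarith [mul_nonneg p1 (sub_nonneg.2 p2)]

theorem p_NS1 (hHS : S_HS) (hPS : S_PS) (hNF : S_NF) :
    S_NS1 := by
  refine ((Ev.of_ratio hHS).and (Ev.of_ratio hPS)).imp 3 fun z hz C hC =>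
    ⟨2 * C * C, by nlinarith, (eventually_ge_atTop 1).mono fun y hy => ?_⟩
  rintro ⟨⟨C1, a1, a2, hH⟩, C2, b1, b2, hP⟩ Z Θ α m hZ h0 h1 hα hm x hx x' hx'
  set ρ : Pr := ⟨z, y⟩ with hρ
  have hw : 3 ≤ ρ.w := by have := (hz.sizes le_rfl).2.2.2.2.2; exact le_trans (by norm_num) this
  have c5 : 0 < 2 * ρ.c5 := by have := hz.one_le_c5 y; linarith
  have hR := (mem_filter.1 hx).2.1
  have hR' := (mem_filter.1 hx').2.1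
  have hd' : x'.1 * x'.2 ∣ m := (mem_filter.1 (mem_filter.1 hx').1).2
  have key : ∀ v ∈ ρ.NB Z α m x, ∑ v' ∈ ρ.NB Z α m x',
      ρ.hw Θ ((α * x'.2 : ℕ) - v'.1 * v'.2) / (((α * x'.2 : ℕ) - v'.1 * v'.2 : ℤ) : ℝ) *
      (ind ((Nd.dl ⟨x.1, α * x.2, v.1, v.2⟩ ⟨x'.1, α * x'.2, v'.1, v'.2⟩ : ℝ) ≤ ρ.y) *
        ρ.nc m ⟨x.1, α * x.2, v.1, v.2⟩ ⟨x'.1, α * x'.2, v'.1, v'.2⟩) ≤
      (C1 + C2) * exp ((Θ / 2 - 1) * ρ.La) := fun v hv => by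
    have hA := (mem_filter.1 hv).2
    have hF := hNF ρ α m x'.1 (α * x'.2) ⟨x.1, α * x.2, v.1, v.2⟩ hw hy hα hm hA.dv
      (by rw [mul_left_comm]; exact Nat.mul_dvd_mul_left _ hd')
    have hc : IsCoprime (x'.1 : ℤ) (Nd.af ⟨x.1, α * x.2, v.1, v.2⟩) :=
      (hA.cop.of_mul_left_right.of_isCoprime_of_dvd_right
        (Int.natCast_dvd_natCast.2 (((Dvd.intro _ rfl).trans hd').mul_left α))).symm
    exact NS1_in ρ _ C1 C2 c5 (by linarith) hw hH hP _ (Nd.af ⟨x.1, α * x.2, v.1, v.2⟩) x'.1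
      (x.1 * v.2) _ Θ _ _ hR' h0 h1 hA.rf hA.s2 hc hF.1 hF.2 _ (filter_subset _ _)
  have hp : 0 < exp ((Θ / 2 - 1) * ρ.La) := exp_pos _
  calc _ ≤ ∑ v ∈ ρ.NB Z α m x, ρ.hw Θ ((α * x.2 : ℕ) - v.1 * v.2) /
        (((α * x.2 : ℕ) - v.1 * v.2 : ℤ) : ℝ) * ((C1 + C2) * exp ((Θ / 2 - 1) * ρ.La)) := by
        refine sum_le_sum fun v hv => ?_
        refine le_trans (le_of_eq ?_) (mul_le_mul_of_nonneg_left (key v hv)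
          (NS1_pos ρ h0 c5 hR (filter_subset _ _ hv)))
        rw [mul_sum]
        exact sum_congr rfl fun v' _ => mul_assoc _ _ _
    _ ≤ C1 * exp ((Θ / 2 - 1) * ρ.La) * ((C1 + C2) * exp ((Θ / 2 - 1) * ρ.La)) := by
        rw [← sum_mul]
        refine mul_le_mul_of_nonneg_right ?_ (by positivity)
        exact (sum_le_sum_of_subset_of_nonneg (filter_subset _ _)
          fun v hv _ => NS1_pos ρ h0 c5 hR hv).trans (hH _ _ Θ hR h0 h1)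
    _ = C1 * (C1 + C2) * exp ((Θ - 2) * ρ.La) := by
        rw [show (Θ - 2) * ρ.La = (Θ / 2 - 1) * ρ.La + (Θ / 2 - 1) * ρ.La by ring, exp_add]
        ring
    _ ≤ 2 * C * C * exp ((Θ - 2) * ρ.La) := by
        refine mul_le_mul_of_nonneg_right ?_ (exp_pos _).le
        nlinarith

end Pool.Agent.P.MP_6f5b02_nt.Hy
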