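import Pool.Agent.P.MP_6f5b02_nt.Hy.IfN
import Pool.Agent.P.MP_8be758_nt.Pd.TNS2

/-! Step NS2. -/

namespace Pool.Agent.P.MP_6f5b02_nt.Hy

open Pool.Agent.P.MP_8be758_nt Pool.Agent.P.MP_8be758_nt.Pd
open Finset Real Filter
open Pool.Agent.P.MP_8be758_nt.Par (det)
open scoped Classical

theorem NS2_term {ρ : Pr} {α m : ℕ} {z z' : ℕ × ℕ} {v v' : V2} (hz : 0 < z.1)
    (h : ρ.NA α m ⟨z.1, α * z.2, v.1, v.2⟩) (h' : ρ.NA α m ⟨z'.1, α * z'.2, v'.1, v'.2⟩) :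
    ind (¬(z = z' ∧ v = v')) *
    (ind (ρ.y < (Nd.dl ⟨z.1, α * z.2, v.1, v.2⟩ ⟨z'.1, α * z'.2, v'.1, v'.2⟩ : ℝ)) *
      (Nd.dl ⟨z.1, α * z.2, v.1, v.2⟩ ⟨z'.1, α * z'.2, v'.1, v'.2⟩ : ℝ) /
      ((((α * z.2 : ℕ) - v.1 * v.2 : ℤ) : ℝ) * (((α * z'.2 : ℕ) - v'.1 * v'.2 : ℤ) : ℝ))) ≤
    ind ((z'.1 : ℤ) * v'.2 ≠ (z.1 : ℤ) * v.2 ∧
      ρ.y < (Int.gcd (Int.gcd ((α : ℤ) * z.2 - v.1 * v.2) ((α : ℤ) * z'.2 - v'.1 * v'.2))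
        ((z'.1 : ℤ) * v'.2 - (z.1 : ℤ) * v.2) : ℝ)) *
    (Int.gcd (Int.gcd ((α : ℤ) * z.2 - v.1 * v.2) ((α : ℤ) * z'.2 - v'.1 * v'.2))
        ((z'.1 : ℤ) * v'.2 - (z.1 : ℤ) * v.2) : ℝ) /
      ((((α : ℤ) * z.2 - v.1 * v.2 : ℤ) : ℝ) * (((α : ℤ) * z'.2 - v'.1 * v'.2 : ℤ) : ℝ)) +
    ind (v.2 = v'.2 ∧ ¬((z.2 : ℤ) = z'.2 ∧ v.1 = v'.1) ∧
      IsCoprime ((α : ℤ) * z.2) ((α : ℤ) * z.2 - v.1 * v.2) ∧
      IsCoprime ((α : ℤ) * z'.2) ((α : ℤ) * z'.2 - v'.1 * v'.2)) *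
    (Int.gcd ((α : ℤ) * z.2 - v.1 * v.2) ((α : ℤ) * z'.2 - v'.1 * v'.2) : ℝ) /
      ((((α : ℤ) * z.2 - v.1 * v.2 : ℤ) : ℝ) * (((α : ℤ) * z'.2 - v'.1 * v'.2 : ℤ) : ℝ)) := by
  have f0 := h.f0
  have f0' := h'.f0
  have cop := h.cop
  have cop' := h'.cop
  have dv := h.dv
  have dv' := h'.dv
  simp only [Nd.af, Nat.cast_mul] at f0 f0' cop cop' dv dv'
  simp only [Nd.dl, Nd.af, Nat.cast_mul]
  generalize hF : (α : ℤ) * z.2 - v.1 * v.2 = F at *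
  generalize hF' : (α : ℤ) * z'.2 - v'.1 * v'.2 = F' at *
  have p1 : (0 : ℝ) < (F : ℝ) := by exact_mod_cast f0
  have p2 : (0 : ℝ) < (F' : ℝ) := by exact_mod_cast f0'
  have p3 : (0 : ℝ) < (F : ℝ) * F' := mul_pos p1 p2
  by_cases hne : z = z' ∧ v = v'
  · rw [ind_neg (not_not.2 hne), zero_mul]
    exact add_nonneg (div_nonneg (mul_nonneg (ind_nonneg _) (Nat.cast_nonneg _)) p3.le)
      (div_nonneg (mul_nonneg (ind_nonneg _) (Nat.cast_nonneg _)) p3.le)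
  rw [ind_pos hne, one_mul]
  by_cases hx : (z'.1 : ℤ) * v'.2 = (z.1 : ℤ) * v.2
  · have c1 : IsCoprime v.2 ((α * m : ℕ) : ℤ) := by
      rw [Nat.cast_mul]; exact cop.of_mul_left_left.of_mul_left_right
    have c2 : IsCoprime v'.2 ((α * m : ℕ) : ℤ) := by
      rw [Nat.cast_mul]; exact cop'.of_mul_left_left.of_mul_left_right
    obtain ⟨e1, e2⟩ := NS2_eq hz ((Dvd.intro _ rfl).trans dv) ((Dvd.intro _ rfl).trans dv') c1 c2 hx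
    have q1 : (α : ℤ) * z.2 ∣ (α : ℤ) * m := by
      exact_mod_cast (Dvd.intro_left _ rfl).trans dv
    have q2 : (α : ℤ) * z'.2 ∣ (α : ℤ) * m := by
      exact_mod_cast (Dvd.intro_left _ rfl).trans dv'
    have hP : v.2 = v'.2 ∧ ¬((z.2 : ℤ) = z'.2 ∧ v.1 = v'.1) ∧ IsCoprime ((α : ℤ) * z.2) F ∧
        IsCoprime ((α : ℤ) * z'.2) F' := by
      refine ⟨e2, fun g => hne ⟨Prod.ext e1 (by exact_mod_cast g.1), Prod.ext g.2 e2⟩, ?_, ?_⟩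
      · exact (cop.of_mul_left_right.of_isCoprime_of_dvd_right q1).symm
      · exact (cop'.of_mul_left_right.of_isCoprime_of_dvd_right q2).symm
    rw [ind_pos hP, one_mul]
    have e3 : Int.gcd (Int.gcd F F' : ℤ) ((z'.1 : ℤ) * v'.2 - (z.1 : ℤ) * v.2) = Int.gcd F F' := by
      rw [hx, sub_self, Int.gcd_zero_right, Int.natAbs_natCast]
    rw [e3]
    refine le_add_of_nonneg_of_le
      (div_nonneg (mul_nonneg (ind_nonneg _) (Nat.cast_nonneg _)) p3.le) ?_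
    exact div_le_div_of_nonneg_right
      (mul_le_of_le_one_left (Nat.cast_nonneg _) (ind_le_one _)) p3.le
  · refine le_add_of_le_of_nonneg (div_le_div_of_nonneg_right
      (mul_le_mul_of_nonneg_right (ind_mono fun g => ⟨hx, g⟩) (Nat.cast_nonneg _)) p3.le) ?_
    exact div_nonneg (mul_nonneg (ind_nonneg _) (Nat.cast_nonneg _)) p3.le

theorem NS2_main (ρ : Pr) (hy' : 1 ≤ ρ.y) (hc : 1 ≤ ρ.c5)
    (H1 : ∀ (a a' α β : ℤ) (T T' : ℝ), ρ.Rng a T →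
      ρ.Rng a' T' → |(α : ℝ)| ≤ ρ.y ^ (4 * ρ.K') → |(β : ℝ)| ≤ ρ.y ^ (4 * ρ.K') →
      ∑ v ∈ SR a T (2 * ρ.c5), ∑ v' ∈ SR a' T' (2 * ρ.c5), ind (α * v'.2 ≠ β * v.2 ∧
        ρ.y < (Int.gcd (Int.gcd (a - v.1 * v.2) (a' - v'.1 * v'.2)) (α * v'.2 - β * v.2) : ℝ)) *
      (Int.gcd (Int.gcd (a - v.1 * v.2) (a' - v'.1 * v'.2)) (α * v'.2 - β * v.2) : ℝ) /
        (((a - v.1 * v.2 : ℤ) : ℝ) * ((a' - v'.1 * v'.2 : ℤ) : ℝ)) ≤ 1 / √ρ.y)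
    (H2 : ∀ (r m m' : ℤ) (T T' : ℝ), ρ.Rng (r * m) T →
      ρ.Rng (r * m') T' → 0 < m → 0 < m' → (m : ℝ) ≤ ρ.y ^ (2 * ρ.K) → (m' : ℝ) ≤ ρ.y ^ (2 * ρ.K) →
      ∑ v ∈ SR (r * m) T (2 * ρ.c5), ∑ v' ∈ SR (r * m') T' (2 * ρ.c5),
        ind (v.2 = v'.2 ∧ ¬(m = m' ∧ v.1 = v'.1) ∧
        IsCoprime (r * m) (r * m - v.1 * v.2) ∧ IsCoprime (r * m') (r * m' - v'.1 * v'.2)) *
      (Int.gcd (r * m - v.1 * v.2) (r * m' - v'.1 * v'.2) : ℝ) /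
        (((r * m - v.1 * v.2 : ℤ) : ℝ) * ((r * m' - v'.1 * v'.2 : ℤ) : ℝ)) ≤ 1 / √ρ.y)
    (Z : ℝ) (α m : ℕ) (z : ℕ × ℕ) (hz : z ∈ ρ.NO Z α m) (z' : ℕ × ℕ) (hz' : z' ∈ ρ.NO Z α m) :
    ∑ v ∈ ρ.NB Z α m z, ∑ v' ∈ ρ.NB Z α m z', ind (¬(z = z' ∧ v = v')) *
    (ind (ρ.y < (Nd.dl ⟨z.1, α * z.2, v.1, v.2⟩ ⟨z'.1, α * z'.2, v'.1, v'.2⟩ : ℝ)) *
      (Nd.dl ⟨z.1, α * z.2, v.1, v.2⟩ ⟨z'.1, α * z'.2, v'.1, v'.2⟩ : ℝ) /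
      ((((α * z.2 : ℕ) - v.1 * v.2 : ℤ) : ℝ) * (((α * z'.2 : ℕ) - v'.1 * v'.2 : ℤ) : ℝ))) ≤
      2 / √ρ.y := by
  have hC : 1 ≤ 2 * ρ.c5 := by linarith
  obtain ⟨a1, a2, a3, a4⟩ := mem_filter.1 hz
  obtain ⟨b1, b2, b3, b4⟩ := mem_filter.1 hz'
  have a5 := mem_product.1 (mem_filter.1 a1).1
  have b5 := mem_product.1 (mem_filter.1 b1).1
  have a6 : 0 < z.1 := Nat.pos_of_mem_divisors a5.1
  have a7 : 0 < z.2 := Nat.pos_of_mem_divisors a5.2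
  have b7 : 0 < z'.2 := Nat.pos_of_mem_divisors b5.2
  rw [Nat.cast_mul] at a2 b2
  have hp : ρ.y ^ ρ.K' ≤ ρ.y ^ (4 * ρ.K') := pow_le_pow_right₀ hy' (by omega)
  have G1 := H1 _ _ (z'.1 : ℤ) (z.1 : ℤ) _ _ a2 b2
    (by rw [Int.cast_natCast, Nat.abs_cast]; exact b3.trans hp)
    (by rw [Int.cast_natCast, Nat.abs_cast]; exact a3.trans hp)
  have G2 := H2 (α : ℤ) (z.2 : ℤ) (z'.2 : ℤ) _ _ a2 b2 (by exact_mod_cast a7) (by exact_mod_cast b7)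
    (by rw [Int.cast_natCast]; exact a4) (by rw [Int.cast_natCast]; exact b4)
  have s1 : ρ.NB Z α m z ⊆ SR ((α : ℤ) * z.2) (ρ.X / (Z * z.1)) (2 * ρ.c5) := by
    rw [← Nat.cast_mul]; exact filter_subset _ _
  have s2 : ρ.NB Z α m z' ⊆ SR ((α : ℤ) * z'.2) (ρ.X / (Z * z'.1)) (2 * ρ.c5) := by
    rw [← Nat.cast_mul]; exact filter_subset _ _
  refine le_trans (sum_le_sum fun v hv => sum_le_sum fun v' hv' =>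
    NS2_term (ρ := ρ) (α := α) (m := m) (z := z) (z' := z') (v := v) (v' := v') a6
      (mem_filter.1 hv).2 (mem_filter.1 hv').2) ?_
  simp only [sum_add_distrib]
  have e : 2 / √ρ.y = 1 / √ρ.y + 1 / √ρ.y := by ring
  rw [e]
  refine add_le_add ((NS2_ext s1 s2 fun v hv v' hv' => ?_).trans G1)
    ((NS2_ext s1 s2 fun v hv v' hv' => ?_).trans G2)
  all_goals
    exact div_nonneg (mul_nonneg (ind_nonneg _) (Nat.cast_nonneg _))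
      (mul_pos (NS2_pos hy' hC a2 hv) (NS2_pos hy' hC b2 hv')).le

theorem p_NS2 (hCR : S_CR) (hND : S_ND) :
    S_NS2 := by
  refine ((Ev.of_ratio hCR).and (Ev.of_ratio hND)).imp 0 fun s hs C _ => ⟨1, le_rfl, ?_⟩
  filter_upwards [eventually_ge_atTop (1 : ℝ)] with y hy
  rintro ⟨⟨-, -, -, H1⟩, -, -, -, H2⟩ Z α m _ _ _ z hz z' hz'
  exact NS2_main ⟨s, y⟩ hy (hs.one_le_c5 y) H1 H2 Z α m z hz z' hz'

end Pool.Agent.P.MP_6f5b02_nt.Hy
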