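import Pool.Agent.P.MP_6f5b02_nt.Hy.IfN
import Pool.Agent.P.MP_8be758_nt.Pd.TNS3

/-! Step NS3. -/

namespace Pool.Agent.P.MP_6f5b02_nt.Hy

open Pool.Agent.P.MP_8be758_nt Pool.Agent.P.MP_8be758_nt.Pd
open Finset Real Filter
open Pool.Agent.P.MP_8be758_nt.Par (det)
open scoped Classical

theorem p_NS3 (hNH : S_NH) (hNS1 : S_NS1) (hNS2 : S_NS2) (hLAM : S_LAM) :
    S_NS3 := by
  refine (((Unif.ev hNH).and hNS1).and (Ev.and hNS2 (Unif.ev hLAM))).imp 0 fun z _ C hC => ?_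
  have hB : (1 : ℝ) ≤ (2 ^ (z.U + 1)) ^ 2 := one_le_pow₀ (one_le_pow₀ one_le_two)
  refine ⟨(2 ^ (z.U + 1)) ^ 2 * (C + 1), by nlinarith, ?_⟩
  filter_upwards [NS3_ev (2 * z.K + 18)
    (show 0 < C ^ (2 * z.K + 18) * (exp (16 * C) * 2) by positivity),
    eventually_gt_atTop (1 : ℝ)] with y hy hy1
  rintro ⟨⟨C1, -, e1, ⟨-, -, -, hH⟩, C2, -, e2, h1⟩, C3, -, e3, ⟨-, -, -, h2⟩, C4, -, e4, l1, l2, -⟩
    Z θ α m hZ hθ0 hθ hα hm s hs s' hs'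
  set ρ : Pr := ⟨z, y⟩ with hρ
  have hLa := La_nonneg ρ
  have hS : ∑ p ∈ ρ.Ps, (1 : ℝ) / p ≤ ρ.La + C := by linarith [(abs_le.1 l1).2]
  have hE : ∀ B x, Ep ρ.Ps 8 B x ≤ exp (8 * (ρ.La + C)) := fun B x =>
    (NS3_Ep _ B x).trans (exp_le_exp.2 (by linarith))
  have hw0 : ∀ k, 0 ≤ ρ.hw (2 * θ) k := fun k =>
    mul_nonneg (pow_nonneg (by linarith) _) (ind_nonneg _)
  have a1 := h1 Z (2 * θ) α m hZ (by linarith) (by linarith) hα hm s hs s' hs'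
  have a2 := h2 Z α m hZ hα hm s hs s' hs'
  have hl : 0 ≤ log y := log_nonneg hy1.le
  have l3 : exp ρ.La ≤ C * log y := l2.trans (mul_le_mul_of_nonneg_right (e4.trans e3) hl)
  have hsq : 0 < √y := sqrt_pos.2 (by linarith)
  have a3 : exp (ρ.K * ρ.La) ^ 2 * exp (8 * (ρ.La + C)) ^ 2 * (2 / √y) ≤
      exp ((2 * θ - 2) * ρ.La) := by
    have b1 : exp ρ.La ^ (2 * z.K + 18) * (exp (16 * C) * 2) ≤ √y := by
      refine le_trans ?_ hy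
      calc _ ≤ (C * log y) ^ (2 * z.K + 18) * (exp (16 * C) * 2) := by gcongr
        _ = _ := by rw [mul_pow]; ring
    have b2 : exp (ρ.K * ρ.La) ^ 2 * exp (8 * (ρ.La + C)) ^ 2 =
        exp (-2 * ρ.La) * (exp ρ.La ^ (2 * z.K + 18) * exp (16 * C)) := by
      simp only [← exp_nat_mul, ← exp_add]
      congr 1
      have : ρ.K = z.K := rfl
      rw [this]
      push_cast
      ring
    calc _ = exp (-2 * ρ.La) * (exp ρ.La ^ (2 * z.K + 18) * (exp (16 * C) * 2) / √y) := by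
          rw [b2]; ring
      _ ≤ exp (-2 * ρ.La) := mul_le_of_le_one_right (exp_pos _).le ((div_le_one hsq).2 b1)
      _ ≤ _ := exp_le_exp.2 (by nlinarith)
  have a4 := a1.trans (mul_le_mul_of_nonneg_right (e2.trans e1) (exp_pos _).le)
  refine le_trans (NS3_sum (p := (2 ^ (z.U + 1)) ^ 2) (q := (2 ^ (z.U + 1)) ^ 2 *
    (exp (ρ.K * ρ.La) ^ 2 * exp (8 * (ρ.La + C)) ^ 2)) (by positivity) (by positivity) a4 a2
    fun v hv v' hv' => ?_) ?_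
  · have n1 := (mem_filter.1 hv).2
    have n2 := (mem_filter.1 hv').2
    obtain ⟨c1, c2⟩ := hH α m _ θ hθ0 hθ n1
    obtain ⟨d1, d2⟩ := hH α m _ θ hθ0 hθ n2
    exact NS3_pt (ind_nonneg _) (ind_le_one _) (mul_nonneg (pow_nonneg hθ0 _) (de_nonneg _ _)) c1 d1
      (by positivity) (Int.cast_pos.2 n1.f0) (Int.cast_pos.2 n2.f0) (hw0 _) (hw0 _) c2 d2
      (Nat.cast_nonneg _) (zero_le_one.trans (one_le_Ep _ (by norm_num) _ _))
      (zero_le_one.trans (one_le_Ep _ (by norm_num) _ _)) (hE _ _) (hE _ _) (NS3_ind _ _)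
      (ind_nonneg _) (ind_nonneg _)
  · rw [mul_assoc ((2 ^ (z.U + 1) : ℝ) ^ 2) (_ * _) (2 / √y)]
    calc _ ≤ (2 ^ (z.U + 1)) ^ 2 * (C * exp ((2 * θ - 2) * ρ.La)) +
          (2 ^ (z.U + 1)) ^ 2 * exp ((2 * θ - 2) * ρ.La) := by gcongr
      _ = _ := by ring

end Pool.Agent.P.MP_6f5b02_nt.Hy
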