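import Pool.Agent.P.MP_6f5b02_nt.Hy.IfN

/-! Step NSTAR. -/

namespace Pool.Agent.P.MP_6f5b02_nt.Hy

open Pool.Agent.P.MP_8be758_nt Pool.Agent.P.MP_8be758_nt.Pd
open Finset Real Filter
open Pool.Agent.P.MP_8be758_nt.Par (det)
open scoped Classical

theorem p_NSTAR (hNOFF : S_NOFF) (hNCS : S_NCS) (hNTY : S_NTY) :
    S_NSTAR := by
  refine (Ev.and hNOFF hNTY).imp 0 fun z _ C hC => ⟨2 * C ^ 3, by nlinarith [one_le_pow₀ (n := 3) hC], ?_⟩
  filter_upwards [eventually_ge_atTop 0] with y hy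
  rintro ⟨⟨C1, a1, a2, h1⟩, C2, b1, b2, h2⟩ S k ω B ε hk hB hε hS
  set ρ : Pr := ⟨z, y⟩
  have hX : 0 ≤ ρ.X := pow_nonneg hy _
  obtain ⟨t1, t2⟩ := h2 S fun x hx => (hS x hx).1
  have off := h1 S k hk fun x hx => (hS x hx).1
  have key := hNCS VT (Fm × ℕ) S (fun x => x.b) (fun x => (ρ.bf x, ρ.ro x)) ω C2 (C2 * ρ.X) ε
    (B ^ 2 * (C1 * ρ.X * exp (-3 * ρ.La))) (by linarith) hε
    (fun x hx => ⟨(hS x hx).2.1, (hS x hx).2.2.1⟩)
    (fun x _ x' _ e => congrArg (fun q : Fm × ℕ => q.1.2.1) e)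
    (fun β => le_of_eq_of_le (congrArg (fun T : Finset (Fm × ℕ) => (T.card : ℝ))
      (by ext; simp only [mem_image, mem_filter])) (t1 β))
    (le_of_eq_of_le (congrArg (fun T : Finset ℤ => (T.card : ℝ))
      (by ext; simp only [mem_image])) t2) (by
      refine le_trans ?_ (mul_le_mul_of_nonneg_left off (sq_nonneg B))
      rw [mul_sum]
      refine sum_le_sum fun x hx => ?_
      rw [mul_sum]
      refine sum_le_sum fun x' hx' => ?_
      rw [Prod.mk.injEq, mul_left_comm (B ^ 2)]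
      refine mul_le_mul_of_nonneg_left ?_ (ind_nonneg _)
      calc ω x * ω x' ≤ B * ρ.kap k x * (B * ρ.kap k x') :=
            mul_le_mul (hS x hx).2.2.2 (hS x' hx').2.2.2 (hS x' hx').2.1
              ((hS x hx).2.1.trans (hS x hx).2.2.2)
        _ = _ := by ring)
  refine key.trans ?_
  have e1 : C2 * C1 ≤ C ^ 3 := by
    calc C2 * C1 ≤ C * C := mul_le_mul b2 a2 (by linarith) (by linarith)
      _ ≤ C ^ 3 := by nlinarith [mul_nonneg (by linarith : 0 ≤ C) (by linarith : 0 ≤ C)]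
  have e2 : C2 ^ 3 ≤ C ^ 3 := pow_le_pow_left₀ (by linarith) b2 3
  have p1 : 0 ≤ ρ.X * (B ^ 2 * exp (-3 * ρ.La)) := by positivity
  have p2 : 0 ≤ ρ.X * ε ^ 2 := by positivity
  have p3 : 0 ≤ C ^ 3 := by positivity
  nlinarith [mul_le_mul_of_nonneg_right e1 p1, mul_le_mul_of_nonneg_right e2 p2, mul_nonneg p3 p2]

end Pool.Agent.P.MP_6f5b02_nt.Hy
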