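import Pool.Agent.P.MP_6f5b02_nt.Hy.IfN
import Pool.Agent.P.MP_8be758_nt.Pd.TNSW

/-! Step NSW. -/

namespace Pool.Agent.P.MP_6f5b02_nt.Hy

open Pool.Agent.P.MP_8be758_nt Pool.Agent.P.MP_8be758_nt.Pd
open Finset Real Filter
open Pool.Agent.P.MP_8be758_nt.Par (det)
open scoped Classical

theorem NSW_tw (ρ : Pr) (x : VT) :
    ρ.tw x = (ρ.Tb.filter fun τ => ρ.cy τ = x).card * ρ.cw (1 / 6) x := by
  rw [Pr.tw, card_filter, Nat.cast_sum, sum_mul]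
  refine sum_congr rfl fun τ _ => ?_
  by_cases h : ρ.cy τ = x
  · simp [ind, h]
  · simp [ind, h]

theorem NSW_main (hK4 : S_K4) (ρ : Pr) (hA : 5 ≤ ρ.A) {C : ℝ} (hC : 0 ≤ C) (x : VT)
    (hx : VT.Ok x ρ.A) (hv : ρ.Val x) (hg : ρ.Gd x) (h1 : 39 / 20 * ρ.La ≤ ρ.om (x.P * x.R * x.a))
    (h2 : ((ρ.Tb.filter fun τ => ρ.cy τ = x).card : ℝ) ≤
      C * 2 ^ ρ.om (x.P * x.R * x.a) * exp (-ρ.La)) :
    0 ≤ ρ.tw x ∧ ρ.tw x ≤ C * exp (-(5 / 2) * ρ.La) ∧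
      ∀ i : Fin 3, ρ.tw x ≤ C * exp (-ρ.La) * ρ.kap (kw i) (x.v i) := by
  have h0 : 0 ≤ ρ.cw (1 / 6) x := by unfold Pr.cw; positivity
  have h3 : ρ.tw x ≤ C * exp (-ρ.La) *
      ((2 / 3) ^ ρ.om (x.P * x.R * x.a) * (1 / 6) ^ ρ.om (x.af * x.Nt * x.Ns)) := by
    rw [NSW_tw]
    refine (mul_le_mul_of_nonneg_right h2 h0).trans_eq ?_
    rw [Pr.cw, show (2 / 3 : ℝ) = 2 * (1 / 3) by norm_num, mul_pow]
    ring
  refine ⟨by rw [NSW_tw]; positivity, h3.trans ?_, fun i => h3.trans_eq ?_⟩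
  · have k1 := NSW_pow (s := 3 / 2) (by norm_num) NSW_e1 (by norm_num) h1
    have k2 := NSW_pow (s := 6) (by norm_num) NSW_e2 (by norm_num) hg.2.2
    rw [show (1 / (3 / 2) : ℝ) = 2 / 3 by norm_num] at k1
    rw [mul_assoc]
    refine mul_le_mul_of_nonneg_left ((mul_le_mul_of_nonneg_left
      (mul_le_mul k1 k2 (by positivity) (exp_pos _).le) (exp_pos _).le).trans ?_) hC
    rw [← exp_add, ← exp_add]
    exact exp_le_exp.2 (by linarith [La_nonneg ρ])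
  · obtain ⟨-, -, -, -, -, -, -, ⟨a1, a2, a3⟩, ⟨b1, b2, b3⟩, ⟨c1, c2, c3⟩, -⟩ := hK4 ρ.A x hA hx
    rw [NSW_om ρ fun p hp k => (hv.2.1 p hp).1 (k.mul_right _),
      NSW_om ρ fun p hp k => (hv.2.1 p hp).1 (k.mul_left _)]
    congr 1
    fin_cases i
    · show _ = ρ.kap (kw 0) x.v1
      rw [Pr.kap, a1, a2, a3]
      simp only [kw, VT.v1, Matrix.cons_val_zero, pow_add]
      ring
    · show _ = ρ.kap (kw 1) x.v2
      rw [Pr.kap, b1, b2, b3]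
      simp only [kw, VT.v2, Matrix.cons_val_one, Matrix.cons_val_zero, pow_add]
      ring
    · show _ = ρ.kap ⟨2 / 3, 1 / 6, 1 / 6, 2 / 3, 1 / 6, 2 / 3⟩ x.v3
      rw [Pr.kap, c1, c2, c3]
      simp only [VT.v3, pow_add]
      ring

theorem p_NSW (hK4 : S_K4) (hTUP : S_TUP) (hVB : S_VB) (hMULT : S_MULT) :
    S_NSW := by
  refine ((hTUP.ev.and hVB).and hMULT).imp 0 fun z hz C hC => ⟨C, hC, .of_forall ?_⟩
  rintro y ⟨⟨-, -, -, ⟨-, -, -, h1⟩, -, -, -, h2⟩, C2, k1, k2, h3⟩ τ hτ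
  obtain ⟨t1, t2⟩ := mem_Tg.1 (mem_filter.1 hτ).1
  refine NSW_main hK4 ⟨z, y⟩ (le_trans (by norm_num) hz.2.1) (by linarith) _ (h1 τ t1).1
    t1.2.2.2.2.2 t2 (h2 τ t1).2.2.2.2.2.2.2.2.1 ((h3 _).trans ?_)
  gcongr

end Pool.Agent.P.MP_6f5b02_nt.Hy
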