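import Pool.Agent.P.MP_6f5b02_nt.Hy.IfN
import Pool.Agent.P.MP_8be758_nt.Pd.TNTY

/-! Step NTY. -/

namespace Pool.Agent.P.MP_6f5b02_nt.Hy

open Pool.Agent.P.MP_8be758_nt Pool.Agent.P.MP_8be758_nt.Pd
open Finset Real Filter
open Pool.Agent.P.MP_8be758_nt.Par (det)
open scoped Classical

theorem NTY_mem (ρ : Pr) (hy : 1 ≤ ρ.y) (x : VT) (hx : ρ.VOK x) (N : ℕ)
    (hN : (N : ℤ) = x.P * (x.a * x.R))
    (h1 : (ρ.bf x).1 * ρ.fl x.P = x.P) (h2 : (ρ.ro x : ℤ) * ρ.fl x.a = x.a)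
    (h3 : ρ.ro x ∈ ρ.RA) (h4 : ∀ p ∈ ρ.Ps, ¬(p : ℤ) ∣ (ρ.bf x).1) :
    (ρ.bf x).1.natAbs ∈ NTY_T N ρ.w ρ.y ∧ ρ.ro x ∈ NTY_T N ρ.w ρ.y := by
  obtain ⟨-, hP, hR, ha, -⟩ := hx.ok
  have hN0 : N ≠ 0 := by
    have : (0 : ℤ) < N := by rw [hN]; positivity
    omega
  have hf : (0 : ℤ) < ρ.fl x.P := by exact_mod_cast fl_pos ρ x.P
  have hb : 0 < (ρ.bf x).1 := by
    by_contra hc
    have := mul_nonpos_of_nonpos_of_nonneg (not_lt.1 hc) hf.le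
    omega
  have e0 : (((ρ.bf x).1.natAbs : ℕ) : ℤ) = (ρ.bf x).1 := Int.natAbs_of_nonneg hb.le
  have e1 : N = (ρ.bf x).1.natAbs * (ρ.fl x.P * x.a.natAbs * x.R.natAbs) := by
    zify
    rw [abs_of_pos hb, abs_of_pos ha, abs_of_pos hR, hN]
    linear_combination (-(x.a * x.R)) * h1
  refine ⟨mem_filter.2 ⟨Nat.mem_divisors.2 ⟨⟨_, e1⟩, hN0⟩, fun p hp hd => h4 p hp ?_,
    fun p hp hw => ?_⟩, mem_filter.2 ⟨Nat.mem_divisors.2 ⟨?_, hN0⟩, fun p hp hd => ?_,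
    fun p hp _ => Or.inl fun hd => ?_⟩⟩
  · rw [← e0]
    exact_mod_cast hd
  · refine (hx.gw p hp hw).imp (fun h hd => h ?_) fun h hd => h ?_
    · rw [← h1, ← e0]
      exact Dvd.dvd.mul_right (by exact_mod_cast hd) _
    · have e2 : N / (ρ.bf x).1.natAbs = ρ.fl x.P * x.a.natAbs * x.R.natAbs := by
        rw [e1, Nat.mul_div_cancel_left _ (Int.natAbs_pos.2 hb.ne')]
      rw [e2] at hd
      have hw' : (p : ℝ) ≤ ρ.w := by exact_mod_cast hw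
      have c1 : p.Coprime (ρ.fl x.P) := (Nat.Prime.coprime_iff_not_dvd hp).2 fun h =>
        absurd (lt_of_PP (mem_pf.1 ((dvd_fl hp).1 h)).1) (not_lt.2 hw')
      have c2 : p.Coprime x.a.natAbs := (Nat.Prime.coprime_iff_not_dvd hp).2 fun h =>
        absurd (hx.ra.2 p (Nat.mem_primeFactors.2 ⟨hp, h, Int.natAbs_ne_zero.2 ha.ne'⟩))
          (not_lt.2 hw')
      have c3 := ((c1.mul_right c2).pow_left 2).dvd_of_dvd_mul_left hd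
      rw [← Int.natAbs_of_nonneg hR.le]
      exact_mod_cast c3
  · have : ((ρ.ro x : ℕ) : ℤ) ∣ (N : ℤ) :=
      ⟨x.P * ρ.fl x.a * x.R, by rw [hN]; linear_combination (-(x.P * x.R)) * h2⟩
    exact_mod_cast this
  · obtain ⟨-, s1, s2⟩ := (mem_SF (by positivity)).1 h3
    have q1 := (mem_PP (by linarith)).1 hp
    have q2 := lt_of_PP (s2 (Nat.mem_primeFactors.2 ⟨q1.1, hd, s1.ne_zero⟩))
    linarith [q1.2.2]
  · obtain ⟨-, s1, -⟩ := (mem_SF (by positivity)).1 h3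
    rw [sq] at hd
    exact hp.not_isUnit (s1 p hd)

theorem NTY_main (hT : S_TYPES) (ρ : Pr) (hy : 2 ≤ ρ.y) (hc : 1 ≤ ρ.c5)
    (hs : ρ.c5 ^ 2 + ρ.A ≤ ρ.y)
    (H : ∀ x : VT, ρ.VOK x → IsF ρ.A (ρ.bf x) ∧ (ρ.bf x).1 * ρ.fl x.P = x.P ∧
      (ρ.ro x : ℤ) * ρ.fl x.a = x.a ∧ ρ.ro x ∈ ρ.RA ∧ ∀ p ∈ ρ.Ps, ¬(p : ℤ) ∣ (ρ.bf x).1)
    (S : Finset VT) (hS : ∀ x ∈ S, ρ.VOK x) :
    (∀ β : ℤ, (((S.filter fun x => x.b = β).image fun x => (ρ.bf x, ρ.ro x)).card : ℝ) ≤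
      ((4 : ℝ) ^ ρ.w * 2 ^ (2 * ρ.u + 1)) ^ 2) ∧
    ((S.image fun x => x.b).card : ℝ) ≤ ρ.c5 * ρ.X := by
  have hX : 1 ≤ ρ.X := one_le_pow₀ (by linarith)
  refine ⟨fun β => ?_, ?_⟩
  · rcases (S.filter fun x => x.b = β).eq_empty_or_nonempty with h | ⟨x0, h0⟩
    · rw [h]
      simp only [image_empty, card_empty, Nat.cast_zero]
      positivity
    obtain ⟨h0, e0⟩ := mem_filter.1 h0
    have v0 := hS x0 h0
    obtain ⟨d0, hP, hR, ha, -⟩ := v0.ok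
    obtain ⟨N, hN⟩ := Int.eq_ofNat_of_zero_le (show 0 ≤ x0.P * (x0.a * x0.R) by positivity)
    have hN0 : 0 < N := by
      have : (0 : ℤ) < N := by rw [← hN]; positivity
      omega
    have hN1 : (N : ℝ) ≤ ρ.y ^ (2 * ρ.u + 1) := by
      have a1 : 4 * (N : ℤ) = x0.b ^ 2 - 17 := by rw [← hN]; linear_combination -d0
      have a2 : 4 * (N : ℝ) = (x0.b : ℝ) ^ 2 - 17 := by exact_mod_cast a1
      have a3 : (0 : ℝ) < x0.b := by exact_mod_cast v0.b0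
      have a4 : (x0.b : ℝ) ^ 2 ≤ (ρ.c5 * ρ.X) ^ 2 := pow_le_pow_left₀ a3.le v0.b1 2
      have a5 : ρ.y ^ (2 * ρ.u + 1) = ρ.y * ρ.X ^ 2 := by rw [Pr.X]; ring
      have a6 : 1 ≤ ρ.X ^ 2 := one_le_pow₀ hX
      have a7 : (0 : ℝ) ≤ ρ.A := by positivity
      rw [a5]
      nlinarith [mul_le_mul_of_nonneg_right hs (zero_le_one.trans a6), mul_nonneg a7 (sub_nonneg.2 a6),
        sq_nonneg (ρ.c5 * ρ.X)]
    have hcard : (NTY_T N ρ.w ρ.y).card ≤ 4 ^ ρ.w * 2 ^ (2 * ρ.u + 1) := hT N ρ.w _ ρ.y hN0 hy hN1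
    have key : ((S.filter fun x => x.b = β).image fun x => (ρ.bf x, ρ.ro x)).card ≤
        (NTY_T N ρ.w ρ.y ×ˢ NTY_T N ρ.w ρ.y).card := by
      refine card_le_card_of_injOn (fun q => (q.1.1.natAbs, q.2)) (fun q hq => ?_) fun q hq q' hq' e => ?_
      · obtain ⟨x, hx, rfl⟩ := mem_image.1 (mem_coe.1 hq)
        obtain ⟨hx, e1⟩ := mem_filter.1 hx
        obtain ⟨-, b1, b2, b3, b4⟩ := H x (hS x hx)
        have d1 := (hS x hx).ok.1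
        have := NTY_mem ρ (by linarith) x (hS x hx) N (by
          rw [e1] at d1; rw [e0] at d0; rw [← hN]; linarith) b1 b2 b3 b4
        exact mem_coe.2 (mem_product.2 this)
      · obtain ⟨x, hx, rfl⟩ := mem_image.1 (mem_coe.1 hq)
        obtain ⟨x', hx', rfl⟩ := mem_image.1 (mem_coe.1 hq')
        obtain ⟨hx, e1⟩ := mem_filter.1 hx
        obtain ⟨hx', e2⟩ := mem_filter.1 hx'
        obtain ⟨⟨f1, f2⟩, -⟩ := H x (hS x hx)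
        obtain ⟨⟨g1, g2⟩, -⟩ := H x' (hS x' hx')
        obtain ⟨r1, r2⟩ := Prod.mk.inj e
        have r3 : (ρ.bf x).1 = (ρ.bf x').1 := by
          rw [← Int.natAbs_of_nonneg f2.le, ← Int.natAbs_of_nonneg g2.le]
          exact congrArg _ r1
        have r4 : (ρ.bf x).2.1 = (ρ.bf x').2.1 := e1.trans e2.symm
        refine Prod.ext (Prod.ext r3 (Prod.ext r4 ?_)) r2
        rw [r3, r4] at f1
        exact mul_left_cancel₀ g2.ne' (by linarith)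
    rw [card_product] at key
    have := key.trans (Nat.mul_le_mul hcard hcard)
    rw [sq]
    exact_mod_cast this
  · have : (S.image fun x => x.b) ⊆ Ioc 0 ⌊ρ.c5 * ρ.X⌋ := fun b hb => by
      obtain ⟨x, hx, rfl⟩ := mem_image.1 hb
      exact mem_Ioc.2 ⟨(hS x hx).b0, Int.le_floor.2 (hS x hx).b1⟩
    have h1 := card_le_card this
    rw [Int.card_Ioc, sub_zero] at h1
    have h2 : 0 ≤ ⌊ρ.c5 * ρ.X⌋ := Int.floor_nonneg.2 (by positivity)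
    have h3 : ((⌊ρ.c5 * ρ.X⌋.toNat : ℕ) : ℝ) = (⌊ρ.c5 * ρ.X⌋ : ℤ) := by
      exact_mod_cast Int.toNat_of_nonneg h2
    calc ((S.image fun x => x.b).card : ℝ) ≤ (⌊ρ.c5 * ρ.X⌋.toNat : ℕ) := by exact_mod_cast h1
      _ ≤ _ := h3.trans_le (Int.floor_le _)

theorem p_NTY (_hK4 : S_K4) (hNK0 : S_NK0) (hTYPES : S_TYPES) :
    S_NTY := by
  refine Ev.imp hNK0 0 fun z hz _ _ => ?_
  have hc := hz.one_le_c5 0
  have hp : (0 : ℝ) ≤ ((4 : ℝ) ^ z.w * 2 ^ (2 * z.u + 1)) ^ 2 := by positivity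
  refine ⟨((4 : ℝ) ^ z.w * 2 ^ (2 * z.u + 1)) ^ 2 + Pr.c5 ⟨z, 0⟩, by linarith, ?_⟩
  filter_upwards [eventually_ge_atTop (2 : ℝ),
    eventually_ge_atTop (Pr.c5 ⟨z, 0⟩ ^ 2 + z.A)] with y h1 h2 H S hS
  obtain ⟨a1, a2⟩ := NTY_main hTYPES ⟨z, y⟩ h1 hc h2 (fun x hx =>
    let ⟨b1, b2, b3, _, _, b4, _, _, _, b5⟩ := H x hx
    ⟨b1, b2, b3, b4, b5⟩) S hS
  have hX : 0 ≤ Pr.X ⟨z, y⟩ := pow_nonneg (zero_le_two.trans h1) _
  refine ⟨fun β => (a1 β).trans (le_add_of_nonneg_right (zero_le_one.trans hc)), a2.trans ?_⟩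
  exact mul_le_mul_of_nonneg_right (le_add_of_nonneg_left hp) hX

end Pool.Agent.P.MP_6f5b02_nt.Hy
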