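import Pool.Agent.P.MP_6f5b02_nt.Hy.IfM

/-! Step PRD. -/

namespace Pool.Agent.P.MP_6f5b02_nt.Hy

open Pool.Agent.P.MP_8be758_nt Pool.Agent.P.MP_8be758_nt.Pd
open Finset Real Filter
open Pool.Agent.P.MP_8be758_nt.Par (cj det)
open Pool.Agent.P.MP_6f5b02_nt.Hy.Par (nq mul eu un red)
open Pool.Agent.P.MP_6f5b02_nt.Hy.Mr

theorem p_PRD (hMER : S_MER) :
    S_PRD := by
  intro A h1 h3
  obtain ⟨C, hC, h⟩ := hMER A h1 h3
  have a3 : (5 : ℝ) ≤ A := by exact_mod_cast h3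
  have l0 : 0 < log (4 * (A : ℝ)) := log_pos (by linarith)
  obtain ⟨S, hS⟩ : ∃ S : ℝ, ∀ s : Finset ℕ, ∑ q ∈ s, 1 / (q : ℝ) ^ 2 ≤ S :=
    ⟨_, fun s => (summable_one_div_nat_pow.2 (by norm_num)).sum_le_tsum s fun _ _ => by positivity⟩
  refine ⟨exp (C + 2 * S) * log (4 * (A : ℝ)), by positivity, fun y hy => ?_⟩
  have ly : 0 < log y := log_pos (by linarith)
  have k := (abs_le.1 (h _ y (by linarith) hy).1).1
  have b : ∀ q ∈ PP (4 * A) y, 0 ≤ 1 - (rho A q * ((q : ℝ) - 1) + 1) / (q : ℝ) ^ 2 ∧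
      1 - (rho A q * ((q : ℝ) - 1) + 1) / (q : ℝ) ^ 2 ≤
        exp (2 * (1 / (q : ℝ) ^ 2) - (rho A q : ℝ) / q) := fun q hq => by
    obtain ⟨q1, q2, -⟩ := (mem_PP (by linarith)).1 hq
    have r2 : (rho A q : ℝ) ≤ 2 := by exact_mod_cast rho_le_two q1
    have r0 : (0 : ℝ) ≤ rho A q := Nat.cast_nonneg _
    have q0 : (0 : ℝ) < q := by linarith
    constructor
    · rw [sub_nonneg, div_le_one (by positivity)]
      nlinarith
    · refine le_trans ?_ (add_one_le_exp _)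
      have : (rho A q * ((q : ℝ) - 1) + 1) / (q : ℝ) ^ 2 =
          (rho A q : ℝ) / q + (1 - rho A q) * (1 / (q : ℝ) ^ 2) := by field_simp; ring
      have h2 : 0 < 1 / (q : ℝ) ^ 2 := by positivity
      rw [this]
      nlinarith
  refine (prod_le_prod (fun q hq => (b q hq).1) fun q hq => (b q hq).2).trans ?_
  rw [← exp_sum, sum_sub_distrib, ← mul_sum]
  have e : exp (C + 2 * S) * log (4 * (A : ℝ)) / log y =
      exp (C + 2 * S - log (log y / log (4 * (A : ℝ)))) := by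
    rw [exp_sub, exp_log (by positivity)]
    field_simp
  rw [e]
  exact exp_le_exp.2 (by linarith [hS (PP (4 * A) y)])

end Pool.Agent.P.MP_6f5b02_nt.Hy
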