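import Pool.Agent.P.MP_6f5b02_nt.Hy.IfT
import Pool.Agent.P.MP_8be758_nt.Pd.TPS

/-! Step PS. -/

namespace Pool.Agent.P.MP_6f5b02_nt.Hy

open Pool.Agent.P.MP_8be758_nt Pool.Agent.P.MP_8be758_nt.Pd
open Finset Real Filter
open Pool.Agent.P.MP_8be758_nt.Par (det)
open Pool.Agent.P.MP_e86632_nt (ee)

theorem PS_hw (ρ : Pr) (Θ : ℝ) (h : 0 ≤ Θ) (k : ℤ) : 0 ≤ ρ.hw Θ k :=
  mul_nonneg (pow_nonneg h _) (ind_nonneg _)

theorem p_PS (hHI : S_HI) (hHO : S_HO) (hLAM : S_LAM) :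
    S_PS := by
  intro C0 hC0
  obtain ⟨c1, h1⟩ := hHI
  obtain ⟨c2, h2⟩ := hHO C0 hC0
  obtain ⟨c3, h3⟩ := hLAM
  refine ⟨max 1 (max c1 (max c2 c3)), fun A C1 => ?_⟩
  obtain ⟨D1, hD1, h1⟩ := h1 A C1
  obtain ⟨D2, hD2, h2⟩ := h2 A C1
  obtain ⟨D3, -, h3⟩ := h3 A C1
  have hexp : (1 : ℝ) ≤ exp 12 := one_le_exp (by norm_num)
  have hK : 1 ≤ D1 * D2 * C0 := one_le_mul_of_one_le_of_one_le
    (one_le_mul_of_one_le_of_one_le hD1 hD2) hC0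
  refine ⟨2 * (D1 * D2 * C0) * (16 + 12 * exp 12), by nlinarith, fun z hA hC hB => ?_⟩
  have g1 := h1 z hA hC (hB.mono (by omega))
  have g2 := h2 z hA hC (hB.mono (by omega))
  have g3 := h3 z hA hC (hB.mono (by omega))
  filter_upwards [g1, g2, g3, eventually_ge_atTop C0] with y hI hO hL hy
  intro a k0 α β T Θ Bs Bt hR hΘ0 hΘ1 hk hw hsi hco hBs hBt
  set ρ : Pr := ⟨z, y⟩ with hρ
  have hy' : C0 ≤ ρ.y := hy
  have hy1 : 1 ≤ ρ.y := hC0.trans hy'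
  obtain ⟨-, b2, -, b4, -, -, b7, b8, -⟩ := hB.mono (le_max_left _ _)
  have hw12 : (12 : ℝ) ≤ ρ.w := by
    have : 12 ≤ z.w := by omega
    exact_mod_cast this
  have hk3 : ρ.k3 ≠ 0 := by
    have : z.k3 ≠ 0 := by omega
    exact this
  have hP : ∀ p ∈ ρ.Ps, (12 : ℝ) ≤ p := fun p hp => hw12.trans (lt_of_PP hp).le
  obtain ⟨hT, r2, r3, -⟩ := hR
  have hyk : C0 ≤ ρ.y ^ ρ.k3 := hy'.trans (le_self_pow₀ hy1 hk3)
  have hyk1 : 1 ≤ ρ.y ^ ρ.k3 := hC0.trans hyk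
  have ha : (0 : ℝ) < a := lt_of_lt_of_le (by positivity) r3
  have h0 : 0 < T / C0 := by positivity
  have hsT : √(ρ.y ^ ρ.k3) ≤ T := by rw [sqrt_le_left hT.le]; exact r2
  obtain ⟨u, v', huv⟩ := hco
  set X := exp ((Θ / 2 - 1) * ρ.La) with hX
  have hX0 : 0 < X := exp_pos _
  set K := D1 * D2 * C0 with hKd
  have key : ∀ δ p0 p1 : ℕ, Squarefree δ → δ.primeFactors ⊆ ρ.Ps → (δ : ℝ) ≤ ρ.y →
      (p0 = 1 ∨ (p0 ∈ ρ.Ps ∧ δ = 1)) → (p1 = 1 ∨ (p1 ∈ ρ.Ps ∧ δ = 1)) →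
      ∑ v ∈ SR a T C0, (ρ.hw Θ (a - v.1 * v.2) * ind ((δ : ℤ) ∣ a - v.1 * v.2) *
        ind (p0 = 1 ∨ Bs p0 v.1) * Ep ρ.Ps 20 Bs v.1) *
        (ind (v.2 ≡ u * β [ZMOD δ]) * (ind (p1 = 1 ∨ Bt p1 v.2) * Ep ρ.Ps 8 Bt v.2)) ≤
      a * K * X * ((2 ^ δ.primeFactors.card / (δ * p0)) * (2 ^ δ.primeFactors.card / (δ * p1))) := by
    intro δ p0 p1 s1 s2 s3 s4 s5
    have hE8 := fun t => PS_Ep_one ρ.Ps 8 (by norm_num) Bt t
    have hE24 := fun t => PS_Ep_one ρ.Ps 24 (by norm_num) (fun p x => (p : ℤ) ∣ x) t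
    have hM : 0 ≤ D1 * (a / (T / C0)) * (2 ^ δ.primeFactors.card / (δ * p0)) * X := by positivity
    refine (PS_two a (u * β) T C0 (D1 * (a / (T / C0)) * (2 ^ δ.primeFactors.card / (δ * p0)) * X) δ
      (fun s t => ρ.hw Θ (a - s * t) * ind ((δ : ℤ) ∣ a - s * t) * ind (p0 = 1 ∨ Bs p0 s) *
        Ep ρ.Ps 20 Bs s) (fun t => ind (p1 = 1 ∨ Bt p1 t) * Ep ρ.Ps 8 Bt t)
      (fun t => Ep ρ.Ps 24 (fun p x => (p : ℤ) ∣ x) t) h0
      (fun s t => mul_nonneg (mul_nonneg (mul_nonneg (PS_hw ρ Θ hΘ0 _) (ind_nonneg _)) (ind_nonneg _))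
        (zero_le_one.trans (PS_Ep_one _ _ (by norm_num) _ _)))
      (fun t => mul_nonneg (ind_nonneg _) (zero_le_one.trans (hE8 t)))
      (fun t => zero_le_one.trans (hE24 t)) hM fun t t1 t2 => ?_).trans ?_
    · have ht : t ≠ 0 := fun e => by simp [e] at t1; linarith
      have t3 : |(t : ℝ)| * √(ρ.y ^ ρ.k3) ≤ a := by
        calc _ ≤ C0 * T * T := mul_le_mul t2 hsT (sqrt_nonneg _) (by positivity)
          _ = T ^ 2 * C0 := by ring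
          _ ≤ T ^ 2 * ρ.y ^ ρ.k3 := mul_le_mul_of_nonneg_left hyk (sq_nonneg _)
          _ ≤ a := r3
      refine (hI a t Θ δ p0 Bs ht t3 hΘ0 hΘ1 hBs s1 s2 s4).trans ?_
      have t4 : (a : ℝ) / |(t : ℝ)| ≤ a / (T / C0) := div_le_div_of_nonneg_left ha.le h0 t1
      have := hE24 t
      calc _ = D1 * (a / |(t : ℝ)|) * ((2 ^ δ.primeFactors.card / (δ * p0)) * X *
            Ep ρ.Ps 24 (fun p x => (p : ℤ) ∣ x) t) := by ring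
        _ ≤ D1 * (a / (T / C0)) * ((2 ^ δ.primeFactors.card / (δ * p0)) * X *
            Ep ρ.Ps 24 (fun p x => (p : ℤ) ∣ x) t) := by gcongr
        _ = _ := by ring
    · have o1 := hO T δ p1 (u * β) (fun p x => Bt p x ∨ (p : ℤ) ∣ x) hT r2 (PS_few _ _ hBt) s1 s2 s3 s5
      have o2 : ∑ t ∈ (Icc (-⌈C0 * T⌉) ⌈C0 * T⌉).filter (fun t => t ≡ u * β [ZMOD δ]),
          ind (p1 = 1 ∨ Bt p1 t) * Ep ρ.Ps 8 Bt t * Ep ρ.Ps 24 (fun p x => (p : ℤ) ∣ x) t ≤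
          D2 * T * (2 ^ δ.primeFactors.card / (δ * p1)) := by
        refine le_trans (sum_le_sum fun t _ => ?_) o1
        rw [mul_assoc]
        exact mul_le_mul (ind_mono (Or.imp_right Or.inl)) (PS_Ep_mul _ hP Bt t)
          (mul_nonneg (zero_le_one.trans (hE8 t)) (zero_le_one.trans (hE24 t))) (ind_nonneg _)
      refine (mul_le_mul_of_nonneg_left o2 hM).trans (le_of_eq ?_)
      rw [hKd]
      field_simp
  set DU := (ρ.pf k0).powerset.filter (fun U => U ≠ ∅ ∧ ((∏ p ∈ U, p : ℕ) : ℝ) ≤ ρ.y) with hDU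
  set W : ℕ → ℕ → ℕ → V2 → ℝ := fun δ p0 p1 v => (ρ.hw Θ (a - v.1 * v.2) *
    ind ((δ : ℤ) ∣ a - v.1 * v.2) * ind (p0 = 1 ∨ Bs p0 v.1) * Ep ρ.Ps 20 Bs v.1) *
    (ind (v.2 ≡ u * β [ZMOD δ]) * (ind (p1 = 1 ∨ Bt p1 v.2) * Ep ρ.Ps 8 Bt v.2)) with hW
  have hpt : ∀ v ∈ SR a T C0, ρ.hw Θ (a - v.1 * v.2) / ((a - v.1 * v.2 : ℤ) : ℝ) *
      (ind ((Int.gcd (Int.gcd k0 (a - v.1 * v.2)) (α * v.2 - β) : ℝ) ≤ ρ.y) *
        ((Int.gcd (Int.gcd k0 (a - v.1 * v.2)) (α * v.2 - β) : ℝ) *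
          (Ep ρ.Ps 8 Bs v.1 * Ep ρ.Ps 8 Bt v.2) - 1)) ≤
      2 / a * (∑ p ∈ ρ.Ps, 8 / (p : ℝ) * W 1 p 1 v + ∑ p ∈ ρ.Ps, 8 / (p : ℝ) * W 1 1 p v +
        ∑ U ∈ DU, ((∏ p ∈ U, p : ℕ) : ℝ) * W (∏ p ∈ U, p) 1 1 v) := by
    intro v hv
    obtain ⟨-, -, -, c4, -⟩ := (mem_SR h0).1 hv
    have c5 : (a : ℝ) ≤ 2 * ((a - v.1 * v.2 : ℤ) : ℝ) := by exact_mod_cast c4
    set k := a - v.1 * v.2 with hkd
    have hh := PS_hw ρ Θ hΘ0 k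
    set E1 := Ep ρ.Ps 8 Bs v.1 with hE1
    set E2 := Ep ρ.Ps 8 Bt v.2 with hE2
    set E3 := Ep ρ.Ps 20 Bs v.1 with hE3
    have e1 : 1 ≤ E1 := PS_Ep_one _ _ (by norm_num) _ _
    have e2 : 1 ≤ E2 := PS_Ep_one _ _ (by norm_num) _ _
    have e3 : E1 ≤ E3 := PS_Ep_mono _ _ _
    have e12 : 1 ≤ E1 * E2 := one_le_mul_of_one_le_of_one_le e1 e2
    have q1 := PS_pt ρ (by linarith) k0 k (α * v.2 - β) (E1 * E2) e12 hk hw
    have q2 : E1 - 1 ≤ (∑ p ∈ ρ.Ps, 8 / (p : ℝ) * ind (Bs p v.1)) * E1 :=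
      PS_prod _ _ fun p _ => PS_term 8 (by norm_num) p _
    have q3 : E2 - 1 ≤ (∑ p ∈ ρ.Ps, 8 / (p : ℝ) * ind (Bt p v.2)) * E2 :=
      PS_prod _ _ fun p _ => PS_term 8 (by norm_num) p _
    have s1 : 0 ≤ ∑ p ∈ ρ.Ps, 8 / (p : ℝ) * ind (Bs p v.1) :=
      sum_nonneg fun p _ => PS_term 8 (by norm_num) p _
    have s2 : 0 ≤ ∑ p ∈ ρ.Ps, 8 / (p : ℝ) * ind (Bt p v.2) :=
      sum_nonneg fun p _ => PS_term 8 (by norm_num) p _
    have i1 : ind (((1 : ℕ) : ℤ) ∣ k) = 1 := ind_pos (by simp)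
    have i2 : ind (v.2 ≡ u * β [ZMOD (1 : ℕ)]) = 1 := ind_pos (by simpa using Int.modEq_one)
    have i3 : ∀ Q : Prop, ind ((1 : ℕ) = 1 ∨ Q) = 1 := fun Q => ind_pos (Or.inl rfl)
    have hne : ∀ p ∈ ρ.Ps, ∀ Q : Prop, ind (p = 1 ∨ Q) = ind Q := fun p hp Q => by
      have := (prime_of_PP hp).ne_one
      simp [this]
    have w1 : ∑ p ∈ ρ.Ps, 8 / (p : ℝ) * W 1 p 1 v =
        ρ.hw Θ k * ((∑ p ∈ ρ.Ps, 8 / (p : ℝ) * ind (Bs p v.1)) * (E3 * E2)) := by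
      rw [sum_mul, mul_sum]
      refine sum_congr rfl fun p hp => ?_
      rw [hW]
      beta_reduce
      rw [← hkd, i1, i2, i3, hne p hp]
      ring
    have w2 : ∑ p ∈ ρ.Ps, 8 / (p : ℝ) * W 1 1 p v =
        ρ.hw Θ k * ((∑ p ∈ ρ.Ps, 8 / (p : ℝ) * ind (Bt p v.2)) * (E3 * E2)) := by
      rw [sum_mul, mul_sum]
      refine sum_congr rfl fun p hp => ?_
      rw [hW]
      beta_reduce
      rw [← hkd, i1, i2, i3, hne p hp]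
      ring
    have w3 : ρ.hw Θ k * ∑ U ∈ DU, ((∏ p ∈ U, p : ℕ) : ℝ) * (ind (((∏ p ∈ U, p : ℕ) : ℤ) ∣ k) *
        ind (((∏ p ∈ U, p : ℕ) : ℤ) ∣ α * v.2 - β) * (E1 * E2)) ≤
        ∑ U ∈ DU, ((∏ p ∈ U, p : ℕ) : ℝ) * W (∏ p ∈ U, p) 1 1 v := by
      rw [mul_sum]
      refine sum_le_sum fun U hU => ?_
      rw [hW]
      beta_reduce
      rw [← hkd, i3, i3]
      set δ := ∏ p ∈ U, p with hδ
      have hd : (δ : ℤ) ∣ k0 := by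
        have hsub := mem_powerset.1 (mem_filter.1 hU).1
        rw [Int.natCast_dvd, hδ]
        refine Finset.prod_primes_dvd _ (fun p hp => (prime_of_PP (mem_pf.1 (hsub hp)).1).prime)
          fun p hp => Int.natCast_dvd.1 (mem_pf.1 (hsub hp)).2
      have j1 : ind ((δ : ℤ) ∣ α * v.2 - β) ≤ ind (v.2 ≡ u * β [ZMOD δ]) := by
        refine ind_mono fun h => (Int.modEq_iff_dvd.2 ?_).symm
        have : v.2 - u * β = u * (α * v.2 - β) + k0 * (v' * v.2) := by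
          linear_combination (-v.2) * huv
        rw [this]
        exact dvd_add (h.mul_left _) (hd.mul_right _)
      have j2 := ind_nonneg ((δ : ℤ) ∣ k)
      have j3 := ind_nonneg ((δ : ℤ) ∣ α * v.2 - β)
      have j4 := ind_nonneg (v.2 ≡ u * β [ZMOD δ])
      calc _ = (δ : ℝ) * (ρ.hw Θ k * ind ((δ : ℤ) ∣ k) * E2) * (ind ((δ : ℤ) ∣ α * v.2 - β) * E1) := by
            ring
        _ ≤ (δ : ℝ) * (ρ.hw Θ k * ind ((δ : ℤ) ∣ k) * E2) * (ind (v.2 ≡ u * β [ZMOD δ]) * E3) := by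
            gcongr
        _ = _ := by ring
    have q4 : E1 * E2 - 1 ≤ (∑ p ∈ ρ.Ps, 8 / (p : ℝ) * ind (Bs p v.1)) * (E3 * E2) +
        (∑ p ∈ ρ.Ps, 8 / (p : ℝ) * ind (Bt p v.2)) * (E3 * E2) := by
      have a1 := mul_le_mul_of_nonneg_right q2 (zero_le_one.trans e2)
      have a2 : (∑ p ∈ ρ.Ps, 8 / (p : ℝ) * ind (Bs p v.1)) * E1 * E2 ≤
          (∑ p ∈ ρ.Ps, 8 / (p : ℝ) * ind (Bs p v.1)) * (E3 * E2) := by
        rw [mul_assoc]; gcongr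
      have a3 : (∑ p ∈ ρ.Ps, 8 / (p : ℝ) * ind (Bt p v.2)) * E2 ≤
          (∑ p ∈ ρ.Ps, 8 / (p : ℝ) * ind (Bt p v.2)) * (E3 * E2) :=
        mul_le_mul_of_nonneg_left (le_mul_of_one_le_left (by linarith) (by linarith)) s2
      linarith
    have hkpos : (0 : ℝ) < (k : ℝ) := by linarith
    have q5 : ρ.hw Θ k / (k : ℝ) ≤ 2 / a * ρ.hw Θ k := by
      rw [div_le_iff₀ hkpos]
      have : (1 : ℝ) ≤ 2 / a * k := by rw [div_mul_eq_mul_div, le_div_iff₀ ha]; linarith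
      calc _ ≤ ρ.hw Θ k * (2 / a * k) := le_mul_of_one_le_right hh this
        _ = _ := by ring
    have hS0 := sum_nonneg (s := DU) (f := fun U => ((∏ p ∈ U, p : ℕ) : ℝ) *
      (ind (((∏ p ∈ U, p : ℕ) : ℤ) ∣ k) * ind (((∏ p ∈ U, p : ℕ) : ℤ) ∣ α * v.2 - β) * (E1 * E2)))
      fun U _ => mul_nonneg (Nat.cast_nonneg _)
        (mul_nonneg (mul_nonneg (ind_nonneg _) (ind_nonneg _)) (by linarith))
    refine (mul_le_mul_of_nonneg_left q1 (div_nonneg hh hkpos.le)).trans ?_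
    refine (mul_le_mul_of_nonneg_right q5 (by linarith)).trans ?_
    rw [mul_assoc]
    refine mul_le_mul_of_nonneg_left ?_ (by positivity)
    rw [w1, w2, mul_add]
    have := mul_le_mul_of_nonneg_left q4 hh
    linarith
  refine (sum_le_sum hpt).trans ?_
  rw [← mul_sum, sum_add_distrib, sum_add_distrib, sum_comm, sum_comm (s := SR a T C0),
    sum_comm (s := SR a T C0)]
  simp only [← mul_sum]
  have hY : 0 ≤ a * K * X := by positivity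
  have z1 : ∑ p ∈ ρ.Ps, 8 / (p : ℝ) * ∑ v ∈ SR a T C0, W 1 p 1 v ≤
      a * K * X * (8 * ∑ p ∈ ρ.Ps, (1 : ℝ) / p ^ 2) := by
    rw [mul_sum, mul_sum]
    refine sum_le_sum fun p hp => ?_
    refine (mul_le_mul_of_nonneg_left (key 1 p 1 squarefree_one (by simp) (by simpa using hy1)
      (Or.inr ⟨hp, rfl⟩) (Or.inl rfl)) (by positivity)).trans (le_of_eq ?_)
    simp only [Nat.primeFactors_one, card_empty, Nat.cast_one]
    ring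
  have z2 : ∑ p ∈ ρ.Ps, 8 / (p : ℝ) * ∑ v ∈ SR a T C0, W 1 1 p v ≤
      a * K * X * (8 * ∑ p ∈ ρ.Ps, (1 : ℝ) / p ^ 2) := by
    rw [mul_sum, mul_sum]
    refine sum_le_sum fun p hp => ?_
    refine (mul_le_mul_of_nonneg_left (key 1 1 p squarefree_one (by simp) (by simpa using hy1)
      (Or.inl rfl) (Or.inr ⟨hp, rfl⟩)) (by positivity)).trans (le_of_eq ?_)
    simp only [Nat.primeFactors_one, card_empty, Nat.cast_one]
    ring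
  have z3 : ∑ U ∈ DU, ((∏ p ∈ U, p : ℕ) : ℝ) * ∑ v ∈ SR a T C0, W (∏ p ∈ U, p) 1 1 v ≤
      a * K * X * ∑ U ∈ DU, (4 : ℝ) ^ U.card / ((∏ p ∈ U, p : ℕ) : ℝ) := by
    rw [mul_sum]
    refine sum_le_sum fun U hU => ?_
    have hsub := mem_powerset.1 (mem_filter.1 hU).1
    have hpr : ∀ p ∈ U, p.Prime := fun p hp => prime_of_PP (mem_pf.1 (hsub hp)).1
    have e := Nat.primeFactors_prod hpr
    have hs := PS_sqf U hpr
    refine (mul_le_mul_of_nonneg_left (key _ 1 1 hs (by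
      rw [e]; exact fun p hp => (mem_pf.1 (hsub hp)).1) (mem_filter.1 hU).2.2
      (Or.inl rfl) (Or.inl rfl)) (Nat.cast_nonneg _)).trans (le_of_eq ?_)
    rw [e]
    have hz : ((∏ p ∈ U, p : ℕ) : ℝ) ≠ 0 := Nat.cast_ne_zero.2 hs.ne_zero
    have e4 : (4 : ℝ) ^ U.card = 2 ^ U.card * 2 ^ U.card := by rw [← mul_pow]; norm_num
    rw [e4, Nat.cast_one]
    field_simp
  have hr1 : 1 ≤ √(ρ.w : ℝ) := one_le_sqrt.2 (by linarith)
  have z4 := PS_sub (ρ.pf k0) ρ.y _ hr1 hsi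
  have z5 : ∑ p ∈ ρ.Ps, (1 : ℝ) / p ^ 2 ≤ 1 / √(ρ.w : ℝ) := by
    refine hL.2.2.2.2.2.1.trans (one_div_le_one_div_of_le (by linarith) ?_)
    rw [sqrt_le_left (by linarith)]
    exact le_self_pow₀ (by linarith) two_ne_zero
  have z6 := mul_le_mul_of_nonneg_left z4 hY
  have z7 := mul_le_mul_of_nonneg_left (mul_le_mul_of_nonneg_left z5 (by norm_num : (0 : ℝ) ≤ 8)) hY
  calc _ ≤ 2 / a * (a * K * X * (8 * (1 / √(ρ.w : ℝ))) + a * K * X * (8 * (1 / √(ρ.w : ℝ))) +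
        a * K * X * (12 * exp 12 / √(ρ.w : ℝ))) :=
      mul_le_mul_of_nonneg_left (by linarith) (by positivity)
    _ = 2 * K * (16 + 12 * exp 12) / √(ρ.w : ℝ) * X := by field_simp; ring

end Pool.Agent.P.MP_6f5b02_nt.Hy
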