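import Pool.Agent.P.MP_6f5b02_nt.Hy.IfM
import Pool.Agent.P.MP_8be758_nt.Pd.TRAM2

/-! Step RAM2. -/

namespace Pool.Agent.P.MP_6f5b02_nt.Hy

open Pool.Agent.P.MP_8be758_nt Pool.Agent.P.MP_8be758_nt.Pd
open Finset Real Filter
open Pool.Agent.P.MP_8be758_nt.Par (cj det)
open Pool.Agent.P.MP_6f5b02_nt.Hy.Par (nq mul eu un red)
open Pool.Agent.P.MP_6f5b02_nt.Hy.Mr

theorem p_RAM2 (hTK : S_TK) (hMU2 : S_MU2) (hVEQ : S_VEQ) (hAREA : S_AREA) :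
    S_RAM2 := by
  intro A hA
  have hA1 : 5 ≤ A := by omega
  obtain ⟨Cm, m0, hm⟩ := hMU2 A hA
  obtain ⟨Cv, v0, hv⟩ := hVEQ A hA1
  obtain ⟨c, Ca, -, a0, ha⟩ := hAREA A hA1
  refine ⟨180 * Ca + 360 * Cv + 3 * Cm, by positivity, fun σ X H X1 E1 HQ QX => ?_⟩
  obtain ⟨q, hq⟩ : ∃ q, q = X ^ (1 / 40 : ℝ) := ⟨_, rfl⟩
  rw [← hq] at QX
  have X0 : 0 < X := by linarith
  have Q1 := H.one_le_Q
  have H2 := H.2.2.2.2.1
  have H0 : 0 < σ.H := by linarith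
  have q1 : 1 ≤ q := Q1.trans QX
  have eX : q ^ 40 = X := by
    rw [hq, ← rpow_natCast, ← rpow_mul X0.le]; norm_num
  have pw : ∀ i j : ℕ, i ≤ j → q ^ i ≤ q ^ j := fun i j h => pow_le_pow_right₀ q1 h
  have b1 : q ^ 20 ≤ X / σ.H := by
    rw [le_div_iff₀ H0, ← eX]
    calc _ ≤ q ^ 20 * q := by gcongr; exact HQ.trans QX
      _ = q ^ 21 := by ring
      _ ≤ _ := pw _ _ (by norm_num)
  have b2 : 1 ≤ X / σ.H := (one_le_pow₀ q1).trans b1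
  have b3 : X / σ.H ≤ X := div_le_self X0.le (by linarith)
  have T : ∀ N1 N2 : ℝ, 0 ≤ N1 → N1 ≤ N2 → 1 ≤ N2 → N2 ≤ 4 * X →
      ∑ v ∈ VV (Q0 A) N1 N2, (σ.om A v - σ.E) ^ 2 ≤ (VV (Q0 A) N1 N2).card * σ.E + 24 * Cv * X := by
    intro N1 N2 h0 h1 h2 h3
    refine (hTK A σ _ (σ.Q ^ 2) _ H le_rfl (by positivity)
      (hv _ (Q0_mem hA1) N1 N2 (σ.Q ^ 2) h0 h1 h2 (one_le_pow₀ Q1))).trans ?_
    have k1 : N2 ^ (3 / 4 : ℝ) ≤ 8 * q ^ 30 := by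
      calc _ ≤ ((2 * q ^ 10) ^ 4) ^ (3 / 4 : ℝ) := by
            refine rpow_le_rpow (by linarith) ?_ (by norm_num)
            have : (2 * q ^ 10) ^ 4 = 16 * q ^ 40 := by ring
            rw [this, eX]; linarith
        _ = (2 * q ^ 10) ^ 3 := by
            rw [← rpow_natCast, ← rpow_mul (by positivity), ← rpow_natCast]; norm_num
        _ = _ := by ring
    have k2 := H.card_le.trans QX
    have k3 : 3 * (σ.S.card : ℝ) ^ 2 * (Cv * (σ.Q ^ 2) ^ 2 * N2 ^ (3 / 4 : ℝ)) ≤ 24 * Cv * X := by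
      calc _ ≤ 3 * q ^ 2 * (Cv * (q ^ 2) ^ 2 * (8 * q ^ 30)) := by gcongr
        _ = 24 * Cv * q ^ 36 := by ring
        _ ≤ _ := by rw [← eX]; gcongr; norm_num
    linarith
  have Cd : ∀ N1 N2 : ℝ, 0 ≤ N1 → N1 ≤ N2 → N2 ≤ 4 * X →
      ((VV (Q0 A) N1 N2).card : ℝ) ≤ Ca * (N2 - N1 + 3 * (X / σ.H)) := by
    intro N1 N2 h0 h1 h3
    have k1 : ((VV (Q0 A) N1 N2).card : ℝ) ≤ (An (Q0 A) N1 N2).card := by
      exact_mod_cast card_le_card (VV_sub_An hA N1 N2)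
    refine (k1.trans (ha _ (Q0_mem hA1) N1 N2 h0 h1).2).trans ?_
    have k2 : √N2 ≤ 2 * q ^ 20 := by
      refine sqrt_le_iff.2 ⟨by positivity, ?_⟩
      have : (2 * q ^ 20) ^ 2 = 4 * q ^ 40 := by ring
      rw [this, eX]; exact h3
    gcongr Ca * ?_
    linarith
  have e1 : 1 ≤ exp (1 / σ.H) := one_le_exp (by positivity)
  have e2 := H.exp_le
  have e3 := H.exp_le_two
  have EE : σ.E ≤ σ.E ^ 2 := by nlinarith
  have S : ∀ Y : ℝ, X ≤ Y → Y ≤ 2 * X → ∑ v ∈ VV (Q0 A) Y (exp (1 / σ.H) * Y), σ.om A v ^ 2 ≤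
      28 * Ca * (X * (σ.E ^ 2 / σ.H)) + 48 * Cv * (X * σ.E) := by
    intro Y h1 h2
    have Y0 : 0 ≤ Y := by linarith
    have k0 : Y ≤ exp (1 / σ.H) * Y := le_mul_of_one_le_left Y0 e1
    have k1 : exp (1 / σ.H) * Y ≤ 4 * X := by nlinarith
    have k2 := T Y _ Y0 k0 (by linarith) k1
    have k3 := Cd Y _ Y0 k0 k1
    have k4 : exp (1 / σ.H) * Y - Y ≤ 4 * (X / σ.H) := by
      calc _ ≤ (1 + 2 / σ.H) * Y - Y := by gcongr
        _ = 2 / σ.H * Y := by ring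
        _ ≤ 2 / σ.H * (2 * X) := by gcongr
        _ = _ := by ring
    have k5 : ((VV (Q0 A) Y (exp (1 / σ.H) * Y)).card : ℝ) ≤ Ca * (7 * (X / σ.H)) := by
      refine k3.trans ?_
      gcongr
      linarith
    have k6 : ∑ v ∈ VV (Q0 A) Y (exp (1 / σ.H) * Y), σ.om A v ^ 2 ≤
        ∑ v ∈ VV (Q0 A) Y (exp (1 / σ.H) * Y), (2 * (σ.om A v - σ.E) ^ 2 + 2 * σ.E ^ 2) :=
      sum_le_sum fun v _ => by nlinarith [sq_nonneg (σ.om A v - 2 * σ.E)]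
    rw [sum_add_distrib, ← mul_sum, sum_const, nsmul_eq_mul] at k6
    have k7 : ((VV (Q0 A) Y (exp (1 / σ.H) * Y)).card : ℝ) * σ.E ≤ Ca * (7 * (X / σ.H)) * σ.E ^ 2 := by
      gcongr
    have k8 : ((VV (Q0 A) Y (exp (1 / σ.H) * Y)).card : ℝ) * σ.E ^ 2 ≤
        Ca * (7 * (X / σ.H)) * σ.E ^ 2 := by gcongr
    have k9 : Ca * (7 * (X / σ.H)) * σ.E ^ 2 = 7 * Ca * (X * (σ.E ^ 2 / σ.H)) := by ring
    have k10 : Cv * X ≤ Cv * (X * σ.E) := by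
      gcongr; exact le_mul_of_one_le_right X0.le E1
    linarith
  have P : ∀ v ∈ VV (Q0 A) 0 (4 * X), σ.ab A X v ^ 2 ≤
      3 * (ind (v ∈ VX A X) * (σ.om A v - σ.E) ^ 2 +
        (ind (v ∈ VV (Q0 A) X (exp (1 / σ.H) * X)) * σ.om A v ^ 2 +
          ind (v ∈ VV (Q0 A) (2 * X) (exp (1 / σ.H) * (2 * X))) * σ.om A v ^ 2) + σ.mu A X v ^ 2) := by
    intro v hv
    obtain ⟨cv, pv, -⟩ := (mem_VV0 hA).1 hv
    have k1 : (ind (v ∈ VX A X) * |σ.E - σ.om A v|) ^ 2 = ind (v ∈ VX A X) * (σ.om A v - σ.E) ^ 2 := by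
      rw [RAM2_sq, sq_abs]; ring
    have k2 : (ind (σ.Strip A X v) * σ.om A v) ^ 2 ≤
        ind (v ∈ VV (Q0 A) X (exp (1 / σ.H) * X)) * σ.om A v ^ 2 +
          ind (v ∈ VV (Q0 A) (2 * X) (exp (1 / σ.H) * (2 * X))) * σ.om A v ^ 2 := by
      rw [RAM2_sq, ← add_mul]
      refine mul_le_mul_of_nonneg_right (le_trans (ind_mono fun h => ?_) (RAM2_or _ _)) (sq_nonneg _)
      exact h.imp (fun h => (mem_VV0 hA).2 ⟨cv, pv, h⟩) fun h => (mem_VV0 hA).2 ⟨cv, pv, h⟩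
    rw [St.ab, ← k1]
    generalize ind (v ∈ VX A X) * |σ.E - σ.om A v| = x at *
    generalize ind (σ.Strip A X v) * σ.om A v = y at *
    generalize σ.mu A X v = z at *
    nlinarith [sq_nonneg (x - y), sq_nonneg (y - z), sq_nonneg (x - z)]
  refine (sum_le_sum P).trans ?_
  rw [← mul_sum, sum_add_distrib, sum_add_distrib, sum_add_distrib]
  have f1 := RAM2_sum (VV (Q0 A) 0 (4 * X)) (VX A X) (fun v => (σ.om A v - σ.E) ^ 2)
    fun _ => sq_nonneg _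
  have f2 := RAM2_sum (VV (Q0 A) 0 (4 * X)) (VV (Q0 A) X (exp (1 / σ.H) * X))
    (fun v => σ.om A v ^ 2) fun _ => sq_nonneg _
  have f3 := RAM2_sum (VV (Q0 A) 0 (4 * X)) (VV (Q0 A) (2 * X) (exp (1 / σ.H) * (2 * X)))
    (fun v => σ.om A v ^ 2) fun _ => sq_nonneg _
  have g1 := T X (2 * X) X0.le (by linarith) (by linarith) (by linarith)
  have g2 := S X le_rfl (by linarith)
  have g3 := S (2 * X) (by linarith) le_rfl
  have g4 := hm σ X H (by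
    calc _ ≤ q ^ 2 := by gcongr
      _ ≤ _ := eX ▸ pw _ _ (by norm_num))
  have g5 : ((VV (Q0 A) X (2 * X)).card : ℝ) * σ.E ≤ Ca * (4 * X) * σ.E := by
    refine mul_le_mul_of_nonneg_right ((Cd X (2 * X) X0.le (by linarith) (by linarith)).trans ?_)
      (by linarith)
    gcongr
    linarith
  have g6 : Cv * X ≤ Cv * (X * σ.E) := by
    gcongr; exact le_mul_of_one_le_right X0.le E1
  have z1 : 0 ≤ X * σ.E := by positivity
  have z2 : 0 ≤ X * (σ.E ^ 2 / σ.H) := by positivity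
  have z3 := mul_nonneg a0.le z1
  have z4 := mul_nonneg a0.le z2
  have z5 := mul_nonneg v0.le z2
  have z6 := mul_nonneg m0.le z2
  have f1' : ∑ v ∈ VX A X, (σ.om A v - σ.E) ^ 2 ≤ (VV (Q0 A) X (2 * X)).card * σ.E + 24 * Cv * X := g1
  have e : (180 * Ca + 360 * Cv + 3 * Cm) * X * (σ.E + σ.E ^ 2 / σ.H) =
      180 * (Ca * (X * σ.E)) + 360 * (Cv * (X * σ.E)) + 3 * (Cm * X * σ.E) +
        180 * (Ca * (X * (σ.E ^ 2 / σ.H))) + 360 * (Cv * (X * (σ.E ^ 2 / σ.H))) +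
        3 * (Cm * (X * (σ.E ^ 2 / σ.H))) := by ring
  rw [e]
  linarith

end Pool.Agent.P.MP_6f5b02_nt.Hy
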