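import Pool.Agent.P.MP_6f5b02_nt.Hy.If0
import Pool.Agent.P.MP_8be758_nt.Pd.TRED

/-! Step RED. -/

namespace Pool.Agent.P.MP_6f5b02_nt.Hy

open Pool.Agent.P.MP_8be758_nt Pool.Agent.P.MP_8be758_nt.Pd
open Finset Real Filter
open Pool.Agent.P.MP_8be758_nt.Par (det)
theorem RED_one {φ : Fm} (h : φ.2.1 ^ 2 - 4 * φ.1 * φ.2.2 = 17) :
    ∃ v w : V2, det v w = 1 ∧ ev φ v = 1 := by
  obtain ⟨a, ⟨⟨v, w0⟩, hd0, rfl⟩, hmin⟩ := Int.exists_least_of_bdd
    (P := fun z => ∃ g : G4, det g.1 g.2 = 1 ∧ |ev φ g.1| = z)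
    ⟨0, by rintro z ⟨g, -, rfl⟩; exact abs_nonneg _⟩
    ⟨_, (((1, 0), (0, 1)) : G4), by simp [det], rfl⟩
  have e0 := disc_eq φ v w0
  rw [h, hd0] at e0
  have ha : ev φ v ≠ 0 := fun z => by
    rw [z] at e0
    exact Par.nq_ne (A := 5) (z := (bl φ v w0 - 1, 2)) (by simp) (by
      simp only [Par.nq]; linear_combination e0)
  obtain ⟨k, k1⟩ : ∃ k, |bl φ v w0 + 2 * ev φ v * k| ≤ |ev φ v| := by
    obtain ⟨k, k1⟩ := RED_shift (abs_pos.2 ha) (bl φ v w0)
    rcases abs_choice (ev φ v) with e | e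
    · exact ⟨k, abs_le.2 (by rw [e] at k1 ⊢; exact k1)⟩
    · exact ⟨-k, abs_le.2 (by rwa [mul_neg, ← neg_mul, ← mul_neg, ← e])⟩
  obtain ⟨w, hd, hb⟩ : ∃ w : V2, det v w = 1 ∧ bl φ v w = bl φ v w0 + 2 * ev φ v * k :=
    ⟨(w0.1 + k * v.1, w0.2 + k * v.2), by
      simp only [det] at hd0 ⊢
      linarith, by simp only [bl, ev]; ring⟩
  have hc := hmin _ ⟨(w, -v), by
    simp only [det, Prod.fst_neg, Prod.snd_neg] at hd ⊢
    linarith, rfl⟩
  have hc' := hmin _ ⟨(v + w, w), by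
    simp only [det, Prod.fst_add, Prod.snd_add] at hd ⊢
    linarith, rfl⟩
  have e := disc_eq φ v w
  have e' : ∀ x y : ℤ, ev φ (x • v + y • w) = x ^ 2 * ev φ v + x * y * bl φ v w + y ^ 2 * ev φ w :=
    fun x y => by
      simp only [ev, bl, Prod.fst_add, Prod.snd_add, Prod.smul_fst, Prod.smul_snd, smul_eq_mul]
      ring
  have e1 := e' 1 1
  rw [one_smul, one_smul] at e1
  rw [h, hd] at e
  simp only [e1] at hc hc'
  rw [← hb] at k1
  have e2 := e' 3 (-2 * bl φ v w)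
  have d2 : det ((3 : ℤ) • v + (-2 * bl φ v w) • w) (-bl φ v w • v + w) =
      3 - 2 * bl φ v w ^ 2 := by
    simp only [det, Prod.fst_add, Prod.snd_add, Prod.smul_fst, Prod.smul_snd, smul_eq_mul] at hd ⊢
    linear_combination (3 - 2 * bl φ v w ^ 2) * hd
  by_cases h1 : ev φ v = 1
  · exact ⟨v, w, hd, h1⟩
  refine ⟨_, _, d2.trans ?_, e2.trans ?_⟩
  all_goals
    generalize ev φ v = a at *
    generalize bl φ v w = b at *
    generalize ev φ w = c at *
    have h2 : |a| ≤ 2 := by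
      have a1 := sq_le_sq.2 k1
      have a2 := mul_le_mul_of_nonneg_left hc (abs_nonneg a)
      rw [← abs_mul a c, abs_mul_abs_self] at a2
      refine Int.lt_add_one_iff.1 (abs_lt_of_sq_lt_sq ?_ (by norm_num))
      rcases abs_choice (a * c) with e3 | e3 <;> nlinarith
    obtain ⟨b1, b2⟩ := abs_le.1 (k1.trans h2)
    obtain ⟨a1, a2⟩ := abs_le.1 h2
    rw [le_abs] at hc hc'
    rw [abs_le] at k1
    have h3 := abs_choice a
    have h4 := abs_nonneg a
    generalize |a| = m at *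
    simp only [sq] at e ⊢
    interval_cases a <;> interval_cases b <;> omega

theorem p_RED :
    S_RED := by
  intro A φ hA hφ
  obtain ⟨v, w0, hd0, h1⟩ := RED_one hφ.1
  have e0 := disc_eq φ v w0
  rw [hφ.1, hd0, h1] at e0
  obtain ⟨n, hn⟩ := (Int.odd_pow' two_ne_zero).1
    (show Odd (bl φ v w0 ^ 2) from ⟨2 * ev φ w0 + 8, by linear_combination e0⟩)
  obtain ⟨w, hd, hb⟩ : ∃ w : V2, det v w = 1 ∧ bl φ v w = 1 :=
    ⟨(w0.1 - n * v.1, w0.2 - n * v.2), by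
      simp only [det] at hd0 ⊢
      linarith, by
      simp only [bl, ev] at h1 hn ⊢
      linear_combination hn - 2 * n * h1⟩
  have e := disc_eq φ v w
  rw [hφ.1, hd, h1, hb] at e
  have e1 : act φ (v, w) = Q0 A := Prod.ext h1 (Prod.ext hb (show ev φ w = -4 by omega))
  have e2 : act (Q0 A) ((w.2, -v.2), (-w.1, v.1)) = φ := by
    have : rm (v, w) ((w.2, -v.2), (-w.1, v.1)) = ((1, 0), (0, 1)) := by
      simp only [det] at hd
      simp only [rm, ap, Prod.mk.injEq]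
      refine ⟨⟨?_, ?_⟩, ?_, ?_⟩ <;> linarith
    rw [← e1, ← act_rm, this]
    simp [act, ev, bl]
  have e3 : det (w.2, -v.2) (-w.1, v.1) = 1 := by
    simp only [det] at hd ⊢
    linarith
  generalize (w.2, -v.2) = x at e2 e3
  generalize (-w.1, v.1) = y at e2 e3
  have u := nq_un (A := A) x
  refine ⟨_, Q0_red A, (Par.red A x, Par.mul A (Par.un A x) y), red_cn ?_, ?_, ?_⟩
  · rw [← ev_Q0]
    exact hφ.2.trans_eq (congrArg Prod.fst e2).symm
  · rw [Par.red, Par.det_mul', u, e3, one_mul]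
  · rw [← e2, Par.red]
    generalize Par.un A x = η at u
    simp only [act, ev, bl, Q0, Par.mul, Par.nq, Prod.mk.injEq] at u ⊢
    exact ⟨by linear_combination (x.1 ^ 2 + x.1 * x.2 - 4 * x.2 ^ 2) * u,
      by linear_combination (2 * x.1 * y.1 + x.1 * y.2 + x.2 * y.1 - 8 * x.2 * y.2) * u,
      by linear_combination (y.1 ^ 2 + y.1 * y.2 - 4 * y.2 ^ 2) * u⟩

end Pool.Agent.P.MP_6f5b02_nt.Hy
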