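import Pool.Agent.P.MP_6f5b02_nt.Hy.IfM
import Pool.Agent.P.MP_8be758_nt.Pd.TSEG

/-! Step SEG. -/

namespace Pool.Agent.P.MP_6f5b02_nt.Hy

open Pool.Agent.P.MP_8be758_nt Pool.Agent.P.MP_8be758_nt.Pd
open Finset Real Filter
open Pool.Agent.P.MP_8be758_nt.Par (cj det)
open Pool.Agent.P.MP_6f5b02_nt.Hy.Par (nq mul eu un red)
open Pool.Agent.P.MP_6f5b02_nt.Hy.Mr

theorem SEG_up {R τ m x y F : ℝ} (j : ℕ) (hτ : 0 < τ) (hR : 0 < R) (hm : 0 ≤ m) (hmτ : m * τ ≤ 1)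
    (hx : τ * R ≤ x) (hy : x ≤ y) (h0 : 0 ≤ F) (hF : F * τ ≤ 1) :
    0 ≤ x⁻¹ ^ j - y⁻¹ ^ j ∧ m ^ j * F * (x⁻¹ ^ j - y⁻¹ ^ j) ≤ 1 / (τ ^ (2 * j + 1) * R ^ j) := by
  have x0 : 0 < x := lt_of_lt_of_le (by positivity) hx
  have y0 := x0.trans_le hy
  rw [← le_div_iff₀ hτ] at hmτ hF
  refine ⟨sub_nonneg.2 (by gcongr), ?_⟩
  calc _ ≤ m ^ j * F * x⁻¹ ^ j :=
        mul_le_mul_of_nonneg_left (sub_le_self _ (by positivity)) (by positivity)
    _ ≤ (1 / τ) ^ j * (1 / τ) * (τ * R)⁻¹ ^ j := by gcongr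
    _ = _ := by
        simp only [one_div, inv_pow, mul_pow]
        field_simp
        ring

theorem SEG_lo {R τ x y : ℝ} (κ : ℕ) (hτ : 0 < τ) (hR : 0 < R) (hx : 0 < x) (hy : τ * R ≤ y - x)
    (hy' : y ≤ 2 * R) (h : 2 ^ (κ + 2) * τ ≤ 1) :
    τ ^ 2 / R ^ (κ + 1) ≤ x⁻¹ ^ (κ + 1) - y⁻¹ ^ (κ + 1) := by
  have xy : x ≤ y := by linarith [mul_pos hτ hR]
  have y0 := hx.trans_le xy
  have x2 := xy.trans hy'
  calc τ ^ 2 / R ^ (κ + 1) = 2 ^ (κ + 2) * τ * ((2 * R)⁻¹ ^ κ * (τ * R * ((2 * R)⁻¹ * (2 * R)⁻¹))) := by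
        simp only [inv_pow, mul_pow]
        field_simp
        ring
    _ ≤ 1 * (x⁻¹ ^ κ * ((y - x) * (x⁻¹ * y⁻¹))) := by gcongr
    _ = x⁻¹ ^ (κ + 1) - x⁻¹ ^ κ * y⁻¹ := by
        rw [pow_succ]
        field_simp
    _ ≤ _ := by
        rw [pow_succ y⁻¹]
        gcongr

theorem p_SEG (hVD1 : S_VD1) (hCHN : S_CHN) :
    S_SEG := by
  intro J
  obtain ⟨κ, hκ⟩ : ∃ κ, κ = 2 * J + 1 := ⟨_, rfl⟩
  obtain ⟨b, C, C0, H⟩ := hVD1 κ
  set K0 : ℝ := 2 * (κ + 3) + 2 ^ (κ + 2) + ((κ + 1).factorial : ℝ) + 3 with hK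
  have K1 : 0 < K0 := by positivity
  refine ⟨b + 7 * κ + 30, 1 / K0, C, by positivity, C0, ?_⟩
  intro R τ m k a a' n τ0 τ1 hR hk kR hm mτ hz hi hi' n1 n2
  have τK : K0 * τ ≤ 1 := by rwa [le_div_iff₀ K1, mul_comm] at τ1
  have q1 : 0 ≤ 2 * (κ + 3) * τ := by positivity
  have q2 : 0 ≤ 2 ^ (κ + 2) * τ := by positivity
  have q3 : 0 ≤ ((κ + 1).factorial : ℝ) * τ := by positivity
  have q4 : K0 * τ = 2 * (κ + 3) * τ + 2 ^ (κ + 2) * τ + ((κ + 1).factorial : ℝ) * τ + 3 * τ := by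
    rw [hK]; ring
  have τ3 : τ ≤ 1 / 3 := by linarith
  have τ4 : τ ≤ 1 := by linarith
  have pw : ∀ i : ℕ, i ≤ b + 7 * κ + 30 → τ ^ (b + 7 * κ + 30) ≤ τ ^ i := fun i h =>
    pow_le_pow_of_le_one τ0.le τ4 h
  have R0 : 0 < R := (mul_pos_iff_of_pos_left (by positivity)).1 (one_pos.trans_le hR)
  have hR' : ∀ i : ℕ, i ≤ b + 7 * κ + 30 → 1 ≤ τ ^ i * R := fun i h =>
    hR.trans (mul_le_mul_of_nonneg_right (pw i h) R0.le)
  have hk' : ∀ i : ℕ, i ≤ b + 7 * κ + 30 → 1 ≤ τ ^ i * |k| := fun i h =>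
    hk.trans (mul_le_mul_of_nonneg_right (pw i h) (abs_nonneg _))
  have R1 : 1 ≤ R := by simpa using hR' 0 (by omega)
  have k1 : 1 ≤ |k| := by simpa using hk' 0 (by omega)
  have RR : 0 < R ^ (κ + 1) := by positivity
  have tR := mul_pos τ0 R0
  obtain ⟨ε, hε, hs⟩ : ∃ ε : ℝ, (ε = 1 ∨ ε = -1) ∧ ε * |k| = k := by
    rcases le_total 0 k with h | h
    · exact ⟨1, Or.inl rfl, by rw [abs_of_nonneg h, one_mul]⟩
    · exact ⟨-1, Or.inr rfl, by rw [abs_of_nonpos h]; ring⟩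
  obtain ⟨f, f1, f2, f3⟩ := hCHN a a' m |k| (by linarith) (by linarith) (by linarith)
  have loc : ∀ x ∈ Set.Icc (0 : ℝ) ((κ + 3) * n), 0 ≤ m * x ∧ m * x ≤ R := fun x hx =>
    ⟨mul_nonneg (by linarith) hx.1, by
      calc m * x ≤ m * ((κ + 3) * (2 * τ ^ 5 * R)) := by
            refine mul_le_mul_of_nonneg_left (hx.2.trans ?_) (by linarith)
            gcongr
        _ = m * τ * (2 * (κ + 3) * τ) * τ ^ 3 * R := by ring
        _ ≤ 1 * 1 * 1 ^ 3 * R := by gcongr; linarith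
        _ = R := by ring⟩
  set u : ℝ := |k| / R ^ (κ + 1) with hu
  have u0 : 0 < u := by positivity
  have sg : (-1 : ℝ) ^ κ = -1 := by rw [hκ]; exact Odd.neg_one_pow ⟨J, rfl⟩
  have key : u * τ ^ 2 + u / (τ ^ (2 * κ + 5) * R) * n ≤ u / τ ^ (2 * κ + 1) := by
    have v1 : u / (τ ^ (2 * κ + 5) * R) * n ≤ u / (τ ^ (2 * κ + 5) * R) * (2 * τ ^ 5 * R) := by
      gcongr
    have v2 : u / (τ ^ (2 * κ + 5) * R) * (2 * τ ^ 5 * R) = (2 * τ) * (u / τ ^ (2 * κ + 1)) := by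
      field_simp; ring
    have v3 : u * τ ^ 2 = (τ ^ (2 * κ + 2) * τ) * (u / τ ^ (2 * κ + 1)) := by
      field_simp; ring
    have v4 : τ ^ (2 * κ + 2) * τ ≤ τ := mul_le_of_le_one_left τ0.le (pow_le_one₀ τ0.le τ4)
    have v5 : 0 < u / τ ^ (2 * κ + 1) := by positivity
    nlinarith
  have main := H f (u * τ ^ 2) (u / τ ^ (2 * κ + 3)) (u / (τ ^ (2 * κ + 5) * R)) τ n
    (fun j x hx => f1 j x hx.1)
    (fun x hx => by
      obtain ⟨l1, l2⟩ := loc x hx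
      have g1 : (1 : ℝ) ≤ κ.factorial := by exact_mod_cast κ.factorial_pos
      have g2 : (κ.factorial : ℝ) ≤ (κ + 1).factorial := by
        exact_mod_cast Nat.factorial_le κ.le_succ
      obtain ⟨l3, l4⟩ := SEG_up (x := a' + m * x) (y := a + m * x) (F := κ.factorial) (κ + 1) τ0 R0
        (by linarith) mτ (by linarith) (by linarith) (by linarith) (by nlinarith)
      have l5 := SEG_lo (x := a' + m * x) (y := a + m * x) κ τ0 R0 (by linarith) (by linarith)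
        (by linarith) (by linarith)
      have l6 := le_mul_of_one_le_left l3
        (one_le_mul_of_one_le_of_one_le (one_le_pow₀ (n := κ + 1) hm) g1)
      rw [f3, sg]
      refine ⟨le_of_eq_of_le ?_ ((mul_le_mul_of_nonneg_left (l5.trans l6) (abs_nonneg k)).trans_eq
        (by ring)), le_of_eq_of_le (by ring)
          ((mul_le_mul_of_nonneg_left l4 (abs_nonneg k)).trans_eq ?_)⟩ <;> rw [hu]
      · ring
      · field_simp
        ring)
    (fun x hx => by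
      obtain ⟨l1, l2⟩ := loc x hx
      obtain ⟨l3, l4⟩ := SEG_up (x := a' + m * x) (y := a + m * x) (F := (κ + 1).factorial)
        (κ + 1 + 1) τ0 R0 (by linarith) mτ (by linarith) (by linarith) (by positivity) (by linarith)
      rw [f3 (κ + 1), abs_mul, abs_sub_comm, abs_of_nonneg l3]
      simp only [abs_mul, abs_pow, abs_neg, abs_one, one_pow, abs_abs, Nat.abs_cast,
        abs_of_nonneg (show 0 ≤ m by linarith)]
      refine le_of_eq_of_le (by ring)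
        ((mul_le_mul_of_nonneg_left l4 (abs_nonneg k)).trans_eq ?_)
      rw [hu]
      field_simp
      ring)
    τ0 (by linarith) (by positivity)
    (by
      rw [div_le_iff₀ (by positivity), ← pow_add, hu, div_le_iff₀ RR]
      refine kR.trans ?_
      have v1 := hR' (b + (2 * κ + 3)) (by omega)
      have v2 : R ^ (κ + 1) = R * (R * R ^ (2 * J)) := by rw [hκ]; ring
      have v3 : 0 < R ^ (2 * J) := by positivity
      rw [v2, ← mul_assoc]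
      calc R ^ (2 * J) = 1 * (1 * R ^ (2 * J)) := by ring
        _ ≤ _ := by gcongr)
    (by
      have v1 := hR' (b + 5) (by omega)
      calc (1 : ℝ) ≤ τ ^ b * (τ ^ 5 * R) := by rw [← mul_assoc, ← pow_add]; exact v1
        _ ≤ _ := by gcongr)
    (by
      refine key.trans ?_
      have v1 := hk' (b + 5 * (κ + 1) + 4 + (2 * κ + 1)) (by omega)
      calc u / τ ^ (2 * κ + 1) = 1 * (u / τ ^ (2 * κ + 1)) := by ring
        _ ≤ (τ ^ (b + 5 * (κ + 1) + 4 + (2 * κ + 1)) * |k|) * (u / τ ^ (2 * κ + 1)) := by gcongr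
        _ = τ ^ b * (τ ^ 5 * R) ^ (κ + 1) * (u * τ ^ 2) ^ 2 := by
            have : |k| = u * R ^ (κ + 1) := by rw [hu]; field_simp
            rw [this]; field_simp; ring
        _ ≤ _ := by gcongr)
    (by
      have v1 := hR' (b + 9 + (2 * κ + 1) + (2 * κ + 3)) (by omega)
      calc _ ≤ u / τ ^ (2 * κ + 1) * (u / τ ^ (2 * κ + 3)) := by gcongr
        _ = 1 * (u / τ ^ (2 * κ + 1) * (u / τ ^ (2 * κ + 3))) := by ring
        _ ≤ (τ ^ (b + 9 + (2 * κ + 1) + (2 * κ + 3)) * R) *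
          (u / τ ^ (2 * κ + 1) * (u / τ ^ (2 * κ + 3))) := by gcongr
        _ = τ ^ b * (τ ^ 5 * R) * (u * τ ^ 2) ^ 2 := by field_simp; ring
        _ ≤ _ := by gcongr)
  refine le_trans (le_of_eq ?_) main
  rw [← SEG_norm (ε := ε) (fun t => f 0 t) hε]
  congr 1
  refine sum_congr rfl fun t _ => ?_
  rw [f2, ← mul_assoc, hs]

end Pool.Agent.P.MP_6f5b02_nt.Hy
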