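import Pool.Agent.P.MP_6f5b02_nt.Hy.IfM

/-! Step SEL. -/

namespace Pool.Agent.P.MP_6f5b02_nt.Hy

open Pool.Agent.P.MP_8be758_nt Pool.Agent.P.MP_8be758_nt.Pd
open Finset Real Filter
open Pool.Agent.P.MP_8be758_nt.Par (cj det)
open Pool.Agent.P.MP_6f5b02_nt.Hy.Par (nq mul eu un red)
open Pool.Agent.P.MP_6f5b02_nt.Hy.Mr

theorem SEL_tot (A : ℕ) (P Q : ℝ) : ∑ p ∈ PP P Q, (rho A p : ℝ) / p ≤
    4 * ∑ p ∈ (PP P Q).filter (fun p => 1 ≤ rho A p), 1 / ((p : ℝ) + 1) := by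
  rw [mul_sum, sum_filter]
  refine sum_le_sum fun p hp => ?_
  have hq : p.Prime := (mem_filter.1 hp).2.1
  have h1 : (1 : ℝ) ≤ p := by exact_mod_cast hq.one_le
  split_ifs with h
  · have h2 : (rho A p : ℝ) ≤ 2 := by exact_mod_cast rho_le_two hq
    rw [mul_one_div, div_le_div_iff₀ (by linarith) (by linarith)]
    nlinarith
  · have : rho A p = 0 := by omega
    simp [this]

theorem p_SEL (hTHUE : S_THUE) (hMER : S_MER) :
    S_SEL := by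
  classical
  intro A hA hA3
  obtain ⟨C0, hC0, hM⟩ := hMER A hA hA3
  have hT : ∀ p : ℕ, ∃ (β : ℕ) (g : V2), 1 ≤ β ∧ β ≤ 4 * A ∧
      (p.Prime → 1 ≤ rho A p → nq A g = β * p) := fun p => by
    by_cases h : p.Prime ∧ 1 ≤ rho A p
    · obtain ⟨β, g, h1, h2, h3⟩ := hTHUE A p (by omega) h.1 h.2
      exact ⟨β, g, h1, h2, fun _ _ => h3⟩
    · exact ⟨1, 0, le_rfl, by omega, fun h1 h2 => absurd ⟨h1, h2⟩ h⟩
  choose β g h1 h2 h3 using hT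
  set Cl : Finset (ℕ × V2) := Icc 1 (4 * A) ×ˢ bx ((4 * A) ^ 2) ×ˢ bx ((4 * A) ^ 2) with hCl
  set cls : ℕ → ℕ × V2 := fun p => (β p, (g p).1 % ((β p ^ 2 : ℕ) : ℤ),
    (g p).2 % ((β p ^ 2 : ℕ) : ℤ)) with hcls
  have hm : ∀ p, cls p ∈ Cl := fun p => by
    have a1 : (0 : ℤ) < ((β p ^ 2 : ℕ) : ℤ) := by exact_mod_cast pow_pos (h1 p) 2
    have a2 : ((β p ^ 2 : ℕ) : ℤ) ≤ (((4 * A) ^ 2 : ℕ) : ℤ) := by
      exact_mod_cast Nat.pow_le_pow_left (h2 p) 2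
    simp only [hCl, hcls, mem_product, mem_Icc, bx, mem_Ico]
    exact ⟨⟨h1 p, h2 p⟩, ⟨Int.emod_nonneg _ a1.ne', (Int.emod_lt_of_pos _ a1).trans_le a2⟩,
      Int.emod_nonneg _ a1.ne', (Int.emod_lt_of_pos _ a1).trans_le a2⟩
  have hne : Cl.Nonempty := ⟨_, hm 0⟩
  have hK : (0 : ℝ) < Cl.card := by exact_mod_cast hne.card_pos
  refine ⟨1 / (4 * Cl.card), C0 / (4 * Cl.card), by positivity, by positivity, ?_⟩
  intro P Q H hP hQ hH
  have hA' : (5 : ℝ) ≤ A := by exact_mod_cast hA3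
  have t1 := (abs_le.1 (hM P Q (by linarith) hQ).1).1
  have t2 := SEL_tot A P Q
  obtain ⟨y, hy, hb⟩ := exists_le_sum_fiber_of_maps_to_of_nsmul_le_sum
    (s := (PP P Q).filter fun p => 1 ≤ rho A p) (t := Cl) (f := cls)
    (w := fun p => 1 / ((p : ℝ) + 1))
    (b := 1 / (4 * Cl.card) * log (log Q / log P) - C0 / (4 * Cl.card)) (fun p _ => hm p) hne (by
      rw [nsmul_eq_mul]
      have : (Cl.card : ℝ) * (1 / (4 * Cl.card) * log (log Q / log P) - C0 / (4 * Cl.card)) =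
          (log (log Q / log P) - C0) / 4 := by field_simp
      rw [this]
      linarith)
  have hy1 := mem_Icc.1 (mem_product.1 hy).1
  refine ⟨⟨y.1, y.2, ((PP P Q).filter fun p => 1 ≤ rho A p).filter fun p => cls p = y, g, P, Q, H⟩,
    ⟨hy1.1, hy1.2, show (1 : ℝ) ≤ P by linarith, hQ, hH, fun p hp => ?_⟩, rfl, rfl, rfl, hb⟩
  obtain ⟨a1, rfl⟩ := mem_filter.1 hp
  obtain ⟨a2, a3⟩ := mem_filter.1 a1
  obtain ⟨a4, a5, a6⟩ := (mem_PP (by linarith)).1 a2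
  refine ⟨⟨a4, ?_, h3 p a4 a3⟩, a5, a6, (Int.mod_modEq _ _).symm, (Int.mod_modEq _ _).symm⟩
  exact_mod_cast (hP.trans_lt a5 : 4 * (A : ℝ) < p)

end Pool.Agent.P.MP_6f5b02_nt.Hy
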