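import Pool.Agent.P.MP_6f5b02_nt.Hy.IfM
import Pool.Agent.P.MP_6f5b02_nt.Hy.TLAT
import Pool.Agent.P.MP_8be758_nt.Pd.TSH0

/-! Step SH0. -/

namespace Pool.Agent.P.MP_6f5b02_nt.Hy

open Pool.Agent.P.MP_8be758_nt Pool.Agent.P.MP_8be758_nt.Pd
open Finset Real Filter
open Pool.Agent.P.MP_8be758_nt.Par (cj det)

theorem SH0_row {B : Finset V2} {u u' : V2} (hS : Cv B u) (h : det u u' = 1) {Y : ℝ} (hY : 0 ≤ Y)
    (hb : ∀ v ∈ B, |(det u v : ℝ)| ≤ Y) (t : ℤ) (g : V2 → ℂ) (hg : ∀ v, ‖g v‖ ≤ 1) :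
    ‖∑ v ∈ B, g (v + t • u) - ∑ v ∈ B, g v‖ ≤ 2 * ((2 * Y + 1) * |(t : ℝ)|) := by
  have e : ∑ v ∈ B, g (v + t • u) = ∑ v ∈ B.image (· + t • u), g v :=
    (sum_image fun x _ y _ e => add_right_cancel e).symm
  have t1 : (B.image (· + t • u) \ B).card ≤ (B.filter fun v => v + t • u ∉ B).card := by
    refine le_trans (card_le_card fun w hw => ?_) (card_image_le (f := (· + t • u)))
    obtain ⟨h2, h3⟩ := mem_sdiff.1 hw
    obtain ⟨v, hv, rfl⟩ := mem_image.1 h2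
    exact mem_image_of_mem _ (mem_filter.2 ⟨hv, h3⟩)
  have t2 : (B \ B.image (· + t • u)).card ≤ (B.filter fun v => v + (-t) • u ∉ B).card :=
    card_le_card fun w hw => mem_filter.2 ⟨(mem_sdiff.1 hw).1, fun c => (mem_sdiff.1 hw).2
      (mem_image.2 ⟨_, c, by simp⟩)⟩
  have c1 := (Nat.cast_le.2 t1).trans (row_cnt hS h hY hb t)
  have c2 := (Nat.cast_le.2 t2).trans (row_cnt hS h hY hb (-t))
  rw [Int.cast_neg, abs_neg] at c2
  rw [e, ← sum_sdiff_sub_sum_sdiff]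
  linarith [norm_sub_le (∑ v ∈ B.image (· + t • u) \ B, g v) (∑ v ∈ B \ B.image (· + t • u), g v),
    SH0_norm (B.image (· + t • u) \ B) g hg, SH0_norm (B \ B.image (· + t • u)) g hg]

theorem p_SH0 (_ : S_AREA) :
    S_SH0 := by
  intro A hA
  refine ⟨1208, by norm_num, fun N r d g hN hr d1 d2 hg => ?_⟩
  have s1 : 1 ≤ √N := one_le_sqrt.2 hN
  have r1 := SH0_row (An_cv hA cn_e 0 N) (u' := (0, 1)) rfl (by positivity)
    (fun v hv => (An_bd hA hv).1) (d.1 - 2 * d.2) (fun v => g (v + d.2 • (2, 1))) fun v => hg _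
  have r2 := SH0_row (An_cv hA (u := (2, 1)) (by decide) 0 N) (u' := (1, 1)) rfl (by positivity)
    (fun v hv => (An_bd hA hv).2) d.2 g hg
  have e : ∀ v : V2, v + (d.1 - 2 * d.2) • ((1, 0) : V2) + d.2 • ((2, 1) : V2) = v + d :=
    fun v => by ext <;> simp <;> ring
  simp only [e] at r1
  have b : |((d.1 - 2 * d.2 : ℤ) : ℝ)| ≤ 3 * r := by
    push_cast
    rw [abs_le] at d1 d2 ⊢
    constructor <;> linarith [d1.1, d1.2, d2.1, d2.2]
  have b1 := mul_le_mul (show 2 * (75 * √N) + 1 ≤ 151 * √N by linarith) b (abs_nonneg _)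
    (by positivity)
  have b2 := mul_le_mul (show 2 * (75 * √N) + 1 ≤ 151 * √N by linarith) d2 (abs_nonneg _)
    (by positivity)
  refine (norm_sub_le_norm_sub_add_norm_sub _ _ _).trans ((add_le_add r1 r2).trans ?_)
  linarith

end Pool.Agent.P.MP_6f5b02_nt.Hy
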