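import Pool.Agent.P.MP_6f5b02_nt.Hy.IfG
import Pool.Agent.P.MP_8be758_nt.Pd.TSVP

/-! Step SVP. -/

namespace Pool.Agent.P.MP_6f5b02_nt.Hy

open Pool.Agent.P.MP_8be758_nt Pool.Agent.P.MP_8be758_nt.Pd
open Finset Real Filter
open Pool.Agent.P.MP_8be758_nt.Par (det)

theorem SVP_low (hL1 : S_L1) (hLB : S_LB) {A p : ℕ} (hA : 5 ≤ A) (hp : p.Prime) (h4 : 4 * A < p)
    (u : Fin 6 → V2) (hu : ∀ i, ¬((p : ℤ) ∣ (u i).1 ∧ (p : ℤ) ∣ (u i).2)) (F : Fm → ℝ)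
    (hF : ∀ φ, 0 ≤ F φ) (h1 : ∀ φ, (∀ i, ¬(p : ℤ) ∣ ev φ (u i)) → F φ = 1) :
    1 - 12 / (p : ℝ) ≤ S4.av (p ^ 2) fun g => F (act (Q0 A) g) := by
  have hb := (hLB A p (Q0 A) (Fin 6) univ u (fun _ => 1) hA (isF_Q0 A) hp h4 (by simp)
    fun i _ => ⟨zero_le_one, le_rfl, hu i⟩).1
  have hr : (rho A p : ℝ) ≤ 2 := by
    exact_mod_cast (hL1 A p (Q0 A) (u 0) hA (isF_Q0 A) hp h4 (hu 0)).1
  have hp0 : (0 : ℝ) < p := by exact_mod_cast hp.pos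
  refine le_trans ?_ (hb.trans (S4.av_mono _ fun g _ => ?_))
  · have : (rho A p : ℝ) / p ≤ 2 / p := div_le_div_of_nonneg_right hr hp0.le
    have e : (12 : ℝ) / p = 2 / p * 6 := by ring
    simp only [sum_const, card_univ, Fintype.card_fin, nsmul_eq_mul, mul_one]
    push_cast
    linarith
  · by_cases h : ∀ i, ¬(p : ℤ) ∣ ev (act (Q0 A) g) (u i)
    · rw [h1 _ h]
      exact prod_le_one (fun i _ => by linarith [ind_le_one ((p : ℤ) ∣ ev (act (Q0 A) g) (u i))])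
        fun i _ => by linarith [ind_nonneg ((p : ℤ) ∣ ev (act (Q0 A) g) (u i))]
    · push Not at h
      obtain ⟨i, hi⟩ := h
      rw [prod_eq_zero (mem_univ i) (by rw [ind_pos hi]; ring)]
      exact hF _

theorem SVP_vec {ρ : Pr} (hb : St.Big ρ.toSt 1) (hy : 1 ≤ ρ.y) {q : ℕ × ℕ × ℕ} {D1 D2 : ℕ}
    (hq : ρ.QR q) (hD : ρ.DA D1 D2) {σ : Sd} (hσ : σ ∈ ρ.SD q D1 D2) {p : ℕ} (hp : p ∈ ρ.Ps)
    (a : ¬p ∣ D1 * D2) : ¬(p : ℤ) ∣ σ.ut.2 ∧ ¬(p : ℤ) ∣ σ.us.1 := by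
  obtain ⟨e, s1, s2, -⟩ := (mem_SD (DA_pos hD).1 (DA_pos hD).2).1 hσ
  obtain ⟨-, -, -, -, -, -, b1, b2, b3, b4, -⟩ := hb
  obtain ⟨hpp, -, hpy⟩ := (mem_PP (by linarith)).1 hp
  obtain ⟨q1, q3, q4⟩ := hq
  rw [← e] at q1 q3 q4
  have k : ∀ {r k : ℕ} {Y : ℝ}, r ∈ PP (ρ.y ^ k) Y → 1 ≤ k → ¬p ∣ r := by
    intro r k Y hr hk hd
    have e1 := (Nat.prime_dvd_prime_iff_eq hpp (prime_of_PP hr)).1 hd
    have e2 := lt_of_PP hr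
    have e3 : ρ.y ≤ ρ.y ^ k := le_self_pow₀ hy (by omega)
    rw [← e1] at e2
    linarith
  have n1 : ¬p ∣ σ.q1 := k q1 (by omega)
  have n3 : ¬p ∣ σ.q3 := k q3 (by omega)
  have n4 : ¬p ∣ σ.q4 := k (k := 1) (by rw [pow_one]; exact q4) le_rfl
  have m1 : ¬p ∣ σ.e1 * σ.a1 := fun h => a ((h.trans s1).mul_right _)
  have m2 : ¬p ∣ σ.e2 * σ.a2 := fun h => a ((h.trans s2).mul_left _)
  simp only [Sd.ut, Sd.us, Sd.E1, Sd.E2, Int.natCast_dvd_natCast]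
  rw [show σ.e1 * σ.q3 * σ.a1 = σ.e1 * σ.a1 * σ.q3 by ring,
    show σ.e2 * σ.q4 * σ.a2 * σ.q1 = σ.e2 * σ.a2 * σ.q4 * σ.q1 by ring]
  exact ⟨fun h => ((Nat.Prime.dvd_mul hpp).1 h).elim m1 n3, fun h =>
    ((Nat.Prime.dvd_mul hpp).1 h).elim (fun h => ((Nat.Prime.dvd_mul hpp).1 h).elim m2 n4) n1⟩

theorem p_SVP (hL1 : S_L1) (hLB : S_LB) (_hSDS : S_SDS) :
    S_SVP := by
  refine ⟨1, fun A C1 => ⟨1, le_rfl, fun z _ _ hb => ?_⟩⟩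
  filter_upwards [eventually_ge_atTop (1 : ℝ)] with y hy
  intro q D1 D2 θ θ' hq hD t0 t1 t2 t3 σ hσ τ hτ p hp
  have hpp := prime_of_PP hp
  have hA : 5 ≤ z.A := by have := hb.2.1; omega
  have h4 : 4 * z.A < p := by
    have h1 : ((z.w : ℕ) : ℝ) < p := lt_of_PP hp
    have h2 : z.w < p := by exact_mod_cast h1
    have := hb.2.2.2.1
    omega
  have n1 : ¬(p : ℤ) ∣ 1 := fun h => hpp.one_lt.ne' (Nat.dvd_one.1 (by exact_mod_cast h))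
  have key : ∀ σ ∈ Pr.SD ⟨z, y⟩ q D1 D2, ∀ τ ∈ Pr.SD ⟨z, y⟩ q D1 D2, ¬p ∣ D1 * D2 →
      ∀ i, ¬((p : ℤ) ∣ ((![(1, 0), (0, 1), σ.ut, σ.us, τ.ut, τ.us] : Fin 6 → V2) i).1 ∧
        (p : ℤ) ∣ ((![(1, 0), (0, 1), σ.ut, σ.us, τ.ut, τ.us] : Fin 6 → V2) i).2) := by
    intro σ hσ τ hτ a i
    have v1 := SVP_vec (ρ := ⟨z, y⟩) hb hy hq hD hσ hp a
    have v2 := SVP_vec (ρ := ⟨z, y⟩) hb hy hq hD hτ hp a
    fin_cases i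
    · exact fun h => n1 h.1
    · exact fun h => n1 h.2
    · exact fun h => v1.1 h.2
    · exact fun h => v1.2 h.1
    · exact fun h => v2.1 h.2
    · exact fun h => v2.2 h.1
  refine ⟨SVP_per θ _ σ p _, SVP_bd t0 t1 _ σ p, fun hn => ?_, fun hn => ?_⟩
  · have a : ¬p ∣ D1 * D2 := fun h => hn (Dvd.dvd.mul_right (by exact_mod_cast h) _)
    have b : ¬(p : ℤ) ∣ σ.af := fun h => hn (h.mul_left _)
    refine SVP_low hL1 hLB hA hpp h4 _ (key σ hσ σ hσ a)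
      (fun φ => Pr.al D1 D2 p φ * Pr.fv θ (D1 * D2) σ p φ)
      (fun φ => mul_nonneg (SVP_al _ _ _ _) (SVP_bd t0 t1 _ σ p φ).1) fun φ h => ?_
    rw [SVP_alone hpp a (h 0) (h 1), SVP_one hpp a b (h 2) (h 3), one_mul]
  · have a : ¬p ∣ D1 * D2 := fun h =>
      hn (Dvd.dvd.mul_right (Dvd.dvd.mul_right (by exact_mod_cast h) _) _)
    have b : ¬(p : ℤ) ∣ σ.af := fun h => hn ((h.mul_left _).mul_right _)
    have b' : ¬(p : ℤ) ∣ τ.af := fun h => hn (h.mul_left _)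
    refine SVP_low hL1 hLB hA hpp h4 _ (key σ hσ τ hτ a)
      (fun φ => Pr.al D1 D2 p φ * (Pr.fv θ (D1 * D2) σ p φ * Pr.fv θ' (D1 * D2) τ p φ))
      (fun φ => mul_nonneg (SVP_al _ _ _ _)
        (mul_nonneg (SVP_bd t0 t1 _ σ p φ).1 (SVP_bd t2 t3 _ τ p φ).1)) fun φ h => ?_
    rw [SVP_alone hpp a (h 0) (h 1), SVP_one hpp a b (h 2) (h 3), SVP_one hpp a b' (h 4) (h 5)]
    norm_num

end Pool.Agent.P.MP_6f5b02_nt.Hy
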