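import Pool.Agent.P.MP_6f5b02_nt.Hy.IfN

/-! Step TB. -/

namespace Pool.Agent.P.MP_6f5b02_nt.Hy

open Pool.Agent.P.MP_8be758_nt Pool.Agent.P.MP_8be758_nt.Pd
open Finset Real Filter
open Pool.Agent.P.MP_8be758_nt.Par (det)
open scoped Classical

theorem TB_gl (hGL : S_GL) : ∃ c : ℕ, ∀ (ρ : Pr) (N : ℝ) (D1 D2 : ℕ), 5 ≤ ρ.A → 4 * ρ.A ≤ ρ.w →
    24 ≤ ρ.w → 2 ≤ ρ.y → 4 * ρ.K + 2 * c ≤ ρ.K' → ρ.Fam 1 ρ.E N →
    (∀ p ∈ ρ.Ps, rho ρ.A p = 0 ∨ rho ρ.A p = 2) → ∑ p ∈ ρ.Ps, (1 : ℝ) / p ^ 2 ≤ 1 →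
    D1 ∈ SF ρ.w ρ.y (ρ.y ^ ρ.K) → D2 ∈ SF ρ.w ρ.y (ρ.y ^ ρ.K) → D1.Coprime D2 →
    ρ.si (D1 * D2 : ℕ) ≤ 1 →
    ((ρ.E.filter fun g => ρ.fl (ρ.fm g).1 = D1 ∧ ρ.fl (ρ.fm g).2.2 = D2).card : ℝ) ≤
      2 * N * (de ρ.A D1 * de ρ.A D2) * exp (54 - 2 * ρ.La) + ρ.y ^ c * ρ.Er 1 := by
  obtain ⟨c, hc⟩ := hGL
  refine ⟨c, fun ρ N D1 D2 hA hw hw' hy hK hF hr hs h1 h2 hco hsi => ?_⟩
  have hy1 : 1 ≤ ρ.y := by linarith
  have hy0 : 0 < ρ.y := by linarith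
  obtain ⟨a1, a2, a3⟩ := (mem_SF (by positivity)).1 h1
  obtain ⟨b1, b2, b3⟩ := (mem_SF (by positivity)).1 h2
  have hwA : (4 * ρ.A : ℝ) ≤ ρ.w := by exact_mod_cast hw
  set P := ρ.Ps.filter fun p => ¬p ∣ D1 * D2 with hP
  have hone : ∀ p : ℕ, p.Prime → ¬(p : ℤ) ∣ 1 := fun p hp h =>
    hp.one_lt.ne' (Nat.dvd_one.1 (by exact_mod_cast h))
  have hu : ∀ p : ℕ, p.Prime → ∀ i : Fin 2, ¬((p : ℤ) ∣ ((![(1, 0), (0, 1)] : Fin 2 → V2) i).1 ∧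
      (p : ℤ) ∣ ((![(1, 0), (0, 1)] : Fin 2 → V2) i).2) := fun p hp i => by
    fin_cases i
    · exact fun h => hone p hp h.1
    · exact fun h => hone p hp h.2
  have hEr : 0 ≤ ρ.Er 1 := by unfold Pr.Er Pr.X; positivity
  have key := hc ρ.A (Q0 ρ.A) (Fin 2) ![(1, 0), (0, 1)] ![D1, D2] 0 1 (fun _ _ => 1) P ρ.E ρ.y
    (ρ.y ^ (1 * ρ.K')) (ρ.Er 1) hA (isF_Q0 _) (by decide) (by simp) hy hEr
    (fun i => ⟨by
      fin_cases i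
      · exact ⟨a2, fun p hp => hwA.trans_lt (lt_of_PP (a3 hp))⟩
      · exact ⟨b2, fun p hp => hwA.trans_lt (lt_of_PP (b3 hp))⟩,
      fun p hp => hu p (Nat.prime_of_mem_primeFactors hp) i⟩)
    (fun i j hij => by fin_cases i <;> fin_cases j <;> simp at hij ⊢)
    (fun p hp => by
      obtain ⟨c1, c2⟩ := mem_filter.1 hp
      obtain ⟨d1, d2, d3⟩ := (mem_PP hy0.le).1 c1
      have d4 : ρ.w < p := by exact_mod_cast d2
      refine ⟨d1, by omega, by omega, d3, fun i => ?_,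
        fun i => ⟨zero_le_one, le_rfl, fun _ => hu p d1 i⟩, fun i j hij _ _ => ?_⟩
      · fin_cases i
        · exact fun h => c2 (Dvd.dvd.mul_right h _)
        · exact fun h => c2 (Dvd.dvd.mul_left h _)
      · fin_cases i <;> fin_cases j <;> simp [det] at hij ⊢ <;> exact hone p d1)
    hF.1 (by
      rw [Fin.prod_univ_two]
      simp only [Matrix.cons_val_zero, Matrix.cons_val_one, Nat.cast_mul]
      calc ((D1 : ℝ) * D2) ^ 2 * ρ.y ^ (2 * c) ≤ (ρ.y ^ ρ.K * ρ.y ^ ρ.K) ^ 2 * ρ.y ^ (2 * c) := by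
            gcongr
        _ = ρ.y ^ (4 * ρ.K + 2 * c) := by ring
        _ ≤ _ := pow_le_pow_right₀ hy1 (by omega))
  simp only [Fin.prod_univ_two, Fin.sum_univ_two, Matrix.cons_val_zero, Matrix.cons_val_one,
    one_mul] at key
  have e1 : ∀ φ : Fm, ev φ (1, 0) = φ.1 := fun φ => by simp [ev]
  have e2 : ∀ φ : Fm, ev φ (0, 1) = φ.2.2 := fun φ => by simp [ev]
  have e3 : det ((1, 0) : V2) (0, 1) = 1 := by simp [det]
  simp only [e1, e2, e3, Int.gcd_one_right, Nat.cast_one, mul_one] at key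
  refine le_trans ?_ (key.trans (add_le_add ?_ le_rfl))
  · rw [card_eq_sum_ones, Nat.cast_sum]
    refine le_trans (le_of_eq (sum_congr rfl fun g hg => ?_)) (sum_le_sum_of_subset_of_nonneg
      (filter_subset _ _) fun g _ _ => mul_nonneg (mul_nonneg (ind_nonneg _) (ind_nonneg _))
        (prod_nonneg fun p _ => mul_nonneg (sub_nonneg.2 (ind_le_one _))
          (sub_nonneg.2 (ind_le_one _))))
    obtain ⟨-, g1, g2⟩ := mem_filter.1 hg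
    have f1 : (D1 : ℤ) ∣ (act (Q0 ρ.A) g).1 := g1 ▸ fl_dvd ρ _
    have f2 : (D2 : ℤ) ∣ (act (Q0 ρ.A) g).2.2 := g2 ▸ fl_dvd ρ _
    rw [ind_pos f1, ind_pos f2, prod_eq_one fun p hp => ?_]
    · simp
    obtain ⟨c1, c2⟩ := mem_filter.1 hp
    have n1 : ¬(p : ℤ) ∣ (act (Q0 ρ.A) g).1 := fun h => c2 (Dvd.dvd.mul_right
      (g1 ▸ (dvd_fl (prime_of_PP c1)).2 (mem_pf.2 ⟨c1, h⟩)) _)
    have n2 : ¬(p : ℤ) ∣ (act (Q0 ρ.A) g).2.2 := fun h => c2 (Dvd.dvd.mul_left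
      (g2 ▸ (dvd_fl (prime_of_PP c1)).2 (mem_pf.2 ⟨c1, h⟩)) _)
    rw [ind_neg n1, ind_neg n2]
    simp
  · have s1 : ∑ p ∈ P, (1 : ℝ) / p ^ 2 ≤ 1 :=
      (sum_le_sum_of_subset_of_nonneg (filter_subset _ _) fun _ _ _ => by positivity).trans hs
    have s2 : ρ.La ≤ ∑ p ∈ P, (rho ρ.A p : ℝ) / p + 2 := by
      rw [Pr.La, ← sum_filter_add_sum_filter_not ρ.Ps fun p => ¬p ∣ D1 * D2]
      refine add_le_add le_rfl (le_trans ?_ (by linarith : 2 * ρ.si (D1 * D2 : ℕ) ≤ 2))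
      have e : (ρ.Ps.filter fun p => ¬¬p ∣ D1 * D2) = ρ.pf (D1 * D2 : ℕ) :=
        filter_congr fun p _ => by rw [not_not, Int.natCast_dvd_natCast]
      rw [e, Pr.si, mul_sum]
      refine sum_le_sum fun p hp => ?_
      have : (rho ρ.A p : ℝ) ≤ 2 := by rcases hr p (mem_pf.1 hp).1 with h | h <;> simp [h]
      rw [mul_one_div]
      gcongr
    have s3 : ∑ p ∈ P, (rho ρ.A p : ℝ) / p * (1 + 1) = 2 * ∑ p ∈ P, (rho ρ.A p : ℝ) / p := by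
      rw [mul_sum]; exact sum_congr rfl fun _ _ => by ring
    have s4 := mul_nonneg (de_nonneg ρ.A D1) (de_nonneg ρ.A D2)
    have s5 : 0 ≤ N := (Nat.cast_nonneg _).trans hF.2
    have s6 := hF.2
    rw [s3]
    gcongr
    linarith

theorem TB_sum (ρ : Pr) (N CB R : ℝ) (hN : 0 ≤ N) (hR : 0 ≤ R) (hw : 1 ≤ ρ.w) (hy : 1 ≤ ρ.y)
    (hK : 1 ≤ ρ.K)
    (h1 : ∀ D1 ∈ SF ρ.w ρ.y (ρ.y ^ ρ.K), ∀ D2 ∈ SF ρ.w ρ.y (ρ.y ^ ρ.K), D1.Coprime D2 →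
      ρ.si (D1 * D2 : ℕ) ≤ 1 →
      ((ρ.E.filter fun g => ρ.fl (ρ.fm g).1 = D1 ∧ ρ.fl (ρ.fm g).2.2 = D2).card : ℝ) ≤
        2 * N * (de ρ.A D1 * de ρ.A D2) * exp (54 - 2 * ρ.La) + R)
    (h2 : ∑ D1 ∈ SF ρ.w ρ.y (ρ.y ^ ρ.K), ∑ D2 ∈ SF ρ.w ρ.y (ρ.y ^ ρ.K),
      ind (D1.Coprime D2) * (de ρ.A D1 * de ρ.A D2) *
        √(beta D1 D2 / 2 ^ (D1 * D2).primeFactors.card) ≤ CB * exp (3 / 2 * ρ.La)) :
    ((ρ.E.filter fun g => ρ.Typ (ρ.fm g) ∧ ¬ρ.Bg (ρ.fm g)).card : ℝ) ≤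
      2 * exp 54 * CB * N / √ρ.K + ρ.y ^ (2 * ρ.K) * R := by
  set S := SF ρ.w ρ.y (ρ.y ^ ρ.K) with hS
  set L := exp (ρ.La / 2) / √ρ.K with hL
  have hK0 : (0 : ℝ) < ρ.K := by exact_mod_cast hK
  have hL0 : 0 ≤ L := by positivity
  set T := (S ×ˢ S).filter fun D => D.1.Coprime D.2 ∧ ρ.si (D.1 * D.2 : ℕ) ≤ 1 ∧
    1 ≤ √(beta D.1 D.2 / 2 ^ (D.1 * D.2).primeFactors.card) * L with hT
  have hmap : ∀ g ∈ ρ.E.filter fun g => ρ.Typ (ρ.fm g) ∧ ¬ρ.Bg (ρ.fm g),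
      (ρ.fl (ρ.fm g).1, ρ.fl (ρ.fm g).2.2) ∈ T := fun g hg => by
    obtain ⟨-, ⟨⟨a1, a2, a3, a4, -, -, a7⟩, a8⟩, a9⟩ := mem_filter.1 hg
    have hsf : ∀ m : ℤ, (ρ.fl m : ℝ) ≤ ρ.y ^ ρ.K → ρ.fl m ∈ S := fun m hm =>
      (mem_SF (by positivity)).2 ⟨hm, squarefree_fl ρ m, by
        rw [primeFactors_fl]; exact filter_subset _ _⟩
    refine mem_filter.2 ⟨mem_product.2 ⟨hsf _ a3, hsf _ a4⟩,
      Nat.coprime_of_squarefree_mul a1, a7.trans ?_, ?_⟩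
    · have : (1 : ℝ) ≤ √ρ.w := one_le_sqrt.2 (by exact_mod_cast hw)
      exact div_le_one_of_le₀ this (by linarith)
    · have e : (ρ.fl (ρ.fm g).1 * ρ.fl (ρ.fm g).2.2).primeFactors.card =
          ρ.om ((ρ.fm g).1 * (ρ.fm g).2.2) := by
        rw [← fl_mul ρ a8, primeFactors_fl]; rfl
      simp only [e]
      have b1 := (not_le.1 a9).le
      have e2 : L = √(exp ρ.La / ρ.K) := by
        rw [sqrt_div (exp_pos _).le, ← exp_half]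
      rw [e2, ← sqrt_mul (by positivity), one_le_sqrt, div_mul_div_comm,
        one_le_div (by positivity)]
      have b2 := mul_le_mul_of_nonneg_right b1 (exp_pos ρ.La).le
      rw [mul_assoc, ← exp_add, neg_add_cancel, exp_zero, mul_one] at b2
      linarith
  have hcard : (S.card : ℝ) ≤ ρ.y ^ ρ.K := by
    refine le_trans ?_ (Nat.floor_le (by positivity : 0 ≤ ρ.y ^ ρ.K))
    exact_mod_cast (card_filter_le _ _).trans (by simp)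
  calc _ = ∑ D ∈ T, (((ρ.E.filter fun g => ρ.Typ (ρ.fm g) ∧ ¬ρ.Bg (ρ.fm g)).filter fun g =>
        (ρ.fl (ρ.fm g).1, ρ.fl (ρ.fm g).2.2) = D).card : ℝ) := by
        exact_mod_cast card_eq_sum_card_fiberwise hmap
    _ ≤ ∑ D ∈ T, (2 * N * exp (54 - 2 * ρ.La) * L * (ind (D.1.Coprime D.2) *
          (de ρ.A D.1 * de ρ.A D.2) * √(beta D.1 D.2 / 2 ^ (D.1 * D.2).primeFactors.card)) + R) := by
        refine sum_le_sum fun D hD => ?_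
        obtain ⟨d1, d2, d3, d4⟩ := mem_filter.1 hD
        obtain ⟨d5, d6⟩ := mem_product.1 d1
        refine le_trans (Nat.cast_le.2 (card_le_card fun g hg => ?_))
          ((h1 _ d5 _ d6 d2 d3).trans (add_le_add ?_ le_rfl))
        · obtain ⟨g1, g2⟩ := mem_filter.1 hg
          exact mem_filter.2 ⟨(mem_filter.1 g1).1, congrArg Prod.fst g2, congrArg Prod.snd g2⟩
        · have s4 := mul_nonneg (de_nonneg ρ.A D.1) (de_nonneg ρ.A D.2)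
          have := mul_le_mul_of_nonneg_left d4
            (show 0 ≤ 2 * N * (de ρ.A D.1 * de ρ.A D.2) * exp (54 - 2 * ρ.La) by positivity)
          rw [ind_pos d2]
          linarith
    _ ≤ ∑ D ∈ S ×ˢ S, (2 * N * exp (54 - 2 * ρ.La) * L * (ind (D.1.Coprime D.2) *
          (de ρ.A D.1 * de ρ.A D.2) * √(beta D.1 D.2 / 2 ^ (D.1 * D.2).primeFactors.card)) + R) :=
        sum_le_sum_of_subset_of_nonneg (filter_subset _ _) fun D _ _ => add_nonneg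
          (mul_nonneg (by positivity) (mul_nonneg (mul_nonneg (ind_nonneg _)
            (mul_nonneg (de_nonneg _ _) (de_nonneg _ _))) (sqrt_nonneg _))) hR
    _ ≤ 2 * N * exp (54 - 2 * ρ.La) * L * (CB * exp (3 / 2 * ρ.La)) + ρ.y ^ ρ.K * ρ.y ^ ρ.K * R := by
        rw [sum_add_distrib, ← mul_sum, sum_product, sum_const, card_product, nsmul_eq_mul,
          Nat.cast_mul]
        gcongr
    _ = _ := by
        have e : exp (54 - 2 * ρ.La) * exp (ρ.La / 2) * exp (3 / 2 * ρ.La) = exp 54 := by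
          rw [← exp_add, ← exp_add]; congr 1; ring
        rw [← e, hL]
        ring

theorem p_TB (hGL : S_GL) (hNEQ : S_NEQ) (hBETA4 : S_BETA4) (hLAM : S_LAM) :
    S_TB := by
  obtain ⟨c0, h0⟩ := TB_gl hGL
  obtain ⟨c1, h1⟩ := hNEQ 1
  obtain ⟨c2, h2⟩ := hLAM
  refine ⟨max (2 * c0 + 24) (max c1 c2), fun A C1 => ?_⟩
  obtain ⟨CN, hCN, h1⟩ := h1 A C1
  obtain ⟨CL, -, h2⟩ := h2 A C1
  by_cases hA : Odd A ∧ 5 ≤ A
  swap
  · exact ⟨1, le_rfl, fun z e _ hz => absurd ⟨e ▸ hz.1, e ▸ hz.2.1⟩ hA⟩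
  obtain ⟨CB, hCB, h3⟩ := hBETA4 A hA.1 hA.2
  refine ⟨2 * exp 54 * CB * CN + 1, le_add_of_nonneg_left (by positivity), fun z e1 e2 hz => ?_⟩
  have g1 := h1 z e1 e2 (hz.mono ((le_max_left _ _).trans (le_max_right _ _)))
  have g2 := h2 z e1 e2 (hz.mono ((le_max_right _ _).trans (le_max_right _ _)))
  subst e1
  obtain ⟨-, b2, b3, b4, b5, b6, b7, b8, b9, b10, b11, b12, -⟩ := hz.mono (le_max_left _ _)
  have k1 : z.k4 ≤ z.k5 := (Nat.le_mul_of_pos_left _ (by omega)).trans b10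
  have k2 : 4 * z.K + 2 * c0 ≤ z.K' := by nlinarith
  filter_upwards [g1, g2, eventually_ge_atTop 2, eventually_ge_atTop (z.w : ℝ),
    eventually_ge_atTop √(z.K : ℝ)] with y f1 f2 f3 f4 f5
  have hy1 : 1 ≤ y := by linarith
  have hX : 0 < Pr.X ⟨z, y⟩ := by unfold Pr.X; positivity
  have hw1 : (1 : ℝ) ≤ z.w := by exact_mod_cast (by omega : 1 ≤ z.w)
  have hF : Pr.Fam ⟨z, y⟩ 1 (Pr.E ⟨z, y⟩) (CN * Pr.X ⟨z, y⟩) := by
    refine f1 _ (Q0_mem (by omega)) _ _ _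
      (div_le_self hX.le (one_le_pow₀ hy1)) le_rfl (by change 0 ≤ 1 / z.C1; positivity) ?_ ?_
    · change 1 / z.C1 ≤ z.C1
      exact (div_le_one_of_le₀ b3 (by linarith)).trans b3
    · change z.C1 * _ ≤ 2 * (30 * z.C1 ^ 2) * _
      gcongr
      nlinarith
  have hEr : 0 ≤ y ^ c0 * Pr.Er ⟨z, y⟩ 1 := by unfold Pr.Er; positivity
  have hK0 : 0 < √(z.K : ℝ) := sqrt_pos.2 (by exact_mod_cast (by omega : 0 < z.K))
  refine (TB_sum ⟨z, y⟩ (CN * Pr.X ⟨z, y⟩) CB _ (by positivity) hEr (by change 1 ≤ z.w; omega) hy1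
    (by change 1 ≤ z.K; omega) (fun D1 d1 D2 d2 d3 d4 => h0 ⟨z, y⟩ _ D1 D2
      (by change 5 ≤ z.A; omega) b4 (by change 24 ≤ z.w; omega) f3 k2 hF f2.2.2.2.1
      (f2.2.2.2.2.2.1.trans (div_le_one_of_le₀ hw1 (by positivity))) d1 d2 d3 d4)
    (h3 z.w y _ (by exact_mod_cast b4) f4)).trans ?_
  have e3 : y ^ (2 * z.K) * (y ^ c0 * Pr.Er ⟨z, y⟩ 1) ≤ Pr.X ⟨z, y⟩ / √(z.K : ℝ) := by
    change y ^ (2 * z.K) * (y ^ c0 * (Pr.X ⟨z, y⟩ / y ^ (1 * z.K'))) ≤ _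
    rw [← mul_assoc, ← mul_div_assoc, div_le_div_iff₀ (by positivity) hK0]
    have : y ^ (2 * z.K) * y ^ c0 * √(z.K : ℝ) ≤ y ^ (1 * z.K') := by
      calc _ ≤ y ^ (2 * z.K) * y ^ c0 * y := by gcongr
        _ = y ^ (2 * z.K + c0 + 1) := by ring
        _ ≤ _ := pow_le_pow_right₀ hy1 (by omega)
    nlinarith
  change _ + y ^ (2 * z.K) * (y ^ c0 * Pr.Er ⟨z, y⟩ 1) ≤ _
  refine (add_le_add le_rfl e3).trans (le_of_eq ?_)
  ring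

end Pool.Agent.P.MP_6f5b02_nt.Hy
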