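import Pool.Agent.P.MP_6f5b02_nt.Hy.IfM

/-! Step THUE. -/

namespace Pool.Agent.P.MP_6f5b02_nt.Hy

open Pool.Agent.P.MP_8be758_nt Pool.Agent.P.MP_8be758_nt.Pd
open Finset Real Filter
open Pool.Agent.P.MP_8be758_nt.Par (cj det)
open Pool.Agent.P.MP_6f5b02_nt.Hy.Par (nq mul eu un red)
open Pool.Agent.P.MP_6f5b02_nt.Hy.Mr

theorem p_THUE (hRED : S_RED) :
    S_THUE := by
  intro A p hA hp h1
  obtain ⟨n, hn⟩ := card_pos.1 h1
  obtain ⟨m, hm⟩ := (mem_filter.1 hn).2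
  obtain ⟨ψ, h2, g, -, -, h3⟩ := hRED A (p, 2 * n + 1, m) hA
    ⟨by simp only; linear_combination 4 * hm, by simpa using hp.pos⟩
  have h5 : ev ψ g.1 = p := congrArg Prod.fst h3
  rw [eq_Q0 h2, ev_Q0] at h5
  exact ⟨1, g.1, le_rfl, by omega, by simpa using h5⟩

end Pool.Agent.P.MP_6f5b02_nt.Hy
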