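import Pool.Agent.P.MP_6f5b02_nt.Hy.IfM
import Pool.Agent.P.MP_8be758_nt.Pd.TTK

/-! Step TK. -/

namespace Pool.Agent.P.MP_6f5b02_nt.Hy

open Pool.Agent.P.MP_8be758_nt Pool.Agent.P.MP_8be758_nt.Pd
open Finset Real Filter
open Pool.Agent.P.MP_8be758_nt.Par (cj det)
open Pool.Agent.P.MP_6f5b02_nt.Hy.Par (nq mul eu un red)
open Pool.Agent.P.MP_6f5b02_nt.Hy.Mr

theorem p_TK (hOK : S_OK) (hDV : S_DV) :
    S_TK := by
  intro A σ G Mx err H hM he hq
  have hQ := H.one_le_Q
  have d := fun p (hp : p ∈ σ.S) => hDV A p (cj (σ.γ p)) (H.gp hp).1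
    (by rw [Par.nq_cj]; exact H.dvd_nq hp) (H.not_dvd_cj hp)
  have hp1 : ∀ p ∈ σ.S, (p : ℝ) ≤ σ.Q := fun p hp => (H.2.2.2.2.2 p hp).2.2.1
  have s1 : ∀ p ∈ σ.S, |∑ v ∈ G, ind (Dv A p (cj (σ.γ p)) v) - G.card * (1 / ((p : ℝ) + 1))| ≤
      err := fun p hp => by
    have := hq p _ (H.gp hp).1.pos (by nlinarith [hp1 p hp]) (d p hp).1 fun _ => TK_abs _
    simpa only [one_mul, (d p hp).2] using this
  simp only [St.om_eq, St.E]
  refine TK_var σ.S G (fun p v => ind (Dv A p (cj (σ.γ p)) v)) (fun p => 1 / ((p : ℝ) + 1)) err he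
    (fun p _ => by positivity) (fun p _ => ?_) (fun p hp => ?_) fun p hp q hq' => ?_
  · exact (div_le_one (by positivity)).2 (by linarith [(Nat.cast_nonneg p : (0 : ℝ) ≤ p)])
  · linarith [(abs_le.1 (s1 p hp)).1]
  · split_ifs with e
    · subst e
      have : ∀ v, ind (Dv A p (cj (σ.γ p)) v) * ind (Dv A p (cj (σ.γ p)) v) =
          ind (Dv A p (cj (σ.γ p)) v) := fun v => by rw [← ind_and, and_self]
      simp only [this]
      have : (0 : ℝ) ≤ G.card * (1 / ((p : ℝ) + 1) * (1 / ((p : ℝ) + 1))) := by positivity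
      linarith [(abs_le.1 (s1 p hp)).2]
    · obtain ⟨-, o1, o2⟩ := hOK.2.2.1
      have c := (Nat.coprime_primes (H.gp hp).1 (H.gp hq').1).2 e
      have k := hq (p * q)
        (fun v => ind (Dv A p (cj (σ.γ p)) v) * ind (Dv A q (cj (σ.γ q)) v))
        (Nat.mul_pos (H.gp hp).1.pos (H.gp hq').1.pos) (by
          push_cast
          refine le_trans ?_ hM
          rw [sq]
          exact mul_le_mul (hp1 p hp) (hp1 q hq') (Nat.cast_nonneg _) (by linarith))
        (fun v w h => by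
          have e1 := (d p hp).1 v w (o1 p _ (Dvd.intro _ rfl) v w h)
          have e2 := (d q hq').1 v w (o1 q _ (Dvd.intro_left _ rfl) v w h)
          simp only at e1 e2 ⊢
          rw [e1, e2])
        fun v => by rw [← ind_and]; exact TK_abs _
      rw [o2 p q _ _ (H.gp hp).1.pos (H.gp hq').1.pos c (d p hp).1 (d q hq').1, (d p hp).2,
        (d q hq').2] at k
      simp only [one_mul] at k
      linarith [(abs_le.1 k).2]

end Pool.Agent.P.MP_6f5b02_nt.Hy
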