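import Pool.Agent.P.MP_6f5b02_nt.Hy.IfE
import Pool.Agent.P.MP_8be758_nt.Pd.TTYP

/-! Step TYP. -/

namespace Pool.Agent.P.MP_6f5b02_nt.Hy

open Pool.Agent.P.MP_8be758_nt Pool.Agent.P.MP_8be758_nt.Pd
open Finset Real Filter
open Pool.Agent.P.MP_8be758_nt.Par (det)
open scoped Classical

theorem TYP_typ (ρ : Pr) (φ : Fm) (h1 : (ρ.fl φ.1 : ℝ) ≤ ρ.y ^ ρ.K ∧ (ρ.fl φ.2.2 : ℝ) ≤ ρ.y ^ ρ.K ∧
    ρ.si (φ.1 * φ.2.2) ≤ 1 / √ρ.w ∧ ∀ p ∈ ρ.Ps, ¬(p : ℤ) ^ 2 ∣ φ.1 * φ.2.2)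
    (h2 : 39 / 20 * ρ.La ≤ (ρ.om φ.1 + ρ.om φ.2.2 : ℕ) ∧
      ((ρ.om φ.1 + ρ.om φ.2.2 : ℕ) : ℝ) ≤ 41 / 20 * ρ.La) : ρ.Typ φ := by
  obtain ⟨a1, a2, a3, a4⟩ := h1
  have e1 : ρ.om (ρ.fl (φ.1 * φ.2.2)) = ρ.om φ.1 + ρ.om φ.2.2 := by
    rw [← om_mul ρ a4, Pr.om, pf_fl, Pr.om]
  have e2 : ρ.si (ρ.fl (φ.1 * φ.2.2)) = ρ.si (φ.1 * φ.2.2) := by rw [Pr.si, pf_fl, Pr.si]
  refine ⟨?_, a4⟩
  rw [Pr.DA, ← fl_mul ρ a4, primeFactors_fl, e1, e2]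
  exact ⟨squarefree_fl _ _, filter_subset _ _, a1, a2, h2.1, h2.2, a3⟩

theorem p_TYP (hTYP1 : S_TYP1) (hTYP2 : S_TYP2) (hTYP3 : S_TYP3) (hTB : S_TB) :
    S_TYP := by
  obtain ⟨c1, H1⟩ := hTYP1
  obtain ⟨c2, H2⟩ := hTYP2
  obtain ⟨c3, H3⟩ := hTYP3
  obtain ⟨c4, H4⟩ := hTB
  refine ⟨c1 + c2 + c3 + c4 + 3, fun A C1 => ?_⟩
  obtain ⟨D1, p1, H1⟩ := H1 A C1
  obtain ⟨_, -, H2⟩ := H2 A C1
  obtain ⟨D3, p3, H3⟩ := H3 A C1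
  obtain ⟨D4, p4, H4⟩ := H4 A C1
  refine ⟨D1 + 1 + 3 * D3 + D4, by linarith, fun z e1 e2 hb => ?_⟩
  filter_upwards [H1 z e1 e2 (hb.mono (by omega)), H2 z e1 e2 (hb.mono (by omega)),
    H3 z e1 e2 (hb.mono (by omega)), H4 z e1 e2 (hb.mono (by omega)), eventually_ge_atTop 1]
    with y h1 h2 h3 h4 hy r r1 r2 r3 r4
  obtain ⟨-, -, -, -, -, b6, b7, b8, b9, b10, b11, -, -⟩ := hb.mono (c := 1) (by omega)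
  have hX : 0 ≤ Pr.X ⟨z, y⟩ := by unfold Pr.X; positivity
  have m3 := Nat.mul_le_mul_right z.k3 r1
  have m5 := Nat.mul_le_mul_right z.k5 r1
  have hN : 0 ≤ D3 * Pr.X ⟨z, y⟩ := by positivity
  have n4 : z.k4 ≤ z.k6 := by omega
  have n2 : z.k2 ≤ z.k5 := by omega
  have g1 := (h3 z.k5 z.k6 (0, 1) (by omega) (by omega) le_rfl (.inr rfl)).trans
    (TYP_log hN r1 (by omega) r4)
  have g3 := (h3 z.k3 z.k4 (1, 0) (by omega) (by omega) n4 (.inl rfl)).trans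
    (TYP_log hN r1 (by omega) r3)
  have g4 := (h3 1 z.k2 (0, 1) le_rfl (by omega) (n2.trans b11) (.inr rfl)).trans
    (TYP_log hN r1 le_rfl (by omega))
  have hK : (1 : ℝ) ≤ z.K := by exact_mod_cast b6
  have k1 : 1 / (z.K : ℝ) ≤ 1 / √z.K :=
    one_div_le_one_div_of_le (sqrt_pos.2 (by linarith)) (sqrt_le_iff.2 ⟨by linarith, by nlinarith⟩)
  rw [div_eq_mul_one_div] at h4
  refine (TYP_card _ _ _ _ _ _ _ _ h1 (h2.trans_eq (div_eq_mul_one_div _ _)) h4 g1 g3 g4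
    fun g a1 a2 a3 a4 a5 a6 => not_not.2 ?_).trans (TYP_num p1 p3 p4 hX k1 (by positivity)
      (by positivity) (one_div_nonneg.2 (log_natCast_nonneg r)))
  have t := TYP_typ ⟨z, y⟩ _ (not_not.1 a1) (not_not.1 a2)
  exact ⟨t, not_not.1 fun e => a3 ⟨t, e⟩,
    TYP_q ⟨z, y⟩ _ hy n2 (not_not.1 a4) (not_not.1 a5) (not_not.1 a6)⟩

end Pool.Agent.P.MP_6f5b02_nt.Hy
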