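import Pool.Agent.P.MP_6f5b02_nt.Hy.IfE
import Pool.Agent.P.MP_8be758_nt.Pd.TTYP2

/-! Step TYP2. -/

namespace Pool.Agent.P.MP_6f5b02_nt.Hy

open Pool.Agent.P.MP_8be758_nt Pool.Agent.P.MP_8be758_nt.Pd
open Finset Real Filter
open Pool.Agent.P.MP_8be758_nt.Par (det)
open scoped Classical

theorem TYP2_mean (ρ : Pr) (h1 : ∀ p ∈ ρ.Ps, rho ρ.A p = 0 ∨ rho ρ.A p = 2)
    (h2 : ∑ p ∈ ρ.Ps, (1 : ℝ) / p ^ 2 ≤ 1 / 2) :
    ρ.La - 1 ≤ ∑ p ∈ ρ.Ps, (rho ρ.A p : ℝ) / (p + 1) ∧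
      ∑ p ∈ ρ.Ps, (rho ρ.A p : ℝ) / (p + 1) ≤ ρ.La := by
  have hp : ∀ p ∈ ρ.Ps, (0 : ℝ) < p := fun p hp => by exact_mod_cast (prime_of_PP hp).pos
  constructor
  · have : ρ.La ≤ ∑ p ∈ ρ.Ps, ((rho ρ.A p : ℝ) / (p + 1) + 2 * (1 / (p : ℝ) ^ 2)) := by
      refine sum_le_sum fun p h => ?_
      have h0 := hp p h
      rcases h1 p h with e | e <;> rw [e]
      · simp only [Nat.cast_zero, zero_div, zero_add]
        positivity
      · have e2 : ((2 : ℕ) : ℝ) / (p + 1) + 2 * (1 / (p : ℝ) ^ 2) - (2 : ℕ) / p =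
            2 / ((p : ℝ) ^ 2 * (p + 1)) := by
          push_cast
          field_simp
          ring
        have : (0 : ℝ) ≤ 2 / ((p : ℝ) ^ 2 * (p + 1)) := by positivity
        linarith
    rw [sum_add_distrib, ← mul_sum] at this
    linarith
  · exact sum_le_sum fun p h => div_le_div_of_nonneg_left (by positivity) (hp p h) (by linarith)

theorem p_TYP2 (hTK : S_TKE) (hLAM : S_LAM) :
    S_TYP2 := by
  obtain ⟨c1, h1⟩ := hTK
  obtain ⟨c2, h2⟩ := hLAM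
  refine ⟨max 3 (max c1 c2), fun A C1 => ⟨1, le_rfl, fun z e1 e2 hz => ?_⟩⟩
  obtain ⟨C, hC, k1⟩ := h1 A C1
  obtain ⟨D, hD, k2⟩ := h2 A C1
  obtain ⟨s1, -, -, -, s5, s6⟩ := hz.sizes (le_max_left _ _)
  have hk : 1 ≤ z.k6 := by
    obtain ⟨-, -, -, -, -, -, -, -, h9, h10, h11, -⟩ := hz.mono (le_max_left 3 _)
    omega
  have hw : (12 : ℝ) ≤ z.w := by exact_mod_cast s6
  have hl : 0 < D * log (z.w : ℝ) := mul_pos (by linarith) (log_pos (by linarith))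
  filter_upwards [k1 z e1 e2 (hz.mono ((le_max_left _ _).trans (le_max_right _ _))),
    k2 z e1 e2 (hz.mono ((le_max_right _ _).trans (le_max_right _ _))), eventually_ge_atTop 1,
    tendsto_log_atTop.eventually_ge_atTop (D * log (z.w : ℝ) * exp (10000 * C * z.K))]
    with y H ⟨_, _, l3, l4, _, l6, _⟩ hy hy'
  obtain ⟨m1, m2⟩ := TYP2_mean ⟨z, y⟩ l4
    (l6.trans (one_div_le_one_div_of_le (by norm_num) (by linarith)))
  have hQ : ∀ p ∈ Pr.Ps ⟨z, y⟩, p.Prime ∧ z.w < p ∧ (p : ℝ) ≤ y ^ z.k6 := fun p hp => by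
    obtain ⟨a1, a2, a3⟩ := (mem_PP (by simp only; linarith)).1 hp
    exact ⟨a1, by exact_mod_cast a2, a3.trans (le_self_pow₀ hy (by omega))⟩
  have ha := H _ (1, 0) (.inl rfl) hQ
  have hb := H _ (0, 1) (.inr rfl) hQ
  simp only [TYP2_om, ev, one_pow, mul_one, mul_zero, add_zero, zero_add, ne_eq, OfNat.ofNat_ne_zero,
    not_false_eq_true, zero_pow] at ha hb
  refine TYP2_cheb _ _ _ _ _ C _ _ hC (pow_nonneg (by simp only; linarith) _)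
    (by exact_mod_cast (by omega : 1 ≤ z.K)) ?_ m1 m2 ha hb
  exact exp_le_exp.1 (le_of_mul_le_mul_left (hy'.trans l3) hl)

end Pool.Agent.P.MP_6f5b02_nt.Hy
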