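import Pool.Agent.P.MP_6f5b02_nt.Hy.IfG2
import Pool.Agent.P.MP_8be758_nt.Pd.TVAR

/-! Step VAR. -/

namespace Pool.Agent.P.MP_6f5b02_nt.Hy

open Pool.Agent.P.MP_8be758_nt Pool.Agent.P.MP_8be758_nt.Pd
open Finset Real Filter
open Pool.Agent.P.MP_8be758_nt.Par (det)

theorem VAR_La (z : St) (C B : ℝ) (hC : 1 ≤ C) (hw : 2 ≤ z.w) : ∀ᶠ y : ℝ in atTop,
    log y ≤ C * log z.w * exp (Pr.La ⟨z, y⟩) → B ≤ Pr.La ⟨z, y⟩ := by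
  have l0 : 0 < log z.w := log_pos (by exact_mod_cast hw)
  filter_upwards [tendsto_log_atTop.eventually_ge_atTop (C * log z.w * exp B)] with y hy h
  exact exp_le_exp.1 (le_of_mul_le_mul_left (hy.trans h) (by positivity))

theorem VAR_mk {ρ : Pr} {q : ℕ × ℕ × ℕ} {D1 D2 : ℕ} (h : ρ.DA D1 D2) {σ : Sd}
    (hσ : σ ∈ ρ.SD q D1 D2) : (σ.e1, σ.a1) ∈ Asg D1 ∧ (σ.e2, σ.a2) ∈ Asg D2 ∧
      mkS q (σ.e1, σ.a1) (σ.e2, σ.a2) (σ.s, σ.t) = σ := by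
  obtain ⟨p1, p2⟩ := DA_pos h
  obtain ⟨rfl, b1, b2, -⟩ := (mem_SD p1 p2).1 hσ
  simp only [Asg, mem_filter, mem_product, Nat.mem_divisors]
  exact ⟨⟨⟨⟨dvd_of_mul_right_dvd b1, p1.ne'⟩, dvd_of_mul_left_dvd b1, p1.ne'⟩, b1⟩,
    ⟨⟨⟨dvd_of_mul_right_dvd b2, p2.ne'⟩, dvd_of_mul_left_dvd b2, p2.ne'⟩, b2⟩, by simp [mkS]⟩

theorem p_VAR (hLOW : S_LOW) (hPAIR : S_PAIR) (hFS : S_FS) (hPSA : S_PSA) (hPSB : S_PSB) (hMB : S_MB) (hSDS : S_SDS) (hCYC : S_CYC) (hLAM : S_LAM) :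
    S_VAR := by
  obtain ⟨c1, h1⟩ := hLOW
  obtain ⟨c2, h2⟩ := hPAIR
  obtain ⟨c3, h3⟩ := hFS
  obtain ⟨c4, h4⟩ := hPSA
  obtain ⟨c5, h5⟩ := hPSB
  obtain ⟨c6, h6⟩ := hMB
  obtain ⟨c7, h7⟩ := hSDS
  obtain ⟨c8, h8⟩ := hCYC
  obtain ⟨c9, h9⟩ := hLAM
  refine ⟨c1 + c2 + c3 + c4 + c5 + c6 + c7 + c8 + c9 + 1, fun A C1 => ?_⟩
  obtain ⟨B1, a1, h1⟩ := h1 A C1
  obtain ⟨B2, a2, h2⟩ := h2 A C1
  obtain ⟨B3, a3, h3⟩ := h3 A C1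
  obtain ⟨B4, a4, h4⟩ := h4 A C1
  obtain ⟨B5, -, h5⟩ := h5 A C1
  obtain ⟨B6, a6, h6⟩ := h6 A C1
  obtain ⟨B7, -, h7⟩ := h7 A C1
  obtain ⟨B8, -, h8⟩ := h8 A C1
  obtain ⟨B9, a9, h9⟩ := h9 A C1
  refine ⟨3 * (B1 + B2) * B6 ^ 2 + (1 + 2 * (B1 + B2)) * (B4 + 1) + B3,
    le_add_of_nonneg_of_le (by positivity) a3, fun z zA zC big => ?_⟩
  have w12 : 12 ≤ z.w := by have := big.2.1; have := big.2.2.2.1; omega
  have K1 : 1 ≤ z.K' := by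
    obtain ⟨-, -, -, -, -, -, b7, b8, b9, b10, b11, b12, -⟩ := big
    have := (Nat.le_mul_of_pos_left _ (by omega)).trans b8
    have := (Nat.le_mul_of_pos_left _ (by omega)).trans b10
    omega
  filter_upwards [h1 z zA zC (big.mono (by omega)), h2 z zA zC (big.mono (by omega)),
    h3 z zA zC (big.mono (by omega)), h4 z zA zC (big.mono (by omega)),
    h5 z zA zC (big.mono (by omega)), h6 z zA zC (big.mono (by omega)),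
    h7 z zA zC (big.mono (by omega)), h8 z zA zC (big.mono (by omega)),
    h9 z zA zC (big.mono (by omega)), VAR_La z B9 (25 * log √z.w) a9 (by omega),
    eventually_ge_atTop (2 + 2 * (B6 * 2 ^ z.U))] with y h1 h2 h3 h4 h5 h6 h7 h8 h9 hL hy
  intro q D1 D2 c0 hAD
  set ρ : Pr := ⟨z, y⟩
  have U0 : 0 ≤ B6 * 2 ^ z.U := by positivity
  have y1 : 1 ≤ ρ.y := by show 1 ≤ y; linarith
  have X0 : 0 ≤ ρ.X := pow_nonneg (by linarith) _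
  have Er0 : ∀ k, 0 ≤ ρ.Er k := fun k => div_nonneg X0 (pow_nonneg (by linarith) _)
  have sw : (1 : ℝ) ≤ √ρ.w := one_le_sqrt.2 (by exact_mod_cast (by omega : 1 ≤ z.w))
  have ep1 : 1 / √ρ.w ≤ ρ.ep := le_add_of_nonneg_left (by positivity)
  have ep0 : 0 ≤ ρ.ep := le_trans (by positivity) ep1
  have ep2 : ρ.ep ≤ 2 := by
    have e1 : (1 : ℝ) / 2 ^ ρ.K' ≤ 1 := div_le_self zero_le_one (one_le_pow₀ one_le_two)
    have e2 : 1 / √ρ.w ≤ 1 := div_le_self zero_le_one sw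
    unfold Pr.ep
    linarith
  rcases (ρ.AT q D1 D2 c0).eq_empty_or_nonempty with he | hne
  · rw [he]
    simpa using Er0 19
  obtain ⟨-, s2, -, s4, -⟩ := h7 q D1 D2 hAD.1 hAD.2.1
  obtain ⟨-, mU⟩ := h6 q D1 D2 c0 hAD hne
  have La0 : 0 ≤ ρ.La := sum_nonneg fun _ _ => by positivity
  have Mw0 : ∀ σ ∈ ρ.SD q D1 D2, 0 ≤ ρ.Mw (D1 * D2) σ := fun σ hσ => by
    refine mul_nonneg (mul_nonneg (by positivity) (prod_nonneg fun p hp => ?_))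
      ((s4 σ hσ).2.2.2.2.2.2.2.2 _ (by norm_num)).1
    have hp := (mem_filter.1 hp).1
    have p12 : (12 : ℝ) ≤ p := le_trans (by exact_mod_cast w12) (lt_of_PP hp).le
    have r2 : (rho ρ.A p : ℝ) ≤ 2 := by
      show (rho z.A p : ℝ) ≤ 2
      rcases h9.2.2.2.1 p hp with e | e <;> rw [e] <;> norm_num
    rw [sub_nonneg, div_le_one (by linarith)]
    linarith
  have diag : ∑ σ ∈ ρ.SD q D1 D2, ∑ g ∈ ρ.AT q D1 D2 c0, ρ.cv (1 / 6) σ g * ρ.cv (1 / 6) σ g ≤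
      B3 * 2 ^ ρ.U * ρ.ep * exp (-5 * ρ.La) * (ρ.AT q D1 D2 c0).card + ρ.Er 24 := by
    have f := h3 q D1 D2 c0 (1 / 36) 1 hAD (by norm_num) (by norm_num) (Or.inl rfl)
    have e : ∀ σ ∈ ρ.SD q D1 D2, ∀ g ∈ ρ.AT q D1 D2 c0, ρ.cv (1 / 6) σ g * ρ.cv (1 / 6) σ g =
        (1 / 3) ^ ρ.om (D1 * D2 : ℕ) * (ρ.cv (1 / 36) σ g *
          ind (((1 : ℕ) : ℤ) ∣ (ρ.cy (g, σ)).Nt * (ρ.cy (g, σ)).Ns)) := fun σ hσ g hg => by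
      obtain ⟨k1, k2, k3⟩ := VAR_mk hAD.2.1 hσ
      have := (h8 q D1 D2 c0 hAD g hg _ k1 _ k2 (σ.s, σ.t)).2.2.2.2.1
      rw [k3] at this
      have eo : ρ.om ((ρ.cy (g, σ)).P * (ρ.cy (g, σ)).R * (ρ.cy (g, σ)).a) = ρ.om (D1 * D2 : ℕ) :=
        congrArg card this
      have ii := ind_and (ρ.Val (ρ.cy (g, σ))) (ρ.Val (ρ.cy (g, σ)))
      rw [and_self] at ii
      rw [ind_pos (by simp), Pr.cv, Pr.cv, Pr.cw, Pr.cw, eo, mul_mul_mul_comm, ← ii,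
        show (1 / 36 : ℝ) = 1 / 6 * (1 / 6) by norm_num, mul_pow]
      ring
    rw [sum_congr rfl fun σ hσ => sum_congr rfl (e σ hσ)]
    simp only [← mul_sum]
    refine (mul_le_mul_of_nonneg_left f (by positivity)).trans ?_
    have t1 := VAR_third La0 hAD.2.1.2.2.2.2.1
    have t2 : exp (-(1 / 25) * ρ.La) ≤ 1 / √ρ.w := by
      have := hL h9.2.2.1
      rw [one_div √_, ← exp_log (show 0 < √(ρ.w : ℝ) by linarith), ← exp_neg]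
      exact exp_le_exp.2 (by linarith)
    have t3 := t1.trans (mul_le_mul_of_nonneg_right (t2.trans ep1) (exp_pos _).le)
    have t4 : (1 / 3 : ℝ) ^ ρ.om (D1 * D2 : ℕ) ≤ 1 := pow_le_one₀ (by norm_num) (by norm_num)
    have t5 : 0 ≤ B3 * 2 ^ ρ.U * ((ρ.AT q D1 D2 c0).card : ℝ) := by positivity
    rw [Nat.cast_one, div_one]
    nlinarith [mul_le_mul_of_nonneg_left t3 t5, mul_le_mul_of_nonneg_right t4 (Er0 24)]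
  have Z0 : (0 : ℝ) ≤ (ρ.AT q D1 D2 c0).card := Nat.cast_nonneg _
  have m0 : ∀ σ ∈ ρ.SD q D1 D2, 0 ≤ ind (σ.GW0 ρ.w (ρ.fm c0)) * ρ.Mw (D1 * D2) σ := fun σ hσ =>
    mul_nonneg (ind_nonneg _) (Mw0 σ hσ)
  have cor1 : ∀ σ ∈ ρ.SD q D1 D2, ∀ τ : Sd, 1 ≤ σ.dl τ * ρ.En (D1 * D2) σ τ := fun σ hσ τ => by
    refine one_le_mul_of_one_le_of_one_le ?_ (Finset.one_le_prod fun p _ =>
      le_add_of_nonneg_right (mul_nonneg (by positivity) (ind_nonneg _)))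
    have := (s4 σ hσ).2.1
    exact_mod_cast Int.gcd_pos_of_ne_zero_left _
      (by exact_mod_cast (Int.gcd_pos_of_ne_zero_left _ this.ne').ne')
  have key := VAR_core (ρ.AT q D1 D2 c0) (ρ.SD q D1 D2) (ρ.cv (1 / 6))
    (fun σ => ind (σ.GW0 ρ.w (ρ.fm c0)) * ρ.Mw (D1 * D2) σ) (ρ.Mw (D1 * D2))
    (fun σ τ => σ.dl τ * ρ.En (D1 * D2) σ τ) (fun σ τ => (σ.dl τ : ℝ) ≤ ρ.y) ((B1 + B2) * ρ.ep)
    (ρ.Er 29) (ρ.Er 28) _ _ _ (by positivity) (Er0 _)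
    (fun σ hσ => le_trans (by
      have := m0 σ hσ
      gcongr
      linarith) (h1 q D1 D2 c0 hAD σ hσ))
    (fun σ hσ τ hτ => (h2 q D1 D2 c0 hAD σ hσ τ hτ).trans (by
      have := mul_nonneg (mul_nonneg (m0 σ hσ) (m0 τ hτ)) (zero_le_one.trans (cor1 σ hσ τ))
      gcongr
      linarith))
    diag (fun σ hσ => ⟨m0 σ hσ, mul_le_of_le_one_left (Mw0 σ hσ) (ind_le_one _)⟩)
    (fun σ hσ τ _ => cor1 σ hσ τ) (h4 q D1 D2 hAD.1 hAD.2.1)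
    (by simpa only [not_le] using h5 q D1 D2 hAD.1 hAD.2.1)
  refine key.trans ?_
  change _ * (_ * ρ.MM q D1 D2 c0 ^ 2 + _) + _ + _ + 2 * ρ.MM q D1 D2 c0 * _ ≤ _
  have M0 : 0 ≤ ρ.MM q D1 D2 c0 := sum_nonneg m0
  set M := ρ.MM q D1 D2 c0
  set μ := exp (-5 * ρ.La) with hμ
  have μ0 : 0 ≤ μ := (exp_pos _).le
  have M1 : M ≤ B6 * 2 ^ ρ.U := mU.trans (mul_le_of_le_one_right U0 (exp_le_one_iff.2 (by linarith)))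
  have M2 : M ^ 2 ≤ B6 ^ 2 * 4 ^ ρ.U * μ := by
    refine (pow_le_pow_left₀ M0 mU 2).trans_eq ?_
    rw [mul_pow, mul_pow, ← exp_nat_mul, ← pow_mul, mul_comm ρ.U, pow_mul, hμ]
    congr 2 <;> push_cast <;> ring
  have Y : 2 + 2 * (B6 * 2 ^ ρ.U) ≤ ρ.y ^ ρ.K' := hy.trans (le_self_pow₀ y1 (Nat.one_le_iff_ne_zero.1 K1))
  have err := VAR_err X0 U0 Y
  have eE : ∀ k, ρ.Er k = ρ.X / (ρ.y ^ ρ.K') ^ k := fun k => by rw [Pr.Er, mul_comm, pow_mul]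
  rw [← eE, ← eE, ← eE, ← eE] at err
  rw [mul_comm, pow_mul] at s2
  have S0 : (0 : ℝ) ≤ (ρ.SD q D1 D2).card := Nat.cast_nonneg _
  have r1 : ((ρ.SD q D1 D2).card : ℝ) ^ 2 * ρ.Er 28 ≤ ((ρ.y ^ ρ.K') ^ 4) ^ 2 * ρ.Er 28 :=
    mul_le_mul_of_nonneg_right (pow_le_pow_left₀ S0 s2 2) (Er0 _)
  have r2 : 2 * M * ((ρ.SD q D1 D2).card * ρ.Er 29) ≤
      2 * (B6 * 2 ^ ρ.U) * ((ρ.y ^ ρ.K') ^ 4 * ρ.Er 29) := by
    have := Er0 29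
    gcongr
  have u1 : (1 : ℝ) ≤ 4 ^ ρ.U := one_le_pow₀ (by norm_num)
  have u2 : (2 : ℝ) ^ ρ.U ≤ 4 ^ ρ.U := pow_le_pow_left₀ (by norm_num) (by norm_num) _
  have r3 : 3 * ((B1 + B2) * ρ.ep) * M ^ 2 ≤ 3 * (B1 + B2) * B6 ^ 2 * (4 ^ ρ.U * ρ.ep * μ) :=
    (mul_le_mul_of_nonneg_left M2 (by positivity)).trans_eq (by ring)
  have r4 : (1 + (B1 + B2) * ρ.ep) * (B4 * 4 ^ ρ.U / √ρ.w * μ + 1 / √ρ.w * μ) ≤
      (1 + 2 * (B1 + B2)) * ((B4 + 1) * (4 ^ ρ.U * ρ.ep * μ)) := by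
    refine mul_le_mul (by nlinarith) ?_ (by positivity) (by positivity)
    calc _ = B4 * (4 ^ ρ.U * (1 / √ρ.w) * μ) + 1 * (1 / √ρ.w) * μ := by ring
      _ ≤ B4 * (4 ^ ρ.U * ρ.ep * μ) + 4 ^ ρ.U * ρ.ep * μ := by gcongr
      _ = _ := by ring
  have r5 : B3 * 2 ^ ρ.U * ρ.ep * μ ≤ B3 * 4 ^ ρ.U * ρ.ep * μ := by gcongr
  nlinarith [mul_le_mul_of_nonneg_left (add_le_add r3 r4) Z0, mul_le_mul_of_nonneg_right r5 Z0]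

end Pool.Agent.P.MP_6f5b02_nt.Hy
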