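import Pool.Agent.P.MP_6f5b02_nt.Hy.IfN
import Pool.Agent.P.MP_8be758_nt.Pd.TVB

/-! Step VB. -/

namespace Pool.Agent.P.MP_6f5b02_nt.Hy

open Pool.Agent.P.MP_8be758_nt Pool.Agent.P.MP_8be758_nt.Pd
open Finset Real Filter
open Pool.Agent.P.MP_8be758_nt.Par (det)
open scoped Classical

theorem VB_rg {ρ : Pr} {D1 D2 : ℕ} {σ : Sd} (hD : ρ.DA D1 D2) (h1 : σ.e1 * σ.a1 ∣ D1)
    (h2 : σ.e2 * σ.a2 ∣ D2) (hq : σ.q1 ∈ ρ.I1) (hy : 1 ≤ ρ.y) (hw : (ρ.w : ℝ) ≤ ρ.y)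
    (hk : 1 ≤ ρ.k5) : Rg ρ.w σ.a := by
  have hd : σ.a1 * σ.a2 ∣ D1 * D2 :=
    mul_dvd_mul (dvd_of_mul_left_dvd h1) (dvd_of_mul_left_dvd h2)
  have hp : σ.q1.Prime := prime_of_PP hq
  have hq1 : ρ.y < σ.q1 := lt_of_le_of_lt (le_self_pow₀ hy (by omega)) (lt_of_PP hq)
  have hs : ∀ p : ℕ, p.Prime → p ∣ σ.a1 * σ.a2 → p ∈ ρ.Ps := fun p a b =>
    hD.2.1 (Nat.mem_primeFactors.2 ⟨a, b.trans hd, hD.1.ne_zero⟩)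
  have hc : (σ.a1 * σ.a2).Coprime σ.q1 := by
    refine Nat.Coprime.symm ((Nat.Prime.coprime_iff_not_dvd hp).2 fun h => ?_)
    have := ((mem_PP (by linarith)).1 (hs _ hp h)).2.2
    linarith
  refine ⟨Nat.squarefree_mul_iff.2 ⟨hc, hD.1.squarefree_of_dvd hd, hp.squarefree⟩, fun p h => ?_⟩
  obtain ⟨a, b, -⟩ := Nat.mem_primeFactors.1 h
  rcases (Nat.Prime.dvd_mul a).1 b with c | c
  · exact lt_of_PP (hs p a c)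
  · rw [(Nat.prime_dvd_prime_iff_eq a hp).1 c]
    linarith

theorem VB_size {P0 R0 b A C1 X y : ℝ} (h : b ^ 2 - 4 * P0 * R0 = 17) (hA : 0 ≤ A)
    (hb0 : 0 ≤ b) (hb : b ≤ C1 * P0) (hP : P0 ≤ 2 * X) (hC : 0 ≤ C1) (hX : 1 ≤ X)
    (hy : C1 ^ 2 + A ≤ y) : P0 * R0 ≤ X ^ 2 * y := by
  have a1 : b ≤ C1 * (2 * X) := hb.trans (mul_le_mul_of_nonneg_left hP hC)
  have a2 : b ^ 2 ≤ (C1 * (2 * X)) ^ 2 := pow_le_pow_left₀ hb0 a1 2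
  have a3 : 1 ≤ X ^ 2 := one_le_pow₀ hX
  have a4 : A ≤ X ^ 2 * A := le_mul_of_one_le_left hA a3
  have a5 : X ^ 2 * (C1 ^ 2 + A) ≤ X ^ 2 * y := mul_le_mul_of_nonneg_left hy (by linarith)
  nlinarith

theorem p_VB (hK4 : S_K4) (hTUP : S_TUP) :
    S_VB := by
  refine (Unif.ev hTUP).imp 3 fun z hz C _ => ⟨1, le_rfl, ?_⟩
  obtain ⟨s1, s2, -, -, s5, s6⟩ := hz.sizes le_rfl
  obtain ⟨-, hA3, hC1, -, -, -, -, -, b9, b10, -⟩ := hz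
  filter_upwards [eventually_ge_atTop (1 : ℝ), eventually_ge_atTop (z.w : ℝ),
    eventually_ge_atTop (z.C1 ^ 2 + z.A)] with y y1 y2 y3 H τ hτ
  generalize hρ : (⟨z, y⟩ : Pr) = ρ at *
  change Pr at ρ
  have e1 : ρ.A = z.A := by rw [← hρ]
  have e2 : ρ.y = y := by rw [← hρ]
  have e3 : ρ.w = z.w := by rw [← hρ]
  have e4 : ρ.C1 = z.C1 := by rw [← hρ]
  have e5 : ρ.K = z.K := by rw [← hρ]
  have e6 : ρ.k5 = z.k5 := by rw [← hρ]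
  have e7 : ρ.u = z.u := by rw [← hρ]
  rw [← e2] at y1 y2 y3
  rw [← e3] at y2
  rw [← e4, ← e1] at y3
  rw [← e4] at hC1
  have hA : 5 ≤ ρ.A := by omega
  have hK : (3 : ℝ) ≤ ρ.K := by exact_mod_cast (show 3 ≤ ρ.K by omega)
  have hk : 1 ≤ ρ.k5 := by omega
  obtain ⟨ok, t1, -, t3, -⟩ := H τ hτ
  obtain ⟨g1, ⟨hD, hsq⟩, hq, -, ⟨a1, a2, a3, a4, a5, a6, -, a8, a9, -, a11, a12, a13⟩, -⟩ := hτ
  obtain ⟨d1, d2, d3, d4, d5⟩ := (of_mem_GG hA (Q0_red ρ.A)) g1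
  have hF : IsF ρ.A (ρ.fm τ.1) := isF_of_GG hA (Q0_red _) g1
  have hP0 : (ρ.fm τ.1).1 = ev (Q0 ρ.A) τ.1.1 := rfl
  have hb : (ρ.fm τ.1).2.1 = bl (Q0 ρ.A) τ.1.1 τ.1.2 := rfl
  rw [← hP0] at d2 d3 d4 d5
  rw [← hb] at d4 d5
  have ct : (ρ.cy τ).t = τ.2.t := rfl
  have cs : (ρ.cy τ).s = τ.2.s := rfl
  have ca : (ρ.cy τ).a = τ.2.a := rfl
  have cf : (ρ.cy τ).af = τ.2.af := rfl
  have hX : 1 ≤ ρ.X := one_le_pow₀ y1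
  have hE : 0 < τ.2.E1 * τ.2.a1 := by
    have q3 : 0 < τ.2.q3 := (prime_of_PP hq.2.1).pos
    have := Nat.pos_of_dvd_of_pos a1 (fl_pos ρ _)
    have e : τ.2.E1 * τ.2.a1 = τ.2.e1 * τ.2.a1 * τ.2.q3 := by simp only [Sd.E1]; ring
    rw [e]
    exact Nat.mul_pos this q3
  obtain ⟨u1, u2⟩ := VB_tp (t := (τ.2.t : ℤ)) t1 (by exact_mod_cast hE) hF.2
    (by exact_mod_cast a3) (by exact_mod_cast a4)
  have u1' : ((ρ.fm τ.1).1 : ℝ) ≤ 2 * ((τ.2.t : ℝ) * (ρ.cy τ).P) := by exact_mod_cast u1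
  have u2' : (τ.2.t : ℝ) * (ρ.cy τ).P ≤ ((ρ.fm τ.1).1 : ℝ) := by exact_mod_cast u2
  have ha : 0 < τ.2.a := by
    have := ok.2.2.2.1
    rw [ca] at this
    exact_mod_cast this
  have hst : 0 < τ.2.s * τ.2.t := by omega
  have hLa := La_nonneg ρ
  have hom : ρ.om ((ρ.fm τ.1).1 * (ρ.fm τ.1).2.2) =
      ρ.om ((ρ.fl (ρ.fm τ.1).1 * ρ.fl (ρ.fm τ.1).2.2 : ℕ) : ℤ) := by
    rw [Pr.om, Pr.om, VB_pf]
  have hsi : ρ.si ((ρ.fm τ.1).1 * (ρ.fm τ.1).2.2) =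
      ρ.si ((ρ.fl (ρ.fm τ.1).1 * ρ.fl (ρ.fm τ.1).2.2 : ℕ) : ℤ) := by
    rw [Pr.si, Pr.si, VB_pf]
  rw [t3, ct, cs, ca, cf, hom, hsi, fl_mul ρ hsq, ← e2, ← e3, ← e5, ← e7]
  refine ⟨by push_cast; linarith, by push_cast; linarith,
    by exact_mod_cast Nat.pos_of_mul_pos_right hst, by exact_mod_cast Nat.pos_of_mul_pos_left hst,
    by exact_mod_cast a6, ?_, ⟨a8, fun p hp => ?_⟩, ?_, hD.2.2.2.2.1, ?_, hD.2.2.2.2.2.2, ?_,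
    a11, a12, a13⟩
  · rw [Int.natAbs_natCast]
    exact VB_rg hD a1 a2 hq.1 y1 y2 hk
  · obtain ⟨p1, p2, -⟩ := Nat.mem_primeFactors.1 hp
    exact_mod_cast (a9 p p1 (Int.natCast_dvd.2 p2)).1
  · rw [two_mul, pow_add, Nat.cast_mul]
    exact mul_le_mul hD.2.2.1 hD.2.2.2.1 (Nat.cast_nonneg _) (by positivity)
  · exact hD.2.2.2.2.2.1.trans (mul_le_mul_of_nonneg_right (by linarith) hLa)
  · have hP : (0 : ℝ) < ((ρ.fm τ.1).1 : ℝ) := by exact_mod_cast hF.2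
    have h0 : (0 : ℝ) ≤ 1 / ρ.C1 * ((ρ.fm τ.1).1 : ℝ) := by positivity
    have e : ((ρ.fm τ.1).2.1 : ℝ) ^ 2 - 4 * ((ρ.fm τ.1).1 : ℝ) * ((ρ.fm τ.1).2.2 : ℝ) =
        (17 : ℝ) := by exact_mod_cast hF.1
    have := VB_size e (Nat.cast_nonneg _) (by linarith) d5 d3 (by linarith) hX y3
    rw [pow_succ, mul_comm 2 ρ.u, pow_mul, Int.cast_mul]
    exact this

end Pool.Agent.P.MP_6f5b02_nt.Hy
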