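import Pool.Agent.P.MP_6f5b02_nt.Hy.If0
import Pool.Agent.P.MP_8be758_nt.Pd.TVEQ

/-! Step VEQ. -/

namespace Pool.Agent.P.MP_6f5b02_nt.Hy

open Pool.Agent.P.MP_8be758_nt Pool.Agent.P.MP_8be758_nt.Pd
open Finset Real Filter
open Pool.Agent.P.MP_8be758_nt.Par (det)

theorem VEQ_div {A : ℕ} {ψ : Fm} (hA : 5 ≤ A) (hψ : ψ ∈ Red A) {C N1 N2 : ℝ} (hC : 0 < C)
    (h : ∀ N : ℝ, 0 ≤ N → ((An ψ 0 N).card : ℝ) ≤ C * (N - 0 + √N + 1)) (h1 : 0 ≤ N1)
    (h2 : 0 ≤ N2) {e : ℕ} (he : 1 ≤ e) (S : Finset V2)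
    (hS : ∀ v ∈ S, v ∈ An ψ N1 N2 ∧ (e : ℤ) ∣ v.1 ∧ (e : ℤ) ∣ v.2) :
    (S.card : ℝ) ≤ 3 * C * (N2 / (e : ℝ) ^ 2) := by
  have he' : (0 : ℝ) < (e : ℝ) ^ 2 := by positivity
  have hm : ∀ v ∈ S, (v.1 / e, v.2 / e) ∈ An ψ 0 (N2 / (e : ℝ) ^ 2) := by
    intro v hv
    obtain ⟨h3, ⟨a, ha⟩, ⟨b, hb⟩⟩ := hS v hv
    have e0 : (e : ℤ) ≠ 0 := by omega
    rw [mem_An hA hψ] at h3 ⊢
    have e1 : ev ψ v = (e : ℤ) ^ 2 * ev ψ (a, b) := by simp only [ev, ha, hb]; ring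
    rw [ha, hb, Int.mul_ediv_cancel_left _ e0, Int.mul_ediv_cancel_left _ e0, le_div_iff₀ he']
    rw [e1] at h3
    push_cast at h3
    have e2 : v = (e : ℤ) • (a, b) := Prod.ext ha hb
    exact ⟨(cn_smul (by omega)).1 (e2 ▸ h3.1),
      (mul_pos_iff_of_pos_left he').1 (h1.trans_lt h3.2.1), by linarith [h3.2.2]⟩
  rcases S.eq_empty_or_nonempty with rfl | ⟨v, hv⟩
  · simp only [card_empty, Nat.cast_zero]
    positivity
  have h3 := (of_mem_An hA hψ) (hm v hv)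
  have h4 : (1 : ℝ) ≤ N2 / (e : ℝ) ^ 2 := by
    refine le_trans ?_ h3.2
    have : (0 : ℤ) < ev ψ (v.1 / e, v.2 / e) := by exact_mod_cast h3.1
    exact_mod_cast this
  have h5 : S.card ≤ (An ψ 0 (N2 / (e : ℝ) ^ 2)).card := by
    refine card_le_card_of_injOn (fun v => (v.1 / e, v.2 / e)) (fun v hv => hm v hv) ?_
    intro v hv w hw hvw
    obtain ⟨-, a1, a2⟩ := hS v hv
    obtain ⟨-, b1, b2⟩ := hS w hw
    simp only [Prod.mk.injEq] at hvw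
    refine Prod.ext ?_ ?_
    · rw [← Int.mul_ediv_cancel' a1, ← Int.mul_ediv_cancel' b1, hvw.1]
    · rw [← Int.mul_ediv_cancel' a2, ← Int.mul_ediv_cancel' b2, hvw.2]
  have h6 : √(N2 / (e : ℝ) ^ 2) ≤ N2 / (e : ℝ) ^ 2 := by
    rw [Real.sqrt_le_left (by linarith)]
    nlinarith
  have h7 := h _ (le_trans zero_le_one h4)
  have h8 : (S.card : ℝ) ≤ (An ψ 0 (N2 / (e : ℝ) ^ 2)).card := by exact_mod_cast h5
  nlinarith

theorem VEQ_exp {A : ℕ} {ψ : Fm} (hA : 5 ≤ A) (hψ : ψ ∈ Red A) {N1 N2 : ℝ} (h1 : 0 ≤ N1) (M : ℕ)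
    (c : V2) : (((VV ψ N1 N2).filter fun v => C2 M v c).card : ℝ) =
      ∑ e ∈ Icc 1 ⌊N2⌋₊, (ArithmeticFunction.moebius e : ℝ) *
        ((An ψ N1 N2).filter fun v => C2 M v c ∧ (e : ℤ) ∣ v.1 ∧ (e : ℤ) ∣ v.2).card := by
  have e1 : (VV ψ N1 N2).filter (fun v => C2 M v c) =
      (An ψ N1 N2).filter fun v => C2 M v c ∧ Int.gcd v.1 v.2 = 1 := by
    ext v
    simp only [mem_filter, mem_VV hA hψ, mem_An hA hψ, Int.isCoprime_iff_gcd_eq_one]
    tauto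
  simp only [e1, VEQ_card, mul_sum]
  rw [sum_comm]
  refine sum_congr rfl fun v hv => ?_
  replace hv := of_mem_An hA hψ hv
  have h2 : 0 < Int.gcd v.1 v.2 := by
    rw [Int.gcd_pos_iff]
    by_contra h
    push Not at h
    have : ev ψ v = 0 := by simp [ev, h.1, h.2]
    rw [this] at hv
    simp only [Int.cast_zero] at hv
    linarith [hv.1]
  have h3 : Int.gcd v.1 v.2 ≤ ⌊N2⌋₊ := by
    obtain ⟨a, ha⟩ := Int.gcd_dvd_left v.1 v.2
    obtain ⟨b, hb⟩ := Int.gcd_dvd_right v.1 v.2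
    generalize Int.gcd v.1 v.2 = g at *
    have e2 : ev ψ v = (g : ℤ) ^ 2 * ev ψ (a, b) := by simp only [ev, ha, hb]; ring
    have p1 : (0 : ℤ) < ev ψ v := by exact_mod_cast h1.trans_lt hv.1
    have p2 : 0 < ev ψ (a, b) := by
      rw [e2] at p1
      exact (mul_pos_iff_of_pos_left (by positivity)).1 p1
    have p3 : (g : ℤ) ≤ ev ψ v := by
      have : (1 : ℤ) ≤ g := by exact_mod_cast h2
      nlinarith
    refine Nat.le_floor (le_trans ?_ hv.2)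
    exact_mod_cast p3
  rw [ind_and, ← VEQ_mu _ _ h2 h3, mul_sum]
  refine sum_congr rfl fun e _ => ?_
  rw [ind_and (C2 M v c), Int.dvd_gcd_iff]
  ring

theorem p_VEQ (hLAT : S_LAT) (hAREA : S_AREA) :
    S_VEQ := by
  intro A hA
  obtain ⟨C1, hC1, H1⟩ := hLAT A hA
  obtain ⟨c, C3, -, hC3, H2⟩ := hAREA A hA
  refine ⟨4 * (2 * C1 + 3 * C3), by positivity, fun ψ hψ N1 N2 Mx h1 h2 h3 h4 => ?_⟩
  have hF := hψ
  have hN : 0 ≤ N2 := by linarith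
  set t : ℝ := N2 ^ (1 / 4 : ℝ) with ht
  have t1 : 1 ≤ t := one_le_rpow h3 (by norm_num)
  have t4 : N2 = t ^ 4 := by rw [ht, ← rpow_natCast, ← rpow_mul hN]; norm_num
  have t3 : N2 ^ (3 / 4 : ℝ) = t ^ 3 := by rw [ht, ← rpow_natCast, ← rpow_mul hN]; norm_num
  have t2 : √N2 = t ^ 2 := by
    rw [t4, show t ^ 4 = (t ^ 2) ^ 2 by ring, sqrt_sq (by positivity)]
  intro M f hM hMx hP hf
  have hM' : (M : ℤ) ≠ 0 := by omega
  have key : ∀ c0 ∈ SP.U M, ∀ c1 ∈ SP.U M,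
      |(((VV ψ N1 N2).filter fun v => C2 M v c0).card : ℝ) -
        ((VV ψ N1 N2).filter fun v => C2 M v c1).card| ≤ 4 * (2 * C1 + 3 * C3) * t ^ 3 := by
    intro c0 hc0 c1 hc1
    rw [VEQ_exp hA hF h1, VEQ_exp hA hF h1, ← sum_sub_distrib]
    refine (abs_sum_le_sum_abs _ _).trans (le_trans (sum_le_sum (g := fun e : ℕ =>
      4 * (2 * C1 + 3 * C3) * t ^ 4 * (1 / ((e : ℝ) + t - 1) - 1 / ((e : ℝ) + t)))
      fun e he => ?_) ?_)
    · have he1 : 1 ≤ e := (mem_Icc.1 he).1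
      have he2 : (1 : ℝ) ≤ e := by exact_mod_cast he1
      have hmu : |(ArithmeticFunction.moebius e : ℝ)| ≤ 1 := by
        exact_mod_cast ArithmeticFunction.abs_moebius_le_one
      rw [← mul_sub, abs_mul]
      refine (mul_le_of_le_one_left (abs_nonneg _) hmu).trans
        (VEQ_min t1 he2 (by positivity) ?_ ?_)
      · by_cases hc : e.Coprime M
        · have hw : ∀ c : V2, ∃ w : V2, ∀ v : V2,
              (C2 M v c ∧ (e : ℤ) ∣ v.1 ∧ (e : ℤ) ∣ v.2) ↔ C2 (e * M) v w := fun c => by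
            obtain ⟨a, ha⟩ := VEQ_crt hc c.1
            obtain ⟨b, hb⟩ := VEQ_crt hc c.2
            refine ⟨(a, b), fun v => ?_⟩
            simp only [C2, ← ha, ← hb]
            tauto
          obtain ⟨w0, hw0⟩ := hw c0
          obtain ⟨w1, hw1⟩ := hw c1
          simp only [hw0, hw1]
          refine (H1 ψ hψ N1 N2 (e * M) w0 w1 h1 h2 (Nat.mul_pos he1 hM)).trans ?_
          have a1 : (1 : ℝ) ≤ ((e * M : ℕ) : ℝ) := by exact_mod_cast Nat.mul_pos he1 hM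
          have a2 : √N2 / ((e * M : ℕ) : ℝ) ≤ t ^ 2 := t2 ▸ div_le_self (sqrt_nonneg _) a1
          have a3 : 1 ≤ t ^ 2 := one_le_pow₀ t1
          nlinarith [mul_le_mul_of_nonneg_left (add_le_add a2 a3) hC1.le,
            mul_pos hC3 (lt_of_lt_of_le one_pos a3)]
        · have hz : ∀ c ∈ SP.U M, ((An ψ N1 N2).filter fun v =>
              C2 M v c ∧ (e : ℤ) ∣ v.1 ∧ (e : ℤ) ∣ v.2) = ∅ := fun c hc' => by
            refine filter_eq_empty_iff.2 fun v _ hv => hc ?_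
            have b0 : (Int.gcd c.1 c.2).Coprime M := (mem_filter.1 hc').2
            have b1 : ((e.gcd M : ℕ) : ℤ) ∣ e := Int.natCast_dvd_natCast.2 (Nat.gcd_dvd_left _ _)
            have b2 : ((e.gcd M : ℕ) : ℤ) ∣ M := Int.natCast_dvd_natCast.2 (Nat.gcd_dvd_right _ _)
            have b3 : e.gcd M ∣ Int.gcd c.1 c.2 := Int.dvd_gcd_iff.2
              ⟨by simpa using dvd_add (b2.trans hv.1.1.dvd) (b1.trans hv.2.1),
                by simpa using dvd_add (b2.trans hv.1.2.dvd) (b1.trans hv.2.2)⟩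
            exact Nat.eq_one_of_dvd_coprimes b0 b3 (Nat.gcd_dvd_right _ _)
          rw [hz c0 hc0, hz c1 hc1, sub_self, abs_zero]
          positivity
      · have hb : ∀ c : V2, (((An ψ N1 N2).filter fun v =>
            C2 M v c ∧ (e : ℤ) ∣ v.1 ∧ (e : ℤ) ∣ v.2).card : ℝ) ≤ 3 * C3 * (N2 / (e : ℝ) ^ 2) :=
          fun c => VEQ_div hA hF hC3 (fun N hN => (H2 ψ hψ 0 N le_rfl hN).2) h1 hN he1 _
            fun v hv => ⟨(mem_filter.1 hv).1, (mem_filter.1 hv).2.2⟩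
        have a1 := hb c0
        have a2 := hb c1
        have a3 : 0 ≤ C1 * (N2 / (e : ℝ) ^ 2) := by positivity
        rw [← t4, abs_le]
        constructor <;> nlinarith [Nat.cast_nonneg (α := ℝ) ((An ψ N1 N2).filter fun v =>
            C2 M v c0 ∧ (e : ℤ) ∣ v.1 ∧ (e : ℤ) ∣ v.2).card, Nat.cast_nonneg (α := ℝ)
            ((An ψ N1 N2).filter fun v => C2 M v c1 ∧ (e : ℤ) ∣ v.1 ∧ (e : ℤ) ∣ v.2).card]
    · rw [← mul_sum, VEQ_tel]
      have a1 : 1 / t - 1 / ((⌊N2⌋₊ : ℝ) + t) ≤ 1 / t := sub_le_self _ (by positivity)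
      refine (mul_le_mul_of_nonneg_left a1 (by positivity)).trans (le_of_eq ?_)
      field_simp
  let r : V2 → V2 := fun v => (v.1 % M, v.2 % M)
  have hr : ∀ v ∈ VV ψ N1 N2, r v ∈ SP.U M := by
    intro v hv
    have hb : ∀ x : ℤ, x % M ∈ bx M := fun x =>
      mem_Ico.2 ⟨Int.emod_nonneg _ hM', Int.emod_lt_of_pos _ (by omega)⟩
    refine mem_filter.2 ⟨mem_product.2 ⟨hb _, hb _⟩, ?_⟩
    have hc := Int.isCoprime_iff_gcd_eq_one.1 ((of_mem_VV hA hF) hv).1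
    have b1 := Int.dvd_gcd_iff.1 (Nat.gcd_dvd_left (Int.gcd (v.1 % M) (v.2 % M)) M)
    have b2 := Int.natCast_dvd_natCast.2 (Nat.gcd_dvd_right (Int.gcd (v.1 % M) (v.2 % M)) M)
    have b3 := dvd_add (b2.trans (Int.dvd_self_sub_emod (x := v.1))) b1.1
    have b4 := dvd_add (b2.trans (Int.dvd_self_sub_emod (x := v.2))) b1.2
    rw [sub_add_cancel] at b3 b4
    have b5 := Int.dvd_gcd_iff.2 ⟨b3, b4⟩
    rw [hc] at b5
    exact Nat.dvd_one.1 b5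
  have hq : ∀ c ∈ SP.U M, ∀ v : V2, r v = c ↔ C2 M v c := by
    intro c hc v
    obtain ⟨a, b⟩ := mem_product.1 (mem_filter.1 hc).1
    rw [bx, mem_Ico] at a b
    simp only [C2, Int.ModEq, Int.emod_eq_of_lt a.1 a.2, Int.emod_eq_of_lt b.1 b.2, r,
      Prod.ext_iff]
  have s1 : ∀ g : V2 → ℝ, SP.Per M g → ∑ v ∈ VV ψ N1 N2, g v =
      ∑ c ∈ SP.U M, (((VV ψ N1 N2).filter fun v => C2 M v c).card : ℝ) * g c := by
    intro g hg
    rw [← sum_fiberwise_of_maps_to hr]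
    refine sum_congr rfl fun c hc => ?_
    simp only [hq c hc]
    rw [← nsmul_eq_mul, ← sum_const]
    exact sum_congr rfl fun v hv => hg v c (mem_filter.1 hv).2
  have s2 := s1 (fun _ => 1) fun _ _ _ => rfl
  simp only [sum_const, nsmul_eq_mul, mul_one] at s2
  simp only [one_mul]
  rw [s1 f hP, s2, Sys.av]
  refine (VEQ_avg _ _ f _ key hf).trans ?_
  have u1 : (SP.U M).card ≤ M ^ 2 := by
    refine (card_filter_le _ _).trans ?_
    simp [bx, sq]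
  have u2 : ((SP.U M).card : ℝ) ≤ Mx ^ 2 :=
    le_trans (by exact_mod_cast u1) (pow_le_pow_left₀ (Nat.cast_nonneg M) hMx 2)
  rw [t3]
  calc _ ≤ Mx ^ 2 * (4 * (2 * C1 + 3 * C3) * t ^ 3) :=
        mul_le_mul_of_nonneg_right u2 (by positivity)
    _ = _ := by ring

end Pool.Agent.P.MP_6f5b02_nt.Hy
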