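import Pool.Agent.P.MP_6f5b02_nt.Hy.Defs

/-! Basic facts: membership. -/

namespace Pool.Agent.P.MP_6f5b02_nt.Hy

open Pool.Agent.P.MP_8be758_nt Pool.Agent.P.MP_8be758_nt.Pd
open Finset Real
open Pool.Agent.P.MP_8be758_nt.Par (det)
open Pool.Agent.P.MP_6f5b02_nt.Hy.Par (nq)

theorem ev_Q0 (A : ℕ) (v : V2) : ev (Q0 A) v = nq A v := by
  simp only [ev, Q0, nq]
  ring

theorem isF_Q0 (A : ℕ) : IsF A (Q0 A) := ⟨by simp [Q0], by simp [Q0]⟩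

theorem Q0_red (A : ℕ) : Q0 A ∈ Red A := mem_filter.2 ⟨mem_singleton_self _, isF_Q0 A⟩

theorem Q0_mem {A : ℕ} (_ : 5 ≤ A) : Q0 A ∈ Red A := Q0_red A

variable {A : ℕ} {ψ : Fm}

theorem eq_Q0 (h : ψ ∈ Red A) : ψ = Q0 A := mem_singleton.1 (mem_filter.1 h).1

theorem IsF.third_pos (h : IsF A ψ) (hb : 5 ≤ ψ.2.1) : 0 < ψ.2.2 := by
  by_contra hn
  have := mul_nonneg h.2.le (neg_nonneg.2 (not_lt.1 hn))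
  nlinarith [h.1]

theorem IsF.act (_ : 5 ≤ A) (h : IsF A ψ) {g : G4} (hg : det g.1 g.2 = 1) (h0 : 0 < ev ψ g.1) :
    IsF A (act ψ g) :=
  ⟨by simp only [Pd.act]; rw [disc_eq, h.1, hg]; ring, h0⟩

theorem Cn.ev_pos {v : V2} (h : Cn v) : 0 < ev (Q0 A) v := by
  rw [ev_Q0]
  exact h.nq_pos

theorem Cn.bl_pos {v w : V2} (h : Cn v) (h' : Cn w) : 0 < bl (Q0 A) v w := by
  have a1 := mul_nonneg h.1 (sub_pos.2 h'.2).le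
  have a2 := mul_nonneg h'.1 (sub_pos.2 h.2).le
  have a3 := mul_nonneg h.pos.le (sub_pos.2 h'.2).le
  have a4 := mul_nonneg h'.pos.le (sub_pos.2 h.2).le
  have a5 := mul_pos h.pos h'.pos
  simp only [bl, Q0]
  linarith

theorem fin_cn (A : ℕ) (Y : ℝ) : {v : V2 | Cn v ∧ (ev (Q0 A) v : ℝ) ≤ Y}.Finite := by
  refine ((Set.finite_Icc 0 (625 * ⌈Y⌉)).prod (Set.finite_Icc 0 (625 * ⌈Y⌉))).subset fun v hv => ?_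
  have h0 : nq A v ≤ ⌈Y⌉ := by
    rw [← ev_Q0]
    exact_mod_cast hv.2.trans (Int.le_ceil Y)
  have h1 := hv.1.sq_le (A := A)
  have h2 := hv.1.pos
  have h3 : v.1 ≤ 625 * ⌈Y⌉ := by nlinarith
  exact ⟨⟨h2.le, h3⟩, hv.1.1, hv.1.le.trans h3⟩

theorem mem_An (_ : 5 ≤ A) (h : ψ ∈ Red A) {N1 N2 : ℝ} {v : V2} :
    v ∈ An ψ N1 N2 ↔ Cn v ∧ N1 < (ev ψ v : ℝ) ∧ (ev ψ v : ℝ) ≤ N2 :=
  mem_fs ((fin_cn A N2).subset fun _ hv => ⟨hv.1, eq_Q0 h ▸ hv.2.2⟩)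

theorem mem_VV (_ : 5 ≤ A) (h : ψ ∈ Red A) {N1 N2 : ℝ} {v : V2} :
    v ∈ VV ψ N1 N2 ↔ Cn v ∧ IsCoprime v.1 v.2 ∧ N1 < (ev ψ v : ℝ) ∧ (ev ψ v : ℝ) ≤ N2 :=
  mem_fs ((fin_cn A N2).subset fun _ hv => ⟨hv.1, eq_Q0 h ▸ hv.2.2.2⟩)

theorem eq_of_bl {v w w' : V2} (h0 : ev ψ v ≠ 0) (h1 : det v w = det v w')
    (h2 : bl ψ v w = bl ψ v w') : w = w' := by
  simp only [det, bl, ev] at *
  refine Prod.ext (mul_left_cancel₀ (mul_ne_zero two_ne_zero h0) ?_)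
    (mul_left_cancel₀ (mul_ne_zero two_ne_zero h0) ?_)
  · linear_combination v.1 * h2 - (ψ.2.1 * v.1 + 2 * ψ.2.2 * v.2) * h1
  · linear_combination v.2 * h2 + (2 * ψ.1 * v.1 + ψ.2.1 * v.2) * h1

theorem mem_GG (_ : 5 ≤ A) (h : ψ ∈ Red A) {Z β1 β2 : ℝ} {g : G4} :
    g ∈ GG ψ Z β1 β2 ↔ Cn g.1 ∧ det g.1 g.2 = 1 ∧ Z < (ev ψ g.1 : ℝ) ∧ (ev ψ g.1 : ℝ) ≤ 2 * Z ∧
    β1 * (ev ψ g.1 : ℝ) < (bl ψ g.1 g.2 : ℝ) ∧ (bl ψ g.1 g.2 : ℝ) ≤ β2 * (ev ψ g.1 : ℝ) := by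
  obtain rfl := eq_Q0 h
  set B : ℤ := ⌈(|β1| + |β2|) * (2 * Z)⌉
  refine mem_fs (Set.Finite.of_injOn (f := fun g : G4 => (g.1, bl (Q0 A) g.1 g.2)) (fun g hg => ?_)
    (fun g hg g' hg' e => ?_) ((fin_cn A (2 * Z)).prod (Set.finite_Icc (-B) B)))
  · obtain ⟨h0, -, -, h3, h4, h5⟩ := hg
    refine ⟨⟨h0, h3⟩, abs_le.1 ?_⟩
    have p1 : (0 : ℝ) ≤ (ev (Q0 A) g.1 : ℝ) := by exact_mod_cast h0.ev_pos.le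
    have a1 := mul_le_mul (le_abs_self β2) h3 p1 (abs_nonneg β2)
    have a2 := mul_le_mul (neg_le_abs β1) h3 p1 (abs_nonneg β1)
    have a3 := mul_nonneg (abs_nonneg β1) (show 0 ≤ 2 * Z by linarith)
    have a4 := mul_nonneg (abs_nonneg β2) (show 0 ≤ 2 * Z by linarith)
    have b1 : |(bl (Q0 A) g.1 g.2 : ℝ)| ≤ (|β1| + |β2|) * (2 * Z) := by
      rw [abs_le]
      constructor <;> nlinarith
    exact_mod_cast b1.trans (Int.le_ceil _)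
  · obtain ⟨e1, e2⟩ := Prod.mk.inj e
    refine Prod.ext e1 (eq_of_bl hg.1.ev_pos.ne' (hg.2.1.trans ?_) (e2.trans ?_)) <;> rw [e1]
    exact hg'.2.1.symm

theorem of_mem_An (hA : 5 ≤ A) (h : ψ ∈ Red A) {N1 N2 : ℝ} {v : V2} (hv : v ∈ An ψ N1 N2) :
    N1 < (ev ψ v : ℝ) ∧ (ev ψ v : ℝ) ≤ N2 := ((mem_An hA h).1 hv).2

theorem of_mem_VV (hA : 5 ≤ A) (h : ψ ∈ Red A) {N1 N2 : ℝ} {v : V2} (hv : v ∈ VV ψ N1 N2) :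
    IsCoprime v.1 v.2 ∧ N1 < (ev ψ v : ℝ) ∧ (ev ψ v : ℝ) ≤ N2 := ((mem_VV hA h).1 hv).2

theorem of_mem_GG (hA : 5 ≤ A) (h : ψ ∈ Red A) {Z β1 β2 : ℝ} {g : G4} (hg : g ∈ GG ψ Z β1 β2) :
    det g.1 g.2 = 1 ∧ Z < (ev ψ g.1 : ℝ) ∧ (ev ψ g.1 : ℝ) ≤ 2 * Z ∧
    β1 * (ev ψ g.1 : ℝ) < (bl ψ g.1 g.2 : ℝ) ∧ (bl ψ g.1 g.2 : ℝ) ≤ β2 * (ev ψ g.1 : ℝ) :=
  ((mem_GG hA h).1 hg).2

/-- the form of an edge -/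
theorem isF_of_GG (hA : 5 ≤ A) (h : ψ ∈ Red A) {Z β1 β2 : ℝ} {g : G4} (hg : g ∈ GG ψ Z β1 β2) :
    IsF A (act ψ g) :=
  IsF.act hA (mem_filter.1 h).2 (of_mem_GG hA h hg).1 (eq_Q0 h ▸ ((mem_GG hA h).1 hg).1.ev_pos)

theorem Ed_bpos (hA : 5 ≤ A) {C1 X : ℝ} (hC : 1 ≤ C1) {g : G4} (hg : g ∈ Ed A C1 X) :
    0 < (act (Q0 A) g).2.1 := by
  obtain ⟨h0, -, -, -, h2, -⟩ := (mem_GG hA (Q0_red A)).1 hg
  have h1 : (0 : ℝ) < ev (Q0 A) g.1 := by exact_mod_cast h0.ev_pos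
  exact Int.cast_pos.1 ((show (0 : ℝ) < 1 / C1 * ev (Q0 A) g.1 by positivity).trans h2)

/-- the form of a balanced edge has a positive third coefficient -/
theorem Ed_pos (hA : 5 ≤ A) {C1 X : ℝ} (hC : 1 ≤ C1) (hX : 5 * C1 ≤ X) {g : G4}
    (hg : g ∈ Ed A C1 X) : 0 < (act (Q0 A) g).2.2 := by
  obtain ⟨-, h1, -, h2, -⟩ := of_mem_GG hA (Q0_red A) hg
  rw [one_div, inv_mul_lt_iff₀ (by linarith)] at h2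
  have h3 : (5 : ℝ) < bl (Q0 A) g.1 g.2 := lt_of_mul_lt_mul_left (a := C1) (by linarith) (by linarith)
  exact (isF_of_GG hA (Q0_red A) hg).third_pos (show 5 ≤ bl (Q0 A) g.1 g.2 by exact_mod_cast h3.le)

end Pool.Agent.P.MP_6f5b02_nt.Hy
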