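import Pool.Agent.P.MP_6f5b02_nt.Hy.DefsM
import Pool.Agent.P.MP_8be758_nt.Pd.BasicM

/-! The hyperbolic angle. -/

namespace Pool.Agent.P.MP_6f5b02_nt.Hy.Mr

open Pool.Agent.P.MP_8be758_nt Pool.Agent.P.MP_8be758_nt.Pd
open Finset Real
open Pool.Agent.P.MP_8be758_nt.Par (cj det)
open Pool.Agent.P.MP_6f5b02_nt.Hy.Par

export Pool.Agent.P.MP_8be758_nt.Pd.Mr (cj_cj det_sm pr_ne pr_iff pr_neg exists_pr eq_smul_of_det
  dvd_of_dvd_smul pr_col norm_mul_conj_sub norm_zpow_sub lam_prime KF_nonneg bd_KT)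

variable {A : ℕ} {v w η : V2}

theorem s_sq : √17 ^ 2 = (17 : ℝ) := sq_sqrt (by norm_num)

theorem s_gt : (4.123 : ℝ) < √17 := lt_sqrt_of_sq_lt (by norm_num)

theorem s_lt : √17 < (4.1232 : ℝ) := (sqrt_lt' (by norm_num)).2 (by norm_num)

theorem i1_mul (v w : V2) : i1 (mul A v w) = i1 v * i1 w := by
  simp only [i1, mul]
  push_cast
  linear_combination (-(v.2 * w.2 : ℝ) / 4) * s_sq

theorem i2_mul (v w : V2) : i2 (mul A v w) = i2 v * i2 w := by
  simp only [i2, mul]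
  push_cast
  linear_combination (-(v.2 * w.2 : ℝ) / 4) * s_sq

theorem i1_mul_i2 (v : V2) : i1 v * i2 v = nq A v := by
  simp only [i1, i2, nq]
  push_cast
  linear_combination (-(v.2 : ℝ) ^ 2 / 4) * s_sq

theorem i1_ne (hv : v ≠ 0) : i1 v ≠ 0 :=
  left_ne_zero_of_mul (by rw [i1_mul_i2 (A := 5)]; exact_mod_cast nq_ne hv)

theorem i2_ne (hv : v ≠ 0) : i2 v ≠ 0 :=
  right_ne_zero_of_mul (by rw [i1_mul_i2 (A := 5)]; exact_mod_cast nq_ne hv)

theorem i1_cj (v : V2) : i1 (cj v) = i2 v := by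
  simp only [i1, i2, cj]
  push_cast
  ring

theorem i2_cj (v : V2) : i2 (cj v) = i1 v := by
  simp only [i1, i2, cj]
  push_cast
  ring

theorem i1_row (v : V2) (c : ℤ) : i1 (v + (c, 0)) = i1 v + c := by simp [i1]; ring

theorem i2_row (v : V2) (c : ℤ) : i2 (v + (c, 0)) = i2 v + c := by simp [i2]; ring

theorem i1_sub_i2 (v : V2) : i1 v - i2 v = √17 * v.2 := by
  simp only [i1, i2]
  ring

theorem det_i (v w : V2) : i2 v * i1 w - i1 v * i2 w = √17 * det v w := by
  simp only [i1, i2, det]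
  push_cast
  ring

theorem le_i1 (h : Cn v) : (v.1 : ℝ) ≤ i1 v := by
  have : (0 : ℝ) ≤ v.2 := by exact_mod_cast h.1
  exact le_add_of_nonneg_right (by positivity)

theorem i1_le (h : Cn v) : i1 v ≤ 3 * v.1 := by
  have a : (0 : ℝ) ≤ v.2 := by exact_mod_cast h.1
  have b : (25 * v.2 : ℝ) < 16 * v.1 := by exact_mod_cast h.2
  unfold i1
  nlinarith [mul_le_mul_of_nonneg_left s_lt.le a]

theorem le_i2 (h : Cn v) : (v.1 : ℝ) ≤ 2000 * i2 v := by
  have a : (0 : ℝ) ≤ v.2 := by exact_mod_cast h.1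
  have b : (25 * v.2 : ℝ) < 16 * v.1 := by exact_mod_cast h.2
  unfold i2
  nlinarith [mul_le_mul_of_nonneg_left s_lt.le a]

theorem i1_pos (h : Cn v) : 0 < i1 v := lt_of_lt_of_le (by exact_mod_cast h.pos) (le_i1 h)

theorem i2_pos (h : Cn v) : 0 < i2 v := by
  have : (0 : ℝ) < v.1 := by exact_mod_cast h.pos
  linarith [le_i2 h]

theorem th_mul (hv : v ≠ 0) (hw : w ≠ 0) : th (mul A v w) = th v + th w := by
  rw [th, th, th, i1_mul, i2_mul, log_mul (i1_ne hv) (i1_ne hw), log_mul (i2_ne hv) (i2_ne hw)]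
  ring

theorem i1_eu : i1 eu = (4 + √17) ^ 2 := by
  simp only [i1, eu]
  push_cast
  linear_combination -s_sq

theorem i2_eu : i2 eu = ((4 + √17) ^ 2)⁻¹ :=
  eq_inv_of_mul_eq_one_right (by rw [← i1_eu, i1_mul_i2 (A := 5), nq_eu, Int.cast_one])

theorem th_eu : th eu = Th := by
  rw [th, i1_eu, i2_eu, log_inv, log_pow, Th]
  push_cast
  ring

theorem Th_ge : 8 ≤ Th := by
  have h := log_le_log (by norm_num) (show (2 : ℝ) ^ 3 ≤ 4 + √17 by linarith [s_gt])
  rw [log_pow] at h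
  push_cast at h
  unfold Th
  linarith [log_two_gt_d9]

theorem Th_le : Th ≤ 9 := by
  have h := log_le_sub_one_of_pos (show (0 : ℝ) < (4 + √17) / 2 ^ 3 by positivity)
  rw [log_div (by positivity) (by positivity), log_pow] at h
  push_cast at h
  unfold Th
  linarith [log_two_lt_d9, s_lt]

theorem Th_pos : 0 < Th := by linarith [Th_ge]

theorem th_sub (hv : v ≠ 0) (hw : w ≠ 0) :
    th w - th v = log (i2 v * i1 w) - log (i1 v * i2 w) := by
  rw [log_mul (i2_ne hv) (i1_ne hw), log_mul (i1_ne hv) (i2_ne hw), th, th]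
  ring

theorem th_nonneg (h : Cn v) : 0 ≤ th v := by
  have : (0 : ℝ) ≤ v.2 := by exact_mod_cast h.1
  exact sub_nonneg.2 (log_le_log (i2_pos h) (sub_nonneg.1 (by rw [i1_sub_i2]; positivity)))

theorem th_le (h : Cn v) : th v ≤ Th := by
  have a : (0 : ℝ) ≤ det v eu := by
    have := h.2
    exact_mod_cast (by simp only [det, eu]; omega : 0 ≤ det v eu)
  rw [← sub_nonneg, ← th_eu, th_sub h.ne (by decide), sub_nonneg]
  refine log_le_log (mul_pos (i1_pos h) (by rw [i2_eu]; positivity)) (sub_nonneg.1 ?_)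
  rw [det_i]
  positivity

theorem uu_def (hv : v ≠ 0) : uu A v = Complex.exp ((2 * π / Th * th v : ℝ) * Complex.I) :=
  if_neg hv

theorem ek_eq (hv : v ≠ 0) (k : ℤ) : ek A k v =
    Complex.exp ((2 * π / Th * k * (log (i1 v) - log (i2 v)) : ℝ) * Complex.I) := by
  rw [ek, uu_def hv, ← Complex.exp_int_mul, th]
  congr 1
  push_cast
  ring

theorem norm_uu (_ : 5 ≤ A) (hv : v ≠ 0) : ‖uu A v‖ = 1 := by
  rw [uu_def hv, Complex.norm_exp_ofReal_mul_I]

theorem uu_ne (hA : 5 ≤ A) (hv : v ≠ 0) : uu A v ≠ 0 :=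
  norm_ne_zero_iff.1 (by rw [norm_uu hA hv]; exact one_ne_zero)

theorem uu_zero : uu A 0 = 0 := if_pos rfl

theorem norm_uu_le (v : V2) : ‖uu A v‖ ≤ 1 := by
  rcases eq_or_ne v 0 with rfl | hv
  · simp [uu_zero]
  · exact (norm_uu (A := 5) le_rfl hv).le

theorem uu_e : uu A (1, 0) = 1 := by simp [uu, th, i1, i2]

theorem uu_mul (_ : 5 ≤ A) (v w : V2) : uu A (mul A v w) = uu A v * uu A w := by
  rcases eq_or_ne v 0 with rfl | hv
  · simp [uu, mul]
  rcases eq_or_ne w 0 with rfl | hw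
  · simp [uu, mul]
  rw [uu_def (mul_ne ‹_› hv hw), uu_def hv, uu_def hw, ← Complex.exp_add, th_mul hv hw]
  congr 1
  push_cast
  ring

theorem uu_smul {c : ℤ} (hc : c ≠ 0) (v : V2) : uu A (c • v) = uu A v := by
  have e : c • v = mul 5 (c, 0) v := by ext <;> simp [mul]
  have h : uu 5 (c, 0) = 1 := by simp [uu, th, i1, i2, hc]
  rw [e]
  exact (uu_mul le_rfl _ _).trans (h ▸ one_mul _)

theorem uu_cj (v : V2) : uu A (cj v) = (starRingEnd ℂ) (uu A v) := by
  rcases eq_or_ne v 0 with rfl | hv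
  · simp [uu, cj]
  rw [uu_def (cj_ne (A := 5) le_rfl hv), uu_def hv, ← Complex.exp_conj, map_mul,
    Complex.conj_ofReal, Complex.conj_I, th, th, i1_cj, i2_cj]
  congr 1
  push_cast
  ring

theorem uu_eu : uu A eu = 1 := by
  rw [uu_def (by decide), th_eu, div_mul_cancel₀ _ Th_pos.ne']
  exact_mod_cast Complex.exp_two_pi_mul_I

theorem uu_one (h : nq A η = 1) : uu A η = 1 := by
  obtain ⟨a, h1, h2, h3⟩ := ex_unit' (A := 5) (fun a => uu 5 a = 1) uu_e uu_eu
    (by simp only [uu_cj, uu_eu, map_one])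
    (fun a b ha hb => by simp only [uu_mul, ha, hb, mul_one, le_refl])
    (fun a ha => by rw [← neg_one_smul ℤ, uu_smul (by norm_num)]; exact ha) _ η rfl
    (one_pos.trans_eq h.symm)
  have e := uu_mul (A := 5) le_rfl a η
  rw [unit_cn0 (A := 5) ((nq_mul a η).trans (by rw [h1, one_mul]; exact h)) h3, uu_e, h2,
    one_mul] at e
  exact e.symm

theorem uu_unit (h : nq A η = 1) (v : V2) : uu A (mul A η v) = uu A v :=
  (uu_mul (A := 5) le_rfl η v).trans (by rw [uu_one (A := 5) h, one_mul]; rfl)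

theorem uu_red (v : V2) : uu A (red A v) = uu A v := uu_unit (nq_un v) v

theorem ek_unit (h : nq A η = 1) (k : ℤ) (v : V2) : ek A k (mul A η v) = ek A k v := by
  rw [ek, ek, uu_unit h]

theorem ek_red (k : ℤ) (v : V2) : ek A k (red A v) = ek A k v := ek_unit (nq_un v) k v

theorem norm_uu_sub (hv : v ≠ 0) (hw : w ≠ 0) :
    ‖uu A v - uu A w‖ = 2 * |sin (π / Th * (th w - th v))| := by
  have e : uu A v - uu A w = -uu A v *
      (Complex.exp (Complex.I * (2 * (π / Th * (th w - th v)) : ℝ)) - 1) := by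
    rw [uu_def hv, uu_def hw, mul_sub, neg_mul, ← Complex.exp_add, mul_one, sub_neg_eq_add,
      neg_add_eq_sub]
    congr 2
    push_cast
    ring
  rw [e, norm_mul, norm_neg, show ‖uu A v‖ = 1 from norm_uu (A := 5) le_rfl hv, one_mul,
    Complex.norm_exp_I_mul_ofReal_sub_one, mul_div_cancel_left₀ _ two_ne_zero, Real.norm_eq_abs,
    abs_mul, abs_two]

theorem log_sq_le {a b : ℝ} (h : 0 < a * b) : a * b * (log a - log b) ^ 2 ≤ (a - b) ^ 2 := by
  have ha := left_ne_zero_of_mul h.ne'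
  have hb := right_ne_zero_of_mul h.ne'
  have h1 := cosh_log (show 0 < a / b from div_pos_iff.2 (mul_pos_iff.1 h))
  rw [log_div ha hb] at h1
  generalize log a - log b = s at h1 ⊢
  have h2 := cosh_two_mul (s / 2)
  have h3 : |s / 2| ≤ |sinh (s / 2)| := by
    rw [abs_sinh]
    exact self_le_sinh_iff.2 (abs_nonneg _)
  rw [mul_div_cancel₀ _ two_ne_zero, h1, cosh_sq] at h2
  have h4 : (a - b) ^ 2 = a * b * (a / b + (a / b)⁻¹ - 2) := by
    field_simp
    ring
  rw [h4]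
  exact mul_le_mul_of_nonneg_left (by nlinarith [sq_le_sq.2 h3]) h.le

theorem le_log_sq {a b : ℝ} (ha : 0 < a) (hb : 0 < b) (h : |log a - log b| ≤ Th / 2) :
    (a - b) ^ 2 ≤ 66 * (a * b) * (log a - log b) ^ 2 := by
  wlog hab : b ≤ a
  · have := this hb ha (by rwa [abs_sub_comm]) (not_le.1 hab).le
    linarith
  have h1 := log_le_sub_one_of_pos (div_pos hb ha)
  rw [log_div hb.ne' ha.ne', le_sub_iff_add_le, le_div_iff₀ ha] at h1
  have h2 : a ≤ 66 * b := by
    refine (log_le_log_iff ha (by positivity)).1 ?_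
    have h3 := log_le_log (by positivity) (show (4 + √17) ^ 2 ≤ (66 : ℝ) by linarith [s_sq, s_lt])
    rw [log_pow] at h3
    rw [log_mul (by norm_num) hb.ne']
    push_cast at h3
    unfold Th at h
    linarith [le_abs_self (log a - log b)]
  calc (a - b) ^ 2 ≤ (a * (log a - log b)) ^ 2 := pow_le_pow_left₀ (by linarith) (by linarith) 2
    _ = a * a * (log a - log b) ^ 2 := by ring
    _ ≤ _ := mul_le_mul_of_nonneg_right (by nlinarith) (sq_nonneg _)

theorem ii_eq (v w : V2) : i2 v * i1 w * (i1 v * i2 w) = nq A v * nq A w := by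
  rw [← i1_mul_i2, ← i1_mul_i2]
  ring

/-- close vectors have close directions -/
theorem uu_upper (h : 0 < nq A v * nq A w) :
    ‖uu A v - uu A w‖ ^ 2 * (nq A v * nq A w) ≤ 16 * (det v w : ℝ) ^ 2 := by
  have hv := ne_zero_of_nq (left_ne_zero_of_mul h.ne')
  have hw := ne_zero_of_nq (right_ne_zero_of_mul h.ne')
  have h0 : (0 : ℝ) < nq A v * nq A w := by exact_mod_cast h
  have h1 := log_sq_le (h0.trans_eq (ii_eq v w).symm)
  rw [ii_eq (A := A), ← th_sub hv hw, det_i, mul_pow, s_sq] at h1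
  have h2 : π / Th ≤ 2 / 5 := by
    rw [div_le_iff₀ Th_pos]
    linarith [Th_ge, pi_lt_d2]
  have h3 : ‖uu A v - uu A w‖ ≤ 4 / 5 * |th w - th v| := by
    have := abs_sin_le_abs (x := π / Th * (th w - th v))
    rw [abs_mul, abs_of_pos (div_pos pi_pos Th_pos)] at this
    rw [norm_uu_sub hv hw]
    nlinarith [abs_nonneg (th w - th v)]
  have h4 := pow_le_pow_left₀ (norm_nonneg _) h3 2
  rw [mul_pow, sq_abs] at h4
  nlinarith [mul_le_mul_of_nonneg_right h4 h0.le, sq_nonneg (det v w : ℝ)]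

theorem uu_lower0 (h1 : 0 < i1 v) (h2 : 0 < i2 v) (h3 : 0 < i1 w) (h4 : 0 < i2 w)
    (h : |th w - th v| ≤ Th / 2) :
    (det v w : ℝ) ^ 2 ≤ 100 * ‖uu A v - uu A w‖ ^ 2 * (nq A v * nq A w) := by
  have hv : v ≠ 0 := fun e => by simp [e, i1] at h1
  have hw : w ≠ 0 := fun e => by simp [e, i1] at h3
  have a := le_log_sq (mul_pos h2 h3) (mul_pos h1 h4) (by rwa [← th_sub hv hw])
  have h0 := mul_pos (mul_pos h2 h3) (mul_pos h1 h4)
  rw [ii_eq (A := A)] at h0
  rw [ii_eq (A := A), ← th_sub hv hw, det_i, mul_pow, s_sq] at a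
  have p := div_pos pi_pos Th_pos
  have b := mul_abs_le_abs_sin (x := π / Th * (th w - th v)) (by
    rw [abs_mul, abs_of_pos p]
    refine (mul_le_mul_of_nonneg_left h p.le).trans_eq ?_
    have := Th_pos
    field_simp)
  rw [abs_mul, abs_of_pos p, ← mul_assoc, div_mul_div_cancel₀ pi_ne_zero] at b
  have c : 2 / 9 ≤ 2 / Th := div_le_div_of_nonneg_left zero_le_two Th_pos Th_le
  have d : 4 / 9 * |th w - th v| ≤ ‖uu A v - uu A w‖ := by
    rw [norm_uu_sub hv hw]
    nlinarith [abs_nonneg (th w - th v)]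
  have e := pow_le_pow_left₀ (by positivity) d 2
  rw [mul_pow, sq_abs] at e
  nlinarith [mul_le_mul_of_nonneg_right e h0.le, mul_nonneg (sq_nonneg ‖uu A v - uu A w‖) h0.le]

/-- vectors of the cone with close directions are close, or close after one turn -/
theorem uu_lower (hv : Cn v) (hw : Cn w) :
    (det v w : ℝ) ^ 2 ≤ 100 * ‖uu A v - uu A w‖ ^ 2 * (nq A v * nq A w) ∨
    (det w (mul A eu v) : ℝ) ^ 2 ≤ 100 * ‖uu A v - uu A w‖ ^ 2 * (nq A v * nq A w) ∨
    (det v (mul A eu w) : ℝ) ^ 2 ≤ 100 * ‖uu A v - uu A w‖ ^ 2 * (nq A v * nq A w) := by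
  have key : ∀ {v w : V2}, Cn v → Cn w → Th / 2 ≤ th v - th w →
      (det v (mul A eu w) : ℝ) ^ 2 ≤ 100 * ‖uu A v - uu A w‖ ^ 2 * (nq A v * nq A w) :=
    fun {v w} hv hw h => by
      have := uu_lower0 (A := A) (w := mul A eu w) (i1_pos hv) (i2_pos hv)
        (by rw [i1_mul, i1_eu]; exact mul_pos (by positivity) (i1_pos hw))
        (by rw [i2_mul, i2_eu]; exact mul_pos (by positivity) (i2_pos hw)) (by
          rw [th_mul (by decide) hw.ne, th_eu, abs_le]
          constructor <;> linarith [th_nonneg hw, th_le hv, Th_pos])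
      rwa [uu_unit nq_eu, nq_mul, nq_eu, one_mul] at this
  by_cases h : |th w - th v| ≤ Th / 2
  · exact Or.inl (uu_lower0 (i1_pos hv) (i2_pos hv) (i1_pos hw) (i2_pos hw) h)
  rcases lt_abs.1 (not_le.1 h) with h | h
  · have := key hw hv h.le
    rw [norm_sub_rev, mul_comm (nq A w : ℝ)] at this
    exact Or.inr (Or.inl this)
  · exact Or.inr (Or.inr (key hv hw (by linarith)))

theorem uu_eq_iff (hv : Cn v) (hw : Cn w) : uu A v = uu A w ↔ det v w = 0 := by
  constructor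
  · intro e
    have h := uu_lower (A := A) hv hw
    have a := hv.pos.trans_le (det_e_pos (A := A) hv hw)
    have b := hw.pos.trans_le (det_e_pos (A := A) hw hv)
    simp only [e, sub_self, norm_zero, ne_eq, OfNat.ofNat_ne_zero, not_false_eq_true, zero_pow,
      mul_zero, zero_mul, sq_nonpos_iff, Int.cast_eq_zero] at h
    omega
  · intro e
    have h0 := mul_pos (hv.nq_pos (A := A)) (hw.nq_pos (A := A))
    have h := uu_upper h0
    rw [e, Int.cast_zero, zero_pow two_ne_zero, mul_zero] at h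
    have := nonpos_of_mul_nonpos_left h (by exact_mod_cast h0)
    exact sub_eq_zero.1 (norm_eq_zero.1 (sq_nonpos_iff _ |>.1 this))

theorem uu_eq_unit (hv : 0 < nq A v) (hw : 0 < nq A w) (h : uu A v = uu A w) :
    ∃ η, nq A η = 1 ∧ det v (mul A η w) = 0 := by
  have a := (uu_eq_iff (A := A) (red_cn hv) (red_cn hw)).1 (by rwa [uu_red, uu_red])
  have b := det_mul' (A := A) (cj (un A v)) (red A v) (red A w)
  rw [a, mul_zero, red, red, cj_unit (nq_un v), ← mul_as'] at b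
  exact ⟨_, by rw [nq_mul, nq_cj, nq_un, nq_un, one_mul], b⟩

theorem uu_sep (hv : 0 < nq A v) (hw : 0 < nq A w) (h : uu A v ≠ uu A w) :
    1 ≤ 100 * ‖uu A v - uu A w‖ ^ 2 * (nq A v * nq A w) := by
  have c := red_cn hv
  have d := red_cn hw
  have e := uu_lower (A := A) c d
  have k : ∀ x : ℤ, x ≠ 0 → (1 : ℝ) ≤ (x : ℝ) ^ 2 := fun x hx => by
    exact_mod_cast (sq_pos_of_ne_zero hx : 0 < x ^ 2)
  rw [uu_red, uu_red, nq_red, nq_red] at e
  rcases e with e | e | e <;> refine (k _ ?_).trans e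
  · exact fun e => h (by rw [← uu_red v, ← uu_red w]; exact (uu_eq_iff c d).2 e)
  · exact (c.pos.trans_le (det_e_pos c d)).ne'
  · exact (d.pos.trans_le (det_e_pos d c)).ne'

theorem abs_le_sqrt_nq (h : Cn v) : |(v.1 : ℝ)| ≤ 25 * √(nq A v) ∧ |(v.2 : ℝ)| ≤ 25 * √(nq A v) := by
  have a : (0 : ℝ) ≤ nq A v := by exact_mod_cast h.nq_pos.le
  constructor <;> refine abs_le_of_sq_le_sq ?_ (by positivity) <;> rw [mul_pow, sq_sqrt a]
  · exact_mod_cast h.sq_le
  · exact_mod_cast h.sq_le'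

theorem norm_uu_sub_le {d : V2} {r : ℝ} (hv : Cn v) (h1 : |(d.1 : ℝ)| ≤ r) (h2 : |(d.2 : ℝ)| ≤ r) :
    ‖uu A v - uu A (v + d)‖ * √(nq A v) ≤ 2000 * r := by
  have r0 := (abs_nonneg _).trans h1
  have q0 : (0 : ℝ) < nq A v := by exact_mod_cast hv.nq_pos
  obtain ⟨a1, a2⟩ := abs_le_sqrt_nq (A := A) hv
  have es := sq_sqrt q0.le
  have s0 := sqrt_pos.2 q0
  generalize √(nq A v : ℝ) = s at *
  rcases le_total s (1000 * r) with h | h
  · have := (norm_sub_le _ _).trans (add_le_add (norm_uu_le (A := A) v) (norm_uu_le (A := A) (v + d)))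
    nlinarith
  have m : ∀ {x y a b : ℝ}, |x| ≤ a → |y| ≤ b → |x * y| ≤ a * b := fun h h' =>
    (abs_mul _ _).trans_le (mul_le_mul h h' (abs_nonneg _) ((abs_nonneg _).trans h))
  have b1 := abs_le.1 (m a1 h1)
  have b2 := abs_le.1 (m a1 h2)
  have b3 := abs_le.1 (m a2 h1)
  have b4 := abs_le.1 (m a2 h2)
  have b5 := abs_le.1 (m h1 h2)
  have b6 := abs_le.1 (m h2 h2)
  have rs : 1000 * (r * s) ≤ s * s := by nlinarith
  have rr : 1000 * (r * r) ≤ r * s := by nlinarith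
  have c1 : s ^ 2 / 2 ≤ nq A (v + d) := by
    have : (nq A (v + d) : ℝ) = nq A v + (2 * (v.1 * d.1) + v.1 * d.2 + v.2 * d.1 - 8 * (v.2 * d.2)) +
        (d.1 ^ 2 + d.1 * d.2 - 4 * (d.2 * d.2)) := by
      simp only [nq, Prod.fst_add, Prod.snd_add]
      push_cast
      ring
    nlinarith [sq_nonneg (d.1 : ℝ)]
  have c2 : |(det v (v + d) : ℝ)| ≤ 50 * (s * r) := by
    have : (det v (v + d) : ℝ) = v.1 * d.2 - v.2 * d.1 := by
      simp only [det, Prod.fst_add, Prod.snd_add]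
      push_cast
      ring
    rw [this, abs_le]
    constructor <;> linarith
  have c3 := uu_upper (A := A) (v := v) (w := v + d) (mul_pos hv.nq_pos (by
    exact_mod_cast (lt_of_lt_of_le (by positivity) c1 : (0 : ℝ) < nq A (v + d))))
  have c4 := pow_le_pow_left₀ (abs_nonneg _) c2 2
  rw [sq_abs] at c4
  refine abs_le_of_sq_le_sq' (le_of_mul_le_mul_right ?_ (pow_pos s0 2)) (by positivity) |>.2
  have c5 := mul_le_mul_of_nonneg_left (mul_le_mul_of_nonneg_left c1 q0.le)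
    (sq_nonneg ‖uu A v - uu A (v + d)‖)
  rw [← es] at c5 c3
  nlinarith [sq_nonneg (s * r)]

end Pool.Agent.P.MP_6f5b02_nt.Hy.Mr
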