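import Pool.Agent.P.MP_6f5b02_nt.Hy.BasicA

/-! Basic facts for the mean value part. -/

namespace Pool.Agent.P.MP_6f5b02_nt.Hy.Mr

open Pool.Agent.P.MP_8be758_nt Pool.Agent.P.MP_8be758_nt.Pd
open Finset Real
open Pool.Agent.P.MP_8be758_nt.Par (cj det)
open Pool.Agent.P.MP_6f5b02_nt.Hy.Par

variable {A : ℕ} {v w : V2}

theorem mul_cm (v w : V2) : mul A v w = mul A w v := by
  simp only [mul, Prod.mk.injEq]; constructor <;> ring

theorem mul_as (u v w : V2) : mul A (mul A u v) w = mul A u (mul A v w) := by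
  simp only [mul, Prod.mk.injEq]; constructor <;> ring

theorem mul_lc (u v w : V2) : mul A u (mul A v w) = mul A v (mul A u w) := by
  simp only [mul, Prod.mk.injEq]; constructor <;> ring

theorem mul_e (v : V2) : mul A v (1, 0) = v := by simp [mul]

theorem e_mul (v : V2) : mul A (1, 0) v = v := by simp [mul]

theorem mul_sm (c : ℤ) (v w : V2) : mul A v (c • w) = c • mul A v w := by
  ext <;> simp [mul] <;> ring

theorem mul_ad (u v w : V2) : mul A u (v + w) = mul A u v + mul A u w := by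
  ext <;> simp [mul] <;> ring

theorem cj_mul (v w : V2) : cj (mul A v w) = mul A (cj v) (cj w) := by
  simp only [mul, cj, Prod.mk.injEq]; constructor <;> ring

theorem cj_mul_mul (g v : V2) : mul A (cj g) (mul A g v) = nq A g • v := by
  ext <;> simp [mul, cj, nq] <;> ring

theorem mul_cj_mul (g v : V2) : mul A g (mul A (cj g) v) = nq A g • v := by
  rw [mul_lc, cj_mul_mul]

theorem det_mul (g v w : V2) : det (mul A g v) (mul A g w) = nq A g * det v w := by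
  simp only [det, mul, nq]; ring

theorem mul_inj (hA : 5 ≤ A) {g : V2} (hg : g ≠ 0) (h : mul A g v = mul A g w) : v = w := by
  have := congrArg (mul A (cj g)) h
  rw [cj_mul_mul, cj_mul_mul] at this
  exact smul_right_injective _ (Par.nq_ne hg) this

theorem dv_iff {p : ℕ} {g : V2} : Dv A p g v ↔ ∃ u : V2, (p : ℤ) • u = mul A g v :=
  ⟨fun ⟨⟨a, ha⟩, b, hb⟩ => ⟨(a, b), Prod.ext ha.symm hb.symm⟩,
    fun ⟨u, h⟩ => ⟨⟨u.1, (congrArg Prod.fst h).symm⟩, u.2, (congrArg Prod.snd h).symm⟩⟩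

theorem pv_zero : pv A 0 = (1, 0) := rfl

theorem pv_cons (g : V2) (s : Multiset V2) : pv A (g ::ₘ s) = mul A g (pv A s) :=
  Multiset.foldr_cons _ _ _ _

theorem pv_add (s t : Multiset V2) : pv A (s + t) = mul A (pv A s) (pv A t) := by
  induction s using Multiset.induction_on with
  | empty => rw [zero_add, pv_zero, e_mul]
  | cons g s ih => rw [Multiset.cons_add, pv_cons, pv_cons, ih, mul_as]

theorem nq_pv (s : Multiset V2) : nq A (pv A s) = (s.map (nq A)).prod := by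
  induction s using Multiset.induction_on with
  | empty => simp [pv_zero, nq]
  | cons g s ih => rw [pv_cons, nq_mul, ih, Multiset.map_cons, Multiset.prod_cons]

theorem cj_pv (s : Multiset V2) : cj (pv A s) = pv A (s.map cj) := by
  induction s using Multiset.induction_on with
  | empty => simp [pv_zero, cj]
  | cons g s ih => rw [pv_cons, cj_mul, ih, Multiset.map_cons, pv_cons]

theorem one_le_nq (hv : Cn v) : (1 : ℝ) ≤ nq A v := by exact_mod_cast hv.nq_pos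

theorem dv_unit {p : ℕ} {g η : V2} (h : nq A η = 1) : Dv A p g (mul A η v) ↔ Dv A p g v := by
  rw [Dv, mul_lc, dvd_unit h, Dv]

theorem dv_red {p : ℕ} {g : V2} : Dv A p g (red A v) ↔ Dv A p g v := dv_unit (nq_un v)

theorem mem_An0 (hA : 5 ≤ A) {N1 N2 : ℝ} :
    v ∈ An (Q0 A) N1 N2 ↔ Cn v ∧ N1 < (nq A v : ℝ) ∧ (nq A v : ℝ) ≤ N2 := by
  rw [mem_An hA (Q0_red A), ev_Q0]

theorem mem_VV0 (hA : 5 ≤ A) {N1 N2 : ℝ} :
    v ∈ VV (Q0 A) N1 N2 ↔ Cn v ∧ Pr v ∧ N1 < (nq A v : ℝ) ∧ (nq A v : ℝ) ≤ N2 := by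
  rw [mem_VV hA (Q0_red A), ev_Q0]

theorem mem_VX (hA : 5 ≤ A) {X : ℝ} :
    v ∈ VX A X ↔ Cn v ∧ Pr v ∧ X < (nq A v : ℝ) ∧ (nq A v : ℝ) ≤ 2 * X := mem_VV0 hA

theorem of_mem_An0 (hA : 5 ≤ A) {N1 N2 : ℝ} (h : v ∈ An (Q0 A) N1 N2) :
    N1 < (nq A v : ℝ) ∧ (nq A v : ℝ) ≤ N2 := ((mem_An0 hA).1 h).2

theorem of_mem_VV0 (hA : 5 ≤ A) {N1 N2 : ℝ} (h : v ∈ VV (Q0 A) N1 N2) :
    Pr v ∧ N1 < (nq A v : ℝ) ∧ (nq A v : ℝ) ≤ N2 := ((mem_VV0 hA).1 h).2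

theorem of_mem_VX (hA : 5 ≤ A) {X : ℝ} (h : v ∈ VX A X) :
    Pr v ∧ X < (nq A v : ℝ) ∧ (nq A v : ℝ) ≤ 2 * X := ((mem_VX hA).1 h).2

theorem VV_sub_An (hA : 5 ≤ A) (N1 N2 : ℝ) : VV (Q0 A) N1 N2 ⊆ An (Q0 A) N1 N2 :=
  fun _ hv => (mem_An0 hA).2 ⟨((mem_VV0 hA).1 hv).1, ((mem_VV0 hA).1 hv).2.2⟩

theorem ne_of_mem_An (hA : 5 ≤ A) {N1 N2 : ℝ} (_ : 0 ≤ N1) (h : v ∈ An (Q0 A) N1 N2) : v ≠ 0 :=
  ((mem_An0 hA).1 h).1.ne

theorem norm_ek (hA : 5 ≤ A) (k : ℤ) (hv : v ≠ 0) : ‖ek A k v‖ = 1 := by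
  rw [ek, norm_zpow, norm_uu hA hv, one_zpow]

theorem norm_ek_le (hA : 5 ≤ A) (k : ℤ) (v : V2) : ‖ek A k v‖ ≤ 1 := by
  rcases eq_or_ne v 0 with rfl | hv
  · rcases eq_or_ne k 0 with rfl | hk
    · simp [ek]
    · simp [ek, uu_zero, zero_zpow k hk]
  · exact (norm_ek hA k hv).le

theorem ek_zero (v : V2) : ek A 0 v = 1 := zpow_zero _

theorem ek_e (k : ℤ) : ek A k (1, 0) = 1 := by rw [ek, uu_e, one_zpow]

theorem ek_mul (hA : 5 ≤ A) (k : ℤ) (v w : V2) : ek A k (mul A v w) = ek A k v * ek A k w := by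
  rw [ek, ek, ek, uu_mul hA, mul_zpow]

theorem ek_smul {c : ℤ} (hc : c ≠ 0) (k : ℤ) (v : V2) : ek A k (c • v) = ek A k v := by
  rw [ek, ek, uu_smul hc]

theorem ek_cj (k : ℤ) (v : V2) : ek A k (cj v) = (starRingEnd ℂ) (ek A k v) := by
  rw [ek, ek, uu_cj, map_zpow₀]

theorem ek_pv (hA : 5 ≤ A) (k : ℤ) (s : Multiset V2) :
    ek A k (pv A s) = (s.map (ek A k)).prod := by
  induction s using Multiset.induction_on with
  | empty => simp [pv_zero, ek_e]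
  | cons g s ih => rw [pv_cons, ek_mul hA, ih, Multiset.map_cons, Multiset.prod_cons]

theorem ek_zpow (k j : ℤ) (v : V2) : ek A k v ^ j = ek A (k * j) v := (zpow_mul _ _ _).symm

theorem ek_mul_conj (hA : 5 ≤ A) (k j : ℤ) (hv : v ≠ 0) :
    ek A k v * (starRingEnd ℂ) (ek A j v) = ek A (k - j) v := by
  rw [← Complex.inv_eq_conj (norm_ek hA j hv), ek, ek, ek, zpow_sub₀ (uu_ne hA hv), div_eq_mul_inv]

theorem abs_fl (v : V2) : |fl A v| = 1 := abs_lam _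

theorem norm_fl (v : V2) : ‖(fl A v : ℂ)‖ = 1 := by rw [Complex.norm_real, Real.norm_eq_abs, abs_fl]

theorem fl_e : fl A (1, 0) = 1 := by simp [fl, nq, lam]

theorem rho_le_two {p : ℕ} (hp : p.Prime) : rho A p ≤ 2 := by
  rcases eq_or_ne p 2 with rfl | h
  · exact (card_filter_le _ _).trans_eq (card_range 2)
  · have := rho_prime A p hp h
    rcases jacobiSym.trichotomy p 17 with e | e | e <;> omega

theorem Gp.ne {β p : ℕ} {γ : ℕ → V2} (h : Gp A β γ p) (hβ : 1 ≤ β) : γ p ≠ 0 :=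
  ne_zero_of_nq (A := A) (by
    rw [h.2.2]
    exact_mod_cast (Nat.mul_pos hβ h.1.pos).ne')

theorem not_dvd_of_nq {β p : ℕ} {g : V2} (h1 : 1 ≤ β) (h2 : β < p) (h : nq A g = β * p) :
    ¬((p : ℤ) ∣ g.1 ∧ (p : ℤ) ∣ g.2) := by
  rintro ⟨⟨a, ha⟩, b, hb⟩
  have hp : (0 : ℤ) < p := by omega
  have : (p : ℤ) ∣ β := ⟨nq A (a, b), mul_left_cancel₀ hp.ne' (by
    simp only [nq, ha, hb] at h ⊢
    linear_combination -h)⟩
  have := Int.le_of_dvd (by omega) this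
  omega

theorem Blk.card_le {β : ℕ} {γ : ℕ → V2} {I : Finset ℕ} {P : ℝ} (h : Blk A β γ I P) :
    (I.card : ℝ) ≤ 2 * P := by
  have h0 : 0 ≤ 2 * P := by linarith [h.2.2.1]
  have : I ⊆ Icc 1 ⌊2 * P⌋₊ := fun p hp =>
    mem_Icc.2 ⟨(h.2.2.2 p hp).1.1.pos, Nat.le_floor (h.2.2.2 p hp).2.2⟩
  have := card_le_card this
  rw [Nat.card_Icc, Nat.add_sub_cancel] at this
  exact le_trans (by exact_mod_cast this) (Nat.floor_le h0)

namespace St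

variable {σ : St} {p h : ℕ}

theorem mem_I : p ∈ σ.I h ↔ p ∈ σ.S ∧ σ.blk p = h := mem_filter

theorem mem_W (hA : 5 ≤ A) {X : ℝ} : v ∈ σ.W A X h ↔ (Cn v ∧
    σ.β * X / σ.Ph h < (nq A v : ℝ) ∧ (nq A v : ℝ) ≤ 2 * σ.β * X / σ.Ph h) ∧ σ.Lam A v := by
  rw [W, mem_filter, mem_An0 hA]

theorem lam_unit {η : V2} (h : nq A η = 1) (h1 : σ.Lam A v) : σ.Lam A (mul A η v) :=
  let ⟨a, w, b, c⟩ := h1
  ⟨by rwa [gcd_unit h], mul A η w, by rw [← mul_sm, b, mul_lc], by rwa [gcd_unit h]⟩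

theorem E_nonneg : 0 ≤ σ.E := sum_nonneg fun _ _ => by positivity

theorem om_eq (v : V2) : σ.om A v = ∑ p ∈ σ.S, ind (Dv A p (cj (σ.γ p)) v) := by
  rw [om, card_filter]
  push_cast
  exact sum_congr rfl fun p _ => by split_ifs with h <;> simp [ind, h]

theorem om_nonneg (v : V2) : 0 ≤ σ.om A v := Nat.cast_nonneg _

theorem mu_nonneg (X : ℝ) (v : V2) : 0 ≤ σ.mu A X v := sum_nonneg fun _ _ => ind_nonneg _

theorem ab_nonneg (X : ℝ) (v : V2) : 0 ≤ σ.ab A X v :=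
  add_nonneg (add_nonneg (mul_nonneg (ind_nonneg _) (abs_nonneg _))
    (mul_nonneg (ind_nonneg _) (om_nonneg v))) (mu_nonneg X v)

namespace OK

variable (H : σ.OK A)
include H

theorem gp (hp : p ∈ σ.S) : Gp A σ.β σ.γ p := (H.2.2.2.2.2 p hp).1

theorem ne (hp : p ∈ σ.S) : σ.γ p ≠ 0 := (H.gp hp).ne H.1

theorem lt (hp : p ∈ σ.S) : σ.β < p := H.2.1.trans_lt (H.gp hp).2.1

theorem not_dvd (hp : p ∈ σ.S) : ¬((p : ℤ) ∣ (σ.γ p).1 ∧ (p : ℤ) ∣ (σ.γ p).2) :=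
  not_dvd_of_nq H.1 (H.lt hp) (H.gp hp).2.2

theorem not_dvd_cj (hp : p ∈ σ.S) : ¬((p : ℤ) ∣ (cj (σ.γ p)).1 ∧ (p : ℤ) ∣ (cj (σ.γ p)).2) :=
  not_dvd_of_nq H.1 (H.lt hp) ((nq_cj _).trans (H.gp hp).2.2)

theorem dvd_nq (hp : p ∈ σ.S) : (p : ℤ) ∣ nq A (σ.γ p) := (H.gp hp).2.2 ▸ Dvd.intro_left _ rfl

theorem one_le_Q : 1 ≤ σ.Q := H.2.2.1.trans H.2.2.2.1

theorem P_le_Ph (h : ℕ) : σ.P ≤ σ.Ph h := by
  have h1 := H.2.2.1
  have h2 := H.2.2.2.2.1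
  exact le_mul_of_one_le_right (by linarith) (one_le_exp (by positivity))

theorem one_le_Ph (h : ℕ) : 1 ≤ σ.Ph h := H.2.2.1.trans (H.P_le_Ph h)

theorem Ph_pos (h : ℕ) : 0 < σ.Ph h := one_pos.trans_le (H.one_le_Ph h)

theorem Ph_le_of {x : ℝ} (hx : σ.P ≤ x) (hh : h ≤ ⌊σ.H * log (x / σ.P)⌋₊) : σ.Ph h ≤ x := by
  have h1 := H.2.2.1
  have h2 := H.2.2.2.2.1
  have h3 : 1 ≤ x / σ.P := (one_le_div (by linarith)).2 hx
  have h4 : (h : ℝ) ≤ σ.H * log (x / σ.P) :=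
    (Nat.le_floor_iff (mul_nonneg (by linarith) (log_nonneg h3))).1 hh
  have h5 : exp (h / σ.H) ≤ x / σ.P :=
    (le_log_iff_exp_le (by linarith)).1 ((div_le_iff₀' (by linarith)).2 h4)
  rwa [le_div_iff₀' (by linarith)] at h5

theorem Ph_le (hp : p ∈ σ.S) : σ.Ph (σ.blk p) ≤ p := H.Ph_le_of (H.2.2.2.2.2 p hp).2.1.le le_rfl

theorem Ph_le_Q (hh : h < σ.nb) : σ.Ph h ≤ σ.Q := H.Ph_le_of H.2.2.2.1 (Nat.lt_succ_iff.1 hh)

theorem le_Ph (hp : p ∈ σ.S) : (p : ℝ) ≤ exp (1 / σ.H) * σ.Ph (σ.blk p) := by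
  have h1 := H.2.2.1
  have h2 := H.2.2.2.2.1
  have h3 := (H.2.2.2.2.2 p hp).2.1
  have h4 : σ.H * log (p / σ.P) < σ.blk p + 1 := Nat.lt_floor_add_one _
  have h5 : p / σ.P ≤ exp ((σ.blk p + 1) / σ.H) :=
    (log_le_iff_le_exp (div_pos (by linarith) (by linarith))).1
      ((le_div_iff₀' (by linarith)).2 h4.le)
  rw [div_le_iff₀ (by linarith), add_div, exp_add] at h5
  rw [Ph]
  linarith

theorem exp_le : exp (1 / σ.H) ≤ 1 + 2 / σ.H := by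
  have h2 := H.2.2.2.2.1
  have h3 : 0 ≤ 1 / σ.H := by positivity
  have h4 : 1 / σ.H ≤ 1 := (div_le_one (by linarith)).2 (by linarith)
  have := abs_exp_sub_one_le (x := 1 / σ.H) (by rwa [abs_of_nonneg h3])
  rw [abs_of_nonneg h3] at this
  have h5 : 2 / σ.H = 2 * (1 / σ.H) := by ring
  linarith [le_abs_self (exp (1 / σ.H) - 1)]

theorem exp_le_two : exp (1 / σ.H) ≤ 2 := by
  have h2 := H.2.2.2.2.1
  have : 2 / σ.H ≤ 1 := (div_le_one (by linarith)).2 h2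
  linarith [H.exp_le]

theorem le_two_Ph (hp : p ∈ σ.S) : (p : ℝ) ≤ 2 * σ.Ph (σ.blk p) :=
  (H.le_Ph hp).trans (mul_le_mul_of_nonneg_right H.exp_le_two (H.Ph_pos _).le)

theorem blk_lt (hp : p ∈ σ.S) : σ.blk p < σ.nb := by
  have h1 := H.2.2.1
  have h2 := H.2.2.2.2.1
  obtain ⟨-, h3, h4, -⟩ := H.2.2.2.2.2 p hp
  refine Nat.lt_succ_of_le (Nat.floor_le_floor ?_)
  gcongr
  exact div_pos (by linarith) (by linarith)

theorem sum_blk {M : Type} [AddCommMonoid M] (g : ℕ → M) :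
    ∑ h ∈ range σ.nb, ∑ p ∈ σ.I h, g p = ∑ p ∈ σ.S, g p :=
  sum_fiberwise_of_maps_to (fun _ hp => mem_range.2 (H.blk_lt hp)) g

theorem G_eq_zero (hh : σ.nb ≤ h) (k : ℤ) : σ.G A h k = 0 :=
  sum_eq_zero fun p hp => by
    have := H.blk_lt (mem_I.1 hp).1
    have := (mem_I.1 hp).2
    omega

theorem blk_I (h : ℕ) : Blk A σ.β σ.γ (σ.I h) (σ.Ph h) :=
  ⟨H.1, H.2.1, H.one_le_Ph h, fun p hp => by
    obtain ⟨h1, rfl⟩ := mem_I.1 hp
    exact ⟨H.gp h1, H.Ph_le h1, H.le_two_Ph h1⟩⟩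

theorem sm_W (hA : 5 ≤ A) {X : ℝ} (hX : 0 ≤ X) (h : ℕ) :
    Sm A (σ.W A X h) (8 * A * X / σ.Ph h) := fun u hu => by
  obtain ⟨⟨h1, -, h2⟩, h3, -⟩ := (mem_W hA).1 hu
  have h5 : (σ.β : ℝ) ≤ 4 * A := by exact_mod_cast H.2.1
  refine ⟨h1, (Nat.le_of_dvd H.1 h3).trans H.2.1, h2.trans ?_⟩
  exact div_le_div_of_nonneg_right (by nlinarith) (H.Ph_pos h).le

theorem card_le : (σ.S.card : ℝ) ≤ σ.Q := by
  have : σ.S ⊆ Icc 1 ⌊σ.Q⌋₊ := fun p hp =>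
    mem_Icc.2 ⟨(H.gp hp).1.pos, Nat.le_floor (H.2.2.2.2.2 p hp).2.2.1⟩
  have := card_le_card this
  rw [Nat.card_Icc, Nat.add_sub_cancel] at this
  exact le_trans (by exact_mod_cast this) (Nat.floor_le (by linarith [H.one_le_Q]))

theorem nb_le_log : (σ.nb : ℝ) ≤ σ.H * log σ.Q + 1 := by
  have h1 := H.2.2.1
  have h2 := H.2.2.2.2.1
  have h3 : 1 ≤ σ.Q / σ.P := (one_le_div (by linarith)).2 H.2.2.2.1
  have h4 := Nat.floor_le (mul_nonneg (show 0 ≤ σ.H by linarith) (log_nonneg h3))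
  have h5 : log (σ.Q / σ.P) ≤ log σ.Q :=
    log_le_log (by linarith) (div_le_self (by linarith [H.one_le_Q]) h1)
  rw [nb]
  push_cast
  nlinarith

theorem nb_le {μ : ℝ} (hμ : σ.Pm μ) : (σ.nb : ℝ) ≤ 2 * μ ^ 11 := by
  have h1 := H.nb_le_log
  have h2 := H.2.2.2.2.1
  rw [hμ.2.1, log_exp] at h1
  rw [hμ.2.2] at h1 h2
  have : 1 ≤ μ ^ 11 := one_le_pow₀ (by linarith)
  linarith [show μ ^ 11 = μ * μ ^ 10 by ring]

end OK

end St

end Pool.Agent.P.MP_6f5b02_nt.Hy.Mr
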