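import Pool.Agent.P.MP_6f5b02_nt.Hy.DefsT
import Pool.Agent.P.MP_8be758_nt.Pd.BasicT

/-! Membership lemmas for the transfer theorem. -/

namespace Pool.Agent.P.MP_6f5b02_nt.Hy

open Pool.Agent.P.MP_8be758_nt Pool.Agent.P.MP_8be758_nt.Pd
open Finset Real
open Pool.Agent.P.MP_8be758_nt.Par (det)

theorem fin_SD (ρ : Pr) (q : ℕ × ℕ × ℕ) {D1 D2 : ℕ} (h1 : 0 < D1) (h2 : 0 < D2) :
    {σ : Sd | (σ.q1, σ.q3, σ.q4) = q ∧ ρ.SA D1 D2 σ}.Finite := by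
  set N := D1 * q.2.1 + D1 * D2 * q.1 + D1 + D2
  let f : (ℕ × ℕ × ℕ × ℕ × ℕ × ℕ) → Sd := fun v =>
    ⟨q.1, q.2.1, q.2.2, v.1, v.2.1, v.2.2.1, v.2.2.2.1, v.2.2.2.2.1, v.2.2.2.2.2⟩
  have hI := Set.finite_Iic N
  refine ((hI.prod (hI.prod (hI.prod (hI.prod (hI.prod hI))))).image f).subset ?_
  rintro ⟨q1, q3, q4, e1, a1, e2, a2, s, t⟩ ⟨rfl, b1, b2, b3, b4, -, b6, -⟩
  simp only [Sd.E1, Sd.E2, Sd.a] at *
  have c1 := Nat.le_of_dvd h1 (dvd_of_mul_right_dvd b1)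
  have c2 := Nat.le_of_dvd h1 (dvd_of_mul_left_dvd b1)
  have c3 := Nat.le_of_dvd h2 (dvd_of_mul_right_dvd b2)
  have c4 := Nat.le_of_dvd h2 (dvd_of_mul_left_dvd b2)
  have c5 := Nat.le_of_dvd h1 b1
  have ht : 0 < t := Nat.pos_of_ne_zero fun e => by simp [e] at b3
  have hE : 0 < e2 * q4 := Nat.pos_of_ne_zero fun e => by simp [e] at b3
  have d1 : t ≤ D1 * q3 := by
    calc t ≤ t * (e2 * q4) := Nat.le_mul_of_pos_right _ hE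
      _ ≤ e1 * a1 * q3 := b4.trans_eq (by ring)
      _ ≤ _ := Nat.mul_le_mul_right _ c5
  have d2 : s ≤ D1 * D2 * q1 := by
    calc s ≤ s * t := Nat.le_mul_of_pos_right _ ht
      _ ≤ a1 * a2 * q1 := by omega
      _ ≤ _ := Nat.mul_le_mul_right _ (Nat.mul_le_mul c2 c4)
  refine ⟨(e1, a1, e2, a2, s, t), ?_, rfl⟩
  simp only [Set.mem_prod, Set.mem_Iic, N]
  omega

theorem mem_SD {ρ : Pr} {q : ℕ × ℕ × ℕ} {D1 D2 : ℕ} (h1 : 0 < D1) (h2 : 0 < D2) {σ : Sd} :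
    σ ∈ ρ.SD q D1 D2 ↔ (σ.q1, σ.q3, σ.q4) = q ∧ ρ.SA D1 D2 σ := mem_fs (fin_SD ρ q h1 h2)

theorem mem_Tu {ρ : Pr} {τ : G4 × Sd} : τ ∈ ρ.Tu ↔ ρ.IsTu τ := by
  refine mem_fs (Set.Finite.subset (Set.Finite.biUnion (ρ.E.finite_toSet.prod
    (ρ.I1 ×ˢ ρ.I3 ×ˢ ρ.I4).finite_toSet) fun v _ => (Set.finite_singleton v.1).prod
      (fin_SD ρ v.2 (fl_pos ρ (ρ.fm v.1).1) (fl_pos ρ (ρ.fm v.1).2.2))) fun τ hτ => ?_)
  obtain ⟨h1, -, h3, -, h5, -⟩ := hτ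
  simp only [Set.mem_iUnion]
  exact ⟨(τ.1, τ.2.q1, τ.2.q3, τ.2.q4), ⟨h1, by simpa [Pr.QR] using h3⟩, rfl, rfl, h5⟩

theorem mem_Tg {ρ : Pr} {τ : G4 × Sd} : τ ∈ ρ.Tg ↔ ρ.IsTu τ ∧ ρ.Gd (ρ.cy τ) := by
  simp only [Pr.Tg, mem_filter, mem_Tu]

theorem DA_pos {ρ : Pr} {D1 D2 : ℕ} (h : ρ.DA D1 D2) : 0 < D1 ∧ 0 < D2 := by
  have := h.1.ne_zero
  exact ⟨Nat.pos_of_ne_zero (left_ne_zero_of_mul this), Nat.pos_of_ne_zero (right_ne_zero_of_mul this)⟩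

theorem St.Big.mono {z : St} {c c' : ℕ} (h : z.Big c') (hc : c ≤ c') : z.Big c := by
  obtain ⟨h1, h2, h3, h4, h5, h6, h7, h8, h9, h10, h11, h12, h13⟩ := h
  exact ⟨h1, h2, h3, h4, hc.trans h5, hc.trans h6, h7, (Nat.mul_le_mul_right _ hc).trans h8, h9,
    (Nat.mul_le_mul_right _ hc).trans h10, h11, h12, (Nat.mul_le_mul_right _ hc).trans h13⟩

theorem St.Big.ev_X {z : St} (h : z.Big 1) (B : ℝ) : ∀ᶠ y : ℝ in Filter.atTop, B ≤ Pr.X ⟨z, y⟩ := by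
  obtain ⟨-, -, -, -, -, -, h7, h8, h9, h10, h11, h12, h13⟩ := h
  filter_upwards [Filter.eventually_ge_atTop (max 1 B)] with y hy
  exact (le_of_max_le_right hy).trans (le_self_pow₀ (le_of_max_le_left hy) (show z.u ≠ 0 by omega))

theorem St.Big.old {z : St} {c : ℕ} (h : z.Big c) : Pd.St.Big z c :=
  ⟨h.1, le_trans (by norm_num) h.2.1, h.2.2⟩

theorem Unif.of_old {S : ℝ → Pr → Prop} (h : Pd.Unif S) : Unif S :=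
  let ⟨c, hc⟩ := h
  ⟨c, fun A C1 => let ⟨C, h1, h2⟩ := hc A C1; ⟨C, h1, fun z a b hz => h2 z a b hz.old⟩⟩

end Pool.Agent.P.MP_6f5b02_nt.Hy
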