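import Pool.Agent.P.MP_6f5b02_nt.Hy.Ord
import Pool.Agent.P.MP_8be758_nt.Pd.Basic

/-! Forms of discriminant `17`, lattice points and edges in the fundamental cone. -/

namespace Pool.Agent.P.MP_6f5b02_nt.Hy

open Pool.Agent.P.MP_8be758_nt Pool.Agent.P.MP_8be758_nt.Pd
open Finset Real
open Pool.Agent.P.MP_8be758_nt.Par (det)

noncomputable section

/-- forms of discriminant `17` with positive first coefficient -/
def IsF (_ : ℕ) (ψ : Fm) : Prop := ψ.2.1 ^ 2 - 4 * ψ.1 * ψ.2.2 = (17 : ℤ) ∧ 0 < ψ.1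

instance (A : ℕ) : DecidablePred (IsF A) := fun _ => inferInstanceAs (Decidable (_ ∧ _))

/-- the principal form -/
def Q0 (_ : ℕ) : Fm := (1, 1, -4)

/-- the class number is one -/
def Red (A : ℕ) : Finset Fm := ({Q0 A} : Finset Fm).filter (IsF A)

/-- lattice points of the cone between two hyperbolas -/
def An (ψ : Fm) (N1 N2 : ℝ) : Finset V2 := fs {v | Cn v ∧ N1 < (ev ψ v : ℝ) ∧ (ev ψ v : ℝ) ≤ N2}

/-- primitive lattice points of the cone between two hyperbolas -/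
def VV (ψ : Fm) (N1 N2 : ℝ) : Finset V2 :=
  fs {v | Cn v ∧ IsCoprime v.1 v.2 ∧ N1 < (ev ψ v : ℝ) ∧ (ev ψ v : ℝ) ≤ N2}

/-- bases with first vector in the cone, first value about `Z`, middle coefficient in a window -/
def GG (ψ : Fm) (Z β1 β2 : ℝ) : Finset G4 :=
  fs {g | Cn g.1 ∧ det g.1 g.2 = 1 ∧ Z < (ev ψ g.1 : ℝ) ∧ (ev ψ g.1 : ℝ) ≤ 2 * Z ∧
    β1 * (ev ψ g.1 : ℝ) < (bl ψ g.1 g.2 : ℝ) ∧ (bl ψ g.1 g.2 : ℝ) ≤ β2 * (ev ψ g.1 : ℝ)}

/-- balanced edges -/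
def Ed (A : ℕ) (C1 X : ℝ) : Finset G4 := GG (Q0 A) X (1 / C1) C1

end

end Pool.Agent.P.MP_6f5b02_nt.Hy
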