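import Pool.Agent.P.MP_6f5b02_nt.Hy.DefsG
import Pool.Agent.P.MP_8be758_nt.Pd.DefsH

/-! Definitions for the lower bound of the sum over small data. -/

namespace Pool.Agent.P.MP_6f5b02_nt.Hy

open Pool.Agent.P.MP_8be758_nt Pool.Agent.P.MP_8be758_nt.Pd
open Finset Real

noncomputable section

/-- good residues at a small prime -/
def LW (P R a b : ℤ) (p : ℕ) (s0 t0 : ℤ) (l : V2) : Prop :=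
  ¬(p : ℤ) ∣ t0 ∧ (p : ℤ) ∣ s0 ∧ ¬(p : ℤ) ^ 2 ∣ a * R + b * t0 + P * t0 ^ 2 ∧
  (¬(p : ℤ) ^ 2 ∣ a * P + b * s0 + R * s0 ^ 2 ∨ ¬(p : ℤ) ∣ R) ∧
  ev (1, 1, -4) l ≡ a - s0 * t0 [ZMOD (p ^ 2 : ℕ)]

namespace Pr

open Pd.Pr

variable (ρ : Pr)

/-- the conditions on `(s, t)` -/
def SB (D : ℕ) (a : ℤ) (T : ℝ) (s t : ℕ) : Prop :=
  T < 2 * t ∧ (t : ℝ) ≤ T ∧ a ≤ 4 * (s * t) ∧ 2 * (s * t : ℤ) ≤ a ∧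
  (s * t * (a - s * t).natAbs).Coprime D ∧ Squarefree (a - s * t).natAbs ∧
  (∀ p : ℕ, p.Prime → (p : ℤ) ∣ a - s * t → ρ.w < p ∧ ((p : ℝ) ≤ ρ.y ∨ ρ.y ^ ρ.k4 < p)) ∧
  (∀ p : ℕ, p.Prime → p ∣ t → ρ.w < p) ∧
  (ρ.fl (a - s * t) : ℝ) ≤ ρ.y ^ (2 * ρ.K) ∧ (ρ.om (a - s * t) : ℝ) ≤ ρ.K * ρ.La ∧
  ρ.si (s * t * (a - s * t)) ≤ 3 / √ρ.w

/-- hypotheses of the lattice count -/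
def HH (ψ : Fm) (a : ℤ) (D t : ℕ) (Bd : ℕ → ℤ → Prop) : Prop :=
  ψ ∈ Red ρ.A ∧ (∃ u, ev ψ u = a) ∧ ρ.y ^ ρ.k5 ≤ a ∧ (a : ℝ) ≤ ρ.y ^ ρ.U ∧ Squarefree t ∧
  (∀ p : ℕ, p.Prime → p ∣ t → ρ.w < p) ∧ Int.gcd t a = 1 ∧ t.Coprime D ∧ (t : ℝ) ≤ ρ.y ^ (2 * ρ.k4) ∧
  ρ.si t ≤ 1 / √ρ.w ∧ ρ.si D ≤ 1 / √ρ.w ∧
  ∀ p : ℕ, p.Prime → (∀ x y, x ≡ y [ZMOD p] → (Bd p x ↔ Bd p y)) ∧ ∑ x ∈ bx p, ind (Bd p x) ≤ 2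

/-- the size conditions on the small number `k` -/
def Sz (a k : ℤ) (t : ℕ) : Prop := (ρ.fl k : ℝ) ≤ ρ.y ^ (2 * ρ.K) ∧ (ρ.om k : ℝ) ≤ ρ.K * ρ.La ∧
  ρ.si k ≤ 1 / √ρ.w ∧ ∑ p ∈ (ρ.pf (a - k)).filter fun p => ¬p ∣ t, (1 : ℝ) / p ≤ 1 / √ρ.w

/-- hypotheses of the lower bound -/
def HD (P R a b : ℤ) (D : ℕ) (T : ℝ) : Prop :=
  0 < P ∧ 0 < R ∧ b ^ 2 - 4 * P * (a * R) = (17 : ℤ) ∧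
  (∀ p : ℕ, p.Prime → p ≤ ρ.w → (p : ℤ) ∣ P → (p : ℤ) ∣ b → ¬(p : ℤ) ∣ R) ∧
  (∀ p : ℕ, p.Prime → (p : ℤ) ∣ a → ρ.w < p ∧ (p ∣ D ∨ T < p)) ∧
  ρ.y ^ ρ.k5 ≤ a ∧ (a : ℝ) ≤ ρ.y ^ ρ.U ∧ 0 < T ∧ ρ.y ^ ρ.k3 ≤ T ^ 2 ∧ T ≤ ρ.y ^ (2 * ρ.k4) ∧
  D ≠ 0 ∧ D.primeFactors ⊆ ρ.Ps ∧ ρ.si D ≤ 1 / √ρ.w

/-- the sum over `s` for given `t` -/
def Hs (P R a b : ℤ) (D : ℕ) (T : ℝ) (t : ℕ) : ℝ := ∑ s ∈ Icc 1 a.toNat,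
  ind (ρ.SB D a T s t ∧ VT.GW ⟨P, R, a, b, s, t⟩ ρ.w) * ρ.hh (1 / 6) (a - s * t)

end Pr

end

end Pool.Agent.P.MP_6f5b02_nt.Hy
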