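import Pool.Agent.P.MP_6f5b02_nt.Hy.If0
import Pool.Agent.P.MP_8be758_nt.Pd.DefsM

/-! Definitions for the mean value part: angular characters, stages of primes. -/

set_option linter.dupNamespace false

namespace Pool.Agent.P.MP_6f5b02_nt.Hy.Mr

open Pool.Agent.P.MP_8be758_nt Pool.Agent.P.MP_8be758_nt.Pd
open Finset Real
open Pool.Agent.P.MP_8be758_nt.Par (cj det)
open Pool.Agent.P.MP_6f5b02_nt.Hy.Par (nq mul eu un red)

noncomputable section

export Pool.Agent.P.MP_8be758_nt.Pd.Mr (Pr KF Bd KT ms)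

/-- the first real embedding -/
def i1 (v : V2) : ℝ := v.1 + v.2 * ((1 + √17) / 2)

/-- the second real embedding -/
def i2 (v : V2) : ℝ := v.1 + v.2 * ((1 - √17) / 2)

/-- the hyperbolic angle -/
def th (v : V2) : ℝ := log (i1 v) - log (i2 v)

/-- the angle of the unit -/
def Th : ℝ := 4 * log (4 + √17)

/-- the direction of a vector modulo units as a point of the unit circle -/
def uu (_ : ℕ) (v : V2) : ℂ :=
  if v = 0 then 0 else Complex.exp ((2 * π / Th * th v : ℝ) * Complex.I)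

/-- the angular characters -/
def ek (A : ℕ) (k : ℤ) (v : V2) : ℂ := uu A v ^ k

/-- the Liouville function of the norm -/
def fl (A : ℕ) (v : V2) : ℝ := lam (nq A v)

/-- primitive vectors of norm about `X` -/
def VX (A : ℕ) (X : ℝ) : Finset V2 := VV (Q0 A) X (2 * X)

/-- twisted sum of the Liouville function over `W` -/
def FS (A : ℕ) (W : Finset V2) (k : ℤ) : ℂ := ∑ v ∈ W, (fl A v : ℂ) * ek A k v

open Classical in
/-- mass of the pairs with the same direction -/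
def col (A : ℕ) {ι : Type} (I : Finset ι) (z : ι → V2) (a : ι → ℂ) : ℝ :=
  ∑ i ∈ I, ∑ j ∈ I, if uu A (z i) = uu A (z j) then ‖a i‖ * ‖a j‖ else 0

/-- `p` divides the product `g v` -/
def Dv (A p : ℕ) (g v : V2) : Prop := (p : ℤ) ∣ (mul A g v).1 ∧ (p : ℤ) ∣ (mul A g v).2

instance (A p : ℕ) (g v : V2) : Decidable (Dv A p g v) := inferInstanceAs (Decidable (_ ∧ _))

instance (A : ℕ) : LeftCommutative (mul A) :=
  ⟨fun a b c => by simp only [mul, Prod.mk.injEq]; constructor <;> ring⟩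

/-- product of a multiset of vectors -/
def pv (A : ℕ) (s : Multiset V2) : V2 := s.foldr (mul A) (1, 0)

/-- a prime `p` with a vector of norm `β p` -/
def Gp (A β : ℕ) (γ : ℕ → V2) (p : ℕ) : Prop := p.Prime ∧ 4 * A < p ∧ nq A (γ p) = β * p

/-- a block of primes in `[P, 2 P]` -/
def Blk (A β : ℕ) (γ : ℕ → V2) (I : Finset ℕ) (P : ℝ) : Prop :=
  1 ≤ β ∧ β ≤ 4 * A ∧ 1 ≤ P ∧ ∀ p ∈ I, Gp A β γ p ∧ P ≤ (p : ℝ) ∧ (p : ℝ) ≤ 2 * P

/-- vectors with small content and norm at most `Y` -/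
def Sm (A : ℕ) (W : Finset V2) (Y : ℝ) : Prop :=
  ∀ u ∈ W, Cn u ∧ Int.gcd u.1 u.2 ≤ 4 * A ∧ (nq A u : ℝ) ≤ Y

/-- character sum over primes -/
def GS (A : ℕ) (γ : ℕ → V2) (I : Finset ℕ) (k : ℤ) : ℂ := ∑ p ∈ I, ek A k (γ p)

/-- a trigonometric polynomial in the direction -/
def Phi (A : ℕ) (U : Finset ℤ) (d : ℤ → ℂ) (v : V2) : ℂ := ∑ k ∈ U, d k * ek A k v

/-- the norm has no prime factor in `(4 A, y]` -/
def Ro (A : ℕ) (y : ℝ) (v : V2) : Prop :=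
  ∀ q : ℕ, q.Prime → (q : ℤ) ∣ nq A v → q ≤ 4 * A ∨ y < (q : ℝ)

instance (A : ℕ) (y : ℝ) : DecidablePred (Ro A y) := Classical.decPred _

/-- the data of a stage -/
structure St where
  β : ℕ
  g0 : V2
  S : Finset ℕ
  γ : ℕ → V2
  P : ℝ
  Q : ℝ
  H : ℝ

namespace St

variable (σ : St) (A : ℕ)

/-- the standing conditions -/
def OK : Prop := 1 ≤ σ.β ∧ σ.β ≤ 4 * A ∧ 1 ≤ σ.P ∧ σ.P ≤ σ.Q ∧ 2 ≤ σ.H ∧
  ∀ p ∈ σ.S, Gp A σ.β σ.γ p ∧ σ.P < (p : ℝ) ∧ (p : ℝ) ≤ σ.Q ∧ C2 (σ.β ^ 2) (σ.γ p) σ.g0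

/-- the parameters attached to `μ` -/
def Pm (μ : ℝ) : Prop := σ.P = exp (μ ^ 8) ∧ σ.Q = exp (μ ^ 10) ∧ σ.H = μ

/-- the block of a prime -/
def blk (p : ℕ) : ℕ := ⌊σ.H * log (p / σ.P)⌋₊

/-- the number of blocks -/
def nb : ℕ := ⌊σ.H * log (σ.Q / σ.P)⌋₊ + 1

/-- the left end of a block -/
def Ph (h : ℕ) : ℝ := σ.P * exp (h / σ.H)

/-- the primes of a block -/
def I (h : ℕ) : Finset ℕ := σ.S.filter fun p => σ.blk p = h

/-- the character sum over a block -/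
def G (h : ℕ) (k : ℤ) : ℂ := GS A σ.γ (σ.I h) k

/-- the mean of `om` -/
def E : ℝ := ∑ p ∈ σ.S, 1 / ((p : ℝ) + 1)

/-- the number of primes of the stage that divide `v` -/
def om (v : V2) : ℝ := (σ.S.filter fun p => Dv A p (cj (σ.γ p)) v).card

/-- the cofactors -/
def Lam (u : V2) : Prop := Int.gcd u.1 u.2 ∣ σ.β ∧
  ∃ w : V2, (σ.β : ℤ) • w = mul A σ.g0 u ∧ (Int.gcd w.1 w.2).Coprime σ.β

instance : DecidablePred (σ.Lam A) := Classical.decPred _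

/-- the cofactors in the range of a block -/
def W (X : ℝ) (h : ℕ) : Finset V2 :=
  (An (Q0 A) (σ.β * X / σ.Ph h) (2 * σ.β * X / σ.Ph h)).filter (σ.Lam A)

/-- all block sums are small -/
def Good (a : ℝ) (k : ℤ) : Prop := ∀ h, ‖σ.G A h k‖ ≤ σ.Ph h ^ (1 - a)

/-- multiplicity of the directions that come from vectors divisible by `p` -/
def mu (X : ℝ) (v : V2) : ℝ :=
  ∑ p ∈ σ.S, ind (X < (p : ℝ) ^ 2 * nq A v ∧ (p : ℝ) ^ 2 * nq A v ≤ 4 * X)

/-- the two boundary strips -/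
def Strip (X : ℝ) (v : V2) : Prop :=
  (X < (nq A v : ℝ) ∧ (nq A v : ℝ) ≤ exp (1 / σ.H) * X) ∨
  (2 * X < (nq A v : ℝ) ∧ (nq A v : ℝ) ≤ exp (1 / σ.H) * (2 * X))

/-- majorant for the coefficients of the error term -/
def ab (X : ℝ) (v : V2) : ℝ :=
  ind (v ∈ VX A X) * |σ.E - σ.om A v| + ind (σ.Strip A X v) * σ.om A v + σ.mu A X v

end St

end

end Pool.Agent.P.MP_6f5b02_nt.Hy.Mr
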