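import Pool.Agent.P.MP_6f5b02_nt.Hy.IfM
import Pool.Agent.P.MP_8be758_nt.Pd.DefsP

/-! The definitions that involve the Liouville function, for a general completely multiplicative
sign function. -/

namespace Pool.Agent.P.MP_6f5b02_nt.Hy.G

open Pool.Agent.P.MP_8be758_nt Pool.Agent.P.MP_8be758_nt.Pd
open Pool.Agent.P.MP_8be758_nt.Pd.G

open Finset Real
open Pool.Agent.P.MP_8be758_nt.Par (cj det)
open Pool.Agent.P.MP_6f5b02_nt.Hy.Par (nq mul eu un red)
open Pool.Agent.P.MP_6f5b02_nt.Hy.Mr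

export Pool.Agent.P.MP_8be758_nt.Pd.G (CM lam Neg lam_mul lam_cases lam_sq abs_lam lam_one
  lam_sq_mul)

noncomputable section

variable [CM]

open Classical in
/-- balanced edges whose sign differs from `σ` -/
def EdBad (A : ℕ) (C1 X σ : ℝ) : Finset G4 :=
  (Ed A C1 X).filter fun g => lam (ev (Q0 A) g.1) * lam (ev (Q0 A) g.2) ≠ σ

open Classical in
/-- arguments `n ≤ x` whose sign differs from `σ` -/
def NBad (A : ℕ) (x σ : ℝ) : Finset ℕ :=
  (range (⌊x⌋₊ + 1)).filter fun n => lam ((n : ℤ) ^ 2 + n - 4) ≠ σ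

/-- the sign of the norm -/
def fl (A : ℕ) (v : V2) : ℝ := lam (nq A v)

/-- twisted sum of the sign over `W` -/
def FS (A : ℕ) (W : Finset V2) (k : ℤ) : ℂ := ∑ v ∈ W, (fl A v : ℂ) * ek A k v

/-- the Fourier coefficients -/
def FX (A : ℕ) (X : ℝ) (k : ℤ) : ℂ := FS A (VX A X) k

/-- squared distance from the sign to a trigonometric polynomial -/
def dis (A : ℕ) (W : Finset V2) (U : Finset ℤ) (d : ℤ → ℂ) : ℝ :=
  ∑ v ∈ W, ‖(fl A v : ℂ) - Phi A U d v‖ ^ 2

/-- normalised conjugate Fourier coefficients -/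
def cf (A : ℕ) (X : ℝ) (k : ℤ) : ℂ := (starRingEnd ℂ) (FX A X k) / ((VX A X).card : ℂ)

/-- the sign is constant on the primes of the stage -/
def Cs (σ : Mr.St) : Prop := ∀ p ∈ σ.S, ∀ q ∈ σ.S, lam p = lam q

/-- the sign in the factorisation -/
def sg (σ : Mr.St) : ℝ := if h : σ.S.Nonempty then lam σ.β * lam (σ.S.min' h : ℕ) else 1

variable {A : ℕ} {v w η : V2}

theorem fl_unit (h : nq A η = 1) (v : V2) : fl A (mul A η v) = fl A v := by
  rw [fl, Par.nq_mul, h, one_mul, fl]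

theorem fl_red (v : V2) : fl A (red A v) = fl A v := by rw [fl, nq_red, fl]

theorem fl_cases (v : V2) : fl A v = 1 ∨ fl A v = -1 := lam_cases _

theorem fl_sq (v : V2) : fl A v * fl A v = 1 := lam_sq _

theorem abs_fl (v : V2) : |fl A v| = 1 := abs_lam _

theorem norm_fl (v : V2) : ‖(fl A v : ℂ)‖ = 1 := by rw [Complex.norm_real, Real.norm_eq_abs, abs_fl]

theorem fl_e : fl A (1, 0) = 1 := by simpa [fl, nq] using lam_one

theorem fl_mul (_ : 5 ≤ A) (hv : v ≠ 0) (hw : w ≠ 0) : fl A (mul A v w) = fl A v * fl A w := by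
  rw [fl, Par.nq_mul, lam_mul (Par.nq_ne hv) (Par.nq_ne hw), fl, fl]

theorem fl_smul {c : ℤ} (hc : c ≠ 0) (v : V2) : fl A (c • v) = fl A v := by
  have e : nq A (c • v) = c ^ 2 * nq A v := by
    simp only [nq, Prod.smul_fst, Prod.smul_snd, smul_eq_mul]
    ring
  rw [fl, fl, e, lam_sq_mul hc]

theorem dis_nonneg (W : Finset V2) (U : Finset ℤ) (d : ℤ → ℂ) : 0 ≤ dis A W U d :=
  sum_nonneg fun _ _ => by positivity

theorem sg_sq (σ : Mr.St) : sg σ * sg σ = 1 := by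
  unfold sg
  split_ifs
  · rw [mul_mul_mul_comm, lam_sq, lam_sq, mul_one]
  · exact mul_one _

theorem abs_sg (σ : Mr.St) : |sg σ| = 1 := by
  unfold sg
  split_ifs
  · rw [abs_mul, abs_lam, abs_lam, mul_one]
  · exact abs_one

theorem sg_eq {σ : Mr.St} (h : Cs σ) {p : ℕ} (hp : p ∈ σ.S) : sg σ = lam σ.β * lam p := by
  rw [sg, dif_pos ⟨p, hp⟩, h _ (σ.S.min'_mem _) p hp]

end

end Pool.Agent.P.MP_6f5b02_nt.Hy.G
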