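import Pool.Agent.P.MP_6f5b02_nt.Hy.If0
import Pool.Agent.P.MP_8be758_nt.Pd.DefsT

/-! Definitions for the transfer theorem: parameters, four-cycles, weights. -/

set_option linter.dupNamespace false

namespace Pool.Agent.P.MP_6f5b02_nt.Hy

open Pool.Agent.P.MP_8be758_nt Pool.Agent.P.MP_8be758_nt.Pd
open Finset Real
open Pool.Agent.P.MP_8be758_nt.Par (det)

noncomputable section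

/-- static parameters -/
abbrev St : Type := Pd.St

/-- all parameters -/
abbrev Pr : Type := Pd.Pr

/-- the order of magnitude of the static parameters -/
def St.Big (z : St) (c : ℕ) : Prop :=
  Odd z.A ∧ 5 ≤ z.A ∧ 1 ≤ z.C1 ∧ 4 * z.A ≤ z.w ∧ c ≤ z.w ∧ c ≤ z.K ∧ 2 ≤ z.k2 ∧
  c * (z.k2 + z.K) ≤ z.k3 ∧ z.k3 ≤ z.k4 ∧ c * z.k4 ≤ z.k5 ∧ z.k5 ≤ z.k6 ∧ z.k6 ≤ z.K' ∧
  c * z.K' ≤ z.u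

namespace Pr

open Pd.Pr

variable (ρ : Pr)

def La : ℝ := ∑ p ∈ ρ.Ps, (rho ρ.A p : ℝ) / p
def E : Finset G4 := Ed ρ.A ρ.C1 ρ.X
def fm (g : G4) : Fm := act (Q0 ρ.A) g

end Pr

/-- product of the root numbers -/
def rr (A : ℕ) (k : ℤ) : ℕ := ∏ p ∈ k.natAbs.primeFactors, rho A p

/-- a vertex of a four-cycle of forms of discriminant `17` -/
def VT.Ok (x : VT) (_ : ℕ) : Prop := x.b ^ 2 - 4 * x.P * (x.a * x.R) = (17 : ℤ) ∧ 0 < x.P ∧ 0 < x.R ∧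
  0 < x.a ∧ 0 < x.af ∧ x.af ∣ x.Bt ∧ IsCoprime x.t x.af ∧ 0 < x.Bt ∧ 0 < x.As

namespace Pr

open Pd.Pr

variable (ρ : Pr)

/-- admissible small data -/
def SA (D1 D2 : ℕ) (σ : Sd) : Prop :=
  σ.e1 * σ.a1 ∣ D1 ∧ σ.e2 * σ.a2 ∣ D2 ∧ σ.E1 * σ.a1 < 2 * σ.t * σ.E2 ∧ σ.t * σ.E2 ≤ σ.E1 * σ.a1 ∧
  σ.a ≤ 4 * (σ.s * σ.t) ∧ 2 * (σ.s * σ.t) ≤ σ.a ∧
  (σ.s * σ.t * σ.af.natAbs).Coprime (D1 * D2) ∧ Squarefree σ.af.natAbs ∧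
  (∀ p : ℕ, p.Prime → (p : ℤ) ∣ σ.af → ρ.w < p ∧ ((p : ℝ) ≤ ρ.y ∨ ρ.y ^ ρ.k4 < p)) ∧
  (∀ p : ℕ, p.Prime → p ∣ σ.t → ρ.w < p) ∧
  (ρ.fl σ.af : ℝ) ≤ ρ.y ^ (2 * ρ.K) ∧ (ρ.om σ.af : ℝ) ≤ ρ.K * ρ.La ∧
  ρ.si (σ.s * σ.t * σ.af) ≤ 3 / √ρ.w

/-- admissible smooth patterns -/
def DA (D1 D2 : ℕ) : Prop := Squarefree (D1 * D2) ∧ (D1 * D2).primeFactors ⊆ ρ.Ps ∧
  (D1 : ℝ) ≤ ρ.y ^ ρ.K ∧ (D2 : ℝ) ≤ ρ.y ^ ρ.K ∧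
  39 / 20 * ρ.La ≤ ρ.om (D1 * D2 : ℕ) ∧ (ρ.om (D1 * D2 : ℕ) : ℝ) ≤ 41 / 20 * ρ.La ∧
  ρ.si (D1 * D2 : ℕ) ≤ 1 / √ρ.w

/-- typical base forms -/
def Typ (φ : Fm) : Prop :=
  ρ.DA (ρ.fl φ.1) (ρ.fl φ.2.2) ∧ ∀ p ∈ ρ.Ps, ¬(p : ℤ) ^ 2 ∣ φ.1 * φ.2.2

/-- the cycle of a tuple -/
def cy (τ : G4 × Sd) : VT := τ.2.cyc (ρ.fm τ.1)

/-- tuples -/
def IsTu (τ : G4 × Sd) : Prop := τ.1 ∈ ρ.E ∧ ρ.Typ (ρ.fm τ.1) ∧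
  ρ.QR (τ.2.q1, τ.2.q3, τ.2.q4) ∧ QD (τ.2.q1, τ.2.q3, τ.2.q4) (ρ.fm τ.1) ∧
  ρ.SA (ρ.fl (ρ.fm τ.1).1) (ρ.fl (ρ.fm τ.1).2.2) τ.2 ∧ ρ.Val (ρ.cy τ)

/-- truncation -/
def Gd (x : VT) : Prop := (ρ.fl x.Nt : ℝ) ≤ ρ.y ^ ρ.K' ∧ (ρ.fl x.Ns : ℝ) ≤ ρ.y ^ ρ.K' ∧
  9 / 20 * ρ.La ≤ ρ.om (x.af * x.Nt * x.Ns)

def Tu : Finset (G4 × Sd) := fs {τ | ρ.IsTu τ}

open Classical in
def Tg : Finset (G4 × Sd) := ρ.Tu.filter fun τ => ρ.Gd (ρ.cy τ)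

/-- data with given large primes and pattern -/
def SD (q : ℕ × ℕ × ℕ) (D1 D2 : ℕ) : Finset Sd :=
  fs {σ | (σ.q1, σ.q3, σ.q4) = q ∧ ρ.SA D1 D2 σ}

open Classical in
/-- edges with given large primes and pattern -/
def AP (q : ℕ × ℕ × ℕ) (D1 D2 : ℕ) : Finset G4 := ρ.E.filter fun g => QD q (ρ.fm g) ∧
  ρ.fl (ρ.fm g).1 = D1 ∧ ρ.fl (ρ.fm g).2.2 = D2 ∧ ∀ p ∈ ρ.Ps, ¬(p : ℤ) ^ 2 ∣ (ρ.fm g).1 * (ρ.fm g).2.2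

/-- atoms -/
def AT (q : ℕ × ℕ × ℕ) (D1 D2 : ℕ) (c0 : G4) : Finset G4 :=
  (ρ.AP q D1 D2).filter fun g => C4 (ρ.W ^ 2) g c0

/-- admissible atom data -/
def AD (q : ℕ × ℕ × ℕ) (D1 D2 : ℕ) (c0 : G4) : Prop :=
  ρ.QR q ∧ ρ.DA D1 D2 ∧ c0 ∈ S4.U (ρ.W ^ 2)

/-- weight of an edge and a datum -/
def cv (θ : ℝ) (σ : Sd) (g : G4) : ℝ := ρ.cw θ (ρ.cy (g, σ)) * ind (ρ.Val (ρ.cy (g, σ)))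

/-- weight of the small number -/
def hh (θ : ℝ) (k : ℤ) : ℝ := θ ^ ρ.om k * rr ρ.A k / k

def Gm (D : ℕ) : ℝ := ∏ p ∈ ρ.Ps.filter fun p => ¬p ∣ D, (1 - 5 / 3 * (rho ρ.A p : ℝ) / p)

/-- expected weight of a datum -/
def Mw (D : ℕ) (σ : Sd) : ℝ := (1 / 3) ^ ρ.om D * ρ.Gm D * ρ.hh (1 / 6) σ.af

/-- expected total weight on an atom -/
def MM (q : ℕ × ℕ × ℕ) (D1 D2 : ℕ) (c0 : G4) : ℝ :=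
  ∑ σ ∈ ρ.SD q D1 D2, ind (σ.GW0 ρ.w (ρ.fm c0)) * ρ.Mw (D1 * D2) σ

/-- majorant for the weight of the small number -/
def hw (Θ : ℝ) (k : ℤ) : ℝ := Θ ^ ρ.om k * ind (Squarefree k.natAbs ∧ (ρ.fl k : ℝ) ≤ ρ.y ^ (2 * ρ.K) ∧
  (ρ.om k : ℝ) ≤ ρ.K * ρ.La ∧ ∀ p ∈ ρ.pf k, rho ρ.A p = 2)

end Pr

/-- a statement that holds for all large `y`, with a constant that depends on `A` and `C1` only -/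
def Unif (S : ℝ → Pr → Prop) : Prop := ∃ c : ℕ, ∀ (A : ℕ) (C1 : ℝ), ∃ C : ℝ, 1 ≤ C ∧
  ∀ z : St, z.A = A → z.C1 = C1 → z.Big c → ∀ᶠ y : ℝ in Filter.atTop, S C ⟨z, y⟩

end

end Pool.Agent.P.MP_6f5b02_nt.Hy
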