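import Pool.Agent.P.MP_6f5b02_nt.Hy.GTOP
import Pool.Agent.P.MP_8be758_nt.Pd.GFinal

/-! From the two densities to the values `n (n + 1) / 2 - 2`. -/

namespace Pool.Agent.P.MP_6f5b02_nt.Hy.G

open Finset Filter
open Pool.Agent.P.MP_8be758_nt.Pd.G (mk lam_mk)

theorem val_eq {n : ℕ} (h : 2 ≤ n) : n * (n + 1) / 2 - 2 ≠ 0 ∧
    (n : ℤ) ^ 2 + n - 4 = (2 * (n * (n + 1) / 2 - 2) : ℕ) := by
  obtain ⟨k, hk⟩ := Nat.even_mul_succ_self n
  have h1 : 2 * 3 ≤ n * (n + 1) := Nat.mul_le_mul h (by omega)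
  have h2 : (n : ℤ) * (n + 1) = k + k := by exact_mod_cast hk
  rw [hk] at h1 ⊢
  refine ⟨by omega, ?_⟩
  rw [show (n : ℤ) ^ 2 + n - 4 = k + k - 4 by linear_combination h2]
  omega

theorem bad_le {f : ℕ → ℤ} (h1 : ∀ m n, m ≠ 0 → n ≠ 0 → f (m * n) = f m * f n)
    (h2 : ∀ n, n ≠ 0 → f n = 1 ∨ f n = -1) (N : ℕ) {σ : ℤ} (hσ : σ = 1 ∨ σ = -1) :
    ((@NBad (mk f h1 h2) 5 N σ).card : ℝ) ≤
      ((Icc 2 N).filter fun n => f (n * (n + 1) / 2 - 2) = -σ * f 2).card + 2 := by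
  classical
  have : @NBad (mk f h1 h2) 5 N σ ⊆
      ((Icc 2 N).filter fun n => f (n * (n + 1) / 2 - 2) = -σ * f 2) ∪ range 2 := fun n hn => by
    unfold NBad at hn
    rw [Nat.floor_natCast, mem_filter, mem_range] at hn
    rw [mem_union, mem_range, or_iff_not_imp_right, not_lt]
    intro h
    obtain ⟨a, b⟩ := val_eq h
    have c := hn.2
    rw [b, lam_mk (mul_ne_zero two_ne_zero a), h1 _ _ two_ne_zero a, Ne, Int.cast_inj] at c
    refine mem_filter.2 ⟨mem_Icc.2 ⟨h, by omega⟩, ?_⟩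
    rcases h2 _ a with e | e <;> rcases h2 2 two_ne_zero with e' | e' <;> rcases hσ with rfl | rfl <;>
      simp_all
  exact_mod_cast (card_le_card this).trans ((card_union_le _ _).trans_eq (by rw [card_range]))

theorem cnt_of_top (hT : S_TRANSFER) (hR : S_TRI) (h : S_TOP) (θ : ℝ) (hθ : θ < 1 / 2) :
    ∃ c : ℝ, 0 < c ∧ ∀ᶠ N : ℕ in atTop, ∀ f : ℕ → ℤ,
      (∀ m n, m ≠ 0 → n ≠ 0 → f (m * n) = f m * f n) → (∀ n, n ≠ 0 → f n = 1 ∨ f n = -1) →
      c * N ≤ ((Icc 2 N).filter fun n => f (n * (n + 1) / 2 - 2) = f 2).card ∧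
      ((∀ p : ℕ, p.Prime → (N : ℝ) ^ θ < p → p ≤ N → f p = -1) →
        c * N ≤ ((Icc 2 N).filter fun n => f (n * (n + 1) / 2 - 2) = -f 2).card) := by
  obtain ⟨c, hc, h⟩ := h 5 θ (by decide) le_rfl hθ
  obtain ⟨d, D, hd, -, h'⟩ := TOP_one hT (by decide) le_rfl (Or.inr rfl) (hR 5 (by decide) le_rfl)
  have m0 := half_pos (lt_min hc hd)
  refine ⟨min c d / 2, m0, ?_⟩
  filter_upwards [h, h', (tendsto_natCast_atTop_atTop.const_mul_atTop m0).eventually_ge_atTop 2]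
    with N k1 k2 hN f h1 h2
  have N0 : (0 : ℝ) ≤ N := Nat.cast_nonneg N
  have c1 := mul_le_mul_of_nonneg_right (min_le_left c d) N0
  have c2 := mul_le_mul_of_nonneg_right (min_le_right c d) N0
  have s1 := bad_le h1 h2 N (Or.inl rfl)
  have s2 := bad_le h1 h2 N (Or.inr rfl)
  have k3 := @k2 (mk f h1 h2) trivial
  simp only [neg_neg, neg_mul, one_mul, Int.cast_neg, Int.cast_one] at s1 s2
  refine ⟨by linarith, fun hp => ?_⟩
  have k4 := (@k1 (mk f h1 h2) fun p p0 p1 p2 => by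
    rw [lam_mk p0.ne_zero, hp p p0 p1 (by exact_mod_cast p2)]
    norm_num).1
  linarith

theorem par_mul (P : ℕ → Bool) (m n : ℕ) (hm : m ≠ 0) (hn : n ≠ 0) :
    (-1 : ℤ) ^ (m * n).primeFactorsList.countP P =
      (-1) ^ m.primeFactorsList.countP P * (-1) ^ n.primeFactorsList.countP P := by
  rw [(Nat.perm_primeFactorsList_mul hm hn).countP_eq, List.countP_append, pow_add]

theorem par_iff (i j : ℕ) : (-1 : ℤ) ^ i = (-1) ^ j ↔ i % 2 = j % 2 := by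
  rw [neg_one_pow_eq_pow_mod_two i, neg_one_pow_eq_pow_mod_two j]
  rcases Nat.mod_two_eq_zero_or_one i with h | h <;>
    rcases Nat.mod_two_eq_zero_or_one j with h' | h' <;> simp [h, h']

end Pool.Agent.P.MP_6f5b02_nt.Hy.G
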