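import Pool.Agent.P.MP_6f5b02_nt.Hy.GENDaux
import Pool.Agent.P.MP_6f5b02_nt.Hy.IfG2

/-! Step END. -/

namespace Pool.Agent.P.MP_6f5b02_nt.Hy.G

open Pool.Agent.P.MP_8be758_nt Pool.Agent.P.MP_8be758_nt.Pd
open Pool.Agent.P.MP_8be758_nt.Pd.G

open Finset Real Filter
open scoped Classical

theorem p_END (hTYP : S_TYP) (hGLOW : S_GLOW) (hBAD : S_BAD) (hMB2 : S_MB2) : S_TRANSFER := by
  intro A C1 η hA h3 hC1 hη
  obtain ⟨c1, h1⟩ := hTYP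
  obtain ⟨c2, h2⟩ := hGLOW
  obtain ⟨c3, h3'⟩ := hBAD
  obtain ⟨c4, h4⟩ := hMB2 C1
  obtain ⟨Ca, a1, a2⟩ := h1 A C1
  obtain ⟨Cb, b1, b2⟩ := h2 A C1
  obtain ⟨Cc, d1, d2⟩ := h3' A C1
  obtain ⟨C, Ea, Eb, Ec⟩ : ∃ C, Ca ≤ C ∧ Cb ≤ C ∧ Cc ≤ C :=
    ⟨Ca + Cb + Cc, by linarith, by linarith, by linarith⟩
  obtain ⟨z, r, l, zA, zC, big, u1, r1, r2, r3, r4, hl, l0, p1, p2, p3⟩ :=
    END_par (c1 + c2 + c3 + c4 + 1) A C1 C η hA h3 hC1 (a1.trans Ea) hη (by omega)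
  obtain ⟨CS, s1, s2⟩ := h4 z zC (big.mono (by omega))
  have L0 : 0 < C * l := mul_pos (by linarith) l0
  have u0 : (z.u : ℝ) ≠ 0 := by exact_mod_cast (by omega : z.u ≠ 0)
  have ten : Tendsto (fun X : ℝ => X ^ ((z.u : ℝ)⁻¹)) atTop atTop :=
    tendsto_rpow_atTop (by positivity)
  obtain ⟨X0, hX0⟩ := eventually_atTop.1 ((ten.eventually ((((a2 z zA zC (big.mono (by omega))).and
    (b2 z zA zC (big.mono (by omega)))).and (d2 z zA zC (big.mono (by omega)))).and s2)).and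
    (eventually_gt_atTop 0))
  refine ⟨(η / (48 * (C * l))) ^ 2 / CS, 15 * C1 ^ 2, X0, by positivity, by nlinarith,
    fun {_} X σ hX hσ hN => ?_⟩
  obtain ⟨⟨⟨⟨t1, t2⟩, t3⟩, t4⟩, X0'⟩ := hX0 X hX
  set ρ : Pr := ⟨z, X ^ ((z.u : ℝ)⁻¹)⟩ with hρ
  have eX : ρ.X = X := rpow_inv_natCast_pow X0'.le (by omega)
  have eA : ρ.A = A := zA
  have eC : ρ.C1 = C1 := zC
  have el : ρ.ls = l := hl.symm
  have Xp : 0 < ρ.X := eX ▸ X0'
  have ep0 : 0 ≤ ρ.ep := by unfold Pr.ep; positivity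
  have key := END_chain ρ σ η (C * l) (C * 4 ^ ρ.U * (ρ.k6 : ℝ) ^ 3 * ρ.ep) _ CS hη L0 Xp
    (by linarith) p2 rfl ?_ ?_ ?_ (t4 σ hσ) (by rw [eX, eA, eC]; exact hN)
  · rwa [eX, eA, eC] at key
  · refine (t1 r r1 r2 r3 r4).trans ?_
    have n0 : 0 ≤ 1 / √(z.K : ℝ) + 1 / √(z.w : ℝ) + 1 / log r := by
      have := log_natCast_nonneg r
      positivity
    calc _ = Ca * (1 / √(z.K : ℝ) + 1 / √(z.w : ℝ) + 1 / log r) * ρ.X := by ring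
      _ ≤ _ := mul_le_mul_of_nonneg_right ((mul_le_mul_of_nonneg_right Ea n0).trans p1) Xp.le
  · intro S m1 m2
    refine le_trans (mul_le_mul_of_nonneg_left ?_ (exp_pos _).le) (t2 S m1 m2)
    rw [el]
    have : 0 < Cb := by linarith
    gcongr
  · refine t3.trans ?_
    refine mul_le_mul_of_nonneg_right (mul_le_mul_of_nonneg_right (le_trans ?_ p3) Xp.le)
      (exp_pos _).le
    gcongr

end Pool.Agent.P.MP_6f5b02_nt.Hy.G
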