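import Pool.Agent.P.MP_6f5b02_nt.Hy.IfQ
import Pool.Agent.P.MP_8be758_nt.Pd.GENDaux

/-! The choice of the parameters. -/

namespace Pool.Agent.P.MP_6f5b02_nt.Hy.G

open Pool.Agent.P.MP_8be758_nt Pool.Agent.P.MP_8be758_nt.Pd
open Pool.Agent.P.MP_8be758_nt.Pd.G

open Finset Real Filter

theorem END_par (c A : ℕ) (C1 C η : ℝ) (h1 : Odd A) (h3 : 5 ≤ A) (hC1 : 1 ≤ C1) (hC : 1 ≤ C)
    (hη : 0 < η) (hc : 1 ≤ c) : ∃ (z : St) (r : ℕ) (l : ℝ), z.A = A ∧ z.C1 = C1 ∧ z.Big c ∧ 1 ≤ z.u ∧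
    2 ≤ r ∧ r ≤ z.k2 ∧ r * z.k3 ≤ z.k4 ∧ r * z.k5 ≤ z.k6 ∧ l = (z.k4 : ℝ) ^ 4 * log z.w ^ 20 ∧ 0 < l ∧
    C * (1 / √z.K + 1 / √z.w + 1 / log r) ≤ η / 2 ∧
    4 * (C * l) ^ 2 * (C * 4 ^ z.U * (z.k6 : ℝ) ^ 3 * (1 / 2 ^ z.K' + 1 / √z.w)) ≤ η / 2 ∧
    C * 2 ^ z.U * (z.k6 : ℝ) ^ 3 / z.K' ≤ η / (8 * (C * l)) := by
  have e6 : 0 < η / 6 := by positivity
  obtain ⟨r, r1, r2⟩ := ((END_log C _ e6).and (eventually_ge_atTop 2)).exists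
  obtain ⟨K, K1, K2⟩ := ((END_sqrt C _ e6).and (eventually_ge_atTop c)).exists
  obtain ⟨k3, hk3⟩ : ∃ k3, k3 = c * (r + K) := ⟨_, rfl⟩
  obtain ⟨k4, hk4⟩ : ∃ k4, k4 = r * k3 := ⟨_, rfl⟩
  obtain ⟨k6, hk6⟩ : ∃ k6, k6 = r * (c * k4) := ⟨_, rfl⟩
  have p3 : 1 ≤ k3 := hk3 ▸ Nat.mul_pos hc (by omega)
  have p4 : k3 ≤ k4 := hk4 ▸ Nat.le_mul_of_pos_left _ (by omega)
  have p6 : c * k4 ≤ k6 := hk6 ▸ Nat.le_mul_of_pos_left _ (by omega)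
  obtain ⟨w, ⟨w1, w2⟩, w3⟩ := (((END_sqrt C _ e6).and (END_w
    (4 * (C * (k4 : ℝ) ^ 4) ^ 2 * (C * 4 ^ (k6 + 2 * K + 1) * (k6 : ℝ) ^ 3 * 2)) _ (half_pos hη))).and
    (eventually_ge_atTop (max c (4 * A)))).exists
  have w4 : (12 : ℝ) ≤ w := by exact_mod_cast (by omega : 12 ≤ w)
  have l0 : 0 < (k4 : ℝ) ^ 4 * log w ^ 20 :=
    mul_pos (pow_pos (by exact_mod_cast (by omega : 0 < k4)) _) (pow_pos (log_pos (by linarith)) _)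
  have s0 : 0 < 1 / √(w : ℝ) := by positivity
  obtain ⟨K', ⟨q1, q2⟩, q3⟩ := (((END_two _ s0).and (END_inv
    (C * 2 ^ (k6 + 2 * K + 1) * (k6 : ℝ) ^ 3) (η / (8 * (C * ((k4 : ℝ) ^ 4 * log w ^ 20))))
    (by positivity))).and (eventually_ge_atTop (max k6 1))).exists
  refine ⟨⟨A, w, K, r, k3, k4, c * k4, k6, K', c * K', C1⟩, r, _, rfl, rfl,
    ⟨h1, h3, hC1, le_of_max_le_right w3, le_of_max_le_left w3, K2, r2, hk3.ge, p4, le_rfl, p6,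
      le_of_max_le_left q3, le_rfl⟩,
    Nat.mul_pos hc (le_of_max_le_right q3), r2, le_rfl, hk4.ge, hk6.ge, rfl, l0, by linarith, ?_, q2⟩
  refine le_trans ?_ w2
  simp only [St.U]
  calc _ ≤ 4 * (C * ((k4 : ℝ) ^ 4 * log w ^ 20)) ^ 2 *
        (C * 4 ^ (k6 + 2 * K + 1) * (k6 : ℝ) ^ 3 * (1 / √w + 1 / √w)) := by gcongr
    _ = _ := by ring

open scoped Classical in
/-- the final chain of inequalities -/
theorem END_chain [CM] (ρ : Pr) (σ η L V δ CS : ℝ) (hη : 0 < η) (hL : 0 < L) (hX : 0 < ρ.X) (hCS : 0 < CS)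
    (hV : 4 * L ^ 2 * V ≤ η / 2) (hδ : δ = (η / (48 * L)) ^ 2 / CS)
    (hT : ((ρ.E.filter fun g => ¬(ρ.Typ (ρ.fm g) ∧ ρ.Bg (ρ.fm g) ∧
      ∃ q, ρ.QR q ∧ Pr.QD q (ρ.fm g))).card : ℝ) ≤ η / 2 * ρ.X)
    (hG : ∀ S : Finset G4, S ⊆ ρ.E → (∀ g ∈ S, ρ.Typ (ρ.fm g) ∧ ∃ q, ρ.QR q ∧ Pr.QD q (ρ.fm g)) →
      exp (-(5 / 2) * ρ.La) * (S.card / L - √(S.card * (V * ρ.X))) ≤
        ∑ τ ∈ ρ.Tu, ind (τ.1 ∈ S) * ρ.cw (1 / 6) (ρ.cy τ))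
    (hB : ∑ τ ∈ ρ.Tu, ind (¬ρ.Gd (ρ.cy τ)) * ρ.cw (1 / 6) (ρ.cy τ) ≤
      η / (8 * L) * ρ.X * exp (-(5 / 2) * ρ.La))
    (hM : ∑ τ ∈ ρ.Tb, ind (τ.1 ∈ EdBad ρ.A ρ.C1 ρ.X σ) * ρ.cw (1 / 6) (ρ.cy τ) ≤
      3 * √((NBad ρ.A (15 * ρ.C1 ^ 2 * ρ.X) σ).card * (CS * ρ.X * exp (-5 * ρ.La))))
    (hN : ((NBad ρ.A (15 * ρ.C1 ^ 2 * ρ.X) σ).card : ℝ) ≤ δ * ρ.X) :
    ((EdBad ρ.A ρ.C1 ρ.X σ).card : ℝ) ≤ η * ρ.X := by
  by_contra hn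
  rw [not_le] at hn
  set p : G4 → Prop := fun g => ρ.Typ (ρ.fm g) ∧ ρ.Bg (ρ.fm g) ∧ ∃ q, ρ.QR q ∧ Pr.QD q (ρ.fm g)
  set S := (EdBad ρ.A ρ.C1 ρ.X σ).filter p with hS
  set μ := exp (-(5 / 2) * ρ.La) with hμ
  have μ0 : 0 < μ := exp_pos _
  have sub : EdBad ρ.A ρ.C1 ρ.X σ ⊆ ρ.E := filter_subset _ _
  have c1 : η / 2 * ρ.X < S.card := by
    have e := card_filter_add_card_filter_not (s := EdBad ρ.A ρ.C1 ρ.X σ) p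
    have e2 : (((EdBad ρ.A ρ.C1 ρ.X σ).filter fun g => ¬p g).card : ℝ) ≤
        (ρ.E.filter fun g => ¬p g).card := by
      exact_mod_cast card_le_card (filter_subset_filter _ sub)
    have e3 : (S.card : ℝ) + ((EdBad ρ.A ρ.C1 ρ.X σ).filter fun g => ¬p g).card =
        (EdBad ρ.A ρ.C1 ρ.X σ).card := by exact_mod_cast e
    linarith
  have S0 : (0 : ℝ) ≤ S.card := Nat.cast_nonneg _
  have c2 : √(S.card * (V * ρ.X)) ≤ S.card / (2 * L) := by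
    refine sqrt_le_iff.2 ⟨by positivity, ?_⟩
    rw [div_pow, le_div_iff₀ (by positivity)]
    have : 4 * L ^ 2 * V * ρ.X ≤ S.card := (mul_le_mul_of_nonneg_right hV hX.le).trans c1.le
    nlinarith [mul_le_mul_of_nonneg_left this S0]
  have c3 := hG S ((filter_subset _ _).trans sub) fun g hg =>
    ⟨(mem_filter.1 hg).2.1, (mem_filter.1 hg).2.2.2⟩
  have cw0 : ∀ x, 0 ≤ ρ.cw (1 / 6) x := fun x => by unfold Pr.cw; positivity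
  have c4 : ∑ τ ∈ ρ.Tu, ind (τ.1 ∈ S) * ρ.cw (1 / 6) (ρ.cy τ) ≤
      ∑ τ ∈ ρ.Tu, ind (¬ρ.Gd (ρ.cy τ)) * ρ.cw (1 / 6) (ρ.cy τ) +
      ∑ τ ∈ ρ.Tb, ind (τ.1 ∈ EdBad ρ.A ρ.C1 ρ.X σ) * ρ.cw (1 / 6) (ρ.cy τ) := by
    rw [Pr.Tb, Pr.Tg, filter_filter, sum_filter, ← sum_add_distrib]
    refine sum_le_sum fun τ _ => ?_
    by_cases h : τ.1 ∈ S
    · by_cases h' : ρ.Gd (ρ.cy τ)
      · rw [if_pos ⟨h', (mem_filter.1 h).2.2.1⟩, ind_pos h, ind_pos (mem_filter.1 h).1,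
          ind_neg (not_not.2 h')]
        simp
      · rw [if_neg fun e => h' e.1, ind_pos h, ind_pos h', add_zero]
    · rw [ind_neg h, zero_mul]
      refine add_nonneg (mul_nonneg (ind_nonneg _) (cw0 _)) ?_
      split_ifs
      exacts [mul_nonneg (ind_nonneg _) (cw0 _), le_rfl]
  have c5 : √((NBad ρ.A (15 * ρ.C1 ^ 2 * ρ.X) σ).card * (CS * ρ.X * exp (-5 * ρ.La))) ≤
      η / (48 * L) * ρ.X * μ := by
    refine sqrt_le_iff.2 ⟨by positivity, ?_⟩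
    have e : exp (-5 * ρ.La) = μ ^ 2 := by
      rw [hμ, ← exp_nat_mul]
      congr 1
      push_cast
      ring
    rw [e]
    refine (mul_le_mul_of_nonneg_right hN (by positivity)).trans_eq ?_
    rw [hδ]
    field_simp
  have c6 : S.card / L - S.card / (2 * L) = S.card / (2 * L) := by
    field_simp
    ring
  have c7 : η / (4 * L) * ρ.X < S.card / (2 * L) := by
    rw [lt_div_iff₀ (by positivity)]
    refine lt_of_eq_of_lt ?_ c1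
    field_simp
    ring
  have c8 : μ * (η / (4 * L) * ρ.X) < μ * (S.card / L - √(S.card * (V * ρ.X))) :=
    mul_lt_mul_of_pos_left (by linarith) μ0
  have c9 : η / (8 * L) * ρ.X * μ + 3 * (η / (48 * L) * ρ.X * μ) ≤ μ * (η / (4 * L) * ρ.X) := by
    have : 0 ≤ η / L * ρ.X * μ := by positivity
    have e1 : η / (8 * L) = η / L / 8 := by field_simp
    have e2 : η / (48 * L) = η / L / 48 := by field_simp
    have e3 : η / (4 * L) = η / L / 4 := by field_simp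
    rw [e1, e2, e3]
    linarith
  linarith

end Pool.Agent.P.MP_6f5b02_nt.Hy.G
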