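import Pool.Agent.P.MP_6f5b02_nt.Hy.IfP

/-! Step REP1. -/

namespace Pool.Agent.P.MP_6f5b02_nt.Hy.G

open Pool.Agent.P.MP_8be758_nt Pool.Agent.P.MP_8be758_nt.Pd
open Pool.Agent.P.MP_8be758_nt.Pd.G

open Finset Real Filter
open Pool.Agent.P.MP_8be758_nt.Par (cj det)
open Pool.Agent.P.MP_6f5b02_nt.Hy.Par (nq mul eu un red)
open Pool.Agent.P.MP_6f5b02_nt.Hy.Mr

theorem p_REP1 (hRED : S_RED) :
    S_REP1 := by
  intro A p hA hp h
  have h0 := rho_prime A p hp (by rintro rfl; revert h; decide)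
  rw [jacobiSym.mod_left' (a₂ := 1) (by exact_mod_cast h), jacobiSym.one_left] at h0
  obtain ⟨n, hn⟩ := card_pos.1 (show 0 < rho A p by omega)
  obtain ⟨m, hm⟩ := (mem_filter.1 hn).2
  obtain ⟨ψ, h2, g, -, h4, h3⟩ := hRED A (p, 2 * n + 1, m) hA
    ⟨by simp only; linear_combination 4 * hm, by simpa using hp.pos⟩
  have h5 : ev ψ g.1 = p := congrArg Prod.fst h3
  rw [eq_Q0 h2, ev_Q0] at h5
  exact ⟨g.1, ⟨g.2.2, -g.2.1, by unfold det at h4; linear_combination h4⟩, h5⟩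

end Pool.Agent.P.MP_6f5b02_nt.Hy.G
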