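import Pool.Agent.P.MP_6f5b02_nt.Hy.Basic
import Pool.Agent.P.MP_8be758_nt.Pd.If0

/-! Shared statements. -/

namespace Pool.Agent.P.MP_6f5b02_nt.Hy

open Pool.Agent.P.MP_8be758_nt Pool.Agent.P.MP_8be758_nt.Pd
open Finset Real Filter
open Pool.Agent.P.MP_8be758_nt.Par (det)

-- deps:
def S_LAT : Prop := ∀ A : ℕ, 5 ≤ A → ∃ C : ℝ, 0 < C ∧ ∀ ψ ∈ Red A, ∀ (N1 N2 : ℝ) (m : ℕ) (v0 v1 : V2),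
  0 ≤ N1 → N1 ≤ N2 → 0 < m →
  |(((An ψ N1 N2).filter fun v => C2 m v v0).card : ℝ) -
    ((An ψ N1 N2).filter fun v => C2 m v v1).card| ≤ C * (√N2 / m + 1)

-- deps:
def S_AREA : Prop := ∀ A : ℕ, 5 ≤ A → ∃ c C : ℝ, 0 < c ∧ 0 < C ∧ ∀ ψ ∈ Red A, ∀ N1 N2 : ℝ,
  0 ≤ N1 → N1 ≤ N2 → c * (N2 - N1) - C * (√N2 + 1) ≤ (An ψ N1 N2).card ∧
    ((An ψ N1 N2).card : ℝ) ≤ C * (N2 - N1 + √N2 + 1)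

-- deps: LAT AREA
def S_VEQ : Prop := ∀ A : ℕ, 5 ≤ A → ∃ C : ℝ, 0 < C ∧ ∀ ψ ∈ Red A, ∀ N1 N2 Mx : ℝ,
  0 ≤ N1 → N1 ≤ N2 → 1 ≤ N2 → 1 ≤ Mx →
  SP.Equi (VV ψ N1 N2) (fun _ => 1) (VV ψ N1 N2).card Mx (C * Mx ^ 2 * N2 ^ (3 / 4 : ℝ))

-- deps: LAT AREA
def S_CNT : Prop := ∀ (A : ℕ) (θ : ℝ), 5 ≤ A → 1 < θ → ∃ c N0 : ℝ, 0 < c ∧ ∀ ψ ∈ Red A, ∀ N : ℝ,
  N0 ≤ N → c * N ≤ (VV ψ N (θ * N)).card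

-- deps:
def S_LATD : Prop := ∀ A : ℕ, 5 ≤ A → ∃ C : ℝ, 0 < C ∧ ∀ ψ ∈ Red A, ∀ (d : ℕ) (Y : ℝ), 0 < d →
  d.Coprime 34 → 0 ≤ Y →
  (((VV ψ 0 Y).filter fun v => (d : ℤ) ∣ ev ψ v).card : ℝ) ≤ C * 2 ^ d.primeFactors.card * Y / d

-- deps:
def S_DET0 : Prop := ∀ (A : ℕ) (ψ : Fm) (v v' : V2), 5 ≤ A → ψ ∈ Red A → Cn v → Cn v' →
  ev ψ v = ev ψ v' → ev ψ v ∣ det v v' → v' = v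

-- deps:
def S_RED : Prop := ∀ (A : ℕ) (φ : Fm), 5 ≤ A → IsF A φ →
  ∃ ψ ∈ Red A, ∃ g : G4, Cn g.1 ∧ det g.1 g.2 = 1 ∧ act ψ g = φ

-- deps:
def S_MER : Prop := ∀ A : ℕ, Odd A → 5 ≤ A → ∃ C : ℝ, 0 < C ∧ ∀ w y : ℝ, 2 ≤ w → w ≤ y →
  |∑ p ∈ PP w y, (rho A p : ℝ) / p - log (log y / log w)| ≤ C ∧
  |∑ p ∈ PP w y, (1 : ℝ) / p - log (log y / log w)| ≤ C

end Pool.Agent.P.MP_6f5b02_nt.Hy
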