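import Pool.Agent.P.MP_6f5b02_nt.Hy.IfN
import Pool.Agent.P.MP_6f5b02_nt.Hy.IfG

/-! Typical edges and the sign argument. -/

namespace Pool.Agent.P.MP_6f5b02_nt.Hy

open Pool.Agent.P.MP_8be758_nt Pool.Agent.P.MP_8be758_nt.Pd
open Finset Real Filter
open Pool.Agent.P.MP_8be758_nt.Par (det)
open scoped Classical

-- deps: OK NEQ L1
def S_TKE : Prop := Unif fun C ρ => ∀ (Q : Finset ℕ) (u : V2), u = (1, 0) ∨ u = (0, 1) →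
  (∀ p ∈ Q, p.Prime ∧ ρ.w < p ∧ (p : ℝ) ≤ ρ.y ^ ρ.k6) →
  ∑ g ∈ ρ.E, (∑ p ∈ Q, ind ((p : ℤ) ∣ ev (ρ.fm g) u) - ∑ p ∈ Q, (rho ρ.A p : ℝ) / (p + 1)) ^ 2 ≤
    C * ρ.X * (∑ p ∈ Q, (rho ρ.A p : ℝ) / (p + 1) + 1)

-- deps: NEQ L1 L2 L3
def S_FM1 : Prop := Unif fun C ρ => ∀ p ∈ ρ.Ps,
  ∑ g ∈ ρ.E, ind ((p : ℤ) ∣ (ρ.fm g).1) ≤ C * ρ.X / p ∧
  ∑ g ∈ ρ.E, ind ((p : ℤ) ∣ (ρ.fm g).2.2) ≤ C * ρ.X / p ∧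
  ∑ g ∈ ρ.E, ind ((p : ℤ) ^ 2 ∣ (ρ.fm g).1 * (ρ.fm g).2.2) ≤ C * ρ.X / (p : ℝ) ^ 2

-- deps: FM1 ML LAM
def S_TYP1 : Prop := Unif fun C ρ => ((ρ.E.filter fun g => ¬((ρ.fl (ρ.fm g).1 : ℝ) ≤ ρ.y ^ ρ.K ∧
    (ρ.fl (ρ.fm g).2.2 : ℝ) ≤ ρ.y ^ ρ.K ∧ ρ.si ((ρ.fm g).1 * (ρ.fm g).2.2) ≤ 1 / √ρ.w ∧
    ∀ p ∈ ρ.Ps, ¬(p : ℤ) ^ 2 ∣ (ρ.fm g).1 * (ρ.fm g).2.2)).card : ℝ) ≤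
  C * ρ.X * (1 / ρ.K + 1 / √ρ.w)

-- deps: TKE LAM
def S_TYP2 : Prop := Unif fun _ ρ => ((ρ.E.filter fun g =>
    ¬(39 / 20 * ρ.La ≤ (ρ.om (ρ.fm g).1 + ρ.om (ρ.fm g).2.2 : ℕ) ∧
      ((ρ.om (ρ.fm g).1 + ρ.om (ρ.fm g).2.2 : ℕ) : ℝ) ≤ 41 / 20 * ρ.La)).card : ℝ) ≤ ρ.X / ρ.K

-- deps: TKE MER QCNT L1
def S_TYP3 : Prop := Unif fun C ρ => ∀ (a b : ℕ) (u : V2), 1 ≤ a → a < b → b ≤ ρ.k6 →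
  u = (1, 0) ∨ u = (0, 1) →
  ((ρ.E.filter fun g => ¬∃ p ∈ PP (ρ.y ^ a) (ρ.y ^ b), (p : ℤ) ∣ ev (ρ.fm g) u).card : ℝ) ≤
    C * ρ.X / log ((b : ℝ) / a)

-- deps: TYP1 TYP2 TYP3 TB
def S_TYP : Prop := Unif fun C ρ => ∀ r : ℕ, 2 ≤ r → r ≤ ρ.k2 → r * ρ.k3 ≤ ρ.k4 → r * ρ.k5 ≤ ρ.k6 →
  ((ρ.E.filter fun g => ¬(ρ.Typ (ρ.fm g) ∧ ρ.Bg (ρ.fm g) ∧
    ∃ q, ρ.QR q ∧ Pr.QD q (ρ.fm g))).card : ℝ) ≤ C * ρ.X * (1 / √ρ.K + 1 / √ρ.w + 1 / log r)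

end Pool.Agent.P.MP_6f5b02_nt.Hy
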