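import Pool.Agent.P.MP_6f5b02_nt.Hy.IfG
import Pool.Agent.P.MP_6f5b02_nt.Hy.DefsH
import Pool.Agent.P.MP_8be758_nt.Pd.IfH

/-! Statements for the lower bound of the sum over small data. -/

namespace Pool.Agent.P.MP_6f5b02_nt.Hy

open Pool.Agent.P.MP_8be758_nt Pool.Agent.P.MP_8be758_nt.Pd
open Finset Real Filter
open Pool.Agent.P.MP_8be758_nt.Par (det)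

-- deps:
def S_LOCW : Prop := ∀ (p : ℕ) (P R a b : ℤ) (u : V2), p.Prime →
  b ^ 2 - 4 * P * (a * R) = (17 : ℤ) → ev (1, 1, -4) u = a → ¬(p : ℤ) ∣ a →
  ((p : ℤ) ∣ P → (p : ℤ) ∣ b → ¬(p : ℤ) ∣ R) → ∃ (s0 t0 : ℤ) (l : V2), LW P R a b p s0 t0 l

-- deps:
def S_CON1 : Prop := ∀ (A p : ℕ) (ψ : Fm) (u : V2), 5 ≤ A → IsF A ψ → p.Prime → 4 * A < p →
  ¬(p : ℤ) ∣ ev ψ u → ((p : ℝ) - 1) / p ^ 2 ≤ S2.av p fun v => ind ((p : ℤ) ∣ ev ψ u - ev ψ v)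

-- deps: BOX
def S_CON2 : Prop := ∀ (A p : ℕ) (ψ : Fm), 5 ≤ A → IsF A ψ → p.Prime → 4 * A < p →
  (∀ c : ℤ, S2.av (p ^ 2) (fun v => ind ((p : ℤ) ∣ ev ψ v - c)) ≤ 2 / (p : ℝ)) ∧
  S2.av (p ^ 2) (fun v => ind ((p : ℤ) ^ 2 ∣ ev ψ v)) ≤ 3 / (p : ℝ) ^ 2

-- deps: BOX
def S_CON3 : Prop := ∀ (A p : ℕ) (ψ : Fm), 5 ≤ A → IsF A ψ → p.Prime → 4 * A < p →
  S2.av (p ^ 2) (fun v => ind ((p : ℤ) ∣ ev ψ v)) ≤ (rho A p : ℝ) / p + 1 / (p : ℝ) ^ 2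

-- deps:
def S_ROOT : Prop := ∀ (A : ℕ) (ψ : Fm) (k : ℤ) (S : Finset V2), 5 ≤ A → ψ ∈ Red A → 0 < k →
  Squarefree k.natAbs → (∀ p : ℕ, p.Prime → (p : ℤ) ∣ k → 4 * A < p) →
  (∀ v ∈ S, ev ψ v = k ∧ Cn v) → S.card ≤ rr A k

-- deps:
def S_BXR : Prop := ∀ A : ℕ, 5 ≤ A → ∃ c a0 : ℝ, 0 < c ∧ ∀ ψ ∈ Red A, ∀ a : ℤ, 0 < a →
  (∀ v ∈ Bx A ψ a, a ≤ 2 * ev ψ v ∧ 4 * ev ψ v ≤ 3 * a ∧ Cn v) ∧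
  (a0 ≤ a → c * a ≤ (Bx A ψ a).card)

-- deps: AREA LATD
def S_SQT : Prop := ∀ A : ℕ, 5 ≤ A → ∃ C : ℝ, 0 < C ∧ ∀ ψ ∈ Red A, ∀ Y z : ℝ, 0 ≤ Y → 4 * A ≤ z →
  ∑ v ∈ An ψ 0 Y, ind (∃ p : ℕ, p.Prime ∧ z < p ∧ (p : ℤ) ^ 2 ∣ ev ψ v) ≤ C * Y / z

-- deps: OK PROD BOX MER LAM
def S_TSET : Prop := Unif fun C ρ => ∀ (D : ℕ) (T : ℝ) (t0 : ℕ → ℤ) (B : ℕ → ℤ → Prop), 0 < T →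
  ρ.y ^ ρ.k3 ≤ T ^ 2 → D ≠ 0 → D.primeFactors ⊆ ρ.Ps → ρ.si D ≤ 1 / √ρ.w →
  Few (PP (4 * ρ.A) ρ.w) B → T / (C * log ρ.w ^ 6) ≤ (ρ.TS D T t0 B).card

-- deps: CON2 CON3 L1 OK
def S_HF : Prop := Unif fun _ ρ => ∀ (ψ : Fm) (a : ℤ) (D t : ℕ) (Bd : ℕ → ℤ → Prop),
  ρ.HH ψ a D t Bd → ∀ p : ℕ, p.Prime → 4 * ρ.A < p →
  S2.Per (p ^ 2) (ρ.hf ψ a D Bd p) ∧ (∀ v, 0 ≤ ρ.hf ψ a D Bd p v ∧ ρ.hf ψ a D Bd p v ≤ 1) ∧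
  1 - 6 / (p : ℝ) ≤ S2.av (p ^ 2) (ρ.hf ψ a D Bd p) ∧
  exp (-(if p ≤ ρ.w then 12 / (p : ℝ) else if ρ.y < (p : ℝ) then 4 / (p : ℝ)
    else if p ∣ D then 8 / (p : ℝ) else 5 / 6 * (rho ρ.A p : ℝ) / p + 20 / (p : ℝ) ^ 2)) ≤
    S2.av (p ^ 2) (ρ.hf ψ a D Bd p)

-- deps: OK PROD MC BOX CON2 HF
def S_HLM1 : Prop := Unif fun _ ρ => ∀ (ψ : Fm) (a : ℤ) (D t : ℕ) (Bd : ℕ → ℤ → Prop) (cl : ℕ → V2),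
  ρ.HH ψ a D t Bd →
  3 / 4 * ρ.Nv ψ a D t Bd - a / (t * ρ.y ^ 2) ≤ ∑ v ∈ Bx ρ.A ψ a, ρ.Ph ψ a D t Bd cl v ∧
  ∀ p0 ∈ ρ.Ps, ¬p0 ∣ t →
    ∑ v ∈ Bx ρ.A ψ a, ρ.Ph ψ a D t Bd cl v * ind ((p0 : ℤ) ∣ ev ψ v * (a - ev ψ v)) ≤
      10 * ρ.Nv ψ a D t Bd / p0 + a / (t * ρ.y ^ 2)

-- deps: BXR CON1 HF MER LAM
def S_HLM2 : Prop := Unif fun C ρ => ∀ (ψ : Fm) (a : ℤ) (D t : ℕ) (Bd : ℕ → ℤ → Prop),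
  ρ.HH ψ a D t Bd →
  a / t * exp (-(5 / 6) * ρ.La) / (C * ((ρ.k4 : ℝ) ^ 4 * log ρ.w ^ 12)) ≤ ρ.Nv ψ a D t Bd

-- deps: HLM1 HLM2 HF ML LAM
def S_HLM : Prop := Unif fun C ρ => ∀ (ψ : Fm) (a : ℤ) (D t : ℕ) (Bd : ℕ → ℤ → Prop) (cl : ℕ → V2),
  ρ.HH ψ a D t Bd →
  a / t * exp (-(5 / 6) * ρ.La) / (C * ((ρ.k4 : ℝ) ^ 4 * log ρ.w ^ 12)) ≤
    ∑ v ∈ Bx ρ.A ψ a, ρ.Ph ψ a D t Bd cl v * ind (ρ.Sz a (ev ψ v) t)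

-- deps:
def S_HLH : Prop := Unif fun _ ρ => ∀ (P R a b : ℤ) (D : ℕ) (T : ℝ) (ψ : Fm) (u : V2)
  (s0 t0 : ℕ → ℤ) (l : ℕ → V2), ρ.HD P R a b D T → ψ ∈ Red ρ.A → ev ψ u = a →
  (∀ p ∈ PP 0 (4 * ρ.A), LW P R a b p (s0 p) (t0 p) (l p)) →
  Few (PP (4 * ρ.A) ρ.w) (Bz P R a b) ∧
  ∀ t ∈ ρ.TS D T t0 (Bz P R a b), ρ.HH ψ a D t (ρ.Bq P R a b t)

-- deps: BXR HLH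
def S_HLV : Prop := Unif fun _ ρ => ∀ (P R a b : ℤ) (D : ℕ) (T : ℝ) (ψ : Fm) (u : V2)
  (s0 t0 : ℕ → ℤ) (l : ℕ → V2), ρ.HD P R a b D T → ψ ∈ Red ρ.A → ev ψ u = a →
  (∀ p ∈ PP 0 (4 * ρ.A), LW P R a b p (s0 p) (t0 p) (l p)) →
  ∀ t ∈ ρ.TS D T t0 (Bz P R a b), ∀ v ∈ Bx ρ.A ψ a,
  ρ.Ph ψ a D t (ρ.Bq P R a b t) l v ≠ 0 → ρ.Sz a (ev ψ v) t →
  ¬(∃ p : ℕ, p.Prime ∧ ρ.y < p ∧ (p : ℤ) ^ 2 ∣ ev ψ v) →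
  ρ.Ph ψ a D t (ρ.Bq P R a b t) l v ≤ (1 / 6) ^ ρ.om (ev ψ v) ∧
  ∃ s ∈ Icc 1 a.toNat, a - (s : ℤ) * t = ev ψ v ∧ ρ.SB D a T s t ∧ VT.GW ⟨P, R, a, b, s, t⟩ ρ.w

-- deps: BXR ROOT HLH HLV HLM HF
def S_HLT : Prop := Unif fun C ρ => ∀ (P R a b : ℤ) (D : ℕ) (T : ℝ) (ψ : Fm) (u : V2)
  (s0 t0 : ℕ → ℤ) (l : ℕ → V2), ρ.HD P R a b D T → ψ ∈ Red ρ.A → ev ψ u = a →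
  (∀ p ∈ PP 0 (4 * ρ.A), LW P R a b p (s0 p) (t0 p) (l p)) →
  ∀ t ∈ ρ.TS D T t0 (Bz P R a b),
  a / T * exp (-(5 / 6) * ρ.La) / (C * ((ρ.k4 : ℝ) ^ 4 * log ρ.w ^ 12)) ≤
    a * ρ.Hs P R a b D T t + ∑ v ∈ Bx ρ.A ψ a,
      ind ((t : ℤ) ∣ a - ev ψ v) * ind (∃ p : ℕ, p.Prime ∧ ρ.y < p ∧ (p : ℤ) ^ 2 ∣ ev ψ v)

-- deps: RED LOCW HLH HLT TSET SQT BXR LAM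
def S_HL : Prop := Unif fun C ρ => ∀ (P R a b : ℤ) (D : ℕ) (T : ℝ), ρ.HD P R a b D T →
  exp (-(5 / 6) * ρ.La) / (C * ρ.ls) ≤ ∑ t ∈ Icc 1 ⌊T⌋₊, ρ.Hs P R a b D T t

end Pool.Agent.P.MP_6f5b02_nt.Hy
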