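import Pool.Agent.P.MP_6f5b02_nt.Hy.BasicM
import Pool.Agent.P.MP_8be758_nt.Pd.IfM

/-! Statements of the mean value part. -/

namespace Pool.Agent.P.MP_6f5b02_nt.Hy

open Pool.Agent.P.MP_8be758_nt Pool.Agent.P.MP_8be758_nt.Pd
open Finset Real Filter
open Pool.Agent.P.MP_8be758_nt.Par (cj det)
open Pool.Agent.P.MP_6f5b02_nt.Hy.Par (nq mul eu un red)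
open Pool.Agent.P.MP_6f5b02_nt.Hy.Mr

/-! ### Energy -/

-- deps:
def S_MVT : Prop := ∃ C : ℝ, 1 ≤ C ∧ ∀ (A : ℕ) (ι : Type) (I : Finset ι) (z : ι → V2) (a : ι → ℂ)
  (K : Finset ℤ) (T Y : ℝ), 5 ≤ A → 0 ≤ T → 1 ≤ Y → Bd K T →
  (∀ i ∈ I, 0 < nq A (z i) ∧ (nq A (z i) : ℝ) ≤ Y) →
  ∑ k ∈ K, ‖∑ i ∈ I, a i * ek A k (z i)‖ ^ 2 ≤ C * (T + Y) * col A I z a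

-- deps: MVT
def S_MVP : Prop := ∃ C : ℝ, 1 ≤ C ∧ ∀ (A : ℕ) (a : V2 → ℝ) (K : Finset ℤ) (T Y : ℝ),
  5 ≤ A → 0 ≤ T → 1 ≤ Y → Bd K T →
  ∑ k ∈ K, ‖∑ v ∈ VV (Q0 A) 0 Y, (a v : ℂ) * ek A k v‖ ^ 2 ≤
    C * (T + Y) * ∑ v ∈ VV (Q0 A) 0 Y, a v ^ 2

-- deps: FEJ
def S_FAR : Prop := ∃ C : ℝ, 0 < C ∧ ∀ (A n L : ℕ) (X : ℝ), 5 ≤ A → 1 ≤ n → 1 ≤ L →
  2 * (L : ℝ) ^ 2 ≤ X →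
  ∑ v ∈ VX A X, ∑ w ∈ (VX A X).filter (fun w => (L : ℤ) < |det v w|),
    KF n (uu A v * (starRingEnd ℂ) (uu A w)) ≤ C * (VX A X).card * X ^ 2 / (n * L)

/-! ### Stages -/

-- deps: RED
def S_THUE : Prop := ∀ A p : ℕ, 5 ≤ A → p.Prime → 1 ≤ rho A p →
  ∃ (β : ℕ) (g : V2), 1 ≤ β ∧ β ≤ 4 * A ∧ nq A g = β * p

-- deps: THUE MER
def S_SEL : Prop := ∀ A : ℕ, Odd A → 5 ≤ A → ∃ c C : ℝ, 0 < c ∧ 0 < C ∧ ∀ P Q H : ℝ,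
  4 * (A : ℝ) ≤ P → P ≤ Q → 2 ≤ H → ∃ σ : St, σ.OK A ∧ σ.P = P ∧ σ.Q = Q ∧ σ.H = H ∧
    c * log (log Q / log P) - C ≤ σ.E

-- deps:
def S_DV : Prop := ∀ (A p : ℕ) (g : V2), p.Prime → (p : ℤ) ∣ nq A g →
  ¬((p : ℤ) ∣ g.1 ∧ (p : ℤ) ∣ g.2) →
  SP.Per p (fun v => ind (Dv A p g v)) ∧ SP.av p (fun v => ind (Dv A p g v)) = 1 / ((p : ℝ) + 1)

-- deps: OK DV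
def S_TK : Prop := ∀ (A : ℕ) (σ : St) (G : Finset V2) (Mx err : ℝ), σ.OK A → σ.Q ^ 2 ≤ Mx →
  0 ≤ err → SP.Equi G (fun _ => 1) G.card Mx err →
  ∑ v ∈ G, (σ.om A v - σ.E) ^ 2 ≤ G.card * σ.E + 3 * (σ.S.card : ℝ) ^ 2 * err

-- deps:
def S_BIJ : Prop := ∀ (A : ℕ) (σ : St) (p : ℕ), 5 ≤ A → σ.OK A → p ∈ σ.S →
  (∀ u : V2, σ.Lam A u → ∃ w : V2, (σ.β : ℤ) • w = mul A (σ.γ p) u ∧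
    (p : ℤ) • u = mul A (cj (σ.γ p)) w ∧ (Pr w ∨ ∃ v : V2, Pr v ∧ w = (p : ℤ) • v)) ∧
  ∀ v : V2, Pr v → Dv A p (cj (σ.γ p)) v →
    ∃ u : V2, σ.Lam A u ∧ (σ.β : ℤ) • v = mul A (σ.γ p) u ∧ (p : ℤ) • u = mul A (cj (σ.γ p)) v

-- deps: AREA
def S_MU2 : Prop := ∀ A : ℕ, 5 ≤ A → ∃ C : ℝ, 0 < C ∧ ∀ (σ : St) (X : ℝ), σ.OK A → σ.Q ^ 2 ≤ X →
  ∑ v ∈ VV (Q0 A) 0 (4 * X), σ.mu A X v ^ 2 ≤ C * X * σ.E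

-- deps: TK MU2 VEQ AREA
def S_RAM2 : Prop := ∀ A : ℕ, 5 ≤ A → ∃ C : ℝ, 0 < C ∧ ∀ (σ : St) (X : ℝ), σ.OK A → 1 ≤ X →
  1 ≤ σ.E → σ.H ≤ σ.Q → σ.Q ≤ X ^ (1 / 40 : ℝ) →
  ∑ v ∈ VV (Q0 A) 0 (4 * X), σ.ab A X v ^ 2 ≤ C * X * (σ.E + σ.E ^ 2 / σ.H)

-- deps:
def S_MOMA : Prop := ∀ (A β : ℕ) (γ : ℕ → V2) (s t : Multiset ℕ) (u u' : V2), 5 ≤ A → 1 ≤ β →
  β ≤ 4 * A → (∀ p ∈ s + t, Gp A β γ p) → (∀ p ∈ s, p ∉ t) → Pr u → Pr u' → 0 ≤ nq A u' →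
  det (mul A (pv A (s.map γ)) u) (mul A (pv A (t.map γ)) u') = 0 →
  ∃ d : ℕ, d ∣ (s + t).prod ∧ (d : ℤ) ∣ nq A u ∧
    ((s + t).prod : ℕ) * nq A u ≤ (d : ℤ) ^ 2 * (4 * A) ^ (s + t).card * nq A u'

-- deps: MOMA LATD
open Classical in
def S_MOMB : Prop := ∀ A : ℕ, 5 ≤ A → ∃ C : ℝ, 1 ≤ C ∧ ∀ (β : ℕ) (γ : ℕ → V2) (I : Finset ℕ)
  (P Y : ℝ) (W : Finset V2) (l : ℕ) (s t : Multiset ℕ), Blk A β γ I P → Sm A W Y → 1 ≤ Y →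
  (∀ p ∈ s + t, p ∈ I) → s.card = l → t.card = l →
  (((W ×ˢ W).filter fun g =>
    uu A (mul A (pv A (s.map γ)) g.1) = uu A (mul A (pv A (t.map γ)) g.2)).card : ℝ) ≤
    C ^ (l + 1) * Y / P ^ (s - t).card

-- deps: MVT MOMB MOMC
def S_MOM : Prop := ∀ A : ℕ, 5 ≤ A → ∃ C : ℝ, 1 ≤ C ∧ ∀ (β : ℕ) (γ : ℕ → V2) (I : Finset ℕ)
  (P Y T : ℝ) (W : Finset V2) (l : ℕ) (K : Finset ℤ), Blk A β γ I P → Sm A W Y → 1 ≤ Y → 0 ≤ T →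
  Bd K T → ∑ k ∈ K, ‖GS A γ I k‖ ^ (2 * l) * ‖FS A W k‖ ^ 2 ≤
    (C * (l + 1)) ^ (l + 1) * (T + (C * P) ^ l * Y) * Y * P ^ l

-- deps: MOM
def S_UB : Prop := ∀ (A : ℕ) (α : ℝ), 5 ≤ A → 0 < α → ∃ X0 : ℝ,
  ∀ (μ a X : ℝ) (σ : St) (K : Finset ℤ), X0 ≤ X → σ.OK A → σ.Pm μ → σ.Q ≤ X ^ (1 / 40 : ℝ) →
  log X ≤ 40 * μ ^ 20 → 0 ≤ a → a ≤ α → Bd K X → (∀ k ∈ K, ¬σ.Good A a k) →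
  (K.card : ℝ) ≤ X ^ (3 * α)

/-! ### Exponential sums -/

-- deps: AREA
def S_SH0 : Prop := ∀ A : ℕ, 5 ≤ A → ∃ C : ℝ, 0 < C ∧ ∀ (N r : ℝ) (d : V2) (g : V2 → ℂ),
  1 ≤ N → 1 ≤ r → |(d.1 : ℝ)| ≤ r → |(d.2 : ℝ)| ≤ r → (∀ v, ‖g v‖ ≤ 1) →
  ‖∑ v ∈ An (Q0 A) 0 N, g (v + d) - ∑ v ∈ An (Q0 A) 0 N, g v‖ ≤ C * r * √N

-- deps: SH0 AREA
def S_SHF : Prop := ∀ A : ℕ, 5 ≤ A → ∃ C : ℝ, 0 < C ∧ ∀ (N : ℝ) (k : ℤ) (m : ℕ) (v0 v1 : V2),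
  1 ≤ N → 0 < m →
  ‖∑ v ∈ (An (Q0 A) 0 N).filter (fun v => C2 m v v0), ek A k v -
    ∑ v ∈ (An (Q0 A) 0 N).filter (fun v => C2 m v v1), ek A k v‖ ≤
    C * m * (|(k : ℝ)| + 1) * N ^ (3 / 4 : ℝ)

-- deps: SHF FEJ
def S_ES0 : Prop := ∀ A : ℕ, 5 ≤ A → ∃ C : ℝ, 0 < C ∧ ∀ (N : ℝ) (k : ℤ) (m : ℕ) (v0 : V2),
  1 ≤ N → 0 < m → k ≠ 0 →
  ‖∑ v ∈ (An (Q0 A) 0 N).filter (fun v => C2 m v v0), ek A k v‖ ≤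
    C * m * |(k : ℝ)| ^ 7 * N ^ (3 / 4 : ℝ)

-- deps:
def S_CHN : Prop := ∀ a b m c : ℝ, 0 < a → 0 < b → 0 ≤ m → ∃ f : ℕ → ℝ → ℝ,
  (∀ j x, 0 ≤ x → HasDerivAt (f j) (f (j + 1) x) x) ∧
  (∀ x : ℝ, f 0 x = c * (log (a + m * x) - log (b + m * x))) ∧
  ∀ (i : ℕ) (x : ℝ), f (i + 1) x = c * m ^ (i + 1) * (-1) ^ i * i.factorial *
    ((a + m * x)⁻¹ ^ (i + 1) - (b + m * x)⁻¹ ^ (i + 1))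

-- deps: VD1 CHN
def S_SEG : Prop := ∀ J : ℕ, ∃ (B : ℕ) (τ0 C : ℝ), 0 < τ0 ∧ 0 < C ∧
  ∀ (R τ m c a b : ℝ) (n : ℕ), 0 < τ → τ ≤ τ0 → 1 ≤ τ ^ B * R → 1 ≤ τ ^ B * |c| →
  |c| ≤ R ^ (2 * J) → 1 ≤ m → m * τ ≤ 1 → a ≤ R → τ * R ≤ b → τ * R ≤ a - b →
  τ ^ 5 * R ≤ n → n ≤ 2 * τ ^ 5 * R →
  ‖∑ t ∈ range n, Complex.exp ((c * (log (a + m * t) - log (b + m * t)) : ℝ) * Complex.I)‖ ≤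
    C * τ * n

-- deps: SEG SH0 AREA
def S_ES1 : Prop := ∀ A J : ℕ, 5 ≤ A → ∃ c C : ℝ, 0 < c ∧ 0 < C ∧
  ∀ (N : ℝ) (k : ℤ) (m : ℕ) (v0 : V2), 1 ≤ N → 0 < m → N ^ (1 / 40 : ℝ) ≤ |(k : ℝ)| →
  |(k : ℝ)| ≤ N ^ J →
  ‖∑ v ∈ (An (Q0 A) 0 N).filter (fun v => C2 m v v0), ek A k v‖ ≤ C * m * N ^ (1 - c)

-- deps: ES0 ES1 AREA
def S_ES : Prop := ∀ A J : ℕ, 5 ≤ A → ∃ c C : ℝ, 0 < c ∧ c ≤ 1 / 2 ∧ 0 < C ∧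
  ∀ (N N1 N2 : ℝ) (k : ℤ) (m : ℕ) (φ : V2 → ℝ), 1 ≤ N → 0 ≤ N1 → N1 ≤ N2 → N2 ≤ N → 0 < m →
  k ≠ 0 → |(k : ℝ)| ≤ N ^ J → S2.Per m φ → (∀ v, |φ v| ≤ 1) →
  ‖∑ v ∈ An (Q0 A) N1 N2, (φ v : ℂ) * ek A k v‖ ≤ C * (m : ℝ) ^ 3 * N ^ (1 - c)

-- deps: ES AREA
def S_PES : Prop := ∀ A J : ℕ, 5 ≤ A → ∃ c C : ℝ, 0 < c ∧ c ≤ 1 / 2 ∧ 0 < C ∧
  ∀ (N N1 N2 : ℝ) (k : ℤ) (m : ℕ) (φ : V2 → ℝ), 1 ≤ N → 0 ≤ N1 → N1 ≤ N2 → N2 ≤ N → 0 < m →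
  k ≠ 0 → |(k : ℝ)| ≤ N ^ J → S2.Per m φ → (∀ v, |φ v| ≤ 1) →
  ‖∑ v ∈ VV (Q0 A) N1 N2, (φ v : ℂ) * ek A k v‖ ≤ C * (m : ℝ) ^ 3 * N ^ (1 - c)

/-! ### The last stage -/

-- deps:
def S_GRAM : Prop := ∀ (A : ℕ) (G : Finset V2) (U : Finset ℤ) (d : ℤ → ℂ) (err : ℝ), 5 ≤ A →
  (∀ v ∈ G, v ≠ 0) → 0 ≤ err →
  (∀ k ∈ U, ∀ k' ∈ U, k ≠ k' → ‖∑ v ∈ G, ek A (k - k') v‖ ≤ err) →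
  |∑ v ∈ G, ‖Phi A U d v‖ ^ 2 - G.card * ∑ k ∈ U, ‖d k‖ ^ 2| ≤ err * U.card * ∑ k ∈ U, ‖d k‖ ^ 2

-- deps: OK DV VEQ CNT
def S_PRA : Prop := ∀ A : ℕ, 5 ≤ A → ∃ c X0 : ℝ, 0 < c ∧ ∀ (X : ℝ) (p q : ℕ) (g g' : V2),
  X0 ≤ X → p.Prime → q.Prime → p ≠ q → (p : ℝ) ≤ X ^ (1 / 40 : ℝ) → (q : ℝ) ≤ X ^ (1 / 40 : ℝ) →
  (p : ℤ) ∣ nq A g → ¬((p : ℤ) ∣ g.1 ∧ (p : ℤ) ∣ g.2) →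
  (q : ℤ) ∣ nq A g' → ¬((q : ℤ) ∣ g'.1 ∧ (q : ℤ) ∣ g'.2) →
  c * X / p ≤ (((VV (Q0 A) (6 / 5 * X) (8 / 5 * X)).filter fun v =>
    Dv A p g v ∧ ¬Dv A q g' v).card : ℝ)

-- deps:
def S_DV2 : Prop := ∀ A q : ℕ, q.Prime →
  S2.Per q (fun v => ind ((q : ℤ) ∣ nq A v)) ∧
  S2.av q (fun v => ind ((q : ℤ) ∣ nq A v)) = (rho A q * ((q : ℝ) - 1) + 1) / (q : ℝ) ^ 2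

-- deps: MER
def S_PRD : Prop := ∀ A : ℕ, Odd A → 5 ≤ A → ∃ C : ℝ, 0 < C ∧ ∀ y : ℝ, 4 * (A : ℝ) ≤ y →
  ∏ q ∈ PP (4 * A) y, (1 - (rho A q * ((q : ℝ) - 1) + 1) / (q : ℝ) ^ 2) ≤ C / log y

-- deps: ES LAT FEJ
def S_EQK : Prop := ∀ A J : ℕ, 5 ≤ A → ∃ c C : ℝ, 0 < c ∧ c ≤ 1 / 2 ∧ 0 < C ∧
  ∀ (N Mx : ℝ) (k : ℤ) (n : ℕ) (ζ : ℂ), 1 ≤ n → (n : ℝ) ≤ N → 1 ≤ Mx → k ≠ 0 → |(k : ℝ)| ≤ N ^ J →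
  ‖ζ‖ = 1 → S2.Equi (An (Q0 A) 0 N) (fun v => KF n (ζ * ek A k v)) (An (Q0 A) 0 N).card Mx
    (C * n * Mx ^ 3 * N ^ (1 - c))

-- deps: OK MC EQK DV2 PRD AREA
def S_SIEV : Prop := ∀ A J : ℕ, Odd A → 5 ≤ A → ∃ C : ℝ, 0 < C ∧ ∀ n : ℕ, 1 ≤ n → ∃ N0 : ℝ,
  ∀ (N : ℝ) (k : ℤ) (ζ : ℂ), N0 ≤ N → k ≠ 0 → |(k : ℝ)| ≤ N ^ J → ‖ζ‖ = 1 →
  ∑ v ∈ (An (Q0 A) 0 N).filter (Ro A √N), KF n (ζ * ek A k v) ≤ C * N / log N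

-- deps: FEJ SIEV
def S_NONC : Prop := ∀ (A : ℕ) (a τ : ℝ), Odd A → 5 ≤ A → 0 < a → 0 < τ → ∃ c X0 : ℝ, 0 < c ∧
  c ≤ 1 ∧ ∀ (X P : ℝ) (β : ℕ) (γ : ℕ → V2) (I : Finset ℕ) (k : ℤ), X0 ≤ X → Blk A β γ I P →
  X ^ a ≤ P → τ * P / log X ≤ I.card → k ≠ 0 → |(k : ℝ)| ≤ X →
  ‖GS A γ I k‖ ≤ (1 - c) * I.card

end Pool.Agent.P.MP_6f5b02_nt.Hy
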