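import Pool.Agent.P.MP_6f5b02_nt.Hy.DefsP
import Pool.Agent.P.MP_8be758_nt.Pd.IfP

/-! Statements for a general completely multiplicative sign function. -/

namespace Pool.Agent.P.MP_6f5b02_nt.Hy.G

open Pool.Agent.P.MP_8be758_nt Pool.Agent.P.MP_8be758_nt.Pd
open Pool.Agent.P.MP_8be758_nt.Pd.G

open Finset Real Filter
open Pool.Agent.P.MP_8be758_nt.Par (cj det)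
open Pool.Agent.P.MP_6f5b02_nt.Hy.Par (nq mul eu un red)
open Pool.Agent.P.MP_6f5b02_nt.Hy.Mr

/-- the transfer theorem -/
def S_TRANSFER : Prop := ∀ (A : ℕ) (C1 η : ℝ), Odd A → 5 ≤ A → 1 ≤ C1 → 0 < η →
  ∃ δ C2 X0 : ℝ, 0 < δ ∧ 1 ≤ C2 ∧ ∀ [CM] (X σ : ℝ), X0 ≤ X → σ = 1 ∨ σ = -1 →
    ((NBad A (C2 * X) σ).card : ℝ) ≤ δ * X → ((EdBad A C1 X σ).card : ℝ) ≤ η * X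

/-- many edges have a sign different from `σ` -/
def Many (A : ℕ) (σ : ℝ) (H : CM → ℝ → Prop) : Prop := ∃ C1 C3 η X0 : ℝ, 1 ≤ C1 ∧ 1 ≤ C3 ∧ 0 < η ∧
  ∀ [c : CM] (X : ℝ), X0 ≤ X → H c X →
    ∃ X' : ℝ, X / C3 ≤ X' ∧ X' ≤ C3 * X ∧ η * X' < (EdBad A C1 X' σ).card

-- deps: EN STG LAST CNT
def S_MR : Prop := ∀ (A : ℕ) (θ : ℝ), Odd A → 5 ≤ A → θ < 1 / 2 →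
  Many A 1 fun c X => @Neg c (X ^ θ) X

-- deps: CNT
def S_TRI : Prop := ∀ A : ℕ, Odd A → 5 ≤ A → Many A (-1) fun _ _ => True

-- deps: TRANSFER MR TRI
def S_TOP : Prop := ∀ (A : ℕ) (θ : ℝ), Odd A → 5 ≤ A → θ < 1 / 2 → ∃ c : ℝ, 0 < c ∧
  ∀ᶠ N : ℕ in atTop, ∀ [CM], Neg ((N : ℝ) ^ θ) N →
    c * N ≤ (NBad A N 1).card ∧ c * N ≤ (NBad A N (-1)).card

-- deps: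
def S_NEAR : Prop := ∀ A L : ℕ, 5 ≤ A → 1 ≤ L → ∃ C1 C3 C X0 : ℝ, 1 ≤ C1 ∧ 1 ≤ C3 ∧ 0 < C ∧
  ∀ [CM] (X η : ℝ), X0 ≤ X → 0 ≤ η →
  (∀ X' : ℝ, X / C3 ≤ X' → X' ≤ C3 * X → ((EdBad A C1 X' 1).card : ℝ) ≤ η * X') →
  (((VX A X ×ˢ VX A X).filter fun g => |det g.1 g.2| ≤ (L : ℤ) ∧ fl A g.1 ≠ fl A g.2).card : ℝ) ≤
    C * η * X

-- deps: FEJ FAR NEAR CNT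
def S_EN : Prop := ∀ (A : ℕ) (η L : ℝ), 5 ≤ A → 0 < η → 1 ≤ L →
  ∃ C1 C3 η' X0 : ℝ, 1 ≤ C1 ∧ 1 ≤ C3 ∧ 0 < η' ∧ ∀ [CM] (X : ℝ), X0 ≤ X →
  (∀ X' : ℝ, X / C3 ≤ X' → X' ≤ C3 * X → ((EdBad A C1 X' 1).card : ℝ) ≤ η' * X') →
  (1 - η) * ((VX A X).card : ℝ) ^ 2 ≤ ∑ k ∈ KT X L, ‖FX A X k‖ ^ 2

-- deps: SEL
def S_SELC : Prop := ∀ A : ℕ, Odd A → 5 ≤ A → ∃ c C : ℝ, 0 < c ∧ 0 < C ∧ ∀ [CM] (P Q H : ℝ),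
  4 * (A : ℝ) ≤ P → P ≤ Q → 2 ≤ H → ∃ σ : St, σ.OK A ∧ Cs σ ∧ σ.P = P ∧ σ.Q = Q ∧ σ.H = H ∧
    c * log (log Q / log P) - C ≤ σ.E

-- deps: BIJ
def S_RAM0 : Prop := ∀ [CM] (A : ℕ) (σ : St) (p : ℕ) (X : ℝ) (k : ℤ), 5 ≤ A → σ.OK A → Cs σ → p ∈ σ.S → 0 < X →
  ek A k (σ.γ p) * FS A (σ.W A X (σ.blk p)) k = (sg σ : ℂ) *
    (FS A ((VV (Q0 A) 0 (4 * X)).filter fun v => Dv A p (cj (σ.γ p)) v ∧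
        X * p / σ.Ph (σ.blk p) < (nq A v : ℝ) ∧ (nq A v : ℝ) ≤ 2 * X * p / σ.Ph (σ.blk p)) k +
      FS A ((VV (Q0 A) 0 (4 * X)).filter fun v =>
        red A (mul A (cj (σ.γ p)) v) ∈ σ.W A X (σ.blk p)) k)

-- deps: RAM0
def S_RAM1 : Prop := ∀ [CM] (A : ℕ) (σ : St) (X : ℝ), 5 ≤ A → σ.OK A → Cs σ → 0 < X → ∃ a : V2 → ℝ,
  (∀ v, |a v| ≤ σ.ab A X v) ∧ ∀ k : ℤ, (σ.E : ℂ) * FX A X k =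
    (sg σ : ℂ) * ∑ h ∈ range σ.nb, σ.G A h k * FS A (σ.W A X h) k +
      ∑ v ∈ VV (Q0 A) 0 (4 * X), (a v : ℂ) * ek A k v

-- deps: MVP RAM1 RAM2
def S_ST0 : Prop := ∀ A : ℕ, 5 ≤ A → ∃ C : ℝ, 0 < C ∧ ∀ [CM] (σ : St) (X : ℝ) (K : Finset ℤ),
  σ.OK A → Cs σ → 1 ≤ X → 1 ≤ σ.E → σ.H ≤ σ.Q → σ.Q ≤ X ^ (1 / 40 : ℝ) → Bd K X →
  ∑ k ∈ K, ‖FX A X k‖ ^ 2 ≤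
    2 * σ.nb * ∑ h ∈ range σ.nb, ∑ k ∈ K, ‖σ.G A h k‖ ^ 2 * ‖FS A (σ.W A X h) k‖ ^ 2 +
      C * X ^ 2 * (1 / σ.H + 1 / σ.E)

-- deps: MVT MOMB MOMC
def S_MOM : Prop := ∀ A : ℕ, 5 ≤ A → ∃ C : ℝ, 1 ≤ C ∧ ∀ [CM] (β : ℕ) (γ : ℕ → V2) (I : Finset ℕ)
  (P Y T : ℝ) (W : Finset V2) (l : ℕ) (K : Finset ℤ), Blk A β γ I P → Sm A W Y → 1 ≤ Y → 0 ≤ T →
  Bd K T → ∑ k ∈ K, ‖GS A γ I k‖ ^ (2 * l) * ‖FS A W k‖ ^ 2 ≤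
    (C * (l + 1)) ^ (l + 1) * (T + (C * P) ^ l * Y) * Y * P ^ l

-- deps: ST0 MOM
def S_ST1 : Prop := ∀ (A : ℕ) (α : ℝ), 5 ≤ A → 0 < α → ∃ C μ0 : ℝ, 0 < C ∧
  ∀ [CM] (μ a X : ℝ) (σ : St) (K : Finset ℤ), μ0 ≤ μ → σ.OK A → Cs σ → σ.Pm μ → 1 ≤ σ.E → 1 ≤ X →
  σ.Q ≤ X ^ (1 / 40 : ℝ) → α ≤ a → Bd K (X / exp (2 * μ ^ 10)) → (∀ k ∈ K, σ.Good A a k) →
  ∑ k ∈ K, ‖FX A X k‖ ^ 2 ≤ C * X ^ 2 * (1 / μ + 1 / σ.E)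

-- deps: ST0 MOM PAR2
def S_ST2 : Prop := ∀ (A : ℕ) (α : ℝ), 5 ≤ A → 0 < α → ∃ C μ0 : ℝ, 0 < C ∧
  ∀ [CM] (μ a a' X : ℝ) (σ σ' : St) (K : Finset ℤ), μ0 ≤ μ → σ.OK A → Cs σ → σ'.OK A → σ.Pm (μ ^ 2) →
  σ'.Pm μ → 1 ≤ σ.E → 1 ≤ X → σ.Q ≤ X ^ (1 / 40 : ℝ) → 0 ≤ a' → a' ≤ 1 → α / μ ^ 2 ≤ a - a' →
  Bd K X → (∀ k ∈ K, σ.Good A a k ∧ ¬σ'.Good A a' k) →
  ∑ k ∈ K, ‖FX A X k‖ ^ 2 ≤ C * X ^ 2 * (1 / μ ^ 2 + 1 / σ.E)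

-- deps: SELC ST1 ST2 UB
def S_STG : Prop := ∀ (A : ℕ) (α ε : ℝ), Odd A → 5 ≤ A → 0 < α → 0 < ε → ∃ L X0 : ℝ, 1 ≤ L ∧
  ∀ [CM] (X : ℝ), X0 ≤ X → ∃ U ⊆ KT X L, (U.card : ℝ) ≤ X ^ α ∧
    ∑ k ∈ KT X L \ U, ‖FX A X k‖ ^ 2 ≤ ε * X ^ 2

-- deps: BIJ
def S_PRB : Prop := ∀ [CM] (A : ℕ) (σ : St) (p q : ℕ), 5 ≤ A → σ.OK A → Cs σ → p ∈ σ.S → q ∈ σ.S →
  ∃ φ : V2 → V2, Set.InjOn φ {v | Cn v ∧ Pr v ∧ Dv A p (cj (σ.γ p)) v ∧ ¬Dv A q (σ.γ q) v} ∧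
    ∀ v : V2, Cn v → Pr v → Dv A p (cj (σ.γ p)) v → ¬Dv A q (σ.γ q) v →
      (Cn (φ v) ∧ Pr (φ v)) ∧ Dv A q (cj (σ.γ q)) (φ v) ∧ p * nq A (φ v) = q * nq A v ∧ fl A (φ v) = fl A v ∧
      ∀ k : ℤ, ek A k (φ v) * ek A k (σ.γ p) = ek A k (σ.γ q) * ek A k v

-- deps: PRA PRB PES GRAM
def S_PR2 : Prop := ∀ A : ℕ, 5 ≤ A → ∃ c κ C X0 : ℝ, 0 < c ∧ 0 < κ ∧ κ ≤ 1 / 2 ∧ 0 < C ∧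
  ∀ [CM] (X : ℝ) (σ : St) (p q : ℕ) (U : Finset ℤ) (d : ℤ → ℂ), X0 ≤ X → σ.OK A → Cs σ → 10 ≤ σ.H →
  σ.Q ≤ X ^ (1 / 40 : ℝ) → p ∈ σ.S → q ∈ σ.S → σ.blk p = σ.blk q → Bd U X →
  c * X / p * ∑ k ∈ U, ‖d k‖ ^ 2 * ‖ek A k (σ.γ p) - ek A k (σ.γ q)‖ ^ 2 ≤
    2 * dis A ((VX A X).filter fun v => Dv A p (cj (σ.γ p)) v) U d +
    2 * dis A ((VX A X).filter fun v => Dv A q (cj (σ.γ q)) v) U d +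
    C * σ.Q ^ 6 * X ^ (1 - κ) * U.card * ∑ k ∈ U, ‖d k‖ ^ 2

-- deps: PES GRAM CNT
def S_LSA : Prop := ∀ A : ℕ, 5 ≤ A → ∃ α X0 : ℝ, 0 < α ∧ ∀ [CM] (X : ℝ) (U : Finset ℤ), X0 ≤ X →
  Bd U X → (U.card : ℝ) ≤ X ^ α → ∑ k ∈ U, ‖cf A X k‖ ^ 2 ≤ 2 ∧
    dis A (VX A X) U (cf A X) ≤ (VX A X).card * (1 - ∑ k ∈ U, ‖cf A X k‖ ^ 2) + X ^ (1 - α)

-- deps: PR2 NONC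
def S_LSB1 : Prop := ∀ A : ℕ, Odd A → 5 ≤ A → ∃ κ C : ℝ, 0 < κ ∧ κ ≤ 1 / 2 ∧ 0 < C ∧
  ∀ a τ : ℝ, 0 < a → 0 < τ → ∃ c X0 : ℝ, 0 < c ∧
  ∀ [CM] (X : ℝ) (σ : St) (h : ℕ) (U : Finset ℤ) (d : ℤ → ℂ), X0 ≤ X → σ.OK A → Cs σ → 10 ≤ σ.H →
  X ^ a ≤ σ.P → σ.Q ≤ X ^ (1 / 40 : ℝ) → τ * σ.Ph h / log X ≤ (σ.I h).card → Bd U X →
  c * X * ((σ.I h).card / σ.Ph h) * ∑ k ∈ U.erase 0, ‖d k‖ ^ 2 ≤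
    4 * ∑ p ∈ σ.I h, dis A ((VX A X).filter fun v => Dv A p (cj (σ.γ p)) v) U d +
    C * (σ.I h).card * σ.Q ^ 6 * X ^ (1 - κ) * U.card * ∑ k ∈ U, ‖d k‖ ^ 2

-- deps: SELC LSB1
def S_LSB : Prop := ∀ A : ℕ, Odd A → 5 ≤ A → ∃ α c C X0 : ℝ, 0 < α ∧ 0 < c ∧ 0 < C ∧
  ∀ [CM] (X : ℝ) (U : Finset ℤ) (d : ℤ → ℂ), X0 ≤ X → Bd U X → (U.card : ℝ) ≤ X ^ α →
  c * X * ∑ k ∈ U.erase 0, ‖d k‖ ^ 2 ≤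
    C * dis A (VX A X) U d + X ^ (1 - α) * ∑ k ∈ U, ‖d k‖ ^ 2

-- deps: RED
def S_REP1 : Prop := ∀ A p : ℕ, 5 ≤ A → p.Prime → p ≡ 1 [MOD 17] → ∃ g : V2, Pr g ∧ nq A g = p

-- deps: VEQ CNT
def S_WCT : Prop := ∀ A M : ℕ, 5 ≤ A → 0 < M → ∃ c Y0 : ℝ, 0 < c ∧ ∀ Y : ℝ, Y0 ≤ Y →
  c * Y ≤ ((VV (Q0 A) Y (6 / 5 * Y)).filter fun w => C2 M w (1, 0)).card

-- deps: REP1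
def S_FLA : Prop := ∀ A : ℕ, 5 ≤ A → ∃ Zs M : ℕ, 1 ≤ Zs ∧ 0 < M ∧ ∃ g : ℕ → V2, ∀ d : ℕ,
  (∀ p : ℕ, p.Prime → p ∣ d → 2 * Zs < p ∧ p ≡ 1 [MOD 17]) →
  (d.Prime ∨ ∃ p q : ℕ, p.Prime ∧ q.Prime ∧ p < q ∧ d = p * q) →
  g d ≠ 0 ∧ (d : ℤ) ∣ nq A (g d) ∧ ∀ w : V2, Pr w → 0 < nq A w → C2 M w (1, 0) →
    (∀ p : ℕ, p.Prime → p ∣ d → nq A w < p) → Pr (mul A (g d) w) ∧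
    d * Zs ^ 2 * nq A w ≤ nq A (mul A (g d) w) ∧
    100 * nq A (mul A (g d) w) ≤ 121 * (d * Zs ^ 2 * nq A w) ∧
    ∀ [CM], fl A (mul A (g d) w) = lam d * fl A w

-- deps: FLA PAP PAP2 WCT
def S_FLC : Prop := ∀ A r : ℕ, 5 ≤ A → 8 ≤ r → ∃ c y0 : ℝ, 0 < c ∧ ∀ [CM] (y s : ℝ), y0 ≤ y →
  s = 1 ∨ s = -1 → Neg (y ^ r) (y ^ (2 * r + 6)) →
  c * y ^ (2 * r + 6) ≤ ((VX A (y ^ (2 * r + 6))).filter fun v => fl A v = s).card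

-- deps: FLC AREA
def S_FLIP : Prop := ∀ (A : ℕ) (θ : ℝ), 5 ≤ A → θ < 1 / 2 → ∃ c X0 : ℝ, 0 < c ∧ c ≤ 1 ∧
  ∀ [CM] (X : ℝ), X0 ≤ X → Neg (X ^ θ) X → ‖FX A X 0‖ ≤ (1 - c) * (VX A X).card

-- deps: LSA LSB FLIP AREA CNT
def S_LAST : Prop := ∀ (A : ℕ) (θ : ℝ), Odd A → 5 ≤ A → θ < 1 / 2 → ∃ α η X0 : ℝ, 0 < α ∧ 0 < η ∧
  ∀ [CM] (X : ℝ) (U : Finset ℤ), X0 ≤ X → Neg (X ^ θ) X → Bd U X → (U.card : ℝ) ≤ X ^ α →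
  ∑ k ∈ U, ‖FX A X k‖ ^ 2 ≤ (1 - η) * ((VX A X).card : ℝ) ^ 2

end Pool.Agent.P.MP_6f5b02_nt.Hy.G
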