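import Pool.Agent.P.MP_6f5b02_nt.Hy.IfP
import Pool.Agent.P.MP_6f5b02_nt.Hy.IfE

/-! The sign argument for a general completely multiplicative sign function. -/

namespace Pool.Agent.P.MP_6f5b02_nt.Hy.G

open Pool.Agent.P.MP_8be758_nt Pool.Agent.P.MP_8be758_nt.Pd
open Pool.Agent.P.MP_8be758_nt.Pd.G

open Finset Real Filter
open Pool.Agent.P.MP_8be758_nt.Par (det)
open scoped Classical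

-- deps: K4 TUP
def S_SGNE : Prop := Unif fun _ ρ => ∀ [CM] (τ : G4 × Sd) (σ : ℝ), ρ.IsTu τ → σ = 1 ∨ σ = -1 →
  τ.1 ∈ EdBad ρ.A ρ.C1 ρ.X σ →
    ∃ i : Fin 3, ∃ n ∈ NBad ρ.A (15 * ρ.C1 ^ 2 * ρ.X) σ, ((ρ.cy τ).v i).b = 2 * (n : ℤ) + 1

-- deps: SGNE SMB
def S_MB2 : Prop := Ev fun C ρ => ∀ [CM] (σ : ℝ), σ = 1 ∨ σ = -1 →
  ∑ τ ∈ ρ.Tb, ind (τ.1 ∈ EdBad ρ.A ρ.C1 ρ.X σ) * ρ.cw (1 / 6) (ρ.cy τ) ≤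
    3 * √((NBad ρ.A (15 * ρ.C1 ^ 2 * ρ.X) σ).card * (C * ρ.X * exp (-5 * ρ.La)))

end Pool.Agent.P.MP_6f5b02_nt.Hy.G
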