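import Pool.Agent.P.MP_6f5b02_nt.Hy.BasicT
import Pool.Agent.P.MP_8be758_nt.Pd.IfT

/-! Statements for the transfer theorem: equidistribution, local densities, small sums. -/

namespace Pool.Agent.P.MP_6f5b02_nt.Hy

open Pool.Agent.P.MP_8be758_nt Pool.Agent.P.MP_8be758_nt.Pd
open Finset Real Filter
open Pool.Agent.P.MP_8be758_nt.Par (det)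
open Pool.Agent.P.MP_e86632_nt (ee)

-- deps: KROW
def S_KST : Prop := ∃ C : ℝ, 0 < C ∧ ∀ (M : ℕ) (φ : Fm) (L Z β1 β2 : ℝ) (c : V2 → Prop)
  (V : Finset V2) (G : Finset G4), 0 < M → 1 ≤ L → 0 < Z → 0 ≤ β1 → β1 ≤ β2 →
  (∀ a b x y : ℤ, a ≤ x → x ≤ b → c (a, y) → c (b, y) → c (x, y)) →
  (∀ v, c v → Z < (ev φ v : ℝ) → (ev φ v : ℝ) ≤ 2 * Z → |(v.1 : ℝ)| ≤ L ∧ |(v.2 : ℝ)| ≤ L ∧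
    |2 * φ.1 * v.1 + φ.2.1 * v.2| ≤ 2 * ev φ v ∧ φ.1 < ev φ v) →
  (∀ v, v ∈ V ↔ c v ∧ IsCoprime v.1 v.2 ∧ Z < (ev φ v : ℝ) ∧ (ev φ v : ℝ) ≤ 2 * Z ∧ C2 M v (1, 0)) →
  (∀ g, g ∈ G ↔ c g.1 ∧ det g.1 g.2 = 1 ∧ Z < (ev φ g.1 : ℝ) ∧ (ev φ g.1 : ℝ) ≤ 2 * Z ∧
    β1 * (ev φ g.1 : ℝ) < (bl φ g.1 g.2 : ℝ) ∧ (bl φ g.1 g.2 : ℝ) ≤ β2 * (ev φ g.1 : ℝ) ∧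
    C4 M g ((1, 0), (0, 1))) →
  |(G.card : ℝ) - (β2 - β1) / (2 * M) * V.card| ≤ C * (1 + β2) * M * L ^ (9 / 5 : ℝ)

-- deps: AREA
def S_GCNT : Prop := ∀ A : ℕ, 5 ≤ A → ∃ C : ℝ, 0 < C ∧ ∀ ψ ∈ Red A, ∀ Z β1 β2 : ℝ, 1 ≤ Z → 0 ≤ β1 →
  0 ≤ β2 → ((GG ψ Z β1 β2).card : ℝ) ≤ C * (1 + β2) * Z

-- deps: KST LIFT VEQ
def S_EQC : Prop := ∀ A : ℕ, 5 ≤ A → ∃ C : ℝ, 0 < C ∧ ∀ ψ ∈ Red A, ∀ (Z β1 β2 : ℝ) (M : ℕ), 0 < M →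
  C * (M : ℝ) ^ 6 ≤ Z → 0 ≤ β1 → β1 ≤ β2 → ∀ g0 ∈ S4.U M, ∀ g1 ∈ S4.U M,
  |(((GG ψ Z β1 β2).filter fun g => C4 M g g0).card : ℝ) -
    ((GG ψ Z β1 β2).filter fun g => C4 M g g1).card| ≤
    C * (1 + β2) * (M : ℝ) ^ 7 * Z ^ (9 / 10 : ℝ)

-- deps: EQC GCNT
def S_EQ : Prop := ∀ A : ℕ, 5 ≤ A → ∃ C : ℝ, 0 < C ∧ ∀ ψ ∈ Red A, ∀ Z β1 β2 Mx : ℝ, 1 ≤ Z → 0 ≤ β1 →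
  β1 ≤ β2 → 1 ≤ Mx → S4.Equi (GG ψ Z β1 β2) (fun _ => 1) (GG ψ Z β1 β2).card Mx
    (C * (1 + β2) * Mx ^ 11 * Z ^ (9 / 10 : ℝ))

-- deps:
def S_FIB : Prop := ∀ (A : ℕ) (ψ φ : Fm) (G : Finset G4), 5 ≤ A → ψ ∈ Red A →
  (∀ g ∈ G, Cn g.1 ∧ det g.1 g.2 = 1 ∧ act ψ g = φ) → G.card ≤ 10

-- deps: RINV
def S_L1 : Prop := ∀ (A p : ℕ) (ψ : Fm) (u : V2), 5 ≤ A → IsF A ψ → p.Prime → 4 * A < p →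
  ¬((p : ℤ) ∣ u.1 ∧ (p : ℤ) ∣ u.2) → rho A p ≤ 2 ∧ rho A p ≠ 1 ∧
  S4.av (p ^ 2) (fun g => ind ((p : ℤ) ∣ ev (act ψ g) u)) = (rho A p : ℝ) / (p + 1)

-- deps: RINV L1
def S_L2 : Prop := ∀ (A p : ℕ) (ψ : Fm) (u u' : V2), 5 ≤ A → IsF A ψ → p.Prime → 4 * A < p →
  ¬(p : ℤ) ∣ det u u' →
  S4.av (p ^ 2) (fun g => ind ((p : ℤ) ∣ ev (act ψ g) u ∧ (p : ℤ) ∣ ev (act ψ g) u')) ≤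
    (rho A p : ℝ) / p ^ 2

-- deps: RINV L1
def S_L3 : Prop := ∀ (A p : ℕ) (ψ : Fm) (u : V2), 5 ≤ A → IsF A ψ → p.Prime → 4 * A < p →
  ¬((p : ℤ) ∣ u.1 ∧ (p : ℤ) ∣ u.2) →
  S4.av (p ^ 2) (fun g => ind ((p : ℤ) ^ 2 ∣ ev (act ψ g) u)) ≤ (rho A p : ℝ) / p ^ 2

-- deps: OK L1 L2
def S_LB : Prop := ∀ (A p : ℕ) (ψ : Fm) (ι : Type) (s : Finset ι) (u : ι → V2) (x : ι → ℝ), 5 ≤ A →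
  IsF A ψ → p.Prime → 4 * A < p → s.card ≤ 6 →
  (∀ i ∈ s, 0 ≤ x i ∧ x i ≤ 1 ∧ ¬((p : ℤ) ∣ (u i).1 ∧ (p : ℤ) ∣ (u i).2)) →
  1 - (rho A p : ℝ) / p * ∑ i ∈ s, x i ≤
    S4.av (p ^ 2) (fun g => ∏ i ∈ s, (1 - x i * ind ((p : ℤ) ∣ ev (act ψ g) (u i)))) ∧
  ((∀ i ∈ s, ∀ j ∈ s, i ≠ j → ¬(p : ℤ) ∣ det (u i) (u j)) →
    S4.av (p ^ 2) (fun g => ∏ i ∈ s, (1 - x i * ind ((p : ℤ) ∣ ev (act ψ g) (u i)))) ≤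
      1 - (rho A p : ℝ) / p * ∑ i ∈ s, x i + 50 / (p : ℝ) ^ 2)

-- deps:
def S_K4 : Prop := ∀ (A : ℕ) (x : VT), 5 ≤ A → VT.Ok x A →
  x.af * x.Nt = x.Bt ∧ x.af * x.Ns = x.As ∧ 0 < x.Nt ∧ 0 < x.Ns ∧
  x.b = 2 * x.n + 1 ∧ x.n ^ 2 + x.n - 4 = x.P * x.R * x.a ∧ (∀ i, VT.Ok (x.v i) A) ∧
  (x.v1.af = x.af ∧ x.v1.Nt = x.R ∧ x.v1.Ns = x.P) ∧ (x.v2.af = x.a ∧ x.v2.Nt = x.Nt ∧ x.v2.Ns = x.P) ∧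
  (x.v3.af = x.a ∧ x.v3.Nt = x.R ∧ x.v3.Ns = x.Ns) ∧ x.v1.v1 = x ∧ x.v2.v2 = x ∧ x.v3.v3 = x

-- deps: K4
def S_TUP : Prop := Unif fun _ ρ => ∀ τ : G4 × Sd, ρ.IsTu τ →
  VT.Ok (ρ.cy τ) ρ.A ∧ (ρ.cy τ).P * (τ.2.E1 * τ.2.a1 : ℕ) = (ρ.fm τ.1).1 * τ.2.E2 ∧
  (ρ.cy τ).R * (τ.2.E2 * τ.2.a2 * τ.2.q1 : ℕ) = (ρ.fm τ.1).2.2 * τ.2.E1 ∧
  (ρ.cy τ).P * (ρ.cy τ).R * (ρ.cy τ).a = (ρ.fm τ.1).1 * (ρ.fm τ.1).2.2 ∧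
  (τ.2.E2 : ℤ) ∣ (ρ.cy τ).P ∧ (τ.2.E1 : ℤ) ∣ (ρ.cy τ).R ∧ IsCoprime (ρ.cy τ).a (ρ.cy τ).af ∧
  ρ.y ^ (ρ.k3 + 1) ≤ ((τ.2.t : ℝ)) ^ 2 ∧ (τ.2.t : ℝ) ^ 2 * ρ.y ^ (ρ.k3 + 1) ≤ τ.2.a ∧
  (τ.2.a : ℝ) ≤ ρ.y ^ (ρ.k6 + 2 * ρ.K) ∧
  (ρ.cy τ).P ≤ (ρ.cy τ).Ns ∧ ((ρ.cy τ).Ns : ℝ) ≤ 6 * ρ.C1 ^ 2 * (ρ.cy τ).P ∧
  (ρ.cy τ).R ≤ (ρ.cy τ).Nt ∧ True ∧
  ∀ i, 0 < ((ρ.cy τ).v i).b ∧ (((ρ.cy τ).v i).b : ℝ) ≤ 30 * ρ.C1 ^ 2 * ρ.X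

-- deps: MER L1
def S_LAM : Prop := Unif fun C ρ => |∑ p ∈ ρ.Ps, (1 : ℝ) / p - ρ.La| ≤ C ∧
  exp ρ.La ≤ C * log ρ.y ∧ log ρ.y ≤ C * log ρ.w * exp ρ.La ∧
  (∀ p ∈ ρ.Ps, rho ρ.A p = 0 ∨ rho ρ.A p = 2) ∧
  ∑ p ∈ ρ.Ps.filter (fun p => rho ρ.A p = 2), (1 : ℝ) / p = ρ.La / 2 ∧
  ∑ p ∈ ρ.Ps, (1 : ℝ) / p ^ 2 ≤ 1 / ρ.w ∧
  (∀ k : ℤ, k ≠ 0 → ∀ L : ℕ, |(k : ℝ)| ≤ ρ.y ^ L → (ρ.lp k).card ≤ L)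

-- deps: HU LAM
def S_HI : Prop := Unif fun C ρ => ∀ (a t : ℤ) (Θ : ℝ) (δ p0 : ℕ) (B : ℕ → ℤ → Prop), t ≠ 0 →
  |(t : ℝ)| * √(ρ.y ^ ρ.k3) ≤ a → 0 ≤ Θ → Θ ≤ 4 / 3 → Few ρ.Ps B → Squarefree δ →
  δ.primeFactors ⊆ ρ.Ps → p0 = 1 ∨ (p0 ∈ ρ.Ps ∧ δ = 1) →
  ∑ s ∈ (Icc (-a) a).filter fun s => |s * t| ≤ a ∧ Int.gcd t (a - s * t) = 1,
    ρ.hw Θ (a - s * t) * ind ((δ : ℤ) ∣ a - s * t) * ind (p0 = 1 ∨ B p0 s) * Ep ρ.Ps 20 B s ≤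
  C * (a / |(t : ℝ)|) * (2 ^ δ.primeFactors.card / (δ * p0)) *
    Ep ρ.Ps 24 (fun p x => (p : ℤ) ∣ x) t * exp ((Θ / 2 - 1) * ρ.La)

-- deps: HU LAM
def S_HO : Prop := ∀ C0 : ℝ, 1 ≤ C0 → Unif fun C ρ => ∀ (T : ℝ) (δ p0 : ℕ) (t0 : ℤ) (B : ℕ → ℤ → Prop),
  0 < T → ρ.y ^ ρ.k3 ≤ T ^ 2 → Few ρ.Ps B → Squarefree δ → δ.primeFactors ⊆ ρ.Ps → (δ : ℝ) ≤ ρ.y →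
  p0 = 1 ∨ (p0 ∈ ρ.Ps ∧ δ = 1) →
  ∑ t ∈ (Icc (-⌈C0 * T⌉) ⌈C0 * T⌉).filter fun t => t ≡ t0 [ZMOD δ],
    ind (p0 = 1 ∨ B p0 t) * Ep ρ.Ps 50 B t ≤ C * T * (2 ^ δ.primeFactors.card / (δ * p0))

-- deps: HI HO
def S_HS : Prop := ∀ C0 : ℝ, 1 ≤ C0 → Unif fun C ρ => ∀ (a : ℤ) (T Θ : ℝ), ρ.Rng a T → 0 ≤ Θ →
  Θ ≤ 4 / 3 → ∑ v ∈ SR a T C0, ρ.hw Θ (a - v.1 * v.2) / ((a - v.1 * v.2 : ℤ) : ℝ) ≤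
    C * exp ((Θ / 2 - 1) * ρ.La)

-- deps: HI HO LAM
def S_PS : Prop := ∀ C0 : ℝ, 1 ≤ C0 → Unif fun C ρ => ∀ (a k0 α β : ℤ) (T Θ : ℝ)
  (Bs Bt : ℕ → ℤ → Prop), ρ.Rng a T → 0 ≤ Θ → Θ ≤ 4 / 3 → Squarefree k0.natAbs →
  (∀ p : ℕ, p.Prime → (p : ℤ) ∣ k0 → ρ.w < p) → ρ.si k0 ≤ 3 / √ρ.w → IsCoprime α k0 →
  Few ρ.Ps Bs → (∀ p ∈ ρ.Ps, (∀ x y, x ≡ y [ZMOD p] → (Bt p x ↔ Bt p y)) ∧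
    ∑ x ∈ bx p, ind (Bt p x) ≤ 2) →
  ∑ v ∈ SR a T C0, ρ.hw Θ (a - v.1 * v.2) / ((a - v.1 * v.2 : ℤ) : ℝ) *
    (ind ((Int.gcd (Int.gcd k0 (a - v.1 * v.2)) (α * v.2 - β) : ℝ) ≤ ρ.y) *
      ((Int.gcd (Int.gcd k0 (a - v.1 * v.2)) (α * v.2 - β) : ℝ) *
        (Ep ρ.Ps 8 Bs v.1 * Ep ρ.Ps 8 Bt v.2) - 1)) ≤
    C / √ρ.w * exp ((Θ / 2 - 1) * ρ.La)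

-- deps:
def S_CR : Prop := ∀ C0 : ℝ, 1 ≤ C0 → Unif fun _ ρ => ∀ (a a' α β : ℤ) (T T' : ℝ), ρ.Rng a T →
  ρ.Rng a' T' → |(α : ℝ)| ≤ ρ.y ^ (4 * ρ.K') → |(β : ℝ)| ≤ ρ.y ^ (4 * ρ.K') →
  ∑ v ∈ SR a T C0, ∑ v' ∈ SR a' T' C0, ind (α * v'.2 ≠ β * v.2 ∧
      ρ.y < (Int.gcd (Int.gcd (a - v.1 * v.2) (a' - v'.1 * v'.2)) (α * v'.2 - β * v.2) : ℝ)) *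
    (Int.gcd (Int.gcd (a - v.1 * v.2) (a' - v'.1 * v'.2)) (α * v'.2 - β * v.2) : ℝ) /
      (((a - v.1 * v.2 : ℤ) : ℝ) * ((a' - v'.1 * v'.2 : ℤ) : ℝ)) ≤ 1 / √ρ.y

-- deps:
def S_ND : Prop := ∀ C0 : ℝ, 1 ≤ C0 → Unif fun _ ρ => ∀ (r m m' : ℤ) (T T' : ℝ), ρ.Rng (r * m) T →
  ρ.Rng (r * m') T' → 0 < m → 0 < m' → (m : ℝ) ≤ ρ.y ^ (2 * ρ.K) → (m' : ℝ) ≤ ρ.y ^ (2 * ρ.K) →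
  ∑ v ∈ SR (r * m) T C0, ∑ v' ∈ SR (r * m') T' C0, ind (v.2 = v'.2 ∧ ¬(m = m' ∧ v.1 = v'.1) ∧
      IsCoprime (r * m) (r * m - v.1 * v.2) ∧ IsCoprime (r * m') (r * m' - v'.1 * v'.2)) *
    (Int.gcd (r * m - v.1 * v.2) (r * m' - v'.1 * v'.2) : ℝ) /
      (((r * m - v.1 * v.2 : ℤ) : ℝ) * ((r * m' - v'.1 * v'.2 : ℤ) : ℝ)) ≤ 1 / √ρ.y

end Pool.Agent.P.MP_6f5b02_nt.Hy
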