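import Pool.Agent.P.MP_8be758_nt.Par.Basic

/-! The real quadratic order `Z[ω]`, `ω ^ 2 = ω + 4`, as a lattice, with a fundamental cone for the
units of norm one. The argument `A` is a dummy that keeps the shape of the definite case. -/

namespace Pool.Agent.P.MP_6f5b02_nt.Hy

open Finset
open Pool.Agent.P.MP_8be758_nt.Par (cj det)

/-- the number of roots of `n ^ 2 + n - 4` modulo `q` -/
def rho (_ q : ℕ) : ℕ := ((range q).filter fun n : ℕ => (q : ℤ) ∣ (n : ℤ) ^ 2 + n - 4).card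

/-- the fundamental cone -/
def Cn (v : ℤ × ℤ) : Prop := 0 ≤ v.2 ∧ 25 * v.2 < 16 * v.1

instance : DecidablePred Cn := fun _ => inferInstanceAs (Decidable (_ ∧ _))

namespace Par

/-- The norm form. -/
def nq (_ : ℕ) (z : ℤ × ℤ) : ℤ := z.1 ^ 2 + z.1 * z.2 - 4 * z.2 ^ 2

/-- The multiplication of `Z[ω]`. -/
def mul (_ : ℕ) (z w : ℤ × ℤ) : ℤ × ℤ :=
  (z.1 * w.1 + 4 * z.2 * w.2, z.1 * w.2 + z.2 * w.1 + z.2 * w.2)

/-- The generator of the totally positive units. -/
def eu : ℤ × ℤ := (25, 16)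

open Classical in
/-- A unit of norm one that moves `v` into the cone. -/
noncomputable def un (A : ℕ) (v : ℤ × ℤ) : ℤ × ℤ :=
  if h : ∃ η, nq A η = 1 ∧ Cn (mul A η v) then h.choose else (1, 0)

/-- The associate in the cone. -/
noncomputable def red (A : ℕ) (v : ℤ × ℤ) : ℤ × ℤ := mul A (un A v) v

variable {A : ℕ} {z w v η : ℤ × ℤ}

theorem nq_mul (z w : ℤ × ℤ) : nq A (mul A z w) = nq A z * nq A w := by
  simp only [nq, mul]
  ring

theorem nq_cj (z : ℤ × ℤ) : nq A (cj z) = nq A z := by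
  simp only [nq, cj]
  ring

theorem nq_neg (z : ℤ × ℤ) : nq A (-z) = nq A z := by
  simp only [nq, Prod.fst_neg, Prod.snd_neg]
  ring

theorem nq_smul (m : ℤ) (z : ℤ × ℤ) : nq A (m • z) = m ^ 2 * nq A z := by
  simp only [nq, Prod.smul_fst, Prod.smul_snd, smul_eq_mul]
  ring

theorem nq_eu : nq A eu = 1 := by simp [nq, eu]

theorem nq_ne (hz : z ≠ 0) : nq A z ≠ 0 := fun h => by
  have e : (2 * z.1 + z.2) ^ 2 = 17 * z.2 ^ 2 := by
    unfold nq at h
    linear_combination 4 * h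
  by_cases h2 : z.2 = 0
  · rw [h2] at e
    exact hz (Prod.ext (by simpa using e) h2)
  · have h3 : (z.2 : ℚ) ≠ 0 := by exact_mod_cast h2
    have : IsSquare ((17 : ℕ) : ℚ) := ⟨(2 * z.1 + z.2) / z.2, by
      field_simp
      exact_mod_cast e.symm⟩
    exact (by norm_num : Nat.Prime 17).not_isSquare (Rat.isSquare_natCast_iff.1 this)

theorem ne_zero_of_nq (h : nq A z ≠ 0) : z ≠ 0 := by
  rintro rfl
  exact h (by simp [nq])

theorem mul_ne (_ : 5 ≤ A) (hz : z ≠ 0) (hw : w ≠ 0) : mul A z w ≠ 0 :=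
  ne_zero_of_nq (A := A) (by rw [nq_mul]; exact mul_ne_zero (nq_ne hz) (nq_ne hw))

theorem cj_ne (_ : 5 ≤ A) (hz : z ≠ 0) : cj z ≠ 0 :=
  ne_zero_of_nq (A := A) (by rw [nq_cj]; exact nq_ne hz)

theorem mul_cj_snd (z w : ℤ × ℤ) : (mul A z (cj w)).2 = -det z w := by
  simp only [mul, cj, det]
  ring

theorem det_mul' (g v w : ℤ × ℤ) : det (mul A g v) (mul A g w) = nq A g * det v w := by
  simp only [det, mul, nq]; ring

theorem mul_as' (u v w : ℤ × ℤ) : mul A (mul A u v) w = mul A u (mul A v w) := by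
  simp only [mul, Prod.mk.injEq]; constructor <;> ring

theorem cj_unit (h : nq A η = 1) (v : ℤ × ℤ) : mul A (cj η) (mul A η v) = v := by
  unfold nq at h
  refine Prod.ext ?_ ?_ <;> simp only [mul, cj]
  · linear_combination v.1 * h
  · linear_combination v.2 * h

end Par

open Par

variable {A : ℕ} {z w v η : ℤ × ℤ}

theorem Cn.pos (h : Cn v) : 0 < v.1 := by
  obtain ⟨a, b⟩ := h
  omega

theorem Cn.le (h : Cn v) : v.2 ≤ v.1 := by
  obtain ⟨a, b⟩ := h
  omega

theorem Cn.ne (h : Cn v) : v ≠ 0 := fun e => by simpa [e] using h.pos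

theorem Cn.sq_le (h : Cn v) : v.1 ^ 2 ≤ 625 * nq A v := by
  have := mul_nonneg (sub_pos.2 h.2).le (show 0 ≤ 39 * v.1 + 100 * v.2 by linarith [h.pos, h.1])
  unfold nq
  linarith

theorem Cn.sq_le' (h : Cn v) : v.2 ^ 2 ≤ 625 * nq A v :=
  (pow_le_pow_left₀ h.1 h.le 2).trans h.sq_le

theorem nq_le_sq (v : ℤ × ℤ) : nq A v ≤ 2 * v.1 ^ 2 := by
  unfold nq
  nlinarith [sq_nonneg (v.1 - 2 * v.2), sq_nonneg v.1, sq_nonneg v.2]

theorem Cn.nq_pos (h : Cn v) : 0 < nq A v := by nlinarith [h.sq_le (A := A), h.pos]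

theorem Cn.add (h : Cn v) (h' : Cn w) : Cn (v + w) :=
  ⟨add_nonneg h.1 h'.1, by simp only [Prod.fst_add, Prod.snd_add]; linarith [h.2, h'.2]⟩

theorem cn_smul {c : ℤ} (hc : 0 < c) : Cn (c • v) ↔ Cn v := by
  simp only [Cn, Prod.smul_fst, Prod.smul_snd, smul_eq_mul]
  rw [mul_nonneg_iff_of_pos_left hc, mul_left_comm, mul_left_comm 16, mul_lt_mul_iff_right₀ hc]

theorem cn_e : Cn (1, 0) := by decide

theorem Cn.not_neg (h : Cn v) : ¬Cn (-v) := fun h' => by
  have := h'.pos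
  rw [Prod.fst_neg] at this
  linarith [h.pos]

theorem det_e_pos (hv : Cn v) (hw : Cn w) : v.1 ≤ det w (mul A eu v) := by
  have h1 : 1 ≤ 16 * w.1 - 25 * w.2 := by have := hw.2; omega
  have h2 : 0 ≤ 41 * w.1 - 64 * w.2 := by have := hw.1; omega
  have h3 := mul_nonneg hv.1 h2
  have h4 := mul_le_mul_of_nonneg_left h1 hv.pos.le
  simp only [det, mul, eu]
  linarith

theorem unit_cn0 (h : nq A η = 1) (hη : Cn η) : η = (1, 0) := by
  obtain ⟨x, y⟩ := η
  have h1 := hη.sq_le (A := A)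
  have h2 := hη.pos
  obtain ⟨h3, h4⟩ := hη
  rw [h] at h1
  simp only [nq] at *
  have h5 : x ≤ 25 := by nlinarith
  have h6 : y ≤ 15 := by omega
  interval_cases x <;> interval_cases y <;> simp_all

theorem unit_cn1 (h : nq A η = 1) (hv : Cn v) (hw : Cn (mul A η v)) (hd : 0 ≤ det v (mul A η v)) :
    η = (1, 0) := by
  have h0 := hv.nq_pos (A := A)
  have h1 := hv.pos.trans_le (det_e_pos (A := A) hv hw)
  have e1 : det v (mul A η v) = nq A v * η.2 := by simp only [det, mul, nq]; ring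
  have e2 : det (mul A η v) (mul A eu v) = nq A v * (16 * η.1 - 25 * η.2) := by
    simp only [det, mul, nq, eu]; ring
  rw [e1, mul_nonneg_iff_of_pos_left h0] at hd
  rw [e2, mul_pos_iff_of_pos_left h0] at h1
  exact unit_cn0 h ⟨hd, by linarith⟩

/-- uniqueness of the associate in the cone -/
theorem unit_cn (h : nq A η = 1) (hv : Cn v) (hw : Cn (mul A η v)) : η = (1, 0) := by
  rcases le_total 0 (det v (mul A η v)) with hd | hd
  · exact unit_cn1 h hv hw hd
  · have := unit_cn1 (A := A) (η := cj η) (by rwa [nq_cj]) hw (by rwa [cj_unit h]) (by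
      rw [cj_unit h]
      simp only [det] at hd ⊢
      linarith)
    simp only [cj, Prod.mk.injEq] at this
    exact Prod.ext (by simp only; omega) (by simp only; omega)

theorem ex_unit' (P : ℤ × ℤ → Prop) (p1 : P (1, 0)) (p2 : P eu) (p3 : P (cj eu))
    (pm : ∀ a b, P a → P b → P (mul A a b)) (pn : ∀ a, P a → P (-a)) (n : ℕ) :
    ∀ v : ℤ × ℤ, v.2.natAbs = n → 0 < nq A v → ∃ η, nq A η = 1 ∧ P η ∧ Cn (mul A η v) := by
  induction n using Nat.strong_induction_on with
  | _ n ih =>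
    have key : ∀ x y : ℤ, y.natAbs = n → 0 < nq A (x, y) → 0 < 2 * x + y →
        ∃ η, nq A η = 1 ∧ P η ∧ Cn (mul A η (x, y)) := fun x y hn hq ht => by
      have step : ∀ u, nq A u = 1 → P u → (mul A u (x, y)).2.natAbs < n →
          ∃ η, nq A η = 1 ∧ P η ∧ Cn (mul A η (x, y)) := fun u hu pu hl => by
        obtain ⟨η, a, c, b⟩ := ih _ hl _ rfl (by rwa [nq_mul, hu, one_mul])
        exact ⟨mul A η u, by rw [nq_mul, a, hu, one_mul], pm _ _ c pu, by rwa [mul_as']⟩
      simp only [nq] at hq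
      by_cases h1 : y < 0
      · have : 0 < 2 * x + 5 * y := by nlinarith
        by_cases h2 : 0 ≤ 16 * x + 41 * y
        · exact ⟨eu, nq_eu, p2, by simp only [Cn, mul, eu]; omega⟩
        · exact step eu nq_eu p2 (by simp only [mul, eu]; omega)
      · by_cases h2 : 25 * y < 16 * x
        · exact ⟨(1, 0), by simp [nq], p1, by simp only [Cn, mul]; omega⟩
        · have : 3 * y < 2 * x := by nlinarith
          exact step (cj eu) (by rw [nq_cj, nq_eu]) p3 (by simp only [mul, eu, cj]; omega)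
    rintro ⟨x, y⟩ hn hq
    rcases lt_trichotomy 0 (2 * x + y) with h | h | h
    · exact key x y hn hq h
    · simp only [nq] at hq
      nlinarith
    · obtain ⟨η, a, c, b⟩ :=
        key (-x) (-y) (by simpa using hn) (by rwa [← nq_neg] at hq) (by linarith)
      refine ⟨-η, by rwa [nq_neg], pn _ c, ?_⟩
      simpa [mul] using b

theorem ex_unit (n : ℕ) (v : ℤ × ℤ) (h : v.2.natAbs = n) (h0 : 0 < nq A v) :
    ∃ η, nq A η = 1 ∧ Cn (mul A η v) :=
  let ⟨η, a, _, b⟩ := ex_unit' (A := A) (fun _ => True) trivial trivial trivial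
    (fun _ _ _ _ => trivial) (fun _ _ => trivial) n v h h0
  ⟨η, a, b⟩

theorem nq_un (v : ℤ × ℤ) : nq A (un A v) = 1 := by
  unfold un
  split_ifs with h
  · exact h.choose_spec.1
  · simp [nq]

theorem red_cn (h : 0 < nq A v) : Cn (red A v) := by
  have h' := ex_unit _ v rfl h
  rw [red, un, dif_pos h']
  exact h'.choose_spec.2

theorem nq_red (v : ℤ × ℤ) : nq A (red A v) = nq A v := by rw [red, nq_mul, nq_un, one_mul]

theorem red_eq (h : nq A η = 1) (hc : Cn (mul A η v)) : red A v = mul A η v := by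
  have h0 : 0 < nq A v := by simpa [nq_mul, h] using hc.nq_pos (A := A)
  have e : mul A (mul A (un A v) (cj η)) (mul A η v) = red A v := by rw [mul_as', cj_unit h, red]
  have := unit_cn (A := A) (η := mul A (un A v) (cj η)) (by rw [nq_mul, nq_un, nq_cj, h, one_mul]) hc
    (e ▸ red_cn h0)
  rw [← e, this]
  simp [mul]

theorem red_of_cn (h : Cn v) : red A v = v := by
  have e : mul A (1, 0) v = v := by simp [mul]
  rw [red_eq (η := (1, 0)) (by simp [nq]) (by rwa [e]), e]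

theorem red_unit (h : nq A η = 1) (h0 : 0 < nq A v) : red A (mul A η v) = red A v := by
  have e : mul A (mul A (un A v) (cj η)) (mul A η v) = red A v := by rw [mul_as', cj_unit h, red]
  rw [red_eq (η := mul A (un A v) (cj η)) (by rw [nq_mul, nq_un, nq_cj, h, one_mul])
    (e ▸ red_cn h0), e]

theorem red_smul {c : ℤ} (hc : 0 < c) (h0 : 0 < nq A v) : red A (c • v) = c • red A v := by
  have e : mul A (un A v) (c • v) = c • red A v := by
    ext <;> simp [mul, red] <;> ring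
  rw [red_eq (nq_un v) (e ▸ (cn_smul hc).2 (red_cn h0)), e]

theorem red_mul_red (g : ℤ × ℤ) (h0 : 0 < nq A (mul A g v)) :
    red A (mul A g (red A v)) = red A (mul A g v) := by
  rw [← red_unit (nq_un v) h0]
  congr 1
  ext <;> simp only [mul, red] <;> ring

theorem red_inj {g : ℤ × ℤ} (hg : g ≠ 0) (hv : Cn v) (hw : Cn w)
    (h : red A (mul A g v) = red A (mul A g w)) : v = w := by
  have ha := nq_un (A := A) (mul A g v)
  have hb := nq_un (A := A) (mul A g w)
  unfold red at h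
  generalize un A (mul A g v) = a at h ha
  generalize un A (mul A g w) = b at h hb
  have e : w = mul A (mul A (cj b) a) v := by
    have h1 := congrArg (fun x => mul A (cj g) (mul A (cj b) x)) h
    simp only [cj_unit hb] at h1
    refine smul_right_injective _ (nq_ne (A := A) hg) (show nq A g • _ = nq A g • _ from ?_)
    have e1 : ∀ x, nq A g • x = mul A (cj g) (mul A g x) := fun x => by
      ext <;> simp [mul, cj, nq] <;> ring
    rw [e1, e1, ← h1]
    ext <;> simp only [mul] <;> ring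
  have := unit_cn (A := A) (by rw [nq_mul, nq_cj, ha, hb, one_mul]) hv (e ▸ hw)
  rw [e, this]
  simp [mul]

theorem dvd_unit (h : nq A η = 1) {d : ℤ} :
    d ∣ (mul A η v).1 ∧ d ∣ (mul A η v).2 ↔ d ∣ v.1 ∧ d ∣ v.2 := by
  have k : ∀ u v : ℤ × ℤ, d ∣ v.1 ∧ d ∣ v.2 → d ∣ (mul A u v).1 ∧ d ∣ (mul A u v).2 :=
    fun u v h => ⟨(h.1.mul_left _).add (h.2.mul_left _),
      ((h.2.mul_left _).add (h.1.mul_left _)).add (h.2.mul_left _)⟩
  exact ⟨fun h' => cj_unit h v ▸ k (cj η) _ h', k η v⟩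

theorem gcd_unit (h : nq A η = 1) (v : ℤ × ℤ) :
    Int.gcd (mul A η v).1 (mul A η v).2 = Int.gcd v.1 v.2 :=
  Nat.dvd_antisymm
    (let k := (dvd_unit h).1 ⟨Int.gcd_dvd_left .., Int.gcd_dvd_right ..⟩; Int.dvd_gcd k.1 k.2)
    (let k := (dvd_unit h).2 ⟨Int.gcd_dvd_left .., Int.gcd_dvd_right ..⟩; Int.dvd_gcd k.1 k.2)

theorem pr_unit (h : nq A η = 1) : IsCoprime (mul A η v).1 (mul A η v).2 ↔ IsCoprime v.1 v.2 := by
  rw [Int.isCoprime_iff_gcd_eq_one, Int.isCoprime_iff_gcd_eq_one, gcd_unit h]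

theorem pr_red : IsCoprime (red A v).1 (red A v).2 ↔ IsCoprime v.1 v.2 := pr_unit (nq_un v)

theorem gcd_red (v : ℤ × ℤ) : Int.gcd (red A v).1 (red A v).2 = Int.gcd v.1 v.2 :=
  gcd_unit (nq_un v) v

theorem rho_zmod (A q : ℕ) [NeZero q] :
    rho A q = (univ.filter fun x : ZMod q => x ^ 2 + x - 4 = 0).card := by
  unfold rho
  refine card_bij (fun n _ => (n : ZMod q)) (fun n hn => ?_) (fun a ha b hb hab => ?_)
    fun x hx => ⟨x.val, ?_, ZMod.natCast_zmod_val x⟩
  · have := (ZMod.intCast_zmod_eq_zero_iff_dvd _ _).2 (mem_filter.1 hn).2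
    push_cast at this
    exact mem_filter.2 ⟨mem_univ _, this⟩
  · have h := (ZMod.natCast_eq_natCast_iff' a b q).1 hab
    rwa [Nat.mod_eq_of_lt (mem_range.1 (mem_filter.1 ha).1),
      Nat.mod_eq_of_lt (mem_range.1 (mem_filter.1 hb).1)] at h
  · refine mem_filter.2 ⟨mem_range.2 (ZMod.val_lt x), (ZMod.intCast_zmod_eq_zero_iff_dvd _ _).1 ?_⟩
    push_cast
    rw [ZMod.natCast_zmod_val]
    exact (mem_filter.1 hx).2

theorem rho_one (A : ℕ) : rho A 1 = 1 := by simp [rho]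

theorem rho_mul (A q1 q2 : ℕ) (h : q1.Coprime q2) : rho A (q1 * q2) = rho A q1 * rho A q2 := by
  rcases Nat.eq_zero_or_pos q1 with rfl | h1
  · simp [rho]
  rcases Nat.eq_zero_or_pos q2 with rfl | h2
  · simp [rho]
  have : NeZero q1 := ⟨h1.ne'⟩
  have : NeZero q2 := ⟨h2.ne'⟩
  have : NeZero (q1 * q2) := ⟨(Nat.mul_pos h1 h2).ne'⟩
  rw [rho_zmod, rho_zmod, rho_zmod, ← card_product]
  refine card_equiv (ZMod.chineseRemainder h).toEquiv fun x => ?_
  simp only [mem_filter, mem_univ, true_and, mem_product]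
  rw [← (ZMod.chineseRemainder h).map_eq_zero_iff, Prod.ext_iff]
  simp only [map_add, map_sub, map_pow, map_ofNat]
  rfl

theorem rho_prime (A p : ℕ) (hp : p.Prime) (h2 : p ≠ 2) : (rho A p : ℤ) = 1 + jacobiSym p 17 := by
  have : Fact p.Prime := ⟨hp⟩
  have h0 : (2 : ZMod p) ≠ 0 := fun h =>
    h2 ((Nat.prime_dvd_prime_iff_eq hp Nat.prime_two).1
      ((ZMod.natCast_eq_zero_iff _ _).1 (by exact_mod_cast h)))
  have h1 := legendreSym.card_sqrts p h2 17
  have h4 := jacobiSym.quadratic_reciprocity_one_mod_four (a := 17) (b := p) (by norm_num)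
    (hp.odd_of_ne_two h2)
  rw [← h4, Nat.cast_ofNat, ← jacobiSym.legendreSym.to_jacobiSym, add_comm, rho_zmod, ← h1]
  congr 1
  refine card_equiv ((Equiv.mulLeft₀ 2 h0).trans (Equiv.addRight 1)) fun x => ?_
  simp only [mem_filter, mem_univ, true_and, Set.mem_toFinset, Set.mem_ofPred_eq,
    Equiv.trans_apply, Equiv.mulLeft₀_apply, Equiv.coe_addRight]
  push_cast
  constructor
  · intro h
    linear_combination 4 * h
  · intro h
    have h4 : (2 * 2 : ZMod p) * (x ^ 2 + x - 4) = 0 := by linear_combination h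
    exact (mul_eq_zero.1 h4).resolve_left (mul_ne_zero h0 h0)

end Pool.Agent.P.MP_6f5b02_nt.Hy
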