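import Pool.Agent.P.MP_6f5b02_nt.Hy.If0

/-! Step AREA. -/

namespace Pool.Agent.P.MP_6f5b02_nt.Hy

open Pool.Agent.P.MP_8be758_nt Pool.Agent.P.MP_8be758_nt.Pd
open Finset Real Filter

theorem AREA_root {s y : ℝ} (hs : 0 < s) (hy : 0 ≤ y) :
    ∃ x : ℝ, 0 < x ∧ x ^ 2 + x * y - 4 * y ^ 2 = s ^ 2 := by
  have h := sq_sqrt (show 0 ≤ 17 * y ^ 2 + 4 * s ^ 2 by positivity)
  have h1 : y < √(17 * y ^ 2 + 4 * s ^ 2) := lt_sqrt_of_sq_lt (by nlinarith)
  exact ⟨(√(17 * y ^ 2 + 4 * s ^ 2) - y) / 2, by linarith, by linear_combination h / 4⟩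

theorem AREA_ioc (x l : ℝ) (hl : 0 ≤ l) :
    l - 1 ≤ (Ioc ⌊x - l⌋ ⌊x⌋).card ∧ ((Ioc ⌊x - l⌋ ⌊x⌋).card : ℝ) ≤ l + 1 := by
  rw [← Int.cast_natCast, Int.card_Ioc, Int.toNat_of_nonneg
    (sub_nonneg.2 (Int.floor_mono (by linarith)))]
  push_cast
  constructor <;> linarith [Int.floor_le x, Int.floor_le (x - l), Int.lt_floor_add_one x,
    Int.lt_floor_add_one (x - l)]

theorem p_AREA :
    S_AREA := by
  intro A hA
  refine ⟨1 / 12, 26, by norm_num, by norm_num, fun ψ hψ N1 N2 h0 h1 => ?_⟩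
  obtain rfl := eq_Q0 hψ
  have mem : ∀ x y : ℤ, (x, y) ∈ An (Q0 A) N1 N2 ↔ (0 ≤ y ∧ 25 * y < 16 * x) ∧
      N1 < (x : ℝ) ^ 2 + x * y - 4 * y ^ 2 ∧ (x : ℝ) ^ 2 + x * y - 4 * y ^ 2 ≤ N2 := fun x y => by
    rw [mem_An hA hψ, ev_Q0, Par.nq]
    push_cast
    rfl
  obtain ⟨s, s0, rfl⟩ : ∃ s : ℝ, 0 ≤ s ∧ N2 = s ^ 2 :=
    ⟨√N2, sqrt_nonneg _, (sq_sqrt (by linarith)).symm⟩
  rw [sqrt_sq s0]
  rcases lt_or_ge s 1 with s1 | s1
  · rw [eq_empty_of_forall_notMem (s := An (Q0 A) N1 (s ^ 2)) fun v hv => ?_, card_empty,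
      Nat.cast_zero]
    · constructor <;> nlinarith
    · obtain ⟨a, -, b⟩ := (mem_An hA hψ).1 hv
      have : (1 : ℝ) ≤ ev (Q0 A) v := by exact_mod_cast a.ev_pos
      nlinarith
  have s2 : 0 < s := by linarith
  obtain ⟨l, l0, hl⟩ : ∃ l, 0 ≤ l ∧ l * s = s ^ 2 - N1 :=
    ⟨(s ^ 2 - N1) / s, div_nonneg (by linarith) s0, by field_simp⟩
  have l1 : l ≤ s := by nlinarith
  choose! r r0 hr using fun (y : ℤ) (hy : (0 : ℝ) ≤ y) => AREA_root s2 hy
  have cd : ∀ (t : ℝ) (F : ℤ → Finset ℤ), ((Icc 0 ⌊t⌋).biUnion fun y => F y ×ˢ {y}).card =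
      ∑ y ∈ Icc 0 ⌊t⌋, (F y).card := fun t F => by
    rw [card_biUnion fun y _ z _ e => disjoint_left.2 fun v a b =>
      e ((mem_singleton.1 (mem_product.1 a).2).symm.trans (mem_singleton.1 (mem_product.1 b).2))]
    simp
  have ci : ∀ t : ℝ, 0 ≤ t → t ≤ (Icc 0 ⌊t⌋).card ∧ ((Icc 0 ⌊t⌋).card : ℝ) ≤ t + 1 := fun t ht => by
    have := Int.floor_nonneg.2 ht
    rw [← Int.cast_natCast, Int.card_Icc, Int.toNat_of_nonneg (by omega)]
    push_cast
    constructor <;> linarith [Int.floor_le t, Int.lt_floor_add_one t]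
  constructor
  · have c : ((Icc 0 ⌊s / 4⌋).biUnion fun y => Ioc ⌊r y - l / 3⌋ ⌊r y⌋ ×ˢ {y}) ⊆
        An (Q0 A) N1 (s ^ 2) := fun ⟨x, y⟩ hv => by
      simp only [mem_biUnion, mem_product, mem_singleton, mem_Icc, mem_Ioc, Int.le_floor,
        Int.floor_lt] at hv
      obtain ⟨_, ⟨a1, a2⟩, ⟨a3, a4⟩, rfl⟩ := hv
      have y0 : (0 : ℝ) ≤ y := by exact_mod_cast a1
      have b0 := r0 y y0
      have b1 := hr y y0
      have b2 : 3 / 4 * s ≤ r y := by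
        by_contra c
        nlinarith
      have b3 : r y ≤ 5 / 4 * s := by
        by_contra c
        nlinarith
      have b4 : 25 * (y : ℝ) < 16 * x := by linarith
      refine (mem x y).2 ⟨⟨a1, by exact_mod_cast b4⟩, ?_, by nlinarith⟩
      have := mul_le_mul (show r y - x ≤ l / 3 by linarith) (show r y + x + y ≤ 11 / 4 * s by linarith)
        (by linarith) (by linarith)
      have := mul_pos (show 0 < l by linarith) s2
      nlinarith
    have c1 := Nat.cast_le (α := ℝ).2 (card_le_card c)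
    rw [cd, Nat.cast_sum] at c1
    have c2 := card_nsmul_le_sum (Icc 0 ⌊s / 4⌋) _ _ fun y _ =>
      (AREA_ioc (r y) (l / 3) (by linarith)).1
    obtain ⟨c3, c4⟩ := ci (s / 4) (by linarith)
    rw [nsmul_eq_mul] at c2
    nlinarith [mul_le_mul_of_nonneg_right c3 l0]
  · have c : An (Q0 A) N1 (s ^ 2) ⊆
        (Icc 0 ⌊25 * s⌋).biUnion fun y => Ioc ⌊r y - l⌋ ⌊r y⌋ ×ˢ {y} := fun ⟨x, y⟩ hv => by
      obtain ⟨a, a3, a4⟩ := (mem x y).1 hv
      have y0 : (0 : ℝ) ≤ y := by exact_mod_cast a.1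
      have x0 : (0 : ℝ) < x := by exact_mod_cast Cn.pos (v := (x, y)) a
      have a5 : (y : ℝ) ^ 2 ≤ 625 * (x ^ 2 + x * y - 4 * y ^ 2) := by
        exact_mod_cast Cn.sq_le' (A := A) (v := (x, y)) a
      have b0 := r0 y y0
      have b1 := hr y y0
      have b2 : s ≤ r y + y := by
        by_contra c
        nlinarith
      have b3 : x ≤ r y := by
        by_contra c
        nlinarith
      simp only [mem_biUnion, mem_product, mem_singleton, mem_Icc, mem_Ioc, Int.le_floor,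
        Int.floor_lt]
      refine ⟨y, ⟨a.1, abs_le_of_sq_le_sq' (by nlinarith) (by positivity) |>.2⟩, ⟨?_, b3⟩, rfl⟩
      by_contra c
      have := mul_le_mul (show l ≤ r y - x by linarith) (show s ≤ r y + x + y by linarith) s0
        (by linarith)
      nlinarith
    have c1 := Nat.cast_le (α := ℝ).2 (card_le_card c)
    rw [cd, Nat.cast_sum] at c1
    have c2 := sum_le_card_nsmul (Icc 0 ⌊25 * s⌋) _ _ fun y _ => (AREA_ioc (r y) l l0).2
    rw [nsmul_eq_mul] at c2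
    have c3 := mul_le_mul_of_nonneg_right (ci (25 * s) (by linarith)).2 (show 0 ≤ l + 1 by linarith)
    nlinarith

end Pool.Agent.P.MP_6f5b02_nt.Hy
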