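import Pool.Agent.P.MP_6f5b02_nt.Hy.IfG2
import Pool.Agent.P.MP_8be758_nt.Pd.TGLOW

/-! Step GLOW. -/

namespace Pool.Agent.P.MP_6f5b02_nt.Hy

open Pool.Agent.P.MP_8be758_nt Pool.Agent.P.MP_8be758_nt.Pd
open Finset Real Filter
open Pool.Agent.P.MP_8be758_nt.Par (det)

theorem p_GLOW (hVAR : S_VAR) (hMB : S_MB) (hATS : S_ATS) (hQCNT : S_QCNT) (hLAM : S_LAM) :
    S_GLOW := by
  obtain ⟨c1, h1⟩ := hVAR
  obtain ⟨c2, h2⟩ := hMB
  obtain ⟨c3, h3⟩ := hATS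
  obtain ⟨c4, h4⟩ := hQCNT
  obtain ⟨c5, h5⟩ := hLAM
  refine ⟨c1 + c2 + c3 + c4 + c5 + 1, fun A C1 => ?_⟩
  obtain ⟨B1, a1, h1⟩ := h1 A C1
  obtain ⟨B2, a2, h2⟩ := h2 A C1
  obtain ⟨B3, -, h3⟩ := h3 A C1
  obtain ⟨B4, a4, h4⟩ := h4 A C1
  obtain ⟨B5, a5, h5⟩ := h5 A C1
  refine ⟨B1 * B4 ^ 2 + 1 + B2, le_add_of_nonneg_of_le (by positivity) a2, fun z zA zC big => ?_⟩
  have w12 : 12 ≤ z.w := by have := big.2.1; have := big.2.2.2.1; omega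
  have K1 : 1 ≤ z.k4 ∧ 1 ≤ z.k6 ∧ 1 ≤ z.K' := by
    obtain ⟨-, -, -, -, -, -, b7, b8, b9, b10, b11, b12, -⟩ := big
    have := (Nat.le_mul_of_pos_left _ (by omega)).trans b8
    have := (Nat.le_mul_of_pos_left _ (by omega)).trans b10
    omega
  filter_upwards [h1 z zA zC (big.mono (by omega)), h2 z zA zC (big.mono (by omega)),
    h3 z zA zC (big.mono (by omega)), h4 z zA zC (big.mono (by omega)),
    h5 z zA zC (big.mono (by omega)), eventually_ge_atTop B5, eventually_ge_atTop √z.w]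
    with y h1 h2 h3 h4 h5 y1 y2
  intro S hE hS
  set ρ : Pr := ⟨z, y⟩
  choose! Q hQ using fun g hg => (hS g hg).2
  obtain ⟨t1, t2, -, t4⟩ := h3
  obtain ⟨-, q2, q3⟩ := h4
  have y0 : 0 < ρ.y := by show 0 < y; linarith
  have X0 : 0 ≤ ρ.X := pow_nonneg y0.le _
  have sw : (1 : ℝ) ≤ √ρ.w := one_le_sqrt.2 (by exact_mod_cast (by omega : 1 ≤ z.w))
  have ep1 : 1 / √ρ.w ≤ ρ.ep := le_add_of_nonneg_left (by positivity)
  have ep0 : 0 ≤ ρ.ep := le_trans (by positivity) ep1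
  have ls0 : 0 < ρ.ls := mul_pos (pow_pos (by exact_mod_cast K1.1) _)
    (pow_pos (log_pos (by exact_mod_cast (by omega : 1 < z.w))) _)
  have QI : ∀ q, q ∈ ρ.I1 ×ˢ ρ.I3 ×ˢ ρ.I4 ↔ ρ.QR q := fun q => by
    simp only [mem_product, Pr.QR]
  have AD : ∀ q ∈ ρ.I1 ×ˢ ρ.I3 ×ˢ ρ.I4, ∀ D ∈ ρ.DS, ∀ c ∈ S4.U (ρ.W ^ 2), ρ.AD q D.1 D.2 c :=
    fun q hq D hD c hc => by
      classical
      exact ⟨(QI q).1 hq, (mem_filter.1 hD).2, hc⟩
  set μ := exp (-5 * ρ.La) with hμ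
  have μ0 : 0 ≤ μ := (exp_pos _).le
  have cnt : ∑ q ∈ ρ.I1 ×ˢ ρ.I3 ×ˢ ρ.I4, ∑ D ∈ ρ.DS, ∑ c ∈ S4.U (ρ.W ^ 2),
      ((ρ.AT q D.1 D.2 c).card : ℝ) ≤ B4 * ρ.X * (B4 * (ρ.k6 : ℝ) ^ 3) := by
    refine le_trans (sum_le_sum fun q hq => ?_)
      ((mul_sum _ _ _).symm.trans_le (mul_le_mul_of_nonneg_left q2 (by positivity)))
    have := t2 q fun _ => 1
    simp only [sum_const, nsmul_eq_mul, mul_one] at this
    rw [this, mul_one_div]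
    exact (sum_le_sum fun g _ => ind_mono And.right).trans (q3 q ((QI q).1 hq))
  have key := GLOW_core (ρ.I1 ×ˢ ρ.I3 ×ˢ ρ.I4) ρ.DS (S4.U (ρ.W ^ 2)) (fun q D c => ρ.AT q D.1 D.2 c)
    (fun q g => g ∈ S ∧ Q g = q) (fun q D g => ρ.Wq q D.1 D.2 g) (fun q D c => ρ.MM q D.1 D.2 c)
    (exp (-(5 / 2) * ρ.La) / ((B1 * B4 ^ 2 + 1 + B2) * ρ.ls)) S.card
    ((B1 * B4 ^ 2 + 1 + B2) * 4 ^ ρ.U * (ρ.k6 : ℝ) ^ 3 * ρ.ep * ρ.X * μ)
    (fun q hq D hD c hc hne => le_trans (by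
      gcongr
      exact le_add_of_nonneg_left (by positivity)) (h2 q D.1 D.2 c (AD q hq D hD c hc) hne).1)
    (by
      rw [sum_congr rfl fun q _ => t2 q _, sum_comm, ← sum_subset hE fun g _ hg =>
        sum_eq_zero fun q _ => by rw [ind_neg (P := g ∈ S ∧ _) fun e => hg e.1, mul_zero],
        card_eq_sum_ones,
        Nat.cast_sum]
      refine sum_congr rfl fun g hg => ?_
      rw [sum_eq_single_of_mem (Q g) ((QI _).2 (hQ g hg).1) fun q _ hq => by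
        rw [ind_neg (P := g ∈ S ∧ _) fun e => hq e.2.symm, mul_zero],
        ind_pos ⟨(hS g hg).1, (hQ g hg).2⟩,
        ind_pos ⟨hg, rfl⟩]
      norm_num)
    (by
      refine (sum_le_sum fun q hq => sum_le_sum fun D hD => sum_le_sum fun c hc =>
        h1 q D.1 D.2 c (AD q hq D hD c hc)).trans ?_
      simp only [sum_add_distrib, ← mul_sum, sum_const, nsmul_eq_mul]
      have e1 := GLOW_err K1.2.2 a5 sw y1 y2 h5.2.1
      have e2 : ρ.y ^ (6 * ρ.K') * ρ.Er 19 ≤ ρ.ep * μ * ρ.X :=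
        calc _ = ρ.y ^ (6 * ρ.K') / ρ.y ^ (19 * ρ.K') * ρ.X := by rw [Pr.Er]; ring
          _ ≤ _ := mul_le_mul_of_nonneg_right (e1.trans (mul_le_mul_of_nonneg_right ep1 μ0)) X0
      have e3 := mul_le_mul_of_nonneg_right t4 (show 0 ≤ ρ.Er 19 from div_nonneg X0 (by positivity))
      have e4 := mul_le_mul_of_nonneg_left cnt (show 0 ≤ B1 * 4 ^ ρ.U * ρ.ep * μ by positivity)
      have e5 : (1 : ℝ) ≤ 4 ^ ρ.U * (ρ.k6 : ℝ) ^ 3 := one_le_mul_of_one_le_of_one_le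
        (one_le_pow₀ (by norm_num)) (one_le_pow₀ (by exact_mod_cast K1.2.1))
      have e6 : 0 ≤ ρ.ep * μ * ρ.X := by positivity
      have e7 : 0 ≤ B2 * (4 ^ ρ.U * (ρ.k6 : ℝ) ^ 3 * (ρ.ep * μ * ρ.X)) := by positivity
      nlinarith [mul_le_mul_of_nonneg_right e5 e6])
  have e : μ = exp (-(5 / 2) * ρ.La) ^ 2 := by
    rw [← exp_nat_mul, hμ]
    congr 1
    push_cast
    ring
  rw [← mul_assoc, e, sqrt_mul' _ (sq_nonneg _), sqrt_sq (exp_pos _).le] at key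
  refine le_trans (le_of_eq_of_le (by ring) key) ?_
  rw [t1]
  refine sum_le_sum fun q _ => sum_le_sum fun D _ => sum_le_sum fun c _ => ?_
  rw [sum_comm]
  refine sum_le_sum fun g _ => ?_
  rw [Pr.Wq, mul_sum]
  refine sum_le_sum fun σ _ => ?_
  rw [Pr.cv, mul_comm (ind (ρ.Val _)), mul_assoc]
  exact mul_le_mul_of_nonneg_right (ind_mono And.left)
    (mul_nonneg (by unfold Pr.cw; positivity) (ind_nonneg _))

end Pool.Agent.P.MP_6f5b02_nt.Hy
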