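import Pool.Agent.P.MP_6f5b02_nt.Hy.IfT
import Pool.Agent.P.MP_8be758_nt.Pd.THI

/-! Step HI. -/

namespace Pool.Agent.P.MP_6f5b02_nt.Hy

open Pool.Agent.P.MP_8be758_nt Pool.Agent.P.MP_8be758_nt.Pd
open Finset Real Filter
open Pool.Agent.P.MP_8be758_nt.Par (det)
open Pool.Agent.P.MP_e86632_nt (ee)

theorem p_HI (hHU : S_HU) (hLAM : S_LAM) :
    S_HI := by
  obtain ⟨Ch, hHU⟩ := hHU 20
  obtain ⟨c, hL⟩ := hLAM
  refine ⟨c + Ch + 80, fun A C1 => ?_⟩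
  obtain ⟨C, hC, hL⟩ := hL A C1
  refine ⟨162 * exp (C + 2), by nlinarith [add_one_le_exp (C + 2)], fun z h1 h2 hz => ?_⟩
  filter_upwards [hL z h1 h2 (hz.mono (by omega)), eventually_ge_atTop 2] with y hL hy
  set ρ : Pr := ⟨z, y⟩
  intro a t Θ δ p0 B ht ha Θ0 Θ1 hB hδ hD hp
  have L1 : |∑ p ∈ ρ.Ps, (1 : ℝ) / p - ρ.La| ≤ C := hL.1
  have L2 : ∑ p ∈ ρ.Ps.filter (fun p => rho ρ.A p = 2), (1 : ℝ) / p = ρ.La / 2 := hL.2.2.2.2.1
  have L3 : ∑ p ∈ ρ.Ps, (1 : ℝ) / p ^ 2 ≤ 1 / ρ.w := hL.2.2.2.2.2.1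
  obtain ⟨-, -, -, -, b1, b2, b3, b4, -⟩ := hz
  have w0 : (80 : ℝ) ≤ ρ.w := by exact_mod_cast (by omega : 80 ≤ z.w)
  have hP (p) (h : p ∈ ρ.Ps) : p.Prime ∧ (p : ℝ) ≤ y ∧ 80 ≤ p := by
    obtain ⟨h1, h2, h3⟩ := (mem_PP (by linarith)).1 h
    exact ⟨h1, h3, by exact_mod_cast w0.trans h2.le⟩
  have t0 : (0 : ℝ) < |(t : ℝ)| := abs_pos.2 (by exact_mod_cast ht)
  have y1 : (1 : ℝ) ≤ y := by linarith
  have a1 : y ^ (2 * z.K) * y * y ^ Ch ≤ a / |(t : ℝ)| := by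
    rw [le_div_iff₀' t0]
    refine le_trans (mul_le_mul_of_nonneg_left (le_sqrt_of_sq_le ?_) t0.le) ha
    rw [← pow_succ, ← pow_add, ← pow_mul]
    exact pow_le_pow_right₀ y1 (by show _ ≤ z.k3; nlinarith)
  have a2 : 1 ≤ a / |(t : ℝ)| := le_trans (one_le_mul_of_one_le_of_one_le
    (one_le_mul_of_one_le_of_one_le (one_le_pow₀ y1) y1) (one_le_pow₀ y1)) a1
  set R := a / |(t : ℝ)| with hR
  have n1 : R ≤ ((⌊R⌋ - (-⌊R⌋ - 1) : ℤ) : ℝ) ∧ ((⌊R⌋ - (-⌊R⌋ - 1) : ℤ) : ℝ) ≤ 3 * R := by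
    have := Int.floor_le R
    have := Int.lt_floor_add_one R
    have : (0 : ℝ) ≤ ⌊R⌋ := by exact_mod_cast Int.floor_nonneg.2 (by linarith)
    push_cast
    constructor <;> linarith
  set S := ρ.Ps.filter fun p => rho ρ.A p = 2
  set T := S.powerset.filter fun E => δ.primeFactors ⊆ E ∧ (∀ p ∈ E, ¬(p : ℤ) ∣ t) ∧
    ((∏ p ∈ E, p : ℕ) : ℝ) ≤ y ^ (2 * z.K)
  set q : Finset ℕ → ℕ := fun E => if p0 ∈ E then 1 else p0 with hq
  set x : ℕ → ℝ := fun p => Θ * ((1 + 24 / (p : ℝ)) / p) with hx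
  have x0 (p) : 0 ≤ x p := by positivity
  have x1 (p) (h : p ∈ ρ.Ps) : x p ≤ 2 / p := by
    rw [hx]
    simp only [← mul_div_assoc]
    gcongr
    nlinarith [(HI_loc (hP p h).2.2).1]
  have E0 (c : ℝ) (hc : 0 ≤ c) (B s) : 0 ≤ Ep ρ.Ps c B s :=
    prod_nonneg fun p _ => zero_le_one.trans (HI_fac p c hc _).1
  set H : Finset ℕ → ℤ → ℝ := fun E s => Θ ^ E.card * (ind (ρ.pf (a - s * t) = E) *
    (ind (q E = 1 ∨ B (q E) s) * Ep ρ.Ps 20 B s)) with hH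
  have H0 (E s) : 0 ≤ H E s := mul_nonneg (by positivity) (mul_nonneg (ind_nonneg _)
    (mul_nonneg (ind_nonneg _) (E0 _ (by norm_num) _ _)))
  have s1 : ∑ s ∈ (Icc (-a) a).filter fun s => |s * t| ≤ a ∧ Int.gcd t (a - s * t) = 1,
      ρ.hw Θ (a - s * t) * ind ((δ : ℤ) ∣ a - s * t) * ind (p0 = 1 ∨ B p0 s) * Ep ρ.Ps 20 B s ≤
      ∑ s ∈ Ioc (-⌊R⌋ - 1) ⌊R⌋, ∑ E ∈ T, H E s := by
    refine (sum_le_sum fun s hs => ?_).trans (sum_le_sum_of_subset_of_nonneg (fun s hs => ?_)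
      fun s _ _ => sum_nonneg fun E _ => H0 E s)
    · rw [Pr.hw, mul_assoc (Θ ^ _), ← ind_and, mul_assoc (Θ ^ _), ← ind_and]
      by_cases h : ((Squarefree (a - s * t).natAbs ∧ (ρ.fl (a - s * t) : ℝ) ≤ ρ.y ^ (2 * ρ.K) ∧
        (ρ.om (a - s * t) : ℝ) ≤ ρ.K * ρ.La ∧ ∀ p ∈ ρ.pf (a - s * t), rho ρ.A p = 2) ∧
        (δ : ℤ) ∣ a - s * t) ∧ (p0 = 1 ∨ B p0 s)
      swap
      · rw [ind_neg h, mul_zero, zero_mul]
        exact sum_nonneg fun E _ => H0 E s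
      rw [ind_pos h]
      obtain ⟨⟨⟨-, h1, -, h2⟩, h3⟩, h4⟩ := h
      refine le_trans (le_of_eq ?_) (single_le_sum (fun E _ => H0 E s)
        (mem_filter.2 ⟨mem_powerset.2 fun p hp => mem_filter.2 ⟨(mem_pf.1 hp).1, h2 p hp⟩,
          fun p hp => mem_pf.2 ⟨hD hp, (Int.natCast_dvd_natCast.2
            (Nat.dvd_of_mem_primeFactors hp)).trans h3⟩, fun p hp h5 => ?_, h1⟩))
      · have : q (ρ.pf (a - s * t)) = 1 ∨ B (q (ρ.pf (a - s * t))) s := by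
          simp only [hq]
          split_ifs
          exacts [Or.inl rfl, h4]
        simp only [hH, ind_pos this, ind_pos trivial, one_mul, mul_one, Pr.om]
      · have := Int.dvd_coe_gcd h5 (mem_pf.1 hp).2
        rw [(mem_filter.1 hs).2.2, Int.natCast_dvd_natCast, Nat.dvd_one] at this
        exact (hP p (mem_pf.1 hp).1).1.ne_one this
    · have h : ((|s| : ℤ) : ℝ) ≤ R := by
        rw [hR, le_div_iff₀ t0, Int.cast_abs, ← abs_mul]
        exact_mod_cast (mem_filter.1 hs).2.1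
      have := abs_le.1 (Int.le_floor.2 h)
      exact mem_Ioc.2 ⟨by omega, this.2⟩
  set U := ∏ p ∈ ρ.Ps, exp (-(1 / p) + 60 / (p : ℝ) ^ 2) with hU
  set G := Ep ρ.Ps 24 (fun p x => (p : ℤ) ∣ x) t
  have G0 : 0 ≤ G := E0 _ (by norm_num) _ _
  have U0 : 0 ≤ U := by positivity
  have s2 : ∀ E ∈ T, ∑ s ∈ Ioc (-⌊R⌋ - 1) ⌊R⌋, H E s ≤
      54 * R * U * G * (1 / q E * ∏ p ∈ E, x p) := by
    intro E hE
    obtain ⟨h1, -, h2, h3⟩ := mem_filter.1 hE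
    have h4 : q E = 1 ∨ (q E ∈ ρ.Ps ∧ q E ∉ E) := by
      simp only [hq]
      split_ifs with e
      exacts [Or.inl rfl, hp.imp id fun h => ⟨h.1, e⟩]
    have h5 : (q E : ℝ) ≤ y := h4.elim (fun e => by rw [e]; simpa using y1) fun e => (hP _ e.1).2.1
    have := HI_E (a := a) hHU hy hP hB ((mem_powerset.1 h1).trans (filter_subset _ _)) h2 h4
      (le_trans (by rw [Nat.cast_mul]; gcongr) (a1.trans n1.1))
    simp only [hH, hx]
    rw [← mul_sum, prod_mul_distrib, prod_const]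
    refine (mul_le_mul_of_nonneg_left this (by positivity)).trans ?_
    rw [← hU]
    calc _ ≤ Θ ^ E.card * (18 * (3 * R) * U * G * (1 / q E * ∏ p ∈ E, (1 + 24 / (p : ℝ)) / p)) := by
          gcongr
          exact n1.2
      _ = _ := by ring
  have hT (E) (h : E ∈ T) : E ⊆ S ∧ δ.primeFactors ⊆ E :=
    ⟨mem_powerset.1 (mem_filter.1 h).1, (mem_filter.1 h).2.1⟩
  set Z := ∏ p ∈ S, (1 + x p) with hZ
  have Z0 : 0 ≤ Z := prod_nonneg fun p _ => by linarith [x0 p]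
  have s3 : ∑ E ∈ T, ∏ p ∈ E, x p ≤ 2 ^ δ.primeFactors.card / δ * Z := by
    refine (HI_pow S _ x0 hT).trans (mul_le_mul_of_nonneg_right ?_ Z0)
    refine (prod_le_prod (fun p _ => x0 p) fun p h => x1 p (hD h)).trans_eq ?_
    rw [prod_div_distrib, prod_const, ← Nat.cast_prod, Nat.prod_primeFactors_of_squarefree hδ]
  have s4 : ∑ E ∈ T, 1 / (q E : ℝ) * ∏ p ∈ E, x p ≤
      3 * (2 ^ δ.primeFactors.card / (δ * p0)) * Z := by
    rcases hp with rfl | ⟨h1, rfl⟩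
    · have : 0 ≤ 2 ^ δ.primeFactors.card / (δ : ℝ) * Z := by positivity
      simp only [hq, ite_self, Nat.cast_one, div_one, one_mul, mul_one]
      linarith
    have h2 := HI_pow S {p0} x0 (T := T.filter (p0 ∈ ·)) fun E h =>
      ⟨(hT E (mem_filter.1 h).1).1, singleton_subset_iff.2 (mem_filter.1 h).2⟩
    have h3 := mul_le_mul_of_nonneg_right (x1 p0 h1) Z0
    have h4 := mul_le_mul_of_nonneg_left s3 (show (0 : ℝ) ≤ 1 / p0 by positivity)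
    rw [prod_singleton, sum_filter] at h2
    rw [mul_sum] at h4
    have h5 : ∑ E ∈ T, 1 / (q E : ℝ) * ∏ p ∈ E, x p ≤
        ∑ E ∈ T, ((if p0 ∈ E then ∏ p ∈ E, x p else 0) + 1 / (p0 : ℝ) * ∏ p ∈ E, x p) :=
      sum_le_sum fun E _ => by
        have := prod_nonneg fun p (_ : p ∈ E) => x0 p
        simp only [hq]
        split_ifs
        · rw [Nat.cast_one, div_one, one_mul]
          exact le_add_of_nonneg_right (by positivity)
        · exact (zero_add _).ge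
    rw [sum_add_distrib] at h5
    simp only [Nat.primeFactors_one, card_empty, pow_zero, Nat.cast_one, div_one, one_mul] at h4 ⊢
    refine (h5.trans (add_le_add (h2.trans h3) h4)).trans_eq (by ring)
  have w1 : 1 / (ρ.w : ℝ) ≤ 1 / 80 := one_div_le_one_div_of_le (by norm_num) w0
  have s5 : U ≤ exp (-ρ.La + C + 1) := by
    rw [hU, ← exp_sum, sum_add_distrib, sum_neg_distrib,
      sum_congr rfl fun (p : ℕ) _ => div_eq_mul_one_div (60 : ℝ) ((p : ℝ) ^ 2), ← mul_sum]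
    exact exp_le_exp.2 (by linarith [(abs_le.1 L1).1])
  have s6 : Z ≤ exp (Θ / 2 * ρ.La + 1) := by
    refine (prod_le_prod (fun p _ => by linarith [x0 p]) fun p _ =>
      (add_comm _ _).trans_le (add_one_le_exp (x p))).trans ?_
    have e (p : ℕ) : x p = Θ * (1 / p) + 24 * Θ * (1 / (p : ℝ) ^ 2) := by simp only [hx]; ring
    have h : ∑ p ∈ S, 1 / (p : ℝ) ^ 2 ≤ 1 / 80 := (sum_le_sum_of_subset_of_nonneg
      (filter_subset _ _) fun _ _ _ => by positivity).trans (L3.trans w1)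
    rw [← exp_sum, sum_congr rfl fun p _ => e p, sum_add_distrib, ← mul_sum, ← mul_sum, L2]
    exact exp_le_exp.2 (by nlinarith)
  rw [sum_comm] at s1
  refine (s1.trans (sum_le_sum s2)).trans ?_
  rw [← mul_sum]
  have s7 : 0 ≤ ∑ E ∈ T, 1 / (q E : ℝ) * ∏ p ∈ E, x p := sum_nonneg fun E _ =>
    mul_nonneg (by positivity) (prod_nonneg fun p _ => x0 p)
  clear_value U G Z R
  calc _ ≤ 54 * R * exp (-ρ.La + C + 1) * G *
        (3 * (2 ^ δ.primeFactors.card / (δ * p0)) * exp (Θ / 2 * ρ.La + 1)) :=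
        mul_le_mul (by gcongr) (s4.trans (by gcongr)) s7 (by positivity)
    _ = 162 * R * G * (2 ^ δ.primeFactors.card / (δ * p0)) *
        (exp (-ρ.La + C + 1) * exp (Θ / 2 * ρ.La + 1)) := by ring
    _ = _ := by
        rw [← exp_add, show -ρ.La + C + 1 + (Θ / 2 * ρ.La + 1) = C + 2 + (Θ / 2 - 1) * ρ.La by ring,
          exp_add]
        ring

end Pool.Agent.P.MP_6f5b02_nt.Hy
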