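import Pool.Agent.P.MP_6f5b02_nt.Hy.IfH
import Pool.Agent.P.MP_8be758_nt.Pd.THLH

/-! Step HLH. -/

namespace Pool.Agent.P.MP_6f5b02_nt.Hy

open Pool.Agent.P.MP_8be758_nt Pool.Agent.P.MP_8be758_nt.Pd
open Finset Real Filter
open Pool.Agent.P.MP_8be758_nt.Par (det)

open Polynomial in
theorem p_HLH :
    S_HLH := by
  refine ⟨0, fun A C1 => ⟨1, le_rfl, fun z _ _ _ => Eventually.of_forall fun y => ?_⟩⟩
  generalize (⟨z, y⟩ : Pr) = ρ
  intro P R a b D T ψ u s0 t0 l ⟨_, _, _, h4, h5, h6, h7, h8, _, h10, _, _, h13⟩ hψ hu hl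
  have pa : ∀ p : ℕ, p.Prime → p ≤ ρ.w → ¬(p : ℤ) ∣ a := fun p hp hw k =>
    absurd (h5 p hp k).1 (not_lt.2 hw)
  refine ⟨fun p hp => ⟨fun x x' e => ?_, ?_⟩, fun t ht => ?_⟩
  · refine Int.ModEq.dvd_iff ?_
    gcongr
  · obtain ⟨q1, -, q3⟩ := (mem_PP (Nat.cast_nonneg _)).1 hp
    have q4 : p ≤ ρ.w := by exact_mod_cast q3
    have := Fact.mk q1
    have hq := HLH_quad (p := p) (c0 := a * R) (c1 := b) (c2 := P) fun k0 k1 k2 =>
      h4 p q1 q4 k2 k1 (((Nat.prime_iff_prime_int.1 q1).dvd_or_dvd k0).resolve_left (pa p q1 q4))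
    refine HLH_root (mul_ne_zero X_ne_zero hq) (d := 3) (by compute_degree) id (fun _ _ h => h) _
      fun x hx => ?_
    have := (ZMod.intCast_zmod_eq_zero_iff_dvd _ _).2 hx
    push_cast at this
    simp only [eval_mul, eval_add, eval_X, eval_C, eval_pow, id]
    push_cast
    linear_combination this
  classical
  obtain ⟨t1, -, t3, t4, t5, t6, t7⟩ := mem_filter.1 ht
  obtain ⟨t0', t1⟩ := mem_Icc.1 t1
  have tT : (t : ℝ) ≤ T := (Nat.le_floor_iff h8.le).1 t1
  have pt : ∀ p : ℕ, p.Prime → p ∣ t → ρ.w < p := fun p hp k => by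
    by_contra hw
    have k' : (p : ℤ) ∣ t := Int.natCast_dvd_natCast.2 k
    by_cases c : (p : ℝ) ≤ 4 * ρ.A
    · have m : p ∈ PP 0 (4 * ρ.A) :=
        (mem_PP (by positivity)).2 ⟨hp, by exact_mod_cast hp.pos, c⟩
      exact (hl p m).1 ((dvd_iff_of_modEq (t3 p m) (by push_cast; exact dvd_pow_self _ two_ne_zero)).1 k')
    · exact t4 p ((mem_PP (Nat.cast_nonneg _)).2 ⟨hp, not_le.1 c, by exact_mod_cast not_lt.1 hw⟩)
        (k'.mul_right _)
  refine ⟨hψ, ⟨u, hu⟩, h6, h7, Nat.squarefree_iff_prime_squarefree.2 fun p hp k => ?_, pt, ?_, t6,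
    tT.trans h10, t7, h13, fun p hp => ⟨fun x x' e => and_congr_right fun _ => ?_, ?_⟩⟩
  · exact t5 p hp (pt p hp ((dvd_mul_right p p).trans k)) (by rwa [sq])
  · refine Nat.eq_one_iff_not_exists_prime_dvd.2 fun p hp k => ?_
    have k1 : p ∣ t := Int.natCast_dvd_natCast.1
      ((Int.natCast_dvd_natCast.2 k).trans (Int.gcd_dvd_left _ _))
    rcases (h5 p hp ((Int.natCast_dvd_natCast.2 k).trans (Int.gcd_dvd_right _ _))).2 with c | c
    · exact hp.one_lt.ne' (Nat.eq_one_of_dvd_coprimes t6 k1 c)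
    · have : (p : ℝ) ≤ t := by exact_mod_cast Nat.le_of_dvd t0' k1
      linarith
  · refine Int.ModEq.dvd_iff ?_
    gcongr
  · by_cases c : 4 * ρ.A < p ∧ p ≤ ρ.w
    · have := Fact.mk hp
      have pp := Nat.prime_iff_prime_int.1 hp
      have nt : ¬(p : ℤ) ∣ t := fun k =>
        absurd (pt p hp (Int.natCast_dvd_natCast.1 k)) (not_lt.2 c.2)
      have hq := HLH_quad (p := p) (c0 := a * P * t ^ 2) (c1 := b * t) (c2 := R) fun k0 k1 =>
        h4 p hp c.2 ((pp.dvd_or_dvd ((pp.dvd_or_dvd k0).resolve_right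
          fun k => nt (pp.dvd_of_dvd_pow k))).resolve_left (pa p hp c.2))
          ((pp.dvd_or_dvd k1).resolve_right nt)
      refine HLH_root hq (d := 2) (by compute_degree) (fun x => a - x)
        (fun x x' h => by simpa using (Int.ModEq.refl a).sub h) _ fun x hx => ?_
      have := (ZMod.intCast_zmod_eq_zero_iff_dvd _ _).2 hx.2
      push_cast at this
      simp only [eval_mul, eval_add, eval_X, eval_C, eval_pow]
      push_cast
      linear_combination this
    · exact (sum_eq_zero fun x _ => ind_neg fun k => c k.1).trans_le zero_le_two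

end Pool.Agent.P.MP_6f5b02_nt.Hy
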