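import Pool.Agent.P.MP_6f5b02_nt.Hy.IfH
import Pool.Agent.P.MP_6f5b02_nt.Hy.BasicT
import Pool.Agent.P.MP_8be758_nt.Pd.THLM2

/-! Step HLM2. -/

namespace Pool.Agent.P.MP_6f5b02_nt.Hy

open Pool.Agent.P.MP_8be758_nt Pool.Agent.P.MP_8be758_nt.Pd
open Finset Real Filter
open Pool.Agent.P.MP_8be758_nt.Par (det)

theorem HLM2_t (hC : S_CON1) (ρ : Pr) {ψ : Fm} {a : ℤ} {D t : ℕ} {Bd : ℕ → ℤ → Prop}
    (H : ρ.HH ψ a D t Bd) (hA : 5 ≤ ρ.A) (hw : 4 * ρ.A ≤ ρ.w) (h16 : 16 ≤ ρ.w) (hy : 0 < ρ.y)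
    (hk : 8 * (ρ.k4 : ℝ) ≤ ρ.y) (hl : (ρ.lp t).card ≤ 2 * ρ.k4) :
    1 / (2 * (t : ℝ)) ≤ ∏ p ∈ t.primeFactors, S2.av p fun v => ind ((p : ℤ) ∣ a - ev ψ v) := by
  obtain ⟨h1, ⟨u, rfl⟩, -, -, h5, h6, h7, -, -, h10, -⟩ := H
  have t0 : (0 : ℝ) < t := by exact_mod_cast Nat.pos_of_ne_zero h5.ne_zero
  have p1 : ∀ p ∈ t.primeFactors, (1 : ℝ) ≤ p := fun p hp => by
    exact_mod_cast (Nat.prime_of_mem_primeFactors hp).pos
  have s1 : ∑ p ∈ t.primeFactors, (1 : ℝ) / p ≤ 1 / 2 := by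
    have a1 : ∑ p ∈ t.primeFactors, (1 : ℝ) / p ≤ ∑ p ∈ t.primeFactors,
        ((if p ∈ ρ.pf t then (1 : ℝ) / p else 0) + if p ∈ ρ.lp t then 1 / ρ.y else 0) := by
      refine sum_le_sum fun p hp => ?_
      have b1 := Nat.prime_of_mem_primeFactors hp
      have b2 := Nat.dvd_of_mem_primeFactors hp
      by_cases k : (p : ℝ) ≤ ρ.y
      · rw [if_pos (mem_pf.2 ⟨(mem_PP hy.le).2 ⟨b1, by exact_mod_cast h6 p b1 b2, k⟩,
          by exact_mod_cast b2⟩)]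
        split_ifs
        exacts [le_add_of_nonneg_right (by positivity), (add_zero _).ge]
      · rw [if_pos (show p ∈ ρ.lp t from mem_filter.2 ⟨by simpa using hp, not_le.1 k⟩)]
        refine (one_div_le_one_div_of_le hy (not_le.1 k).le).trans (le_add_of_nonneg_left ?_)
        split_ifs <;> positivity
    rw [sum_add_distrib] at a1
    have a2 : _ ≤ ρ.si t := HLM2_ite t.primeFactors (ρ.pf t) (f := fun p => (1 : ℝ) / p)
      fun p => by positivity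
    have a3 := HLM2_ite t.primeFactors (ρ.lp t) (f := fun _ => 1 / ρ.y) fun p => by positivity
    rw [sum_const, nsmul_eq_mul] at a3
    have a4 : ((ρ.lp t).card : ℝ) * (1 / ρ.y) ≤ 1 / 4 := by
      have : ((ρ.lp t).card : ℝ) ≤ 2 * ρ.k4 := by exact_mod_cast hl
      rw [mul_one_div, div_le_iff₀ hy]
      linarith
    have a5 : 1 / √(ρ.w : ℝ) ≤ 1 / 4 := one_div_le_one_div_of_le (by norm_num)
      (le_sqrt_of_sq_le (by exact_mod_cast h16))
    linarith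
  calc 1 / (2 * (t : ℝ)) ≤ (∏ p ∈ t.primeFactors, (1 : ℝ) / p) *
        ∏ p ∈ t.primeFactors, (1 - (1 : ℝ) / p) := by
        have e : ∏ p ∈ t.primeFactors, (1 : ℝ) / p = 1 / t := by
          rw [prod_div_distrib, prod_const_one, ← Nat.cast_prod,
            Nat.prod_primeFactors_of_squarefree h5]
        have := HLM2_prod t.primeFactors (fun p => (1 : ℝ) / p) fun p hp =>
          ⟨by positivity, (div_le_one (by linarith [p1 p hp])).2 (p1 p hp)⟩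
        rw [e, show 1 / (2 * (t : ℝ)) = 1 / t * (1 / 2) by field_simp]
        exact mul_le_mul_of_nonneg_left (by linarith) (by positivity)
    _ ≤ _ := by
        rw [← prod_mul_distrib]
        refine prod_le_prod (fun p hp => mul_nonneg (by positivity)
          (sub_nonneg.2 ((div_le_one (by linarith [p1 p hp])).2 (p1 p hp)))) fun p hp => ?_
        have b1 := Nat.prime_of_mem_primeFactors hp
        have b2 := Nat.dvd_of_mem_primeFactors hp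
        have b3 := p1 p hp
        refine le_trans (le_of_eq ?_) (hC ρ.A p ψ u hA (mem_filter.1 h1).2 b1
          (hw.trans_lt (h6 p b1 b2)) fun k => b1.one_lt.ne' (Nat.dvd_one.1 ?_))
        · field_simp
        · rw [← h7]
          exact Int.dvd_gcd (by exact_mod_cast b2) k

theorem HLM2_s (ρ : Pr) (D t : ℕ) (hA : 5 ≤ ρ.A) (hy : 0 ≤ ρ.y) :
    ∑ p ∈ ρ.hP t, (if p ≤ ρ.w then 12 / (p : ℝ) else if ρ.y < (p : ℝ) then 4 / (p : ℝ)
      else if p ∣ D then 8 / (p : ℝ) else 5 / 6 * (rho ρ.A p : ℝ) / p + 20 / (p : ℝ) ^ 2) ≤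
    12 * ∑ p ∈ PP 2 ρ.w, (1 : ℝ) / p + 4 * ∑ p ∈ PP ρ.y (ρ.y ^ ρ.k4), (1 : ℝ) / p + 8 * ρ.si D +
      (5 / 6 * ρ.La + 20 * ∑ p ∈ ρ.Ps, (1 : ℝ) / p ^ 2) := by
  rw [Pr.si, Pr.La, mul_sum, mul_sum, mul_sum, mul_sum, mul_sum, ← sum_add_distrib]
  refine le_trans (sum_le_sum fun p hp => ?_) ((sum_add_distrib.trans (congrArg (· + _)
    (sum_add_distrib.trans (congrArg (· + _) sum_add_distrib)))).trans_le (add_le_add (add_le_add
      (add_le_add (HLM2_ite (ρ.hP t) _ fun p => by positivity)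
        (HLM2_ite (ρ.hP t) _ fun p => by positivity))
      (HLM2_ite (ρ.hP t) _ fun p => by positivity)) (HLM2_ite (ρ.hP t) _ fun p => by positivity)))
  obtain ⟨b1, b2, b3⟩ := (mem_PP (by positivity)).1 (mem_filter.1 hp).1
  have n : ∀ (T : Finset ℕ) (x : ℝ), 0 ≤ x → 0 ≤ if p ∈ T then x else 0 := fun T x h => by
    split_ifs
    exacts [h, le_rfl]
  have n1 := n (PP 2 ρ.w) (12 * (1 / p)) (by positivity)
  have n2 := n (PP ρ.y (ρ.y ^ ρ.k4)) (4 * (1 / p)) (by positivity)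
  have n3 := n (ρ.pf D) (8 * (1 / p)) (by positivity)
  have n4 := n ρ.Ps (5 / 6 * ((rho ρ.A p : ℝ) / p) + 20 * (1 / p ^ 2)) (by positivity)
  have hA' : (1 : ℝ) ≤ ρ.A := by exact_mod_cast (by omega : 1 ≤ ρ.A)
  by_cases k1 : p ≤ ρ.w
  · rw [if_pos k1, if_pos ((mem_PP (by positivity)).2 ⟨b1, by linarith, by exact_mod_cast k1⟩),
      ← mul_one_div]
    linarith
  rw [if_neg k1]
  by_cases k2 : ρ.y < (p : ℝ)
  · rw [if_pos k2, if_pos ((mem_PP (by positivity)).2 ⟨b1, k2, b3⟩ : p ∈ PP ρ.y _), ← mul_one_div]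
    linarith
  have k4 : p ∈ ρ.Ps := (mem_PP hy).2 ⟨b1, by exact_mod_cast not_le.1 k1, not_lt.1 k2⟩
  rw [if_neg k2]
  by_cases k3 : p ∣ D
  · rw [if_pos k3, if_pos (mem_pf.2 ⟨k4, by exact_mod_cast k3⟩), ← mul_one_div]
    linarith
  · rw [if_neg k3, if_pos k4, mul_div_assoc, ← mul_one_div 20]
    linarith

theorem p_HLM2 (hBXR : S_BXR) (hCON1 : S_CON1) (hHF : S_HF) (hMER : S_MER) (hLAM : S_LAM) :
    S_HLM2 := by
  obtain ⟨c1, hF⟩ := hHF
  obtain ⟨c2, hL⟩ := hLAM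
  refine ⟨max 16 (max c1 c2), fun A C1 => ?_⟩
  by_cases hA : Odd A ∧ 5 ≤ A
  swap
  · exact ⟨1, le_rfl, fun z e _ h => absurd (e ▸ ⟨h.1, h.2.1⟩) hA⟩
  obtain ⟨c, a0, hc, hB⟩ := hBXR A (by omega)
  obtain ⟨Cm, -, hM⟩ := hMER A hA.1 hA.2
  obtain ⟨CF, -, hF⟩ := hF A C1
  obtain ⟨CL, -, hL⟩ := hL A C1
  have l2 : 0 < log 2 := log_pos one_lt_two
  have P0 : 0 < ∏ p ∈ PP 0 (4 * A), (1 : ℝ) / p ^ 4 := prod_pos fun p hp => by
    have := lt_of_PP hp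
    positivity
  set K : ℝ := c * (∏ p ∈ PP 0 (4 * A), (1 : ℝ) / p ^ 4) * log 2 ^ 12 * exp (-(16 * Cm + 28)) / 2
    with hK
  have K0 : 0 < K := by positivity
  refine ⟨max 1 K⁻¹, le_max_left _ _, fun z e1 e2 hz => ?_⟩
  subst e1
  have z16 := hz.mono (le_max_left _ _)
  filter_upwards [hF z rfl e2 (hz.mono (le_max_of_le_right (le_max_left _ _))),
    hL z rfl e2 (hz.mono (le_max_of_le_right (le_max_right _ _))), eventually_ge_atTop a0,
    eventually_ge_atTop (2 : ℝ), eventually_ge_atTop (8 * (z.k4 : ℝ))] with y f1 f2 y1 y2 y3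
  intro ψ a D t Bd H
  obtain ⟨-, z2, -, z4, z5, -, z7, z8, z9, z10, -⟩ := z16
  have k4 : 1 ≤ z.k4 := by omega
  have w16 : (16 : ℝ) ≤ z.w := by exact_mod_cast z5
  have k4' : (1 : ℝ) ≤ z.k4 := by exact_mod_cast k4
  have ha : y ≤ a := (le_self_pow₀ (by linarith) (by show z.k5 ≠ 0; omega)).trans H.2.2.1
  have t0 : 0 < t := Nat.pos_of_ne_zero H.2.2.2.2.1.ne_zero
  have g1 := (hB ψ H.1 a (by exact_mod_cast (show (0 : ℝ) < a by linarith))).2 (y1.trans ha)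
  have g2 := HLM2_t hCON1 ⟨z, y⟩ H (by show 5 ≤ z.A; omega) z4 z5 (by show 0 < y; linarith) y3
    (f2.2.2.2.2.2.2 t (by exact_mod_cast t0.ne') _ (by simpa using H.2.2.2.2.2.2.2.2.1))
  have g3 := HLM2_s ⟨z, y⟩ D t (by show 5 ≤ z.A; omega) (by show 0 ≤ y; linarith)
  have m1 := (abs_le.1 (hM 2 z.w le_rfl (by linarith)).2).2
  have m2 := (abs_le.1 (hM y (y ^ z.k4) y2 (le_self_pow₀ (by linarith) (by omega))).2).2
  have ly : 0 < log y := log_pos (by linarith)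
  have lw : 0 < log (z.w : ℝ) := log_pos (by linarith)
  rw [log_pow, mul_div_cancel_right₀ _ ly.ne'] at m2
  have m3 : Pr.si ⟨z, y⟩ D ≤ 1 := H.2.2.2.2.2.2.2.2.2.2.1.trans
    ((div_le_one (by positivity)).2 (one_le_sqrt.2 (by show (1 : ℝ) ≤ z.w; linarith)))
  have m4 : ∑ p ∈ Pr.Ps ⟨z, y⟩, (1 : ℝ) / p ^ 2 ≤ 1 := f2.2.2.2.2.2.1.trans
    ((div_le_one (by positivity)).2 (by show (1 : ℝ) ≤ z.w; linarith))
  have g4 : exp (-(5 / 6) * Pr.La ⟨z, y⟩) * exp (-(16 * Cm + 28)) *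
      (log 2 ^ 12 / ((z.k4 : ℝ) ^ 4 * log z.w ^ 12)) ≤
      ∏ p ∈ Pr.hP ⟨z, y⟩ t, S2.av (p ^ 2) (Pr.hf ⟨z, y⟩ ψ a D Bd p) := by
    have e : log 2 ^ 12 / ((z.k4 : ℝ) ^ 4 * log z.w ^ 12) =
        exp (-((12 : ℕ) * log (log z.w / log 2))) * exp (-((4 : ℕ) * log z.k4)) := by
      rw [exp_neg, exp_neg, exp_nat_mul, exp_nat_mul, exp_log (by positivity),
        exp_log (by positivity)]
      field_simp
    refine le_trans ?_ (prod_le_prod (fun p _ => (exp_pos _).le) fun p hp =>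
      (f1 ψ a D t Bd H p (prime_of_PP (mem_filter.1 hp).1)
        (by exact_mod_cast lt_of_PP (mem_filter.1 hp).1)).2.2.2)
    rw [← exp_sum, sum_neg_distrib, e, ← exp_add, ← exp_add, ← exp_add]
    refine exp_le_exp.2 ?_
    push_cast
    simp only at g3 ⊢
    linarith
  have t0' : (0 : ℝ) < t := by exact_mod_cast t0
  have a0' : (0 : ℝ) < a := by linarith
  calc _ = a / t * exp (-(5 / 6) * Pr.La ⟨z, y⟩) / ((z.k4 : ℝ) ^ 4 * log z.w ^ 12) *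
        (max 1 K⁻¹)⁻¹ := by
        field_simp
    _ ≤ a / t * exp (-(5 / 6) * Pr.La ⟨z, y⟩) / ((z.k4 : ℝ) ^ 4 * log z.w ^ 12) * K :=
        mul_le_mul_of_nonneg_left (inv_le_of_inv_le₀ K0 (le_max_right _ _)) (by positivity)
    _ = c * a * (∏ p ∈ PP 0 (4 * z.A), (1 : ℝ) / p ^ 4) * (1 / (2 * (t : ℝ))) *
        (exp (-(5 / 6) * Pr.La ⟨z, y⟩) * exp (-(16 * Cm + 28)) *
          (log 2 ^ 12 / ((z.k4 : ℝ) ^ 4 * log z.w ^ 12))) := by
        rw [hK]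
        field_simp
    _ ≤ _ := by
        have q := mul_le_mul (mul_le_mul_of_nonneg_right g1 P0.le) g2 (by positivity) (by positivity)
        exact mul_le_mul q g4 (by positivity) (le_trans (by positivity) q)

end Pool.Agent.P.MP_6f5b02_nt.Hy
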