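import Pool.Agent.P.MP_6f5b02_nt.Hy.IfM
import Pool.Agent.P.MP_8be758_nt.Pd.TMVP

/-! Step MVP. -/

namespace Pool.Agent.P.MP_6f5b02_nt.Hy

open Pool.Agent.P.MP_8be758_nt Pool.Agent.P.MP_8be758_nt.Pd
open Finset Real Filter
open Pool.Agent.P.MP_8be758_nt.Par (cj det)
open Pool.Agent.P.MP_6f5b02_nt.Hy.Par (nq mul eu un red)
open Pool.Agent.P.MP_6f5b02_nt.Hy.Mr

theorem p_MVP (hMVT : S_MVT) :
    S_MVP := by
  obtain ⟨C, hC, H⟩ := hMVT
  refine ⟨2 * C, by linarith, fun A a K T Y hA hT hY hK => ?_⟩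
  have hI : ∀ v ∈ VV (Q0 A) 0 Y, Mr.Pr v := fun v hv => ((of_mem_VV0 hA) hv).1
  refine (H A V2 (VV (Q0 A) 0 Y) id (fun v => (a v : ℂ)) K T Y hA hT hY hK fun v hv =>
    ⟨((mem_VV0 hA).1 hv).1.nq_pos, ((of_mem_VV0 hA) hv).2.2⟩).trans ?_
  have h : col A (VV (Q0 A) 0 Y) id (fun v => (a v : ℂ)) ≤ 2 * ∑ v ∈ VV (Q0 A) 0 Y, a v ^ 2 := by
    calc _ ≤ ∑ v ∈ VV (Q0 A) 0 Y, ∑ w ∈ VV (Q0 A) 0 Y,
          ((if det v w = 0 then a v ^ 2 / 2 else 0) + if det v w = 0 then a w ^ 2 / 2 else 0) := by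
          refine sum_le_sum fun v hv => sum_le_sum fun w hw => ?_
          simp only [id, Complex.norm_real, Real.norm_eq_abs,
            uu_eq_iff ((mem_VV0 hA).1 hv).1 ((mem_VV0 hA).1 hw).1]
          split_ifs
          · nlinarith [sq_nonneg (|a v| - |a w|), sq_abs (a v), sq_abs (a w)]
          · simp
      _ ≤ ∑ v ∈ VV (Q0 A) 0 Y, 2 * (a v ^ 2 / 2) + ∑ w ∈ VV (Q0 A) 0 Y, 2 * (a w ^ 2 / 2) := by
          simp only [sum_add_distrib]
          refine add_le_add (sum_le_sum fun v hv => MVP_row hI hv (by positivity) _ fun w h => ?_) ?_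
          · simp only [det] at h ⊢; linarith
          · rw [sum_comm]
            exact sum_le_sum fun w hw => MVP_row hI hw (by positivity) _ fun v h => h
      _ = _ := by
          rw [← sum_add_distrib, mul_sum]
          exact sum_congr rfl fun v _ => by ring
  calc _ ≤ C * (T + Y) * (2 * ∑ v ∈ VV (Q0 A) 0 Y, a v ^ 2) :=
        mul_le_mul_of_nonneg_left h (by positivity)
    _ = _ := by ring

end Pool.Agent.P.MP_6f5b02_nt.Hy
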