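import Pool.Agent.P.MP_6f5b02_nt.Hy.IfN

/-! Step NK0. -/

namespace Pool.Agent.P.MP_6f5b02_nt.Hy

open Pool.Agent.P.MP_8be758_nt Pool.Agent.P.MP_8be758_nt.Pd
open Finset Real Filter
open Pool.Agent.P.MP_8be758_nt.Par (det)
open scoped Classical

theorem NK0_sizes (ρ : Pr) (x : VT) (h : ρ.VOK x) (hy : 2 ≤ ρ.y) (hc1 : 1 ≤ ρ.c5)
    (hc : ρ.c5 ^ 2 ≤ ρ.y) (h1 : 2 * ρ.K + 1 ≤ ρ.k3) (h2 : ρ.k6 ≤ ρ.K') :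
    ρ.X ≤ ρ.y ^ ρ.K' * x.P ∧ (x.P : ℝ) ≤ ρ.X := by
  have hy1 : (1 : ℝ) ≤ ρ.y := by linarith
  have hy0 : (0 : ℝ) < ρ.y := by linarith
  have hP : (0 : ℝ) < x.P := by exact_mod_cast h.ok.2.1
  have a1 : ρ.y ≤ (x.t : ℝ) ^ 2 := by
    refine le_trans ?_ h.r1
    exact le_self_pow₀ hy1 (by omega)
  have a2 : ρ.c5 ≤ |(x.t : ℝ)| := by
    refine (le_abs_self _).trans (sq_le_sq.1 ?_)
    exact hc.trans a1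
  have a3 : (x.t : ℝ) ^ 2 ≤ ρ.y ^ ρ.K' := by
    have b1 : (x.t : ℝ) ^ 2 * ρ.y ^ (2 * ρ.K + 1) ≤ (x.t : ℝ) ^ 2 * ρ.y ^ (ρ.k3 + 1) :=
      mul_le_mul_of_nonneg_left (pow_le_pow_right₀ hy1 (by omega)) (sq_nonneg _)
    have b2 : ρ.y ^ (ρ.k6 + 2 * ρ.K) ≤ ρ.y ^ ρ.K' * ρ.y ^ (2 * ρ.K) := by
      rw [← pow_add]
      exact pow_le_pow_right₀ hy1 (by omega)
    have b3 : 2 * (ρ.y ^ ρ.K' * ρ.y ^ (2 * ρ.K)) ≤ ρ.y ^ ρ.K' * ρ.y ^ (2 * ρ.K + 1) := by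
      rw [pow_succ]
      have : 0 ≤ ρ.y ^ ρ.K' * ρ.y ^ (2 * ρ.K) := by positivity
      nlinarith
    have b4 : (x.t : ℝ) ^ 2 * ρ.y ^ (2 * ρ.K + 1) ≤ ρ.y ^ ρ.K' * ρ.y ^ (2 * ρ.K + 1) := by
      have := h.r2
      have := h.r3
      linarith
    exact le_of_mul_le_mul_right b4 (by positivity)
  have a4 : ρ.c5 * |(x.t : ℝ)| ≤ ρ.y ^ ρ.K' := by
    refine le_trans ?_ a3
    rw [← sq_abs, sq]
    exact mul_le_mul_of_nonneg_right a2 (abs_nonneg _)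
  refine ⟨h.t1.trans ?_, ?_⟩
  · rw [← mul_assoc]
    exact mul_le_mul_of_nonneg_right a4 hP.le
  · have b1 : ρ.c5 * x.P ≤ ρ.c5 * ρ.X :=
      (mul_le_mul_of_nonneg_right a2 hP.le).trans h.t2
    exact le_of_mul_le_mul_left b1 (by linarith)

theorem NK0_main (ρ : Pr) (x : VT) (h : ρ.VOK x) (hy : 2 ≤ ρ.y) (hc1 : 1 ≤ ρ.c5)
    (hc : ρ.c5 ^ 2 ≤ ρ.y) (h1 : 2 * ρ.K + 1 ≤ ρ.k3) (h2 : ρ.k6 ≤ ρ.K') (h3 : ρ.k3 ≤ ρ.K') :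
    IsF ρ.A (ρ.bf x) ∧ (ρ.bf x).1 * ρ.fl x.P = x.P ∧ (ρ.ro x : ℤ) * ρ.fl x.a = x.a ∧
    ρ.X / ρ.y ^ (2 * ρ.K') ≤ ((ρ.bf x).1 : ℝ) ∧ ((ρ.bf x).1 : ℝ) ≤ ρ.X ∧
    ρ.ro x ∈ ρ.RA ∧ ρ.fl ((ρ.bf x).1 * (ρ.bf x).2.2) ∈ ρ.SM ∧
    ρ.fl ((ρ.bf x).1 * (ρ.bf x).2.2) = ρ.fl x.P * ρ.fl x.a * ρ.fl x.R ∧
    ρ.nat (ρ.ro x) (ρ.fl ((ρ.bf x).1 * (ρ.bf x).2.2)) (ρ.bf x) ∧
    (∀ p ∈ ρ.Ps, ¬(p : ℤ) ∣ (ρ.bf x).1) := by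
  have hy1 : (1 : ℝ) ≤ ρ.y := by linarith
  have hy0 : (0 : ℝ) < ρ.y := by linarith
  obtain ⟨o1, oP, oR, oa, -⟩ := h.ok
  obtain ⟨z1, z2⟩ := NK0_sizes ρ x h hy hc1 hc h1 h2
  have fP : (0 : ℤ) < ρ.fl x.P := by exact_mod_cast fl_pos ρ x.P
  have fa : (0 : ℤ) < ρ.fl x.a := by exact_mod_cast fl_pos ρ x.a
  have eP : (ρ.bf x).1 * ρ.fl x.P = x.P := Int.ediv_mul_cancel (fl_dvd ρ x.P)
  have ea0 : x.a / ρ.fl x.a * ρ.fl x.a = x.a := Int.ediv_mul_cancel (fl_dvd ρ x.a)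
  have qa : 0 ≤ x.a / (ρ.fl x.a : ℤ) := Int.ediv_nonneg oa.le fa.le
  have ea : (ρ.ro x : ℤ) * ρ.fl x.a = x.a := by
    rw [Pr.ro, Int.natAbs_of_nonneg qa]
    exact ea0
  have q0 : 0 < (ρ.bf x).1 := by
    by_contra hn
    have := mul_nonpos_of_nonpos_of_nonneg (not_lt.1 hn) fP.le
    omega
  have e22 : (ρ.bf x).2.2 = ρ.fl x.P * x.a * x.R := rfl
  have e21 : (ρ.bf x).2.1 = x.b := rfl
  have eM : (ρ.bf x).1 * (ρ.bf x).2.2 = x.P * x.a * x.R := by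
    rw [e22]
    linear_combination (x.a * x.R) * eP
  have sq3 : ∀ p ∈ ρ.Ps, ¬(p : ℤ) ^ 2 ∣ x.P * x.a * x.R := fun p hp hd =>
    (h.val p hp).1 (hd.trans ⟨x.af * x.Nt * x.Ns, by rw [VT.Pi6]; ring⟩)
  have sq2 : ∀ p ∈ ρ.Ps, ¬(p : ℤ) ^ 2 ∣ x.P * x.a := fun p hp hd => sq3 p hp (hd.mul_right _)
  have eF : ρ.fl ((ρ.bf x).1 * (ρ.bf x).2.2) = ρ.fl x.P * ρ.fl x.a * ρ.fl x.R := by
    rw [eM, fl_mul ρ sq3, fl_mul ρ sq2]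
  have ePr : ((ρ.bf x).1 : ℝ) * (ρ.fl x.P : ℝ) = x.P := by exact_mod_cast eP
  have q0r : (0 : ℝ) < ((ρ.bf x).1 : ℝ) := by exact_mod_cast q0
  have fPr : (1 : ℝ) ≤ (ρ.fl x.P : ℝ) := by exact_mod_cast fl_pos ρ x.P
  have rle : (ρ.ro x : ℝ) ≤ ρ.y ^ ρ.U := by
    have b1 : (ρ.ro x : ℤ) ≤ x.a := by
      have : (0 : ℤ) ≤ ρ.ro x := Int.natCast_nonneg _
      nlinarith
    have b2 : (ρ.ro x : ℝ) ≤ x.a := by exact_mod_cast b1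
    exact b2.trans (h.r3.trans (pow_le_pow_right₀ hy1 (by simp only [St.U]; omega)))
  have rd : ρ.ro x ∣ x.a.natAbs := by
    rw [← Int.natCast_dvd_natCast, Int.natAbs_of_nonneg oa.le]
    exact ⟨_, ea.symm⟩
  have an : x.a.natAbs ≠ 0 := Int.natAbs_ne_zero.2 oa.ne'
  refine ⟨⟨?_, q0⟩, eP, ea, ?_, ?_, ?_, ?_, eF, ⟨?_, ?_⟩, ?_⟩
  · rw [e21, mul_assoc, eM]
    linear_combination o1
  · rw [div_le_iff₀ (by positivity), two_mul, pow_add]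
    refine z1.trans ?_
    rw [← ePr]
    have b1 : ((ρ.bf x).1 : ℝ) * (ρ.fl x.P : ℝ) ≤ ((ρ.bf x).1 : ℝ) * ρ.y ^ ρ.K' :=
      mul_le_mul_of_nonneg_left h.fP q0r.le
    have b2 : (0 : ℝ) ≤ ρ.y ^ ρ.K' := by positivity
    nlinarith
  · refine le_trans ?_ z2
    rw [← ePr]
    exact le_mul_of_one_le_right q0r.le fPr
  · rw [Pr.RA, mem_SF (by positivity)]
    refine ⟨rle, h.ra.1.squarefree_of_dvd rd, fun p hp => ?_⟩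
    obtain ⟨p1, p2, p3⟩ := Nat.mem_primeFactors.1 hp
    have p4 : (p : ℝ) ≤ ρ.ro x := by exact_mod_cast Nat.le_of_dvd (Nat.pos_of_ne_zero p3) p2
    refine (mem_PP (by positivity)).2 ⟨p1, ?_, p4.trans rle⟩
    by_contra hn
    have p5 : p ∈ ρ.Ps := (mem_PP hy0.le).2
      ⟨p1, h.ra.2 p (Nat.mem_primeFactors.2 ⟨p1, p2.trans rd, an⟩), not_lt.1 hn⟩
    have p6 : (p : ℤ) ∣ (ρ.ro x : ℤ) := Int.natCast_dvd_natCast.2 p2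
    have p7 : (p : ℤ) ∣ x.a := p6.trans ⟨_, ea.symm⟩
    have p8 : (p : ℤ) ∣ (ρ.fl x.a : ℤ) :=
      Int.natCast_dvd_natCast.2 ((dvd_fl p1).2 (mem_pf.2 ⟨p5, p7⟩))
    refine sq2 p p5 (Dvd.dvd.mul_left ?_ _)
    rw [← ea, sq]
    exact mul_dvd_mul p6 p8
  · rw [Pr.SM, mem_SF (by positivity)]
    refine ⟨?_, squarefree_fl ρ _, ?_⟩
    · rw [eF]
      push_cast
      have b1 : (ρ.fl x.a : ℝ) ≤ ρ.y ^ ρ.K' := h.fa.trans (pow_le_pow_right₀ hy1 (by omega))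
      have b2 : ρ.y ^ (3 * ρ.K') = ρ.y ^ ρ.K' * ρ.y ^ ρ.K' * ρ.y ^ ρ.K' := by ring
      rw [b2]
      exact mul_le_mul (mul_le_mul h.fP b1 (by positivity) (by positivity)) h.fR (by positivity)
        (by positivity)
    · rw [primeFactors_fl]
      exact fun p hp => (mem_pf.1 hp).1
  · rw [eF, e22]
    push_cast
    obtain ⟨r, hr⟩ := fl_dvd ρ x.R
    refine ⟨r, ?_⟩
    linear_combination (ρ.fl x.P * x.a : ℤ) * hr - (ρ.fl x.P * ρ.fl x.R * r : ℤ) * ea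
  · intro p hp hn hd
    exact hn ((dvd_fl (prime_of_PP hp)).2 (mem_pf.2 ⟨hp, hd⟩))
  · intro p hp hd
    have p7 : (p : ℤ) ∣ x.P := hd.trans ⟨_, eP.symm⟩
    have p8 : (p : ℤ) ∣ (ρ.fl x.P : ℤ) :=
      Int.natCast_dvd_natCast.2 ((dvd_fl (prime_of_PP hp)).2 (mem_pf.2 ⟨hp, p7⟩))
    refine sq2 p hp (Dvd.dvd.mul_right ?_ _)
    rw [← eP, sq]
    exact mul_dvd_mul hd p8

theorem p_NK0 (hK4 : S_K4) :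
    S_NK0 := by
  intro C1
  refine ⟨3, fun z _ h2 => ⟨1, le_rfl, ?_⟩⟩
  obtain ⟨s1, s2, -⟩ := h2.sizes le_rfl
  filter_upwards [eventually_ge_atTop (2 : ℝ), eventually_ge_atTop ((30 * z.C1 ^ 2) ^ 2)] with y hy hc
  intro x hx
  exact NK0_main ⟨z, y⟩ x hx hy (h2.one_le_c5 y) hc s1 h2.2.2.2.2.2.2.2.2.2.2.2.1 s2

end Pool.Agent.P.MP_6f5b02_nt.Hy
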