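import Pool.Agent.P.MP_6f5b02_nt.Hy.IfM
import Pool.Agent.P.MP_8be758_nt.Pd.TSHF

/-! Step SHF. -/

namespace Pool.Agent.P.MP_6f5b02_nt.Hy

open Pool.Agent.P.MP_8be758_nt Pool.Agent.P.MP_8be758_nt.Pd
open Finset Real Filter
open Pool.Agent.P.MP_8be758_nt.Par (cj det)
open Pool.Agent.P.MP_6f5b02_nt.Hy.Par (nq mul eu un red)
open Pool.Agent.P.MP_6f5b02_nt.Hy.Mr

theorem SHF_pt {A : ℕ} (hA : 5 ≤ A) (k : ℤ) {s r : ℝ} (hs : 1 ≤ s) {v d : V2}
    (d1 : |(d.1 : ℝ)| ≤ r) (d2 : |(d.2 : ℝ)| ≤ r) (hv : Cn v) : ‖ek A k v - ek A k (v + d)‖ ≤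
      (if v ∈ An (Q0 A) 0 (s ^ 2) then 2 else 0) + 2000 * (|(k : ℝ)| + 1) * r / s := by
  have r0 : 0 ≤ r := (abs_nonneg _).trans d1
  have k0 := abs_nonneg (k : ℝ)
  have h2 : ‖ek A k v - ek A k (v + d)‖ ≤ 2 := (norm_sub_le _ _).trans (by
    linarith [norm_ek_le hA k v, norm_ek_le hA k (v + d)])
  split_ifs with h
  · exact h2.trans (le_add_of_nonneg_right (by positivity))
  have h3 : s ≤ √(nq A v) := le_sqrt_of_sq_le (not_le.1 fun e => h ((mem_An0 hA).2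
    ⟨hv, one_pos.trans_le (one_le_nq hv), e⟩)).le
  have a1 := norm_uu_sub_le (A := A) hv d1 d2
  have a3 : ‖uu A v - uu A (v + d)‖ * s ≤ 2000 * r :=
    (mul_le_mul_of_nonneg_left h3 (norm_nonneg _)).trans a1
  rw [zero_add, le_div_iff₀ (by linarith)]
  by_cases e : v + d = 0
  · rw [e, uu_zero, sub_zero, norm_uu hA hv.ne, one_mul] at a3
    have : ‖ek A k v - ek A k (v + d)‖ ≤ |(k : ℝ)| + 1 := by
      rcases eq_or_ne k 0 with rfl | hk
      · simp [ek_zero]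
      · have : (1 : ℝ) ≤ |(k : ℝ)| := by exact_mod_cast Int.one_le_abs hk
        linarith
    calc _ ≤ (|(k : ℝ)| + 1) * (2000 * r) := mul_le_mul this a3 (by linarith) (by linarith)
      _ = _ := by ring
  · have a2 := norm_zpow_sub (norm_uu hA hv.ne) (norm_uu hA e) k
    calc _ ≤ |(k : ℝ)| * ‖uu A v - uu A (v + d)‖ * s :=
          mul_le_mul_of_nonneg_right a2 (by linarith)
      _ ≤ |(k : ℝ)| * (2000 * r) := by
          rw [mul_assoc]
          exact mul_le_mul_of_nonneg_left a3 k0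
      _ ≤ _ := by nlinarith

theorem p_SHF (hSH0 : S_SH0) (hAREA : S_AREA) :
    S_SHF := by
  intro A hA
  obtain ⟨C0, hC0, H0⟩ := hSH0 A hA
  obtain ⟨c0, Ca, -, hCa, Ha⟩ := hAREA A (by omega)
  refine ⟨6006 * Ca + C0, by positivity, fun N k m v0 v1 hN hm => ?_⟩
  obtain ⟨s, hs, rfl⟩ : ∃ s : ℝ, 1 ≤ s ∧ N = s ^ 4 :=
    ⟨N ^ ((4 : ℕ)⁻¹ : ℝ), one_le_rpow hN (by positivity),
      (rpow_inv_natCast_pow (by linarith) (by norm_num)).symm⟩
  have e3 : (s ^ 4) ^ (3 / 4 : ℝ) = s ^ 3 := by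
    rw [← rpow_natCast, ← rpow_mul (by linarith), ← rpow_natCast]
    norm_num
  have e2 : √(s ^ 4) = s ^ 2 := by
    rw [show s ^ 4 = (s ^ 2) ^ 2 by ring, sqrt_sq (by positivity)]
  have s2 : s ≤ s ^ 2 := le_self_pow₀ hs two_ne_zero
  have s3 : s ^ 2 ≤ s ^ 3 := pow_le_pow_right₀ hs (by norm_num)
  have s4 : s ^ 3 ≤ s ^ 4 := pow_le_pow_right₀ hs (by norm_num)
  set d : V2 := ((v1.1 - v0.1) % m, (v1.2 - v0.2) % m) with hd
  set r : ℝ := (m : ℝ) with hr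
  have m0 : (0 : ℤ) < m := by exact_mod_cast hm
  have m1 : (1 : ℝ) ≤ m := by exact_mod_cast hm
  have r1 : 1 ≤ r := m1
  have bd : ∀ x : ℤ, |((x % m : ℤ) : ℝ)| ≤ m := fun x => by
    have h1 := Int.emod_nonneg x m0.ne'
    have h2 := Int.emod_lt_of_pos x m0
    exact_mod_cast (show |x % m| ≤ (m : ℤ) from abs_le.2 ⟨by omega, h2.le⟩)
  have cg : ∀ v : V2, C2 m (v + d) v1 ↔ C2 m v v0 := fun v =>
    and_congr (SHF_mod _ _ _) (SHF_mod _ _ _)
  have b1 := H0 (s ^ 4) r d (fun v => if C2 m v v1 then ek A k v else 0) hN r1 (bd _) (bd _)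
    fun v => by
      split_ifs
      exacts [norm_ek_le hA k v, by simp]
  simp only [cg] at b1
  rw [← sum_filter, ← sum_filter, e2] at b1
  have c1 := (Ha _ (Q0_mem (by omega)) 0 (s ^ 4) le_rfl (by positivity)).2
  have c2 := (Ha _ (Q0_mem (by omega)) 0 (s ^ 2) le_rfl (by positivity)).2
  rw [e2] at c1
  rw [sqrt_sq (by positivity)] at c2
  have k0 := abs_nonneg (k : ℝ)
  have b2 : ‖∑ v ∈ (An (Q0 A) 0 (s ^ 4)).filter (fun v => C2 m v v0), ek A k v -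
      ∑ v ∈ (An (Q0 A) 0 (s ^ 4)).filter (fun v => C2 m v v0), ek A k (v + d)‖ ≤
      6 * Ca * s ^ 3 + 6000 * Ca * ((|(k : ℝ)| + 1) * r) * s ^ 3 := by
    rw [← sum_sub_distrib]
    refine (norm_sum_le _ _).trans ((sum_le_sum_of_subset_of_nonneg (filter_subset _ _)
      fun _ _ _ => norm_nonneg _).trans ((sum_le_sum fun v hv =>
        SHF_pt (d := d) hA k hs (bd _) (bd _) ((mem_An0 hA).1 hv).1).trans ?_))
    rw [sum_add_distrib, ← sum_filter, sum_const, sum_const, nsmul_eq_mul, nsmul_eq_mul]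
    refine add_le_add ?_ ?_
    · have : (((An (Q0 A) 0 (s ^ 4)).filter (· ∈ An (Q0 A) 0 (s ^ 2))).card : ℝ) ≤
          (An (Q0 A) 0 (s ^ 2)).card := by
        exact_mod_cast card_le_card fun v hv => (mem_filter.1 hv).2
      nlinarith
    · have : ((An (Q0 A) 0 (s ^ 4)).card : ℝ) ≤ 3 * Ca * s ^ 4 := by nlinarith
      refine (mul_le_mul_of_nonneg_right this (by positivity)).trans (le_of_eq ?_)
      field_simp
      ring
  rw [e3]
  refine (norm_sub_le_norm_sub_add_norm_sub _ _ _).trans ((add_le_add b2 b1).trans ?_)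
  have t1 : 1 ≤ (|(k : ℝ)| + 1) * r := one_le_mul_of_one_le_of_one_le (by linarith) r1
  have t2 : r * s ^ 2 ≤ (|(k : ℝ)| + 1) * r * s ^ 3 :=
    mul_le_mul (le_mul_of_one_le_left (by linarith) (by linarith)) s3 (by positivity) (by linarith)
  have t3 : s ^ 3 ≤ (|(k : ℝ)| + 1) * r * s ^ 3 := le_mul_of_one_le_left (by positivity) t1
  calc _ ≤ (6006 * Ca + C0) * ((|(k : ℝ)| + 1) * r * s ^ 3) := by
        nlinarith [mul_le_mul_of_nonneg_left t2 hC0.le, mul_le_mul_of_nonneg_left t3 hCa.le]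
    _ = _ := by ring

end Pool.Agent.P.MP_6f5b02_nt.Hy
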