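import Pool.Agent.P.MP_6f5b02_nt.Hy.All
import Pool.Agent.P.MP_6f5b02_nt.Hy.Final

namespace Pool.Agent.P.MP_6f5b02_nt.Hy

/-- Side remark, not handed in: the parity of the count at `2` is attained with positive density
for every set `P`. -/
theorem parity_two_side :
    ∃ c : ℝ, 0 < c ∧ ∀ᶠ X : ℕ in Filter.atTop, ∀ (P : ℕ → Bool),
      c * X ≤ (((Finset.Icc 2 X).filter fun n =>
        (n * (n + 1) / 2 - 2).primeFactorsList.countP P % 2 =
          (Nat.primeFactorsList 2).countP P % 2).card : ℝ) := by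
  obtain ⟨c, hc, h⟩ := G.cnt_of_top g_TRANSFER g_TRI g_TOP 0 (by norm_num)
  refine ⟨c, hc, h.mono fun X hX P => ?_⟩
  obtain ⟨a, -⟩ := hX (fun m => (-1) ^ m.primeFactorsList.countP P) (G.par_mul P)
    fun n _ => neg_one_pow_eq_or ℤ _
  simp only [G.par_iff] at a
  exact a

end Pool.Agent.P.MP_6f5b02_nt.Hy
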